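import Pool.Agent.MP_92c74b_an.Brouwer

open Set Metric
open scoped Topology

noncomputable section

namespace Pool.Agent.MP_efb2da_gt

/-- Schwarz lemma on complex lines: a bounded holomorphic map is Lipschitz on a smaller ball -/
theorem Contract_lip {E : Type} [NormedAddCommGroup E] [NormedSpace ℂ E] {G : E → E}
    (hb : ∀ x, ‖x‖ < 1 → ‖G x‖ ≤ 1/8)
    (hd : ∀ x d : E, DifferentiableOn ℂ (fun τ : ℂ => G (x + τ • d)) {τ | ‖x + τ • d‖ < 1})
    {x x' : E} (hx : ‖x‖ ≤ 1/4) (hx' : ‖x'‖ ≤ 1/4) : ‖G x' - G x‖ ≤ 1/3 * ‖x' - x‖ := by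
  by_cases h : x' = x
  · simp [h]
  have hδ : 0 < ‖x' - x‖ := norm_pos_iff.2 (sub_ne_zero.2 h)
  have hδ2 : ‖x' - x‖ ≤ 1/2 := (norm_sub_le _ _).trans (by linarith)
  set δ := ‖x' - x‖ with hδdef
  have hδc : (δ : ℂ) ≠ 0 := by exact_mod_cast hδ.ne'
  set u : E := (δ : ℂ)⁻¹ • (x' - x) with hu
  have hun : ‖u‖ = 1 := by
    rw [hu, norm_smul, norm_inv, Complex.norm_real, Real.norm_eq_abs, abs_of_pos hδ, ← hδdef]
    field_simp
  have hsub : ∀ τ ∈ ball (0:ℂ) (3/4), ‖x + τ • u‖ < 1 := by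
    intro τ hτ
    rw [mem_ball_zero_iff] at hτ
    calc ‖x + τ • u‖ ≤ ‖x‖ + ‖τ • u‖ := norm_add_le _ _
      _ = ‖x‖ + ‖τ‖ := by rw [norm_smul, hun, mul_one]
      _ < 1 := by linarith
  have h1 : DifferentiableOn ℂ (fun τ : ℂ => G (x + τ • u)) (ball 0 (3/4)) :=
    (hd x u).mono fun τ hτ => hsub τ hτ
  have h2 : MapsTo (fun τ : ℂ => G (x + τ • u)) (ball 0 (3/4))
      (closedBall ((fun τ : ℂ => G (x + τ • u)) 0) (1/4)) := by
    intro τ hτ
    rw [mem_closedBall, dist_eq_norm]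
    have a1 := hb _ (hsub τ hτ)
    have a2 := hb _ (hsub 0 (mem_ball_self (by norm_num)))
    exact (norm_sub_le _ _).trans (by linarith)
  have hz : (δ : ℂ) ∈ ball (0:ℂ) (3/4) := by
    rw [mem_ball_zero_iff, Complex.norm_real, Real.norm_eq_abs, abs_of_pos hδ]
    linarith
  have h3 := Complex.dist_le_div_mul_dist_of_mapsTo_ball h1 h2 hz
  have e1 : x + (δ : ℂ) • u = x' := by
    rw [hu, smul_smul, mul_inv_cancel₀ hδc, one_smul]
    abel
  simp only [e1, zero_smul, add_zero, sub_zero, Complex.norm_real, Real.norm_eq_abs,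
    abs_of_pos hδ, dist_eq_norm] at h3
  linarith

/-- holomorphic maps with small range are contractions; parameter dependent fixed points -/
theorem contract {E P : Type} [NormedAddCommGroup E] [NormedSpace ℂ E] [CompleteSpace E]
    [TopologicalSpace P] {K : Set P} {F : P → E → E} {C : Set E} (ρ : E →L[ℝ] E)
    (hρ : ∀ x, ‖ρ x‖ ≤ ‖x‖) (hb : ∀ p ∈ K, ∀ x, ‖x‖ < 1 → ‖F p x‖ ≤ 1/8)
    (hd : ∀ p ∈ K, ∀ x d : E, DifferentiableOn ℂ (fun τ : ℂ => F p (x + τ • d))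
      {τ | ‖x + τ • d‖ < 1})
    (hc : ∀ x, ‖x‖ ≤ 1/4 → ContinuousOn (fun p => F p x) K) (hC : IsClosed C) (h0 : (0:E) ∈ C)
    (hinv : ∀ p ∈ K, ∀ x ∈ C, ‖x‖ ≤ 1/4 → ρ (F p x) ∈ C) :
    ∃ e : P → E, ContinuousOn e K ∧ ∀ p ∈ K, ‖e p‖ ≤ 1/4 ∧ e p ∈ C ∧ ρ (F p (e p)) = e p := by
  classical
  have lip : ∀ p ∈ K, ∀ x x' : E, ‖x‖ ≤ 1/4 → ‖x'‖ ≤ 1/4 →
      ‖ρ (F p x') - ρ (F p x)‖ ≤ 1/3 * ‖x' - x‖ := by
    intro p hp x x' hx hx'
    rw [← map_sub]
    exact (hρ _).trans (Contract_lip (hb p hp) (hd p hp) hx hx')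
  have ex : ∀ p ∈ K, ∃ y : E, ‖y‖ ≤ 1/4 ∧ y ∈ C ∧ ρ (F p y) = y := by
    intro p hp
    have hcl : IsClosed (C ∩ closedBall (0:E) (1/4)) := hC.inter isClosed_closedBall
    have hm : MapsTo (fun x => ρ (F p x)) (C ∩ closedBall (0:E) (1/4))
        (C ∩ closedBall (0:E) (1/4)) := by
      intro x hx
      have hx2 : ‖x‖ ≤ 1/4 := mem_closedBall_zero_iff.1 hx.2
      refine ⟨hinv p hp x hx.1 hx2, mem_closedBall_zero_iff.2 ?_⟩
      have := hb p hp x (by linarith)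
      exact (hρ _).trans (by linarith)
    have hk : ContractingWith (1/3 : NNReal) (hm.restrict _ _ _) := by
      refine ⟨by norm_num, LipschitzWith.of_dist_le_mul fun x x' => ?_⟩
      rw [Subtype.dist_eq, Subtype.dist_eq, dist_eq_norm, dist_eq_norm]
      have := lip p hp x'.1 x.1 (mem_closedBall_zero_iff.1 x'.2.2)
        (mem_closedBall_zero_iff.1 x.2.2)
      simpa using this
    obtain ⟨y, hy, hfix, -⟩ := ContractingWith.exists_fixedPoint' hcl.isComplete hm hk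
      (x := 0) ⟨h0, mem_closedBall_self (by norm_num)⟩ (edist_ne_top _ _)
    exact ⟨y, mem_closedBall_zero_iff.1 hy.2, hy.1, hfix⟩
  choose! e he using ex
  refine ⟨e, fun p0 hp0 => ?_, he⟩
  have key : ∀ p ∈ K, ‖e p - e p0‖ ≤ 3/2 * ‖F p (e p0) - F p0 (e p0)‖ := by
    intro p hp
    obtain ⟨a1, -, a3⟩ := he p hp
    obtain ⟨b1, -, b3⟩ := he p0 hp0
    have c1 := lip p hp (e p0) (e p) b1 a1
    have c2 : ‖ρ (F p (e p0)) - ρ (F p0 (e p0))‖ ≤ ‖F p (e p0) - F p0 (e p0)‖ := by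
      rw [← map_sub]; exact hρ _
    have c3 : e p - e p0 = (ρ (F p (e p)) - ρ (F p (e p0)))
        + (ρ (F p (e p0)) - ρ (F p0 (e p0))) := by
      rw [a3, b3]; abel
    have c4 : ‖e p - e p0‖ ≤ ‖ρ (F p (e p)) - ρ (F p (e p0))‖
        + ‖ρ (F p (e p0)) - ρ (F p0 (e p0))‖ := by
      conv_lhs => rw [c3]
      exact norm_add_le _ _
    linarith
  have hc0 := hc (e p0) (he p0 hp0).1 p0 hp0
  rw [ContinuousWithinAt, tendsto_iff_norm_sub_tendsto_zero] at hc0 ⊢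
  have h2 := hc0.const_mul (3/2 : ℝ)
  rw [mul_zero] at h2
  refine squeeze_zero' (Filter.Eventually.of_forall fun _ => norm_nonneg _) ?_ h2
  filter_upwards [self_mem_nhdsWithin] with p hp using key p hp

/-- Poincare-Miranda -/
theorem miranda {ι : Type} [Fintype ι] (h : (ι → ℝ) → ι → ℝ)
    (hc : ContinuousOn h {x | ∀ i, |x i| ≤ 1})
    (hp : ∀ x : ι → ℝ, (∀ i, |x i| ≤ 1) → ∀ i, (x i = 1 → 0 < h x i) ∧ (x i = -1 → h x i < 0)) :
    ∃ x : ι → ℝ, (∀ i, |x i| ≤ 1) ∧ h x = 0 := by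
  let f : (ι → ℝ) → ι → ℝ := fun x i => max (-1) (min 1 (x i - h x i))
  have hf : ContinuousOn f {x | ∀ i, |x i| ≤ 1} := by
    refine continuousOn_pi.2 fun i => ?_
    have h1 : ContinuousOn (fun x => h x i) {x | ∀ i, |x i| ≤ 1} :=
      (continuous_apply i).comp_continuousOn hc
    have h2 : ContinuousOn (fun x : ι → ℝ => x i - h x i) {x | ∀ i, |x i| ≤ 1} :=
      (continuous_apply i).continuousOn.sub h1
    have h3 : Continuous fun t : ℝ => max (-1) (min 1 t) := by fun_prop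
    exact h3.comp_continuousOn h2
  obtain ⟨a, ha, hfa⟩ := MP_92c74b_an.brouwer_cube (b := 1) zero_le_one f hf (by
    intro a _ i
    rw [abs_le]
    exact ⟨le_max_left _ _, max_le (by norm_num) (min_le_left _ _)⟩)
  refine ⟨a, ha, funext fun i => ?_⟩
  have e : max (-1) (min 1 (a i - h a i)) = a i := congrFun hfa i
  obtain ⟨p1, p2⟩ := hp a ha i
  have hai := abs_le.1 (ha i)
  show h a i = 0
  rcases le_total 1 (a i - h a i) with c | c
  · rw [min_eq_left c, max_eq_right (by norm_num)] at e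
    have := p1 e.symm
    linarith
  · rw [min_eq_right c] at e
    rcases le_total (-1) (a i - h a i) with c' | c'
    · rw [max_eq_right c'] at e
      linarith
    · rw [max_eq_left c'] at e
      have := p2 e.symm
      linarith

/-- uniform continuity near a compact set -/
theorem unif_near {X Y : Type} [PseudoMetricSpace X] [PseudoMetricSpace Y] {K : Set X}
    (hK : IsCompact K) {f : X → Y} (hf : ∀ x ∈ K, ContinuousAt f x) {η : ℝ} (hη : 0 < η) :
    ∃ δ > 0, ∀ x ∈ K, ∀ x', dist x' x ≤ δ → dist (f x') (f x) ≤ η := by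
  have h1 := hK.uniformContinuousAt_of_continuousAt f hf (dist_mem_uniformity hη)
  obtain ⟨ε, hε, h2⟩ := mem_uniformity_dist.1 h1
  refine ⟨ε / 2, by positivity, fun x hx x' hx' => ?_⟩
  have h3 : dist x x' < ε := by rw [dist_comm]; linarith
  have h4 : dist (f x) (f x') < η := h2 h3 hx
  rw [dist_comm]
  exact h4.le

/-- an open property holds uniformly near a compact set -/
theorem prop_near {X : Type} [PseudoMetricSpace X] {K : Set X} (hK : IsCompact K) {p : X → Prop}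
    (hp : ∀ x ∈ K, ∀ᶠ y in 𝓝 x, p y) : ∃ δ > 0, ∀ x ∈ K, ∀ x', dist x' x ≤ δ → p x' := by
  have h1 : K ⊆ interior {y | p y} := fun x hx => mem_interior_iff_mem_nhds.2 (hp x hx)
  obtain ⟨δ, hδ, h2⟩ := hK.exists_cthickening_subset_open isOpen_interior h1
  refine ⟨δ, hδ, fun x hx x' hx' => ?_⟩
  exact interior_subset (h2 (mem_cthickening_of_dist_le x' x δ K hx hx'))

end Pool.Agent.MP_efb2da_gt
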