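import Pool.Agent.MP_efb2da_gt.Polar

open scoped ContDiff ComplexConjugate Topology
open Set Complex

noncomputable section

namespace Pool.Agent.MP_efb2da_gt

open MeasureTheory in
/-- area below a radial graph, in polar coordinates -/
lemma Area_vol {r : ℝ → ℝ} (hr : Continuous r) (hpos : ∀ t, 0 < r t)
    (hm : MeasurableSet {z : ℂ | ‖z‖ < r (arg z)}) :
    (volume {z : ℂ | ‖z‖ < r (arg z)}).toReal =
      ∫ t in (-Real.pi)..Real.pi, r t ^ 2 / 2 := by
  have hpi := Real.pi_pos
  have e1 : volume {z : ℂ | ‖z‖ < r (arg z)} =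
      ∫⁻ z, ({z : ℂ | ‖z‖ < r (arg z)}).indicator (fun _ => (1 : ENNReal)) z := by
    rw [lintegral_indicator_const hm, one_mul]
  have hmeas : MeasurableSet {p : ℝ × ℝ | p.1 < r p.2} :=
    (isOpen_lt continuous_fst (hr.comp continuous_snd)).measurableSet
  have e2 : (∫⁻ p in polarCoord.target, ENNReal.ofReal p.1 •
      ({z : ℂ | ‖z‖ < r (arg z)}).indicator (fun _ => (1 : ENNReal)) (Complex.polarCoord.symm p)) =
      ∫⁻ p in Ioi (0:ℝ) ×ˢ Ioo (-Real.pi) Real.pi,
        ({p : ℝ × ℝ | p.1 < r p.2}).indicator (fun p => ENNReal.ofReal p.1) p := by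
    change (∫⁻ p in Ioi (0:ℝ) ×ˢ Ioo (-Real.pi) Real.pi, _) = _
    refine setLIntegral_congr_fun (measurableSet_Ioi.prod measurableSet_Ioo) fun p hp => ?_
    obtain ⟨hp1, hp2⟩ := hp
    have hp1' : 0 < p.1 := hp1
    have ha : arg (Complex.polarCoord.symm p) = p.2 := by
      rw [Complex.polarCoord_symm_apply, Complex.ofReal_cos, Complex.ofReal_sin]
      exact arg_mul_cos_add_sin_mul_I hp1' ⟨hp2.1, hp2.2.le⟩
    have hn : ‖Complex.polarCoord.symm p‖ = p.1 := by
      rw [norm_polarCoord_symm, abs_of_pos hp1']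
    by_cases h : p.1 < r p.2
    · have h' : Complex.polarCoord.symm p ∈ {z : ℂ | ‖z‖ < r (arg z)} := by
        simpa only [mem_ofPred_eq, ha, hn] using h
      have h'' : p ∈ {p : ℝ × ℝ | p.1 < r p.2} := h
      simp only [indicator_of_mem h', indicator_of_mem h'', smul_eq_mul, mul_one]
    · have h' : Complex.polarCoord.symm p ∉ {z : ℂ | ‖z‖ < r (arg z)} := by
        simpa only [mem_ofPred_eq, ha, hn] using h
      have h'' : p ∉ {p : ℝ × ℝ | p.1 < r p.2} := h
      simp only [indicator_of_notMem h', indicator_of_notMem h'', smul_zero]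
  have hf : Measurable (({p : ℝ × ℝ | p.1 < r p.2}).indicator (fun p => ENNReal.ofReal p.1)) :=
    (ENNReal.measurable_ofReal.comp measurable_fst).indicator hmeas
  have e3 : ∀ t, (∫⁻ x in Ioi (0:ℝ),
      ({p : ℝ × ℝ | p.1 < r p.2}).indicator (fun p => ENNReal.ofReal p.1) (x, t)) =
      ENNReal.ofReal (r t ^ 2 / 2) := by
    intro t
    have : (fun x : ℝ => ({p : ℝ × ℝ | p.1 < r p.2}).indicator (fun p => ENNReal.ofReal p.1) (x, t))
        = (Iio (r t)).indicator (fun x => ENNReal.ofReal x) := by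
      funext x
      by_cases h : x < r t
      · have h1 : (x, t) ∈ {p : ℝ × ℝ | p.1 < r p.2} := h
        have h2 : x ∈ Iio (r t) := h
        simp only [indicator_of_mem h1, indicator_of_mem h2]
      · have h1 : (x, t) ∉ {p : ℝ × ℝ | p.1 < r p.2} := h
        have h2 : x ∉ Iio (r t) := h
        simp only [indicator_of_notMem h1, indicator_of_notMem h2]
    rw [this, lintegral_indicator measurableSet_Iio, Measure.restrict_restrict measurableSet_Iio,
      inter_comm, Ioi_inter_Iio, ← ofReal_integral_eq_lintegral_ofReal]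
    · congr 1
      rw [← integral_Ioc_eq_integral_Ioo, ← intervalIntegral.integral_of_le (hpos t).le,
        integral_id]
      ring
    · exact (continuous_id.continuousOn.integrableOn_Icc).mono_set Ioo_subset_Icc_self
    · filter_upwards [ae_restrict_mem measurableSet_Ioo] with x hx using hx.1.le
  have hc : Continuous fun t => r t ^ 2 / 2 := by fun_prop
  rw [e1, ← Complex.lintegral_comp_polarCoord_symm, e2, Measure.volume_eq_prod,
    ← Measure.prod_restrict, lintegral_prod_symm' _ hf]
  simp only [e3]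
  rw [← ofReal_integral_eq_lintegral_ofReal, ENNReal.toReal_ofReal,
    intervalIntegral.integral_of_le (by linarith), integral_Ioc_eq_integral_Ioo]
  · exact integral_nonneg fun t => by positivity
  · exact (hc.continuousOn.integrableOn_Icc).mono_set Ioo_subset_Icc_self
  · exact Filter.Eventually.of_forall fun t => by positivity

/-- a continuous periodic function of the argument is continuous off the origin -/
lemma Area_contAt {r : ℝ → ℝ} (hr : Continuous r) (hp : Function.Periodic r (2 * Real.pi))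
    {z : ℂ} (hz : z ≠ 0) : ContinuousAt (fun z : ℂ => r (arg z)) z := by
  have hR : Continuous (hp.lift : Real.Angle → ℝ) := by
    have hq : Topology.IsQuotientMap ((↑) : ℝ → Real.Angle) :=
      QuotientAddGroup.isQuotientMap_mk _
    exact hq.continuous_iff.2 hr
  exact hR.continuousAt.comp (continuousAt_arg_coe_angle hz)

lemma Area_bounds {r : ℝ → ℝ} (hr : Continuous r) (hpos : ∀ t, 0 < r t) :
    ∃ m M : ℝ, 0 < m ∧ ∀ z : ℂ, m ≤ r (arg z) ∧ r (arg z) ≤ M := by
  have hne : (Icc (-Real.pi) Real.pi).Nonempty := nonempty_Icc.2 (by linarith [Real.pi_pos])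
  obtain ⟨a, -, ha⟩ := isCompact_Icc.exists_isMinOn hne hr.continuousOn
  obtain ⟨b, -, hb⟩ := isCompact_Icc.exists_isMaxOn hne hr.continuousOn
  refine ⟨r a, r b, hpos a, fun z => ?_⟩
  have hz : arg z ∈ Icc (-Real.pi) Real.pi := ⟨(neg_pi_lt_arg z).le, arg_le_pi z⟩
  exact ⟨ha hz, hb hz⟩

lemma Area_open_in {r : ℝ → ℝ} (hr : Continuous r) (hp : Function.Periodic r (2 * Real.pi))
    (hpos : ∀ t, 0 < r t) : IsOpen {z : ℂ | ‖z‖ < r (arg z)} := by
  obtain ⟨m, M, hm, hb⟩ := Area_bounds hr hpos
  refine isOpen_iff_mem_nhds.2 fun z hz => ?_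
  by_cases h0 : z = 0
  · subst h0
    filter_upwards [Metric.ball_mem_nhds (0:ℂ) hm] with w hw
    rw [mem_ball_zero_iff] at hw
    exact hw.trans_le (hb w).1
  · exact continuous_norm.continuousAt.eventually_lt (Area_contAt hr hp h0) hz

lemma Area_open_out {r : ℝ → ℝ} (hr : Continuous r) (hp : Function.Periodic r (2 * Real.pi))
    (hpos : ∀ t, 0 < r t) : IsOpen {z : ℂ | r (arg z) < ‖z‖} := by
  refine isOpen_iff_mem_nhds.2 fun z hz => ?_
  have h0 : z ≠ 0 := by
    rintro rfl
    have := hpos (arg 0)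
    simp only [mem_ofPred_eq, norm_zero] at hz
    linarith
  exact (Area_contAt hr hp h0).eventually_lt continuous_norm.continuousAt hz

/-- the bounded components of the complement of a radial graph -/
lemma Area_inside {r : ℝ → ℝ} (hr : Continuous r) (hp : Function.Periodic r (2 * Real.pi))
    (hpos : ∀ t, 0 < r t) (S : E2 ≃ₗᵢ[ℝ] ℂ) :
    inside (S ⁻¹' {z : ℂ | ‖z‖ = r (arg z)}) = S ⁻¹' {z : ℂ | ‖z‖ < r (arg z)} := by
  obtain ⟨m, M, hm, hb⟩ := Area_bounds hr hpos
  have hin := (Area_open_in hr hp hpos).preimage S.continuous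
  have hout := (Area_open_out hr hp hpos).preimage S.continuous
  ext x
  simp only [inside, mem_ofPred_eq, mem_preimage]
  constructor
  · rintro ⟨hx, hbd⟩
    rcases lt_or_gt_of_ne hx with h | h
    · exact h
    · exfalso
      have hx0 : 0 < ‖S x‖ := (hpos _).trans h
      have hray : (fun t : ℝ => t • x) '' Ici 1 ⊆
          connectedComponentIn (S ⁻¹' {z : ℂ | ‖z‖ = r (arg z)})ᶜ x := by
        refine (isPreconnected_Ici.image _ (by fun_prop)).subset_connectedComponentIn
          ⟨1, mem_Ici.2 le_rfl, one_smul _ _⟩ ?_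
        rintro _ ⟨t, ht, rfl⟩
        have ht1 : (1:ℝ) ≤ t := ht
        have ht0 : (0:ℝ) < t := by linarith
        simp only [mem_compl_iff, mem_preimage, mem_ofPred_eq, map_smul]
        rw [norm_smul, Complex.real_smul, arg_real_mul _ ht0, Real.norm_eq_abs, abs_of_pos ht0]
        nlinarith
      obtain ⟨R, hR⟩ := (hbd.subset hray).exists_norm_le
      have hx1 : ‖S x‖ = ‖x‖ := S.norm_map x
      have hxp : 0 < ‖x‖ := hx1 ▸ hx0
      have hR0 : 0 ≤ R := (norm_nonneg _).trans (hR _ ⟨1, mem_Ici.2 le_rfl, rfl⟩)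
      have ht : (1:ℝ) ≤ R / ‖x‖ + 1 := by have := div_nonneg hR0 hxp.le; linarith
      have := hR _ ⟨R / ‖x‖ + 1, mem_Ici.2 ht, rfl⟩
      simp only [norm_smul, Real.norm_eq_abs, abs_of_pos (show (0:ℝ) < R / ‖x‖ + 1 by linarith)]
        at this
      rw [add_mul, div_mul_cancel₀ _ hxp.ne'] at this
      linarith
  · intro h
    refine ⟨h.ne, ?_⟩
    have hsub : connectedComponentIn (S ⁻¹' {z : ℂ | ‖z‖ = r (arg z)})ᶜ x ⊆
        S ⁻¹' {z : ℂ | ‖z‖ < r (arg z)} := by
      refine isPreconnected_connectedComponentIn.subset_left_of_subset_union hin hout ?_ ?_ ?_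
      · refine Set.disjoint_left.2 fun y h1 h2 => ?_
        simp only [mem_preimage, mem_ofPred_eq] at h1 h2
        linarith
      · intro y hy
        have := connectedComponentIn_subset _ _ hy
        simp only [mem_compl_iff, mem_preimage, mem_ofPred_eq] at this
        rcases lt_or_gt_of_ne this with h1 | h1
        · exact Or.inl h1
        · exact Or.inr h1
      · exact ⟨x, mem_connectedComponentIn (by simpa using h.ne), h⟩
    refine (Metric.isBounded_ball (x := (0:E2)) (r := M)).subset fun y hy => ?_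
    have := hsub hy
    simp only [mem_preimage, mem_ofPred_eq, S.norm_map] at this
    rw [mem_ball_zero_iff]
    exact this.trans_le (hb _).2

theorem polar_area {Γ : ℝ → ℂ} (hΓ : ContDiff ℝ ∞ Γ) (hp : Function.Periodic Γ 1) {θ : ℝ → ℝ}
    (h1 : ∀ s, Γ s = ‖Γ s‖ * exp (I * θ s)) (h2 : ∀ s, θ (s + 1) = θ s + 2 * Real.pi)
    (h3 : ∀ s, Γ s ≠ 0) (h4 : ∀ s, 0 < (conj (Γ s) * deriv Γ s).im)
    (h5 : ∀ s, HasDerivAt θ ((conj (Γ s) * deriv Γ s).im / ‖Γ s‖ ^ 2) s) :
    InjOn Γ (Ico 0 1) ∧
      area (inside (range fun s => toE2 (Γ s))) =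
        (1/2) * ∫ s in (0:ℝ)..1, (conj (Γ s) * deriv Γ s).im := by
  have hpi := Real.pi_pos
  have hn : ∀ s, 0 < ‖Γ s‖ := fun s => norm_pos_iff.2 (h3 s)
  have hmono : StrictMono θ :=
    strictMono_of_hasDerivAt_pos h5 fun s => div_pos (h4 s) (pow_pos (hn s) 2)
  have hθc : Continuous θ := continuous_iff_continuousAt.2 fun s => (h5 s).continuousAt
  have hper : Function.Periodic (fun s => θ s - 2 * Real.pi * s) 1 := by
    intro s; simp only [h2]; ring
  have hint : ∀ (s : ℝ) (n : ℤ), θ (s + n) = θ s + n * (2 * Real.pi) := by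
    intro s n
    have := hper.int_mul n s
    simp only [mul_one] at this
    linarith
  have hsurj : Function.Surjective θ := by
    intro y
    obtain ⟨n, hn1⟩ := exists_int_gt ((y - θ 0) / (2 * Real.pi))
    obtain ⟨k, hk1⟩ := exists_int_lt ((y - θ 0) / (2 * Real.pi))
    rw [div_lt_iff₀ (by positivity)] at hn1
    rw [lt_div_iff₀ (by positivity)] at hk1
    refine mem_range_of_exists_le_of_exists_ge hθc ⟨0 + k, ?_⟩ ⟨0 + n, ?_⟩
    · rw [hint]; linarith
    · rw [hint]; linarith
  let e : ℝ ≃o ℝ := hmono.orderIsoOfSurjective θ hsurj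
  have he1 : ∀ s, e.symm (θ s) = s := fun s => e.symm_apply_apply s
  have he2 : ∀ t, θ (e.symm t) = t := fun t => e.apply_symm_apply t
  have hec : Continuous e.symm := e.symm.continuous
  let r : ℝ → ℝ := fun t => ‖Γ (e.symm t)‖
  have hrc : Continuous r := (hΓ.continuous.comp hec).norm
  have hrpos : ∀ t, 0 < r t := fun t => hn _
  have hrθ : ∀ s, r (θ s) = ‖Γ s‖ := fun s => by simp only [r, he1]
  have hrp : Function.Periodic r (2 * Real.pi) := by
    intro t
    have : t + 2 * Real.pi = θ (e.symm t + 1) := by rw [h2, he2]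
    rw [this, hrθ, hp]
  refine ⟨?_, ?_⟩
  · intro s hs t ht hst
    have h := h1 s
    rw [hst] at h
    have h' : (‖Γ t‖ : ℂ) * exp (I * θ s) = ‖Γ t‖ * exp (I * θ t) := h.symm.trans (h1 t)
    have h'' := mul_left_cancel₀ (by exact_mod_cast (hn t).ne') h'
    obtain ⟨n, hn'⟩ := exp_eq_exp_iff_exists_int.1 h''
    have him := congrArg Complex.im hn'
    simp at him
    have hs' : s = t + n := hmono.injective (by rw [hint]; linarith)
    have hn1 : (n:ℝ) < 1 := by linarith [hs.2, ht.1]
    have hn2 : (-1:ℝ) < n := by linarith [hs.1, ht.2]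
    have hn3 : n < 1 := by exact_mod_cast hn1
    have hn4 : -1 < n := by exact_mod_cast hn2
    have hn0 : n = 0 := by omega
    simpa [hn0] using hs'
  · let S : E2 ≃ₗᵢ[ℝ] ℂ := Complex.orthonormalBasisOneI.repr.symm
    have hS : ∀ w : ℂ, S (toE2 w) = w := by
      intro w
      simp only [S, Complex.orthonormalBasisOneI_repr_symm_apply, toE2]
      apply Complex.ext <;> simp
    have hrange : (range fun s => toE2 (Γ s)) = S ⁻¹' {z : ℂ | ‖z‖ = r (arg z)} := by
      ext x
      simp only [mem_range, mem_preimage, mem_ofPred_eq]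
      constructor
      · rintro ⟨s, rfl⟩
        rw [hS]
        have ha : arg (Γ s) = toIocMod Real.two_pi_pos (-Real.pi) (θ s) := by
          conv_lhs => rw [h1 s]
          rw [arg_real_mul _ (hn s), mul_comm I, arg_exp_mul_I]
        rw [ha, toIocMod, hrp.sub_zsmul_eq, hrθ]
      · intro hx
        refine ⟨e.symm (arg (S x)), S.injective ?_⟩
        rw [hS, h1, he2]
        change (r (arg (S x)) : ℂ) * _ = _
        rw [← hx, mul_comm I, norm_mul_exp_arg_mul_I]
    have hopen := Area_open_in hrc hrp hrpos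
    rw [hrange, Area_inside hrc hrp hrpos S, area,
      Complex.orthonormalBasisOneI.measurePreserving_repr_symm.measure_preimage
        hopen.measurableSet.nullMeasurableSet,
      Area_vol hrc hrpos hopen.measurableSet]
    have hp2 : Function.Periodic (fun t => r t ^ 2 / 2) (2 * Real.pi) := by
      intro t; simp only [hrp t]
    have hc : Continuous fun t => r t ^ 2 / 2 := by fun_prop
    have hd : Continuous (deriv Γ) := hΓ.continuous_deriv (by simp)
    have hΓc := hΓ.continuous
    have hc' : Continuous fun s => (conj (Γ s) * deriv Γ s).im / ‖Γ s‖ ^ 2 := by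
      refine Continuous.div ?_ (by fun_prop) fun s => (pow_pos (hn s) 2).ne'
      fun_prop
    have e1 := hp2.intervalIntegral_add_eq (-Real.pi) (θ 0)
    have e2 := intervalIntegral.integral_comp_mul_deriv (a := 0) (b := 1) (fun s _ => h5 s)
      hc'.continuousOn hc
    have e3 : θ 1 = θ 0 + 2 * Real.pi := by simpa using h2 0
    rw [show -Real.pi + 2 * Real.pi = Real.pi by ring] at e1
    rw [e1, ← e3, ← e2, ← intervalIntegral.integral_const_mul]
    refine intervalIntegral.integral_congr fun s _ => ?_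
    simp only [Function.comp, hrθ]
    have := (hn s).ne'
    field_simp

end Pool.Agent.MP_efb2da_gt
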