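import Pool.Agent.MP_efb2da_gt.Fr2

open Set Complex
open scoped Topology ComplexConjugate Matrix ContDiff

noncomputable section

namespace Pool.Agent.MP_efb2da_gt

/-- the potential on the `k`-fold cover of a cap, after the gauge -/
def xiCap (k : ℕ) (φ : W) (m : ℂ → MW) (w : ℂ) : MW :=
  !![w ^ (k - 1) • m (w ^ k) 0 0, φ + w ^ k • m (w ^ k) 0 1;
    w ^ (k - 2) • m (w ^ k) 1 0, w ^ (k - 1) • m (w ^ k) 1 1]

def dg (a : ℂ) : MW := cst !![a⁻¹, 0; 0, a]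

lemma Cap1_dg (a : ℂ) : dg a = !![a⁻¹ • (1 : W), 0; 0, a • (1 : W)] := by
  ext i j
  fin_cases i <;> fin_cases j <;> simp [dg, Algebra.algebraMap_eq_smul_one]

lemma Cap1_conj {a : ℂ} (ha : a ≠ 0) (M : MW) :
    dg a⁻¹ * M * dg a = !![M 0 0, (a ^ 2) • M 0 1; (a ^ 2)⁻¹ • M 1 0, M 1 1] := by
  ext i j
  simp only [matApi2_mulW, Cap1_dg]
  fin_cases i <;> fin_cases j <;> simp [smul_smul, ha, sq]

lemma Cap1_adj (a : ℂ) : adj (dg a) = dg a⁻¹ := by
  ext i j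
  fin_cases i <;> fin_cases j <;> simp [Cap1_dg, adj_apply]

lemma Cap1_det {a : ℂ} (ha : a ≠ 0) : (dg a).det = 1 := by
  rw [dg, det_cst, Matrix.det_fin_two_of, inv_mul_cancel₀ ha]
  simp

lemma Cap1_exp_pow {k : ℕ} (hk : 3 ≤ k) (ζ : ℂ) : exp (ζ / k) ^ k = exp ζ := by
  have : (k : ℂ) ≠ 0 := by exact_mod_cast (by omega : k ≠ 0)
  rw [← exp_nat_mul, mul_div_cancel₀ _ this]

lemma Cap1_exp_sq (k : ℕ) (ζ : ℂ) : exp (ζ / (2 * k)) ^ 2 = exp (ζ / k) := by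
  rw [← exp_nat_mul]
  congr 1
  push_cast
  ring

/-- the gauge identity; `m u = adj P * reg (p + u) * P`, `u = e^ζ`, `w = e^{ζ/k}` -/
theorem xiCap_gauge {k : ℕ} (hk : 3 ≤ k) (φ : W) (m : ℂ → MW) (ζ : ℂ) :
    (exp (ζ / k) / k) • xiCap k φ m (exp (ζ / k)) =
      dg (exp (ζ / (2 * k)))⁻¹ *
        ((1 / k : ℂ) • (!![algebraMap ℂ W (1/2), φ; 0, algebraMap ℂ W (-1/2)] + exp ζ • m (exp ζ))) *
        dg (exp (ζ / (2 * k))) + (1 / (2 * k) : ℂ) • cst (-s3) := by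
  rw [Cap1_conj (exp_ne_zero _), Cap1_exp_sq, xiCap, Cap1_exp_pow hk]
  have h1 := Cap1_exp_pow hk ζ
  have hw := exp_ne_zero (ζ / k)
  generalize exp (ζ / k) = w at h1 hw ⊢
  generalize exp ζ = u at h1 ⊢
  generalize m u = M
  have hk0 : (k : ℂ) ≠ 0 := by exact_mod_cast (by omega : k ≠ 0)
  obtain ⟨n, rfl⟩ : ∃ n, k = n + 2 := ⟨k - 2, by omega⟩
  subst h1
  generalize ((n + 2 : ℕ) : ℂ) = K at hk0 ⊢
  ext i j
  fin_cases i <;> fin_cases j <;>
    simp [s3, Algebra.algebraMap_eq_smul_one] <;> match_scalars <;> field_simp <;> ring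

theorem xiCap_rot {k : ℕ} (hk : 3 ≤ k) (φ : W) (m : ℂ → MW) (w : ℂ) :
    rt k • xiCap k φ m (rt k * w) =
      dg (exp (Real.pi * I / k))⁻¹ * xiCap k φ m w * dg (exp (Real.pi * I / k)) := by
  have h1 : rt k ^ k = 1 := by rw [rt, Cap1_exp_pow hk, exp_two_pi_mul_I]
  have h2 : exp (Real.pi * I / k) ^ 2 = rt k := by
    rw [rt, ← exp_nat_mul]
    congr 1
    push_cast
    ring
  have h3 : rt k ≠ 0 := exp_ne_zero _
  rw [Cap1_conj (exp_ne_zero _), h2]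
  unfold xiCap
  rw [mul_pow _ _ k, h1, one_mul]
  generalize rt k = r at h1 h3 ⊢
  generalize m (w ^ k) = M
  obtain ⟨n, rfl⟩ : ∃ n, k = n + 2 := ⟨k - 2, by omega⟩
  ext i j
  fin_cases i <;> fin_cases j <;> simp <;> match_scalars
  · linear_combination w ^ (n + 1) * h1
  · field_simp
    linear_combination w ^ n * h1
  · linear_combination w ^ (n + 1) * h1

lemma Cap1_split (k : ℕ) (φ : W) (m : ℂ → MW) (w : ℂ) : xiCap k φ m w =
    w ^ (k - 1) • (!![1, 0; 0, 0] * m (w ^ k) * !![1, 0; 0, 0] +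
      !![0, 0; 0, 1] * m (w ^ k) * !![0, 0; 0, 1]) + !![0, φ; 0, 0] +
      w ^ k • (!![1, 0; 0, 0] * m (w ^ k) * !![0, 0; 0, 1]) +
      w ^ (k - 2) • (!![0, 0; 0, 1] * m (w ^ k) * !![1, 0; 0, 0]) := by
  ext i j
  simp only [Matrix.add_apply, Matrix.smul_apply, matApi2_mulW]
  fin_cases i <;> fin_cases j <;> simp [xiCap]

lemma Cap1_hol (k : ℕ) (φ : W) {m : ℂ → MW} {U : Set ℂ}
    (h : DifferentiableOn ℂ (fun w => m (w ^ k)) U) : DifferentiableOn ℂ (xiCap k φ m) U := by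
  rw [funext (Cap1_split k φ m)]
  have e : ∀ A B : MW, DifferentiableOn ℂ (fun w => A * m (w ^ k) * B) U := fun A B =>
    (h.const_mul A).mul_const B
  have p : ∀ n : ℕ, DifferentiableOn ℂ (fun w : ℂ => w ^ n) U := fun n =>
    (differentiable_pow n).differentiableOn
  exact ((((p _).smul ((e _ _).add (e _ _))).add_const _).add ((p _).smul (e _ _))).add
    ((p _).smul (e _ _))

lemma Cap1_zero {k : ℕ} (hk : 3 ≤ k) (φ : W) (m : ℂ → MW) :
    cf (-1) (xiCap k φ m 0) = !![0, W.coef (-1) φ; 0, 0] := by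
  have h1 : k - 1 ≠ 0 := by omega
  have h2 : k - 2 ≠ 0 := by omega
  have h3 : k ≠ 0 := by omega
  ext i j
  fin_cases i <;> fin_cases j <;> simp [xiCap, h1, h2, h3]

lemma Cap1_deriv_dg (c ζ : ℂ) :
    HasDerivAt (fun z => dg (exp (z / c))) (dg (exp (ζ / c)) * ((1 / c) • cst (-s3))) ζ := by
  have e : (fun z => dg (exp (z / c))) =
      fun z => exp (-(z / c)) • (!![1, 0; 0, 0] : MW) + exp (z / c) • (!![0, 0; 0, 1] : MW) := by
    funext z
    ext i j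
    fin_cases i <;> fin_cases j <;> simp [Cap1_dg, exp_neg]
  have h0 : HasDerivAt (fun z : ℂ => z / c) (1 / c) ζ := (hasDerivAt_id ζ).div_const c
  rw [e]
  refine ((h0.neg.cexp.smul_const (!![1, 0; 0, 0] : MW)).add
    (h0.cexp.smul_const (!![0, 0; 0, 1] : MW))).congr_deriv ?_
  ext i j
  simp only [Matrix.add_apply, Matrix.smul_apply, matApi2_mulW, cst_apply]
  fin_cases i <;> fin_cases j <;>
    simp [Cap1_dg, s3, exp_neg, smul_smul, mul_comm]

lemma Cap1_ball {k : ℕ} (hk : 3 ≤ k) :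
    {w : ℂ | ‖w‖ ^ k < 1/16} = Metric.ball 0 ((1/16 : ℝ) ^ ((k : ℝ)⁻¹)) := by
  ext w
  have h : ((1/16 : ℝ) ^ ((k : ℝ)⁻¹)) ^ k = 1/16 :=
    Real.rpow_inv_natCast_pow (by norm_num) (by omega)
  rw [mem_ofPred_eq, mem_ball_zero_iff]
  conv_lhs => rw [← h]
  exact pow_lt_pow_iff_left₀ (norm_nonneg _) (by positivity) (by omega)

lemma Cap1_range {g : Geo} (hg : AdmG g) (j : Fin 3) {u : ℂ} (hu : ‖u‖ < 1/16) :
    √(qq g) / 2 < ‖(pp g j : ℂ) + u‖ ∧ ‖(pp g j : ℂ) + u‖ < 2 / √(qq g) ∧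
      ee g / 2 < ‖(pp g j : ℂ) + u - 1‖ := by
  obtain ⟨-, ⟨-, he⟩, ⟨hq0, hq⟩, hp⟩ := hg
  have s0 : 0 < √(qq g) := Real.sqrt_pos.2 hq0
  have s1 : √(qq g) ≤ 1/64 := Real.sqrt_le_iff.2 ⟨by norm_num, by linarith⟩
  have a0 : 7/30 ≤ |pp g j| := by
    have := pos_sep hp (i := cj5 j) (j := 0) (by fin_cases j <;> decide)
    rwa [pos_cj5, show pos (pp g) 0 = 0 from rfl, sub_zero] at this
  have a1 : 7/30 ≤ |pp g j - 1| := by
    have := pos_sep hp (i := cj5 j) (j := 1) (by fin_cases j <;> decide)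
    rwa [pos_cj5, show pos (pp g) 1 = 1 from rfl] at this
  have a2 : |pp g j| ≤ 11/10 := by
    have := abs_pos_le hp (cj5 j)
    rwa [pos_cj5] at this
  have b0 : ‖(pp g j : ℂ)‖ = |pp g j| := by simp
  have b1 : ‖(pp g j : ℂ) - 1‖ = |pp g j - 1| := by
    rw [← Real.norm_eq_abs, ← norm_real]; simp
  have c0 := norm_sub_le ((pp g j : ℂ) + u) u
  have c1 := norm_add_le (pp g j : ℂ) u
  have c2 := norm_sub_le ((pp g j : ℂ) + u - 1) u
  rw [add_sub_cancel_right] at c0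
  rw [show (pp g j : ℂ) + u - 1 - u = pp g j - 1 by ring] at c2
  refine ⟨by linarith, ?_, by linarith⟩
  rw [lt_div_iff₀ s0]
  nlinarith [norm_nonneg ((pp g j : ℂ) + u)]

/-- the frame on a cap -/
theorem exists_cap_frame {η N : ℝ} {As : Fin 5 → MW} {S : Sol η N As} {Ω : Set ℂ} {Φ : ℂ → MW}
    (hF : Frame S.g S.d Ω Φ) (hN : Nil S.g S.d) (j : Fin 3) {P : MW} {φ : W} (hP : MGE 0 P)
    (hdP : P.det = 1) (hrP : sharp P = P) (hφ : W.GE (-1) φ) (hrφ : W.cj φ = φ)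
    (hφ0 : W.coef (-1) φ ≠ 0)
    (hA : adj P * AA S.d (cj5 j) * P = !![algebraMap ℂ W (1/2), φ; 0, algebraMap ℂ W (-1/2)]) :
    ∃ Ψ ξ : ℂ → MW, DFrame {w | ‖w‖ ^ S.k < 1/16} Ψ ξ ∧
      (∀ w, ‖w‖ ^ S.k < 1/16 → cf (-1) (ξ w) ≠ 0) ∧ (∀ w, sharp (ξ (conj w)) = ξ w) ∧
      (∀ w, rt S.k • ξ (rt S.k * w) =
        dg (exp (Real.pi * I / S.k))⁻¹ * ξ w * dg (exp (Real.pi * I / S.k))) ∧
      ∀ ζ : ℂ, Real.exp ζ.re < 1/16 → 0 ≤ ζ.im → ζ.im ≤ Real.pi →
        Ψ (exp (ζ / S.k)) = Φ (pp S.g j + exp ζ) * (P * dg (exp (ζ / (2 * S.k)))) := by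
  have hk := S.hk
  have hg := S.adm
  have hd := S.str
  have ht : (tt S.g : ℂ) = 1 / S.k := by rw [S.ht]; push_cast; rfl
  generalize S.k = k at *
  generalize S.g = g at *
  generalize S.d = d at *
  have hk0 : (k : ℂ) ≠ 0 := by exact_mod_cast (by omega : k ≠ 0)
  set m : ℂ → MW := fun u => adj P * reg g d (cj5 j) (pp g j + u) * P with hm
  set Q : ℂ → MW := fun ζ => P * dg (exp (ζ / (2 * k))) with hQ
  set U : Set ℂ := {w | ‖w‖ ^ k < 1/16} with hU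
  have hUo : IsOpen U := by rw [hU, Cap1_ball hk]; exact Metric.isOpen_ball
  have hUc : Convex ℝ U := by rw [hU, Cap1_ball hk]; exact convex_ball _ _
  have hhol : DifferentiableOn ℂ (xiCap k φ m) U := by
    refine Cap1_hol k φ (DifferentiableOn.mul_const (DifferentiableOn.const_mul ?_ _) _)
    refine (reg_differentiableOn hg hd j).comp (f := fun w : ℂ => (pp g j : ℂ) + w ^ k)
      (by fun_prop) fun w hw => ?_
    rw [mem_ball_iff_norm, add_sub_cancel_left, norm_pow]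
    exact lt_trans hw (by norm_num)
  have hmge : ∀ u, MGE (-1) (m u) := fun u => MGE.conj hP.adj (reg_ge hd _ _) hP
  have hge : ∀ w, MGE (-1) (xiCap k φ m w) := fun w a b => by
    fin_cases a <;> fin_cases b
    · exact (hmge _ 0 0).smul _
    · exact hφ.add ((hmge _ 0 1).smul _)
    · exact (hmge _ 1 0).smul _
    · exact (hmge _ 1 1).smul _
  have htr : ∀ w, trW (xiCap k φ m w) = 0 := fun w => by
    have : trW (m (w ^ k)) = 0 := by rw [hm, trW_conj', reg_tr hd, mul_zero]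
    rw [trW_apply] at this ⊢
    change w ^ (k - 1) • m (w ^ k) 0 0 + w ^ (k - 1) • m (w ^ k) 1 1 = 0
    rw [← smul_add, this, smul_zero]
  have hQd : ∀ ζ, (Q ζ).det = 1 := fun ζ => by
    rw [hQ, Matrix.det_mul, hdP, Cap1_det (exp_ne_zero _), one_mul]
  have hQg : ∀ ζ, MGE 0 (Q ζ) := fun ζ => hP.mul (b := 0) (MGE_cst _)
  have hga : ∀ ζ : ℂ, (exp (ζ / k) / k) • xiCap k φ m (exp (ζ / k)) =
      adj (Q ζ) * ((exp ζ / k) • Xi g d (pp g j + exp ζ)) * Q ζ +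
        (1 / (2 * k) : ℂ) • cst (-s3) := fun ζ => by
    rw [xiCap_gauge hk, ← hA, Xi_eq_reg (cj5 j), pos_cj5, add_sub_cancel_left, hQ, hm]
    simp only [adj_mul, Cap1_adj, smul_add, mul_add, add_mul, smul_smul, mul_assoc,
      mul_smul_comm, smul_mul_assoc]
    have := exp_ne_zero ζ
    congr 3 <;> field_simp
  have hDom : ∀ u : ℂ, u ≠ 0 → ‖u‖ < 1/16 → (pp g j : ℂ) + u ∈ Dom g := fun u h0 hu =>
    ball_subset_Dom hg j (by rw [add_sub_cancel_left]; linarith) (by simpa using h0)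
  have hnil : ∀ w ∈ U, (cf (-1) (xiCap k φ m w)).det = 0 ∧ cf (-1) (xiCap k φ m w) ≠ 0 := by
    intro w hw
    by_cases h0 : w = 0
    · rw [h0, Cap1_zero hk]
      refine ⟨by simp, fun h => hφ0 ?_⟩
      simpa using congrFun (congrFun h 0) 1
    obtain ⟨ζ, rfl⟩ : ∃ ζ, w = exp (ζ / k) :=
      ⟨k * log w, by rw [mul_div_cancel_left₀ _ hk0, exp_log h0]⟩
    have hu : ‖exp ζ‖ < 1/16 := by rw [← Cap1_exp_pow hk, norm_pow]; exact hw
    have hD := hDom _ (exp_ne_zero ζ) hu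
    have e := congrArg (cf (-1)) (hga ζ)
    rw [map_add, map_smul, map_smul, cf_cst, if_neg (by norm_num), smul_zero, add_zero,
      MGE.cf_conj (hQg ζ).adj ((Xi_ge hd _).smul _) (hQg ζ), map_smul] at e
    have e1 : cf 0 (Q ζ) * cf 0 (adj (Q ζ)) = 1 := by
      rw [← MGE.cf_mul (hQg ζ) (hQg ζ).adj, mul_adj_of_det (hQd ζ), ← cst_one, cf_cst]
      simp
    have c1 : exp (ζ / k) / k ≠ 0 := div_ne_zero h0 hk0
    have c2 : exp ζ / k ≠ 0 := div_ne_zero (exp_ne_zero _) hk0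
    constructor
    · have := congrArg Matrix.det e
      rw [Matrix.det_smul, Matrix.det_mul, Matrix.det_mul, Matrix.det_smul, hN.nil _ hD, mul_zero,
        mul_zero, zero_mul] at this
      exact (mul_eq_zero.1 this).resolve_left (pow_ne_zero _ c1)
    · intro h
      obtain ⟨r1, r2, r3⟩ := Cap1_range hg j hu
      refine hN.ne _ r1 r2 r3 hD.2.2.2 ?_
      rw [h, smul_zero] at e
      have := congrArg (fun X => cf 0 (Q ζ) * X * cf 0 (adj (Q ζ))) e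
      simp only [mul_zero, zero_mul, ← mul_assoc, e1, one_mul] at this
      rw [mul_assoc, e1, mul_one] at this
      exact (smul_eq_zero.1 this.symm).resolve_left c2
  have hmem : ∀ ζ : ℂ, Real.exp ζ.re < 1/16 → exp (ζ / k) ∈ U := fun ζ h => by
    rw [hU, mem_ofPred_eq, ← norm_pow, Cap1_exp_pow hk, norm_exp]; exact h
  have hup : ∀ ζ : ℂ, Real.exp ζ.re < 1/16 → 0 ≤ ζ.im → ζ.im ≤ Real.pi →
      (pp g j : ℂ) + exp ζ ∈ Ω := fun ζ h1 h2 h3 => by
    refine hF.up _ (hDom _ (exp_ne_zero ζ) (by rw [norm_exp]; exact h1)) ?_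
    rw [add_im, ofReal_im, zero_add, exp_im]
    exact mul_nonneg (Real.exp_pos _).le (Real.sin_nonneg_of_nonneg_of_le_pi h2 h3)
  set z : ℂ := ((Real.log (1/32) : ℝ) : ℂ) with hz
  have z1 : Real.exp z.re < 1/16 := by
    rw [hz, ofReal_re, Real.exp_log (by norm_num)]; norm_num
  have z2 : z.im = 0 := ofReal_im _
  obtain ⟨Ψ, h0, hΨ⟩ := exists_frame_convex hUo hUc hhol (hmem z z1) (Φ (pp g j + exp z) * Q z)
  refine ⟨Ψ, xiCap k φ m, ⟨hUo, hΨ, ?_, hhol, fun w _ => hge w, fun w _ => htr w,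
    fun w hw => (hnil w hw).1⟩, fun w hw => (hnil w hw).2, fun w => ?_, xiCap_rot hk φ m, ?_⟩
  · refine frame_det hUo hUc.isPreconnected hΨ (fun w _ => htr w) (hmem z z1) ?_
    rw [h0, Matrix.det_mul, hQd, hF.det _ (hup z z1 z2.ge (z2 ▸ Real.pi_pos.le)), one_mul]
  · have e : sharp (m (conj w ^ k)) = m (w ^ k) := by
      have : (pp g j : ℂ) + conj w ^ k = conj ((pp g j : ℂ) + w ^ k) := by simp
      rw [hm]
      simp only
      rw [sharp_mul, sharp_mul, sharp_adj, hrP, this, reg_real hd]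
    have e' : ∀ a b, W.cj (m (conj w ^ k) a b) = m (w ^ k) a b := fun a b => by
      rw [← sharp_apply, e]
    ext a b
    fin_cases a <;> fin_cases b <;> simp [xiCap, e', hrφ]
  · intro ζ h1 h2 h3
    have hO : IsOpen {ζ : ℂ | Real.exp ζ.re < 1/16 ∧ (pp g j : ℂ) + exp ζ ∈ Ω} :=
      (isOpen_lt (f := fun ζ : ℂ => Real.exp ζ.re) (by fun_prop) continuous_const).inter
        (hF.opn.preimage (f := fun ζ : ℂ => (pp g j : ℂ) + exp ζ) (by fun_prop))
    have hS : Convex ℝ {ζ : ℂ | ζ.re < Real.log (1/16) ∧ 0 ≤ ζ.im ∧ ζ.im ≤ Real.pi} :=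
      (convex_halfSpace_re_lt _).inter
        ((convex_halfSpace_im_ge _).inter (convex_halfSpace_im_le _))
    have hl : ∀ x : ℝ, x < Real.log (1/16) ↔ Real.exp x < 1/16 := fun x =>
      Real.lt_log_iff_exp_lt (by norm_num)
    refine frame_unique (ξ := fun ζ => (exp (ζ / k) / k) • xiCap k φ m (exp (ζ / k)))
      (Φ := fun ζ => Ψ (exp (ζ / k))) (Ψ := fun ζ => Φ (pp g j + exp ζ) * Q ζ) hO ?_
      (fun y hy => ?_) (fun y hy => ?_) hS.isPreconnected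
      (fun y hy => ⟨(hl _).1 hy.1, hup y ((hl _).1 hy.1) hy.2.1 hy.2.2⟩) (w := z)
      ⟨(hl _).2 z1, z2.ge, z2 ▸ Real.pi_pos.le⟩ h0 ζ ⟨(hl _).2 h1, h2, h3⟩
    · refine ContinuousOn.smul (f := fun ζ : ℂ => exp (ζ / k) / k) (by fun_prop) ?_
      exact hhol.continuousOn.comp (f := fun ζ : ℂ => exp (ζ / k)) (by fun_prop)
        fun y hy => hmem y hy.1
    · have a := (hΨ _ (hmem y hy.1)).scomp y ((hasDerivAt_id y).div_const (k : ℂ)).cexp
      refine a.congr_deriv ?_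
      rw [mul_smul_comm, id, mul_one_div]
    · have a := (hF.ode _ hy.2).scomp y ((hasDerivAt_exp y).const_add (pp g j : ℂ))
      have b := (Cap1_deriv_dg (2 * k) y).const_mul P
      refine (a.mul b).congr_deriv (Eq.symm ?_)
      have c : ∀ X Y : MW, X * Q y * (adj (Q y) * Y * Q y) = X * Y * Q y := fun X Y => by
        rw [mul_assoc (adj _), ← mul_assoc (X * Q y), mul_assoc X, mul_adj_of_det (hQd y), mul_one,
          mul_assoc X Y]
      rw [hga, mul_add, c, ht]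
      simp only [hQ, mul_assoc, mul_smul_comm, smul_mul_assoc, smul_smul, Function.comp]
      congr 2
      ring

end Pool.Agent.MP_efb2da_gt
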