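import Pool.Agent.MP_efb2da_gt.Geo

open scoped Manifold ContDiff RealInnerProductSpace ComplexConjugate Topology
open Set

noncomputable section

namespace Pool.Agent.MP_efb2da_gt

lemma continuous_hz : Continuous hz := by
  have h : hz = fun v : E3 => ((v 0 : ℝ) : ℂ) + ((v 1 : ℝ) : ℂ) * Complex.I := by
    funext v; apply Complex.ext <;> simp [hz]
  rw [h]; fun_prop

lemma Cmc_continuous_mk3 : Continuous fun x : ℂ × ℝ => mk3 x.1 x.2 := by
  unfold mk3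
  refine (PiLp.continuous_toLp 2 _).comp ?_
  refine continuous_pi fun i => ?_
  fin_cases i
  · exact Complex.continuous_re.comp continuous_fst
  · exact Complex.continuous_im.comp continuous_fst
  · simpa using continuous_snd

lemma continuous_Rot : Continuous fun x : ℂ × E3 => Rot x.1 x.2 := by
  have h1 : Continuous fun x : ℂ × E3 => (x.1 * hz x.2, x.2 2) :=
    (continuous_fst.mul (continuous_hz.comp continuous_snd)).prodMk (by fun_prop)
  exact Cmc_continuous_mk3.comp h1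

lemma continuous_Refl : Continuous Refl := by
  have h1 : Continuous fun v : E3 => (conj (hz v), v 2) :=
    (Complex.continuous_conj.comp continuous_hz).prodMk (by fun_prop)
  exact Cmc_continuous_mk3.comp h1

/-- directional derivative -/
def CmcD (v : ℂ) (X : ℂ → E3) (z : ℂ) : E3 := fderiv ℝ X z v

lemma Cmc_dx (X : ℂ → E3) : dx X = CmcD 1 X := rfl
lemma Cmc_dy (X : ℂ → E3) : dy X = CmcD Complex.I X := rfl

lemma CmcD_congr {X X' : ℂ → E3} {z : ℂ} (he : X' =ᶠ[𝓝 z] X) (v : ℂ) :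
    CmcD v X' =ᶠ[𝓝 z] CmcD v X := by
  filter_upwards [he.fderiv (𝕜 := ℝ)] with w hw
  simp only [CmcD, hw]

lemma CmcD_neg (v : ℂ) (X : ℂ → E3) : CmcD (-v) X = fun z => -CmcD v X z := by
  funext z; simp [CmcD]

lemma CmcD_neg_neg (u v : ℂ) (X : ℂ → E3) (z : ℂ) :
    CmcD (-u) (CmcD (-v) X) z = CmcD u (CmcD v X) z := by
  rw [CmcD_neg v X]
  simp only [CmcD]
  rw [fderiv_fun_neg]
  simp
  rfl

lemma CmcD_diff {X : ℂ → E3} {z : ℂ} (h : ContDiffAt ℝ ∞ X z) (v : ℂ) :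
    DifferentiableAt ℝ (CmcD v X) z := by
  have h2 : ContDiffAt ℝ 2 X z := h.of_le (by
    have : ((2 : ℕ∞) : WithTop ℕ∞) ≤ ((⊤ : ℕ∞) : WithTop ℕ∞) := WithTop.coe_le_coe.mpr le_top
    exact this)
  have h1 : ContDiffAt ℝ 1 (fderiv ℝ X) z := h2.fderiv_right (by norm_num)
  have h3 : DifferentiableAt ℝ (fderiv ℝ X) z := h1.differentiableAt (by norm_num)
  exact h3.clm_apply (differentiableAt_const v)

lemma CmcD_comp_at (L : E3 →L[ℝ] E3) (A : ℂ →L[ℝ] ℂ) (c : ℂ) (b : E3) {X : ℂ → E3} {z : ℂ}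
    (h : DifferentiableAt ℝ X (A z + c)) (v : ℂ) :
    CmcD v (fun w => L (X (A w + c)) + b) z = L (CmcD (A v) X (A z + c)) := by
  have ha : HasFDerivAt (fun w => A w + c) A z := A.hasFDerivAt.add_const c
  have h1 : HasFDerivAt (fun w => X (A w + c)) ((fderiv ℝ X (A z + c)).comp A) z :=
    HasFDerivAt.comp z (g := X) h.hasFDerivAt ha
  have h2 : HasFDerivAt (fun w => L (X (A w + c)) + b)
      (L.comp ((fderiv ℝ X (A z + c)).comp A)) z :=
    (HasFDerivAt.comp z (g := L) L.hasFDerivAt h1).add_const b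
  simp only [CmcD, h2.fderiv]
  simp

lemma CmcD_comp_ev (L : E3 →L[ℝ] E3) (A : ℂ →L[ℝ] ℂ) (c : ℂ) (b : E3) {X : ℂ → E3} {z : ℂ}
    (h : ContDiffAt ℝ ∞ X (A z + c)) (v : ℂ) :
    CmcD v (fun w => L (X (A w + c)) + b) =ᶠ[𝓝 z]
      fun w => L (CmcD (A v) X (A w + c)) + 0 := by
  have h1 : ContDiffAt ℝ 1 X (A z + c) := h.of_le (by exact_mod_cast le_top)
  have h2 : ∀ᶠ y in 𝓝 (A z + c), ContDiffAt ℝ 1 X y := h1.eventually (by simp)
  have ha : ContinuousAt (fun w => A w + c) z := by fun_prop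
  filter_upwards [ha.eventually h2] with w hw
  rw [add_zero]
  exact CmcD_comp_at L A c b (hw.differentiableAt (by norm_num)) v

lemma CmcD_comp2 (L : E3 →L[ℝ] E3) (A : ℂ →L[ℝ] ℂ) (c : ℂ) (b : E3) {X : ℂ → E3} {z : ℂ}
    (h : ContDiffAt ℝ ∞ X (A z + c)) (u v : ℂ) :
    CmcD u (CmcD v (fun w => L (X (A w + c)) + b)) z
      = L (CmcD (A u) (CmcD (A v) X) (A z + c)) := by
  rw [(CmcD_congr (CmcD_comp_ev L A c b h v) u).eq_of_nhds]
  exact CmcD_comp_at L A c 0 (CmcD_diff h (A v)) u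

lemma Cmc_smooth_comp (L : E3 →L[ℝ] E3) (A : ℂ →L[ℝ] ℂ) (c : ℂ) (b : E3) {X : ℂ → E3} {z : ℂ}
    (h : ContDiffAt ℝ ∞ X (A z + c)) : ContDiffAt ℝ ∞ (fun w => L (X (A w + c)) + b) z := by
  have ha : ContDiffAt ℝ ∞ (fun w => A w + c) z := A.contDiff.contDiffAt.add contDiffAt_const
  have h1 : ContDiffAt ℝ ∞ (fun w => X (A w + c)) z := ContDiffAt.comp z (g := X) h ha
  exact (ContDiffAt.comp z (g := L) L.contDiff.contDiffAt h1).add contDiffAt_const

lemma CMCAt.congr {X X' : ℂ → E3} {z : ℂ} (h : CMCAt X z) (he : X' =ᶠ[𝓝 z] X) : CMCAt X' z := by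
  have hx : dx X' =ᶠ[𝓝 z] dx X := CmcD_congr he 1
  have hy : dy X' =ᶠ[𝓝 z] dy X := CmcD_congr he Complex.I
  have hxx : dx (dx X') z = dx (dx X) z := (CmcD_congr hx 1).eq_of_nhds
  have hyy : dy (dy X') z = dy (dy X) z := (CmcD_congr hy Complex.I).eq_of_nhds
  refine ⟨h.smooth.congr_of_eventuallyEq he, ?_, ?_, ?_, ?_⟩
  · rw [hx.eq_of_nhds, hy.eq_of_nhds]; exact h.orth
  · rw [hx.eq_of_nhds, hy.eq_of_nhds]; exact h.conf
  · rw [hx.eq_of_nhds]; exact h.ne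
  · rw [hxx, hyy, hx.eq_of_nhds, hy.eq_of_nhds]; exact h.lap

/-- orientation preserving case -/
lemma Cmc_pos (L : E3 →L[ℝ] E3) (c : ℂ) (b : E3) {X : ℂ → E3} {z : ℂ}
    (hi : ∀ u v, ⟪L u, L v⟫ = ⟪u, v⟫) (hcr : ∀ u v, cr (L u) (L v) = L (cr u v))
    (h : CMCAt X (z + c)) : CMCAt (fun w => L (X (w + c)) + b) z := by
  have hs : ContDiffAt ℝ ∞ X (ContinuousLinearMap.id ℝ ℂ z + c) := h.smooth
  have hd : DifferentiableAt ℝ X (ContinuousLinearMap.id ℝ ℂ z + c) :=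
    hs.differentiableAt (by simp)
  have hn : ∀ u, ‖L u‖ = ‖u‖ := fun u => by
    rw [norm_eq_sqrt_real_inner, norm_eq_sqrt_real_inner, hi]
  have hx : dx (fun w => L (X (w + c)) + b) z = L (dx X (z + c)) :=
    CmcD_comp_at L (ContinuousLinearMap.id ℝ ℂ) c b hd 1
  have hy : dy (fun w => L (X (w + c)) + b) z = L (dy X (z + c)) :=
    CmcD_comp_at L (ContinuousLinearMap.id ℝ ℂ) c b hd Complex.I
  have hxx : dx (dx (fun w => L (X (w + c)) + b)) z = L (dx (dx X) (z + c)) :=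
    CmcD_comp2 L (ContinuousLinearMap.id ℝ ℂ) c b hs 1 1
  have hyy : dy (dy (fun w => L (X (w + c)) + b)) z = L (dy (dy X) (z + c)) :=
    CmcD_comp2 L (ContinuousLinearMap.id ℝ ℂ) c b hs Complex.I Complex.I
  refine ⟨Cmc_smooth_comp L (ContinuousLinearMap.id ℝ ℂ) c b hs, ?_, ?_, ?_, ?_⟩
  · rw [hx, hy, hi]; exact h.orth
  · rw [hx, hy, hn, hn]; exact h.conf
  · rw [hx, ← norm_ne_zero_iff, hn, norm_ne_zero_iff]; exact h.ne
  · rw [hxx, hyy, hx, hy, ← map_add, h.lap, hcr, map_smul]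

/-- rotation as a continuous linear map -/
def CmcRot (o : ℂ) : E3 →L[ℝ] E3 :=
  LinearMap.toContinuousLinearMap
    { toFun := Rot o
      map_add' := fun u v => by
        ext i; fin_cases i <;> simp [Rot, mk3, hz] <;> ring
      map_smul' := fun t v => by
        ext i; fin_cases i <;> simp [Rot, mk3, hz] <;> ring }

/-- reflection as a continuous linear map -/
def CmcRefl : E3 →L[ℝ] E3 :=
  LinearMap.toContinuousLinearMap
    { toFun := Refl
      map_add' := fun u v => by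
        ext i; fin_cases i <;> simp [Refl, mk3, hz] <;> ring
      map_smul' := fun t v => by
        ext i; fin_cases i <;> simp [Refl, mk3, hz] }

lemma CmcRot_apply (o : ℂ) (v : E3) : CmcRot o v = Rot o v := rfl
lemma CmcRefl_apply (v : E3) : CmcRefl v = Refl v := rfl

lemma Cmc_inner (u v : E3) : ⟪u, v⟫ = u 0 * v 0 + u 1 * v 1 + u 2 * v 2 := by
  simp [PiLp.inner_apply, Fin.sum_univ_three]; ring

lemma CMCAt.rot {X : ℂ → E3} {z o : ℂ} (h : CMCAt X z) (ho : ‖o‖ = 1) :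
    CMCAt (fun w => Rot o (X w)) z := by
  have h1 : o.re ^ 2 + o.im ^ 2 = 1 := by
    have := Complex.sq_norm o
    rw [ho, Complex.normSq_apply] at this
    nlinarith
  have h2 := Cmc_pos (CmcRot o) 0 0 (X := X) (z := z) (fun u v => ?_) (fun u v => ?_)
    (by simpa using h)
  · simpa [CmcRot_apply] using h2
  · rw [Cmc_inner, Cmc_inner]
    simp [CmcRot_apply, Rot, mk3, hz]
    linear_combination (u 0 * v 0 + u 1 * v 1) * h1
  · ext i
    fin_cases i <;> simp [CmcRot_apply, Rot, mk3, hz, cr]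
    · ring
    · ring
    · linear_combination (u 0 * v 1 - u 1 * v 0) * h1

lemma CMCAt.refl_conj {X : ℂ → E3} {z : ℂ} (h : CMCAt X (conj z)) :
    CMCAt (fun w => Refl (X (conj w))) z := by
  set A : ℂ →L[ℝ] ℂ := (Complex.conjCLE : ℂ →L[ℝ] ℂ) with hA
  have hAw : ∀ w, A w = conj w := fun w => rfl
  have hA1 : A 1 = 1 := by simp [hAw]
  have hAI : A Complex.I = -Complex.I := by simp [hAw]
  have hz0 : A z + 0 = conj z := by simp [hAw]
  have hF : (fun w => Refl (X (conj w))) = fun w => CmcRefl (X (A w + 0)) + 0 := by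
    funext w; simp [hAw, CmcRefl_apply]
  have hs : ContDiffAt ℝ ∞ X (A z + 0) := by rw [hz0]; exact h.smooth
  have hd : DifferentiableAt ℝ X (A z + 0) := hs.differentiableAt (by simp)
  have hi : ∀ u v, ⟪CmcRefl u, CmcRefl v⟫ = ⟪u, v⟫ := fun u v => by
    rw [Cmc_inner, Cmc_inner]
    simp [CmcRefl_apply, Refl, mk3, hz]
  have hcr : ∀ u v, cr (CmcRefl u) (-CmcRefl v) = CmcRefl (cr u v) := fun u v => by
    ext i
    fin_cases i <;> simp [CmcRefl_apply, Refl, mk3, hz, cr] <;> ring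
  have hn : ∀ u, ‖CmcRefl u‖ = ‖u‖ := fun u => by
    rw [norm_eq_sqrt_real_inner, norm_eq_sqrt_real_inner, hi]
  rw [hF]
  have hx : dx (fun w => CmcRefl (X (A w + 0)) + 0) z = CmcRefl (dx X (conj z)) := by
    rw [Cmc_dx, CmcD_comp_at CmcRefl A 0 0 hd 1, hA1, hz0, Cmc_dx]
  have hy : dy (fun w => CmcRefl (X (A w + 0)) + 0) z = -CmcRefl (dy X (conj z)) := by
    rw [Cmc_dy, CmcD_comp_at CmcRefl A 0 0 hd Complex.I, hAI, hz0, Cmc_dy, CmcD_neg, map_neg]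
  have hxx : dx (dx (fun w => CmcRefl (X (A w + 0)) + 0)) z
      = CmcRefl (dx (dx X) (conj z)) := by
    rw [Cmc_dx, Cmc_dx, CmcD_comp2 CmcRefl A 0 0 hs 1 1, hA1, hz0, Cmc_dx, Cmc_dx]
  have hyy : dy (dy (fun w => CmcRefl (X (A w + 0)) + 0)) z
      = CmcRefl (dy (dy X) (conj z)) := by
    rw [Cmc_dy, Cmc_dy, CmcD_comp2 CmcRefl A 0 0 hs Complex.I Complex.I, hAI, hz0, Cmc_dy, Cmc_dy,
      CmcD_neg_neg]
  refine ⟨Cmc_smooth_comp CmcRefl A 0 0 hs, ?_, ?_, ?_, ?_⟩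
  · rw [hx, hy, inner_neg_right, hi, h.orth, neg_zero]
  · rw [hx, hy, norm_neg, hn, hn]; exact h.conf
  · rw [hx, ← norm_ne_zero_iff, hn, norm_ne_zero_iff]; exact h.ne
  · rw [hxx, hyy, hx, hy, ← map_add, h.lap, hcr, map_smul]

lemma CMCAt.sub_const {X : ℂ → E3} {z : ℂ} (h : CMCAt X z) (c : E3) :
    CMCAt (fun w => X w - c) z := by
  have h2 := Cmc_pos (ContinuousLinearMap.id ℝ E3) 0 (-c) (X := X) (z := z) (fun u v => rfl)
    (fun u v => rfl) (by simpa using h)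
  simpa [sub_eq_add_neg] using h2

lemma CMCAt.translate {X : ℂ → E3} {z c : ℂ} (h : CMCAt X (z + c)) :
    CMCAt (fun w => X (w + c)) z := by
  have h2 := Cmc_pos (ContinuousLinearMap.id ℝ E3) c 0 (X := X) (z := z) (fun u v => rfl)
    (fun u v => rfl) h
  simpa using h2

/-- transport of local charts along an open, locally injective map -/
lemma LocChart.map {T M : Type} [TopologicalSpace T] [TopologicalSpace M] {F : T → E3}
    {f : M → E3} {bT : Set T} {bM : Set M} {π : T → M} (hc : Continuous π) (ho : IsOpenMap π)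
    (hi : ∀ x, ∃ U ∈ 𝓝 x, InjOn π U) (hf : ∀ x, f (π x) = F x) (hb : ∀ x, π x ∈ bM ↔ x ∈ bT)
    {x : T} (h : LocChart F bT x) : LocChart f bM (π x) := by
  obtain ⟨V, w₀, S, ψ, X, hV, hw₀, hψ, hS, hcont, hinj, hop, hcmc, hX⟩ := h
  obtain ⟨U, hU, hUi⟩ := hi x
  have hw₀S : w₀ ∈ S := by
    rcases hS with ⟨rfl, -⟩ | ⟨rfl, h0, -⟩
    · trivial
    · exact h0.ge
  have hcw : ContinuousWithinAt ψ (V ∩ S) w₀ := hcont w₀ ⟨hw₀, hw₀S⟩
  have hU' : ψ ⁻¹' U ∈ 𝓝[V ∩ S] w₀ := hcw (by rw [hψ]; exact hU)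
  obtain ⟨W, hW, hw₀W, hWs⟩ := mem_nhdsWithin.mp hU'
  have hsub : (W ∩ V) ∩ S ⊆ V ∩ S := fun w hw => ⟨hw.1.2, hw.2⟩
  have hmem : ∀ w ∈ (W ∩ V) ∩ S, ψ w ∈ U := fun w hw => hWs ⟨hw.1.1, hw.1.2, hw.2⟩
  refine ⟨W ∩ V, w₀, S, fun w => π (ψ w), X, hW.inter hV, ⟨hw₀W, hw₀⟩, by simp only [hψ], ?_,
    hc.comp_continuousOn (hcont.mono hsub), ?_, ?_, fun w hw => hcmc w hw.2, ?_⟩
  · rcases hS with ⟨h1, h2⟩ | ⟨h1, h0, h2⟩
    · exact Or.inl ⟨h1, fun h3 => h2 ((hb x).mp h3)⟩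
    · exact Or.inr ⟨h1, h0, (hb x).mpr h2⟩
  · intro a ha b hb' hab
    exact hinj (hsub ha) (hsub hb') (hUi (hmem a ha) (hmem b hb') hab)
  · intro V' hV' hsubV
    have h1 := ho _ (hop V' hV' (fun w hw => (hsubV hw).2))
    rwa [image_image] at h1
  · intro w hw
    rw [hf, hX w (hsub hw)]

end Pool.Agent.MP_efb2da_gt
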