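import Pool.Agent.MP_efb2da_gt.Cap1
import Pool.Agent.MP_efb2da_gt.Cmc

open Set Complex
open scoped Topology ComplexConjugate Matrix ContDiff

noncomputable section

namespace Pool.Agent.MP_efb2da_gt

lemma Cap2_dg_mul (a b : ℂ) : dg a * dg b = dg (a * b) := by
  rw [dg, dg, dg, ← cst_mul]
  congr 1
  ext i j; fin_cases i <;> fin_cases j <;> simp [Matrix.mul_apply, Fin.sum_univ_two, mul_comm]

lemma Cap2_dg_one : dg 1 = 1 := by
  rw [dg, ← cst_one]
  congr 1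
  ext i j; fin_cases i <;> fin_cases j <;> simp

lemma Cap2_det_dg {a : ℂ} (ha : a ≠ 0) : (dg a).det = 1 := by
  rw [dg, det_cst, Matrix.det_fin_two_of, inv_mul_cancel₀ ha]
  simp

lemma Cap2_sharp_dg (a : ℂ) : sharp (dg a) = dg (conj a) := by
  rw [dg, dg, sharp_cst]
  congr 1
  ext i j; fin_cases i <;> fin_cases j <;> simp

lemma Cap2_dg_ge (a : ℂ) : MGE 0 (dg a) := MGE_cst _

lemma Cap2_preconn {k : ℕ} (hk : 3 ≤ k) : IsPreconnected {w : ℂ | ‖w‖ ^ k < 1/16} := by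
  have h0 : (0:ℂ) ∈ {w : ℂ | ‖w‖ ^ k < 1/16} := by
    have : k ≠ 0 := by omega
    simp [this]
  have hs : StarConvex ℝ (0:ℂ) {w : ℂ | ‖w‖ ^ k < 1/16} := by
    intro y hy a b ha hb hab
    simp only [mem_ofPred_eq, smul_zero, zero_add] at hy ⊢
    refine lt_of_le_of_lt ?_ hy
    refine pow_le_pow_left₀ (norm_nonneg _) ?_ k
    rw [norm_smul, Real.norm_of_nonneg hb]
    exact mul_le_of_le_one_left (norm_nonneg _) (by linarith)
  exact (hs.isPathConnected h0).isConnected.isPreconnected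

lemma Cap2_norm_rt (k : ℕ) : ‖rt k‖ = 1 := by
  have : (2 * Real.pi * I / k : ℂ) = ((2 * Real.pi / k : ℝ) : ℂ) * I := by push_cast; ring
  rw [rt, this, Complex.norm_exp_ofReal_mul_I]

lemma Cap2_exp_eq {k : ℕ} {t : ℝ} (ht : t = 1 / k) (l : ℤ) :
    exp (2 * Real.pi * I * t * l) = rt k ^ l := by
  rw [rt, ← Complex.exp_int_mul, ht]
  congr 1
  push_cast; ring

lemma Cap2_norm_exp {k : ℕ} (hk : 3 ≤ k) (ζ : ℂ) : ‖exp (ζ / k)‖ ^ k = Real.exp ζ.re := by
  have hk0 : (k : ℂ) ≠ 0 := by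
    have : k ≠ 0 := by omega
    exact_mod_cast this
  rw [← norm_pow, ← Complex.exp_nat_mul, mul_div_cancel₀ _ hk0, Complex.norm_exp]

lemma Cap2_det {g : Geo} {d : Dat} {Ω : Set ℂ} {Φ : ℂ → MW} (hF : Frame g d Ω Φ) (hg : AdmG g)
    (j : Fin 3) {ζ : ℂ} (h1 : Real.exp ζ.re < 1/16) (h2 : 0 ≤ ζ.im) (h3 : ζ.im ≤ Real.pi) :
    (Φ (pp g j + exp ζ)).det = 1 := by
  refine hF.det _ (hF.up _ (ball_subset_Dom hg j ?_ ?_) ?_)
  · rw [add_sub_cancel_left, Complex.norm_exp]; linarith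
  · intro h
    exact Complex.exp_ne_zero ζ (add_eq_left.1 h)
  · rw [Complex.add_im, Complex.ofReal_im, zero_add, Complex.exp_im]
    exact mul_nonneg (Real.exp_pos _).le (Real.sin_nonneg_of_nonneg_of_le_pi h2 h3)

lemma Cap2_arc {Φ : ℂ → MW} {x : ℝ} (h : (Φ x).det = 1) : arcR Φ x * sharp (Φ x) = Φ x := by
  have : (sharp (Φ x)).det = 1 := by rw [det_sharp, h, W.cj_one]
  rw [arcR, mul_assoc, adj_mul_of_det this, mul_one]

theorem exists_cap_chart {η N : ℝ} {As : Fin 5 → MW} {S : Sol η N As} {Ω : Set ℂ} {Φ : ℂ → MW}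
    {R5 : MW} (hF : Frame S.g S.d Ω Φ) (hR : Arcs S Φ R5) (hN : Nil S.g S.d) (j : Fin 3) {P : MW}
    {φ : W} (hP : MGE 0 P) (hdP : P.det = 1) (hrP : sharp P = P) (hφ : W.GE (-1) φ)
    (hrφ : W.cj φ = φ) (hφ0 : W.coef (-1) φ ≠ 0)
    (hA : adj P * AA S.d (cj5 j) * P = !![algebraMap ℂ W (1/2), φ; 0, algebraMap ℂ W (-1/2)]) :
    ∃ X : ℂ → E3, (∀ w, ‖w‖ ^ S.k < 1/16 → CMCAt X w) ∧
      (∀ ζ : ℂ, Real.exp ζ.re < 1/16 → 0 ≤ ζ.im → ζ.im ≤ Real.pi →
        X (exp (ζ / S.k)) = pt S.x (Φ (pp S.g j + exp ζ))) ∧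
      (∀ w, ‖w‖ ^ S.k < 1/16 → X (rt S.k * w) = Rot (rt S.k ^ sg j) (X w)) ∧
      ∀ w, ‖w‖ ^ S.k < 1/16 → X (conj w) = Rot (rt S.k ^ lr j) (Refl (X w)) := by
  obtain ⟨Ψ, ξ, hD, hne, hre, hrot, hval⟩ :=
    exists_cap_frame hF hN j hP hdP hrP hφ hrφ hφ0 hA
  have hk := S.hk
  have hk0 : (S.k : ℂ) ≠ 0 := by
    have : S.k ≠ 0 := by omega
    exact_mod_cast this
  set O : Set ℂ := {w | ‖w‖ ^ S.k < 1/16} with hO
  have hpc : IsPreconnected O := Cap2_preconn hk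
  have hcj : ∀ w ∈ O, conj w ∈ O := fun w hw => by
    simpa only [hO, mem_ofPred_eq, Complex.norm_conj] using hw
  have hrt : ∀ w ∈ O, rt S.k * w ∈ O := fun w hw => by
    simpa only [hO, mem_ofPred_eq, norm_mul, Cap2_norm_rt, one_mul] using hw
  have hξ : ContinuousOn ξ O := hD.hol.continuousOn
  obtain ⟨cr, cl⟩ := hR.cl_Rr j
  obtain ⟨vl, vr⟩ := hR.val_cap j (r := 1/32) (by norm_num) (by norm_num)
  set z0 : ℝ := Real.log (1/32) with hz0
  have ez0 : Real.exp z0 = 1/32 := Real.exp_log (by norm_num)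
  have ez0' : exp (z0 : ℂ) = ((1/32 : ℝ) : ℂ) := by rw [← Complex.ofReal_exp, ez0]
  -- the reflection
  have refl : ∀ w ∈ O, Ψ w = Rr S.g S.d R5 j * sharp (Ψ (conj w)) := by
    have hw0 : exp ((z0 : ℂ) / S.k) ∈ O := by
      rw [hO, mem_ofPred_eq, Cap2_norm_exp hk, Complex.ofReal_re, ez0]; norm_num
    refine frame_ratio hD.opn hξ hD.ode (Ψ := fun w => sharp (Ψ (conj w))) ?_ hpc subset_rfl hw0 ?_
    · intro z hz
      have := hasDerivAt_sharp_conj (hD.ode _ (hcj z hz))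
      rwa [sharp_mul, hre] at this
    · have c1 : conj (exp ((z0 : ℂ) / S.k)) = exp ((z0 : ℂ) / S.k) := by
        rw [← Complex.exp_conj]; simp
      have c2 : conj (exp ((z0 : ℂ) / (2 * S.k))) = exp ((z0 : ℂ) / (2 * S.k)) := by
        rw [← Complex.exp_conj]; simp [map_ofNat]
      have a1 : Real.exp (z0 : ℂ).re < 1/16 := by rw [Complex.ofReal_re, ez0]; norm_num
      have a2 : 0 ≤ (z0 : ℂ).im := by simp
      have a3 : (z0 : ℂ).im ≤ Real.pi := by simp [Real.pi_pos.le]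
      have hv := hval z0 a1 a2 a3
      have hd := Cap2_det hF S.adm j a1 a2 a3
      have e : (pp S.g j : ℂ) + exp (z0 : ℂ) = ((pp S.g j + 1/32 : ℝ) : ℂ) := by
        rw [ez0']; push_cast; ring
      rw [e] at hv hd
      simp only [c1]
      rw [hv, sharp_mul, sharp_mul, hrP, Cap2_sharp_dg, c2, ← vr,
        ← mul_assoc (arcR _ _), Cap2_arc hd]
  -- the rotation
  set a : ℂ := exp (Real.pi * I / S.k) with ha
  have ha0 : a ≠ 0 := Complex.exp_ne_zero _
  have rot : ∀ w ∈ O, Ψ (rt S.k * w) * dg a⁻¹ =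
      (Rl S.g S.d j * adj (Rr S.g S.d R5 j)) * Ψ w := by
    have hw1 : exp (((z0 : ℂ) - Real.pi * I) / S.k) ∈ O := by
      rw [hO, mem_ofPred_eq, Cap2_norm_exp hk]
      have : ((z0 : ℂ) - Real.pi * I).re = z0 := by simp
      rw [this, ez0]; norm_num
    refine frame_ratio hD.opn hξ (Φ := fun w => Ψ (rt S.k * w) * dg a⁻¹) ?_ hD.ode hpc
      subset_rfl hw1 ?_
    · intro z hz
      have h1 : HasDerivAt (fun w => rt S.k * w) (rt S.k) z := by
        simpa using (hasDerivAt_id z).const_mul (rt S.k)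
      have h2 := ((hD.ode _ (hrt z hz)).scomp z h1).mul_const (dg a⁻¹)
      have e : (rt S.k • (Ψ (rt S.k * z) * ξ (rt S.k * z))) * dg a⁻¹ =
          Ψ (rt S.k * z) * dg a⁻¹ * ξ z := by
        rw [← mul_smul_comm, hrot z]
        simp only [mul_assoc]
        rw [Cap2_dg_mul, mul_inv_cancel₀ ha0, Cap2_dg_one, mul_one]
      rw [e] at h2
      exact h2
    · have a1 : Real.exp ((z0 : ℂ) + Real.pi * I).re < 1/16 := by
        have : ((z0 : ℂ) + Real.pi * I).re = z0 := by simp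
        rw [this, ez0]; norm_num
      have a2 : 0 ≤ ((z0 : ℂ) + Real.pi * I).im := by simp [Real.pi_pos.le]
      have a3 : ((z0 : ℂ) + Real.pi * I).im ≤ Real.pi := by simp
      have hv := hval _ a1 a2 a3
      have hd := Cap2_det hF S.adm j a1 a2 a3
      have e : (pp S.g j : ℂ) + exp ((z0 : ℂ) + Real.pi * I) = ((pp S.g j - 1/32 : ℝ) : ℂ) := by
        rw [Complex.exp_add, Complex.exp_pi_mul_I, ez0']; push_cast; ring
      rw [e] at hv hd
      have c1 : rt S.k * exp (((z0 : ℂ) - Real.pi * I) / S.k) =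
          exp (((z0 : ℂ) + Real.pi * I) / S.k) := by
        rw [rt, ← Complex.exp_add]; congr 1; ring
      have c2 : conj (exp (((z0 : ℂ) - Real.pi * I) / S.k)) =
          exp (((z0 : ℂ) + Real.pi * I) / S.k) := by
        rw [← Complex.exp_conj]; simp
      have c3 : conj (exp (((z0 : ℂ) + Real.pi * I) / (2 * S.k))) =
          exp (((z0 : ℂ) + Real.pi * I) / (2 * S.k)) * a⁻¹ := by
        rw [← Complex.exp_conj, ha, ← Complex.exp_neg, ← Complex.exp_add]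
        congr 1
        simp only [map_div₀, map_add, map_mul, Complex.conj_ofReal, Complex.conj_I, map_ofNat,
          map_natCast]
        field_simp
        ring
      simp only [c1]
      rw [refl _ hw1, c2, hv, sharp_mul, sharp_mul, hrP, Cap2_sharp_dg, c3, ← Cap2_dg_mul, ← vl]
      simp only [mul_assoc]
      rw [← mul_assoc (adj _) (Rr S.g S.d R5 j), adj_mul_of_det cr.det, one_mul,
        ← mul_assoc (arcR _ _), Cap2_arc hd]
  refine ⟨fun w => pt S.x (Ψ w), fun w hw => ?_, fun ζ h1 h2 h3 => ?_, fun w hw => ?_,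
    fun w hw => ?_⟩
  · exact (hD.cmcAt hw (hne w hw)).sub_const (mk3 S.x 0)
  · have hg : MGE 0 (P * dg (exp (ζ / (2 * S.k)))) := by
      simpa using hP.mul (Cap2_dg_ge (exp (ζ / (2 * S.k))))
    have hdg : (P * dg (exp (ζ / (2 * S.k)))).det = 1 := by
      rw [Matrix.det_mul, hdP, Cap2_det_dg (Complex.exp_ne_zero _), one_mul]
    simp only [pt]
    rw [hval ζ h1 h2 h3, symM_gauge (Cap2_det hF S.adm j h1 h2 h3) hg hdg]
  · have e : Ψ (rt S.k * w) = (Rl S.g S.d j * adj (Rr S.g S.d R5 j)) * Ψ w * dg a := by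
      rw [← rot w hw, mul_assoc, Cap2_dg_mul, inv_mul_cancel₀ ha0, Cap2_dg_one, mul_one]
    simp only []
    rw [e, cl.pt_mul (hD.det w hw) (Cap2_dg_ge a) (Cap2_det_dg ha0), Cap2_exp_eq S.ht]
  · have e : Ψ (conj w) = Rr S.g S.d R5 j * sharp (Ψ w) * 1 := by
      rw [refl _ (hcj w hw), Complex.conj_conj, mul_one]
    have hd : (sharp (Ψ w)).det = 1 := by rw [det_sharp, hD.det w hw, W.cj_one]
    simp only []
    rw [e, cr.pt_mul hd MGE_one Matrix.det_one, Cap2_exp_eq S.ht, pt_sharp (hD.det w hw),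
      zpow_natCast]

end Pool.Agent.MP_efb2da_gt
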