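import Pool.Agent.MP_efb2da_gt.Area

open scoped ContDiff ComplexConjugate Topology
open Set Complex

noncomputable section

namespace Pool.Agent.MP_efb2da_gt

lemma circ_sign {f : ℝ → ℝ} (hf : Continuous f) (h0 : ∀ s, f s ≠ 0) :
    (∀ s, 0 < f s) ∨ (∀ s, f s < 0) := by
  by_contra h
  push Not at h
  obtain ⟨⟨a, ha⟩, ⟨b, hb⟩⟩ := h
  obtain ⟨x, hx⟩ := intermediate_value_univ a b hf (show (0:ℝ) ∈ Icc (f a) (f b) from ⟨ha, hb⟩)
  exact h0 x hx

lemma circ_conj_deriv {Γ : ℝ → ℂ} {d : ℂ} {s : ℝ} (h : HasDerivAt Γ d s) :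
    HasDerivAt (fun t => conj (Γ t)) (conj d) s := by
  have := (Complex.conjCLE : ℂ →L[ℝ] ℂ).hasFDerivAt.comp_hasDerivAt s h
  simpa [Function.comp_def] using this

lemma circ_int_pos {ν : ℝ → ℝ} (hν : Continuous ν) (hpos : ∀ s, 0 < ν s) :
    0 < ∫ s in (0:ℝ)..1, ν s :=
  intervalIntegral.intervalIntegral_pos_of_pos_on (hν.intervalIntegrable _ _)
    (fun x _ => hpos x) zero_lt_one

/-- if the curve is a circle, the flux identity forces radius `1/2` and this differential equation -/
theorem circle_ode {Γ : ℝ → ℂ} {ν : ℝ → ℝ} (hΓ : ContDiff ℝ ∞ Γ) (hp : Function.Periodic Γ 1)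
    (hν : Differentiable ℝ ν) (hpos : ∀ s, 0 < ν s) (hn : ∀ s, ‖deriv Γ s‖ = ν s)
    (hflux : ∫ s in (0:ℝ)..1, ν s = 2 * ∫ s in (0:ℝ)..1, (conj (Γ s) * deriv Γ s).im)
    {c : ℂ} {R : ℝ} (hc : ∀ s, ‖Γ s - c‖ = R) (s : ℝ) :
    deriv (deriv Γ) s = ((deriv ν s / ν s : ℝ) + 2 * I * ν s) * deriv Γ s := by
  have hdiff : Differentiable ℝ Γ := hΓ.differentiable (by simp)
  have hd : ∀ t, HasDerivAt Γ (deriv Γ t) t := fun t => (hdiff t).hasDerivAt
  have hc1 : Continuous (deriv Γ) := hΓ.continuous_deriv (by simp)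
  have hc0 : Continuous Γ := hΓ.continuous
  have hu : ∀ t, HasDerivAt (fun t => Γ t - c) (deriv Γ t) t := fun t => (hd t).sub_const c
  have huu : ∀ t, conj (Γ t - c) * (Γ t - c) = ((R ^ 2 : ℝ) : ℂ) := by
    intro t
    rw [Complex.conj_mul', hc t]; push_cast; ring
  have hre : ∀ t, (conj (Γ t - c) * deriv Γ t).re = 0 := by
    intro t
    have h1 := (circ_conj_deriv (hu t)).mul (hu t)
    have h2 : HasDerivAt (fun t => conj (Γ t - c) * (Γ t - c)) 0 t := by
      have : (fun t => conj (Γ t - c) * (Γ t - c)) = fun _ => ((R ^ 2 : ℝ) : ℂ) := funext huu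
      rw [this]; exact hasDerivAt_const _ _
    have h3 := h1.unique h2
    have h4 := congrArg Complex.re h3
    simp only [Complex.add_re, Complex.mul_re, Complex.conj_re, Complex.conj_im,
      Complex.zero_re] at h4 ⊢
    linarith
  have hR0 : 0 ≤ R := hc 0 ▸ norm_nonneg _
  have hR : 0 < R := by
    rcases hR0.eq_or_lt with h | h
    · exfalso
      have : Γ = fun _ => c := by
        funext t
        have := hc t
        rw [← h, norm_eq_zero, sub_eq_zero] at this
        exact this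
      have h5 := hn 0
      rw [this] at h5
      simp at h5
      exact (hpos 0).ne h5
    · exact h
  have habs : ∀ t, |(conj (Γ t - c) * deriv Γ t).im| = R * ν t := by
    intro t
    rw [Complex.abs_im_eq_norm.2 (hre t), norm_mul, Complex.norm_conj, hc, hn]
  have hwc : Continuous fun t => (conj (Γ t - c) * deriv Γ t).im := by
    refine Complex.continuous_im.comp ?_
    exact (Complex.continuous_conj.comp (hc0.sub continuous_const)).mul hc1
  have hw0 : ∀ t, (conj (Γ t - c) * deriv Γ t).im ≠ 0 := by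
    intro t h
    have := habs t
    rw [h, abs_zero] at this
    exact (mul_pos hR (hpos t)).ne this
  have hzero : ∫ t in (0:ℝ)..1, (conj c * deriv Γ t).im = 0 := by
    have h1 : ∀ t ∈ uIcc (0:ℝ) 1, HasDerivAt (fun t => (conj c * Γ t).im)
        ((conj c * deriv Γ t).im) t := by
      intro t _
      have := Complex.imCLM.hasFDerivAt.comp_hasDerivAt t ((hd t).const_mul (conj c))
      simpa [Function.comp_def] using this
    rw [intervalIntegral.integral_eq_sub_of_hasDerivAt h1
      ((Complex.continuous_im.comp (continuous_const.mul hc1)).intervalIntegrable _ _)]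
    have := hp 0
    rw [zero_add] at this
    rw [this, sub_self]
  have hsplit : ∫ t in (0:ℝ)..1, (conj (Γ t) * deriv Γ t).im =
      ∫ t in (0:ℝ)..1, (conj (Γ t - c) * deriv Γ t).im := by
    have : ∀ t, (conj (Γ t) * deriv Γ t).im =
        (conj (Γ t - c) * deriv Γ t).im + (conj c * deriv Γ t).im := by
      intro t
      rw [← Complex.add_im]; congr 1; rw [map_sub]; ring
    simp_rw [this]
    have hcc : Continuous fun t => (conj c * deriv Γ t).im :=
      Complex.continuous_im.comp (continuous_const.mul hc1)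
    rw [intervalIntegral.integral_add (hwc.intervalIntegrable _ _)
      (hcc.intervalIntegrable _ _), hzero, add_zero]
  have hI := circ_int_pos hν.continuous hpos
  rw [hsplit] at hflux
  have hw : (∀ t, (conj (Γ t - c) * deriv Γ t).im = R * ν t) ∧ R = 1 / 2 := by
    rcases circ_sign hwc hw0 with h | h
    · have h1 : ∀ t, (conj (Γ t - c) * deriv Γ t).im = R * ν t := fun t => by
        rw [← habs t, abs_of_pos (h t)]
      refine ⟨h1, ?_⟩
      simp_rw [h1] at hflux
      rw [intervalIntegral.integral_const_mul] at hflux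
      have : (∫ s in (0:ℝ)..1, ν s) * (1 - 2 * R) = 0 := by linarith
      rcases mul_eq_zero.1 this with h2 | h2
      · exact absurd h2 hI.ne'
      · linarith
    · exfalso
      have h1 : ∀ t, (conj (Γ t - c) * deriv Γ t).im = -R * ν t := fun t => by
        have := habs t
        rw [abs_of_neg (h t)] at this
        linarith
      simp_rw [h1] at hflux
      rw [intervalIntegral.integral_const_mul] at hflux
      nlinarith
  obtain ⟨hw1, hRe⟩ := hw
  have hG : ∀ t, deriv Γ t = 2 * I * (ν t : ℂ) * (Γ t - c) := by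
    intro t
    have h1 : conj (Γ t - c) * deriv Γ t = I * ((R * ν t : ℝ) : ℂ) := by
      apply Complex.ext
      · rw [hre t]; simp
      · rw [hw1 t]; simp
    have h2 := huu t
    rw [hRe] at h1 h2
    push_cast at h1 h2
    linear_combination (4 * (Γ t - c)) * h1 - (4 * deriv Γ t) * h2
  have hνd : HasDerivAt (fun t => (ν t : ℂ)) ((deriv ν s : ℝ) : ℂ) s :=
    (hν s).hasDerivAt.ofReal_comp
  have h2 : HasDerivAt (deriv Γ)
      (2 * I * ((deriv ν s : ℝ) : ℂ) * (Γ s - c) + 2 * I * (ν s : ℂ) * deriv Γ s) s := by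
    have := (hνd.const_mul (2 * I)).mul (hu s)
    have h3 : deriv Γ = fun t => 2 * I * (ν t : ℂ) * (Γ t - c) := funext hG
    conv => arg 1; rw [h3]
    exact this
  rw [h2.deriv]
  have hne : (ν s : ℂ) ≠ 0 := by exact_mod_cast (hpos s).ne'
  have h4 : ((deriv ν s / ν s : ℝ) : ℂ) * deriv Γ s =
      2 * I * ((deriv ν s : ℝ) : ℂ) * (Γ s - c) := by
    rw [hG s]; push_cast; field_simp
  rw [add_mul, h4]

lemma circ_toE2_eq (w : ℂ) : toE2 w = Complex.orthonormalBasisOneI.repr w := by
  ext i; fin_cases i <;> simp [toE2]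

/-- the plane curve part of the final statement -/
theorem curve_final {Γ : ℝ → ℂ} {ν : ℝ → ℝ} (hΓ : ContDiff ℝ ∞ Γ) (hp : Function.Periodic Γ 1)
    (h0 : ∀ s : ℝ, ‖Γ s - (1/2) * exp (2 * Real.pi * I * s)‖ ≤ 1/20)
    (h1 : ∀ s : ℝ, ‖deriv Γ s - Real.pi * I * exp (2 * Real.pi * I * s)‖ ≤ 1/5)
    (hν : Differentiable ℝ ν) (hn : ∀ s, ‖deriv Γ s‖ = |ν s|)
    (hflux : ∫ s in (0:ℝ)..1, ν s = 2 * ∫ s in (0:ℝ)..1, (conj (Γ s) * deriv Γ s).im)
    (hnc : ¬ ∀ s, deriv (deriv Γ) s = ((deriv ν s / ν s : ℝ) + 2 * I * ν s) * deriv Γ s) :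
    let γ : ℝ → E2 := fun s => toE2 (Γ s)
    ContDiff ℝ ∞ γ ∧ Function.Periodic γ 1 ∧ InjOn γ (Ico 0 1) ∧ InjOn Γ (Ico 0 1) ∧
      (∀ s, deriv γ s ≠ 0) ∧ (∀ (c : E2) (R : ℝ), range γ ≠ Metric.sphere c R) ∧
      0 < area (inside (range γ)) ∧ |(2:ℝ)| = len γ / (2 * area (inside (range γ))) := by
  intro γ
  obtain ⟨θ, p1, p2, p3, p4, p5⟩ := exists_polar hΓ hp h0 h1
  obtain ⟨hinj, harea⟩ := polar_area hΓ hp p1 p2 p3 p4 p5
  set L : ℂ ≃ₗᵢ[ℝ] E2 := Complex.orthonormalBasisOneI.repr with hL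
  have hγ : γ = fun s => L (Γ s) := funext fun s => circ_toE2_eq _
  have hdiff : Differentiable ℝ Γ := hΓ.differentiable (by simp)
  have hc1 : Continuous (deriv Γ) := hΓ.continuous_deriv (by simp)
  have hc0 : Continuous Γ := hΓ.continuous
  have hdγ : ∀ s, deriv γ s = L (deriv Γ s) := by
    intro s
    have := (L.toContinuousLinearEquiv : ℂ →L[ℝ] E2).hasFDerivAt.comp_hasDerivAt s
      (hdiff s).hasDerivAt
    rw [hγ]
    exact this.deriv
  have hne : ∀ s, deriv Γ s ≠ 0 := by
    intro s h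
    have := p4 s
    rw [h] at this
    simp at this
  have hν0 : ∀ s, ν s ≠ 0 := by
    intro s h
    have := hn s
    rw [h, abs_zero, norm_eq_zero] at this
    exact hne s this
  have hwc : Continuous fun t => (conj (Γ t) * deriv Γ t).im :=
    Complex.continuous_im.comp ((Complex.continuous_conj.comp hc0).mul hc1)
  have hI := circ_int_pos hwc p4
  have hpos : ∀ s, 0 < ν s := by
    rcases circ_sign hν.continuous hν0 with h | h
    · exact h
    · exfalso
      have := circ_int_pos (ν := fun s => -ν s) hν.continuous.neg (fun s => neg_pos.2 (h s))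
      rw [intervalIntegral.integral_neg] at this
      linarith
  have hn' : ∀ s, ‖deriv Γ s‖ = ν s := fun s => by rw [hn s, abs_of_pos (hpos s)]
  have harea' : area (inside (range γ)) =
      (1/2) * ∫ s in (0:ℝ)..1, (conj (Γ s) * deriv Γ s).im := harea
  refine ⟨?_, ?_, ?_, hinj, ?_, ?_, ?_, ?_⟩
  · rw [hγ]
    exact (L.toContinuousLinearEquiv : ℂ →L[ℝ] E2).contDiff.comp hΓ
  · intro s
    show toE2 (Γ (s + 1)) = toE2 (Γ s)
    rw [hp s]
  · intro a ha b hb hab
    rw [hγ] at hab
    exact hinj ha hb (L.injective hab)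
  · intro s h
    rw [hdγ] at h
    exact hne s (by simpa using h)
  · intro c R h
    apply hnc
    refine circle_ode hΓ hp hν hpos hn' hflux (c := L.symm c) (R := R) ?_
    intro s
    have : γ s ∈ Metric.sphere c R := h ▸ mem_range_self s
    rw [mem_sphere_iff_norm, hγ] at this
    rw [← this, ← L.norm_map, map_sub, L.apply_symm_apply]
  · rw [harea']; linarith
  · have hlen : len γ = ∫ s in (0:ℝ)..1, ν s := by
      unfold len
      congr 1
      funext s
      rw [hdγ, L.norm_map, hn']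
    rw [hlen, harea', hflux, abs_two]
    field_simp

end Pool.Agent.MP_efb2da_gt
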