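import Pool.Agent.Mg.Fefb2da.G2e400a

/-! Convex extremal curves with `k`-fold symmetry that converge smoothly to the circle. -/

section

/-! Convergence of jets along linear differential equations; convexity of curves that are `C²`
close to a circle. -/

open Set Complex Filter
open scoped Topology ComplexConjugate Matrix ContDiff

noncomputable section

namespace Pool.Agent.MP_efb2da_gt

section jets
variable {A F ι : Type} [NormedRing A] [NormedAlgebra ℝ A] [NormedAddCommGroup F] [NormedSpace ℝ F]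

lemma Cv_le (n : ℕ) : (n : WithTop ℕ∞) ≤ ∞ := by exact_mod_cast le_top

lemma Cv_smooth {f T : ℝ → A} (hf : ∀ x, HasDerivAt f (f x * T x) x) (hT : ContDiff ℝ ∞ T) :
    ContDiff ℝ ∞ f := by
  have key : ∀ n : ℕ, ContDiff ℝ n f := by
    intro n
    induction n with
    | zero => exact contDiff_zero.2 (continuous_iff_continuousAt.2 fun x => (hf x).continuousAt)
    | succ n ih =>
      rw [Nat.cast_succ, contDiff_succ_iff_deriv]
      refine ⟨fun x => (hf x).differentiableAt, by simp, ?_⟩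
      rw [funext fun x => (hf x).deriv]
      exact ih.mul (hT.of_le (Cv_le n))
  exact contDiff_infty.2 key

lemma Cv_leib {f T : ℝ → A} (hf : ∀ x, HasDerivAt f (f x * T x) x) (hT : ContDiff ℝ ∞ T)
    (j : ℕ) (x : ℝ) : iteratedDeriv (j + 1) f x = ∑ i ∈ Finset.range (j + 1),
      j.choose i * iteratedDeriv i f x * iteratedDeriv (j - i) T x := by
  rw [iteratedDeriv_succ', funext fun x => (hf x).deriv]
  exact iteratedDeriv_fun_mul ((Cv_smooth hf hT).of_le (Cv_le j)).contDiffAt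
    (hT.of_le (Cv_le j)).contDiffAt

lemma Cv_jet1 {l : Filter ι} {f T : ι → ℝ → A} {f₀ T₀ : ℝ → A} {s : ι → ℝ} {s₀ : ℝ}
    (hf : ∀ n x, HasDerivAt (f n) (f n x * T n x) x) (hT : ∀ n, ContDiff ℝ ∞ (T n))
    (hf₀ : ∀ x, HasDerivAt f₀ (f₀ x * T₀ x) x) (hT₀ : ContDiff ℝ ∞ T₀)
    (h0 : Tendsto (fun n => f n (s n)) l (𝓝 (f₀ s₀)))
    (hj : ∀ j, Tendsto (fun n => iteratedDeriv j (T n) (s n)) l (𝓝 (iteratedDeriv j T₀ s₀)))
    (j : ℕ) : Tendsto (fun n => iteratedDeriv j (f n) (s n)) l (𝓝 (iteratedDeriv j f₀ s₀)) := by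
  induction j using Nat.strong_induction_on with
  | _ j ih =>
    rcases j with _ | j
    · simpa only [iteratedDeriv_zero] using h0
    · rw [Cv_leib hf₀ hT₀, funext fun n => Cv_leib (hf n) (hT n) j (s n)]
      refine tendsto_finsetSum _ fun i hi => ?_
      exact ((ih i (Finset.mem_range.1 hi)).const_mul _).mul (hj _)

lemma Cv_jet2 {l : Filter ι} {f : ι → ℝ → A} {f₀ : ℝ → A} {s : ι → ℝ} {s₀ : ℝ} {G : A → F}
    (hf : ∀ n, ContDiff ℝ ∞ (f n)) (hf₀ : ContDiff ℝ ∞ f₀)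
    (hG : ∀ n, ContDiffAt ℝ ∞ G (f n (s n))) (hG₀ : ContDiffAt ℝ ∞ G (f₀ s₀))
    (hj : ∀ j, Tendsto (fun n => iteratedDeriv j (f n) (s n)) l (𝓝 (iteratedDeriv j f₀ s₀)))
    (m : ℕ) :
    Tendsto (fun n => iteratedDeriv m (G ∘ f n) (s n)) l (𝓝 (iteratedDeriv m (G ∘ f₀) s₀)) := by
  rw [iteratedDeriv_vcomp_eq_sum_orderedFinpartition hG₀ hf₀.contDiffAt (Cv_le m),
    funext fun n => iteratedDeriv_vcomp_eq_sum_orderedFinpartition (hG n) (hf n).contDiffAt
      (Cv_le m)]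
  refine tendsto_finsetSum _ fun c _ => ?_
  have h0 := hj 0
  simp only [iteratedDeriv_zero] at h0
  exact ((hG₀.continuousAt_iteratedFDeriv (Cv_le c.length)).tendsto.comp h0).eval
    (tendsto_pi_nhds.2 fun j => hj _)

end jets

lemma ode_real {E : Type} [NormedAddCommGroup E] [NormedSpace ℂ E] {P : ℂ → E} {D : E} {s : ℝ}
    (h : HasDerivAt P D s) : HasDerivAt (fun s : ℝ => P s) D s := by
  simpa [Function.comp_def] using
    (h.hasFDerivAt.restrictScalars ℝ).comp_hasDerivAt s (ofRealCLM.hasDerivAt (x := s))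

lemma Cv_real {E : Type} [NormedAddCommGroup E] [NormedSpace ℂ E] [CompleteSpace E] {U : Set ℂ}
    (hU : IsOpen U) (hR : ∀ s : ℝ, (s : ℂ) ∈ U) {P : ℂ → E} (hP : DifferentiableOn ℂ P U) (j : ℕ) :
    iteratedDeriv j (fun s : ℝ => P s) = fun s : ℝ => iteratedDeriv j P s := by
  induction j with
  | zero => simp only [iteratedDeriv_zero]
  | succ j ih =>
    funext s
    rw [iteratedDeriv_succ, ih, iteratedDeriv_succ]
    have h1 := ((hP.analyticOnNhd hU).iterated_deriv j s (hR s)).differentiableAt.hasDerivAt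
    rw [← iteratedDeriv_eq_iterate] at h1
    simpa using (ode_real h1).deriv

/-- a closed curve whose tangent turns once and monotonically lies on one side of its tangents -/
lemma Cv_side {Γ : ℝ → ℂ} (hΓ : ContDiff ℝ ∞ Γ) (hp : Function.Periodic Γ 1) {φ : ℝ → ℝ}
    (h1 : ∀ s, deriv Γ s = I * (‖deriv Γ s‖ * exp (I * φ s)))
    (h2 : ∀ s, φ (s + 1) = φ s + 2 * Real.pi) (hm : StrictMono φ) (hc : Continuous φ)
    (a s : ℝ) : 0 ≤ (conj (deriv Γ a) * (Γ s - Γ a)).im := by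
  have hpi := Real.pi_pos
  have hd : Differentiable ℝ Γ := hΓ.differentiable (by simp)
  set h : ℝ → ℝ := fun s => (conj (deriv Γ a) * (Γ s - Γ a)).im with hh
  have hD : ∀ s, HasDerivAt h (‖deriv Γ a‖ * ‖deriv Γ s‖ * Real.sin (φ s - φ a)) s := by
    intro s
    have := Neck2_im (((hd s).hasDerivAt.sub_const (Γ a)).const_mul (conj (deriv Γ a)))
    refine this.congr_deriv ?_
    have e : conj (deriv Γ a) * deriv Γ s =
        ((‖deriv Γ a‖ * ‖deriv Γ s‖ : ℝ) : ℂ) * exp (((φ s - φ a : ℝ) : ℂ) * I) := by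
      conv_lhs => rw [h1 a, h1 s]
      simp only [map_mul, conj_I, conj_ofReal, ← Complex.exp_conj]
      rw [show ((φ s - φ a : ℝ) : ℂ) * I = -I * φ a + I * φ s by push_cast; ring, Complex.exp_add]
      push_cast
      linear_combination (-(‖deriv Γ a‖ : ℂ) * ‖deriv Γ s‖ * exp (-I * φ a) * exp (I * φ s)) *
        I_mul_I
    rw [e, im_ofReal_mul, exp_ofReal_mul_I_im]
  have hcont : Continuous h := continuous_iff_continuousAt.2 fun s => (hD s).continuousAt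
  obtain ⟨b, hb, hφ⟩ : ∃ b ∈ Icc a (a + 1), φ b = φ a + Real.pi :=
    intermediate_value_Icc (by linarith) hc.continuousOn ⟨by linarith, by rw [h2]; linarith⟩
  have m1 : MonotoneOn h (Icc a b) := by
    refine monotoneOn_of_hasDerivWithinAt_nonneg (convex_Icc a b) hcont.continuousOn
      (fun x _ => (hD x).hasDerivWithinAt) fun x hx => ?_
    rw [interior_Icc] at hx
    have := hm hx.1
    have := hm hx.2
    exact mul_nonneg (by positivity)
      (Real.sin_nonneg_of_nonneg_of_le_pi (by linarith) (by linarith))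
  have m2 : AntitoneOn h (Icc b (a + 1)) := by
    refine antitoneOn_of_hasDerivWithinAt_nonpos (convex_Icc _ _) hcont.continuousOn
      (fun x _ => (hD x).hasDerivWithinAt) fun x hx => ?_
    rw [interior_Icc] at hx
    have := hm hx.1
    have h3 := hm hx.2
    rw [h2] at h3
    refine mul_nonpos_of_nonneg_of_nonpos (by positivity) ?_
    rw [← Real.sin_sub_two_pi]
    exact Real.sin_nonpos_of_nonpos_of_neg_pi_le (by linarith) (by linarith)
  have ha : h a = 0 := by simp [hh]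
  have ha1 : h (a + 1) = 0 := by simp [hh, hp a]
  have hper : Function.Periodic h 1 := fun x => by simp only [hh, hp x]
  obtain ⟨y, hy, e⟩ := hper.exists_mem_Ico zero_lt_one s a
  change 0 ≤ h s
  rw [e]
  rcases le_total y b with k | k
  · rw [← ha]
    exact m1 ⟨le_rfl, hb.1⟩ ⟨hy.1, k⟩ hy.1
  · rw [← ha1]
    exact m2 ⟨k, hy.2.le⟩ ⟨hb.2, le_rfl⟩ hy.2.le

theorem Cv_convex {Γ : ℝ → ℂ} (hΓ : ContDiff ℝ ∞ Γ) (hp : Function.Periodic Γ 1) {θ : ℝ → ℝ}
    (h1 : ∀ s, Γ s = ‖Γ s‖ * exp (I * θ s)) (h2 : ∀ s, θ (s + 1) = θ s + 2 * Real.pi)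
    (h3 : ∀ s, Γ s ≠ 0) (h4 : ∀ s, 0 < (conj (Γ s) * deriv Γ s).im)
    (h5 : ∀ s, HasDerivAt θ ((conj (Γ s) * deriv Γ s).im / ‖Γ s‖ ^ 2) s)
    (h6 : ∀ a s, 0 ≤ (conj (deriv Γ a) * (Γ s - Γ a)).im) :
    Convex ℝ (inside (range fun s => toE2 (Γ s))) := by
  have hpi := Real.pi_pos
  have hn : ∀ s, 0 < ‖Γ s‖ := fun s => norm_pos_iff.2 (h3 s)
  have hmono : StrictMono θ :=
    strictMono_of_hasDerivAt_pos h5 fun s => div_pos (h4 s) (pow_pos (hn s) 2)
  have hθc : Continuous θ := continuous_iff_continuousAt.2 fun s => (h5 s).continuousAt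
  have hper : Function.Periodic (fun s => θ s - 2 * Real.pi * s) 1 := by
    intro s; simp only [h2]; ring
  have hint : ∀ (s : ℝ) (n : ℤ), θ (s + n) = θ s + n * (2 * Real.pi) := by
    intro s n
    have := hper.int_mul n s
    simp only [mul_one] at this
    linarith
  have hsurj : Function.Surjective θ := by
    intro y
    obtain ⟨n, hn1⟩ := exists_int_gt ((y - θ 0) / (2 * Real.pi))
    obtain ⟨k, hk1⟩ := exists_int_lt ((y - θ 0) / (2 * Real.pi))
    rw [div_lt_iff₀ (by positivity)] at hn1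
    rw [lt_div_iff₀ (by positivity)] at hk1
    refine mem_range_of_exists_le_of_exists_ge hθc ⟨0 + k, ?_⟩ ⟨0 + n, ?_⟩
    · rw [hint]; linarith
    · rw [hint]; linarith
  let e : ℝ ≃o ℝ := hmono.orderIsoOfSurjective θ hsurj
  have he1 : ∀ s, e.symm (θ s) = s := fun s => e.symm_apply_apply s
  have he2 : ∀ t, θ (e.symm t) = t := fun t => e.apply_symm_apply t
  have hec : Continuous e.symm := e.symm.continuous
  let r : ℝ → ℝ := fun t => ‖Γ (e.symm t)‖
  have hrc : Continuous r := (hΓ.continuous.comp hec).norm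
  have hrpos : ∀ t, 0 < r t := fun t => hn _
  have hrθ : ∀ s, r (θ s) = ‖Γ s‖ := fun s => by simp only [r, he1]
  have hrp : Function.Periodic r (2 * Real.pi) := by
    intro t
    have : t + 2 * Real.pi = θ (e.symm t + 1) := by rw [h2, he2]
    rw [this, hrθ, hp]
  let S : E2 ≃ₗᵢ[ℝ] ℂ := Complex.orthonormalBasisOneI.repr.symm
  have hS : ∀ w : ℂ, S (toE2 w) = w := by
    intro w
    simp only [S, Complex.orthonormalBasisOneI_repr_symm_apply, toE2]
    apply Complex.ext <;> simp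
  have hrange : (range fun s => toE2 (Γ s)) = S ⁻¹' {z : ℂ | ‖z‖ = r (arg z)} := by
    ext x
    simp only [mem_range, mem_preimage, mem_ofPred_eq]
    constructor
    · rintro ⟨s, rfl⟩
      rw [hS]
      have ha : arg (Γ s) = toIocMod Real.two_pi_pos (-Real.pi) (θ s) := by
        conv_lhs => rw [h1 s]
        rw [arg_real_mul _ (hn s), mul_comm I, arg_exp_mul_I]
      rw [ha, toIocMod, hrp.sub_zsmul_eq, hrθ]
    · intro hx
      refine ⟨e.symm (arg (S x)), S.injective ?_⟩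
      rw [hS, h1, he2]
      change (r (arg (S x)) : ℂ) * _ = _
      rw [← hx, mul_comm I, norm_mul_exp_arg_mul_I]
  have hz : ∀ z : ℂ, z = ((‖z‖ / r (arg z) : ℝ) : ℂ) * Γ (e.symm (arg z)) := by
    intro z
    have h0 : (r (arg z) : ℂ) ≠ 0 := ofReal_ne_zero.2 (hrpos _).ne'
    rw [h1 (e.symm (arg z)), he2]
    change z = _ * ((r (arg z) : ℂ) * _)
    rw [ofReal_div, ← mul_assoc, div_mul_cancel₀ _ h0, mul_comm I, norm_mul_exp_arg_mul_I]
  have hK : {z : ℂ | ‖z‖ < r (arg z)} = ⋂ a, {z : ℂ | 0 < (conj (deriv Γ a) * (z - Γ a)).im} := by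
    ext z
    simp only [mem_ofPred_eq, mem_iInter]
    rw [← div_lt_one (hrpos _)]
    have h0 : 0 ≤ ‖z‖ / r (arg z) := div_nonneg (norm_nonneg _) (hrpos _).le
    have h7 := hz z
    generalize ‖z‖ / r (arg z) = t at h0 h7
    generalize e.symm (arg z) = s at h7
    subst h7
    have e1 : ∀ a, (conj (deriv Γ a) * (t * Γ s - Γ a)).im =
        t * (conj (deriv Γ a) * (Γ s - Γ a)).im + (1 - t) * (conj (Γ a) * deriv Γ a).im := by
      intro a
      simp only [mul_im, sub_re, sub_im, mul_re, conj_re, conj_im, ofReal_re, ofReal_im]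
      ring
    constructor
    · intro ht a
      rw [e1]
      have := mul_nonneg h0 (h6 a s)
      have := mul_pos (sub_pos.2 ht) (h4 a)
      linarith
    · intro h
      have := h s
      rw [e1, sub_self, mul_zero, zero_im, mul_zero, zero_add] at this
      exact sub_pos.1 ((mul_pos_iff_of_pos_right (h4 s)).1 this)
  rw [hrange, Area_inside hrc hrp hrpos S, hK]
  refine Convex.linear_preimage (convex_iInter fun a => ?_) S.toLinearEquiv.toLinearMap
  have : {z : ℂ | 0 < (conj (deriv Γ a) * (z - Γ a)).im} =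
      {z : ℂ | (conj (deriv Γ a) * Γ a).im < (conj (deriv Γ a) * z).im} := by
    ext z
    simp only [mem_ofPred_eq, mul_sub, sub_im, sub_pos]
  rw [this]
  refine convex_halfSpace_gt ⟨fun x y => by rw [mul_add, add_im], fun c x => ?_⟩ _
  rw [mul_smul_comm, smul_im]

/-- a curve that is `C²` close to the circle of radius `1/2` is convex -/
theorem Cv_curve {Γ : ℝ → ℂ} (hΓ : ContDiff ℝ ∞ Γ) (hp : Function.Periodic Γ 1)
    (h : ∀ j ≤ 2, ∀ s : ℝ,
      ‖iteratedDeriv j (fun s : ℝ => Γ s - (1/2) * exp (2 * Real.pi * I * s)) s‖ ≤ 1/20) :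
    (∀ s : ℝ, ‖Γ s - (1/2) * exp (2 * Real.pi * I * s)‖ ≤ 1/20) ∧
    (∀ s : ℝ, ‖deriv Γ s - Real.pi * I * exp (2 * Real.pi * I * s)‖ ≤ 1/5) ∧
    Convex ℝ (inside (range fun s => toE2 (Γ s))) := by
  have hpi := Real.pi_gt_three
  have hE : ∀ (c : ℂ) (s : ℝ), HasDerivAt (fun s : ℝ => c * exp (2 * Real.pi * I * s))
      (c * (2 * Real.pi * I) * exp (2 * Real.pi * I * s)) s := fun c s => by
    have := ((((hasDerivAt_id (s : ℂ)).const_mul (2 * Real.pi * I)).cexp).const_mul c).comp_ofReal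
    refine this.congr_deriv ?_
    simp only [id]
    ring
  have hd : Differentiable ℝ Γ := hΓ.differentiable (by simp)
  have hΓ' : ContDiff ℝ ∞ (deriv Γ) := hΓ.deriv'
  have hd' : Differentiable ℝ (deriv Γ) := hΓ'.differentiable (by simp)
  have e1 : deriv (fun s : ℝ => Γ s - (1/2) * exp (2 * Real.pi * I * s)) =
      fun s : ℝ => deriv Γ s - Real.pi * I * exp (2 * Real.pi * I * s) := funext fun s => by
    rw [((hd s).hasDerivAt.fun_sub (hE _ s)).deriv]
    ring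
  have a0 := h 0 (by norm_num)
  have a1 := h 1 (by norm_num)
  have a2 := h 2 le_rfl
  simp only [iteratedDeriv_zero] at a0
  simp only [iteratedDeriv_one, e1] at a1
  have e2 : ∀ s : ℝ, iteratedDeriv 2 (fun s : ℝ => Γ s - (1/2) * exp (2 * Real.pi * I * s)) s =
      deriv (deriv Γ) s - Real.pi * I * (2 * Real.pi * I) * exp (2 * Real.pi * I * s) := fun s => by
    rw [iteratedDeriv_succ, iteratedDeriv_one, e1, ((hd' s).hasDerivAt.fun_sub (hE _ s)).deriv]
  simp only [e2] at a2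
  have a1' := fun s => (a1 s).trans (show (1/20 : ℝ) ≤ 1/5 by norm_num)
  obtain ⟨θ, p1, p2, p3, p4, p5⟩ := exists_polar hΓ hp a0 a1'
  have hc : (2 * Real.pi * I : ℂ) ≠ 0 := two_pi_I_ne_zero
  have hn : ‖(2 * Real.pi * I : ℂ)⁻¹‖ ≤ 1 := by
    rw [norm_inv, norm_mul, norm_I, mul_one, norm_mul, Complex.norm_real, Complex.norm_ofNat,
      Real.norm_of_nonneg Real.pi_pos.le]
    exact inv_le_one_of_one_le₀ (by linarith)
  have hp' : Function.Periodic (deriv Γ) 1 := fun s => by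
    rw [← deriv_comp_add_const, funext hp]
  have e3 : ∀ s, deriv (fun s => (2 * Real.pi * I : ℂ)⁻¹ * deriv Γ s) s =
      (2 * Real.pi * I : ℂ)⁻¹ * deriv (deriv Γ) s := fun s =>
    ((hd' s).hasDerivAt.const_mul _).deriv
  obtain ⟨φ, q1, q2, q3, q4, q5⟩ := exists_polar
    (Γ := fun s => (2 * Real.pi * I : ℂ)⁻¹ * deriv Γ s) (contDiff_const.mul hΓ')
    (fun s => by simp only [hp' s])
    (fun s => by
      have : (2 * Real.pi * I : ℂ)⁻¹ * deriv Γ s - (1/2) * exp (2 * Real.pi * I * s) =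
          (2 * Real.pi * I : ℂ)⁻¹ * (deriv Γ s - Real.pi * I * exp (2 * Real.pi * I * s)) := by
        field_simp
      rw [this, norm_mul]
      nlinarith [a1 s, norm_nonneg (deriv Γ s - Real.pi * I * exp (2 * Real.pi * I * s))])
    (fun s => by
      have : (2 * Real.pi * I : ℂ)⁻¹ * deriv (deriv Γ) s - Real.pi * I * exp (2 * Real.pi * I * s) =
          (2 * Real.pi * I : ℂ)⁻¹ * (deriv (deriv Γ) s -
            Real.pi * I * (2 * Real.pi * I) * exp (2 * Real.pi * I * s)) := by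
        field_simp
      rw [e3, this, norm_mul]
      nlinarith [a2 s, norm_nonneg (deriv (deriv Γ) s -
        Real.pi * I * (2 * Real.pi * I) * exp (2 * Real.pi * I * s))])
  refine ⟨a0, a1', Cv_convex hΓ hp p1 p2 p3 p4 p5 (Cv_side hΓ hp (φ := φ) (fun s => ?_) q2
    (strictMono_of_hasDerivAt_pos q5 fun s => div_pos (q4 s) (pow_pos (norm_pos_iff.2 (q3 s)) 2))
    (continuous_iff_continuousAt.2 fun s => (q5 s).continuousAt))⟩
  have := q1 s
  rw [norm_mul, norm_inv, norm_mul, norm_I, mul_one, norm_mul, Complex.norm_real,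
    Complex.norm_ofNat, Real.norm_of_nonneg Real.pi_pos.le, inv_mul_eq_iff_eq_mul₀ hc] at this
  have hp0 : (Real.pi : ℂ) ≠ 0 := ofReal_ne_zero.2 Real.pi_pos.ne'
  refine this.trans ?_
  push_cast
  field_simp

end Pool.Agent.MP_efb2da_gt

end

end

section

/-! Solutions of the closing conditions for all large `k`, with exponentially thin neck. -/

open Set Complex
open scoped Topology ComplexConjugate Matrix ContDiff

noncomputable section

namespace Pool.Agent.MP_efb2da_gt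

theorem Cv_root {s₀ : ℝ} (h : 0 < s₀) :
    ∃ K₀ : ℕ, ∀ k ≥ K₀, ∃ s : ℝ, 3 ≤ k ∧ 0 < s ∧ s ≤ s₀ ∧ s ^ 4 = 1 / k := by
  obtain ⟨K₀, hK⟩ := exists_nat_ge (max 3 (1 / s₀ ^ 4))
  refine ⟨K₀, fun k hkK => ?_⟩
  have hk : max 3 (1 / s₀ ^ 4) ≤ (k : ℝ) := hK.trans (by exact_mod_cast hkK)
  have h3 : (3 : ℝ) ≤ k := (le_max_left _ _).trans hk
  have h4 : 1 / s₀ ^ 4 ≤ k := (le_max_right _ _).trans hk
  have hk0 : (0 : ℝ) < k := by linarith
  have he : √(√(1 / (k : ℝ))) ^ 4 = 1 / k := by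
    rw [show (4 : ℕ) = 2 * 2 from rfl, pow_mul, Real.sq_sqrt (Real.sqrt_nonneg _),
      Real.sq_sqrt (by positivity)]
  refine ⟨√(√(1 / (k : ℝ))), by exact_mod_cast h3, by positivity, ?_, he⟩
  refine le_of_pow_le_pow_left₀ (n := 4) (by norm_num) h.le ?_
  rw [he, div_le_iff₀ hk0]
  rw [div_le_iff₀ (by positivity)] at h4
  linarith

theorem Cv_solve : ∃ (As : Fin 5 → MW) (N c : ℝ), LimProp As ∧ 0 < c ∧ ∀ η > 0, ∃ K₀ : ℕ,
    ∀ k ≥ K₀, ∃ S : Sol η N As, S.k = k ∧ c ≤ tt S.g * La1 S.g := by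
  obtain ⟨ψ, h1, h2, hbox⟩ := limit_box
  obtain ⟨d₀, hd₀, hadm⟩ := Metric.eventually_nhds_iff_ball.1 (yadm_near h1 h2)
  obtain ⟨K, hKdef⟩ : ∃ K : Set Y8, K = Metric.closedBall (ystar ψ) (d₀ / 2) := ⟨_, rfl⟩
  have hK : IsCompact K := hKdef ▸ isCompact_closedBall _ _
  have hY : ∀ y ∈ K, Yadm y := fun y hy =>
    hadm y (Metric.closedBall_subset_ball (by linarith) (hKdef ▸ hy))
  obtain ⟨RG, Rm, hG, hm, s₁, hs₁, hfixed⟩ := exists_fixed hK hY
  obtain ⟨C, N, s₂, hs₂, hhol⟩ := hol_close hK hY hG.le hm.le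
  obtain ⟨s₃, hs₃, hsign⟩ := hard_sign hK hY hG.le hm.le
  obtain ⟨s₄, hs₄, L, hgeo⟩ := geo_est hK hY
  obtain ⟨c₀, hc₀, hmin⟩ : ∃ m > 0, ∀ y ∈ K, m ≤ ell1 y :=
    hK.exists_forall_le' (continuousOn_ell1.mono hY) fun y hy => ell1_pos (hY y hy)
  refine ⟨Al (ystar ψ), N, c₀, limProp_Al h1 h2, hc₀, fun η hη => ?_⟩
  have hnear : ∀ᶠ y in 𝓝 (ystar ψ), ∀ j, ‖Al y j - Al (ystar ψ) j‖ ≤ η / 2 := by
    refine Filter.eventually_all.2 fun j => ?_
    have hc : ContinuousAt (fun y => Al y j) (ystar ψ) := (co_Al j).continuousAt (yadm_near h1 h2)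
    filter_upwards [hc.tendsto.eventually
      (Metric.closedBall_mem_nhds (Al (ystar ψ) j) (half_pos hη))] with y hy
    rwa [dist_eq_norm] at hy
  obtain ⟨d₁, hd₁, hclose⟩ := Metric.eventually_nhds_iff_ball.1 hnear
  obtain ⟨Y, κ, hκ, hYc, hYb⟩ := hbox (min d₀ d₁ / 2) (by positivity)
  have hYK : ∀ v : Y8, (∀ i, |v i| ≤ 1) → Y v ∈ K := by
    intro v hv
    rw [hKdef, Metric.mem_closedBall, dist_eq_norm]
    have := min_le_left d₀ d₁
    linarith [(hYb v hv).1]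
  have hYA : ∀ v : Y8, (∀ i, |v i| ≤ 1) → ∀ j, ‖Al (Y v) j - Al (ystar ψ) j‖ ≤ η / 2 := by
    intro v hv
    refine hclose _ ?_
    rw [Metric.mem_ball, dist_eq_norm]
    have := min_le_right d₀ d₁
    linarith [(hYb v hv).1]
  obtain ⟨s₅, hs₅, hhard⟩ := hard_close hK hY hG hm.le (η := min (η / 2) (κ / 2)) (by positivity)
  have hC1 : 0 < |C| + 1 := by positivity
  obtain ⟨K₀, hK₀⟩ := Cv_root (s₀ := min (min (min s₁ s₂) (min s₃ s₄))
    (min (min s₅ (1 / 2)) (min (η / 6) (1 / (4 * (|C| + 1)))))) (by positivity)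
  refine ⟨K₀, fun k hkK => ?_⟩
  obtain ⟨s, hk, hs, hsle, hs4⟩ := hK₀ k hkK
  simp only [le_min_iff] at hsle
  obtain ⟨⟨⟨e1, e2⟩, e3, e4⟩, ⟨e5, e6⟩, e7, e8⟩ := hsle
  have hCs : C * s ≤ 1 / 4 := by
    rw [le_div_iff₀ (by positivity)] at e8
    nlinarith [le_abs_self C]
  have hs4η : s ^ 4 ≤ η := by
    have : s ^ 2 ≤ s := by nlinarith
    have : s ^ 4 ≤ s := by nlinarith
    linarith
  have hs4' : s ^ 4 < 1 / 2 := by
    have : s ^ 2 ≤ 1 / 4 := by nlinarith
    nlinarith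
  obtain ⟨e, hec, he⟩ := hfixed s ⟨hs, e1⟩
  obtain ⟨par, hpar⟩ : ∃ par : (Fin 8 ⊕ Bool → ℝ) → Par, par = fun v =>
    (Y fun i => v (Sum.inl i), v (Sum.inr false), v (Sum.inr true)) := ⟨_, rfl⟩
  have hparB : ∀ v : Fin 8 ⊕ Bool → ℝ, (∀ i, |v i| ≤ 1) → par v ∈ Box K := by
    intro v hv
    rw [hpar]
    exact ⟨hYK _ fun i => hv _, hv _, hv _⟩
  have hparc : ContinuousOn par {v | ∀ i, |v i| ≤ 1} := by
    rw [hpar]
    refine ContinuousOn.prodMk ?_ (Continuous.continuousOn (by fun_prop))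
    exact hYc.comp (Continuous.continuousOn (by fun_prop)) fun v hv i => hv _
  obtain ⟨c1, c2, c3⟩ := hard_cont (RG := RG) (Rm := Rm) hY
    (fun y hy => (hgeo s ⟨hs, e4⟩ y hy).1) hec fun p hp => (he p hp).2.1
  obtain ⟨v, hv, hz⟩ := miranda (ι := Fin 8 ⊕ Bool)
    (fun v => Sum.elim (Et (geo s (par v).1) (dat s RG Rm (par v) (e (par v)))) fun b =>
      if b then Em (geo s (par v).1) (dat s RG Rm (par v) (e (par v)))
      else Eb (geo s (par v).1) (dat s RG Rm (par v) (e (par v))))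
    (by
      refine continuousOn_pi.2 fun i => ?_
      rcases i with i | b
      · exact (continuous_apply i).comp_continuousOn (c1.comp hparc hparB)
      · cases b
        · exact c2.comp hparc hparB
        · exact c3.comp hparc hparB)
    (by
      intro v hv i
      have hp := hparB v hv
      obtain ⟨n1, -, f1⟩ := he _ hp
      rcases i with i | b
      · have hE := abs_le.1 (((hhard s ⟨hs, e5⟩ _ hp _ n1 f1).2 i).trans (min_le_right _ _))
        have hB := (hYb (fun i => v (Sum.inl i)) fun i => hv _).2 i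
        have hY1 : (par v).1 = Y fun i => v (Sum.inl i) := by rw [hpar]
        rw [← hY1] at hB
        simp only [Sum.elim_inl]
        exact ⟨fun h => by linarith [hB.1 h, hE.1], fun h => by linarith [hB.2 h, hE.2]⟩
      · obtain ⟨g1, g2, g3, g4⟩ := hsign s ⟨hs, e3⟩ _ hp _ n1
        have hb1 : (par v).2.1 = v (Sum.inr false) := by rw [hpar]
        have hb2 : (par v).2.2 = v (Sum.inr true) := by rw [hpar]
        rw [hb1] at g1 g2
        rw [hb2] at g3 g4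
        cases b
        · exact ⟨g1, g2⟩
        · exact ⟨g3, g4⟩)
  have hp := hparB v hv
  have hAl : ∀ j, ‖Al (par v).1 j - Al (ystar ψ) j‖ ≤ η / 2 := by
    rw [hpar]
    exact hYA _ fun i => hv _
  have zE : Et (geo s (par v).1) (dat s RG Rm (par v) (e (par v))) = 0 :=
    funext fun i => congrFun hz (Sum.inl i)
  have zb : Eb (geo s (par v).1) (dat s RG Rm (par v) (e (par v))) = 0 :=
    congrFun hz (Sum.inr false)
  have zm : Em (geo s (par v).1) (dat s RG Rm (par v) (e (par v))) = 0 :=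
    congrFun hz (Sum.inr true)
  generalize par v = p at hp hAl zE zb zm
  obtain ⟨n1, hC, f1⟩ := he p hp
  generalize e p = x at n1 hC f1 zE zb zm
  obtain ⟨hg, hee, hqq, hl1, -⟩ := hgeo s ⟨hs, e4⟩ _ hp.1
  obtain ⟨hN, -, -, -, hR1, hRR, -⟩ := hhol s ⟨hs, e2⟩ p hp x n1
  have hR1' := hR1.trans hCs
  have hRR' := fun i => (hRR i).trans hCs
  obtain ⟨k1, k2, k3, k4, k5⟩ := fixed_cl hs hs4' hG hm (hY _ hp.1) hg hC f1 hR1' hRR'
  obtain ⟨-, hfix⟩ := fixed_fix hs hs4' hG hm (hY _ hp.1) hg hC f1 hR1' hRR'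
  obtain ⟨m1, m2, m3, m4, m5, m6, m7⟩ :=
    fixed_hard hs hs4' hG hm (hY _ hp.1) hg hC f1 hR1' hRR' zE zb zm
  have hA := (hhard s ⟨hs, e5⟩ p hp x n1 f1).1
  exact ⟨{
    k := k
    g := geo s p.1
    d := dat s RG Rm p x
    x := -(be s p / kap (s ^ 4))
    hk := hk
    ht := hs4
    adm := hg
    str := dat_str s RG Rm p x hC
    fix := hfix
    bd := hN
    t_le := hs4η
    e_le := hee.trans hs4η
    q_le := hqq.trans hs4η
    close := fun j => by
      have := norm_sub_le_norm_sub_add_norm_sub (AA (dat s RG Rm p x) j) (Al p.1 j)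
        (Al (ystar ψ) j)
      linarith [(hA j).trans (min_le_left _ _), hAl j]
    x_close := Solve_x hs e6 hp.2.1 (by linarith)
    c1 := k1
    phi1 := k2
    c2 := k3
    c3 := k4
    c4 := k5
    cL := m1
    nil := m2
    fl0 := m3
    fl1 := m4
    res := m5
    n1 := m6
    n4 := m7 }, rfl, (hmin _ hp.1).trans hl1.ge⟩

end Pool.Agent.MP_efb2da_gt

end

end

section

/-! All derivatives of the boundary curve converge to those of the circle. -/

open Set Complex Filter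
open scoped Topology ComplexConjugate Matrix ContDiff

noncomputable section

namespace Pool.Agent.MP_efb2da_gt

/-- the potential along the boundary curve -/
def CvP (k : ℕ) (g : Geo) (d : Dat) (w : ℂ) : MW :=
  (((2 * Real.pi * k : ℝ) : ℂ) * I) • xiN g d (((2 * Real.pi * k : ℝ) : ℂ) * w * I)
def CvF (k : ℕ) (Ψ : ℂ → MW) (s : ℝ) : MW := Ψ (((2 * Real.pi * k * s : ℝ) : ℂ) * I)
def CvG (Φ : MW) : ℂ := conj (symM Φ 0 1)

variable {η N : ℝ} {As : Fin 5 → MW}

lemma Cv_G {Φ : MW} (h : Φ.det = 1) : ContDiffAt ℝ ∞ CvG Φ :=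
  Complex.conjCLE.contDiff.contDiffAt.comp Φ
    (((entC 0 1).restrictScalars ℝ).contDiff.contDiffAt.comp Φ (contDiffAt_symM h))

lemma Cv_k (S : Sol η N As) : (0:ℝ) < S.k := by have := S.hk; positivity

lemma Cv_strip {g : Geo} (hg : AdmG g) {ζ : ℂ} (h : |ζ.re| ≤ 1) : ζ ∈ Strip g := by
  obtain ⟨-, ⟨h1, h2⟩, -⟩ := hg
  change |ζ.re| < _
  refine h.trans_lt ?_
  rw [Real.lt_log_iff_exp_lt (by positivity), lt_div_iff₀ (by positivity)]
  nlinarith [Real.exp_one_lt_three, Real.exp_pos 1]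

lemma Cv_P (S : Sol η N As) (w : ℂ) : CvP S.k S.g S.d w =
    (2 * Real.pi * I : ℂ) • Th S.g S.d (ee S.g * exp (((2 * Real.pi * S.k : ℝ) : ℂ) * w * I)) := by
  have hk : (S.k : ℂ) ≠ 0 := by exact_mod_cast (Cv_k S).ne'
  rw [CvP, xiN, smul_smul, S.ht]
  congr 1
  push_cast
  field_simp

lemma Cv_hol {S : Sol η N As} {Ψ : ℂ → MW} (h : Neck S.g S.d Ψ) :
    IsOpen {w : ℂ | ((2 * Real.pi * S.k : ℝ) : ℂ) * w * I ∈ Strip S.g} ∧
    DifferentiableOn ℂ (CvP S.k S.g S.d)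
      {w : ℂ | ((2 * Real.pi * S.k : ℝ) : ℂ) * w * I ∈ Strip S.g} :=
  ⟨h.fr.opn.preimage (f := fun w : ℂ => ((2 * Real.pi * S.k : ℝ) : ℂ) * w * I) (by fun_prop),
    (h.fr.hol.comp (f := fun w : ℂ => ((2 * Real.pi * S.k : ℝ) : ℂ) * w * I) (by fun_prop)
      fun _ hw => hw).const_smul (((2 * Real.pi * S.k : ℝ) : ℂ) * I)⟩

lemma Cv_mem (S : Sol η N As) (s : ℝ) :
    (s : ℂ) ∈ {w : ℂ | ((2 * Real.pi * S.k : ℝ) : ℂ) * w * I ∈ Strip S.g} :=
  Cv_strip S.adm (by simp)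

lemma Cv_T {S : Sol η N As} {Ψ : ℂ → MW} (h : Neck S.g S.d Ψ) :
    ContDiff ℝ ∞ fun s : ℝ => CvP S.k S.g S.d s := by
  refine contDiff_iff_contDiffAt.2 fun s => ?_
  have h1 := (((Cv_hol h).2.contDiffOn (n := ∞) (Cv_hol h).1).contDiffAt
    ((Cv_hol h).1.mem_nhds (Cv_mem S s))).restrict_scalars ℝ
  exact h1.comp s ofRealCLM.contDiff.contDiffAt

lemma Cv_F {S : Sol η N As} {Ψ : ℂ → MW} (h : Neck S.g S.d Ψ) (s : ℝ) :
    HasDerivAt (CvF S.k Ψ) (CvF S.k Ψ s * CvP S.k S.g S.d s) s := by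
  have hγ : HasDerivAt (fun s : ℝ => ((2 * Real.pi * S.k * s : ℝ) : ℂ) * I)
      (((2 * Real.pi * S.k : ℝ) : ℂ) * I) s := by
    simpa using (((hasDerivAt_id s).const_mul (2 * Real.pi * S.k : ℝ)).ofReal_comp).mul_const I
  have := ode_chain (γ := fun s : ℝ => ((2 * Real.pi * S.k * s : ℝ) : ℂ) * I)
    (h.fr.ode _ (Neck2_strip S.adm _)) hγ
  rw [CvP, ← ofReal_mul]
  exact this

lemma Cv_cauchy {S : Sol η N As} {Ψ : ℂ → MW} (h : Neck S.g S.d Ψ) {j : ℕ} (hj : 0 < j) (s : ℝ) :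
    ‖iteratedDeriv j (fun s : ℝ => CvP S.k S.g S.d s) s‖ ≤
      j.factorial * (48 * |N|) * 8 ^ j * (ee S.g * S.k ^ j) := by
  have hk := Cv_k S
  have hpi := Real.pi_pos
  have hp4 := Real.pi_le_four
  have he : 0 < ee S.g := S.adm.2.1.1
  set c : ℝ := 2 * Real.pi * S.k with hc
  have c0 : 0 < c := by positivity
  have hre : ∀ w ∈ Metric.closedBall (s : ℂ) c⁻¹, |((c : ℂ) * w * I).re| ≤ 1 := fun w hw => by
    have h1 : ((c : ℂ) * w * I).re = -(c * (w - s).im) := by simp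
    have h2 := (abs_im_le_norm (w - s)).trans (mem_closedBall_iff_norm.1 hw)
    rw [h1, abs_neg, abs_mul, abs_of_pos c0]
    calc _ ≤ c * c⁻¹ := by gcongr
      _ = 1 := mul_inv_cancel₀ c0.ne'
  rw [Cv_real (Cv_hol h).1 (Cv_mem S) (Cv_hol h).2]
  have e := iteratedDeriv_const_add (f := CvP S.k S.g S.d) (x := (s : ℂ)) hj
    (-((2 * Real.pi * I : ℂ) • AA S.d 1))
  beta_reduce
  rw [← e]
  have hd : DiffContOnCl ℂ (fun z => -((2 * Real.pi * I : ℂ) • AA S.d 1) + CvP S.k S.g S.d z)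
      (Metric.ball (s : ℂ) c⁻¹) := by
    refine DifferentiableOn.diffContOnCl ?_
    rw [closure_ball _ (inv_pos.2 c0).ne']
    exact ((Cv_hol h).2.mono fun w hw => Cv_strip S.adm (hre w hw)).const_add _
  have hb := norm_iteratedDeriv_le_of_forall_mem_sphere_norm_le (C := 48 * |N| * ee S.g) j
    (inv_pos.2 c0) hd fun w hw => by
      have h1 := abs_le.1 (hre w (Metric.sphere_subset_closedBall hw))
      rw [Cv_P, neg_add_eq_sub, ← smul_sub, norm_smul]
      have hn : ‖(2 * Real.pi * I : ℂ)‖ ≤ 8 := by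
        rw [norm_mul, norm_I, mul_one, norm_mul, Complex.norm_real, Complex.norm_ofNat,
          Real.norm_of_nonneg hpi.le]
        linarith
      have h2 := est_Th S.g S.d (ee S.g * exp ((c : ℂ) * w * I))
      rw [norm_mul, Complex.norm_exp, Complex.norm_real, Real.norm_of_nonneg he.le] at h2
      generalize ((c : ℂ) * w * I).re = r at h1 h2
      have h3 : Real.exp r ≤ 3 := (Real.exp_le_exp.2 h1.2).trans Real.exp_one_lt_three.le
      have h4 : Real.exp (-r) ≤ 3 :=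
        (Real.exp_le_exp.2 (by linarith)).trans Real.exp_one_lt_three.le
      have h5 : ee S.g ^ 2 / (ee S.g * Real.exp r) = ee S.g * Real.exp (-r) := by
        rw [Real.exp_neg]
        field_simp
      have h6 : ‖S.d‖ ≤ |N| := S.bd.trans (le_abs_self N)
      rw [h5] at h2
      have h7 : (ee S.g * Real.exp r + ee S.g * Real.exp (-r)) * ‖S.d‖ ≤
          (ee S.g * 3 + ee S.g * 3) * |N| := by gcongr
      calc _ ≤ 8 * ((ee S.g * 3 + ee S.g * 3) * |N|) :=
            mul_le_mul hn (h2.trans h7) (norm_nonneg _) (by norm_num)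
        _ = _ := by ring
  refine hb.trans ?_
  have h8 : c ^ j ≤ (8 * S.k) ^ j := by
    rw [hc]
    gcongr
    linarith
  rw [inv_pow, div_inv_eq_mul]
  calc _ ≤ j.factorial * (48 * |N| * ee S.g) * (8 * S.k) ^ j := by gcongr
    _ = _ := by rw [mul_pow]; ring

lemma Cv_eps {c : ℝ} (S : Sol η N As) (h : c ≤ tt S.g * La1 S.g) :
    ee S.g ≤ Real.exp (-(c * S.k)) := by
  have hk := Cv_k S
  have he : 0 < ee S.g := S.adm.2.1.1
  rw [S.ht, La1, one_div, inv_mul_eq_div, le_div_iff₀ hk,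
    Real.le_log_iff_exp_le (by positivity), le_div_iff₀ (by positivity)] at h
  rw [Real.exp_neg, ← one_div, le_div_iff₀ (Real.exp_pos _)]
  nlinarith [mul_pos he (Real.exp_pos (c * S.k))]

lemma Cv_E (s : ℝ) : HasDerivAt (fun s : ℝ => Eq0 (2 * Real.pi * s))
    (Eq0 (2 * Real.pi * s) * ((2 * Real.pi * I : ℂ) • A10)) s := by
  have h1 : HasDerivAt (fun s : ℝ => 2 * Real.pi * s / 2) Real.pi s := by
    simpa using ((hasDerivAt_id s).const_mul (2 * Real.pi)).div_const 2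
  have h2 := ((h1.cos.ofReal_comp).smul_const (1 : MW)).add
    (((h1.sin.ofReal_comp).const_mul (2 * I)).smul_const A10)
  simp only [Neck3_E]
  refine h2.congr_deriv ?_
  simp only [add_mul, smul_mul_assoc, mul_smul_comm, one_mul, Neck3_sq, smul_smul, smul_add]
  push_cast
  have hI : I * I = -1 := I_mul_I
  match_scalars
  · linear_combination (-(Real.pi : ℂ) * Complex.sin (2 * Real.pi * s / 2)) * hI
  · ring

theorem Cv_neck1 (hL : LimProp As) (N : ℝ) {c : ℝ} (hc : 0 < c) (j : ℕ) {δ : ℝ} (hδ : 0 < δ) :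
    ∃ η₀ > 0, ∀ (η : ℝ) (S : Sol η N As) (Ψ : ℂ → MW), η ≤ η₀ → c ≤ tt S.g * La1 S.g →
      Neck S.g S.d Ψ → ∀ s ∈ Icc (0:ℝ) 1, ‖iteratedDeriv j
        (fun s : ℝ => Gam S.k S.x Ψ s - (1/2) * exp (2 * Real.pi * I * s)) s‖ ≤ δ := by
  by_contra hcon
  push Not at hcon
  choose η S Ψ h1 h2 h3 s hs h4 using fun n : ℕ => hcon (1 / ((n : ℝ) + 1)) (by positivity)
  obtain ⟨s₀, -, hs₀⟩ := isCompact_Icc.ultrafilter_le_nhds ((hyperfilter ℕ).map s)
    (by rw [le_principal_iff, Ultrafilter.coe_map, mem_map]; exact univ_mem' hs)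
  obtain ⟨l, hl0, hl, hs1⟩ : ∃ l : Filter ℕ, l.NeBot ∧ l ≤ atTop ∧ Tendsto s l (𝓝 s₀) :=
    ⟨(hyperfilter ℕ).toFilter, inferInstance, Nat.hyperfilter_le_atTop, hs₀⟩
  have η0 : ∀ n, 0 ≤ η n := fun n => (norm_nonneg _).trans ((S n).close 0)
  have hη : Tendsto η l (𝓝 0) :=
    (squeeze_zero η0 h1 tendsto_one_div_add_atTop_nhds_zero_nat).mono_left hl
  have hk : Tendsto (fun n => ((S n).k : ℝ)) l atTop := by
    have : Tendsto (fun n => (((S n).k : ℝ))⁻¹) l (𝓝[>] 0) := by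
      refine tendsto_nhdsWithin_iff.2 ⟨squeeze_zero (fun n => (inv_pos.2 (Cv_k (S n))).le)
        (fun n => ?_) hη, Eventually.of_forall fun n => inv_pos.2 (Cv_k (S n))⟩
      rw [← one_div, ← (S n).ht]
      exact (S n).t_le
    simpa only [Function.comp_def, inv_inv] using tendsto_inv_nhdsGT_zero.comp this
  have hN : Tendsto (fun n => (2 * |N| + 1) * η n) l (𝓝 0) := by
    simpa using hη.const_mul (2 * |N| + 1)
  have hE : ContDiff ℝ ∞ fun s : ℝ => Eq0 (2 * Real.pi * s) := Cv_smooth Cv_E contDiff_const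
  have h0 : Tendsto (fun n => CvF (S n).k (Ψ n) (s n)) l (𝓝 (Eq0 (2 * Real.pi * s₀))) := by
    refine ((hE.continuous.tendsto s₀).comp hs1).congr_dist ?_
    refine squeeze_zero' (Eventually.of_forall fun _ => dist_nonneg) ?_
      (by simpa using (hN.const_mul (2 * Real.pi)).const_mul
            (Real.exp (2 * (2 * Real.pi * (‖A10‖ + 1)))))
    filter_upwards [hN.eventually (ge_mem_nhds zero_lt_one)] with n hn
    rw [dist_comm, dist_eq_norm]
    exact Neck3_frame hL (S n) (h3 n) hn (hs n)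
  have hT : ∀ i, Tendsto (fun n => iteratedDeriv i (fun s : ℝ => CvP (S n).k (S n).g (S n).d s)
      (s n)) l (𝓝 (iteratedDeriv i (fun _ : ℝ => (2 * Real.pi * I : ℂ) • A10) s₀)) := by
    intro i
    rcases Nat.eq_zero_or_pos i with rfl | hi
    · simp only [iteratedDeriv_zero, Cv_P]
      refine Tendsto.const_smul (tendsto_iff_norm_sub_tendsto_zero.2
        (squeeze_zero (fun _ => norm_nonneg _) (fun n => ?_) hN)) _
      rw [← ofReal_mul]
      exact Neck3_Th hL (S n) _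
    · rw [iteratedDeriv_const, if_neg hi.ne', tendsto_zero_iff_norm_tendsto_zero]
      have a1 := ((Real.tendsto_pow_mul_exp_neg_atTop_nhds_zero i).comp
        (hk.const_mul_atTop hc)).const_mul (i.factorial * (48 * |N|) * 8 ^ i / c ^ i)
      rw [mul_zero] at a1
      refine squeeze_zero (fun _ => norm_nonneg _) (fun n => (Cv_cauchy (h3 n) hi _).trans ?_) a1
      have a2 := Cv_eps (S n) (h2 n)
      have a3 := Cv_k (S n)
      calc _ ≤ i.factorial * (48 * |N|) * 8 ^ i * (Real.exp (-(c * (S n).k)) * (S n).k ^ i) := by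
            gcongr
        _ = _ := by
            simp only [Function.comp, mul_pow]
            field_simp
  have hF := fun n => Cv_smooth (Cv_F (h3 n)) (Cv_T (h3 n))
  have hD := fun n (x : ℝ) => Cv_G ((h3 n).fr.det _ (Neck2_strip (S n).adm
    (2 * Real.pi * (S n).k * x)))
  have hD0 := fun x : ℝ => Cv_G (Neck3_det (2 * Real.pi * x))
  have t1 := Cv_jet2 (G := CvG) hF hE (fun n => hD n (s n)) (hD0 s₀)
    (Cv_jet1 (fun n => Cv_F (h3 n)) (fun n => Cv_T (h3 n)) Cv_E contDiff_const h0 hT) j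
  have g0 : ContDiff ℝ ∞ (CvG ∘ fun s : ℝ => Eq0 (2 * Real.pi * s)) :=
    contDiff_iff_contDiffAt.2 fun x => (hD0 x).comp x hE.contDiffAt
  have g1 : ∀ n, ContDiff ℝ ∞ (CvG ∘ CvF (S n).k (Ψ n)) := fun n =>
    contDiff_iff_contDiffAt.2 fun x => (hD n x).comp x (hF n).contDiffAt
  have t2 := ((g0.continuous_iteratedDeriv j (Cv_le j)).tendsto s₀).comp hs1
  have t3 : Tendsto (fun n => iteratedDeriv j (fun _ : ℝ => (((S n).x + 1/2 : ℝ) : ℂ)) (s n)) l
      (𝓝 0) := by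
    rw [tendsto_zero_iff_norm_tendsto_zero]
    refine squeeze_zero (fun _ => norm_nonneg _) (fun n => ?_) hη
    rw [iteratedDeriv_const]
    split_ifs
    · rw [Complex.norm_real, Real.norm_eq_abs]
      exact (S n).x_close
    · rw [norm_zero]
      exact η0 n
  have t4 := ((t1.sub t2).sub t3).norm
  rw [sub_self, sub_zero, norm_zero] at t4
  obtain ⟨n, hn⟩ := (t4.eventually (gt_mem_nhds hδ)).exists
  refine absurd (h4 n) (not_lt.2 (le_of_eq_of_le ?_ hn.le))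
  have e : (fun s : ℝ => Gam (S n).k (S n).x (Ψ n) s - (1/2) * exp (2 * Real.pi * I * s)) =
      (CvG ∘ CvF (S n).k (Ψ n) - CvG ∘ fun s : ℝ => Eq0 (2 * Real.pi * s)) -
        fun _ : ℝ => (((S n).x + 1/2 : ℝ) : ℂ) := by
    funext x
    have q := (Eq0_facts (2 * Real.pi * x)).2.1
    rw [vec, hz_mk3, show ((2 * Real.pi * x : ℝ) : ℂ) * I = 2 * Real.pi * I * x by
      push_cast; ring] at q
    rw [Neck1_Gam, ← q]
    simp only [Pi.sub_apply, Function.comp, CvG, CvF]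
    push_cast
    ring
  have g2 : ContDiff ℝ ∞ (CvG ∘ CvF (S n).k (Ψ n) - CvG ∘ fun s : ℝ => Eq0 (2 * Real.pi * s)) :=
    (g1 n).sub g0
  rw [e, iteratedDeriv_sub (g2.of_le (Cv_le j)).contDiffAt contDiffAt_const,
    iteratedDeriv_sub ((g1 n).of_le (Cv_le j)).contDiffAt (g0.of_le (Cv_le j)).contDiffAt]
  rfl

theorem Cv_neck (hL : LimProp As) (N : ℝ) {c : ℝ} (hc : 0 < c) (m : ℕ) {δ : ℝ} (hδ : 0 < δ) :
    ∃ η₀ > 0, ∀ (η : ℝ) (S : Sol η N As) (Ψ : ℂ → MW), η ≤ η₀ → c ≤ tt S.g * La1 S.g →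
      Neck S.g S.d Ψ → ∀ j ≤ m, ∀ s : ℝ, ‖iteratedDeriv j
        (fun s : ℝ => Gam S.k S.x Ψ s - (1/2) * exp (2 * Real.pi * I * s)) s‖ ≤ δ := by
  choose a ha h using fun j => Cv_neck1 hL N hc j hδ
  obtain ⟨i, -, hi⟩ := (Finset.range (m + 1)).exists_min_image a ⟨0, by simp⟩
  refine ⟨a i, ha i, fun η S Ψ h1 h2 h3 j hj => Geom_per (fun s => ?_)
    (h j η S Ψ (h1.trans (hi j (Finset.mem_range.2 (by omega)))) h2 h3)⟩
  rw [← congrFun (iteratedDeriv_comp_add_const j _ 1) s]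
  simp only [h3.periodic _, Geom_exp _]

end Pool.Agent.MP_efb2da_gt

end

end

section

/-! Convex extremal curves converging to the circle. -/

open Set Complex
open scoped Topology ComplexConjugate Matrix ContDiff

noncomputable section

namespace Pool.Agent.MP_efb2da_gt

open scoped Manifold in
def CvFinal (m : ℕ) (ε : ℝ) (k : ℕ) : Prop := ∃ γ : ℝ → E2, ContDiff ℝ ∞ γ ∧
    Function.Periodic γ 1 ∧ InjOn γ (Ico 0 1) ∧ (∀ s, deriv γ s ≠ 0) ∧
    (∀ (c : E2) (R : ℝ), range γ ≠ Metric.sphere c R) ∧ Convex ℝ (inside (range γ)) ∧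
    (∀ s, γ (s + 1 / k) =
      !₂[Real.cos (2 * Real.pi / k) * γ s 0 - Real.sin (2 * Real.pi / k) * γ s 1,
        Real.sin (2 * Real.pi / k) * γ s 0 + Real.cos (2 * Real.pi / k) * γ s 1]) ∧
    (∀ j ≤ m, ∀ s, ‖iteratedDeriv j (fun t =>
      γ t - !₂[Real.cos (2 * Real.pi * t) / 2, Real.sin (2 * Real.pi * t) / 2]) s‖ ≤ ε) ∧
    0 < area (inside (range γ)) ∧
    ∃ (M : Type) (_ : TopologicalSpace M) (_ : ChartedSpace (EuclideanHalfSpace 2) M)
      (_ : IsManifold (𝓡∂ 2) ∞ M) (_ : T2Space M) (_ : CompactSpace M) (_ : ConnectedSpace M)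
      (f N : M → E3) (H : ℝ), IsHSurface f N H ∧
        BijOn f ((𝓡∂ 2).boundary M) (incl '' range γ) ∧
        |H| = len γ / (2 * area (inside (range γ)))

lemma Cv_norm (Γ : ℝ → ℂ) (j : ℕ) (s : ℝ) : ‖iteratedDeriv j (fun t => toE2 (Γ t) -
      !₂[Real.cos (2 * Real.pi * t) / 2, Real.sin (2 * Real.pi * t) / 2]) s‖ =
    ‖iteratedDeriv j (fun t : ℝ => Γ t - (1/2) * exp (2 * Real.pi * I * t)) s‖ := by
  rw [← norm_iteratedFDeriv_eq_norm_iteratedDeriv, ← norm_iteratedFDeriv_eq_norm_iteratedDeriv,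
    ← Complex.orthonormalBasisOneI.repr.norm_iteratedFDeriv_comp_left]
  congr 2
  funext t
  rw [Function.comp, ← circ_toE2_eq,
    show 2 * Real.pi * I * t = ((2 * Real.pi * t : ℝ) : ℂ) * I by push_cast; ring]
  ext i
  fin_cases i
  · simp [toE2, -ofReal_mul, exp_ofReal_mul_I_re, exp_ofReal_mul_I_im]
    ring
  · simp [toE2, -ofReal_mul, exp_ofReal_mul_I_re, exp_ofReal_mul_I_im]
    ring

lemma Cv_rot {η N : ℝ} {As : Fin 5 → MW} {S : Sol η N As} {Ψ : ℂ → MW} (h : Neck S.g S.d Ψ)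
    (s : ℝ) : toE2 (Gam S.k S.x Ψ (s + 1 / S.k)) =
      !₂[Real.cos (2 * Real.pi / S.k) * toE2 (Gam S.k S.x Ψ s) 0 -
          Real.sin (2 * Real.pi / S.k) * toE2 (Gam S.k S.x Ψ s) 1,
        Real.sin (2 * Real.pi / S.k) * toE2 (Gam S.k S.x Ψ s) 0 +
          Real.cos (2 * Real.pi / S.k) * toE2 (Gam S.k S.x Ψ s) 1] := by
  have hk := Cv_k S
  have e : Gam S.k S.x Ψ (s + 1 / S.k) =
      exp (((2 * Real.pi / S.k : ℝ) : ℂ) * I) * Gam S.k S.x Ψ s := by
    have h1 := Neck2_rot h (2 * Real.pi * S.k * s) 0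
    rw [show 2 * Real.pi * S.k * s + 2 * Real.pi * (0 + 1 : ℕ) = 2 * Real.pi * S.k * (s + 1 / S.k)
      by push_cast; field_simp, Nat.cast_zero, mul_zero, add_zero] at h1
    rw [Gam, Gam, h1, ← mul_one (R1 S.g S.d * _),
      S.c1.pt_mul (h.fr.det _ (Neck2_strip S.adm _)) MGE_one Matrix.det_one, hz_Rot, S.ht]
    congr 2
    push_cast
    ring
  rw [e]
  ext i
  fin_cases i
  · simp [toE2, -ofReal_div, exp_ofReal_mul_I_re, exp_ofReal_mul_I_im]
  · simp [toE2, -ofReal_div, exp_ofReal_mul_I_re, exp_ofReal_mul_I_im]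
    ring

theorem Cv_main {m : ℕ} {ε η N : ℝ} {As : Fin 5 → MW} (S : Sol η N As) (hN : Nil S.g S.d)
    (hH : hopf (xiN S.g S.d) (La1 S.g) ≠ 0) (hη : η * N ≤ 1/4)
    (hcap : ∀ j : Fin 3, (AA S.d (cj5 j)).det = algebraMap ℂ W (-1/4) →
      ∃ (P : MW) (φ : W), MGE 0 P ∧ P.det = 1 ∧ sharp P = P ∧ W.GE (-1) φ ∧ W.cj φ = φ ∧
        W.coef (-1) φ ≠ 0 ∧
        adj P * AA S.d (cj5 j) * P = !![algebraMap ℂ W (1/2), φ; 0, algebraMap ℂ W (-1/2)])
    (hcl : ∀ Ψ : ℂ → MW, Neck S.g S.d Ψ → ∀ j ≤ max m 2, ∀ s : ℝ, ‖iteratedDeriv j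
      (fun s : ℝ => Gam S.k S.x Ψ s - (1/2) * exp (2 * Real.pi * I * s)) s‖ ≤ min ε (1/20)) :
    CvFinal m ε S.k := by
  obtain ⟨Ω, Φ, hF⟩ := exists_frame S.adm S.str
  obtain ⟨R5, hR⟩ := S.arcs hF
  choose P φ p1 p2 p3 p4 p5 p6 p7 using fun j => hcap j (hR.det_cap hF hη j)
  choose X X1 X2 X3 X4 using fun j =>
    exists_cap_chart hF hR hN j (p1 j) (p2 j) (p3 j) (p4 j) (p5 j) (p6 j) (p7 j)
  obtain ⟨Ψ, hΨ, hΨe⟩ := exists_neck hF S.adm S.str S.fix hN
  have DF := Geom_frame hF S.adm S.str hN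
  have t0 : (tt S.g : ℂ) ≠ 0 := ofReal_ne_zero.2 S.adm.1.1.ne'
  have hp := hΨ.periodic
  have hΓ := hΨ.contDiff_Gam (x := S.x) S.adm S.k
  obtain ⟨b1, b2, b3⟩ := Cv_curve hΓ hp fun j hj s =>
    (hcl Ψ hΨ j (hj.trans (le_max_right _ _)) s).trans (min_le_right _ _)
  obtain ⟨c1, c2, c3, c4, c5, c6, c7, c8⟩ := curve_final hΓ hp b1 b2
    (hΨ.differentiable_nu S.adm S.k) (hΨ.norm_deriv_Gam S.adm S.k) hΨ.flux (hΨ.noncirc hN hH)
  have k0 : (0:ℝ) < 2 * Real.pi * S.k := by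
    have : (0:ℝ) < S.k := by exact_mod_cast lt_of_lt_of_le (by norm_num) S.hk
    positivity
  have hY : ∀ s : ℝ, pt S.x (Ψ (((2 * Real.pi * S.k * s : ℝ) : ℂ) * I)) =
      mk3 (Gam S.k S.x Ψ s) 0 := fun s => by
    rw [← hΨ.planar (x := S.x) S.adm (2 * Real.pi * S.k * s), Gam, mk3_hz]
  have hY' : ∀ θ : ℝ, pt S.x (Ψ (θ * I)) = mk3 (Gam S.k S.x Ψ (θ / (2 * Real.pi * S.k))) 0 :=
    fun θ => by rw [← hY, mul_div_cancel₀ _ k0.ne']
  have st := fun (ζ : ℂ) (h : |ζ.re| < 1/2) => xiN_ne S.adm S.fix hN h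
  let D : SurfData :=
    { k := S.k, ε := ee S.g, q := qq S.g, p := pp S.g, f := fun z => pt S.x (Φ z), X := X
      Y := fun ζ => pt S.x (Ψ ζ), hk := S.hk, ε0 := S.adm.2.1.1, ε1 := S.adm.2.1.2
      q0 := S.adm.2.2.1.1, q1 := S.adm.2.2.1.2, adm := S.adm.2.2.2
      cmc := fun z hz hi => by
        filter_upwards [(Geom_open _ _ _).mem_nhds hz,
          hF.opn.mem_nhds (hF.up z (Geom_sub S.adm hz) hi)] with w h1 h2
        refine (DF.cmcAt h2 ?_).sub_const _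
        rw [map_smul]
        exact smul_ne_zero t0 (hN.ne w h1.1 h1.2.1 h1.2.2.1 h1.2.2.2)
      refl := fun y hy => by
        filter_upwards [hF.arc_local S.adm S.str (Geom_sub S.adm hy)] with z hz
        have d1 := hF.det _ hz.2.1
        have := (hR.cl_val y).pt_mul (Φ := sharp (Φ (conj z))) (by rw [det_sharp, d1, W.cj_one])
          MGE_one Matrix.det_one
        rw [mul_one, pt_sharp d1, Geom_rt S.ht, ← hR.val y (Geom_sub S.adm hy), ← hz.2.2] at this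
        exact this
      per := fun z hi h1 h2 => by
        obtain ⟨L, hL, e⟩ := hR.per
        obtain ⟨a, b, c⟩ := Geom_sqrt S.adm
        have z8 : 8 < ‖z‖ := by
          rw [div_lt_iff₀ (by positivity)] at h1
          nlinarith [norm_nonneg z]
        have zR : z ∈ Rg (ee S.g) (qq S.g) (pp S.g) := by
          refine ⟨by linarith, h2, ?_, fun j hj => ?_⟩
          · have := norm_sub_norm_le z 1
            rw [norm_one] at this
            linarith [S.adm.2.1.2]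
          · have := abs_pos_le S.adm.2.2.2 (cj5 j)
            rw [pos_cj5] at this
            rw [hj, norm_real, Real.norm_eq_abs] at z8
            linarith
        have zD := Geom_sub S.adm zR
        have := hL.pt_mul (hF.det z (hF.up z zD hi)) S.str.geG.adj
          (by rw [det_adj, S.fix.detG])
        rw [← e z hi z8 zD.2.1, mul_assoc, mul_adj_of_det S.fix.detG, mul_one] at this
        simpa using this
      X_cmc := X1, X_eq := X2, X_rot := X3, X_refl := X4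
      Y_cmc := fun ζ h => (hΨ.fr.cmcAt (st ζ h).1 (st ζ h).2).sub_const _
      Y_eq := fun ζ h h1 h2 => by rw [hΨe ζ (st ζ h).1 h1 h2]
      Y_rot := fun ζ h => by
        have := S.c1.pt_mul (hΨ.fr.det ζ (st ζ h).1) MGE_one Matrix.det_one
        have e := Geom_rt S.ht 1
        rw [Nat.cast_one, pow_one] at e
        rw [mul_one, e, ← hΨ.rot ζ (st ζ h).1] at this
        exact this
      Y_refl := fun ζ h => by rw [hΨ.cj ζ (st ζ h).1, pt_sharp (hΨ.fr.det ζ (st ζ h).1)]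
      Y_inj := fun a ha b hb e => by
        have m : ∀ θ ∈ Ico 0 (2 * Real.pi * S.k), θ / (2 * Real.pi * S.k) ∈ Ico (0:ℝ) 1 :=
          fun θ h => ⟨div_nonneg h.1 k0.le, (div_lt_one k0).2 h.2⟩
        have e' := congrArg hz e
        simp only [hY', hz_mk3] at e'
        exact (div_left_inj' k0.ne').1 (c4 (m a ha) (m b hb) e') }
  obtain ⟨M, i1, i2, i3, i4, i5, i6, f, n, hf, hb⟩ := D.surface
  refine ⟨_, c1, c2, c3, c5, c6, b3, Cv_rot hΨ, fun j hj s => ?_, c7, M, i1, i2, i3, i4, i5, i6,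
    f, n, 2, hf, ?_, c8⟩
  · rw [Cv_norm]
    exact (hcl Ψ hΨ j (hj.trans (le_max_left _ _)) s).trans (min_le_left _ _)
  convert hb using 1
  ext v
  constructor
  · rintro ⟨_, ⟨s, rfl⟩, rfl⟩
    exact ⟨2 * Real.pi * S.k * s, (hY s).trans (incl_toE2 _).symm⟩
  · rintro ⟨θ, rfl⟩
    exact ⟨_, ⟨θ / (2 * Real.pi * S.k), rfl⟩, (incl_toE2 _).trans (hY' θ).symm⟩

theorem Cv_final (m : ℕ) (ε : ℝ) (hε : 0 < ε) : ∃ K : ℕ, ∀ k ≥ K, CvFinal m ε k := by
  obtain ⟨As, N, c, hL, hc, h⟩ := Cv_solve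
  obtain ⟨a1, p1, h1⟩ := sol_nil
  obtain ⟨a2, p2, h2⟩ := sol_ne hL N
  obtain ⟨a3, p3, h3⟩ := sol_hopf hL N
  obtain ⟨a4, p4, h4⟩ := exists_cap_gauge hL N
  obtain ⟨a5, p5, h5⟩ := Cv_neck hL N hc (max m 2) (δ := min ε (1/20)) (by positivity)
  have p6 : 0 < 1 / (4 * (|N| + 1)) := by positivity
  obtain ⟨η, e0, e1, e2, e3, e4, e5, e6⟩ : ∃ η > 0, η ≤ a1 ∧ η ≤ a2 ∧ η ≤ a3 ∧ η ≤ a4 ∧ η ≤ a5 ∧
      η ≤ 1 / (4 * (|N| + 1)) :=
    ⟨min a1 (min a2 (min a3 (min a4 (min a5 (1 / (4 * (|N| + 1))))))), by positivity,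
      by simp only [← le_min_iff, le_refl]⟩
  obtain ⟨K, hK⟩ := h η e0
  refine ⟨K, fun k hk => ?_⟩
  obtain ⟨S, rfl, hS⟩ := hK k hk
  refine Cv_main S ⟨h1 η N As S e1, h2 η S e2⟩ (h3 η S e3) ?_ (h4 η S e4)
    fun Ψ h => h5 η S Ψ e5 hS h
  rw [le_div_iff₀ (by positivity)] at e6
  nlinarith [mul_le_mul_of_nonneg_left (le_abs_self N) e0.le]

end Pool.Agent.MP_efb2da_gt

end

end
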