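import Mathlib

/-! Definitions used in the statement: surfaces of constant mean curvature with boundary,
length of a closed plane curve, the domain it encloses. -/

open scoped Manifold ContDiff RealInnerProductSpace
open Set

noncomputable section

namespace Pool.Agent.MP_efb2da_gt

abbrev E2 := EuclideanSpace ℝ (Fin 2)
abbrev E3 := EuclideanSpace ℝ (Fin 3)

/-- The plane `P = {x₂ = 0}` of `ℝ³`, parametrised by `ℝ²`. -/
def incl (x : E2) : E3 := !₂[x 0, x 1, 0]

/-- The union of the bounded connected components of the complement of `C` in the plane. -/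
def inside (C : Set E2) : Set E2 :=
  {x | x ∉ C ∧ Bornology.IsBounded (connectedComponentIn Cᶜ x)}

/-- Lebesgue area of a plane set. -/
def area (D : Set E2) : ℝ := (MeasureTheory.volume D).toReal

/-- Length of the closed curve `γ` of period one. -/
def len (γ : ℝ → E2) : ℝ := ∫ s in (0:ℝ)..1, ‖deriv γ s‖

/-- The closed half plane, model of a surface with boundary. -/
def halfPlane : Set E2 := {x | 0 ≤ x 0}

/-- Partial derivative `∂ᵢ g` at `x`, taken within the closed half plane. -/
def pd (g : E2 → E3) (i : Fin 2) (x : E2) : E3 :=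
  fderivWithin ℝ g halfPlane x (EuclideanSpace.single i 1)

section
variable {M : Type} [TopologicalSpace M] [ChartedSpace (EuclideanHalfSpace 2) M]

/-- The coordinates of `p` in the chart at `p`. -/
def ctr (p : M) : E2 := extChartAt (𝓡∂ 2) p p

/-- The map `f` read in the chart at `p`. -/
def loc (f : M → E3) (p : M) : E2 → E3 := f ∘ (extChartAt (𝓡∂ 2) p).symm

/-- First partial derivatives of `f` at `p` in the chart at `p`. -/
def d1 (f : M → E3) (p : M) (i : Fin 2) : E3 := pd (loc f p) i (ctr p)

/-- Second partial derivatives `∂ⱼ∂ᵢ f` at `p` in the chart at `p`. -/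
def d2 (f : M → E3) (p : M) (i j : Fin 2) : E3 := pd (pd (loc f p) i) j (ctr p)

/-- Coefficients of the first fundamental form at `p`. -/
def fff (f : M → E3) (p : M) (i j : Fin 2) : ℝ := ⟪d1 f p i, d1 f p j⟫

/-- Coefficients of the second fundamental form at `p` with respect to the normal `N`. -/
def sff (f N : M → E3) (p : M) (i j : Fin 2) : ℝ := ⟪d2 f p i j, N p⟫

/-- Mean curvature (average of the principal curvatures) at `p`:
`(e G - 2 f F + g E) / (2 (E G - F²))`. -/
def meanCurv (f N : M → E3) (p : M) : ℝ :=
  (sff f N p 0 0 * fff f p 1 1 - 2 * sff f N p 0 1 * fff f p 0 1 + sff f N p 1 1 * fff f p 0 0) /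
    (2 * (fff f p 0 0 * fff f p 1 1 - fff f p 0 1 ^ 2))

/-- `f` is a smooth immersion, `N` a continuous unit normal field along `f`, and the mean
curvature with respect to `N` equals `H` at every point. -/
structure IsHSurface (f N : M → E3) (H : ℝ) : Prop where
  smooth : ContMDiff (𝓡∂ 2) 𝓘(ℝ, E3) ∞ f
  immersion : ∀ p, LinearIndependent ℝ (d1 f p)
  continuous_normal : Continuous N
  unit_normal : ∀ p, ‖N p‖ = 1
  orthogonal : ∀ p i, ⟪d1 f p i, N p⟫ = 0
  mean : ∀ p, meanCurv f N p = H

end

end Pool.Agent.MP_efb2da_gt
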