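import Pool.Agent.MP_efb2da_gt.Iw2

open Set Complex
open scoped Topology ComplexConjugate Matrix ContDiff

noncomputable section

namespace Pool.Agent.MP_efb2da_gt

/-- a holomorphic frame with a DPW potential on the open set `O` -/
structure DFrame (O : Set ℂ) (Φ ξ : ℂ → MW) : Prop where
  opn : IsOpen O
  ode : ∀ z ∈ O, HasDerivAt Φ (Φ z * ξ z) z
  det : ∀ z ∈ O, (Φ z).det = 1
  hol : DifferentiableOn ℂ ξ O
  ge : ∀ z ∈ O, MGE (-1) (ξ z)
  tr : ∀ z ∈ O, trW (ξ z) = 0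
  nil : ∀ z ∈ O, (cf (-1) (ξ z)).det = 0

def aM (Φ ξ : ℂ → MW) (z : ℂ) : MC := cf 0 (Bm (Φ z)) * cf (-1) (ξ z) * cf 0 (Bi (Φ z))

/-- the Hopf differential in terms of the potential -/
def hopf (ξ : ℂ → MW) (z : ℂ) : MC :=
  (cf (-1) (deriv ξ z) + (cf 0 (ξ z) * cf (-1) (ξ z) - cf (-1) (ξ z) * cf 0 (ξ z))) * cf (-1) (ξ z) -
    cf (-1) (ξ z) *
      (cf (-1) (deriv ξ z) + (cf 0 (ξ z) * cf (-1) (ξ z) - cf (-1) (ξ z) * cf 0 (ξ z)))

lemma Dpw1_cf_st (n : ℤ) (M : MW) : cf n (st M) = ct (cf (-n) M) := by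
  rw [st_eq, cf_flat, cf_sharp]; rfl

lemma Dpw1_three {A : MW} {c : MC} (h1 : MGE (-1) A) (h2 : st A = -A) (h3 : J0 A = 0)
    (h4 : cf (-1) A = c) : A = mono (-1) c - cst c - (mono 1 (ct c) - cst (ct c)) := by
  have e : ∀ n, cf n A = -ct (cf (-n) A) := fun n => by
    rw [← Dpw1_cf_st, h2, map_neg, neg_neg]
  have g : MGE 0 (A - mono (-1) c + mono 1 (ct c)) := MGE_iff.2 fun n hn => by
    rw [map_add, map_sub, cf_mono, cf_mono, if_neg (by omega : n ≠ 1)]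
    split_ifs with h
    · rw [h, h4]; simp
    · rw [MGE_iff.1 h1 n (by omega)]; simp
  have l : MLE 0 (A - mono (-1) c + mono 1 (ct c)) := MLE_iff.2 fun n hn => by
    rw [map_add, map_sub, cf_mono, cf_mono, if_neg (by omega : n ≠ -1), e]
    split_ifs with h
    · rw [h, h4]; simp
    · rw [MGE_iff.1 h1 (-n) (by omega)]; simp
  have k := eq_cst g l
  have j := congrArg J0 k
  rw [J0_cst, map_add, map_sub, h3, J0_mono, J0_mono] at j
  rw [← j, map_add, map_sub, map_zero] at k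
  rw [← sub_eq_zero] at k ⊢
  rw [← k]; abel

lemma Dpw1_fderiv_clm {E F : Type} [NormedAddCommGroup E] [NormedSpace ℝ E] [NormedAddCommGroup F]
    [NormedSpace ℝ F] (L : E →L[ℝ] F) {f : ℂ → E} {z : ℂ} (hf : ContDiffAt ℝ ∞ f z) (v : ℂ) :
    fderiv ℝ (fun z => L (f z)) z v = L (fderiv ℝ f z v) := by
  have := (L.hasFDerivAt.comp z (hf.differentiableAt (by simp)).hasFDerivAt).fderiv
  exact congrArg (fun T : ℂ →L[ℝ] F => T v) this

lemma Dpw1_fderiv_mul {f g : ℂ → MW} {z : ℂ} (hf : ContDiffAt ℝ ∞ f z) (hg : ContDiffAt ℝ ∞ g z)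
    (v : ℂ) : fderiv ℝ (fun z => f z * g z) z v = f z * fderiv ℝ g z v + fderiv ℝ f z v * g z := by
  have := ((hf.differentiableAt (by simp)).hasFDerivAt.mul'
    (hg.differentiableAt (by simp)).hasFDerivAt).fderiv
  exact congrArg (fun T : ℂ →L[ℝ] MW => T v) this

lemma Dpw1_fderiv_const {F : Type} [NormedAddCommGroup F] [NormedSpace ℝ F] {f : ℂ → F} {c : F}
    {z : ℂ} (hf : ∀ᶠ w in 𝓝 z, f w = c) (v : ℂ) : fderiv ℝ f z v = 0 := by
  rw [Filter.EventuallyEq.fderiv_eq (f := fun _ => c) hf]; simp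

namespace DFrame
variable {O : Set ℂ} {Φ ξ : ℂ → MW} (h : DFrame O Φ ξ) {z : ℂ} (hz : z ∈ O)
include h hz

theorem contDiffAt_frame : ContDiffAt ℝ ∞ Φ z := by
  have d : DifferentiableOn ℂ Φ O := fun w hw =>
    (h.ode w hw).differentiableAt.differentiableWithinAt
  exact ((d.contDiffOn h.opn).contDiffAt (h.opn.mem_nhds hz)).restrict_scalars ℝ
theorem contDiffAt_pot : ContDiffAt ℝ ∞ ξ z :=
  ((h.hol.contDiffOn h.opn).contDiffAt (h.opn.mem_nhds hz)).restrict_scalars ℝ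
theorem contDiffAt_U : ContDiffAt ℝ ∞ (fun z => Uf (Φ z)) z :=
  (contDiffAt_Uf (h.det z hz)).comp z (h.contDiffAt_frame hz)
theorem contDiffAt_sym : ContDiffAt ℝ ∞ (fun z => symM (Φ z)) z :=
  (contDiffAt_symM (h.det z hz)).comp z (h.contDiffAt_frame hz)
theorem Dpw1_contDiffAt_B : ContDiffAt ℝ ∞ (fun z => Bm (Φ z)) z :=
  (contDiffAt_Bm (h.det z hz)).comp z (h.contDiffAt_frame hz)
theorem Dpw1_contDiffAt_Bi : ContDiffAt ℝ ∞ (fun z => Bi (Φ z)) z :=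
  (contDiffAt_Bi (h.det z hz)).comp z (h.contDiffAt_frame hz)
theorem contDiffAt_a : ContDiffAt ℝ ∞ (aM Φ ξ) z :=
  ((((cf 0).restrictScalars ℝ).contDiff.contDiffAt.comp z (h.Dpw1_contDiffAt_B hz)).mul
    (((cf (-1)).restrictScalars ℝ).contDiff.contDiffAt.comp z (h.contDiffAt_pot hz))).mul
    (((cf 0).restrictScalars ℝ).contDiff.contDiffAt.comp z (h.Dpw1_contDiffAt_Bi hz))

theorem Dpw1_near : ∀ᶠ w in 𝓝 z, (Φ w).det = 1 :=
  Filter.mem_of_superset (h.opn.mem_nhds hz) h.det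

theorem Dpw1_dB_pos (v : ℂ) : MGE 0 (fderiv ℝ (fun z => Bm (Φ z)) z v) := MGE_iff.2 fun n hn => by
  have := Dpw1_fderiv_clm ((cf n).restrictScalars ℝ) (h.Dpw1_contDiffAt_B hz) v
  refine this.symm.trans (Dpw1_fderiv_const (c := 0) ?_ v)
  exact (h.Dpw1_near hz).mono fun w hw => MGE_iff.1 (Bm_pos hw) n hn

theorem Dpw1_al (v : ℂ) : adj (Uf (Φ z)) * fderiv ℝ (fun z => Uf (Φ z)) z v =
    v • (Bm (Φ z) * ξ z * Bi (Φ z)) - fderiv ℝ (fun z => Bm (Φ z)) z v * Bi (Φ z) := by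
  have d := h.det z hz
  have a := Dpw1_fderiv_mul (h.contDiffAt_U hz) (h.Dpw1_contDiffAt_B hz) v
  have e : (fun z => Uf (Φ z) * Bm (Φ z)) =ᶠ[𝓝 z] Φ :=
    (h.Dpw1_near hz).mono fun w hw => Uf_mul_Bm hw
  have b : fderiv ℝ Φ z v = v • (Φ z * ξ z) :=
    congrArg (fun T : ℂ →L[ℝ] MW => T v) ((h.ode z hz).hasFDerivAt.restrictScalars ℝ).fderiv
  rw [e.fderiv_eq, b] at a
  have c := congrArg (fun X => adj (Uf (Φ z)) * X * Bi (Φ z)) a
  have k : adj (Uf (Φ z)) * Φ z = Bm (Φ z) := by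
    conv_lhs => rw [← Uf_mul_Bm d]
    rw [Uf_mul_Bm d]
    nth_rw 2 [← Uf_mul_Bm d]
    rw [← mul_assoc, adj_mul_of_det (det_Uf d), one_mul]
  simp only [mul_add, add_mul, mul_smul_comm, smul_mul_assoc, ← mul_assoc,
    adj_mul_of_det (det_Uf d), one_mul, k] at c
  rw [c, mul_assoc _ (Bm (Φ z)), Bm_mul_Bi d, mul_one]; abel

theorem Dpw1_al_eq (v : ℂ) : adj (Uf (Φ z)) * fderiv ℝ (fun z => Uf (Φ z)) z v =
    v • (mono (-1) (aM Φ ξ z) - cst (aM Φ ξ z)) -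
      conj v • (mono 1 (ct (aM Φ ξ z)) - cst (ct (aM Φ ξ z))) := by
  have d := h.det z hz
  have p : MGE 0 (fderiv ℝ (fun z => Bm (Φ z)) z v * Bi (Φ z)) :=
    (h.Dpw1_dB_pos hz v).mul (Bi_pos d)
  have q := MGE.conj (Bm_pos d) (h.ge z hz) (Bi_pos d)
  have t := Dpw1_three (A := adj (Uf (Φ z)) * fderiv ℝ (fun z => Uf (Φ z)) z v)
    (c := v • aM Φ ξ z) (by rw [h.Dpw1_al hz]; exact (q.smul v).sub (p.weaken (by norm_num)))
    (by
      have a := Dpw1_fderiv_mul (f := fun z => st (Uf (Φ z)))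
        (st.contDiff.contDiffAt.comp z (h.contDiffAt_U hz)) (h.contDiffAt_U hz) v
      rw [Dpw1_fderiv_const (c := 1) ((h.Dpw1_near hz).mono fun w hw => Uf_unitary hw),
        Dpw1_fderiv_clm st (h.contDiffAt_U hz) v] at a
      rw [st_mul, ← st_Uf d, st_st]
      exact eq_neg_of_add_eq_zero_right a.symm)
    (by
      have b : fderiv ℝ (fun z => J0 (Uf (Φ z))) z v = J0 (fderiv ℝ (fun z => Uf (Φ z)) z v) :=
        Dpw1_fderiv_clm (J0.restrictScalars ℝ) (h.contDiffAt_U hz) v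
      rw [Dpw1_fderiv_const (c := 1) ((h.Dpw1_near hz).mono fun w hw => J0_Uf hw)] at b
      rw [J0_mul, ← b, mul_zero])
    (by
      rw [h.Dpw1_al hz, map_sub, map_smul, MGE.cf_conj (Bm_pos d) (h.ge z hz) (Bi_pos d),
        MGE_iff.1 p (-1) (by norm_num), sub_zero, aM])
  rw [t, ct_smul, mono_smul, mono_smul, map_smul, map_smul, smul_sub, smul_sub]

theorem fderiv_U (v : ℂ) : fderiv ℝ (fun z => Uf (Φ z)) z v = Uf (Φ z) *
    (v • (mono (-1) (aM Φ ξ z) - cst (aM Φ ξ z)) -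
      conj v • (mono 1 (ct (aM Φ ξ z)) - cst (ct (aM Φ ξ z)))) := by
  rw [← h.Dpw1_al_eq hz, ← mul_assoc, mul_adj_of_det (det_Uf (h.det z hz)), one_mul]

theorem fderiv_sym (v : ℂ) : fderiv ℝ (fun z => symM (Φ z)) z v =
    -(v • aM Φ ξ z + conj v • ct (aM Φ ξ z)) := by
  refine (Dpw1_fderiv_clm (J1.restrictScalars ℝ) (h.contDiffAt_U hz) v).trans ?_
  change J1 _ = _
  rw [h.fderiv_U hz, J1_mul, J0_Uf (h.det z hz)]
  simp only [map_sub, map_smul, J0_mono, J0_cst, J1_mono, J1_cst, sub_self, smul_zero, mul_zero,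
    one_mul, sub_zero, zero_add]
  push_cast
  module

theorem fderiv_J2 (v : ℂ) : fderiv ℝ (fun z => J2 (Uf (Φ z))) z v =
    (2:ℂ) • (symM (Φ z) * -(v • aM Φ ξ z + conj v • ct (aM Φ ξ z))) +
      (v • aM Φ ξ z - conj v • ct (aM Φ ξ z)) := by
  refine (Dpw1_fderiv_clm (J2.restrictScalars ℝ) (h.contDiffAt_U hz) v).trans ?_
  change J2 _ = _
  rw [h.fderiv_U hz, J2_mul, J0_Uf (h.det z hz), symM]
  simp only [map_sub, map_smul, J0_mono, J0_cst, J1_mono, J1_cst, J2_mono, J2_cst, sub_self,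
    smul_zero, mul_zero, one_mul, sub_zero, zero_add]
  push_cast
  congr 1
  · congr 2; module
  · module

theorem fderiv_B0 (v : ℂ) : fderiv ℝ (fun z => cf 0 (Bm (Φ z))) z v =
    (v • (cf 0 (Bm (Φ z) * ξ z * Bi (Φ z)) + aM Φ ξ z) - conj v • ct (aM Φ ξ z)) *
      cf 0 (Bm (Φ z)) := by
  have d := h.det z hz
  refine (Dpw1_fderiv_clm ((cf 0).restrictScalars ℝ) (h.Dpw1_contDiffAt_B hz) v).trans ?_
  change cf 0 _ = _
  have p : MGE 0 (fderiv ℝ (fun z => Bm (Φ z)) z v * Bi (Φ z)) :=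
    (h.Dpw1_dB_pos hz v).mul (Bi_pos d)
  have a := p.cf_mul (Bm_pos d)
  rw [mul_assoc, Bi_mul_Bm d, mul_one, add_zero] at a
  rw [a, eq_sub_of_add_eq' (eq_sub_iff_add_eq.1 (h.Dpw1_al hz v)), h.Dpw1_al_eq hz]
  simp only [map_sub, map_smul, cf_mono, cf_cst]
  congr 1
  norm_num
  module

end DFrame

end Pool.Agent.MP_efb2da_gt
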