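import Pool.Agent.MP_efb2da_gt.Dpw1

open Set Complex
open scoped Topology ComplexConjugate Matrix ContDiff

noncomputable section

namespace Pool.Agent.MP_efb2da_gt

lemma Dpw2_sq {M : MC} (h1 : trC M = 0) (h2 : M.det = 0) : M * M = 0 := by
  rw [trC_apply] at h1
  rw [Matrix.det_fin_two] at h2
  ext i j
  fin_cases i <;> fin_cases j <;> simp [Matrix.mul_apply, Fin.sum_univ_two]
  · linear_combination M 0 0 * h1 - h2
  · linear_combination M 0 1 * h1
  · linear_combination M 1 0 * h1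
  · linear_combination M 1 1 * h1 - h2

lemma Dpw2_tr_comm (M N : MC) : trC (M * N) = trC (N * M) := by
  simp only [trC_apply, Matrix.mul_apply, Fin.sum_univ_two]; ring

lemma Dpw2_alg {R : Type} [Ring R] {B C n x n' B1 C1 : R} (h1 : C * B = 1)
    (h3 : n * n = 0) (h4 : B * C1 + B1 * C = 0) :
    ((B * n * C1 + (B * x + B1 * n) * C + B * n * C) * (B * n * C) -
        (B * n * C) * (B * n * C1 + (B * x + B1 * n) * C + B * n * C) + B * n' * C) * (B * n * C) -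
      (B * n * C) * ((B * n * C1 + (B * x + B1 * n) * C + B * n * C) * (B * n * C) -
        (B * n * C) * (B * n * C1 + (B * x + B1 * n) * C + B * n * C) + B * n' * C) =
      B * ((n' + (x * n - n * x)) * n - n * (n' + (x * n - n * x))) * C := by
  have e : C1 = -(C * B1 * C) := by
    have := congrArg (fun y => C * y) h4
    simp only [mul_add, ← mul_assoc, h1, one_mul, mul_zero] at this
    exact eq_neg_of_add_eq_zero_left this
  have k1 : ∀ y, C * (B * y) = y := fun y => by rw [← mul_assoc, h1, one_mul]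
  have k3 : ∀ y, n * (n * y) = 0 := fun y => by rw [← mul_assoc, h3, zero_mul]
  subst e
  simp only [mul_add, add_mul, mul_sub, sub_mul, mul_neg, neg_mul, mul_assoc, k1, k3, mul_zero,
    zero_mul, neg_zero]
  abel

/-- `vec` as a continuous linear map -/
def Dpw2_vecL : MC →L[ℝ] E3 where
  toFun := vec
  map_add' := vec_add
  map_smul' c M := by
    rw [RingHom.id_apply, ← vec_smul, Complex.coe_smul]
  cont := (contDiff_vec (n := 0)).continuous

lemma Dpw2_vecL_apply (M : MC) : Dpw2_vecL M = vec M := rfl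

section Alg
variable {a : MC} (h1 : trC a = 0) (h2 : a * a = 0)
include h1 h2

omit h1 in
lemma Dpw2_rel : (a 0 0).re ^ 2 - (a 0 0).im ^ 2 + (a 0 1).re * (a 1 0).re -
      (a 0 1).im * (a 1 0).im = 0 ∧
    2 * (a 0 0).re * (a 0 0).im + (a 0 1).re * (a 1 0).im + (a 0 1).im * (a 1 0).re = 0 := by
  have h := congrFun (congrFun h2 0) 0
  simp only [Matrix.mul_apply, Fin.sum_univ_two, Matrix.zero_apply] at h
  have hr := congrArg Complex.re h
  have hi := congrArg Complex.im h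
  simp only [add_re, mul_re, add_im, mul_im, zero_re, zero_im] at hr hi
  constructor
  · linarith
  · linarith

omit h1 in
lemma Dpw2_orth : inner ℝ (vec (-((1:ℂ) • a + conj (1:ℂ) • ct a)))
    (vec (-(I • a + conj I • ct a))) = 0 := by
  obtain ⟨-, e2⟩ := Dpw2_rel h2
  simp [vec, mk3, EuclideanSpace.inner_eq_star_dotProduct, dotProduct, Fin.sum_univ_three]
  linear_combination (-2) * e2

omit h1 in
lemma Dpw2_conf : ‖vec (-((1:ℂ) • a + conj (1:ℂ) • ct a))‖ = ‖vec (-(I • a + conj I • ct a))‖ := by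
  obtain ⟨e1, -⟩ := Dpw2_rel h2
  rw [EuclideanSpace.norm_eq, EuclideanSpace.norm_eq]
  congr 1
  simp only [Real.norm_eq_abs, sq_abs]
  simp [vec, mk3, Fin.sum_univ_three]
  linear_combination 4 * e1

lemma Dpw2_ne (h : vec (-((1:ℂ) • a + conj (1:ℂ) • ct a)) = 0) : a = 0 := by
  obtain ⟨e1, -⟩ := Dpw2_rel h2
  have c0 := congrArg (fun v : E3 => v 0) h
  have c1 := congrArg (fun v : E3 => v 1) h
  have c2 := congrArg (fun v : E3 => v 2) h
  simp [vec, mk3] at c0 c1 c2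
  have d0 : (a 0 1).re = -(a 1 0).re := by linarith
  have d1 : (a 0 1).im = (a 1 0).im := by linarith
  rw [d0, d1, c2] at e1
  have f0 : (a 0 0).im = 0 := by nlinarith [sq_nonneg (a 1 0).re, sq_nonneg (a 1 0).im]
  have f1 : (a 1 0).re = 0 := by nlinarith [sq_nonneg (a 0 0).im, sq_nonneg (a 1 0).im]
  have f2 : (a 1 0).im = 0 := by nlinarith [sq_nonneg (a 0 0).im, sq_nonneg (a 1 0).re]
  have g0 : a 0 0 = 0 := Complex.ext c2 f0
  have g1 : a 1 0 = 0 := Complex.ext f1 f2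
  have g2 : a 0 1 = 0 := Complex.ext (by rw [d0, f1]; simp) (by rw [d1, f2]; simp)
  rw [trC_apply, g0, zero_add] at h1
  ext i j
  fin_cases i <;> fin_cases j <;> simp [g0, g1, g2, h1]

omit h2 in
lemma Dpw2_lap (az : MC) :
    vec (-((1:ℂ) • ((1:ℂ) • az + conj (1:ℂ) • (a * ct a - ct a * a)) +
        conj (1:ℂ) • ct ((1:ℂ) • az + conj (1:ℂ) • (a * ct a - ct a * a)))) +
      vec (-(I • (I • az + conj I • (a * ct a - ct a * a)) +
        conj I • ct (I • az + conj I • (a * ct a - ct a * a)))) =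
      (4:ℝ) • cr (vec (-((1:ℂ) • a + conj (1:ℂ) • ct a))) (vec (-(I • a + conj I • ct a))) := by
  rw [trC_apply] at h1
  have e : a 1 1 = -a 0 0 := by linear_combination h1
  ext i
  fin_cases i <;> simp [vec, mk3, cr, Matrix.mul_apply, Fin.sum_univ_two, e] <;> ring

end Alg

namespace DFrame
variable {O : Set ℂ} {Φ ξ : ℂ → MW} (h : DFrame O Φ ξ) {z : ℂ} (hz : z ∈ O)
include h hz

theorem B0_mul : cf 0 (Bm (Φ z)) * cf 0 (Bi (Φ z)) = 1 ∧ cf 0 (Bi (Φ z)) * cf 0 (Bm (Φ z)) = 1 := by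
  have hd := h.det z hz
  have e1 := (Bm_pos hd).cf_mul (Bi_pos hd)
  have e2 := (Bi_pos hd).cf_mul (Bm_pos hd)
  have e0 : cf (0 + 0) 1 = 1 := by rw [← cst_one, cf_cst]; simp
  rw [Bm_mul_Bi hd, e0] at e1
  rw [Bi_mul_Bm hd, e0] at e2
  exact ⟨e1.symm, e2.symm⟩

theorem Dpw2_n_tr : trC (cf (-1) (ξ z)) = 0 := by
  have := congrArg (W.coef (-1)) (h.tr z hz)
  rw [trW_apply, map_add, map_zero] at this
  exact this

theorem Dpw2_n_sq : cf (-1) (ξ z) * cf (-1) (ξ z) = 0 :=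
  Dpw2_sq (h.Dpw2_n_tr hz) (h.nil z hz)

theorem a_sq : aM Φ ξ z * aM Φ ξ z = 0 := by
  rw [aM, mul_assoc, mul_assoc, ← mul_assoc (cf 0 (Bi (Φ z))), ← mul_assoc (cf 0 (Bi (Φ z))),
    (h.B0_mul hz).2, one_mul, ← mul_assoc (cf (-1) (ξ z)), h.Dpw2_n_sq hz, zero_mul, mul_zero]

theorem a_tr : trC (aM Φ ξ z) = 0 := by
  rw [aM, Dpw2_tr_comm, ← mul_assoc, (h.B0_mul hz).2, one_mul, h.Dpw2_n_tr hz]

theorem fderiv_a : ∃ az : MC, (∀ v : ℂ, fderiv ℝ (aM Φ ξ) z v = v • az +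
      conj v • (aM Φ ξ z * ct (aM Φ ξ z) - ct (aM Φ ξ z) * aM Φ ξ z)) ∧
    az * aM Φ ξ z - aM Φ ξ z * az = cf 0 (Bm (Φ z)) * hopf ξ z * cf 0 (Bi (Φ z)) := by
  have hd := h.det z hz
  have hΦ := h.contDiffAt_frame hz
  have hB : DifferentiableAt ℝ (fun z => cf 0 (Bm (Φ z))) z :=
    ((cf 0).restrictScalars ℝ).differentiableAt.comp z
      (((contDiffAt_Bm hd).comp z hΦ).differentiableAt (by simp))
  have hC : DifferentiableAt ℝ (fun z => cf 0 (Bi (Φ z))) z :=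
    ((cf 0).restrictScalars ℝ).differentiableAt.comp z
      (((contDiffAt_Bi hd).comp z hΦ).differentiableAt (by simp))
  have hξ : HasDerivAt ξ (deriv ξ z) z :=
    (h.hol.differentiableAt (h.opn.mem_nhds hz)).hasDerivAt
  have hn : HasDerivAt (fun z => cf (-1) (ξ z)) (cf (-1) (deriv ξ z)) z :=
    (cf (-1)).hasFDerivAt.comp_hasDerivAt z hξ
  have hn' := hn.hasFDerivAt.restrictScalars ℝ
  obtain ⟨b1, b2⟩ := h.B0_mul hz
  have hBC : (fun z => cf 0 (Bm (Φ z)) * cf 0 (Bi (Φ z))) =ᶠ[𝓝 z] fun _ => 1 :=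
    Filter.eventually_of_mem (h.opn.mem_nhds hz) fun w hw => (h.B0_mul hw).1
  have hdC : ∀ v, fderiv ℝ (fun z => cf 0 (Bi (Φ z))) z v =
      -(cf 0 (Bi (Φ z)) * fderiv ℝ (fun z => cf 0 (Bm (Φ z))) z v * cf 0 (Bi (Φ z))) := by
    intro v
    have e1 := (hB.hasFDerivAt.fun_mul' hC.hasFDerivAt).fderiv
    rw [hBC.fderiv_eq, fderiv_fun_const] at e1
    have e2 := congrArg (fun L : ℂ →L[ℝ] MC => cf 0 (Bi (Φ z)) * L v) e1
    simp only [Pi.zero_apply, zero_apply, mul_zero,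
      add_apply, smul_apply, smul_eq_mul,
      MulOpposite.smul_eq_mul_unop, MulOpposite.unop_op, mul_add, ← mul_assoc, b2, one_mul] at e2
    exact eq_neg_of_add_eq_zero_left e2.symm
  refine ⟨(cf 0 (Bm (Φ z) * ξ z * Bi (Φ z)) + aM Φ ξ z) * aM Φ ξ z -
    aM Φ ξ z * (cf 0 (Bm (Φ z) * ξ z * Bi (Φ z)) + aM Φ ξ z) +
    cf 0 (Bm (Φ z)) * cf (-1) (deriv ξ z) * cf 0 (Bi (Φ z)), fun v => ?_, ?_⟩
  · have e1 := ((hB.hasFDerivAt.fun_mul' hn').fun_mul' hC.hasFDerivAt).fderiv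
    have e2 : fderiv ℝ (aM Φ ξ) z = _ := e1
    rw [e2]
    simp only [add_apply, smul_apply, smul_eq_mul,
      MulOpposite.smul_eq_mul_unop, MulOpposite.unop_op, hdC, h.fderiv_B0 hz,
      ContinuousLinearMap.coe_restrictScalars', ContinuousLinearMap.toSpanSingleton_apply]
    have k1 : ∀ y, cf 0 (Bm (Φ z)) * (cf 0 (Bi (Φ z)) * y) = y := fun y => by
      rw [← mul_assoc, b1, one_mul]
    simp only [aM, mul_add, add_mul, mul_sub, sub_mul, mul_neg, mul_assoc, b1, mul_one,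
      smul_add, smul_sub, smul_mul_assoc, mul_smul_comm]
    abel
  · have e1 := ((Bm_pos hd).mul (h.ge z hz)).cf_mul_succ (Bi_pos hd)
    have e2 := (Bm_pos hd).cf_mul (h.ge z hz)
    have e3 := (Bm_pos hd).cf_mul_succ (h.ge z hz)
    have e4 := (Bm_pos hd).cf_mul_succ (Bi_pos hd)
    have e0 : cf (0 + 0 + 1) 1 = 0 := by rw [← cst_one, cf_cst]; simp
    rw [Bm_mul_Bi hd, e0] at e4
    rw [e2, e3] at e1
    simp only [zero_add, add_zero, neg_add_cancel] at e1 e4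
    rw [e1, aM, hopf]
    exact Dpw2_alg b2 (h.Dpw2_n_sq hz) e4.symm

theorem Dpw2_d1 (v : ℂ) : fderiv ℝ (fun z => vec (symM (Φ z))) z v =
    vec (-(v • aM Φ ξ z + conj v • ct (aM Φ ξ z))) := by
  have e := (Dpw2_vecL.hasFDerivAt.comp z
    ((h.contDiffAt_sym hz).differentiableAt (by simp)).hasFDerivAt).fderiv
  have e' : fderiv ℝ (fun z => vec (symM (Φ z))) z = _ := e
  rw [e', ContinuousLinearMap.comp_apply, h.fderiv_sym hz, Dpw2_vecL_apply]

theorem Dpw2_d2 (u v : ℂ) :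
    fderiv ℝ (fun w => fderiv ℝ (fun z => vec (symM (Φ z))) w u) z v =
      vec (-(u • fderiv ℝ (aM Φ ξ) z v + conj u • ct (fderiv ℝ (aM Φ ξ) z v))) := by
  have he : (fun w => fderiv ℝ (fun z => vec (symM (Φ z))) w u) =ᶠ[𝓝 z]
      fun w => Dpw2_vecL (-(u • aM Φ ξ w + conj u • ct (aM Φ ξ w))) :=
    Filter.eventually_of_mem (h.opn.mem_nhds hz) fun w hw => h.Dpw2_d1 hw u
  have ha := ((h.contDiffAt_a hz).differentiableAt (by simp)).hasFDerivAt
  have e := (Dpw2_vecL.hasFDerivAt.comp z ((ha.const_smul u).add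
    ((ct.hasFDerivAt.comp z ha).const_smul (conj u))).neg).fderiv
  have e' : fderiv ℝ (fun w => Dpw2_vecL (-(u • aM Φ ξ w + conj u • ct (aM Φ ξ w)))) z = _ := e
  rw [he.fderiv_eq, e']
  rfl

theorem cmcAt (hne : cf (-1) (ξ z) ≠ 0) : CMCAt (fun z => vec (symM (Φ z))) z := by
  obtain ⟨az, haz, -⟩ := h.fderiv_a hz
  refine ⟨contDiff_vec.contDiffAt.comp z (h.contDiffAt_sym hz), ?_, ?_, ?_, ?_⟩
  · rw [dx, dy, h.Dpw2_d1 hz, h.Dpw2_d1 hz]
    exact Dpw2_orth (h.a_sq hz)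
  · rw [dx, dy, h.Dpw2_d1 hz, h.Dpw2_d1 hz]
    exact Dpw2_conf (h.a_sq hz)
  · rw [dx, h.Dpw2_d1 hz]
    intro h0
    have ha := Dpw2_ne (h.a_tr hz) (h.a_sq hz) h0
    apply hne
    obtain ⟨-, b2⟩ := h.B0_mul hz
    have e : cf 0 (Bi (Φ z)) * aM Φ ξ z * cf 0 (Bm (Φ z)) = cf (-1) (ξ z) := by
      rw [aM, ← mul_assoc, ← mul_assoc, b2, one_mul, mul_assoc, b2, mul_one]
    rw [← e, ha, mul_zero, zero_mul]
  · have e1 : dx (dx fun z => vec (symM (Φ z))) z = _ := h.Dpw2_d2 hz 1 1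
    have e2 : dy (dy fun z => vec (symM (Φ z))) z = _ := h.Dpw2_d2 hz I I
    rw [e1, e2, dx, dy, h.Dpw2_d1 hz, h.Dpw2_d1 hz, haz, haz]
    exact Dpw2_lap (h.a_tr hz) az

end DFrame

end Pool.Agent.MP_efb2da_gt
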