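import Pool.Agent.MP_efb2da_gt.Iw2

open Set Complex
open scoped Topology ComplexConjugate Matrix ContDiff

noncomputable section

namespace Pool.Agent.MP_efb2da_gt

def Dm (θ : ℝ) : MC := !![exp (-(θ * I)), 0; 0, exp (θ * I)]

/-- unitary loops inducing the rotation by `2π t l` about the vertical axis through `(x,0,0)` -/
structure Cl (x t : ℝ) (l : ℤ) (R : MW) : Prop where
  unit : st R * R = 1
  det : R.det = 1
  j0 : J0 R = Dm (Real.pi * t * l)
  j1 : J1 R = (x : ℂ) • (s1 * J0 R - J0 R * s1)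

/-- flux of a monodromy -/
def phi (x : ℝ) (R : MW) : ℂ := trC (s3 * (J2 R - (2 * x : ℂ) • (s1 * J1 R)) * adjC (J0 R))
/-- potential of the flux form -/
def flx (x : ℝ) (Φ : MW) : ℂ := trC (s3 * (J2 (Uf Φ) - (2 * x : ℂ) • (s1 * symM Φ)))
/-- position relative to the axis -/
def pt (x : ℝ) (Φ : MW) : E3 := vec (symM Φ) - mk3 x 0
def Sof (t : ℝ) (R : MW) : MW := (4 * Real.pi * I * t : ℂ)⁻¹ • (R - adj R)

variable {x t : ℝ}

lemma Jet_de (θ : ℝ) : exp (θ * I) * exp (-(θ * I)) = 1 := by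
  rw [← Complex.exp_add]; simp

lemma Jet_Dm_zero : Dm 0 = 1 := by
  ext i j; fin_cases i <;> fin_cases j <;> simp [Dm]

lemma Jet_Dm_add (a b : ℝ) : Dm (a + b) = Dm a * Dm b := by
  ext i j; fin_cases i <;> fin_cases j <;>
    simp [Dm, Matrix.mul_apply, Fin.sum_univ_two, ← Complex.exp_add] <;> ring_nf

lemma Jet_adjC_Dm (a : ℝ) : adjC (Dm a) = Dm (-a) := by
  rw [adjC_apply]
  ext i j; fin_cases i <;> fin_cases j <;> simp [Dm]

lemma Jet_cjC_Dm (a : ℝ) : cjC (Dm a) = Dm (-a) := by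
  ext i j; fin_cases i <;> fin_cases j <;> simp [Dm, ← Complex.exp_conj]

lemma Jet_comm_Dm (y : ℂ) (θ : ℝ) : y • (s1 * Dm θ - Dm θ * s1) =
    !![0, y * (exp (θ * I) - exp (-(θ * I))); y * (exp (-(θ * I)) - exp (θ * I)), 0] := by
  ext i j; fin_cases i <;> fin_cases j <;> simp [Dm, s1, Matrix.mul_apply]

lemma Jet_s3_conj (θ : ℝ) (X : MC) : trC (s3 * (Dm θ * X) * adjC (Dm θ)) = trC (s3 * X) := by
  have h := Jet_de θ
  simp only [trC_apply, Matrix.mul_apply, Fin.sum_univ_two]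
  simp [adjC_apply, Dm, s3]
  linear_combination (X 0 0 - X 1 1) * h

lemma Cl.Jet_st {l : ℤ} {R : MW} (hR : Cl x t l R) : st R = adj R := by
  rw [← mul_one (st R), ← mul_adj_of_det hR.det, ← mul_assoc, hR.unit, one_mul]

lemma Cl.Jet_det0 {l : ℤ} {R : MW} (hR : Cl x t l R) : (J0 R).det = 1 := by
  rw [det_J0, hR.det, W.j0_one]

lemma Cl.Jet_e0 {l : ℤ} {R : MW} (hR : Cl x t l R) :
    W.j0 (R 0 0) = exp (-(((Real.pi * t * l : ℝ) : ℂ) * I)) ∧ W.j0 (R 0 1) = 0 ∧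
      W.j0 (R 1 0) = 0 ∧ W.j0 (R 1 1) = exp (((Real.pi * t * l : ℝ) : ℂ) * I) := by
  have h := hR.j0
  exact ⟨congrFun (congrFun h 0) 0, congrFun (congrFun h 0) 1, congrFun (congrFun h 1) 0,
    congrFun (congrFun h 1) 1⟩

lemma Cl.Jet_e1 {l : ℤ} {R : MW} (hR : Cl x t l R) :
    W.j1 (R 0 0) = 0 ∧ W.j1 (R 0 1) = x * (exp (((Real.pi * t * l : ℝ) : ℂ) * I) -
        exp (-(((Real.pi * t * l : ℝ) : ℂ) * I))) ∧
      W.j1 (R 1 0) = x * (exp (-(((Real.pi * t * l : ℝ) : ℂ) * I)) -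
        exp (((Real.pi * t * l : ℝ) : ℂ) * I)) ∧ W.j1 (R 1 1) = 0 := by
  have h := hR.j1
  rw [hR.j0, Jet_comm_Dm] at h
  exact ⟨congrFun (congrFun h 0) 0, congrFun (congrFun h 0) 1, congrFun (congrFun h 1) 0,
    congrFun (congrFun h 1) 1⟩

theorem Cl.one : Cl x t 0 1 where
  unit := by simp
  det := Matrix.det_one
  j0 := by simp [Jet_Dm_zero]
  j1 := by simp

theorem Cl.mul {l m : ℤ} {R S : MW} (hR : Cl x t l R) (hS : Cl x t m S) : Cl x t (l + m) (R * S) where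
  unit := by
    rw [st_mul, mul_assoc, ← mul_assoc (st R), hR.unit, one_mul, hS.unit]
  det := by rw [Matrix.det_mul, hR.det, hS.det, one_mul]
  j0 := by
    rw [J0_mul, hR.j0, hS.j0, ← Jet_Dm_add]
    congr 1
    push_cast
    ring
  j1 := by
    rw [J1_mul, J0_mul, hR.j1, hS.j1]
    simp only [smul_mul_assoc, mul_smul_comm, ← smul_add]
    congr 1
    noncomm_ring

theorem Cl.adj {l : ℤ} {R : MW} (hR : Cl x t l R) : Cl x t (-l) (adj R) where
  unit := by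
    rw [← hR.Jet_st, st_st, hR.Jet_st, mul_adj_of_det hR.det]
  det := by rw [det_adj, hR.det]
  j0 := by
    rw [J0_adj, hR.j0, Jet_adjC_Dm]
    congr 1
    push_cast
    ring
  j1 := by
    rw [J1_adj, J0_adj, hR.j1, hR.j0, Jet_adjC_Dm, Jet_comm_Dm, Jet_comm_Dm, adjC_apply]
    ext i j; fin_cases i <;> fin_cases j <;> simp <;> ring

theorem Cl.sharp {l : ℤ} {R : MW} (hR : Cl x t l R) : Cl x t (-l) (sharp R) where
  unit := by rw [st_sharp, ← sharp_mul, hR.unit, sharp_one]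
  det := by rw [det_sharp, hR.det, W.cj_one]
  j0 := by
    rw [J0_sharp, hR.j0, Jet_cjC_Dm]
    congr 1
    push_cast
    ring
  j1 := by
    have hs : cjC s1 = s1 := by
      ext i j; fin_cases i <;> fin_cases j <;> simp [s1]
    have hx : (x : ℂ) • (s1 * J0 R - J0 R * s1) = x • (s1 * J0 R - J0 R * s1) := rfl
    rw [J1_sharp, J0_sharp, hR.j1, hx, map_smul, map_sub, cjC_mul, cjC_mul, hs]
    rfl

theorem phi_one : phi x 1 = 0 := by simp [phi]

theorem Cl.phi_mul {l m : ℤ} {R S : MW} (hR : Cl x t l R) (hS : Cl x t m S) :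
    phi x (R * S) = phi x R + phi x S := by
  have h1 : J0 S * adjC (J0 S) = 1 := mul_adjC_of_det hS.Jet_det0
  have h2 : s3 * (J2 (R * S) - (2 * x : ℂ) • (s1 * J1 (R * S))) * adjC (J0 (R * S)) =
      s3 * (J2 R - (2 * x : ℂ) • (s1 * J1 R)) * (J0 S * adjC (J0 S)) * adjC (J0 R) +
      s3 * (J0 R * ((J2 S - (2 * x : ℂ) • (s1 * J1 S)) * adjC (J0 S))) * adjC (J0 R) := by
    rw [J2_mul, J1_mul, J0_mul, adjC_mul]
    conv_lhs => rw [show J1 R * J1 S = (x : ℂ) • ((s1 * J0 R - J0 R * s1) * J1 S) by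
      rw [hR.j1, smul_mul_assoc]]
    simp only [mul_add, add_mul, mul_sub, sub_mul, smul_add, smul_sub, smul_mul_assoc,
      mul_smul_comm, mul_assoc, smul_smul]
    abel
  unfold phi
  rw [h2, h1, mul_one, map_add]
  congr 1
  rw [hR.j0, Jet_s3_conj, mul_assoc]

theorem Cl.phi_adj {l : ℤ} {R : MW} (hR : Cl x t l R) : phi x (Pool.Agent.MP_efb2da_gt.adj R) = -phi x R := by
  have h := hR.phi_mul hR.adj
  rw [mul_adj_of_det hR.det, phi_one] at h
  linear_combination -h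

theorem Cl.j1_tr {l : ℤ} {R : MW} (hR : Cl x t l R) : W.j1 (trW R) = 0 := by
  obtain ⟨h1, -, -, h2⟩ := hR.Jet_e1
  rw [trW_apply, map_add, h1, h2, add_zero]

theorem Cl.j0_tr {l : ℤ} {R : MW} (hR : Cl x t l R) :
    W.j0 (trW R) = 2 * Real.cos (Real.pi * t * l) := by
  obtain ⟨h1, -, -, h2⟩ := hR.Jet_e0
  rw [trW_apply, map_add, h1, h2, Complex.ofReal_cos, Complex.cos, neg_mul]
  ring

theorem Cl.j2_tr {l : ℤ} {R : MW} (hR : Cl x t l R) :
    W.j2 (trW R) = -(I * Real.sin (Real.pi * t * l)) * phi x R := by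
  obtain ⟨a1, a2, a3, a4⟩ := hR.Jet_e0
  obtain ⟨b1, b2, b3, b4⟩ := hR.Jet_e1
  have hd := congrArg W.j2 hR.det
  rw [Matrix.det_fin_two, map_sub, W.j2_mul, W.j2_mul, W.j2_one, a1, a2, a3, a4, b1, b2, b3,
    b4] at hd
  have hde := Jet_de (Real.pi * t * l)
  have hs : I * (Real.sin (Real.pi * t * l) : ℂ) = (exp (((Real.pi * t * l : ℝ) : ℂ) * I) -
      exp (-(((Real.pi * t * l : ℝ) : ℂ) * I))) / 2 := by
    rw [Complex.ofReal_sin, Complex.sin, neg_mul]
    linear_combination (exp (-(((Real.pi * t * l : ℝ) : ℂ) * I)) -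
      exp (((Real.pi * t * l : ℝ) : ℂ) * I)) / 2 * I_mul_I
  have hp : phi x R = (W.j2 (R 0 0) - 2 * x * W.j1 (R 1 0)) * W.j0 (R 1 1) -
      (W.j2 (R 1 1) - 2 * x * W.j1 (R 0 1)) * W.j0 (R 0 0) := by
    simp [phi, trC_apply, adjC_apply, s1, s3, Matrix.mul_apply, Fin.sum_univ_two, Matrix.vecMul,
      dotProduct, a2, a3]
    ring
  rw [hs, hp, trW_apply, map_add, a1, a4, b2, b3]
  generalize exp (((Real.pi * t * l : ℝ) : ℂ) * I) = d at *
  generalize exp (-(((Real.pi * t * l : ℝ) : ℂ) * I)) = e at *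
  linear_combination ((d + e) / 2) * hd - (W.j2 (R 0 0) + W.j2 (R 1 1)) * hde

lemma Cl.Jet_sym {l : ℤ} {R Φ g : MW} (hR : Cl x t l R) (h : Φ.det = 1) (hg : MGE 0 g)
    (hdg : g.det = 1) : symM (R * Φ * g) = (J1 R + J0 R * symM Φ) * adjC (J0 R) := by
  unfold symM
  rw [(iw_gauge h hR.unit hR.det hg hdg).1, J1_mul, J1_mul, J0_Uf h, J0_cst, J1_cst, mul_zero,
    add_zero, mul_one]

theorem Cl.pt_mul {l : ℤ} {R Φ g : MW} (hR : Cl x t l R) (h : Φ.det = 1) (hg : MGE 0 g)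
    (hdg : g.det = 1) : pt x (R * Φ * g) = Rot (exp (2 * Real.pi * I * t * l)) (pt x Φ) := by
  have hv : mk3 x 0 = vec ((x : ℂ) • s1) := by simp [vec, s1]
  have hde := Jet_de (Real.pi * t * l)
  have he : exp (2 * Real.pi * I * t * l) = conj (exp (-(((Real.pi * t * l : ℝ) : ℂ) * I)) *
      exp (-(((Real.pi * t * l : ℝ) : ℂ) * I))) := by
    rw [← Complex.exp_add, ← Complex.exp_conj]
    congr 1
    simp
    ring
  unfold pt
  rw [hR.Jet_sym h hg hdg, hv, ← vec_sub, ← vec_sub, hR.j1, hR.j0, Jet_comm_Dm, he]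
  generalize symM Φ = f
  have e1 : ((!![0, x * (exp (((Real.pi * t * l : ℝ) : ℂ) * I) -
      exp (-(((Real.pi * t * l : ℝ) : ℂ) * I))); x * (exp (-(((Real.pi * t * l : ℝ) : ℂ) * I)) -
      exp (((Real.pi * t * l : ℝ) : ℂ) * I)), 0] + Dm (Real.pi * t * l) * f) *
      adjC (Dm (Real.pi * t * l)) - (x : ℂ) • s1) 0 1 = exp (-(((Real.pi * t * l : ℝ) : ℂ) * I)) *
      exp (-(((Real.pi * t * l : ℝ) : ℂ) * I)) * (f - (x : ℂ) • s1) 0 1 := by
    generalize Real.pi * t * l = θ at *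
    simp only [Matrix.sub_apply, Matrix.add_apply, Matrix.mul_apply, Fin.sum_univ_two]
    simp [adjC_apply, Dm, s1]
    linear_combination x * hde
  have e2 : ((!![0, x * (exp (((Real.pi * t * l : ℝ) : ℂ) * I) -
      exp (-(((Real.pi * t * l : ℝ) : ℂ) * I))); x * (exp (-(((Real.pi * t * l : ℝ) : ℂ) * I)) -
      exp (((Real.pi * t * l : ℝ) : ℂ) * I)), 0] + Dm (Real.pi * t * l) * f) *
      adjC (Dm (Real.pi * t * l)) - (x : ℂ) • s1) 0 0 = (f - (x : ℂ) • s1) 0 0 := by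
    generalize Real.pi * t * l = θ at *
    simp only [Matrix.sub_apply, Matrix.add_apply, Matrix.mul_apply, Fin.sum_univ_two]
    simp [adjC_apply, Dm, s1]
    linear_combination f 0 0 * hde
  unfold vec
  rw [e1, e2]
  refine E3_ext ?_ ?_
  · simp only [hz_mk3, hz_Rot, map_mul]
  · simp only [mk3_two, Rot_two]

theorem Cl.flx_mul {l : ℤ} {R Φ : MW} (hR : Cl x t l R) (h : Φ.det = 1) :
    flx x (R * Φ) = flx x Φ + phi x R := by
  have h1 := hR.Jet_sym h MGE_one Matrix.det_one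
  have h2 := (iw_gauge h hR.unit hR.det MGE_one Matrix.det_one).1
  rw [mul_one] at h1 h2
  have h3 : s3 * (J2 (Uf (R * Φ)) - (2 * x : ℂ) • (s1 * symM (R * Φ))) =
      s3 * (J0 R * (J2 (Uf Φ) - (2 * x : ℂ) • (s1 * symM Φ))) * adjC (J0 R) +
      s3 * (J2 R - (2 * x : ℂ) • (s1 * J1 R)) * adjC (J0 R) := by
    rw [h1, h2, J2_mul, J2_mul, J0_Uf h, J0_cst, J1_cst, J2_cst]
    conv_lhs => rw [show J1 R * J1 (Uf Φ) = (x : ℂ) • ((s1 * J0 R - J0 R * s1) * symM Φ) by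
      rw [hR.j1, smul_mul_assoc]; rfl]
    simp only [mul_add, add_mul, mul_sub, sub_mul, smul_add, smul_sub, smul_mul_assoc,
      mul_smul_comm, mul_assoc, smul_smul, mul_zero, smul_zero, add_zero, mul_one]
    abel
  unfold flx phi
  rw [h3, map_add]
  congr 1
  rw [hR.j0, Jet_s3_conj]

theorem pt_sharp {Φ : MW} (h : Φ.det = 1) : pt x (sharp Φ) = Refl (pt x Φ) := by
  have hv : mk3 x 0 = vec ((x : ℂ) • s1) := by simp [vec, s1]
  have hs : cjC ((x : ℂ) • s1) = (x : ℂ) • s1 := by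
    ext i j; fin_cases i <;> fin_cases j <;> simp [s1]
  unfold pt
  rw [symM_sharp h, hv, ← vec_sub, ← vec_sub, ← vec_cjC, map_sub, hs]

lemma Jet_c_ne (ht : t ≠ 0) : (4 * Real.pi * I * t : ℂ) ≠ 0 := by
  have h1 : (Real.pi : ℂ) ≠ 0 := by exact_mod_cast Real.pi_ne_zero
  have h2 : (t : ℂ) ≠ 0 := by exact_mod_cast ht
  simp [h1, h2]

lemma Jet_smul_S (ht : t ≠ 0) (R : MW) : (4 * Real.pi * I * t : ℂ) • Sof t R = R - adj R := by
  rw [Sof, smul_smul, mul_inv_cancel₀ (Jet_c_ne ht), one_smul]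

lemma Jet_norm_tr {R : MW} (hn : ‖R - 1‖ ≤ 1/4) : ‖trW R - 2‖ ≤ 1/2 := by
  have h0 := (norm_entry_le (R - 1) 0 0).trans hn
  have h1 := (norm_entry_le (R - 1) 1 1).trans hn
  have e : trW R - 2 = (R - 1) 0 0 + (R - 1) 1 1 := by
    simp [trW_apply]
    ring
  rw [e]
  exact (norm_add_le _ _).trans (by linarith)

lemma Jet_two_cancel {a b : W} (h : 2 * a = 2 * b) : a = b := by
  have h2 : (2 : ℂ) • a = (2 : ℂ) • b := by
    rw [two_smul, two_smul, ← two_mul, ← two_mul, h]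
  exact smul_right_injective W (two_ne_zero (α := ℂ)) h2

theorem unitary_of_S {R : MW} (ht : t ≠ 0) (hd : R.det = 1) (hs : sharp R = adj R)
    (hn : ‖R - 1‖ ≤ 1/4) (hf : flat (Sof t R) = Sof t R) :
    st R * R = 1 ∧ W.rev (trW R) = trW R := by
  have hA : flat (R - adj R) = R - adj R := by
    rw [← Jet_smul_S ht, map_smul, hf]
  have h00 : W.rev (R 0 0) - W.rev (R 1 1) = R 0 0 - R 1 1 := by
    simpa [adj_apply] using congrFun (congrFun hA 0) 0
  have h01 : W.rev (R 1 0) = R 0 1 := by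
    have := congrFun (congrFun hA 0) 1
    simp only [flat_apply, Matrix.sub_apply, adj_apply, map_sub] at this
    refine Jet_two_cancel ?_
    simp at this
    linear_combination this
  have h10 : W.rev (R 0 1) = R 1 0 := by rw [← h01, W.rev_rev]
  rw [Matrix.det_fin_two] at hd
  have hd' := congrArg W.rev hd
  rw [map_sub, W.rev_mul, W.rev_mul, W.rev_one, h01, h10] at hd'
  have hsq : (W.rev (trW R) - trW R) * (W.rev (trW R) + trW R) = 0 := by
    rw [trW_apply, map_add]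
    linear_combination 4 * hd' - 4 * hd + (W.rev (R 0 0) - W.rev (R 1 1) + R 0 0 - R 1 1) * h00
  have hu : IsUnit (W.rev (trW R) + trW R) := by
    have h1 := Jet_norm_tr hn
    have h2 : ‖W.rev (trW R) - 2‖ ≤ 1/2 := by
      have e : W.rev (trW R) - 2 = W.rev (trW R - 2) := by
        rw [map_sub, ← one_add_one_eq_two (R := W), map_add, W.rev_one]
      rw [e, W.norm_rev]
      exact h1
    have h3 : ‖(-(1/4 : ℂ)) • ((W.rev (trW R) - 2) + (trW R - 2))‖ < 1 := by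
      rw [norm_smul]
      have := norm_add_le (W.rev (trW R) - 2) (trW R - 2)
      have e : ‖(-(1/4 : ℂ))‖ = 1/4 := by simp
      rw [e]
      linarith
    have h4 := isUnit_one_sub_of_norm_lt_one h3
    have h5 : W.rev (trW R) + trW R =
        (4 : ℂ) • (1 - (-(1/4 : ℂ)) • ((W.rev (trW R) - 2) + (trW R - 2))) := by
      have e : (2 : W) = (2 : ℂ) • (1 : W) := by rw [two_smul, one_add_one_eq_two]
      rw [e]
      module
    rw [h5, Algebra.smul_def]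
    exact ((IsUnit.mk0 (4 : ℂ) (by norm_num)).map (algebraMap ℂ W)).mul h4
  have hτ : W.rev (trW R) = trW R := sub_eq_zero.1 (hu.mul_left_eq_zero.1 hsq)
  refine ⟨?_, hτ⟩
  rw [trW_apply, map_add] at hτ
  have hfl : flat R = R := by
    ext i j
    fin_cases i <;> fin_cases j
    · refine Jet_two_cancel ?_
      simp only [flat_apply, Fin.zero_eta]
      linear_combination hτ + h00
    · simpa using h01
    · simpa using h10
    · refine Jet_two_cancel ?_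
      simp only [flat_apply, Fin.mk_one]
      linear_combination hτ - h00
  rw [st_eq, hs, flat_adj, hfl, adj_mul_of_det (by rw [Matrix.det_fin_two]; exact hd)]

lemma Jet_j1_tr {R : MW} (h : W.rev (trW R) = trW R) : W.j1 (R 0 0) + W.j1 (R 1 1) = 0 := by
  have h1 := congrArg W.j1 h
  rw [W.j1_rev, trW_apply, map_add] at h1
  linear_combination (-1/2 : ℂ) * h1

lemma Jet_j0_tr {R : MW} (hn : ‖R - 1‖ ≤ 1/4) {c : ℝ} (hc : 0 ≤ c)
    (h : (W.j0 (R 0 0) + W.j0 (R 1 1)) ^ 2 = (2 * c) ^ 2) : W.j0 (R 0 0) + W.j0 (R 1 1) = 2 * c := by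
  rcases sq_eq_sq_iff_eq_or_eq_neg.1 h with h1 | h1
  · exact h1
  · exfalso
    have h2 := (W.norm_j0_le _).trans (Jet_norm_tr hn)
    rw [map_sub, trW_apply, map_add, h1, ← one_add_one_eq_two (R := W), map_add, W.j0_one] at h2
    have e : -(2 * (c : ℂ)) - (1 + 1) = ((-(2 * c + 2) : ℝ) : ℂ) := by push_cast; ring
    rw [e, Complex.norm_real, Real.norm_eq_abs, abs_neg, abs_of_nonneg (by linarith)] at h2
    linarith

lemma Jet_entries (f : W →L[ℂ] ℂ) {R : MW} {M : MC} (h : mapL f (R - adj R) = M) :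
    f (R 0 0) - f (R 1 1) = M 0 0 ∧ 2 * f (R 0 1) = M 0 1 ∧ 2 * f (R 1 0) = M 1 0 := by
  subst h
  simp [adj_apply, two_mul]

theorem Cl_zero_of_S {R : MW} (ht : t ≠ 0) (hd : R.det = 1) (hs : sharp R = adj R)
    (hn : ‖R - 1‖ ≤ 1/4) (hf : flat (Sof t R) = Sof t R) (h0 : J0 (Sof t R) = 0)
    (h1 : J1 (Sof t R) = 0) : Cl x t 0 R := by
  obtain ⟨hu, hτ⟩ := unitary_of_S ht hd hs hn hf
  have g0 : J0 (R - adj R) = 0 := by rw [← Jet_smul_S ht, map_smul, h0, smul_zero]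
  have g1 : J1 (R - adj R) = 0 := by rw [← Jet_smul_S ht, map_smul, h1, smul_zero]
  obtain ⟨a1, a2, a3⟩ := Jet_entries W.j0 g0
  obtain ⟨b1, b2, b3⟩ := Jet_entries W.j1 g1
  simp only [Matrix.zero_apply] at a1 a2 a3 b1 b2 b3
  have hd0 := congrArg W.j0 hd
  rw [Matrix.det_fin_two, map_sub, W.j0_mul, W.j0_mul, W.j0_one] at hd0
  have ht0 := Jet_j0_tr hn zero_le_one (by
    push_cast
    linear_combination 4 * hd0 + (W.j0 (R 0 0) - W.j0 (R 1 1)) * a1 + 2 * W.j0 (R 1 0) * a2)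
  have ht1 := Jet_j1_tr hτ
  push_cast at ht0
  have e0 : J0 R = 1 := by
    ext i j
    fin_cases i <;> fin_cases j <;> simp
    · linear_combination (1/2 : ℂ) * ht0 + (1/2 : ℂ) * a1
    · linear_combination (1/2 : ℂ) * a2
    · linear_combination (1/2 : ℂ) * a3
    · linear_combination (1/2 : ℂ) * ht0 - (1/2 : ℂ) * a1
  have e1 : J1 R = 0 := by
    ext i j
    fin_cases i <;> fin_cases j <;> simp
    · linear_combination (1/2 : ℂ) * ht1 + (1/2 : ℂ) * b1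
    · linear_combination (1/2 : ℂ) * b2
    · linear_combination (1/2 : ℂ) * b3
    · linear_combination (1/2 : ℂ) * ht1 - (1/2 : ℂ) * b1
  exact ⟨hu, hd, by simp [e0, Jet_Dm_zero], by simp [e0, e1]⟩

theorem Cl_one_of_S {R : MW} {β : ℝ} (ht : 0 < t) (ht' : t < 1/2) (hd : R.det = 1)
    (hs : sharp R = adj R) (hn : ‖R - 1‖ ≤ 1/4) (hf : flat (Sof t R) = Sof t R)
    (h0 : J0 (Sof t R) = (-(Real.sin (Real.pi * t) / (2 * Real.pi * t)) : ℝ) • s3)
    (h1 : J1 (Sof t R) = (β : ℂ) • sJ) (hx : x * Real.sin (Real.pi * t) = -(Real.pi * t * β)) :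
    Cl x t 1 R ∧ (W.j2 (Sof t R).det = 0 → phi x R = 0) := by
  obtain ⟨hu, hτ⟩ := unitary_of_S ht.ne' hd hs hn hf
  have hpi := Real.pi_pos
  have hcos : 0 < Real.cos (Real.pi * t) :=
    Real.cos_pos_of_mem_Ioo ⟨by nlinarith, by nlinarith⟩
  have hsin : 0 < Real.sin (Real.pi * t) :=
    Real.sin_pos_of_pos_of_lt_pi (by positivity) (by nlinarith)
  have hpi' : (Real.pi : ℂ) ≠ 0 := by exact_mod_cast hpi.ne'
  have ht0 : (t : ℂ) ≠ 0 := by exact_mod_cast ht.ne'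
  set s : ℝ := Real.sin (Real.pi * t) with hsdef
  set c : ℝ := Real.cos (Real.pi * t) with hcdef
  have hsc : (s : ℂ) ^ 2 + (c : ℂ) ^ 2 = 1 := by exact_mod_cast Real.sin_sq_add_cos_sq (Real.pi * t)
  have hxc : (x : ℂ) * s = -(Real.pi * t * β) := by exact_mod_cast hx
  have g0 : J0 (R - adj R) = (-2 * I * s : ℂ) • s3 := by
    rw [← Jet_smul_S ht.ne', map_smul, h0, ← Complex.coe_smul, smul_smul]
    congr 1
    push_cast
    field_simp
    ring
  have g1 : J1 (R - adj R) = (4 * Real.pi * I * t * β : ℂ) • sJ := by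
    rw [← Jet_smul_S ht.ne', map_smul, h1, smul_smul]
  obtain ⟨a1, a2, a3⟩ := Jet_entries W.j0 g0
  obtain ⟨b1, b2, b3⟩ := Jet_entries W.j1 g1
  simp [s3, sJ] at a1 a2 a3 b1 b2 b3
  have hd0 := congrArg W.j0 hd
  rw [Matrix.det_fin_two, map_sub, W.j0_mul, W.j0_mul, W.j0_one, a2, a3] at hd0
  have hI := I_mul_I
  have ht0 := Jet_j0_tr hn hcos.le (by
    linear_combination 4 * hd0 + (W.j0 (R 0 0) - W.j0 (R 1 1) - 2 * I * s) * a1 - 4 * hsc +
      4 * (s : ℂ) ^ 2 * hI)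
  have ht1 := Jet_j1_tr hτ
  have hθ : Real.pi * t * ((1 : ℤ) : ℝ) = Real.pi * t := by simp
  have hd1 : exp (((Real.pi * t : ℝ) : ℂ) * I) = c + s * I := by
    rw [Complex.exp_mul_I, hcdef, hsdef, Complex.ofReal_cos, Complex.ofReal_sin]
  have hd2 : exp (-(((Real.pi * t : ℝ) : ℂ) * I)) = c - s * I := by
    rw [← neg_mul, Complex.exp_mul_I, Complex.cos_neg, Complex.sin_neg, hcdef, hsdef,
      Complex.ofReal_cos, Complex.ofReal_sin]
    ring
  have e0 : J0 R = Dm (Real.pi * t) := by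
    rw [Dm, hd1, hd2]
    ext i j
    fin_cases i <;> fin_cases j <;> simp [a2, a3]
    · linear_combination (1/2 : ℂ) * ht0 + (1/2 : ℂ) * a1
    · linear_combination (1/2 : ℂ) * ht0 - (1/2 : ℂ) * a1
  have e1 : J1 R = (x : ℂ) • (s1 * J0 R - J0 R * s1) := by
    rw [e0, Jet_comm_Dm, hd1, hd2]
    ext i j
    fin_cases i <;> fin_cases j <;> simp
    · linear_combination (1/2 : ℂ) * ht1 + (1/2 : ℂ) * b1
    · linear_combination (1/2 : ℂ) * b2 - 2 * I * hxc
    · linear_combination (1/2 : ℂ) * b3 + 2 * I * hxc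
    · linear_combination (1/2 : ℂ) * ht1 - (1/2 : ℂ) * b1
  have hC : Cl x t 1 R := ⟨hu, hd, by rw [hθ]; exact e0, e1⟩
  refine ⟨hC, fun h2 => ?_⟩
  have hdet : trW R * trW R = 4 - (4 * Real.pi * I * t : ℂ) ^ 2 • (Sof t R).det := by
    have e : (4 * Real.pi * I * t : ℂ) ^ 2 • (Sof t R).det =
        ((4 * Real.pi * I * t : ℂ) • Sof t R).det := by
      rw [Matrix.det_fin_two, Matrix.det_fin_two]
      simp only [Matrix.smul_apply, smul_mul_assoc, mul_smul_comm, smul_smul, smul_sub, sq]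
    rw [e, Jet_smul_S ht.ne', Matrix.det_fin_two, trW_apply]
    rw [Matrix.det_fin_two] at hd
    simp [adj_apply]
    linear_combination 4 * hd
  have h3 := congrArg W.j2 hdet
  have h4 : W.j2 4 = 0 := by
    have e : (4 : W) = 1 + 1 + 1 + 1 := by norm_num
    rw [e]
    simp
  rw [W.j2_mul, map_sub, map_smul, h2, h4, hC.j1_tr, hC.j0_tr, hC.j2_tr, hθ, ← hsdef, ← hcdef] at h3
  have h5 : (I * s * c : ℂ) * phi x R = 0 := by
    simp only [smul_zero, sub_zero] at h3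
    linear_combination (-1/4 : ℂ) * h3
  have h6 : (I * s * c : ℂ) ≠ 0 :=
    mul_ne_zero (mul_ne_zero I_ne_zero (by exact_mod_cast hsin.ne')) (by exact_mod_cast hcos.ne')
  exact (mul_eq_zero.1 h5).resolve_left h6

end Pool.Agent.MP_efb2da_gt
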