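import Pool.Agent.MP_efb2da_gt.Pot2
import Pool.Agent.MP_efb2da_gt.Jet

open Set Complex
open scoped Topology ComplexConjugate Matrix ContDiff

noncomputable section

namespace Pool.Agent.MP_efb2da_gt

lemma Est2_A (d : Dat) : ‖AA d‖ ≤ ‖d‖ := norm_fst_le d
lemma Est2_G (d : Dat) : ‖GG d‖ ≤ ‖d‖ := (norm_fst_le d.2).trans (norm_snd_le d)
lemma Est2_m (d : Dat) : ‖mm d‖ ≤ ‖d‖ := (norm_snd_le d.2).trans (norm_snd_le d)
lemma Est2_mv (d : Dat) (i : Fin 3) (z : ℂ) : ‖mv (mm d i) z‖ ≤ ‖mm d‖ :=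
  (norm_mv_le _ _).trans (norm_le_pi_norm (mm d) i)

lemma Est2_conj (G M : MW) : ‖G * M * adj G‖ ≤ 2 * ‖G‖ ^ 2 * ‖M‖ := by
  calc ‖G * M * adj G‖ ≤ ‖G‖ * ‖M‖ * ‖adj G‖ := by
        refine (norm_mul_le _ _).trans ?_
        gcongr
        exact norm_mul_le _ _
    _ ≤ ‖G‖ * ‖M‖ * (2 * ‖G‖) := by gcongr; exact norm_adj_le G
    _ = _ := by ring

lemma Est2_conj' (G M : MW) : ‖adj G * M * G‖ ≤ 2 * ‖G‖ ^ 2 * ‖M‖ := by
  calc ‖adj G * M * G‖ ≤ ‖adj G‖ * ‖M‖ * ‖G‖ := by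
        refine (norm_mul_le _ _).trans ?_
        gcongr
        exact norm_mul_le _ _
    _ ≤ (2 * ‖G‖) * ‖M‖ * ‖G‖ := by gcongr; exact norm_adj_le G
    _ = _ := by ring

variable {g : Geo}

lemma Est2_h1 (g : Geo) (d : Dat) (z : ℂ) :
    ‖h1 g d z‖ ≤ ee g ^ 2 / ‖z - 1‖ ^ 2 * ‖mm d‖ := by
  rw [h1, norm_neg, norm_smul, norm_sw, norm_div, norm_pow, norm_pow, Complex.norm_real,
    Real.norm_eq_abs, sq_abs]
  gcongr
  exact Est2_mv _ _ _

lemma Est2_hinf (hg : AdmG g) (d : Dat) (z : ℂ) :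
    ‖hinf g d z‖ ≤ qq g / ‖z‖ ^ 2 * (2 * ‖GG d‖ ^ 2 * ‖mm d‖) := by
  have hq := hg.2.2.1.1
  rw [hinf, norm_smul, norm_div, norm_pow, Complex.norm_real, Real.norm_of_nonneg hq.le]
  gcongr
  refine (Est2_conj _ _).trans ?_
  gcongr
  exact Est2_mv _ _ _

lemma Est2_h0 (hg : AdmG g) (d : Dat) (z : ℂ) :
    ‖h0 g d z‖ ≤ qq g * (2 * ‖GG d‖ ^ 2 * ‖mm d‖) := by
  have hq := hg.2.2.1.1
  rw [h0, norm_smul, Complex.norm_real, Real.norm_of_nonneg hq.le]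
  gcongr
  refine (Est2_conj' _ _).trans ?_
  gcongr
  exact Est2_mv _ _ _

lemma Est2_div {a x : ℝ} (ha : 0 ≤ a) (hx : 1/16 ≤ x) : a / x ^ 2 ≤ 256 * a := by
  have h0 : 0 < x := by linarith
  rw [div_le_iff₀ (by positivity)]
  have : 1 ≤ 256 * x ^ 2 := by nlinarith
  nlinarith

lemma Est2_h1' (hg : AdmG g) (d : Dat) {z : ℂ} (hz : 1/16 ≤ ‖z - 1‖) :
    ‖h1 g d z‖ ≤ 256 * ee g * ‖mm d‖ := by
  obtain ⟨-, ⟨he, he'⟩, -⟩ := hg
  refine (Est2_h1 g d z).trans ?_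
  gcongr
  refine (Est2_div (sq_nonneg _) hz).trans ?_
  nlinarith

lemma Est2_hinf' (hg : AdmG g) (d : Dat) {z : ℂ} (hz : 1/16 ≤ ‖z‖) :
    ‖hinf g d z‖ ≤ 256 * qq g * (2 * ‖GG d‖ ^ 2 * ‖mm d‖) := by
  refine (Est2_hinf hg d z).trans ?_
  gcongr
  exact Est2_div hg.2.2.1.1.le hz

lemma Est2_rat (g : Geo) (d : Dat) (s : Finset (Fin 5)) {z : ℂ}
    (hz : ∀ j ∈ s, 1/16 ≤ ‖z - pos (pp g) j‖) : ‖rat g d s z‖ ≤ 80 * ‖AA d‖ := by
  have h1 : ∀ j ∈ s, ‖(z - pos (pp g) j)⁻¹ • AA d j‖ ≤ 16 * ‖AA d‖ := by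
    intro j hj
    rw [norm_smul, norm_inv]
    have h2 := hz j hj
    have h3 : ‖z - pos (pp g) j‖⁻¹ ≤ 16 := by
      rw [inv_le_comm₀ (by linarith) (by norm_num)]
      linarith
    gcongr
    exact norm_le_pi_norm (AA d) j
  have h4 : (s.card : ℝ) ≤ 5 := by
    have := Finset.card_le_univ s
    rw [Fintype.card_fin] at this
    exact_mod_cast this
  calc ‖rat g d s z‖ ≤ ∑ j ∈ s, 16 * ‖AA d‖ := norm_sum_le_of_le s h1
    _ = s.card * (16 * ‖AA d‖) := by rw [Finset.sum_const, nsmul_eq_mul]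
    _ ≤ 5 * (16 * ‖AA d‖) := by gcongr
    _ = _ := by ring

/-- the three corrections away from `0` and `1` -/
lemma Est2_corr (hg : AdmG g) {d : Dat} {N : ℝ} (hd : ‖d‖ ≤ N) {z : ℂ} (hz : 1/16 ≤ ‖z‖)
    (hz1 : 1/16 ≤ ‖z - 1‖) :
    ‖h1 g d z + hinf g d z + h0 g d z‖ ≤ (256 * N + 514 * N ^ 3) * (ee g + qq g) := by
  have hN : 0 ≤ N := (norm_nonneg d).trans hd
  have hG := (Est2_G d).trans hd
  have hm := (Est2_m d).trans hd
  have he := hg.2.1.1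
  have hq := hg.2.2.1.1
  have h3 : 2 * ‖GG d‖ ^ 2 * ‖mm d‖ ≤ 2 * N ^ 3 := by
    calc 2 * ‖GG d‖ ^ 2 * ‖mm d‖ ≤ 2 * N ^ 2 * N := by gcongr
      _ = _ := by ring
  have a1 : ‖h1 g d z‖ ≤ 256 * ee g * N := (Est2_h1' hg d hz1).trans (by gcongr)
  have a2 : ‖hinf g d z‖ ≤ 256 * qq g * (2 * N ^ 3) := (Est2_hinf' hg d hz).trans (by gcongr)
  have a3 : ‖h0 g d z‖ ≤ qq g * (2 * N ^ 3) := (Est2_h0 hg d z).trans (by gcongr)
  have a4 := norm_add₃_le (a := h1 g d z) (b := hinf g d z) (c := h0 g d z)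
  have a5 : 0 ≤ qq g * N := by positivity
  have a6 : 0 ≤ ee g * N ^ 3 := by positivity
  nlinarith

/-- a point close to one puncture is far from the others -/
lemma Est2_sep (hg : AdmG g) {i j : Fin 5} (hij : j ≠ i) {z : ℂ}
    (hz : ‖z - pos (pp g) i‖ ≤ 1/8) : 1/16 ≤ ‖z - pos (pp g) j‖ := by
  have h1 := pos_sep hg.2.2.2 hij
  have h2 : ‖((pos (pp g) j : ℝ) : ℂ) - (pos (pp g) i : ℝ)‖ = |pos (pp g) j - pos (pp g) i| := by
    rw [← Complex.ofReal_sub, Complex.norm_real, Real.norm_eq_abs]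
  have h3 : ((pos (pp g) j : ℝ) : ℂ) - (pos (pp g) i : ℝ) =
      (z - pos (pp g) i) - (z - pos (pp g) j) := by ring
  have h4 := norm_sub_le (z - pos (pp g) i) (z - pos (pp g) j)
  rw [← h3, h2] at h4
  linarith

lemma Est2_pos0 (p : Fin 3 → ℝ) : pos p 0 = 0 := rfl
lemma Est2_pos1 (p : Fin 3 → ℝ) : pos p 1 = 1 := rfl

/-- which punctures lie inside the three circles -/
lemma Est2_ins {p : Fin 3 → ℝ} (h : AdmP p) (i : Fin 3) (j : Fin 5) :
    (j ∈ ins i → |pos p j - cen i| < rad i) ∧ (j ∉ ins i → rad i < |pos p j - cen i|) := by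
  obtain ⟨⟨a1, a2⟩, ⟨b1, b2⟩, c1, c2⟩ := h
  fin_cases i <;> fin_cases j <;> simp [ins, pos, cen, rad, abs_lt, lt_abs] <;>
    first
      | (constructor <;> linarith)
      | (left; linarith)
      | (right; linarith)

lemma Est2_rad (i : Fin 3) : 0 < rad i ∧ rad i ≤ 2 := by
  fin_cases i <;> simp [rad] <;> norm_num

/-- the winding integral -/
lemma Est2_wind (c p R : ℝ) :
    (∫ r in (0:ℝ)..1, (2 * Real.pi * I * R * exp (2 * Real.pi * I * r)) *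
      ((c : ℂ) + R * exp (2 * Real.pi * I * r) - p)⁻¹) = ∮ z in C((c : ℂ), R), (z - p)⁻¹ := by
  have h := intervalIntegral.smul_integral_comp_mul_left
    (fun θ : ℝ => deriv (circleMap (c : ℂ) R) θ • (circleMap (c : ℂ) R θ - p)⁻¹)
    (a := 0) (b := 1) (2 * Real.pi)
  rw [mul_zero, mul_one] at h
  rw [circleIntegral, ← h, ← intervalIntegral.integral_smul]
  refine intervalIntegral.integral_congr fun r _ => ?_
  simp only [deriv_circleMap, circleMap, smul_eq_mul, Complex.real_smul, zero_add]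
  have e : ((2 * Real.pi * r : ℝ) : ℂ) * I = 2 * Real.pi * I * r := by push_cast; ring
  rw [e]
  push_cast
  ring

lemma Est2_wind_in {c p R : ℝ} (h : |p - c| < R) :
    (∮ z in C((c : ℂ), R), (z - p)⁻¹) = 2 * Real.pi * I := by
  apply circleIntegral.integral_sub_inv_of_mem_ball
  rw [mem_ball_iff_norm, ← Complex.ofReal_sub, Complex.norm_real, Real.norm_eq_abs]
  exact h

lemma Est2_wind_out {c p R : ℝ} (hR : 0 < R) (h : R < |p - c|) :
    (∮ z in C((c : ℂ), R), (z - p)⁻¹) = 0 := by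
  have hne : ∀ z ∈ Metric.closedBall (c : ℂ) R, z - p ≠ 0 := by
    intro z hz h0
    rw [sub_eq_zero] at h0
    rw [h0, mem_closedBall_iff_norm, ← Complex.ofReal_sub, Complex.norm_real,
      Real.norm_eq_abs] at hz
    linarith
  refine Complex.circleIntegral_eq_zero_of_differentiable_on_off_countable hR.le
    (s := ∅) countable_empty ?_ ?_
  · exact (continuousOn_id.sub continuousOn_const).inv₀ hne
  · intro z hz
    exact (differentiableAt_id.sub_const _).inv (hne z (Metric.ball_subset_closedBall hz.1))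

lemma Est2_Sof_add (t : ℝ) (X Y : MW) : Sof t (X + Y) = Sof t X + Sof t Y := by
  rw [Sof, Sof, Sof, ← smul_add, map_add]
  congr 1
  abel

lemma Est2_Sof_one (t : ℝ) : Sof t 1 = 0 := by simp [Sof]

lemma Est2_Sof_tr {t : ℝ} (ht : t ≠ 0) {A : MW} (hA : trW A = 0) :
    Sof t ((2 * Real.pi * I * t : ℂ) • A) = A := by
  have h1 : (t : ℂ) ≠ 0 := by exact_mod_cast ht
  have h2 : (Real.pi : ℂ) ≠ 0 := by exact_mod_cast Real.pi_ne_zero
  rw [Sof, map_smul, adj_of_tr hA, smul_neg, sub_neg_eq_add, ← add_smul, smul_smul]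
  have : (4 * Real.pi * I * t : ℂ)⁻¹ * (2 * Real.pi * I * t + 2 * Real.pi * I * t) = 1 := by
    field_simp
    ring
  rw [this, one_smul]

lemma Est2_Sof_le {t : ℝ} (ht : 0 < t) (X : MW) : ‖Sof t X‖ ≤ ‖X‖ / t := by
  have h1 : ‖X - adj X‖ ≤ 3 * ‖X‖ := by
    have := norm_sub_le X (adj X)
    have := norm_adj_le X
    linarith
  have h2 : ‖(4 * Real.pi * I * t : ℂ)‖ = 4 * Real.pi * t := by
    simp [abs_of_pos ht, abs_of_pos Real.pi_pos]
  rw [Sof, norm_smul, norm_inv, h2, le_div_iff₀ ht]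
  have h3 := Real.pi_gt_three
  have h4 : (4 * Real.pi * t)⁻¹ * ‖X - adj X‖ * t = ‖X - adj X‖ / (4 * Real.pi) := by
    field_simp
  rw [h4, div_le_iff₀ (by positivity)]
  have := norm_nonneg X
  nlinarith

end Pool.Agent.MP_efb2da_gt
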