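import Pool.Agent.MP_efb2da_gt.Pot2
import Pool.Agent.MP_efb2da_gt.Jet
import Pool.Agent.MP_efb2da_gt.Est2X1

open Set Complex
open scoped Topology ComplexConjugate Matrix ContDiff

noncomputable section

namespace Pool.Agent.MP_efb2da_gt

/-- the neck corrections are small away from the necks -/
theorem est_corr (N : ℝ) : ∃ C, ∀ (g : Geo) (d : Dat) (z : ℂ), AdmG g → ‖d‖ ≤ N → z ≠ 0 →
    1/32 ≤ ‖z - 1‖ → ‖z • (h1 g d z + hinf g d z + h0 g d z)‖ ≤
      C * (ee g + qq g / ‖z‖ + qq g * ‖z‖) := by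
  refine ⟨1056 * N + 2 * N ^ 3, fun g d z hg hd hz hz1 => ?_⟩
  have hN : 0 ≤ N := (norm_nonneg d).trans hd
  have hG := (Est2_G d).trans hd
  have hm := (Est2_m d).trans hd
  have he := hg.2.1.1
  have he' := hg.2.1.2
  have hq := hg.2.2.1.1
  have hz0 : 0 < ‖z‖ := norm_pos_iff.2 hz
  have hz2 : 0 < ‖z - 1‖ := by linarith
  have h3 : 2 * ‖GG d‖ ^ 2 * ‖mm d‖ ≤ 2 * N ^ 3 := by
    calc 2 * ‖GG d‖ ^ 2 * ‖mm d‖ ≤ 2 * N ^ 2 * N := by gcongr
      _ = _ := by ring
  have h4 : ‖z‖ ≤ 1056 * ‖z - 1‖ ^ 2 := by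
    have h5 : ‖z‖ ≤ ‖z - 1‖ + 1 := by
      have := norm_add_le (z - 1) 1
      rwa [sub_add_cancel, norm_one] at this
    nlinarith
  have a1 : ‖z‖ * ‖h1 g d z‖ ≤ 1056 * N * ee g := by
    calc ‖z‖ * ‖h1 g d z‖ ≤ (1056 * ‖z - 1‖ ^ 2) * (ee g ^ 2 / ‖z - 1‖ ^ 2 * N) := by
          gcongr
          exact (Est2_h1 g d z).trans (by gcongr)
      _ = 1056 * N * ee g * ee g := by field_simp
      _ ≤ 1056 * N * ee g * 1 := by gcongr; linarith
      _ = _ := mul_one _
  have a2 : ‖z‖ * ‖hinf g d z‖ ≤ 2 * N ^ 3 * (qq g / ‖z‖) := by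
    calc ‖z‖ * ‖hinf g d z‖ ≤ ‖z‖ * (qq g / ‖z‖ ^ 2 * (2 * N ^ 3)) := by
          gcongr
          exact (Est2_hinf hg d z).trans (by gcongr)
      _ = _ := by field_simp
  have a3 : ‖z‖ * ‖h0 g d z‖ ≤ 2 * N ^ 3 * (qq g * ‖z‖) := by
    calc ‖z‖ * ‖h0 g d z‖ ≤ ‖z‖ * (qq g * (2 * N ^ 3)) := by
          gcongr
          exact (Est2_h0 hg d z).trans (by gcongr)
      _ = _ := by ring
  have a4 : ‖z • (h1 g d z + hinf g d z + h0 g d z)‖ ≤
      ‖z‖ * (‖h1 g d z‖ + ‖hinf g d z‖ + ‖h0 g d z‖) := by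
    rw [norm_smul]
    gcongr
    exact norm_add₃_le
  have b1 : 0 ≤ N * (qq g / ‖z‖) := by positivity
  have b2 : 0 ≤ N * (qq g * ‖z‖) := by positivity
  have b3 : 0 ≤ N ^ 3 * ee g := by positivity
  nlinarith

lemma Est2_norm_vel {R : ℝ} (hR : 0 < R) (hR' : R ≤ 2) (r : ℝ) :
    ‖(2 * Real.pi * I * R * exp (2 * Real.pi * I * r) : ℂ)‖ ≤ 16 := by
  have e : (2 * Real.pi * I * r : ℂ) = ((2 * Real.pi * r : ℝ) : ℂ) * I := by push_cast; ring
  rw [norm_mul, e, Complex.norm_exp_ofReal_mul_I, mul_one]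
  have h2 : ‖(2 * Real.pi * I * R : ℂ)‖ = 2 * Real.pi * R := by
    simp [abs_of_pos hR, abs_of_pos Real.pi_pos]
  rw [h2]
  have := Real.pi_lt_four
  nlinarith

/-- the integral of the rational part along a circle -/
lemma Est2_int_rat {g : Geo} (hg : AdmG g) (d : Dat) (i : Fin 3) :
    (∫ r in (0:ℝ)..1, (tt g * (2 * Real.pi * I * rad i * exp (2 * Real.pi * I * r)) : ℂ) •
      rat g d Finset.univ (cen i + rad i * exp (2 * Real.pi * I * r))) =
      (2 * Real.pi * I * tt g : ℂ) • ∑ j ∈ ins i, AA d j := by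
  have hne : ∀ (j : Fin 5) (r : ℝ),
      (cen i : ℂ) + rad i * exp (2 * Real.pi * I * r) - pos (pp g) j ≠ 0 := by
    intro j r h0
    have := circle_sep hg i r j
    rw [h0, norm_zero] at this
    linarith
  have hc : ∀ j : Fin 5, Continuous fun r : ℝ =>
      (2 * Real.pi * I * rad i * exp (2 * Real.pi * I * r) : ℂ) *
        ((cen i : ℂ) + rad i * exp (2 * Real.pi * I * r) - pos (pp g) j)⁻¹ := fun j =>
    Continuous.mul (by fun_prop) (Continuous.inv₀ (by fun_prop) (hne j))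
  have e1 : (fun r : ℝ => (tt g * (2 * Real.pi * I * rad i * exp (2 * Real.pi * I * r)) : ℂ) •
      rat g d Finset.univ (cen i + rad i * exp (2 * Real.pi * I * r))) = fun r : ℝ =>
      ∑ j : Fin 5, ((2 * Real.pi * I * rad i * exp (2 * Real.pi * I * r) : ℂ) *
        ((cen i : ℂ) + rad i * exp (2 * Real.pi * I * r) - pos (pp g) j)⁻¹) •
          ((tt g : ℂ) • AA d j) := by
    funext r
    rw [rat, Finset.smul_sum]
    refine Finset.sum_congr rfl fun j _ => ?_
    rw [smul_smul, smul_smul]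
    congr 1
    ring
  have hc' : ∀ j : Fin 5, Continuous fun r : ℝ =>
      ((2 * Real.pi * I * rad i * exp (2 * Real.pi * I * r) : ℂ) *
        ((cen i : ℂ) + rad i * exp (2 * Real.pi * I * r) - pos (pp g) j)⁻¹) •
          ((tt g : ℂ) • AA d j) := fun j => (hc j).smul continuous_const
  rw [e1, intervalIntegral.integral_finsetSum (fun j _ => (hc' j).intervalIntegrable _ _)]
  have e2 : ∀ j : Fin 5, (∫ r in (0:ℝ)..1,
      ((2 * Real.pi * I * rad i * exp (2 * Real.pi * I * r) : ℂ) *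
        ((cen i : ℂ) + rad i * exp (2 * Real.pi * I * r) - pos (pp g) j)⁻¹) •
          ((tt g : ℂ) • AA d j)) =
      if j ∈ ins i then (2 * Real.pi * I * tt g : ℂ) • AA d j else 0 := by
    intro j
    rw [intervalIntegral.integral_smul_const, Est2_wind]
    split_ifs with hj
    · rw [Est2_wind_in ((Est2_ins hg.2.2.2 i j).1 hj), smul_smul]
    · rw [Est2_wind_out (Est2_rad i).1 ((Est2_ins hg.2.2.2 i j).2 hj), zero_smul]
  rw [Finset.sum_congr rfl fun j _ => e2 j, Finset.sum_ite_mem, Finset.univ_inter,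
    Finset.smul_sum]

theorem est_T (N : ℝ) : ∃ C, ∀ (g : Geo) (d : Dat) (i : Fin 3), AdmG g → ‖d‖ ≤ N →
    (∀ j, trW (AA d j) = 0) → (∀ r ∈ Icc (0:ℝ) 1, ‖TT g d i r - 1‖ ≤ C * tt g) ∧
      ‖Sof (tt g) (TT g d i 1) - ∑ j ∈ ins i, AA d j‖ ≤ C * (tt g + ee g + qq g) := by
  set K2 : ℝ := 256 * N + 514 * N ^ 3 with hK2
  set K1 : ℝ := 16 * (80 * N + K2) with hK1
  refine ⟨K1 * Real.exp K1 + K1 ^ 2 * Real.exp K1 + 16 * K2, fun g d i hg hd htr => ?_⟩
  have hN : 0 ≤ N := (norm_nonneg d).trans hd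
  have hK2p : 0 ≤ K2 := by positivity
  have hK1p : 0 ≤ K1 := by positivity
  have ht := hg.1.1
  have ht' := hg.1.2
  have he := hg.2.1.1
  have he' := hg.2.1.2
  have hq := hg.2.2.1.1
  have hq' := hg.2.2.1.2
  set z : ℝ → ℂ := fun r => (cen i : ℂ) + rad i * exp (2 * Real.pi * I * r) with hz
  set v : ℝ → ℂ := fun r => tt g * (2 * Real.pi * I * rad i * exp (2 * Real.pi * I * r)) with hv
  have hvn : ∀ r, ‖v r‖ ≤ tt g * 16 := fun r => by
    rw [hv]
    simp only
    rw [norm_mul, Complex.norm_real, Real.norm_of_nonneg ht.le]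
    gcongr
    exact Est2_norm_vel (Est2_rad i).1 (Est2_rad i).2 r
  have hcorr : ∀ r, ‖h1 g d (z r) + hinf g d (z r) + h0 g d (z r)‖ ≤ K2 * (ee g + qq g) := by
    intro r
    refine Est2_corr hg hd ?_ ?_
    · simpa [Est2_pos0] using circle_sep hg i r 0
    · simpa [Est2_pos1] using circle_sep hg i r 1
  have hrat : ∀ r, ‖rat g d Finset.univ (z r)‖ ≤ 80 * N := fun r =>
    (Est2_rat g d _ fun j _ => circle_sep hg i r j).trans
      (by gcongr; exact (Est2_A d).trans hd)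
  have hsplit : ∀ r, aC g d (cen i) (rad i) r = v r • rat g d Finset.univ (z r) +
      v r • (h1 g d (z r) + hinf g d (z r) + h0 g d (z r)) := by
    intro r
    rw [← smul_add, aC, Xi]
    congr 1
    abel
  have hc2 : ∀ r, ‖v r • (h1 g d (z r) + hinf g d (z r) + h0 g d (z r))‖ ≤
      tt g * 16 * (K2 * (ee g + qq g)) := fun r => by
    rw [norm_smul]
    gcongr
    · exact hvn r
    · exact hcorr r
  have hK : ∀ r ∈ Icc (0:ℝ) 1, ‖aC g d (cen i) (rad i) r‖ ≤ tt g * K1 := by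
    intro r _
    rw [hsplit]
    have b1 : ‖v r • rat g d Finset.univ (z r)‖ ≤ tt g * 16 * (80 * N) := by
      rw [norm_smul]
      gcongr
      · exact hvn r
      · exact hrat r
    have b2 : tt g * 16 * (K2 * (ee g + qq g)) ≤ tt g * 16 * (K2 * 1) := by
      gcongr; linarith
    have b3 := norm_add_le (v r • rat g d Finset.univ (z r))
      (v r • (h1 g d (z r) + hinf g d (z r) + h0 g d (z r)))
    have b4 := hc2 r
    rw [hK1]
    linarith
  have hca : Continuous (aC g d (cen i) (rad i)) := continuous_aC hg i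
  have hexp : Real.exp (tt g * K1) ≤ Real.exp K1 :=
    Real.exp_le_exp.2 (mul_le_of_le_one_left hK1p ht')
  have p1 : 0 ≤ K1 * Real.exp K1 := by positivity
  have p2 : 0 ≤ K1 ^ 2 * Real.exp K1 := by positivity
  refine ⟨fun r hr => ?_, ?_⟩
  · have h1 := norm_Hol_sub_one_le hca.continuousOn hK r hr
    calc ‖TT g d i r - 1‖ ≤ tt g * K1 * Real.exp (tt g * K1) := h1
      _ ≤ tt g * K1 * Real.exp K1 := by gcongr
      _ = K1 * Real.exp K1 * tt g := by ring
      _ ≤ _ := by gcongr; linarith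
  · have h2 := norm_Hol_second hca.continuousOn hK
    have hne : ∀ (j : Fin 5) (r : ℝ), z r - pos (pp g) j ≠ 0 := by
      intro j r h0
      have := circle_sep hg i r j
      rw [show (cen i : ℂ) + rad i * exp (2 * Real.pi * I * r) = z r from rfl, h0,
        norm_zero] at this
      linarith
    have hcz : Continuous z := by rw [hz]; fun_prop
    have hcv : Continuous v := by rw [hv]; fun_prop
    have hcr : Continuous fun r => v r • rat g d Finset.univ (z r) := by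
      refine hcv.smul ?_
      unfold rat
      exact continuous_finsetSum _ fun j _ =>
        ((hcz.sub continuous_const).inv₀ (hne j)).smul continuous_const
    set E' : MW := ∫ r in (0:ℝ)..1, (aC g d (cen i) (rad i) r - v r • rat g d Finset.univ (z r))
      with hE'
    have hE'n : ‖E'‖ ≤ tt g * 16 * (K2 * (ee g + qq g)) := by
      have := intervalIntegral.norm_integral_le_of_norm_le_const (a := 0) (b := 1)
        (f := fun r => aC g d (cen i) (rad i) r - v r • rat g d Finset.univ (z r))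
        (C := tt g * 16 * (K2 * (ee g + qq g))) (fun r _ => by
          rw [hsplit, add_sub_cancel_left]; exact hc2 r)
      simpa using this
    have hint : (∫ r in (0:ℝ)..1, aC g d (cen i) (rad i) r) =
        (2 * Real.pi * I * tt g : ℂ) • ∑ j ∈ ins i, AA d j + E' := by
      rw [hE', intervalIntegral.integral_sub (hca.intervalIntegrable _ _)
        (hcr.intervalIntegrable _ _), ← Est2_int_rat hg d i]
      abel
    set E : MW := Hol (aC g d (cen i) (rad i)) 1 - 1 - ∫ r in (0:ℝ)..1, aC g d (cen i) (rad i) r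
      with hE
    have hT : TT g d i 1 = 1 + (2 * Real.pi * I * tt g : ℂ) • ∑ j ∈ ins i, AA d j + (E + E') := by
      rw [hE, hint, TT]
      abel
    have htr' : trW (∑ j ∈ ins i, AA d j) = 0 := by
      rw [map_sum]; exact Finset.sum_eq_zero fun j _ => htr j
    rw [hT, Est2_Sof_add, Est2_Sof_add, Est2_Sof_one, Est2_Sof_tr ht.ne' htr', zero_add,
      add_sub_cancel_left]
    refine (Est2_Sof_le ht _).trans ?_
    rw [div_le_iff₀ ht]
    have h3 : ‖E‖ ≤ (tt g * K1) ^ 2 * Real.exp K1 := h2.trans (by gcongr)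
    have h4 := norm_add_le E E'
    have q1 : 0 ≤ K1 * Real.exp K1 * (tt g + ee g + qq g) * tt g := by positivity
    have q2 : 0 ≤ K1 ^ 2 * Real.exp K1 * (ee g + qq g) * tt g := by positivity
    have q3 : 0 ≤ 16 * K2 * tt g * tt g := by positivity
    nlinarith

theorem Sof_RR (g : Geo) (d : Dat) (i : Fin 3) :
    Sof (tt g) (RR g d i) = HH g d * Sof (tt g) (TT g d i 1) * adj (HH g d) := by
  rw [Sof, Sof, RR, adj_mul, adj_mul, adj_adj, mul_smul_comm, smul_mul_assoc, mul_sub, sub_mul,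
    mul_assoc (HH g d) (adj (TT g d i 1))]

theorem est_reg (N : ℝ) : ∃ C, ∀ (g : Geo) (d : Dat) (j : Fin 3) (z : ℂ), AdmG g → ‖d‖ ≤ N →
    ‖z - pp g j‖ ≤ 1/8 → ‖reg g d (cj5 j) z‖ ≤ C ∧
      ‖reg g d (cj5 j) z - rat g d (Finset.univ.erase (cj5 j)) z‖ ≤ C * (ee g + qq g) := by
  refine ⟨80 * N + (256 * N + 514 * N ^ 3), fun g d j z hg hd hz => ?_⟩
  have hN : 0 ≤ N := (norm_nonneg d).trans hd
  have he := hg.2.1.1
  have he' := hg.2.1.2
  have hq := hg.2.2.1.1
  have hq' := hg.2.2.1.2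
  rw [← pos_cj5 (pp g) j] at hz
  have n0 : (0 : Fin 5) ≠ cj5 j := by fin_cases j <;> simp [cj5]
  have n1 : (1 : Fin 5) ≠ cj5 j := by fin_cases j <;> simp [cj5]
  have hcorr := Est2_corr hg hd (z := z) (by simpa [Est2_pos0] using Est2_sep hg n0 hz)
    (by simpa [Est2_pos1] using Est2_sep hg n1 hz)
  have hrat : ‖rat g d (Finset.univ.erase (cj5 j)) z‖ ≤ 80 * N :=
    (Est2_rat g d _ fun k hk => Est2_sep hg (Finset.ne_of_mem_erase hk) hz).trans
      (by gcongr; exact (Est2_A d).trans hd)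
  have e : reg g d (cj5 j) z = rat g d (Finset.univ.erase (cj5 j)) z +
      (h1 g d z + hinf g d z + h0 g d z) := by rw [reg]; abel
  have hK : 0 ≤ 256 * N + 514 * N ^ 3 := by positivity
  constructor
  · rw [e]
    refine (norm_add_le _ _).trans (add_le_add hrat (hcorr.trans ?_))
    exact mul_le_of_le_one_right hK (by linarith)
  · rw [e, add_sub_cancel_left]
    exact hcorr.trans (mul_le_mul_of_nonneg_right (by linarith) (by linarith))

lemma Est2_Mf {g : Geo} (hg : AdmG g) (d : Dat) (i : Fin 3) {w : ℂ} (hw : ‖w‖ ≤ 1/8) :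
    ‖Mf g d i w‖ ≤ 80 * ‖AA d‖ + 256 * ee g * ‖mm d‖ +
      257 * qq g * (2 * ‖GG d‖ ^ 2 * ‖mm d‖) := by
  have he := hg.2.1.1
  have he' := hg.2.1.2
  have hq := hg.2.2.1.1
  have p1 : 0 ≤ 256 * ee g * ‖mm d‖ := by positivity
  have p2 : 0 ≤ qq g * (2 * ‖GG d‖ ^ 2 * ‖mm d‖) := by positivity
  fin_cases i
  · show ‖M0 g d w‖ ≤ _
    have hw0 : ‖w - pos (pp g) 0‖ ≤ 1/8 := by simpa [Est2_pos0] using hw
    have a1 := Est2_rat g d (Finset.univ.erase 0) (z := w)
      fun k hk => Est2_sep hg (Finset.ne_of_mem_erase hk) hw0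
    have a2 := Est2_h1' hg d (z := w)
      (by simpa [Est2_pos1] using Est2_sep hg (i := 0) (j := 1) (by decide) hw0)
    have a3 := Est2_h0 hg d w
    have a4 := norm_add₃_le (a := rat g d (Finset.univ.erase 0) w) (b := h1 g d w)
      (c := h0 g d w)
    rw [M0]
    linarith
  · show ‖M1 g d w‖ ≤ _
    have hw0 : ‖1 + w - pos (pp g) 1‖ ≤ 1/8 := by simpa [Est2_pos1] using hw
    have a1 := Est2_rat g d (Finset.univ.erase 1) (z := 1 + w)
      fun k hk => Est2_sep hg (Finset.ne_of_mem_erase hk) hw0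
    have a2 := Est2_hinf' hg d (z := 1 + w)
      (by simpa [Est2_pos0] using Est2_sep hg (i := 1) (j := 0) (by decide) hw0)
    have a3 := Est2_h0 hg d (1 + w)
    have a4 := norm_add₃_le (a := rat g d (Finset.univ.erase 1) (1 + w)) (b := hinf g d (1 + w))
      (c := h0 g d (1 + w))
    rw [M1]
    linarith
  · show ‖M2 g d w‖ ≤ _
    have a0 : ∀ j : Fin 5, ‖((pos (pp g) j : ℂ) / (1 - pos (pp g) j * w)) • AA d j‖ ≤
        16 * ‖AA d‖ := by
      intro j
      have b1 : ‖(pos (pp g) j : ℂ)‖ ≤ 11/10 := by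
        rw [Complex.norm_real, Real.norm_eq_abs]; exact abs_pos_le hg.2.2.2 j
      have b2 : ‖(pos (pp g) j : ℂ) * w‖ ≤ 11/10 * (1/8) := by
        rw [norm_mul]; gcongr
      have b3 : 1/2 ≤ ‖1 - (pos (pp g) j : ℂ) * w‖ := by
        have := norm_sub_norm_le (1 : ℂ) ((pos (pp g) j : ℂ) * w)
        rw [norm_one] at this
        linarith
      have b4 : ‖(pos (pp g) j : ℂ) / (1 - pos (pp g) j * w)‖ ≤ 16 := by
        rw [norm_div, div_le_iff₀ (by linarith)]
        linarith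
      rw [norm_smul]
      gcongr
      exact norm_le_pi_norm (AA d) j
    have a1 : ‖∑ j, ((pos (pp g) j : ℂ) / (1 - pos (pp g) j * w)) • AA d j‖ ≤ 80 * ‖AA d‖ := by
      refine (norm_sum_le_of_le _ fun j _ => a0 j).trans ?_
      rw [Finset.sum_const, Finset.card_univ, Fintype.card_fin, nsmul_eq_mul]
      push_cast
      linarith
    have b5 : 1/16 ≤ ‖1 - w‖ := by
      have := norm_sub_norm_le (1 : ℂ) w
      rw [norm_one] at this
      linarith
    have a2 : ‖((ee g : ℂ) ^ 2 / (1 - w) ^ 2) • sw (mv (mm d 1) ((ee g : ℂ) ^ 2 * w / (1 - w)))‖ ≤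
        256 * ee g * ‖mm d‖ := by
      rw [norm_smul, norm_sw, norm_div, norm_pow, norm_pow, Complex.norm_real,
        Real.norm_eq_abs, sq_abs]
      gcongr
      · refine (Est2_div (sq_nonneg _) b5).trans ?_
        nlinarith
      · exact Est2_mv _ _ _
    have a3 : ‖(qq g : ℂ) • (GG d * mv (mm d 2) ((qq g : ℂ) * w) * adj (GG d))‖ ≤
        qq g * (2 * ‖GG d‖ ^ 2 * ‖mm d‖) := by
      rw [norm_smul, Complex.norm_real, Real.norm_of_nonneg hq.le]
      gcongr
      refine (Est2_conj _ _).trans ?_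
      gcongr
      exact Est2_mv _ _ _
    rw [M2]
    refine (norm_add_le _ _).trans ?_
    refine (add_le_add ((norm_sub_le _ _).trans (add_le_add a1 a2)) a3).trans ?_
    linarith

theorem est_MM : ∃ C, ∀ (g : Geo) (d : Dat) (i : Fin 3), AdmG g →
    ‖MM g d i‖ ≤ C * (‖AA d‖ + (ee g + qq g) * (1 + ‖GG d‖ ^ 2) * ‖mm d‖) := by
  refine ⟨514, fun g d i hg => ?_⟩
  have he := hg.2.1.1
  have hq := hg.2.2.1.1
  rw [ContinuousMap.norm_le _ (by positivity)]
  intro z
  rw [MM, cmk_apply (continuous_Mf hg i)]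
  have hz : ‖(z : ℂ) / 8‖ ≤ 1/8 := by
    have h1 : ‖(z : ℂ)‖ ≤ 1 := mem_closedBall_zero_iff.1 z.property
    rw [norm_div]
    simp only [Complex.norm_ofNat]
    linarith
  refine (Est2_Mf hg d i hz).trans ?_
  have p0 := norm_nonneg (AA d)
  have p1 : 0 ≤ ee g * ‖mm d‖ := by positivity
  have p2 : 0 ≤ qq g * ‖mm d‖ := by positivity
  have p3 : 0 ≤ ee g * (‖GG d‖ ^ 2 * ‖mm d‖) := by positivity
  nlinarith

end Pool.Agent.MP_efb2da_gt
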