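import Pool.Agent.MP_efb2da_gt.Ode

open Set Complex
open scoped Topology

noncomputable section

namespace Pool.Agent.MP_efb2da_gt

variable {A : Type} [NormedRing A] [NormedAlgebra ℂ A] [CompleteSpace A] [NormOneClass A]

/-- holonomy along the segment from `p` to `q` -/
def odeUpSeg (ξ : ℂ → A) (p q : ℂ) : A :=
  Hol (fun r : ℝ => (q - p) • ξ (p + (r : ℂ) * (q - p))) 1

theorem odeUp_mem_segment (p q : ℂ) {r : ℝ} (hr : r ∈ Icc (0:ℝ) 1) :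
    p + (r : ℂ) * (q - p) ∈ segment ℝ p q := by
  rw [segment_eq_image']
  exact ⟨r, hr, by simp⟩

theorem odeUp_seg {U : Set ℂ} (hc : Convex ℝ U) {ξ Φ : ℂ → A} (hξ : ContinuousOn ξ U)
    (hΦ : ∀ z ∈ U, HasDerivAt Φ (Φ z * ξ z) z) {p q : ℂ} (hp : p ∈ U) (hq : q ∈ U) :
    Φ q = Φ p * odeUpSeg ξ p q := by
  have hs : ∀ r ∈ Icc (0:ℝ) 1, p + (r : ℂ) * (q - p) ∈ U := fun r hr =>
    hc.segment_subset hp hq (odeUp_mem_segment p q hr)
  have hγ : ∀ r : ℝ, HasDerivAt (fun r : ℝ => p + (r : ℂ) * (q - p)) (q - p) r := by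
    intro r
    have h1 : HasDerivAt (fun r : ℝ => (r : ℂ)) 1 r := Complex.ofRealCLM.hasDerivAt
    simpa using (h1.mul_const (q - p)).const_add p
  have hcγ : Continuous fun r : ℝ => p + (r : ℂ) * (q - p) := by fun_prop
  have ha : ContinuousOn (fun r : ℝ => (q - p) • ξ (p + (r : ℂ) * (q - p))) (Icc 0 1) :=
    (hξ.comp hcγ.continuousOn hs).const_smul (q - p)
  have h := frame_path hΦ (γ := fun r : ℝ => p + (r : ℂ) * (q - p)) (γ' := fun _ => q - p)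
    (b := 1) (right_mem_Icc.2 zero_le_one) hγ hs ha (fun _ _ => rfl) 1
    (right_mem_Icc.2 zero_le_one)
  simpa [odeUpSeg] using h

theorem odeUp_tube {O : Set ℂ} (hO : IsOpen O) {p q : ℂ} (h : segment ℝ p q ⊆ O) :
    ∃ (δ : ℝ) (U : Set ℂ), 0 < δ ∧ IsOpen U ∧ Convex ℝ U ∧ U ⊆ O ∧ Metric.ball p δ ⊆ U ∧
      Metric.ball q δ ⊆ U := by
  have hK : IsCompact (segment ℝ p q) := by
    rw [segment_eq_image']
    exact isCompact_Icc.image (by fun_prop)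
  obtain ⟨δ, hδ, hs⟩ := hK.exists_thickening_subset_open hO h
  exact ⟨δ, Metric.thickening δ (segment ℝ p q), hδ, Metric.isOpen_thickening,
    (convex_segment p q).thickening δ, hs,
    Metric.ball_subset_thickening (left_mem_segment ℝ p q) δ,
    Metric.ball_subset_thickening (right_mem_segment ℝ p q) δ⟩

theorem odeUp_dist (c : ℝ) (z w : ℂ) :
    dist ((z.re : ℂ) + c * I) ((w.re : ℂ) + c * I) ≤ dist z w := by
  rw [dist_add_right, dist_eq_norm, dist_eq_norm, ← Complex.ofReal_sub, Complex.norm_real,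
    ← Complex.sub_re, Real.norm_eq_abs]
  exact Complex.abs_re_le_norm _

theorem odeUp_horiz {a b c x y : ℝ} (hx : x ∈ Ioo a b) (hy : y ∈ Ioo a b) {z : ℂ}
    (hz : z ∈ segment ℝ ((x : ℂ) + c * I) ((y : ℂ) + c * I)) :
    z.re ∈ Ioo a b ∧ (z.re : ℂ) + c * I = z := by
  obtain ⟨s, t, hs, ht, hst, rfl⟩ := hz
  have h1 : (s • ((x : ℂ) + c * I) + t • ((y : ℂ) + c * I)).re = s * x + t * y := by simp
  refine ⟨?_, ?_⟩
  · rw [h1]
    exact (convex_Ioo a b) hx hy hs ht hst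
  · apply Complex.ext
    · simp
    · have : s * c + t * c = c := by rw [← add_mul, hst, one_mul]
      simp [this]

theorem odeUp_vert {c : ℝ} {ζ z : ℂ} (hz : z ∈ segment ℝ ((ζ.re : ℂ) + c * I) ζ) :
    z.re = ζ.re ∧ z.im ∈ uIcc ζ.im c := by
  obtain ⟨s, t, hs, ht, hst, rfl⟩ := hz
  refine ⟨?_, ?_⟩
  · have : s * ζ.re + t * ζ.re = ζ.re := by rw [← add_mul, hst, one_mul]
    simp [this]
  · have h1 : (s • ((ζ.re : ℂ) + c * I) + t • ζ).im = s * c + t * ζ.im := by simp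
    rw [h1]
    exact (convex_uIcc ζ.im c) right_mem_uIcc left_mem_uIcc hs ht hst

/-- solution on a vertically star-shaped neighbourhood -/
theorem exists_frame_vert {O : Set ℂ} (hO : IsOpen O) {ξ : ℂ → A} (hξ : DifferentiableOn ℂ ξ O)
    {a b c : ℝ} (hab : a < b) (hI : ∀ x ∈ Ioo a b, ((x:ℂ) + c * I) ∈ O) :
    ∃ (Ω : Set ℂ) (Φ : ℂ → A), IsOpen Ω ∧ IsPreconnected Ω ∧ Ω ⊆ O ∧
      (∀ ζ : ℂ, ζ.re ∈ Ioo a b → (∀ y ∈ uIcc ζ.im c, ((ζ.re:ℂ) + y * I) ∈ O) → ζ ∈ Ω) ∧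
      Φ (((a + b) / 2 : ℝ) + c * I) = 1 ∧ ∀ z ∈ Ω, HasDerivAt Φ (Φ z * ξ z) z := by
  have hm : (a + b) / 2 ∈ Ioo a b := ⟨by linarith, by linarith⟩
  set m : ℂ := (((a + b) / 2 : ℝ) : ℂ) + c * I with hmdef
  set Ω : Set ℂ := {ζ | ζ.re ∈ Ioo a b ∧ segment ℝ ((ζ.re : ℂ) + c * I) ζ ⊆ O} with hΩ
  set Φ : ℂ → A := fun ζ => odeUpSeg ξ m ((ζ.re : ℂ) + c * I) *
    odeUpSeg ξ ((ζ.re : ℂ) + c * I) ζ with hΦ
  have hline : ∀ x ∈ Ioo a b, segment ℝ m ((x : ℂ) + c * I) ⊆ Ω := by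
    intro x hx z hz
    obtain ⟨h1, h2⟩ := odeUp_horiz hm hx hz
    refine ⟨h1, ?_⟩
    rw [h2, segment_same, singleton_subset_iff, ← h2]
    exact hI _ h1
  have hΩO : Ω ⊆ O := fun ζ hζ => hζ.2 (right_mem_segment ℝ _ _)
  have key : ∀ ζ₀ ∈ Ω, ∃ G : ℂ → A, HasDerivAt G (G ζ₀ * ξ ζ₀) ζ₀ ∧ Φ =ᶠ[𝓝 ζ₀] G ∧
      (ζ₀ = m → G ζ₀ = 1) := by
    intro ζ₀ hζ₀
    obtain ⟨δ₁, U₁, hδ₁, hU₁, hc₁, hs₁, hb₁, hb₁'⟩ :=
      odeUp_tube hO ((hline _ hζ₀.1).trans hΩO)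
    obtain ⟨δ₂, U₂, hδ₂, hU₂, hc₂, hs₂, hb₂, hb₂'⟩ := odeUp_tube hO hζ₀.2
    have hm₁ : m ∈ U₁ := hb₁ (Metric.mem_ball_self hδ₁)
    obtain ⟨G₁, hG₁, hd₁⟩ := exists_frame_convex hU₁ hc₁ (hξ.mono hs₁) hm₁ (1 : A)
    obtain ⟨G₂, hG₂, hd₂⟩ := exists_frame_convex hU₂ hc₂ (hξ.mono hs₂)
      (hb₂ (Metric.mem_ball_self hδ₂)) (G₁ ((ζ₀.re : ℂ) + c * I))
    have heq : ∀ z ∈ U₁ ∩ U₂, G₁ z = G₂ z :=
      frame_unique (hU₁.inter hU₂) (hξ.continuousOn.mono (inter_subset_left.trans hs₁))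
        (fun z hz => hd₁ z hz.1) (fun z hz => hd₂ z hz.2) (hc₁.inter hc₂).isPreconnected
        subset_rfl ⟨hb₁' (Metric.mem_ball_self hδ₁), hb₂ (Metric.mem_ball_self hδ₂)⟩ hG₂.symm
    refine ⟨G₂, hd₂ _ (hb₂' (Metric.mem_ball_self hδ₂)), ?_, ?_⟩
    · filter_upwards [Metric.ball_mem_nhds ζ₀ hδ₁, Metric.ball_mem_nhds ζ₀ hδ₂] with ζ h1 h2
      have p1 : (ζ.re : ℂ) + c * I ∈ U₁ := hb₁' ((odeUp_dist c ζ ζ₀).trans_lt h1)
      have p2 : (ζ.re : ℂ) + c * I ∈ U₂ := hb₂ ((odeUp_dist c ζ ζ₀).trans_lt h2)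
      have e1 := odeUp_seg hc₁ (hξ.continuousOn.mono hs₁) hd₁ hm₁ p1
      have e2 := odeUp_seg hc₂ (hξ.continuousOn.mono hs₂) hd₂ p2 (hb₂' h2)
      rw [hG₁, one_mul] at e1
      rw [e2, ← heq _ ⟨p1, p2⟩, e1]
    · intro h
      rw [← heq _ ⟨h ▸ hm₁, hb₂' (Metric.mem_ball_self hδ₂)⟩, h, hG₁]
  have hmΩ : m ∈ Ω := hline _ hm (left_mem_segment ℝ _ _)
  refine ⟨Ω, Φ, ?_, ?_, hΩO, ?_, ?_, ?_⟩
  · rw [isOpen_iff_mem_nhds]
    intro ζ₀ hζ₀
    obtain ⟨δ₂, U₂, hδ₂, -, hc₂, hs₂, hb₂, hb₂'⟩ := odeUp_tube hO hζ₀.2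
    have h0 : {ζ : ℂ | ζ.re ∈ Ioo a b} ∈ 𝓝 ζ₀ :=
      (isOpen_Ioo.preimage Complex.continuous_re).mem_nhds hζ₀.1
    filter_upwards [h0, Metric.ball_mem_nhds ζ₀ hδ₂] with ζ h1 h2
    exact ⟨h1, (hc₂.segment_subset (hb₂ ((odeUp_dist c ζ ζ₀).trans_lt h2)) (hb₂' h2)).trans hs₂⟩
  · refine isPreconnected_of_forall m fun y hy => ?_
    refine ⟨segment ℝ m ((y.re : ℂ) + c * I) ∪ segment ℝ ((y.re : ℂ) + c * I) y,
      union_subset (hline _ hy.1) ?_, Or.inl (left_mem_segment ℝ _ _),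
      Or.inr (right_mem_segment ℝ _ _), ?_⟩
    · intro z hz
      have h1 := (odeUp_vert hz).1
      refine ⟨h1 ▸ hy.1, ?_⟩
      rw [h1]
      exact ((convex_segment _ _).segment_subset (left_mem_segment ℝ _ _) hz).trans hy.2
    · exact IsPreconnected.union _ (right_mem_segment ℝ _ _) (left_mem_segment ℝ _ _)
        (convex_segment _ _).isPreconnected (convex_segment _ _).isPreconnected
  · intro ζ h1 h2
    refine ⟨h1, fun z hz => ?_⟩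
    obtain ⟨e1, e2⟩ := odeUp_vert hz
    have := h2 _ e2
    rwa [← e1, Complex.re_add_im] at this
  · obtain ⟨G, -, h2, h3⟩ := key m hmΩ
    rw [h2.eq_of_nhds, h3 rfl]
  · intro z hz
    obtain ⟨G, h1, h2, -⟩ := key z hz
    rw [h2.eq_of_nhds]
    exact h1.congr_of_eventuallyEq h2

theorem odeUp_rot (ζ : ℂ) : -I * exp ζ = exp (ζ - (Real.pi / 2 : ℝ) * I) := by
  have h : ζ - (Real.pi / 2 : ℝ) * I = ζ + -(Real.pi : ℂ) / 2 * I := by push_cast; ring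
  rw [h, Complex.exp_add, Complex.exp_neg_pi_div_two_mul_I, mul_comm]

/-- solution on a neighbourhood of a region of the closed upper half plane that retracts to the
imaginary axis along circular arcs -/
theorem exists_frame_upper {O : Set ℂ} (hO : IsOpen O) {ξ : ℂ → A} (hξ : DifferentiableOn ℂ ξ O)
    {a b : ℝ} (ha : 0 < a) (hab : a < b) (hI : ∀ x ∈ Ioo a b, ((x:ℂ) * I) ∈ O) :
    ∃ (Ω : Set ℂ) (Φ : ℂ → A) (z₁ : ℂ), IsOpen Ω ∧ IsPreconnected Ω ∧ Ω ⊆ O ∧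
      (∀ z : ℂ, 0 ≤ z.im → a < ‖z‖ → ‖z‖ < b →
        (∀ θ ∈ uIcc (arg z) (Real.pi / 2), ((‖z‖:ℂ) * exp (θ * I)) ∈ O) → z ∈ Ω) ∧
      z₁ ∈ Ω ∧ Φ z₁ = 1 ∧ ∀ z ∈ Ω, HasDerivAt Φ (Φ z * ξ z) z := by
  have hpi := Real.pi_pos
  set O₁ : Set ℂ := exp ⁻¹' O ∩ {ζ | ζ.im ∈ Ioo (-(Real.pi / 2)) (3 * Real.pi / 2)} with hO₁def
  have hO₁ : IsOpen O₁ :=
    (hO.preimage Complex.continuous_exp).inter (isOpen_Ioo.preimage Complex.continuous_im)
  have hξ₁ : DifferentiableOn ℂ (fun ζ => exp ζ • ξ (exp ζ)) O₁ :=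
    Complex.differentiable_exp.differentiableOn.smul
      (hξ.comp Complex.differentiable_exp.differentiableOn fun _ h => h.1)
  have hlog : Real.log a < Real.log b := Real.log_lt_log ha hab
  have hI₁ : ∀ x ∈ Ioo (Real.log a) (Real.log b), ((x:ℂ) + (Real.pi / 2 : ℝ) * I) ∈ O₁ := by
    intro x hx
    refine ⟨?_, ?_⟩
    · have h1 : exp ((x:ℂ) + (Real.pi / 2 : ℝ) * I) = ((Real.exp x : ℝ) : ℂ) * I := by
        rw [Complex.exp_add]
        push_cast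
        rw [Complex.exp_pi_div_two_mul_I]
      rw [mem_preimage, h1]
      exact hI _ ⟨(Real.log_lt_iff_lt_exp ha).1 hx.1, (Real.lt_log_iff_exp_lt (ha.trans hab)).1 hx.2⟩
    · have h1 : ((x:ℂ) + (Real.pi / 2 : ℝ) * I).im = Real.pi / 2 := by
        simp only [add_im, ofReal_im, mul_im, ofReal_re, I_im, I_re]; ring
      show _ ∈ Ioo _ _
      rw [h1]
      exact ⟨by linarith, by linarith⟩
  obtain ⟨Ω₁, Φ₁, h1, h2, h3, h4, h5, h6⟩ := exists_frame_vert hO₁ hξ₁ hlog hI₁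
  set L : ℂ → ℂ := fun z => log (-I * z) + (Real.pi / 2 : ℝ) * I with hL
  have him : ∀ ζ : ℂ, (ζ - (Real.pi / 2 : ℝ) * I).im = ζ.im - Real.pi / 2 := by
    intro ζ
    simp only [sub_im, mul_im, ofReal_re, ofReal_im, I_im, I_re]; ring
  have hlogexp : ∀ ζ ∈ O₁, log (-I * exp ζ) = ζ - (Real.pi / 2 : ℝ) * I := by
    intro ζ hζ
    have := hζ.2
    rw [odeUp_rot, Complex.log_exp]
    · rw [him]; linarith [this.1]
    · rw [him]; linarith [this.2]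
  have hLexp : ∀ ζ ∈ O₁, L (exp ζ) = ζ := by
    intro ζ hζ
    simp only [hL]
    rw [hlogexp ζ hζ, sub_add_cancel]
  have hm : (Real.log a + Real.log b) / 2 ∈ Ioo (Real.log a) (Real.log b) :=
    ⟨by linarith, by linarith⟩
  have hmΩ : ((((Real.log a + Real.log b) / 2 : ℝ) : ℂ) + (Real.pi / 2 : ℝ) * I) ∈ Ω₁ := by
    have e1 : ((((Real.log a + Real.log b) / 2 : ℝ) : ℂ) + (Real.pi / 2 : ℝ) * I).re =
        (Real.log a + Real.log b) / 2 := by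
      simp only [add_re, ofReal_re, mul_re, ofReal_im, I_re, I_im]; ring
    have e2 : ((((Real.log a + Real.log b) / 2 : ℝ) : ℂ) + (Real.pi / 2 : ℝ) * I).im =
        Real.pi / 2 := by
      simp only [add_im, ofReal_im, mul_im, ofReal_re, I_im, I_re]; ring
    refine h4 _ (by rw [e1]; exact hm) fun y hy => ?_
    rw [e2, uIcc_self, mem_singleton_iff] at hy
    rw [e1, hy]
    exact hI₁ _ hm
  refine ⟨exp '' Ω₁, fun z => Φ₁ (L z), exp _, Complex.isOpenMap_exp _ h1,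
    h2.image _ Complex.continuous_exp.continuousOn, ?_, ?_, mem_image_of_mem _ hmΩ, ?_, ?_⟩
  · rintro _ ⟨ζ, hζ, rfl⟩
    exact (h3 hζ).1
  · intro z hz hza hzb hθ
    have hz0 : z ≠ 0 := norm_pos_iff.1 (ha.trans hza)
    refine ⟨log z, h4 _ ?_ ?_, Complex.exp_log hz0⟩
    · rw [Complex.log_re]
      exact ⟨Real.log_lt_log ha hza, Real.log_lt_log (ha.trans hza) hzb⟩
    · intro y hy
      rw [Complex.log_im] at hy
      rw [Complex.log_re]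
      refine ⟨?_, ?_⟩
      · rw [mem_preimage, Complex.exp_add, ← Complex.ofReal_exp, Real.exp_log (ha.trans hza)]
        exact hθ y hy
      · have e : ((Real.log ‖z‖ : ℂ) + y * I).im = y := by
          simp only [add_im, ofReal_im, mul_im, ofReal_re, I_im, I_re]; ring
        show _ ∈ Ioo _ _
        rw [e]
        have a0 : 0 ≤ arg z := Complex.arg_nonneg_iff.2 hz
        have a1 : arg z ≤ Real.pi := Complex.arg_le_pi z
        rcases mem_uIcc.1 hy with h | h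
        · exact ⟨by linarith [h.1], by linarith [h.2]⟩
        · exact ⟨by linarith [h.1], by linarith [h.2]⟩
  · show Φ₁ (L _) = 1
    rw [hLexp _ (h3 hmΩ), h5]
  · rintro _ ⟨ζ, hζ, rfl⟩
    have hζ₁ := h3 hζ
    have hsl : -I * exp ζ ∈ slitPlane := by
      rw [Complex.mem_slitPlane_iff_arg]
      refine ⟨?_, mul_ne_zero (neg_ne_zero.2 I_ne_zero) (Complex.exp_ne_zero _)⟩
      rw [← Complex.log_im, hlogexp ζ hζ₁, him]
      linarith [hζ₁.2.2]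
    have hdL : HasDerivAt L (exp ζ)⁻¹ (exp ζ) := by
      have h := (((hasDerivAt_id (exp ζ)).const_mul (-I)).clog hsl).add_const
        ((Real.pi / 2 : ℝ) * I)
      have e : -I * 1 / (-I * id (exp ζ)) = (exp ζ)⁻¹ := by
        have := Complex.exp_ne_zero ζ
        simp only [id]
        field_simp
      rw [e] at h
      exact h
    have hd := h6 ζ hζ
    rw [← hLexp ζ hζ₁] at hd
    have h := HasDerivAt.scomp (exp ζ) hd hdL
    rw [hLexp ζ hζ₁, mul_smul_comm, smul_smul, inv_mul_cancel₀ (Complex.exp_ne_zero ζ),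
      one_smul] at h
    show HasDerivAt (fun z => Φ₁ (L z)) (Φ₁ (L (exp ζ)) * ξ (exp ζ)) (exp ζ)
    rw [hLexp ζ hζ₁]
    exact h

end Pool.Agent.MP_efb2da_gt
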