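import Pool.Agent.MP_efb2da_gt.Pot2

open Set Complex
open scoped Topology ComplexConjugate Matrix ContDiff

noncomputable section

namespace Pool.Agent.MP_efb2da_gt

variable {g : Geo} {d : Dat}

lemma Pot3_one_mem : (1:ℝ) ∈ Icc (0:ℝ) 1 := right_mem_Icc.2 zero_le_one
lemma Pot3_half_mem : (1/2:ℝ) ∈ Icc (0:ℝ) 1 := ⟨by norm_num, by norm_num⟩

lemma Pot3_exp_rev (r : ℝ) :
    exp (2 * Real.pi * I * ((1 - r : ℝ) : ℂ)) = exp (-(2 * Real.pi * I * r)) := by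
  have : (2 * Real.pi * I * ((1 - r : ℝ) : ℂ) : ℂ) = -(2 * Real.pi * I * r) + 2 * Real.pi * I := by
    push_cast; ring
  rw [this, Complex.exp_add, Complex.exp_two_pi_mul_I, mul_one]

lemma Pot3_conj_exp (r : ℝ) :
    conj (exp (2 * Real.pi * I * ((1 - r : ℝ) : ℂ))) = exp (2 * Real.pi * I * r) := by
  rw [Pot3_exp_rev, ← Complex.exp_conj]
  congr 1
  simp [Complex.conj_ofReal, map_ofNat]

lemma Pot3_conj_exp' (r : ℝ) :
    conj (exp (2 * Real.pi * I * r)) = exp (2 * Real.pi * I * ((1 - r : ℝ) : ℂ)) := by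
  rw [← Pot3_conj_exp, Complex.conj_conj]

lemma Pot3_tr_smul (c : ℂ) {M : MW} (h : trW M = 0) : trW (c • M) = 0 := by
  rw [map_smul, h, smul_zero]

lemma Pot3_aH_tr (hd : Str d) (r : ℝ) : trW (aH g d r) = 0 := Pot3_tr_smul _ (Th_tr hd _)
lemma Pot3_a1_tr (hd : Str d) (r : ℝ) : trW (a1 g d r) = 0 := Pot3_tr_smul _ (Th_tr hd _)
lemma Pot3_aC_tr (hd : Str d) (c R r : ℝ) : trW (aC g d c R r) = 0 := Pot3_tr_smul _ (Xi_tr hd _)
lemma Pot3_aL_tr (hd : Str d) (r : ℝ) : trW (aL g d r) = 0 := Pot3_tr_smul _ (Xi_tr hd _)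

lemma Pot3_Th_real (hd : Str d) (x : ℝ) : sharp (Th g d x) = Th g d x := by
  have := Th_real (g := g) hd (x : ℂ)
  rwa [Complex.conj_ofReal] at this

lemma Pot3_Xi_real (hd : Str d) (x : ℝ) : sharp (Xi g d x) = Xi g d x := by
  have := Xi_real (g := g) hd (x : ℂ)
  rwa [Complex.conj_ofReal] at this

lemma Pot3_aH_sharp (hd : Str d) (r : ℝ) : sharp (aH g d r) = aH g d r := by
  rw [aH, sharp_smul, Complex.conj_ofReal, Pot3_Th_real hd]

lemma Pot3_aL_sharp (hd : Str d) (r : ℝ) : sharp (aL g d r) = aL g d r := by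
  rw [aL, sharp_smul, Complex.conj_ofReal, Pot3_Xi_real hd]

lemma Pot3_a1_sharp (hd : Str d) (r : ℝ) : sharp (a1 g d r) = -a1 g d (1 - r) := by
  have e : (ee g : ℂ) * exp (2 * Real.pi * I * r) =
      conj ((ee g : ℂ) * exp (2 * Real.pi * I * ((1 - r : ℝ) : ℂ))) := by
    rw [map_mul, Complex.conj_ofReal, Pot3_conj_exp]
  have c : conj (2 * Real.pi * I * tt g : ℂ) = -(2 * Real.pi * I * tt g) := by
    simp [Complex.conj_ofReal, map_ofNat]
  rw [a1, a1, sharp_smul, e, Th_real hd, c, neg_smul]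

lemma Pot3_aC_sharp (hd : Str d) (c R r : ℝ) : sharp (aC g d c R r) = -aC g d c R (1 - r) := by
  have e : (c : ℂ) + R * exp (2 * Real.pi * I * r) =
      conj ((c : ℂ) + R * exp (2 * Real.pi * I * ((1 - r : ℝ) : ℂ))) := by
    rw [map_add, map_mul, Complex.conj_ofReal, Complex.conj_ofReal, Pot3_conj_exp]
  have c' : conj (tt g * (2 * Real.pi * I * R * exp (2 * Real.pi * I * r)) : ℂ) =
      -(tt g * (2 * Real.pi * I * R * exp (2 * Real.pi * I * ((1 - r : ℝ) : ℂ)))) := by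
    rw [map_mul, map_mul, Pot3_conj_exp']
    simp [Complex.conj_ofReal, map_ofNat]
  rw [aC, aC, sharp_smul, e, Xi_real hd, c', neg_smul]

lemma Pot3_a1_sw (hg : AdmG g) (hd : Str d) (r : ℝ) : sw (a1 g d r) = -a1 g d (1 - r) := by
  have he : (ee g : ℂ) ≠ 0 := by exact_mod_cast hg.2.1.1.ne'
  have hu : (ee g : ℂ) * exp (2 * Real.pi * I * ((1 - r : ℝ) : ℂ)) ≠ 0 :=
    mul_ne_zero he (Complex.exp_ne_zero _)
  have e : (ee g : ℂ) * exp (2 * Real.pi * I * r) =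
      (ee g : ℂ) ^ 2 / ((ee g : ℂ) * exp (2 * Real.pi * I * ((1 - r : ℝ) : ℂ))) := by
    rw [Pot3_exp_rev, Complex.exp_neg]
    have := Complex.exp_ne_zero (2 * Real.pi * I * r)
    field_simp
  rw [a1, a1, map_smul, e, Th_sw hg hd hu, smul_neg]

section
variable (hg : AdmG g) (hd : Str d)
include hg hd

lemma Pot3_det_TT (i : Fin 3) {r : ℝ} (hr : r ∈ Icc (0:ℝ) 1) : (TT g d i r).det = 1 :=
  det_Hol (continuous_aC hg i).continuousOn (fun s _ => Pot3_aC_tr hd _ _ s) r hr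

lemma Pot3_sharp_TT (i : Fin 3) : sharp (TT g d i 1) = adj (TT g d i 1) ∧
    sharp (TT g d i (1/2)) = adj (TT g d i 1) * TT g d i (1/2) :=
  sharp_Hol_rev (continuous_aC hg i).continuousOn (fun s _ => Pot3_aC_tr hd _ _ s)
    (fun s _ => Pot3_aC_sharp hd _ _ s)

lemma det_HH : (HH g d).det = 1 :=
  det_Hol (continuous_aH hg).continuousOn (fun s _ => Pot3_aH_tr hd s) 1 Pot3_one_mem
lemma sharp_HH : sharp (HH g d) = HH g d :=
  sharp_Hol (continuous_aH hg).continuousOn (fun s _ => Pot3_aH_sharp hd s) 1 Pot3_one_mem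
lemma det_R1 : (R1 g d).det = 1 :=
  det_Hol (continuous_a1 hg).continuousOn (fun s _ => Pot3_a1_tr hd s) 1 Pot3_one_mem
lemma sharp_R1 : sharp (R1 g d) = adj (R1 g d) :=
  (sharp_Hol_rev (continuous_a1 hg).continuousOn (fun s _ => Pot3_a1_tr hd s)
    (fun s _ => Pot3_a1_sharp hd s)).1
lemma sw_R1 : sw (R1 g d) = adj (R1 g d) :=
  sw_Hol_rev (continuous_a1 hg).continuousOn (fun s _ => Pot3_a1_tr hd s)
    (fun s _ => Pot3_a1_sw hg hd s)
lemma det_RR (i : Fin 3) : (RR g d i).det = 1 := by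
  rw [RR, Matrix.det_mul, Matrix.det_mul, det_adj, det_HH hg hd, Pot3_det_TT hg hd i Pot3_one_mem]
  simp
lemma sharp_RR (i : Fin 3) : sharp (RR g d i) = adj (RR g d i) := by
  rw [RR, sharp_mul, sharp_mul, sharp_adj, sharp_HH hg hd, (Pot3_sharp_TT hg hd i).1, adj_mul,
    adj_mul, adj_adj, mul_assoc]
lemma det_Php : (Php g d).det = 1 := by
  rw [Php, Matrix.det_mul, det_HH hg hd, Pot3_det_TT hg hd 0 Pot3_half_mem, one_mul]
lemma sharp_Php : sharp (Php g d) = Phm g d := by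
  rw [Phm, Php, RR, sharp_mul, sharp_HH hg hd, (Pot3_sharp_TT hg hd 0).2, adj_mul, adj_mul,
    adj_adj]
  simp only [mul_assoc]
  rw [← mul_assoc (adj (HH g d)), adj_mul_of_det (det_HH hg hd), one_mul]
lemma det_Phi : (Phi g d).det = 1 := by
  rw [Phi, Matrix.det_mul, det_HH hg hd,
    det_Hol (continuousOn_aL hg) (fun s _ => Pot3_aL_tr hd s) 1 Pot3_one_mem, one_mul]
lemma sharp_Phi : sharp (Phi g d) = Phi g d := by
  rw [Phi, sharp_mul, sharp_HH hg hd,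
    sharp_Hol (continuousOn_aL hg) (fun s _ => Pot3_aL_sharp hd s) 1 Pot3_one_mem]
lemma Gf_eq : Gf g d = Bi (Php g d) * Bm (Phi g d) := by
  rw [Gf, Bm, Bi, Bi, st_eq, st_eq, sharp_Php hg hd, sharp_Phi hg hd]
end

end Pool.Agent.MP_efb2da_gt
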