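import Pool.Agent.MP_efb2da_gt.Sol0
import Pool.Agent.MP_efb2da_gt.Pot3
import Pool.Agent.MP_efb2da_gt.OdeUp

open Set Complex
open scoped Topology ComplexConjugate Matrix ContDiff

noncomputable section

namespace Pool.Agent.MP_efb2da_gt

variable {g : Geo} {d : Dat} {Ω : Set ℂ} {Φ : ℂ → MW}

lemma Fr1_sq (w : ℂ) : ‖w - 1‖ ^ 2 = ‖w‖ ^ 2 - 2 * w.re + 1 := by
  rw [Complex.sq_norm, Complex.sq_norm, Complex.normSq_apply, Complex.normSq_apply]
  simp only [sub_re, one_re, sub_im, one_im]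
  ring

lemma Fr1_eps (hg : AdmG g) : 8 * ee g ^ 2 < ee g ∧ 8 * ee g ^ 2 < 1/16 ∧ 0 < 8 * ee g ^ 2 := by
  obtain ⟨-, ⟨h0, h1⟩, -, -⟩ := hg
  refine ⟨by nlinarith, by nlinarith, by positivity⟩

/-- circular arcs from a point of the upper half domain to the imaginary axis stay inside -/
lemma Fr1_arc (hg : AdmG g) {z : ℂ} (hz : z ∈ Dom g) (him : 0 ≤ z.im) {θ : ℝ}
    (hθ : θ ∈ uIcc (arg z) (Real.pi / 2)) : ((‖z‖:ℂ) * exp (θ * I)) ∈ Dom g := by
  obtain ⟨h1, h2, h3, h4⟩ := hz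
  have hq := hg.2.2.1.1
  have hr : 0 < ‖z‖ := by linarith
  have hpi := Real.pi_pos
  have ha0 : 0 ≤ arg z := Complex.arg_nonneg_iff.2 him
  have ha1 : arg z ≤ Real.pi := Complex.arg_le_pi z
  obtain ⟨e1, e2, e3⟩ := Fr1_eps hg
  by_cases hθz : θ = arg z
  · rw [hθz, Complex.norm_mul_exp_arg_mul_I]
    exact ⟨h1, h2, h3, h4⟩
  set w : ℂ := (‖z‖:ℂ) * exp (θ * I) with hw
  have hn : ‖w‖ = ‖z‖ := by
    rw [hw, norm_mul, Complex.norm_exp_ofReal_mul_I]; simp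
  have hre : w.re = ‖z‖ * Real.cos θ := by
    rw [hw, Complex.re_ofReal_mul, Complex.exp_ofReal_mul_I_re]
  have him' : w.im = ‖z‖ * Real.sin θ := by
    rw [hw, Complex.im_ofReal_mul, Complex.exp_ofReal_mul_I_im]
  have hzre : z.re = ‖z‖ * Real.cos (arg z) := (Complex.norm_mul_cos_arg z).symm
  have hθ0 : 0 < θ ∧ θ < Real.pi := by
    rcases mem_uIcc.1 hθ with ⟨a1, a2⟩ | ⟨a1, a2⟩
    · exact ⟨lt_of_le_of_lt ha0 (lt_of_le_of_ne a1 (Ne.symm hθz)), by linarith⟩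
    · exact ⟨by linarith, lt_of_lt_of_le (lt_of_le_of_ne a2 hθz) ha1⟩
  refine ⟨by rw [hn]; exact h1, by rw [hn]; exact h2, ?_, fun j hj => ?_⟩
  · refine lt_of_pow_lt_pow_left₀ 2 (norm_nonneg _) ?_
    rw [Fr1_sq, hn, hre]
    rcases mem_uIcc.1 hθ with ⟨a1, a2⟩ | ⟨a1, a2⟩
    · have hc : Real.cos θ ≤ Real.cos (arg z) :=
        Real.cos_le_cos_of_nonneg_of_le_pi ha0 hθ0.2.le a1
      have h5 : (8 * ee g ^ 2) ^ 2 < ‖z - 1‖ ^ 2 := pow_lt_pow_left₀ h3 e3.le two_ne_zero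
      rw [Fr1_sq, hzre] at h5
      nlinarith [mul_le_mul_of_nonneg_left hc hr.le]
    · have hc : Real.cos θ ≤ 0 := Real.cos_nonpos_of_pi_div_two_le_of_le a1 (by linarith [hθ0.2])
      have h6 : ‖z‖ * Real.cos θ ≤ 0 := mul_nonpos_of_nonneg_of_nonpos hr.le hc
      nlinarith [sq_nonneg ‖z‖]
  · have h7 : w.im = 0 := by rw [hj, Complex.ofReal_im]
    have h8 : 0 < Real.sin θ := Real.sin_pos_of_pos_of_lt_pi hθ0.1 hθ0.2
    rw [him'] at h7
    exact absurd h7 (mul_pos hr h8).ne'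

lemma Fr1_base_mem (hg : AdmG g) : (1 + ee g : ℂ) ∈ Dom g := by
  obtain ⟨e1, -, -⟩ := Fr1_eps hg
  obtain ⟨h0, h1⟩ := hg.2.1
  have hn : ‖(ee g : ℂ)‖ = ee g := by rw [Complex.norm_real, Real.norm_of_nonneg h0.le]
  exact neck_subset_Dom hg (by rw [hn]; exact e1) (by rw [hn]; linarith)

lemma Fr1_tr (hd : Str d) (c z : ℂ) : trW (c • Xi g d z) = 0 := by
  rw [map_smul, Xi_tr hd, smul_zero]

theorem exists_frame (hg : AdmG g) (hd : Str d) : ∃ Ω Φ, Frame g d Ω Φ := by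
  obtain ⟨hq0, hq1⟩ := hg.2.2.1
  obtain ⟨e1, e2, e3⟩ := Fr1_eps hg
  have h8 : 0 < 8 * qq g := by linarith
  have hab : 8 * qq g < 1 / (8 * qq g) := by
    rw [lt_div_iff₀ h8]; nlinarith
  have hI : ∀ x ∈ Ioo (8 * qq g) (1 / (8 * qq g)), ((x:ℂ) * I) ∈ Dom g := by
    intro x hx
    have hx0 : 0 < x := h8.trans hx.1
    have hn : ‖(x:ℂ) * I‖ = x := by
      rw [norm_mul, Complex.norm_I, mul_one, Complex.norm_real, Real.norm_of_nonneg hx0.le]
    refine ⟨by rw [hn]; exact hx.1, ?_, ?_, fun j hj => ?_⟩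
    · rw [hn]
      have := (lt_div_iff₀ h8).1 hx.2
      linarith
    · refine lt_of_pow_lt_pow_left₀ 2 (norm_nonneg _) ?_
      have hre : ((x:ℂ) * I).re = 0 := by simp
      rw [Fr1_sq, hn, hre]
      nlinarith [sq_nonneg x]
    · have := congrArg Complex.im hj
      simp only [mul_im, ofReal_re, I_im, mul_one, ofReal_im, I_re, mul_zero, add_zero] at this
      exact hx0.ne' this
  obtain ⟨Ω, Φ, z₁, ho, hc, hsub, hup, hz₁, h1, hode⟩ :=
    exists_frame_upper (isOpen_Dom g) (ξ := fun z => (tt g : ℂ) • Xi g d z)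
      ((Xi_differentiableOn hg hd).fun_const_smul (tt g : ℂ)) h8 hab hI
  have up : ∀ z ∈ Dom g, 0 ≤ z.im → z ∈ Ω := fun z hz him =>
    hup z him hz.1 (by rw [lt_div_iff₀ h8]; linarith [hz.2.1]) fun θ hθ => Fr1_arc hg hz him hθ
  have hdet : ∀ z ∈ Ω, (Φ z).det = 1 :=
    frame_det ho hc hode (fun z _ => Fr1_tr hd _ z) hz₁ (by rw [h1, Matrix.det_one])
  have hb : (1 + ee g : ℂ) ∈ Ω := up _ (Fr1_base_mem hg) (by simp)
  refine ⟨Ω, fun z => adj (Φ (1 + ee g)) * Φ z, ho, hsub, up, fun z hz => ?_, fun z hz => ?_, ?_⟩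
  · rw [mul_assoc]
    exact (hode z hz).const_mul _
  · rw [Matrix.det_mul, det_adj, hdet _ hb, hdet z hz, one_mul]
  · exact adj_mul_of_det (hdet _ hb)

lemma Fr1_det_sharp {M : MW} (h : M.det = 1) : (sharp M).det = 1 := by
  rw [det_sharp, h]
  have h1 := det_sharp 1
  rw [sharp_one, Matrix.det_one] at h1
  exact h1.symm

lemma Fr1_real_mem (h : Frame g d Ω Φ) {x : ℝ} (hx : (x : ℂ) ∈ Dom g) : (x : ℂ) ∈ Ω :=
  h.up _ hx (by simp)

lemma Fr1_open (h : Frame g d Ω Φ) : IsOpen (Ω ∩ (fun z : ℂ => conj z) ⁻¹' Ω) :=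
  h.opn.inter (h.opn.preimage continuous_conj)

/-- the reflected frame differs from the frame by a constant left factor -/
lemma Fr1_ratio (h : Frame g d Ω Φ) (hg : AdmG g) (hd : Str d) {S : Set ℂ}
    (hS : IsPreconnected S) (hSO : S ⊆ Ω ∩ (fun z : ℂ => conj z) ⁻¹' Ω) {x : ℝ}
    (hx : (x : ℂ) ∈ S) : ∀ z ∈ S, Φ z = arcR Φ x * sharp (Φ (conj z)) := by
  refine frame_ratio (Ψ := fun z => sharp (Φ (conj z))) (ξ := fun z => (tt g : ℂ) • Xi g d z)
    (Fr1_open h) ?_ (fun z hz => h.ode z hz.1) (fun z hz => ?_) hS hSO hx ?_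
  · exact (((Xi_differentiableOn hg hd).const_smul (tt g : ℂ)).continuousOn).mono
      fun z hz => h.sub hz.1
  · have := hasDerivAt_sharp_conj (h.ode (conj z) hz.2)
    rwa [sharp_mul, sharp_smul, Complex.conj_ofReal, Xi_real hd] at this
  · rw [Complex.conj_ofReal, arcR, mul_assoc,
      adj_mul_of_det (Fr1_det_sharp (h.det _ (hSO hx).1)), mul_one]

theorem Frame.arc_local (h : Frame g d Ω Φ) (hg : AdmG g) (hd : Str d) {x : ℝ}
    (hx : (x : ℂ) ∈ Dom g) : ∀ᶠ z in 𝓝 (x : ℂ), z ∈ Ω ∧ conj z ∈ Ω ∧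
      Φ z = arcR Φ x * sharp (Φ (conj z)) := by
  have hxO : (x : ℂ) ∈ Ω ∩ (fun z : ℂ => conj z) ⁻¹' Ω := by
    refine ⟨Fr1_real_mem h hx, ?_⟩
    rw [mem_preimage, Complex.conj_ofReal]
    exact Fr1_real_mem h hx
  obtain ⟨δ, hδ, hb⟩ := Metric.isOpen_iff.1 (Fr1_open h) _ hxO
  filter_upwards [Metric.ball_mem_nhds (x : ℂ) hδ] with z hz
  exact ⟨(hb hz).1, (hb hz).2,
    Fr1_ratio h hg hd (convex_ball _ _).isPreconnected hb (Metric.mem_ball_self hδ) z hz⟩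

theorem Frame.arc_const (h : Frame g d Ω Φ) (hg : AdmG g) (hd : Str d) {a b : ℝ}
    (hab : ∀ x ∈ uIcc a b, (x : ℂ) ∈ Dom g) : arcR Φ a = arcR Φ b := by
  have hS : IsPreconnected ((fun x : ℝ => (x : ℂ)) '' uIcc a b) :=
    isPreconnected_uIcc.image _ Complex.continuous_ofReal.continuousOn
  have hSO : (fun x : ℝ => (x : ℂ)) '' uIcc a b ⊆ Ω ∩ (fun z : ℂ => conj z) ⁻¹' Ω := by
    rintro _ ⟨x, hx, rfl⟩
    refine ⟨Fr1_real_mem h (hab x hx), ?_⟩
    rw [mem_preimage, Complex.conj_ofReal]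
    exact Fr1_real_mem h (hab x hx)
  have e := Fr1_ratio h hg hd hS hSO (x := a) ⟨a, left_mem_uIcc, rfl⟩ b ⟨b, right_mem_uIcc, rfl⟩
  rw [Complex.conj_ofReal] at e
  have hdet := Fr1_det_sharp (h.det _ (Fr1_real_mem h (hab b right_mem_uIcc)))
  calc arcR Φ a = arcR Φ a * sharp (Φ b) * adj (sharp (Φ b)) := by
        rw [mul_assoc, mul_adj_of_det hdet, mul_one]
    _ = arcR Φ b := by rw [← e, arcR]

lemma Fr1_conj_exp (r : ℝ) :
    conj (exp (2 * Real.pi * I * r)) = exp (2 * Real.pi * I * ((1 - r : ℝ) : ℂ)) := by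
  rw [← Complex.exp_conj]
  have e : (2 * Real.pi * I * ((1 - r : ℝ) : ℂ)) = conj (2 * Real.pi * I * r : ℂ) +
      2 * Real.pi * I := by
    simp only [map_mul, Complex.conj_ofReal, Complex.conj_I, map_ofNat]
    push_cast
    ring
  rw [e, Complex.exp_add, Complex.exp_two_pi_mul_I, mul_one]

lemma Fr1_ofReal_deriv (r : ℝ) : HasDerivAt (fun r : ℝ => (r : ℂ)) 1 r :=
  Complex.ofRealCLM.hasDerivAt

theorem Frame.circle (h : Frame g d Ω Φ) (hg : AdmG g) (hd : Str d) {c R : ℝ} (hR : 0 < R)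
    (hc : ∀ r : ℝ, ((c : ℂ) + R * exp (2 * Real.pi * I * r)) ∈ Dom g) :
    Φ ((c - R : ℝ) : ℂ) = Φ ((c + R : ℝ) : ℂ) * Hol (aC g d c R) (1/2) ∧
      arcR Φ (c - R) = Φ ((c + R : ℝ) : ℂ) * Hol (aC g d c R) 1 * adj (Φ ((c + R : ℝ) : ℂ)) *
        arcR Φ (c + R) := by
  have hpi := Real.pi_pos
  have hγc : Continuous fun r : ℝ => (c : ℂ) + R * exp (2 * Real.pi * I * r) := by fun_prop
  have hcont : Continuous (aC g d c R) := by
    have h1 : Continuous fun r : ℝ => Xi g d ((c : ℂ) + R * exp (2 * Real.pi * I * r)) :=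
      (Xi_differentiableOn hg hd).continuousOn.comp_continuous hγc hc
    have h2 : Continuous fun r : ℝ =>
        (tt g : ℂ) * (2 * Real.pi * I * R * exp (2 * Real.pi * I * r)) := by fun_prop
    exact h2.smul h1
  have hγ : ∀ r : ℝ, HasDerivAt (fun r : ℝ => (c : ℂ) + R * exp (2 * Real.pi * I * r))
      (2 * Real.pi * I * R * exp (2 * Real.pi * I * r)) r := by
    intro r
    have h1 := ((((Fr1_ofReal_deriv r).const_mul (2 * Real.pi * I : ℂ)).cexp).const_mul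
      (R : ℂ)).const_add (c : ℂ)
    exact h1.congr_deriv (by ring)
  have hhalf : (1/2 : ℝ) ∈ Icc (0:ℝ) 1 := ⟨by norm_num, by norm_num⟩
  have hO : ∀ r ∈ Icc (0:ℝ) (1/2), (c : ℂ) + R * exp (2 * Real.pi * I * r) ∈ Ω := by
    intro r hr
    refine h.up _ (hc r) ?_
    have e : (2 * Real.pi * I * r : ℂ) = ((2 * Real.pi * r : ℝ) : ℂ) * I := by
      push_cast; ring
    rw [e, add_im, ofReal_im, zero_add, Complex.im_ofReal_mul, Complex.exp_ofReal_mul_I_im]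
    refine mul_nonneg hR.le (Real.sin_nonneg_of_nonneg_of_le_pi ?_ ?_)
    · have := hr.1; positivity
    · nlinarith [hr.2]
  have key := frame_path h.ode hhalf hγ hO hcont.continuousOn (fun r _ => by
    rw [aC, smul_smul, mul_comm (tt g : ℂ)]) (1/2) ⟨by norm_num, le_rfl⟩
  have e0 : (c : ℂ) + R * exp (2 * Real.pi * I * ((0:ℝ) : ℂ)) = ((c + R : ℝ) : ℂ) := by simp
  have e1 : (c : ℂ) + R * exp (2 * Real.pi * I * ((1/2:ℝ) : ℂ)) = ((c - R : ℝ) : ℂ) := by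
    have : (2 * Real.pi * I * ((1/2:ℝ) : ℂ)) = Real.pi * I := by push_cast; ring
    rw [this, Complex.exp_pi_mul_I]; push_cast; ring
  simp only [e0, e1] at key
  refine ⟨key, ?_⟩
  have ht : ∀ r ∈ Icc (0:ℝ) 1, trW (aC g d c R r) = 0 := fun r _ => Fr1_tr hd _ _
  have hs : ∀ r ∈ Icc (0:ℝ) 1, sharp (aC g d c R r) = -aC g d c R (1 - r) := by
    intro r _
    have h1 := Xi_real (g := g) hd (conj ((c : ℂ) + R * exp (2 * Real.pi * I * r)))
    rw [Complex.conj_conj] at h1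
    rw [aC, aC, sharp_smul, h1, ← neg_smul]
    simp only [map_add, map_mul, Complex.conj_ofReal, Complex.conj_I, map_ofNat, Fr1_conj_exp]
    congr 1
    ring
  obtain ⟨-, hf⟩ := sharp_Hol_rev hcont.continuousOn ht hs
  have hdf := det_Hol hcont.continuousOn ht (1/2) hhalf
  have hP : (Φ ((c + R : ℝ) : ℂ)).det = 1 := by
    refine h.det _ ?_
    rw [← e0]
    exact hO 0 ⟨le_rfl, by norm_num⟩
  rw [arcR, arcR, key, sharp_mul, hf, adj_mul, adj_mul, adj_adj]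
  set P := Φ ((c + R : ℝ) : ℂ)
  set T := Hol (aC g d c R) 1
  set f := Hol (aC g d c R) (1/2)
  calc P * f * (adj f * T * adj (sharp P)) = P * (f * adj f) * T * adj (sharp P) := by
        simp only [mul_assoc]
    _ = P * T * (adj P * P) * adj (sharp P) := by
        rw [mul_adj_of_det hdf, adj_mul_of_det hP, mul_one, mul_one]
    _ = P * T * adj P * (P * adj (sharp P)) := by simp only [mul_assoc]

lemma Fr1_exp_deriv (c L r : ℝ) : HasDerivAt (fun r : ℝ => ((c * Real.exp (r * L) : ℝ) : ℂ))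
    ((L * (c * Real.exp (r * L)) : ℝ) : ℂ) r := by
  have h1 : HasDerivAt (fun r : ℝ => c * Real.exp (r * L)) (L * (c * Real.exp (r * L))) r := by
    have := (((hasDerivAt_id r).mul_const L).exp).const_mul c
    exact this.congr_deriv (by simp only [id]; ring)
  exact h1.ofReal_comp

lemma Fr1_exp_bd {L r : ℝ} (hL : 0 < L) (hr : r ∈ Icc (0:ℝ) 1) :
    1 ≤ Real.exp (r * L) ∧ Real.exp (r * L) ≤ Real.exp L :=
  ⟨Real.one_le_exp (mul_nonneg hr.1 hL.le),
    Real.exp_le_exp.2 (by nlinarith [hr.1, hr.2])⟩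

theorem Frame.val_HH (h : Frame g d Ω Φ) (hg : AdmG g) (hf : Fix g d) :
    Φ ((17/16 : ℝ) : ℂ) = HH g d := by
  obtain ⟨e1, -, -⟩ := Fr1_eps hg
  obtain ⟨h0, h1⟩ := hg.2.1
  have hL := La1_pos hg
  have hE : Real.exp (La1 g) = 1 / (16 * ee g) := Real.exp_log (by positivity)
  have hu : ∀ r ∈ Icc (0:ℝ) 1, ee g ≤ ee g * Real.exp (r * La1 g) ∧
      ee g * Real.exp (r * La1 g) ≤ 1/16 := by
    intro r hr
    obtain ⟨b1, b2⟩ := Fr1_exp_bd hL hr
    refine ⟨le_mul_of_one_le_right h0.le b1, ?_⟩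
    calc ee g * Real.exp (r * La1 g) ≤ ee g * (1 / (16 * ee g)) := by rw [← hE]; gcongr
      _ = 1/16 := by field_simp
  have hn : ∀ r ∈ Icc (0:ℝ) 1, ‖((ee g * Real.exp (r * La1 g) : ℝ) : ℂ)‖ =
      ee g * Real.exp (r * La1 g) := fun r hr => by
    rw [Complex.norm_real, Real.norm_of_nonneg (by linarith [(hu r hr).1])]
  have hγ : ∀ r : ℝ, HasDerivAt (fun r : ℝ => 1 + ((ee g * Real.exp (r * La1 g) : ℝ) : ℂ))
      ((La1 g * (ee g * Real.exp (r * La1 g)) : ℝ) : ℂ) r := fun r =>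
    (Fr1_exp_deriv _ _ r).const_add 1
  have hO : ∀ r ∈ Icc (0:ℝ) 1, 1 + ((ee g * Real.exp (r * La1 g) : ℝ) : ℂ) ∈ Ω := by
    intro r hr
    refine h.up _ (neck_subset_Dom hg ?_ ?_) ?_
    · rw [hn r hr]; linarith [(hu r hr).1]
    · rw [hn r hr]; linarith [(hu r hr).2]
    · rw [add_im, one_im, ofReal_im, add_zero]
  have key := frame_path h.ode (right_mem_Icc.2 zero_le_one) hγ hO
    (continuous_aH (d := d) hg).continuousOn (fun r hr => by
      have hne : ((ee g * Real.exp (r * La1 g) : ℝ) : ℂ) ≠ 0 :=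
        Complex.ofReal_ne_zero.2 (by positivity)
      rw [aH, Th_eq hg hf hne (by rw [hn r hr]; linarith [(hu r hr).2]), smul_smul, smul_smul]
      congr 1
      push_cast
      ring) 1 (right_mem_Icc.2 zero_le_one)
  have e0 : 1 + ((ee g * Real.exp (0 * La1 g) : ℝ) : ℂ) = 1 + ee g := by simp
  have e2 : 1 + ((ee g * Real.exp (1 * La1 g) : ℝ) : ℂ) = ((17/16 : ℝ) : ℂ) := by
    have : ee g * Real.exp (1 * La1 g) = 1/16 := by
      rw [one_mul, hE]; field_simp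
    rw [this]; push_cast; norm_num
  simp only [e0, e2] at key
  rw [key, h.base, one_mul, HH]

theorem Frame.val_Phi (h : Frame g d Ω Φ) (hg : AdmG g) (hf : Fix g d) :
    Φ ((1 / (16 * qq g) : ℝ) : ℂ) = Phi g d := by
  obtain ⟨-, e2, -⟩ := Fr1_eps hg
  obtain ⟨h0, h1⟩ := hg.2.2.1
  obtain ⟨⟨-, p0⟩, ⟨-, p1⟩, -, p2⟩ := hg.2.2.2
  have hL := La_pos hg
  have hE : Real.exp (La g) = 1 / (17 * qq g) := Real.exp_log (by positivity)
  have hO : ∀ r ∈ Icc (0:ℝ) 1, ((17/16 * Real.exp (r * La g) : ℝ) : ℂ) ∈ Ω := by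
    intro r hr
    obtain ⟨b1, b2⟩ := Fr1_exp_bd hL hr
    have b3 : qq g * Real.exp (r * La g) ≤ 1/17 :=
      calc qq g * Real.exp (r * La g) ≤ qq g * (1 / (17 * qq g)) := by rw [← hE]; gcongr
        _ = 1/17 := by field_simp
    refine Fr1_real_mem h ?_
    have hn : ‖((17/16 * Real.exp (r * La g) : ℝ) : ℂ)‖ = 17/16 * Real.exp (r * La g) := by
      rw [Complex.norm_real, Real.norm_of_nonneg (by positivity)]
    refine ⟨by rw [hn]; linarith, by rw [hn]; linarith, ?_, fun j hj => ?_⟩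
    · rw [← Complex.ofReal_one, ← Complex.ofReal_sub, Complex.norm_real,
        Real.norm_of_nonneg (by linarith)]
      linarith
    · have hj' := Complex.ofReal_injective hj
      have hp : pp g j ≤ 2/3 := by
        fin_cases j
        · exact p0
        · exact p1.trans (by norm_num)
        · exact p2.trans (by norm_num)
      linarith
  have key := frame_path h.ode (right_mem_Icc.2 zero_le_one) (Fr1_exp_deriv (17/16) (La g)) hO
    (continuousOn_aL (d := d) hg) (fun r hr => by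
      rw [aL, smul_smul]
      congr 1
      push_cast
      ring) 1 (right_mem_Icc.2 zero_le_one)
  have e0 : (17/16 * Real.exp (0 * La g) : ℝ) = 17/16 := by simp
  have e2 : (17/16 * Real.exp (1 * La g) : ℝ) = 1 / (16 * qq g) := by
    rw [one_mul, hE]; field_simp
  simp only [e0, e2] at key
  rw [key, h.val_HH hg hf, Phi]

end Pool.Agent.MP_efb2da_gt
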