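import Pool.Agent.MP_efb2da_gt.GlueD

/-! The `k`-fold cyclic branched cover on which the surface is defined. -/

open scoped Manifold ContDiff ComplexConjugate Topology
open Set Complex

noncomputable section

namespace Pool.Agent.MP_efb2da_gt

/-- `e^{2πi/k}` -/
def rt (k : ℕ) : ℂ := exp (2 * Real.pi * I / k)

/-- label of the real arc containing `x` -/
def lab (p : Fin 3 → ℝ) (x : ℝ) : ℕ :=
  if 1 < x then 0 else if p 0 < x then 1 else if 0 < x then 0 else if p 2 < x then 1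
  else if p 1 < x then 0 else 1

/-- orientation of the puncture -/
def sg : Fin 3 → ℤ := ![-1, 1, -1]
/-- label of the arc to the right of the puncture -/
def lr : Fin 3 → ℕ := ![1, 0, 1]

/-- regular region -/
def Rg (ε q : ℝ) (p : Fin 3 → ℝ) : Set ℂ :=
  {z | √q / 2 < ‖z‖ ∧ ‖z‖ < 2 / √q ∧ ε / 2 < ‖z - 1‖ ∧ ∀ j, z ≠ p j}

structure SurfData where
  k : ℕ
  ε : ℝ
  q : ℝ
  p : Fin 3 → ℝ
  f : ℂ → E3
  X : Fin 3 → ℂ → E3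
  Y : ℂ → E3
  hk : 3 ≤ k
  ε0 : 0 < ε
  ε1 : ε ≤ 1/64
  q0 : 0 < q
  q1 : q ≤ 1/4096
  adm : AdmP p
  cmc : ∀ z ∈ Rg ε q p, 0 ≤ z.im → ∀ᶠ w in 𝓝 z, CMCAt f w
  refl : ∀ x : ℝ, (x:ℂ) ∈ Rg ε q p →
    ∀ᶠ z in 𝓝 (x:ℂ), f z = Rot (rt k ^ lab p x) (Refl (f (conj z)))
  per : ∀ z : ℂ, 0 ≤ z.im → 1 / (2 * √q) < ‖z‖ → ‖z‖ < 2 / √q → f (q * z) = f z
  X_cmc : ∀ j w, ‖w‖ ^ k < 1/16 → CMCAt (X j) w
  X_eq : ∀ j (ζ : ℂ), Real.exp ζ.re < 1/16 → 0 ≤ ζ.im → ζ.im ≤ Real.pi →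
    X j (exp (ζ / k)) = f (p j + exp ζ)
  X_rot : ∀ j w, ‖w‖ ^ k < 1/16 → X j (rt k * w) = Rot (rt k ^ sg j) (X j w)
  X_refl : ∀ j w, ‖w‖ ^ k < 1/16 → X j (conj w) = Rot (rt k ^ lr j) (Refl (X j w))
  Y_cmc : ∀ ζ : ℂ, |ζ.re| < 1/2 → CMCAt Y ζ
  Y_eq : ∀ ζ : ℂ, |ζ.re| < 1/2 → 0 ≤ ζ.im → ζ.im ≤ Real.pi → Y ζ = f (1 + ε * exp ζ)
  Y_rot : ∀ ζ : ℂ, |ζ.re| < 1/2 → Y (ζ + 2 * Real.pi * I) = Rot (rt k) (Y ζ)
  Y_refl : ∀ ζ : ℂ, |ζ.re| < 1/2 → Y (conj ζ) = Refl (Y ζ)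
  Y_inj : InjOn (fun θ : ℝ => Y (θ * I)) (Ico 0 (2 * Real.pi * k))

/-- unsigned argument -/
def ang (w : ℂ) : ℝ := Real.arccos (w.re / ‖w‖)
/-- cut-off: `1` on `[1/16, 16]`, `0` off `(1/32, 32)` -/
def chi (r : ℝ) : ℝ := max 0 (min 1 (min (32 * r - 1) (2 - r / 16)))
def sgn (z : ℂ) : ℝ := if 0 ≤ z.im then 1 else -1

namespace SurfData
variable (D : SurfData)

def an (z : ℂ) : ℝ :=
  ang z + chi ‖z‖ * (ang (z - 1) + ang (z - D.p 1) - ang (z - D.p 0) - ang (z - D.p 2))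
def md (z : ℂ) : ℝ := (∏ j, min 1 (16 * ‖z - D.p j‖)) ^ (1 / (D.k : ℝ))
def et (z : ℂ) : ℂ := D.md z * exp (I * (sgn z * D.an z / D.k : ℝ))

/-- base region -/
def Base : Set ℂ := {z | √D.q / 2 < ‖z‖ ∧ ‖z‖ < 2 / √D.q ∧ D.ε ≤ ‖z - 1‖}

/-- the cover before closing the handle -/
def Et : Set (ℂ × ℂ) := {x | x.1 ∈ D.Base ∧ ∃ o : ℂ, o ^ D.k = 1 ∧ x.2 = o * D.et x.1}

open Classical in
def F (x : ℂ × ℂ) : E3 :=
  if h : ∃ j, x.1 = D.p j then D.X h.choose 0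
  else if 0 ≤ x.1.im then Rot (x.2 / D.et x.1) (D.f x.1)
  else Rot (x.2 / D.et x.1) (Refl (D.f (conj x.1)))

def FE (x : D.Et) : E3 := D.F x.1
def bdE : Set D.Et := {x | ‖x.1.1 - 1‖ = D.ε}

/-- the part of the angle function that is regular at the real point `P` -/
def bb (P : ℝ) (l : ℕ) (σ : ℤ) (z : ℂ) : ℝ := D.an z - (Real.pi * l + σ * ang (z - P))

/-- fibre coordinate on the universal cover of a punctured neighbourhood of `P` -/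
def eta (P : ℝ) (l : ℕ) (σ : ℤ) (c : ℝ) (ζ : ℂ) : ℂ :=
  D.md (P + c * exp ζ) * exp (I * ((Real.pi * l + σ * ζ.im) / D.k : ℝ)) *
    exp (I * (sgn (P + c * exp ζ) * D.bb P l σ (P + c * exp ζ) / D.k : ℝ))

end SurfData

end Pool.Agent.MP_efb2da_gt
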