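import Pool.Agent.MP_efb2da_gt.Fr1
import Pool.Agent.MP_efb2da_gt.Surf0

open Set Complex
open scoped Topology ComplexConjugate Matrix ContDiff

noncomputable section

namespace Pool.Agent.MP_efb2da_gt

section aux

variable {g : Geo} {d : Dat} {Ω : Set ℂ} {Φ : ℂ → MW}

lemma Fr2_mem_iff {x : ℝ} : (x : ℂ) ∈ Dom g ↔ 8 * qq g < |x| ∧ 8 * qq g * |x| < 1 ∧
    8 * ee g ^ 2 < |x - 1| ∧ x ≠ pp g 0 ∧ x ≠ pp g 1 ∧ x ≠ pp g 2 := by
  have e1 : ‖(x : ℂ)‖ = |x| := by rw [Complex.norm_real, Real.norm_eq_abs]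
  have e2 : ‖(x : ℂ) - 1‖ = |x - 1| := by
    rw [← Complex.ofReal_one, ← Complex.ofReal_sub, Complex.norm_real, Real.norm_eq_abs]
  unfold Dom
  rw [mem_ofPred_eq, e1, e2]
  simp only [ne_eq, Complex.ofReal_inj, Fin.forall_fin_succ, IsEmpty.forall_iff, and_true]
  rfl

lemma Fr2_A0 (hg : AdmG g) {x : ℝ} (h1 : 1 + 8 * ee g ^ 2 < x) (h2 : 8 * qq g * x < 1) :
    (x : ℂ) ∈ Dom g := by
  obtain ⟨e1, e2, e3⟩ := Fr1_eps hg
  obtain ⟨-, -, ⟨q0, q1⟩, ⟨a0, b0⟩, ⟨a1, b1⟩, a2, b2⟩ := hg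
  rw [Fr2_mem_iff, abs_of_pos (by linarith), abs_of_pos (by linarith)]
  refine ⟨by linarith, h2, by linarith, ?_, ?_, ?_⟩ <;> (intro h; linarith)

lemma Fr2_A1 (hg : AdmG g) {x : ℝ} (h1 : pp g 0 < x) (h2 : x < 1 - 8 * ee g ^ 2) :
    (x : ℂ) ∈ Dom g := by
  obtain ⟨e1, e2, e3⟩ := Fr1_eps hg
  obtain ⟨-, -, ⟨q0, q1⟩, ⟨a0, b0⟩, ⟨a1, b1⟩, a2, b2⟩ := hg
  rw [Fr2_mem_iff, abs_of_pos (by linarith), abs_of_neg (by linarith)]
  refine ⟨by linarith, by nlinarith, by linarith, ?_, ?_, ?_⟩ <;> (intro h; linarith)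

lemma Fr2_A2 (hg : AdmG g) {x : ℝ} (h1 : 8 * qq g < x) (h2 : x < pp g 0) :
    (x : ℂ) ∈ Dom g := by
  obtain ⟨e1, e2, e3⟩ := Fr1_eps hg
  obtain ⟨-, -, ⟨q0, q1⟩, ⟨a0, b0⟩, ⟨a1, b1⟩, a2, b2⟩ := hg
  rw [Fr2_mem_iff, abs_of_pos (by linarith), abs_of_neg (by linarith)]
  refine ⟨by linarith, by nlinarith, by linarith, ?_, ?_, ?_⟩ <;> (intro h; linarith)

lemma Fr2_A3 (hg : AdmG g) {x : ℝ} (h1 : pp g 2 < x) (h2 : x < -(8 * qq g)) :
    (x : ℂ) ∈ Dom g := by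
  obtain ⟨e1, e2, e3⟩ := Fr1_eps hg
  obtain ⟨-, -, ⟨q0, q1⟩, ⟨a0, b0⟩, ⟨a1, b1⟩, a2, b2⟩ := hg
  rw [Fr2_mem_iff, abs_of_neg (by linarith), abs_of_neg (by linarith)]
  refine ⟨by linarith, by nlinarith, by linarith, ?_, ?_, ?_⟩ <;> (intro h; linarith)

lemma Fr2_A4 (hg : AdmG g) {x : ℝ} (h1 : pp g 1 < x) (h2 : x < pp g 2) :
    (x : ℂ) ∈ Dom g := by
  obtain ⟨e1, e2, e3⟩ := Fr1_eps hg
  obtain ⟨-, -, ⟨q0, q1⟩, ⟨a0, b0⟩, ⟨a1, b1⟩, a2, b2⟩ := hg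
  rw [Fr2_mem_iff, abs_of_neg (by linarith), abs_of_neg (by linarith)]
  refine ⟨by linarith, by nlinarith, by linarith, ?_, ?_, ?_⟩ <;> (intro h; linarith)

lemma Fr2_A5 (hg : AdmG g) {x : ℝ} (h1 : 8 * qq g * -x < 1) (h2 : x < pp g 1) :
    (x : ℂ) ∈ Dom g := by
  obtain ⟨e1, e2, e3⟩ := Fr1_eps hg
  obtain ⟨-, -, ⟨q0, q1⟩, ⟨a0, b0⟩, ⟨a1, b1⟩, a2, b2⟩ := hg
  rw [Fr2_mem_iff, abs_of_neg (by linarith), abs_of_neg (by linarith)]
  refine ⟨by linarith, h1, by linarith, ?_, ?_, ?_⟩ <;> (intro h; linarith)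

lemma Fr2_lo {a b x c : ℝ} (hx : x ∈ uIcc a b) (ha : c < a) (hb : c < b) : c < x := by
  rcases mem_uIcc.1 hx with h | h <;> linarith [h.1]

lemma Fr2_hi {a b x c : ℝ} (hx : x ∈ uIcc a b) (ha : a < c) (hb : b < c) : x < c := by
  rcases mem_uIcc.1 hx with h | h <;> linarith [h.2]

lemma Fr2_mul {a b x c : ℝ} (hx : x ∈ uIcc a b) (ha : c * a < 1) (hb : c * b < 1) :
    c * x < 1 := by
  rcases le_total 0 c with hc | hc <;> rcases mem_uIcc.1 hx with h | h <;>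
    nlinarith [h.1, h.2]

lemma Fr2_base (h : Frame g d Ω Φ) : Φ ((1 + ee g : ℝ) : ℂ) = 1 := by
  rw [Complex.ofReal_add, Complex.ofReal_one, h.base]

lemma Fr2_v0 (h : Frame g d Ω Φ) (hg : AdmG g) (hd : Str d) {x : ℝ}
    (h1 : 1 + 8 * ee g ^ 2 < x) (h2 : 8 * qq g * x < 1) : arcR Φ x = 1 := by
  obtain ⟨e1, e2, e3⟩ := Fr1_eps hg
  obtain ⟨q0, q1⟩ := hg.2.2.1
  obtain ⟨ε0, ε1⟩ := hg.2.1
  rw [h.arc_const hg hd (a := x) (b := 1 + ee g) fun y hy =>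
    Fr2_A0 hg (Fr2_lo hy h1 (by linarith)) (Fr2_mul hy h2 (by nlinarith))]
  rw [arcR, Fr2_base h, sharp_one, adj_one, one_mul]

lemma Fr2_aC (hg : AdmG g) (hf : Fix g d) : aC g d 1 (ee g) = a1 g d := by
  obtain ⟨ε0, ε1⟩ := hg.2.1
  funext r
  have hn : ‖(ee g : ℂ) * exp (2 * Real.pi * I * r)‖ = ee g := by
    rw [norm_mul, Pot2_norm_exp, mul_one, Complex.norm_real, Real.norm_of_nonneg ε0.le]
  have hne : (ee g : ℂ) * exp (2 * Real.pi * I * r) ≠ 0 := by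
    intro h0
    rw [h0, norm_zero] at hn
    linarith
  rw [aC, a1, Th_eq hg hf hne (by rw [hn]; linarith), smul_smul, Complex.ofReal_one]
  congr 1
  ring

lemma Fr2_v1 (h : Frame g d Ω Φ) (hg : AdmG g) (hd : Str d) (hf : Fix g d) {x : ℝ}
    (h1 : pp g 0 < x) (h2 : x < 1 - 8 * ee g ^ 2) : arcR Φ x = R1 g d := by
  obtain ⟨e1, e2, e3⟩ := Fr1_eps hg
  obtain ⟨q0, q1⟩ := hg.2.2.1
  obtain ⟨ε0, ε1⟩ := hg.2.1
  have b0 := hg.2.2.2.1.2
  rw [h.arc_const hg hd (a := x) (b := 1 - ee g) fun y hy =>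
    Fr2_A1 hg (Fr2_lo hy h1 (by linarith)) (Fr2_hi hy h2 (by linarith))]
  have hc : ∀ r : ℝ, (((1:ℝ) : ℂ) + (ee g : ℝ) * exp (2 * Real.pi * I * r)) ∈ Dom g := by
    intro r
    have hn : ‖(ee g : ℂ) * exp (2 * Real.pi * I * r)‖ = ee g := by
      rw [norm_mul, Pot2_norm_exp, mul_one, Complex.norm_real, Real.norm_of_nonneg ε0.le]
    rw [Complex.ofReal_one]
    exact neck_subset_Dom hg (by rw [hn]; exact e1) (by rw [hn]; linarith)
  rw [(h.circle hg hd ε0 hc).2, Fr2_base h, Fr2_aC hg hf,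
    Fr2_v0 h hg hd (by linarith) (by nlinarith), adj_one, one_mul, mul_one, mul_one, R1]

lemma Fr2_circ (h : Frame g d Ω Φ) (hg : AdmG g) (hd : Str d) (hf : Fix g d) (i : Fin 3) :
    Φ ((cen i - rad i : ℝ) : ℂ) = HH g d * TT g d i (1/2) ∧
      arcR Φ (cen i - rad i) = RR g d i := by
  obtain ⟨e1, e2, e3⟩ := Fr1_eps hg
  obtain ⟨q0, q1⟩ := hg.2.2.1
  have key := h.circle hg hd (Pot2_rad_pos i) (circle_mem_Dom hg i)
  rw [cen_add_rad, h.val_HH hg hf, Fr2_v0 h hg hd (x := 17/16) (by linarith) (by linarith),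
    mul_one] at key
  exact key

lemma Fr2_c0 : cen 0 - rad 0 = 1/16 := by
  simp only [cen, rad, Matrix.cons_val_zero]; norm_num
lemma Fr2_c1 : cen 1 - rad 1 = -4/5 := by
  simp only [cen, rad, Matrix.cons_val_one, Matrix.cons_val_zero]; norm_num
lemma Fr2_c2 : cen 2 - rad 2 = -2 := by
  simp only [cen, rad, Matrix.cons_val]; norm_num

lemma Fr2_v2 (h : Frame g d Ω Φ) (hg : AdmG g) (hd : Str d) (hf : Fix g d) {x : ℝ}
    (h1 : 8 * qq g < x) (h2 : x < pp g 0) : arcR Φ x = RR g d 0 := by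
  obtain ⟨q0, q1⟩ := hg.2.2.1
  have b0 := hg.2.2.2.1.1
  rw [h.arc_const hg hd (a := x) (b := 1/16) fun y hy =>
    Fr2_A2 hg (Fr2_lo hy h1 (by linarith)) (Fr2_hi hy h2 (by linarith)), ← Fr2_c0]
  exact (Fr2_circ h hg hd hf 0).2

lemma Fr2_v3 (h : Frame g d Ω Φ) (hg : AdmG g) (hd : Str d) {x : ℝ}
    (h1 : pp g 2 < x) (h2 : x < -(8 * qq g)) : arcR Φ x = arcR Φ (-1/16) := by
  obtain ⟨q0, q1⟩ := hg.2.2.1
  have b0 := hg.2.2.2.2.2.2
  exact h.arc_const hg hd fun y hy =>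
    Fr2_A3 hg (Fr2_lo hy h1 (by linarith)) (Fr2_hi hy h2 (by linarith))

lemma Fr2_v4 (h : Frame g d Ω Φ) (hg : AdmG g) (hd : Str d) (hf : Fix g d) {x : ℝ}
    (h1 : pp g 1 < x) (h2 : x < pp g 2) : arcR Φ x = RR g d 1 := by
  have b0 := hg.2.2.2.2.1.2
  have b1 := hg.2.2.2.2.2.1
  rw [h.arc_const hg hd (a := x) (b := -4/5) fun y hy =>
    Fr2_A4 hg (Fr2_lo hy h1 (by linarith)) (Fr2_hi hy h2 (by linarith)), ← Fr2_c1]
  exact (Fr2_circ h hg hd hf 1).2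

lemma Fr2_v5 (h : Frame g d Ω Φ) (hg : AdmG g) (hd : Str d) (hf : Fix g d) {x : ℝ}
    (h1 : 8 * qq g * -x < 1) (h2 : x < pp g 1) : arcR Φ x = RR g d 2 := by
  obtain ⟨q0, q1⟩ := hg.2.2.1
  have b0 := hg.2.2.2.2.1.1
  rw [h.arc_const hg hd (a := x) (b := -2) fun y hy =>
    Fr2_A5 hg (by
      have := Fr2_mul (c := -(8 * qq g)) hy (by linarith) (by linarith)
      linarith) (Fr2_hi hy h2 (by linarith)), ← Fr2_c2]
  exact (Fr2_circ h hg hd hf 2).2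

lemma Fr2_val (h : Frame g d Ω Φ) (hg : AdmG g) (hd : Str d) (hf : Fix g d) (x : ℝ)
    (hx : (x : ℂ) ∈ Dom g) : arcR Φ x = arcVal g d (arcR Φ (-1/16)) x := by
  obtain ⟨m1, m2, m3, m4, m5, m6⟩ := Fr2_mem_iff.1 hx
  obtain ⟨e1, e2, e3⟩ := Fr1_eps hg
  obtain ⟨q0, q1⟩ := hg.2.2.1
  obtain ⟨⟨a0, b0⟩, ⟨a1, b1⟩, a2, b2⟩ := hg.2.2.2
  unfold arcVal
  split_ifs with c0 c1 c2 c3 c4
  · rw [abs_of_pos (by linarith)] at m2 m3
    exact Fr2_v0 h hg hd (by linarith) m2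
  · rw [abs_of_nonpos (by linarith)] at m3
    exact Fr2_v1 h hg hd hf c1 (by linarith)
  · rw [abs_of_pos c2] at m1
    exact Fr2_v2 h hg hd hf m1 (lt_of_le_of_ne (not_lt.1 c1) m4)
  · rw [abs_of_nonpos (by linarith)] at m1
    exact Fr2_v3 h hg hd c3 (by linarith)
  · exact Fr2_v4 h hg hd hf c4 (lt_of_le_of_ne (not_lt.1 c3) m6)
  · rw [abs_of_nonpos (by linarith)] at m2
    exact Fr2_v5 h hg hd hf m2 (lt_of_le_of_ne (not_lt.1 c4) m5)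

lemma Fr2_p (hg : AdmG g) (j : Fin 3) : 1/4 ≤ ‖(pp g j : ℂ)‖ ∧ ‖(pp g j : ℂ)‖ ≤ 11/10 := by
  obtain ⟨⟨a0, b0⟩, ⟨a1, b1⟩, a2, b2⟩ := hg.2.2.2
  rw [Complex.norm_real, Real.norm_eq_abs]
  fin_cases j
  · change 1/4 ≤ |pp g 0| ∧ |pp g 0| ≤ 11/10
    rw [abs_of_pos (by linarith)]; constructor <;> linarith
  · change 1/4 ≤ |pp g 1| ∧ |pp g 1| ≤ 11/10
    rw [abs_of_neg (by linarith)]; constructor <;> linarith
  · change 1/4 ≤ |pp g 2| ∧ |pp g 2| ≤ 11/10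
    rw [abs_of_neg (by linarith)]; constructor <;> linarith

lemma Fr2_ann (hg : AdmG g) {z : ℂ} (h1 : 8 < ‖z‖) (h2 : 8 * qq g * ‖z‖ < 1) :
    z ∈ Dom g ∧ (qq g : ℂ) * z ∈ Dom g := by
  obtain ⟨e1, e2, e3⟩ := Fr1_eps hg
  obtain ⟨q0, q1⟩ := hg.2.2.1
  have hq := Pot1_q_mul hg z
  refine ⟨⟨by linarith, h2, ?_, fun j hj => ?_⟩, ⟨by rw [hq]; nlinarith, by rw [hq]; nlinarith,
    ?_, fun j hj => ?_⟩⟩
  · have := norm_sub_norm_le z 1
    rw [norm_one] at this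
    linarith
  · have := (Fr2_p hg j).2
    rw [← hj] at this
    linarith
  · have := norm_sub_norm_le 1 ((qq g : ℂ) * z)
    rw [norm_one, hq, norm_sub_rev] at this
    linarith
  · have := (Fr2_p hg j).1
    rw [← hj, hq] at this
    linarith

lemma Fr2_half (a b : ℝ) (ha : 0 ≤ a) :
    IsPreconnected {z : ℂ | 0 ≤ z.im ∧ a < ‖z‖ ∧ ‖z‖ < b} := by
  have e : {z : ℂ | 0 ≤ z.im ∧ a < ‖z‖ ∧ ‖z‖ < b} =
      (fun x : ℝ × ℝ => (x.1 : ℂ) * exp (x.2 * I)) '' (Ioo a b ×ˢ Icc 0 Real.pi) := by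
    ext z
    constructor
    · rintro ⟨h1, h2, h3⟩
      exact ⟨(‖z‖, arg z), ⟨⟨h2, h3⟩, Complex.arg_nonneg_iff.2 h1, Complex.arg_le_pi z⟩,
        Complex.norm_mul_exp_arg_mul_I z⟩
    · rintro ⟨⟨r, θ⟩, ⟨⟨h1, h2⟩, h3, h4⟩, rfl⟩
      have hr : 0 ≤ r := ha.trans (le_of_lt h1)
      have hn : ‖(r : ℂ) * exp (θ * I)‖ = r := by
        rw [norm_mul, Complex.norm_exp_ofReal_mul_I, mul_one, Complex.norm_real,
          Real.norm_of_nonneg hr]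
      refine ⟨?_, by rw [hn]; exact h1, by rw [hn]; exact h2⟩
      change 0 ≤ ((r : ℂ) * exp (θ * I)).im
      rw [Complex.im_ofReal_mul, Complex.exp_ofReal_mul_I_im]
      exact mul_nonneg hr (Real.sin_nonneg_of_nonneg_of_le_pi h3 h4)
  rw [e]
  exact (isPreconnected_Ioo.prod isPreconnected_Icc).image _ (by fun_prop)

lemma Fr2_per (h : Frame g d Ω Φ) (hg : AdmG g) (hd : Str d) (hf : Fix g d) {L : MW}
    (hL : Php g d * GG d = L * Phi g d) (z : ℂ) (h0 : 0 ≤ z.im) (h1 : 8 < ‖z‖)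
    (h2 : 8 * qq g * ‖z‖ < 1) : Φ (qq g * z) * GG d = L * Φ z := by
  obtain ⟨q0, q1⟩ := hg.2.2.1
  have h8 : 0 < 8 * qq g := by linarith
  have hb : ∀ w : ℂ, ‖w‖ < 1 / (8 * qq g) ↔ 8 * qq g * ‖w‖ < 1 := fun w => by
    rw [lt_div_iff₀ h8, mul_comm]
  have hO : IsOpen {w : ℂ | w ∈ Ω ∧ (qq g : ℂ) * w ∈ Ω ∧ 8 < ‖w‖ ∧ 8 * qq g * ‖w‖ < 1} :=
    h.opn.inter ((h.opn.preimage (continuous_const.mul continuous_id)).inter
      ((isOpen_lt continuous_const continuous_norm).inter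
        (isOpen_lt (continuous_const.mul continuous_norm) continuous_const)))
  have hw : ‖((1 / (16 * qq g) : ℝ) : ℂ)‖ = 1 / (16 * qq g) := by
    rw [Complex.norm_real, Real.norm_of_nonneg (by positivity)]
  refine frame_ratio (Φ := fun w => Φ (qq g * w) * GG d) (Ψ := Φ)
    (ξ := fun w => (tt g : ℂ) • Xi g d w) hO ?_ (fun w hw => ?_) (fun w hw => h.ode w hw.1)
    (Fr2_half 8 (1 / (8 * qq g)) (by norm_num)) (fun w hw => ?_)
    (w := ((1 / (16 * qq g) : ℝ) : ℂ)) ⟨by rw [Complex.ofReal_im], ?_, ?_⟩ ?_ z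
    ⟨h0, h1, (hb z).2 h2⟩
  · exact (((Xi_differentiableOn hg hd).const_smul (tt g : ℂ)).continuousOn).mono
      fun w hw => h.sub hw.1
  · have d1 : HasDerivAt (fun w : ℂ => (qq g : ℂ) * w) (qq g : ℂ) w := by
      simpa using (hasDerivAt_id w).const_mul (qq g : ℂ)
    have d2 := ((h.ode _ hw.2.1).scomp w d1).mul_const (GG d)
    refine d2.congr_deriv ?_
    rw [← mul_smul_comm, smul_comm, Xi_per hg hf hw.2.2.1.le hw.2.2.2.le]
    simp only [mul_smul_comm, smul_mul_assoc, mul_assoc, adj_mul_of_det hf.detG, mul_one]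
  · obtain ⟨a1, a2⟩ := Fr2_ann hg hw.2.1 ((hb w).1 hw.2.2)
    refine ⟨h.up _ a1 hw.1, h.up _ a2 ?_, hw.2.1, (hb w).1 hw.2.2⟩
    rw [Complex.im_ofReal_mul]
    exact mul_nonneg q0.le hw.1
  · rw [hw, lt_div_iff₀ (by positivity)]
    linarith
  · rw [hw]
    exact one_div_lt_one_div_of_lt h8 (by linarith)
  · have e : (qq g : ℂ) * ((1 / (16 * qq g) : ℝ) : ℂ) = ((cen 0 - rad 0 : ℝ) : ℂ) := by
      rw [Fr2_c0, ← Complex.ofReal_mul]
      congr 1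
      field_simp
    change Φ _ * _ = _
    rw [e, (Fr2_circ h hg hd hf 0).1, h.val_Phi hg hf]
    exact hL

lemma Fr2_shift (hd : Str d) (hf : Fix g d) {L : MW} {x y : ℝ}
    (e : Φ y * GG d = L * Φ x) : arcR Φ y = L * arcR Φ x * adj (sharp L) := by
  have e1 : Φ y = L * Φ x * adj (GG d) := by
    rw [← e, mul_assoc, mul_adj_of_det hf.detG, mul_one]
  rw [arcR, arcR, e1, sharp_mul, sharp_mul, sharp_adj, hd.realG, adj_mul, adj_mul, adj_adj]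
  calc L * Φ x * adj (GG d) * (GG d * (adj (sharp (Φ x)) * adj (sharp L)))
      = L * Φ x * (adj (GG d) * GG d) * (adj (sharp (Φ x)) * adj (sharp L)) := by
        simp only [mul_assoc]
    _ = _ := by rw [adj_mul_of_det hf.detG]; simp only [mul_assoc, mul_one]

end aux

theorem Sol.arcs {η N : ℝ} {As : Fin 5 → MW} (S : Sol η N As) {Ω : Set ℂ} {Φ : ℂ → MW}
    (h : Frame S.g S.d Ω Φ) : ∃ R5, Arcs S Φ R5 := by
  obtain ⟨L, hL, he⟩ := S.cL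
  have hg := S.adm
  obtain ⟨e1, e2, e3⟩ := Fr1_eps hg
  obtain ⟨q0, q1⟩ := hg.2.2.1
  obtain ⟨⟨a0, b0⟩, ⟨a1, b1⟩, a2, b2⟩ := hg.2.2.2
  have per := Fr2_per h hg S.str S.fix he
  have hu : qq S.g * (1 / (16 * qq S.g)) = 1/16 := by field_simp
  have hu8 : 8 < 1 / (16 * qq S.g) := by
    rw [lt_div_iff₀ (by positivity)]
    linarith
  have hp : Φ ((1/16 : ℝ) : ℂ) * GG S.d = L * Φ ((1 / (16 * qq S.g) : ℝ) : ℂ) := by
    have hn : ‖((1 / (16 * qq S.g) : ℝ) : ℂ)‖ = 1 / (16 * qq S.g) := by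
      rw [Complex.norm_real, Real.norm_of_nonneg (by linarith)]
    rw [← per _ (by rw [Complex.ofReal_im]) (by rw [hn]; exact hu8) (by rw [hn]; linarith),
      ← Complex.ofReal_mul, hu]
  have hm : Φ ((-1/16 : ℝ) : ℂ) * GG S.d = L * Φ ((-(1 / (16 * qq S.g)) : ℝ) : ℂ) := by
    have hn : ‖((-(1 / (16 * qq S.g)) : ℝ) : ℂ)‖ = 1 / (16 * qq S.g) := by
      rw [Complex.norm_real, norm_neg, Real.norm_of_nonneg (by linarith)]
    rw [← per _ (by rw [Complex.ofReal_im]) (by rw [hn]; exact hu8) (by rw [hn]; linarith),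
      ← Complex.ofReal_mul, mul_neg, hu, neg_div]
  have r0 := Fr2_shift S.str S.fix hp
  have r5 := Fr2_shift S.str S.fix hm
  rw [Fr2_v2 h hg S.str S.fix (by linarith) (by linarith),
    Fr2_v0 h hg S.str (by linarith) (by linarith), mul_one] at r0
  rw [Fr2_v5 (x := -(1 / (16 * qq S.g))) h hg S.str S.fix (by linarith) (by linarith)] at r5
  have hL' := hL.sharp.adj
  refine ⟨arcR Φ (-1/16), Fr2_val h hg S.str S.fix, ?_, ?_, L, hL, per⟩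
  · rw [r5]
    simpa using (hL.mul S.c4).mul hL'
  · rw [r5, r0, (hL.mul S.c4).phi_mul hL', hL.phi_mul S.c4, hL.phi_mul hL']
    ring

theorem Arcs.cl_val {η N : ℝ} {As : Fin 5 → MW} {S : Sol η N As} {Φ : ℂ → MW} {R5 : MW}
    (h : Arcs S Φ R5) (y : ℝ) :
    Cl S.x (tt S.g) (lab (pp S.g) y : ℕ) (arcVal S.g S.d R5 y) := by
  unfold lab arcVal
  split_ifs
  · exact Cl.one
  · exact S.c1
  · exact S.c2
  · exact h.c5
  · exact S.c3
  · exact S.c4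

theorem Arcs.cl_Rr {η N : ℝ} {As : Fin 5 → MW} {S : Sol η N As} {Φ : ℂ → MW} {R5 : MW}
    (h : Arcs S Φ R5) (j : Fin 3) : Cl S.x (tt S.g) (lr j : ℕ) (Rr S.g S.d R5 j) ∧
      Cl S.x (tt S.g) (sg j) (Rl S.g S.d j * adj (Rr S.g S.d R5 j)) := by
  fin_cases j
  · exact ⟨S.c1, S.c2.mul S.c1.adj⟩
  · exact ⟨S.c3, S.c4.mul S.c3.adj⟩
  · exact ⟨h.c5, S.c3.mul h.c5.adj⟩

theorem Arcs.val_cap {η N : ℝ} {As : Fin 5 → MW} {S : Sol η N As} {Φ : ℂ → MW} {R5 : MW}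
    (h : Arcs S Φ R5) (j : Fin 3) {r : ℝ} (h0 : 0 < r) (h1 : r < 1/8) :
    arcR Φ (pp S.g j - r) = Rl S.g S.d j ∧ arcR Φ (pp S.g j + r) = Rr S.g S.d R5 j := by
  have hg := S.adm
  obtain ⟨⟨a0, b0⟩, ⟨a1, b1⟩, a2, b2⟩ := hg.2.2.2
  have hD : ∀ s : ℝ, |s| = r → ((pp S.g j + s : ℝ) : ℂ) ∈ Dom S.g := by
    intro s hs
    refine ball_subset_Dom hg j ?_ fun he => ?_
    · rw [Complex.ofReal_add, add_sub_cancel_left, Complex.norm_real, Real.norm_eq_abs, hs]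
      exact h1
    · have h2 : s = 0 := by linarith [Complex.ofReal_injective he]
      rw [h2, abs_zero] at hs
      linarith
  have m1 := hD (-r) (by rw [abs_neg, abs_of_pos h0])
  rw [← sub_eq_add_neg] at m1
  rw [h.val _ m1, h.val _ (hD r (abs_of_pos h0))]
  unfold arcVal
  fin_cases j
  · change (if 1 < pp S.g 0 - r then _ else if pp S.g 0 < pp S.g 0 - r then _ else
      if 0 < pp S.g 0 - r then _ else _) = RR S.g S.d 0 ∧ (if 1 < pp S.g 0 + r then _ else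
      if pp S.g 0 < pp S.g 0 + r then _ else _) = R1 S.g S.d
    rw [if_neg (by linarith), if_neg (by linarith), if_pos (by linarith), if_neg (by linarith),
      if_pos (by linarith)]
    exact ⟨rfl, rfl⟩
  · change (if 1 < pp S.g 1 - r then _ else if pp S.g 0 < pp S.g 1 - r then _ else
      if 0 < pp S.g 1 - r then _ else if pp S.g 2 < pp S.g 1 - r then _ else
      if pp S.g 1 < pp S.g 1 - r then _ else _) = RR S.g S.d 2 ∧
      (if 1 < pp S.g 1 + r then _ else if pp S.g 0 < pp S.g 1 + r then _ else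
      if 0 < pp S.g 1 + r then _ else if pp S.g 2 < pp S.g 1 + r then _ else
      if pp S.g 1 < pp S.g 1 + r then _ else _) = RR S.g S.d 1
    rw [if_neg (by linarith), if_neg (by linarith), if_neg (by linarith), if_neg (by linarith),
      if_neg (by linarith), if_neg (by linarith), if_neg (by linarith), if_neg (by linarith),
      if_neg (by linarith), if_pos (by linarith)]
    exact ⟨rfl, rfl⟩
  · change (if 1 < pp S.g 2 - r then _ else if pp S.g 0 < pp S.g 2 - r then _ else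
      if 0 < pp S.g 2 - r then _ else if pp S.g 2 < pp S.g 2 - r then _ else
      if pp S.g 1 < pp S.g 2 - r then _ else _) = RR S.g S.d 1 ∧
      (if 1 < pp S.g 2 + r then _ else if pp S.g 0 < pp S.g 2 + r then _ else
      if 0 < pp S.g 2 + r then _ else if pp S.g 2 < pp S.g 2 + r then _ else _) = R5
    rw [if_neg (by linarith), if_neg (by linarith), if_neg (by linarith), if_neg (by linarith),
      if_pos (by linarith), if_neg (by linarith), if_neg (by linarith), if_neg (by linarith),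
      if_pos (by linarith)]
    exact ⟨rfl, rfl⟩

end Pool.Agent.MP_efb2da_gt
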