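import Pool.Agent.MP_efb2da_gt.Fr2
import Pool.Agent.MP_efb2da_gt.Est2

open Set Complex
open scoped Topology ComplexConjugate Matrix ContDiff

noncomputable section

namespace Pool.Agent.MP_efb2da_gt

/-- the potential along a small circle around a cap puncture, regular as the radius tends to `0` -/
def Fr3F (g : Geo) (d : Dat) (j : Fin 3) (ρ s : ℝ) : MW :=
  (2 * Real.pi * I * tt g : ℂ) • (AA d (cj5 j) + ((ρ : ℂ) * exp (2 * Real.pi * I * s)) •
    reg g d (cj5 j) (pp g j + ρ * exp (2 * Real.pi * I * s)))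

lemma Fr3_norm (ρ s : ℝ) : ‖(ρ : ℂ) * exp (2 * Real.pi * I * s)‖ = |ρ| := by
  have e : (2 * Real.pi * I * s : ℂ) = ((2 * Real.pi * s : ℝ) : ℂ) * I := by push_cast; ring
  rw [norm_mul, e, norm_exp_ofReal_mul_I, mul_one, norm_real, Real.norm_eq_abs]

lemma Fr3F_eq (g : Geo) (d : Dat) (j : Fin 3) {ρ : ℝ} (h : ρ ≠ 0) :
    Fr3F g d j ρ = aC g d (pp g j) ρ := by
  funext s
  have hu : (ρ : ℂ) ≠ 0 := by exact_mod_cast h
  have hv := exp_ne_zero (2 * Real.pi * I * s)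
  unfold Fr3F aC
  rw [Xi_eq_reg (cj5 j), pos_cj5, add_sub_cancel_left, smul_add, smul_add, smul_smul, smul_smul]
  congr 2
  · field_simp
  · ring

lemma Fr3F_zero (g : Geo) (d : Dat) (j : Fin 3) :
    Fr3F g d j 0 = fun _ => (2 * Real.pi * I * tt g : ℂ) • AA d (cj5 j) := by
  funext s
  simp [Fr3F]

lemma Fr3F_cont {g : Geo} {d : Dat} (hg : AdmG g) (hd : Str d) (j : Fin 3) :
    ContinuousOn (fun x : ℝ × ℝ => Fr3F g d j x.1 x.2) (Icc 0 (1/16) ×ˢ Icc 0 1) := by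
  have h1 : Continuous fun x : ℝ × ℝ => (x.1 : ℂ) * exp (2 * Real.pi * I * x.2) := by fun_prop
  have h2 : ContinuousOn (fun x : ℝ × ℝ =>
      reg g d (cj5 j) (pp g j + x.1 * exp (2 * Real.pi * I * x.2))) (Icc 0 (1/16) ×ˢ Icc 0 1) := by
    refine (reg_differentiableOn hg hd j).continuousOn.comp
      (continuous_const.add h1).continuousOn fun x hx => ?_
    rw [mem_ball_iff_norm, add_sub_cancel_left, Fr3_norm, abs_of_nonneg hx.1.1]
    linarith [hx.1.2]
  exact (continuousOn_const.add (h1.continuousOn.smul h2)).const_smul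
    (2 * Real.pi * I * tt g : ℂ)

lemma Fr3_tr_circle {η N : ℝ} {As : Fin 5 → MW} {S : Sol η N As} {Ω : Set ℂ} {Φ : ℂ → MW}
    {R5 : MW} (hF : Frame S.g S.d Ω Φ) (h : Arcs S Φ R5) (j : Fin 3) {ρ : ℝ} (h0 : 0 < ρ)
    (h1 : ρ < 1/8) : trW (Hol (aC S.g S.d (pp S.g j) ρ) 1) =
      trW (Rl S.g S.d j * adj (Rr S.g S.d R5 j)) := by
  have hc : ∀ r : ℝ, ((pp S.g j : ℂ) + ρ * exp (2 * Real.pi * I * r)) ∈ Dom S.g := fun r => by
    refine ball_subset_Dom S.adm j ?_ fun e => ?_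
    · rw [add_sub_cancel_left, Fr3_norm, abs_of_pos h0]
      exact h1
    · have := Fr3_norm ρ r
      rw [add_eq_left.1 e, norm_zero, abs_of_pos h0] at this
      exact h0.ne this
  have hm : (((pp S.g j + ρ : ℝ)) : ℂ) ∈ Ω := by
    refine hF.up _ ?_ (ofReal_im _).ge
    simpa using hc 0
  obtain ⟨e1, e2⟩ := h.val_cap j h0 h1
  have e3 := (hF.circle S.adm S.str h0 hc).2
  rw [e1, e2] at e3
  rw [e3, mul_assoc, mul_adj_of_det (h.cl_Rr j).1.det, mul_one, trW_conj, hF.det _ hm, one_mul]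

lemma Fr3_tr {η N : ℝ} {As : Fin 5 → MW} {S : Sol η N As} {Ω : Set ℂ} {Φ : ℂ → MW}
    {R5 : MW} (hF : Frame S.g S.d Ω Φ) (h : Arcs S Φ R5) (j : Fin 3) :
    trW (Rl S.g S.d j * adj (Rr S.g S.d R5 j)) =
      trW (Hol (fun _ => (2 * Real.pi * I * tt S.g : ℂ) • AA S.d (cj5 j)) 1) := by
  have h1 : ContinuousOn (fun ρ => trW (Hol (Fr3F S.g S.d j ρ) 1)) (Icc 0 (1/16)) :=
    trW.continuous.comp_continuousOn
      (continuousOn_Hol (Fr3F_cont S.adm S.str j) (right_mem_Icc.2 zero_le_one))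
  have h2 : EqOn (fun ρ => trW (Hol (Fr3F S.g S.d j ρ) 1))
      (fun _ => trW (Rl S.g S.d j * adj (Rr S.g S.d R5 j))) (Ioc 0 (1/16)) := fun ρ hρ => by
    simp only
    rw [Fr3F_eq _ _ _ hρ.1.ne', Fr3_tr_circle hF h j hρ.1 (by linarith [hρ.2])]
  have h3 := h2.of_subset_closure h1 continuousOn_const Ioc_subset_Icc_self
    (by rw [closure_Ioc (by norm_num)]) (left_mem_Icc.2 (by norm_num))
  simp only at h3
  rw [← h3, Fr3F_zero]

theorem Arcs.det_cap {η N : ℝ} {As : Fin 5 → MW} {S : Sol η N As} {Ω : Set ℂ} {Φ : ℂ → MW} {R5 : MW}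
    (hF : Frame S.g S.d Ω Φ) (h : Arcs S Φ R5) (hη : η * N ≤ 1/4) (j : Fin 3) :
    (AA S.d (cj5 j)).det = algebraMap ℂ W (-1/4) := by
  have ht : 0 < tt S.g := S.adm.1.1
  have ht' : tt S.g < 1/2 := by
    have hk : (3 : ℝ) ≤ S.k := by exact_mod_cast S.hk
    rw [S.ht]
    exact one_div_lt_one_div_of_lt two_pos (by linarith)
  have key : ∀ i : Fin 3, (W.coef (-1) (AA S.d (cj5 i)).det = 0 →
      (AA S.d (cj5 i)).det = algebraMap ℂ W (-1/4) ∧
        phi S.x (Rl S.g S.d i * adj (Rr S.g S.d R5 i)) = 0) ∧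
      (phi S.x (Rl S.g S.d i * adj (Rr S.g S.d R5 i)) = 0 →
        (AA S.d (cj5 i)).det = algebraMap ℂ W (-1/4)) := fun i => by
    refine det_of_trace ht ht' ?_ (h.cl_Rr i).2 (S.str.trA _) (S.str.geA _) (S.str.realA _)
      (S.nil i) ?_ (Fr3_tr hF h i)
    · fin_cases i <;> simp [sg]
    · have h1 : ‖AA S.d (cj5 i)‖ ≤ N :=
        ((norm_le_pi_norm _ _).trans (norm_fst_le S.d)).trans S.bd
      exact (mul_le_mul S.t_le h1 (norm_nonneg _) (ht.le.trans S.t_le)).trans hη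
  obtain ⟨a0, b0⟩ := (key 0).1 S.fl0
  obtain ⟨a1, b1⟩ := (key 1).1 S.fl1
  change phi S.x (RR S.g S.d 0 * adj (R1 S.g S.d)) = 0 at b0
  change phi S.x (RR S.g S.d 2 * adj (RR S.g S.d 1)) = 0 at b1
  rw [S.c2.phi_mul S.c1.adj, S.c1.phi_adj, S.phi1] at b0
  rw [S.c4.phi_mul S.c3.adj, S.c3.phi_adj] at b1
  have a2 : (AA S.d (cj5 2)).det = algebraMap ℂ W (-1/4) := by
    refine (key 2).2 ?_
    change phi S.x (RR S.g S.d 1 * adj R5) = 0
    rw [S.c3.phi_mul h.c5.adj, h.c5.phi_adj, h.phi5]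
    linear_combination -b0 - b1
  fin_cases j
  exacts [a0, a1, a2]

lemma Fr3_capDet_cont (Y : Fin 2 → W) : Continuous fun A : MW => capDet A Y := by
  have h : ∀ i j, Continuous fun A : MW => A i j := fun i j => (entW i j).continuous
  simp only [capDet, Matrix.mulVec, dotProduct, Fin.sum_univ_two, Matrix.add_apply]
  exact continuous_const.mul
    (((((continuous_const.add (h 0 0)).mul continuous_const).add
      ((continuous_const.add (h 0 1)).mul continuous_const)).mul continuous_const).sub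
    ((((continuous_const.add (h 1 0)).mul continuous_const).add
      ((continuous_const.add (h 1 1)).mul continuous_const)).mul continuous_const))

theorem exists_cap_gauge {As : Fin 5 → MW} (hL : LimProp As) (N : ℝ) : ∃ η₀ > 0,
    ∀ (η : ℝ) (S : Sol η N As), η ≤ η₀ → ∀ j : Fin 3,
      (AA S.d (cj5 j)).det = algebraMap ℂ W (-1/4) →
      ∃ (P : MW) (φ : W), MGE 0 P ∧ P.det = 1 ∧ sharp P = P ∧ W.GE (-1) φ ∧ W.cj φ = φ ∧
        W.coef (-1) φ ≠ 0 ∧
        adj P * AA S.d (cj5 j) * P = !![algebraMap ℂ W (1/2), φ; 0, algebraMap ℂ W (-1/2)] := by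
  choose Y c hc hY hYr he using hL.cap
  have key : ∀ j : Fin 3, ∃ δ > 0, ∀ A : MW, dist A (As (cj5 j)) < δ →
      dist (capDet A (Y j)) (capDet (As (cj5 j)) (Y j)) < ‖c j‖ := fun j =>
    Metric.continuous_iff.1 (Fr3_capDet_cont (Y j)) _ _ (norm_pos_iff.2 (hc j))
  choose δ hδ hd using key
  refine ⟨min (δ 0) (min (δ 1) (δ 2)) / 2, half_pos (lt_min (hδ 0) (lt_min (hδ 1) (hδ 2))),
    fun η S hη j hdet => ?_⟩
  refine cap_gauge (S.str.trA _) (S.str.geA _) (S.str.realA _) hdet (hY j) (hYr j) (c := c j) ?_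
  rw [← he j, ← dist_eq_norm]
  refine hd j _ ?_
  rw [dist_eq_norm]
  have h1 : min (δ 0) (min (δ 1) (δ 2)) ≤ δ j := by
    fin_cases j
    · exact min_le_left _ _
    · exact (min_le_right _ _).trans (min_le_left _ _)
    · exact (min_le_right _ _).trans (min_le_right _ _)
  linarith [S.close (cj5 j), hδ j]

end Pool.Agent.MP_efb2da_gt
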