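import Pool.Agent.MP_efb2da_gt.Defs

/-! Conformal parametrisations of mean curvature 2, rigid motions, local charts. -/

open scoped Manifold ContDiff RealInnerProductSpace ComplexConjugate Topology
open Set

noncomputable section

namespace Pool.Agent.MP_efb2da_gt

def cr (a b : E3) : E3 := !₂[a 1 * b 2 - a 2 * b 1, a 2 * b 0 - a 0 * b 2, a 0 * b 1 - a 1 * b 0]

def dx (X : ℂ → E3) (z : ℂ) : E3 := fderiv ℝ X z 1
def dy (X : ℂ → E3) (z : ℂ) : E3 := fderiv ℝ X z Complex.I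

/-- conformal immersion with `ΔX = 4 X_x × X_y` at the point `z` -/
structure CMCAt (X : ℂ → E3) (z : ℂ) : Prop where
  smooth : ContDiffAt ℝ ∞ X z
  orth : ⟪dx X z, dy X z⟫ = 0
  conf : ‖dx X z‖ = ‖dy X z‖
  ne : dx X z ≠ 0
  lap : dx (dx X) z + dy (dy X) z = (4:ℝ) • cr (dx X z) (dy X z)

/-- horizontal part -/
def hz (v : E3) : ℂ := ⟨v 0, v 1⟩
def mk3 (w : ℂ) (h : ℝ) : E3 := !₂[w.re, w.im, h]
/-- rotation about the vertical axis (for `‖o‖ = 1`) -/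
def Rot (o : ℂ) (v : E3) : E3 := mk3 (o * hz v) (v 2)
/-- reflection in the plane `x₁ = 0` -/
def Refl (v : E3) : E3 := mk3 (conj (hz v)) (v 2)
def toE2 (w : ℂ) : E2 := !₂[w.re, w.im]

/-- admissible positions of the three cap punctures -/
def AdmP (p : Fin 3 → ℝ) : Prop :=
  (1/4 ≤ p 0 ∧ p 0 ≤ 2/3) ∧ (-11/10 ≤ p 1 ∧ p 1 ≤ -9/10) ∧ (-2/3 ≤ p 2 ∧ p 2 ≤ -1/4)

/-- a local conformal parametrisation of `(T, f)` around `p`, by an open set of the plane or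
(for `p ∈ bd`) of the closed right half plane -/
def LocChart {T : Type} [TopologicalSpace T] (f : T → E3) (bd : Set T) (p : T) : Prop :=
  ∃ (V : Set ℂ) (w₀ : ℂ) (S : Set ℂ) (ψ : ℂ → T) (X : ℂ → E3), IsOpen V ∧ w₀ ∈ V ∧ ψ w₀ = p ∧
    ((S = univ ∧ p ∉ bd) ∨ (S = {w | 0 ≤ w.re} ∧ w₀.re = 0 ∧ p ∈ bd)) ∧
    ContinuousOn ψ (V ∩ S) ∧ InjOn ψ (V ∩ S) ∧
    (∀ V', IsOpen V' → V' ⊆ V → IsOpen (ψ '' (V' ∩ S))) ∧
    (∀ w ∈ V, CMCAt X w) ∧ ∀ w ∈ V ∩ S, f (ψ w) = X w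

@[simp] lemma hz_mk3 (w : ℂ) (h : ℝ) : hz (mk3 w h) = w := by
  apply Complex.ext <;> simp [hz, mk3]
@[simp] lemma mk3_two (w : ℂ) (h : ℝ) : mk3 w h 2 = h := by simp [mk3]
lemma mk3_hz (v : E3) : mk3 (hz v) (v 2) = v := by
  ext i; fin_cases i <;> simp [hz, mk3]
lemma E3_ext {u v : E3} (h1 : hz u = hz v) (h2 : u 2 = v 2) : u = v := by
  rw [← mk3_hz u, ← mk3_hz v, h1, h2]
@[simp] lemma hz_Rot (o : ℂ) (v : E3) : hz (Rot o v) = o * hz v := by simp [Rot]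
@[simp] lemma Rot_two (o : ℂ) (v : E3) : Rot o v 2 = v 2 := by simp [Rot]
@[simp] lemma hz_Refl (v : E3) : hz (Refl v) = conj (hz v) := by simp [Refl]
@[simp] lemma Refl_two (v : E3) : Refl v 2 = v 2 := by simp [Refl]
@[simp] lemma Rot_one (v : E3) : Rot 1 v = v := E3_ext (by simp) (by simp)
lemma Rot_mul (a b : ℂ) (v : E3) : Rot (a * b) v = Rot a (Rot b v) :=
  E3_ext (by simp [mul_assoc]) (by simp)
@[simp] lemma Refl_Refl (v : E3) : Refl (Refl v) = v := E3_ext (by simp) (by simp)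
lemma Refl_Rot (a : ℂ) (v : E3) : Refl (Rot a v) = Rot (conj a) (Refl v) :=
  E3_ext (by simp) (by simp)
lemma incl_toE2 (w : ℂ) : incl (toE2 w) = mk3 w 0 := by
  ext i; fin_cases i <;> simp [incl, toE2, mk3]

end Pool.Agent.MP_efb2da_gt
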