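import Pool.Agent.MP_efb2da_gt.Sol0
import Pool.Agent.MP_efb2da_gt.Est1
import Pool.Agent.MP_efb2da_gt.Est2

open Set Complex
open scoped Topology ComplexConjugate Matrix ContDiff

noncomputable section

namespace Pool.Agent.MP_efb2da_gt

lemma Hopf_key {a b a0 b0 n : MC} (h : b * a - a * b = 0) :
    ‖trC (n * (b0 * a0 - a0 * b0))‖ ≤ 2 * (‖n‖ * (2 * ‖b - b0‖ * ‖a‖ + 2 * ‖b0‖ * ‖a - a0‖)) := by
  have e : b0 * a0 - a0 * b0 =
      (a * (b - b0) - (b - b0) * a) + ((a - a0) * b0 - b0 * (a - a0)) + (b * a - a * b) := by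
    noncomm_ring
  rw [h, add_zero] at e
  refine (norm_trC_le _).trans ?_
  gcongr
  refine (norm_mul_le _ _).trans ?_
  gcongr
  rw [e]
  have h1 := norm_mul_le a (b - b0)
  have h2 := norm_mul_le (b - b0) a
  have h3 := norm_mul_le (a - a0) b0
  have h4 := norm_mul_le b0 (a - a0)
  have h5 := norm_sub_le (a * (b - b0)) ((b - b0) * a)
  have h6 := norm_sub_le ((a - a0) * b0) (b0 * (a - a0))
  have h7 := norm_add_le (a * (b - b0) - (b - b0) * a) ((a - a0) * b0 - b0 * (a - a0))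
  nlinarith

lemma Hopf_tr (n0 n1 n2 : MC) (x y w x' y' w' : ℂ) :
    trC (n2 * ((x' • n1 + y' • n2 + w' • n0) * (x • n1 + y • n2 + w • n0) -
      (x • n1 + y • n2 + w • n0) * (x' • n1 + y' • n2 + w' • n0))) =
      (x' * w - x * w') * trC (n2 * (n1 * n0 - n0 * n1)) := by
  simp only [trC_apply, Matrix.sub_apply, matApi2_mulC, Matrix.add_apply, Matrix.smul_apply,
    smul_eq_mul]
  ring

lemma Hopf_pos_le {p : Fin 3 → ℝ} (h : AdmP p) (j : Fin 5) : pos p j ≤ 1 := by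
  obtain ⟨⟨_, _⟩, ⟨_, _⟩, _, _⟩ := h
  fin_cases j <;> simp [pos] <;> linarith

lemma Hopf_re {u : ℂ} (hu : ‖u - 1 / 16‖ ≤ 1 / 32) : 1 / 32 ≤ u.re ∧ ‖u‖ ≤ 3 / 32 := by
  have h1 := (abs_re_le_norm (u - 1 / 16)).trans hu
  have h2 : (u - 1 / 16).re = u.re - 1 / 16 := by simp
  rw [h2, abs_le] at h1
  refine ⟨by linarith [h1.1], ?_⟩
  have h3 : u = (u - 1 / 16) + 1 / 16 := by ring
  have h4 : ‖(1 / 16 : ℂ)‖ = 1 / 16 := by simp
  calc ‖u‖ = ‖(u - 1 / 16) + 1 / 16‖ := by rw [← h3]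
    _ ≤ ‖u - 1 / 16‖ + ‖(1 / 16 : ℂ)‖ := norm_add_le _ _
    _ ≤ 3 / 32 := by rw [h4]; linarith

lemma Hopf_sep {u : ℂ} (hu : ‖u - 1 / 16‖ ≤ 1 / 32) {s : ℝ} (hs : s ≤ 1) :
    1 / 32 ≤ ‖1 + u - s‖ := by
  have h1 := (Hopf_re hu).1
  have h2 := re_le_norm (1 + u - s)
  have h3 : (1 + u - s).re = 1 + u.re - s := by simp
  linarith

/-- the limit of the neck potential -/
def HopfR (As : Fin 5 → MW) (p : Fin 3 → ℝ) (u : ℂ) : MW :=
  ∑ j, (u * (1 + u - pos p j)⁻¹) • As j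

lemma Hopf_R_deriv (As : Fin 5 → MW) {p : Fin 3 → ℝ} (h : AdmP p) {u : ℂ}
    (hu : ‖u - 1 / 16‖ ≤ 1 / 32) :
    HasDerivAt (HopfR As p) (∑ j, ((1 - pos p j) / (1 + u - pos p j) ^ 2 : ℂ) • As j) u := by
  unfold HopfR
  refine HasDerivAt.fun_sum fun j _ => HasDerivAt.smul_const ?_ _
  have hne : (1 + u - pos p j : ℂ) ≠ 0 := by
    have := Hopf_sep hu (Hopf_pos_le h j)
    intro h0; rw [h0, norm_zero] at this; norm_num at this
  have h1 : HasDerivAt (fun u : ℂ => 1 + u - pos p j) 1 u :=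
    ((hasDerivAt_id u).const_add 1).sub_const _
  have h2 := (hasDerivAt_id' u).fun_mul (h1.fun_inv hne)
  convert h2 using 1
  field_simp
  ring

lemma Hopf_err {As : Fin 5 → MW} (N : ℝ) : ∃ K, 0 ≤ K ∧ ∀ (η : ℝ) (S : Sol η N As) (u : ℂ),
    ‖u - 1 / 16‖ ≤ 1 / 32 → ‖Th S.g S.d u - HopfR As (pp S.g) u‖ ≤ K * η := by
  obtain ⟨C, hC⟩ := est_corr N
  refine ⟨15 + 5 * |C|, by positivity, fun η S u hu => ?_⟩
  obtain ⟨hre, hn⟩ := Hopf_re hu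
  have hu0 : u ≠ 0 := by intro h0; rw [h0] at hre; norm_num at hre
  have hz : 1 ≤ ‖1 + u‖ := by
    have := re_le_norm (1 + u)
    have h3 : (1 + u).re = 1 + u.re := by simp
    linarith
  have hz2 : ‖1 + u‖ ≤ 2 := by
    have := norm_add_le 1 u
    rw [norm_one] at this; linarith
  have hz0 : (1 + u : ℂ) ≠ 0 := by
    intro h0; rw [h0, norm_zero] at hz; norm_num at hz
  have hq := S.adm.2.2.1.1
  have he := S.adm.2.1.1
  have hη : 0 ≤ η := he.le.trans S.e_le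
  have hc1 := hC S.g S.d (1 + u) S.adm S.bd hz0 (by
    have := re_le_norm u
    simp only [add_sub_cancel_left]; linarith)
  have e : Th S.g S.d u - HopfR As (pp S.g) u =
      ∑ j, (u * (1 + u - pos (pp S.g) j)⁻¹) • (AA S.d j - As j) +
        (u / (1 + u)) • ((1 + u) • (h1 S.g S.d (1 + u) + hinf S.g S.d (1 + u) +
          h0 S.g S.d (1 + u))) := by
    rw [Th_eq S.adm S.fix hu0 (by linarith), smul_smul, div_mul_cancel₀ _ hz0]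
    simp only [Xi, rat, HopfR, smul_add, smul_sub, Finset.smul_sum, smul_smul,
      Finset.sum_sub_distrib]
    abel
  rw [e]
  refine (norm_add_le _ _).trans ?_
  have h2 : ‖∑ j, (u * (1 + u - pos (pp S.g) j)⁻¹) • (AA S.d j - As j)‖ ≤ 15 * η := by
    refine (norm_sum_le _ _).trans ?_
    have : ∀ j ∈ (Finset.univ : Finset (Fin 5)),
        ‖(u * (1 + u - pos (pp S.g) j)⁻¹) • (AA S.d j - As j)‖ ≤ 3 * η := by
      intro j _
      rw [norm_smul, norm_mul, norm_inv]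
      have h5 := Hopf_sep hu (Hopf_pos_le S.adm.2.2.2 j)
      have h6 : ‖1 + u - pos (pp S.g) j‖⁻¹ ≤ 32 := by
        rw [inv_le_comm₀ (by linarith) (by norm_num)]; linarith
      have h7 : ‖u‖ * ‖1 + u - pos (pp S.g) j‖⁻¹ ≤ 3 := by
        calc ‖u‖ * ‖1 + u - pos (pp S.g) j‖⁻¹ ≤ 3 / 32 * 32 := by gcongr
          _ = 3 := by norm_num
      exact mul_le_mul h7 (S.close j) (norm_nonneg _) (by norm_num)
    refine (Finset.sum_le_sum this).trans ?_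
    simp; linarith
  have h3 : ‖u / (1 + u)‖ ≤ 1 := by
    rw [norm_div, div_le_one (by linarith)]; linarith
  have h4 : ee S.g + qq S.g / ‖1 + u‖ + qq S.g * ‖1 + u‖ ≤ 5 * η := by
    have a1 : qq S.g / ‖1 + u‖ ≤ qq S.g := div_le_self hq.le hz
    have a2 : qq S.g * ‖1 + u‖ ≤ qq S.g * 2 := by gcongr
    linarith [S.e_le, S.q_le]
  have h5 : 0 ≤ ee S.g + qq S.g / ‖1 + u‖ + qq S.g * ‖1 + u‖ := by positivity
  have h6 : C * (ee S.g + qq S.g / ‖1 + u‖ + qq S.g * ‖1 + u‖) ≤ |C| * (5 * η) :=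
    mul_le_mul (le_abs_self C) h4 h5 (abs_nonneg C)
  rw [norm_smul]
  have h7 := mul_le_mul h3 (hc1.trans h6) (norm_nonneg _) zero_le_one
  linarith

lemma Hopf_ann {g : Geo} (hg : AdmG g) {u : ℂ} (hu : ‖u - 1 / 16‖ ≤ 1 / 32) :
    8 * ee g ^ 2 < ‖u‖ ∧ ‖u‖ < 1 / 8 := by
  obtain ⟨hre, hn⟩ := Hopf_re hu
  have h1 := re_le_norm u
  have h2 := hg.2.1.1
  have h3 := hg.2.1.2
  exact ⟨by nlinarith, by linarith⟩

lemma Hopf_diff {g : Geo} {d : Dat} (hg : AdmG g) (hd : Str d) {u : ℂ}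
    (hu : ‖u - 1 / 16‖ ≤ 1 / 32) : DifferentiableAt ℂ (Th g d) u := by
  refine (Th_differentiableOn hg hd).differentiableAt (IsOpen.mem_nhds ?_ (Hopf_ann hg hu))
  exact (isOpen_lt continuous_const continuous_norm).inter
    (isOpen_lt continuous_norm continuous_const)

lemma Hopf_derr {As : Fin 5 → MW} {N η K : ℝ} (S : Sol η N As)
    (h : ∀ u : ℂ, ‖u - 1 / 16‖ ≤ 1 / 32 → ‖Th S.g S.d u - HopfR As (pp S.g) u‖ ≤ K * η) :
    ‖deriv (Th S.g S.d) (1 / 16) -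
      ∑ j, ((1 - pos (pp S.g) j) / (1 + 1 / 16 - pos (pp S.g) j) ^ 2 : ℂ) • As j‖ ≤
        32 * (K * η) := by
  have h0 : ‖(1 / 16 : ℂ) - 1 / 16‖ ≤ 1 / 32 := by simp
  have hd : DiffContOnCl ℂ (fun u => Th S.g S.d u - HopfR As (pp S.g) u)
      (Metric.ball (1 / 16 : ℂ) (1 / 32)) := by
    refine DifferentiableOn.diffContOnCl ?_
    rw [closure_ball _ (by norm_num)]
    intro u hu
    rw [mem_closedBall_iff_norm] at hu
    exact ((Hopf_diff S.adm S.str hu).sub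
      (Hopf_R_deriv As S.adm.2.2.2 hu).differentiableAt).differentiableWithinAt
  have h1 := Complex.norm_deriv_le_of_forall_mem_sphere_norm_le (by norm_num) hd
    (C := K * η) fun u hu => h u (by rw [mem_sphere_iff_norm] at hu; exact hu.le)
  have h2 := ((Hopf_diff S.adm S.str h0).hasDerivAt.fun_sub
    (Hopf_R_deriv As S.adm.2.2.2 h0)).deriv
  rw [h2] at h1
  linarith

lemma Hopf_exp {g : Geo} (hg : AdmG g) : (ee g : ℂ) * exp (La1 g) = 1 / 16 := by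
  have h := hg.2.1.1
  have h1 : Real.exp (La1 g) = 1 / (16 * ee g) := Real.exp_log (by positivity)
  have h2 : (ee g : ℂ) ≠ 0 := by exact_mod_cast h.ne'
  rw [← Complex.ofReal_exp, h1]
  push_cast
  field_simp

lemma Hopf_xi {g : Geo} {d : Dat} (hg : AdmG g) (hd : Str d) :
    xiN g d (La1 g) = (tt g : ℂ) • Th g d (1 / 16) ∧
      deriv (xiN g d) (La1 g) = (tt g : ℂ) • (1 / 16 : ℂ) • deriv (Th g d) (1 / 16) := by
  have h0 : ‖(1 / 16 : ℂ) - 1 / 16‖ ≤ 1 / 32 := by simp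
  refine ⟨by rw [xiN, Hopf_exp hg], ?_⟩
  have h1 : HasDerivAt (fun ζ : ℂ => (ee g : ℂ) * exp ζ) (1 / 16) (La1 g) := by
    rw [← Hopf_exp hg]; exact (Complex.hasDerivAt_exp _).const_mul _
  have h2 : HasDerivAt (Th g d) (deriv (Th g d) (1 / 16)) ((ee g : ℂ) * exp (La1 g)) := by
    rw [Hopf_exp hg]; exact (Hopf_diff hg hd h0).hasDerivAt
  exact ((h2.scomp (La1 g : ℂ) h1).const_smul (tt g : ℂ)).deriv

lemma Hopf_sum_le (As : Fin 5 → MW) {c : Fin 5 → ℂ} (h : ∀ j, ‖c j‖ ≤ 1) :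
    ‖∑ j, c j • As j‖ ≤ ∑ j, ‖As j‖ := by
  refine (norm_sum_le _ _).trans (Finset.sum_le_sum fun j _ => ?_)
  rw [norm_smul]
  exact mul_le_of_le_one_left (norm_nonneg _) (h j)

lemma Hopf_cf {As : Fin 5 → MW} (hL : LimProp As) (c : Fin 5 → ℂ) :
    cf (-1) (∑ j, c j • As j) = (c 1 + c 3) • cf (-1) (As 1) + (c 2 + c 4) • cf (-1) (As 2) +
      c 0 • cf (-1) (As 0) := by
  simp only [Fin.sum_univ_five, map_add, map_smul, hL.e3, hL.e4, add_smul]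
  abel

lemma Hopf_c1 {s : ℝ} (hs : s ≤ 1) : ‖(1 / 16 * (1 + 1 / 16 - (s : ℂ))⁻¹ : ℂ)‖ ≤ 1 := by
  have e : (1 / 16 * (1 + 1 / 16 - (s : ℂ))⁻¹ : ℂ) = ((1 / 16 * (1 + 1 / 16 - s)⁻¹ : ℝ) : ℂ) := by
    push_cast; ring
  have h : (0 : ℝ) < 1 + 1 / 16 - s := by linarith
  rw [e, Complex.norm_real, Real.norm_of_nonneg (by positivity), ← div_eq_mul_inv, div_le_one h]
  linarith

lemma Hopf_c2 {s : ℝ} (hs : s ≤ 1) :
    ‖(1 / 16 * ((1 - s) / (1 + 1 / 16 - s) ^ 2) : ℂ)‖ ≤ 1 := by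
  have e : (1 / 16 * ((1 - s) / (1 + 1 / 16 - s) ^ 2) : ℂ) =
      ((1 / 16 * ((1 - s) / (1 + 1 / 16 - s) ^ 2) : ℝ) : ℂ) := by
    push_cast; ring
  have h : (0 : ℝ) < 1 + 1 / 16 - s := by linarith
  have h' : (0 : ℝ) ≤ 1 - s := by linarith
  rw [e, Complex.norm_real, Real.norm_of_nonneg (by positivity), ← mul_div_assoc,
    div_le_one (by positivity)]
  nlinarith

lemma Hopf_c3 {s : ℝ} (hs : -11 / 10 ≤ s) (hs' : s ≤ -9 / 10) :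
    1 / 20 ≤ ‖((1 / 16 * ((1 - (1 : ℝ)) / (1 + 1 / 16 - (1 : ℝ)) ^ 2) +
      1 / 16 * ((1 - s) / (1 + 1 / 16 - s) ^ 2)) * (1 / 16 * (1 + 1 / 16 - ((0 : ℝ) : ℂ))⁻¹) -
      (1 / 16 * (1 + 1 / 16 - ((1 : ℝ) : ℂ))⁻¹ + 1 / 16 * (1 + 1 / 16 - (s : ℂ))⁻¹) *
        (1 / 16 * ((1 - (0 : ℝ)) / (1 + 1 / 16 - (0 : ℝ)) ^ 2)) : ℂ)‖ := by
  have h : (0 : ℝ) < 1 + 1 / 16 - s := by linarith
  have e : ((1 / 16 * ((1 - (1 : ℝ)) / (1 + 1 / 16 - (1 : ℝ)) ^ 2) +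
      1 / 16 * ((1 - s) / (1 + 1 / 16 - s) ^ 2)) * (1 / 16 * (1 + 1 / 16 - ((0 : ℝ) : ℂ))⁻¹) -
      (1 / 16 * (1 + 1 / 16 - ((1 : ℝ) : ℂ))⁻¹ + 1 / 16 * (1 + 1 / 16 - (s : ℂ))⁻¹) *
        (1 / 16 * ((1 - (0 : ℝ)) / (1 + 1 / 16 - (0 : ℝ)) ^ 2)) : ℂ) =
      -((16 / 289 * (1 + 1 / 16 * (1 + 1 / 16 - s)⁻¹) -
        1 / 272 * ((1 - s) / (1 + 1 / 16 - s) ^ 2) : ℝ) : ℂ) := by
    push_cast; norm_num; ring
  have h1 : 0 ≤ 1 / 16 * (1 + 1 / 16 - s)⁻¹ := by positivity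
  have h2 : (1 - s) / (1 + 1 / 16 - s) ^ 2 ≤ 1 := by
    rw [div_le_one (by positivity)]; nlinarith
  rw [e, norm_neg, Complex.norm_real]
  refine le_trans ?_ (le_abs_self _)
  linarith

theorem sol_hopf {As : Fin 5 → MW} (hL : LimProp As) (N : ℝ) : ∃ η₀ > 0,
    ∀ (η : ℝ) (S : Sol η N As), η ≤ η₀ → hopf (xiN S.g S.d) (La1 S.g) ≠ 0 := by
  obtain ⟨K, hK0, hK⟩ := Hopf_err (As := As) N
  obtain ⟨M, hM⟩ : ∃ M, M = ∑ j, ‖As j‖ := ⟨_, rfl⟩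
  have hM0 : 0 ≤ M := hM ▸ Finset.sum_nonneg fun j _ => norm_nonneg _
  obtain ⟨τ, hτ⟩ : ∃ τ, τ = ‖trC (cf (-1) (As 2) *
    (cf (-1) (As 1) * cf (-1) (As 0) - cf (-1) (As 0) * cf (-1) (As 1)))‖ := ⟨_, rfl⟩
  have hτ0 : 0 < τ := hτ ▸ norm_pos_iff.2 hL.triple
  obtain ⟨Q, hQ⟩ : ∃ Q, Q = 2 * (‖cf (-1) (As 2)‖ *
    (2 * (2 * K + 2 * (M + K) ^ 2) * (M + K) + 2 * M * K)) := ⟨_, rfl⟩
  have hQ0 : 0 ≤ Q := by rw [hQ]; positivity
  refine ⟨min 1 (τ / (20 * (Q + 1))), by positivity, fun η S hη h => ?_⟩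
  have hη1 : η ≤ 1 := hη.trans (min_le_left _ _)
  have hη2 : η ≤ τ / (20 * (Q + 1)) := hη.trans (min_le_right _ _)
  have ht := S.adm.1.1
  have hη0 : 0 < η := ht.trans_le S.t_le
  have ht' : (tt S.g : ℂ) ≠ 0 := by exact_mod_cast ht.ne'
  have h0 : ‖(1 / 16 : ℂ) - 1 / 16‖ ≤ 1 / 32 := by simp
  have hp := S.adm.2.2.2
  obtain ⟨T, hT⟩ : ∃ T, T = Th S.g S.d (1 / 16) := ⟨_, rfl⟩
  obtain ⟨T', hT'⟩ : ∃ T', T' = (1 / 16 : ℂ) • deriv (Th S.g S.d) (1 / 16) := ⟨_, rfl⟩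
  obtain ⟨R, hR⟩ : ∃ R, R = ∑ j,
    (1 / 16 * (1 + 1 / 16 - (pos (pp S.g) j : ℂ))⁻¹ : ℂ) • As j := ⟨_, rfl⟩
  obtain ⟨R', hR'⟩ : ∃ R', R' = ∑ j,
    (1 / 16 * ((1 - pos (pp S.g) j) / (1 + 1 / 16 - pos (pp S.g) j) ^ 2) : ℂ) • As j := ⟨_, rfl⟩
  have a1 : ‖T - R‖ ≤ K * η := by
    have := hK η S _ h0
    rw [HopfR, ← hT, ← hR] at this
    exact this
  have a2 : ‖T' - R'‖ ≤ 2 * K * η := by
    have e : T' - R' = (1 / 16 : ℂ) • (deriv (Th S.g S.d) (1 / 16) -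
      ∑ j, ((1 - pos (pp S.g) j) / (1 + 1 / 16 - pos (pp S.g) j) ^ 2 : ℂ) • As j) := by
      rw [hT', hR', smul_sub, Finset.smul_sum]; simp only [smul_smul]
    have h4 : ‖(1 / 16 : ℂ)‖ = 1 / 16 := by simp
    rw [e, norm_smul, h4]
    have := Hopf_derr S (hK η S)
    linarith
  have a3 : ‖R‖ ≤ M := by
    rw [hR, hM]; exact Hopf_sum_le As fun j => Hopf_c1 (Hopf_pos_le hp j)
  have a4 : ‖R'‖ ≤ M := by
    rw [hR', hM]; exact Hopf_sum_le As fun j => Hopf_c2 (Hopf_pos_le hp j)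
  have a5 : ‖T‖ ≤ M + K := by
    have e : T = (T - R) + R := by abel
    have := norm_add_le (T - R) R
    rw [← e] at this
    nlinarith
  obtain ⟨a, ha⟩ : ∃ a, a = cf (-1) T := ⟨_, rfl⟩
  obtain ⟨c, hc⟩ : ∃ c, c = cf 0 T := ⟨_, rfl⟩
  obtain ⟨b, hb⟩ : ∃ b, b = cf (-1) T' + (tt S.g : ℂ) • (c * a - a * c) := ⟨_, rfl⟩
  have hab : b * a - a * b = 0 := by
    obtain ⟨e1, e2⟩ := Hopf_xi S.adm S.str
    rw [hopf, e1, e2, ← hT, ← hT'] at h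
    simp only [map_smul, ← ha, ← hc] at h
    have e : (tt S.g : ℂ) • (tt S.g : ℂ) • (b * a - a * b) = 0 := by
      rw [← h, hb]
      simp only [smul_sub, smul_add, add_mul, mul_add, sub_mul, mul_sub, smul_mul_assoc,
        mul_smul_comm]
    exact (smul_eq_zero.1 ((smul_eq_zero.1 e).resolve_left ht')).resolve_left ht'
  have na : ‖a‖ ≤ M + K := ha ▸ (norm_cf_le _ _).trans a5
  have nc : ‖c‖ ≤ M + K := hc ▸ (norm_cf_le _ _).trans a5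
  have nα : ‖a - cf (-1) R‖ ≤ K * η := by
    rw [ha, ← map_sub]; exact (norm_cf_le _ _).trans a1
  have nb0 : ‖cf (-1) R'‖ ≤ M := (norm_cf_le _ _).trans a4
  have nβ : ‖b - cf (-1) R'‖ ≤ (2 * K + 2 * (M + K) ^ 2) * η := by
    have e : b - cf (-1) R' = cf (-1) (T' - R') + (tt S.g : ℂ) • (c * a - a * c) := by
      rw [hb, map_sub]; abel
    have h1 : ‖c * a‖ ≤ (M + K) * (M + K) := (norm_mul_le _ _).trans (by gcongr)
    have h2 : ‖a * c‖ ≤ (M + K) * (M + K) := (norm_mul_le _ _).trans (by gcongr)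
    have h3 : ‖c * a - a * c‖ ≤ 2 * (M + K) ^ 2 := (norm_sub_le _ _).trans (by nlinarith)
    have h4 : ‖(tt S.g : ℂ) • (c * a - a * c)‖ ≤ η * (2 * (M + K) ^ 2) := by
      rw [norm_smul, Complex.norm_real, Real.norm_of_nonneg ht.le]
      exact mul_le_mul S.t_le h3 (norm_nonneg _) hη0.le
    rw [e]
    have h5 := norm_add_le (cf (-1) (T' - R')) ((tt S.g : ℂ) • (c * a - a * c))
    have h6 := (norm_cf_le (-1) (T' - R')).trans a2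
    nlinarith
  have key := Hopf_key (n := cf (-1) (As 2)) (a0 := cf (-1) R) (b0 := cf (-1) R') hab
  have up : 2 * (‖cf (-1) (As 2)‖ * (2 * ‖b - cf (-1) R'‖ * ‖a‖ +
      2 * ‖cf (-1) R'‖ * ‖a - cf (-1) R‖)) ≤ Q * η := by
    calc _ ≤ 2 * (‖cf (-1) (As 2)‖ * (2 * ((2 * K + 2 * (M + K) ^ 2) * η) * (M + K) +
          2 * M * (K * η))) := by gcongr
      _ = Q * η := by rw [hQ]; ring
  have low : 1 / 20 * τ ≤ ‖trC (cf (-1) (As 2) *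
      (cf (-1) R' * cf (-1) R - cf (-1) R * cf (-1) R'))‖ := by
    rw [hR, hR', Hopf_cf hL, Hopf_cf hL, Hopf_tr, norm_mul, ← hτ]
    gcongr
    exact Hopf_c3 hp.2.1.1 hp.2.1.2
  rw [le_div_iff₀ (by positivity)] at hη2
  nlinarith

end Pool.Agent.MP_efb2da_gt
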