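import Pool.Agent.MP_efb2da_gt.Neck1

open Set Complex
open scoped Topology ComplexConjugate Matrix ContDiff

noncomputable section

namespace Pool.Agent.MP_efb2da_gt

lemma Neck2_log {g : Geo} (hg : AdmG g) : 0 < La1 g ∧ La1 g < Real.log (1 / (8 * ee g)) := by
  obtain ⟨-, ⟨h1, h2⟩, -⟩ := hg
  refine ⟨Real.log_pos ?_, Real.log_lt_log (by positivity) ?_⟩
  · rw [lt_div_iff₀ (by positivity)]
    linarith
  · exact one_div_lt_one_div_of_lt (by positivity) (by linarith)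

lemma Neck2_strip {g : Geo} (hg : AdmG g) (θ : ℝ) : (θ : ℂ) * I ∈ Strip g := by
  have := Neck2_log hg
  show |((θ : ℂ) * I).re| < _
  simpa using this.1.trans this.2

lemma Neck2_La1 {g : Geo} (hg : AdmG g) : (La1 g : ℂ) ∈ Strip g := by
  have := Neck2_log hg
  show |(La1 g : ℂ).re| < _
  rw [ofReal_re, abs_of_pos this.1]
  exact this.2

lemma Neck2_path {E : Type} [NormedAddCommGroup E] [NormedSpace ℝ E] {F : ℂ → E} (c s : ℝ)
    (hF : ContDiffAt ℝ ∞ F (((c * s : ℝ) : ℂ) * I)) :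
    HasDerivAt (fun s : ℝ => F (((c * s : ℝ) : ℂ) * I))
      (c • fderiv ℝ F (((c * s : ℝ) : ℂ) * I) I) s := by
  have h1 : HasDerivAt (fun s : ℝ => ((c * s : ℝ) : ℂ) * I) (c • I) s := by
    have := (((hasDerivAt_id s).const_mul c).ofReal_comp).mul_const I
    simpa using this
  have := (hF.differentiableAt (by simp)).hasFDerivAt.comp_hasDerivAt s h1
  rwa [map_smul] at this

lemma Neck2_ent {A : ℝ → MC} {D : MC} {s : ℝ} (h : HasDerivAt A D s) (i j : Fin 2) :
    HasDerivAt (fun s => A s i j) (D i j) s :=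
  ((entC i j).restrictScalars ℝ).hasFDerivAt.comp_hasDerivAt s h

lemma Neck2_re {A : ℝ → ℂ} {D : ℂ} {s : ℝ} (h : HasDerivAt A D s) :
    HasDerivAt (fun s => (A s).re) D.re s := reCLM.hasFDerivAt.comp_hasDerivAt s h

lemma Neck2_im {A : ℝ → ℂ} {D : ℂ} {s : ℝ} (h : HasDerivAt A D s) :
    HasDerivAt (fun s => (A s).im) D.im s := imCLM.hasFDerivAt.comp_hasDerivAt s h

lemma Neck2_conj {A : ℝ → ℂ} {D : ℂ} {s : ℝ} (h : HasDerivAt A D s) :
    HasDerivAt (fun s => conj (A s)) (conj D) s :=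
  (conjCLE : ℂ →L[ℝ] ℂ).hasFDerivAt.comp_hasDerivAt s h

lemma Neck2_flux_alg {f a : MC} {x c : ℝ} (f1 : ct f = f) (f2 : trC f = 0) (f3 : (f 0 0).re = 0)
    (a1 : (a 0 0).im = 0) (a2 : a 1 0 = -conj (a 0 1)) (a3 : a 1 1 = -a 0 0) :
    (trC (s3 * (c • ((2:ℂ) • (f * -(I • a + conj I • ct a)) + (I • a - conj I • ct a)) -
      (2 * x : ℂ) • (s1 * c • -(I • a + conj I • ct a))))).im =
      4 * (conj (conj (f 0 1) - x) * (c * (2 * I * conj (a 0 1)))).im -
        2 * (-c * (2 * (a 0 0).re)) := by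
  have e1 : f 1 0 = conj (f 0 1) := by rw [← ct_apply, f1]
  have e2 : f 0 0 = 0 := by
    have : conj (f 0 0) = f 0 0 := by rw [← ct_apply, f1]
    exact Complex.ext f3 (conj_eq_iff_im.1 this)
  have e3 : f 1 1 = 0 := by simpa [trC_apply, e2] using f2
  simp only [trC_apply, matApi2_mulC, Matrix.sub_apply, Matrix.add_apply, Matrix.smul_apply,
    Matrix.neg_apply, ct_apply, e1, e2, e3, a2, a3]
  simp [s3, s1, a1]
  ring

lemma Neck2_ode_alg {a D az : MC} {c : ℝ} (hc : c ≠ 0) (a1 : (a 0 0).im = 0)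
    (a2 : a 1 0 = -conj (a 0 1)) (a3 : a 1 1 = -a 0 0) (hp : (a 0 0).re ≠ 0)
    (d1 : (D 0 0).im = 0) (d2 : D 1 0 = -conj (D 0 1)) (d3 : D 1 1 = -D 0 0)
    (hD : D = I • az + conj I • (a * ct a - ct a * a))
    (ode : (c : ℂ) * (2 * I * conj (c * D 0 1)) =
      (((-c * (2 * (c * (D 0 0).re))) / (-c * (2 * (a 0 0).re)) : ℝ) +
        2 * I * ((-c * (2 * (a 0 0).re) : ℝ) : ℂ)) * (c * (2 * I * conj (a 0 1)))) :
    az * a - a * az = 0 := by
  obtain ⟨p, hp'⟩ : ∃ p : ℝ, a 0 0 = p := ⟨(a 0 0).re, Complex.ext rfl a1⟩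
  obtain ⟨r, hr⟩ : ∃ r : ℝ, D 0 0 = r := ⟨(D 0 0).re, Complex.ext rfl d1⟩
  rw [hp', ofReal_re] at hp
  have hp0 : (p : ℂ) ≠ 0 := by exact_mod_cast hp
  have hc0 : (c : ℂ) ≠ 0 := by exact_mod_cast hc
  have e1 : conj (D 0 1) = (r / p - 4 * I * p) * conj (a 0 1) := by
    rw [hp', hr, ofReal_re, ofReal_re, map_mul, conj_ofReal] at ode
    push_cast at ode
    refine mul_left_cancel₀ (mul_ne_zero (mul_ne_zero hc0 hc0) (mul_ne_zero two_ne_zero I_ne_zero))
      ?_
    field_simp at ode ⊢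
    linear_combination ode
  have e2 : D 0 1 = (r / p + 4 * I * p) * a 0 1 := by
    have := congrArg conj e1
    simpa [map_ofNat] using this
  have e3 : az = (-I) • D + (a * ct a - ct a * a) := by
    rw [hD, smul_add, smul_smul, smul_smul, conj_I]
    simp only [neg_mul, mul_neg, I_mul_I, neg_neg, one_smul, neg_smul]
    abel
  have e4 : az = (-I * (r / p)) • a := by
    rw [e3]
    ext i j
    fin_cases i <;> fin_cases j <;> simp [matApi2_mulC, a2, a3, d2, d3, hp', hr, e1]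
    · field_simp
    · rw [e2]
      linear_combination (-4 * p * a 0 1) * I_mul_I
    · linear_combination (-4 * p * conj (a 0 1)) * I_mul_I
    · field_simp
  rw [e4, smul_mul_assoc, mul_smul_comm, sub_self]

lemma Neck2_hopf {O : Set ℂ} {ξ : ℂ → MW} (hO : IsOpen O) (h : DifferentiableOn ℂ ξ O) :
    DifferentiableOn ℂ (hopf ξ) O := by
  have h1 : DifferentiableOn ℂ (fun z => cf (-1) (deriv ξ z)) O :=
    (cf (-1)).differentiable.comp_differentiableOn (h.deriv hO)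
  have h2 : DifferentiableOn ℂ (fun z => cf (-1) (ξ z)) O :=
    (cf (-1)).differentiable.comp_differentiableOn h
  have h3 : DifferentiableOn ℂ (fun z => cf 0 (ξ z)) O :=
    (cf 0).differentiable.comp_differentiableOn h
  have h4 := h1.add ((h3.mul h2).sub (h2.mul h3))
  exact (h4.mul h2).sub (h2.mul h4)

variable {η N : ℝ} {As : Fin 5 → MW} {S : Sol η N As} {Ψ : ℂ → MW}

lemma Neck2_rot (h : Neck S.g S.d Ψ) (θ : ℝ) (n : ℕ) :
    Ψ (((θ + 2 * Real.pi * (n + 1 : ℕ) : ℝ) : ℂ) * I) =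
      R1 S.g S.d * Ψ (((θ + 2 * Real.pi * n : ℝ) : ℂ) * I) := by
  rw [← h.rot _ (Neck2_strip S.adm _)]
  congr 1
  push_cast
  ring

theorem Neck.periodic (h : Neck S.g S.d Ψ) : Function.Periodic (Gam S.k S.x Ψ) 1 := by
  intro s
  have key : ∀ (θ : ℝ) (n : ℕ), hz (pt S.x (Ψ (((θ + 2 * Real.pi * n : ℝ) : ℂ) * I))) =
      exp (2 * Real.pi * I * tt S.g * (1 : ℤ)) ^ n * hz (pt S.x (Ψ (θ * I))) := by
    intro θ n
    induction n with
    | zero => simp
    | succ n ih =>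
      rw [Neck2_rot h, ← mul_one (R1 S.g S.d * _),
        S.c1.pt_mul (h.fr.det _ (Neck2_strip S.adm _)) MGE_one Matrix.det_one, hz_Rot, ih]
      ring
  have hk : (S.k : ℂ) ≠ 0 := by
    have := S.hk
    exact_mod_cast (by omega : S.k ≠ 0)
  have e : exp (2 * Real.pi * I * tt S.g * (1 : ℤ)) ^ S.k = 1 := by
    rw [← exp_nat_mul, S.ht, ← exp_two_pi_mul_I]
    congr 1
    push_cast
    field_simp
  have := key (2 * Real.pi * S.k * s) S.k
  rw [e, one_mul] at this
  rw [Gam, Gam, ← this, mul_add, mul_one]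

theorem Neck.flux (h : Neck S.g S.d Ψ) :
    ∫ s in (0:ℝ)..1, nuB S.k Ψ (xiN S.g S.d) s =
      2 * ∫ s in (0:ℝ)..1, (conj (Gam S.k S.x Ψ s) * deriv (Gam S.k S.x Ψ) s).im := by
  have key : ∀ n : ℕ, flx S.x (Ψ (((0 + 2 * Real.pi * n : ℝ) : ℂ) * I)) =
      flx S.x (Ψ (((0 : ℝ) : ℂ) * I)) := by
    intro n
    induction n with
    | zero => simp
    | succ n ih =>
      rw [Neck2_rot h, S.c1.flx_mul (h.fr.det _ (Neck2_strip S.adm _)), S.phi1, add_zero, ih]
  have hd : ∀ s : ℝ, HasDerivAt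
      (fun s : ℝ => (flx S.x (Ψ (((2 * Real.pi * S.k * s : ℝ) : ℂ) * I))).im)
      (4 * (conj (Gam S.k S.x Ψ s) * deriv (Gam S.k S.x Ψ) s).im -
        2 * nuB S.k Ψ (xiN S.g S.d) s) s := fun s => by
    have hz := Neck2_strip S.adm (2 * Real.pi * S.k * s)
    have h1 := Neck2_path (F := fun z => J2 (Uf (Ψ z))) _ s
      ((J2.restrictScalars ℝ).contDiff.contDiffAt.comp _ (h.fr.contDiffAt_U hz))
    have h2 := Neck2_path _ s (h.fr.contDiffAt_sym hz)
    rw [h.fr.fderiv_J2 hz] at h1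
    rw [h.fr.fderiv_sym hz] at h2
    have h3 := Neck2_im ((trC.restrictScalars ℝ).hasFDerivAt.comp_hasDerivAt s
      ((h1.sub ((h2.const_mul s1).const_smul (2 * S.x : ℂ))).const_mul s3))
    obtain ⟨a1, a2, a3, -⟩ := h.a_bd S.adm (2 * Real.pi * S.k * s)
    have f3 : (symM (Ψ (((2 * Real.pi * S.k * s : ℝ) : ℂ) * I)) 0 0).re = 0 := by
      simpa [pt, vec, mk3] using h.planar (x := S.x) S.adm (2 * Real.pi * S.k * s)
    have e := Neck2_flux_alg (x := S.x) (c := 2 * Real.pi * S.k) (symM_herm (h.fr.det _ hz))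
      (symM_tr (h.fr.det _ hz)) f3 a1 a2 a3
    have eG : Gam S.k S.x Ψ s =
        conj (symM (Ψ (((2 * Real.pi * S.k * s : ℝ) : ℂ) * I)) 0 1) - S.x := by
      apply Complex.ext <;> simp [Gam, pt, vec, mk3, Pool.Agent.MP_efb2da_gt.hz]
    refine HasDerivAt.congr_deriv h3 (e.trans ?_)
    rw [h.deriv_Gam S.adm, eG, nuB]
    push_cast
    rfl
  have c1 : Continuous fun s => (conj (Gam S.k S.x Ψ s) * deriv (Gam S.k S.x Ψ) s).im :=
    continuous_im.comp ((continuous_conj.comp (h.contDiff_Gam S.adm S.k).continuous).mul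
      ((h.contDiff_Gam S.adm S.k).continuous_deriv (by simp)))
  have c2 := (h.differentiable_nu S.adm S.k).continuous
  have := intervalIntegral.integral_eq_sub_of_hasDerivAt (a := 0) (b := 1) (fun s _ => hd s)
    (((c1.const_mul 4).sub (c2.const_mul 2)).intervalIntegrable _ _)
  rw [intervalIntegral.integral_sub ((c1.const_mul 4).intervalIntegrable _ _)
    ((c2.const_mul 2).intervalIntegrable _ _), intervalIntegral.integral_const_mul,
    intervalIntegral.integral_const_mul, mul_one, mul_zero, ← key S.k, zero_add, sub_self] at this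
  linarith

theorem Neck.noncirc (h : Neck S.g S.d Ψ) (hN : Nil S.g S.d)
    (hH : hopf (xiN S.g S.d) (La1 S.g) ≠ 0) :
    ¬ ∀ s, deriv (deriv (Gam S.k S.x Ψ)) s =
      ((deriv (nuB S.k Ψ (xiN S.g S.d)) s / nuB S.k Ψ (xiN S.g S.d) s : ℝ) +
        2 * I * nuB S.k Ψ (xiN S.g S.d) s) * deriv (Gam S.k S.x Ψ) s := by
  intro ode
  have hc : (2 * Real.pi * S.k : ℝ) ≠ 0 := by
    have : (0 : ℝ) < S.k := by exact_mod_cast (by have := S.hk; omega : 0 < S.k)
    positivity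
  have key : ∀ s : ℝ, hopf (xiN S.g S.d) (((2 * Real.pi * S.k * s : ℝ) : ℂ) * I) = 0 := fun s => by
    have hz := Neck2_strip S.adm (2 * Real.pi * S.k * s)
    obtain ⟨az, h1, h2⟩ := h.fr.fderiv_a hz
    obtain ⟨b1, b2⟩ := h.fr.B0_mul hz
    obtain ⟨a1, a2, a3, a4⟩ := h.a_bd S.adm (2 * Real.pi * S.k * s)
    have hA := Neck2_path _ s (h.fr.contDiffAt_a hz)
    have hB := Neck2_path 1 (2 * Real.pi * S.k * s) (by rw [one_mul]; exact h.fr.contDiffAt_a hz)
    simp only [one_mul, one_smul] at hB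
    set D := fderiv ℝ (aM Ψ (xiN S.g S.d)) (((2 * Real.pi * S.k * s : ℝ) : ℂ) * I) I
    have d1 : (D 0 0).im = 0 := by
      refine (Neck2_im (Neck2_ent hB 0 0)).unique ?_
      rw [funext fun θ => (h.a_bd S.adm θ).1]
      exact hasDerivAt_const _ _
    have d2 : D 1 0 = -conj (D 0 1) := by
      refine (Neck2_ent hB 1 0).unique ?_
      rw [funext fun θ => (h.a_bd S.adm θ).2.1]
      exact (Neck2_conj (Neck2_ent hB 0 1)).neg
    have d3 : D 1 1 = -D 0 0 := by
      refine (Neck2_ent hB 1 1).unique ?_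
      rw [funext fun θ => (h.a_bd S.adm θ).2.2.1]
      exact (Neck2_ent hB 0 0).neg
    have hp : (aM Ψ (xiN S.g S.d) (((2 * Real.pi * S.k * s : ℝ) : ℂ) * I) 0 0).re ≠ 0 := by
      intro h0
      have e0 : aM Ψ (xiN S.g S.d) (((2 * Real.pi * S.k * s : ℝ) : ℂ) * I) 0 0 = 0 :=
        Complex.ext h0 a1
      have e1 : aM Ψ (xiN S.g S.d) (((2 * Real.pi * S.k * s : ℝ) : ℂ) * I) 0 1 = 0 := by
        rw [h0] at a4
        simpa using a4.symm
      have e2 : aM Ψ (xiN S.g S.d) (((2 * Real.pi * S.k * s : ℝ) : ℂ) * I) = 0 := by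
        ext i j
        fin_cases i <;> fin_cases j
        · exact e0
        · exact e1
        · exact a2.trans (by rw [e1, map_zero, neg_zero]; rfl)
        · exact a3.trans (by rw [e0, neg_zero]; rfl)
      refine (xiN_ne S.adm S.fix hN (ζ := ((2 * Real.pi * S.k * s : ℝ) : ℂ) * I) (by simp)).2 ?_
      have := congrArg (fun M => cf 0 (Bi (Ψ (((2 * Real.pi * S.k * s : ℝ) : ℂ) * I))) * M *
        cf 0 (Bm (Ψ (((2 * Real.pi * S.k * s : ℝ) : ℂ) * I)))) e2
      simp only [aM, ← mul_assoc, b2, one_mul, mul_zero, zero_mul] at this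
      rwa [mul_assoc, b2, mul_one] at this
    have o := ode s
    have g1 : deriv (deriv (Gam S.k S.x Ψ)) s = ((2 * Real.pi * S.k : ℝ) : ℂ) *
        (2 * I * conj (((2 * Real.pi * S.k : ℝ) : ℂ) * D 0 1)) := by
      rw [funext (h.deriv_Gam (x := S.x) S.adm S.k)]
      have := (((Neck2_conj (Neck2_ent hA 0 1)).const_mul (2 * I)).const_mul
        (2 * Real.pi * S.k : ℂ)).deriv
      refine this.trans ?_
      rw [Matrix.smul_apply, real_smul]
      push_cast
      rfl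
    have g2 : deriv (nuB S.k Ψ (xiN S.g S.d)) s =
        -(2 * Real.pi * S.k) * (2 * ((2 * Real.pi * S.k) * (D 0 0).re)) := by
      have := (((Neck2_re (Neck2_ent hA 0 0)).const_mul 2).const_mul
        (-(2 * Real.pi * S.k : ℝ))).deriv
      refine this.trans ?_
      rw [Matrix.smul_apply, smul_re, smul_eq_mul]
    rw [g1, g2, h.deriv_Gam S.adm, nuB] at o
    have h3 := Neck2_ode_alg hc a1 a2 a3 hp d1 d2 d3 (h1 I) (o.trans (by push_cast; rfl))
    rw [h3] at h2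
    have := congrArg (fun M => cf 0 (Bi (Ψ (((2 * Real.pi * S.k * s : ℝ) : ℂ) * I))) * M *
      cf 0 (Bm (Ψ (((2 * Real.pi * S.k * s : ℝ) : ℂ) * I)))) h2
    simp only [← mul_assoc, b2, one_mul, mul_zero, zero_mul] at this
    rw [mul_assoc, b2, mul_one] at this
    exact this.symm
  have han := (Neck2_hopf h.fr.opn h.fr.hol).analyticOnNhd h.fr.opn
  have hconv : Convex ℝ (Strip S.g) := by
    have : Strip S.g = {ζ : ℂ | -Real.log (1 / (8 * ee S.g)) < ζ.re} ∩
        {ζ : ℂ | ζ.re < Real.log (1 / (8 * ee S.g))} := by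
      ext ζ
      exact abs_lt (a := ζ.re)
    rw [this]
    exact (convex_halfSpace_re_gt _).inter (convex_halfSpace_re_lt _)
  have h0 : (0 : ℂ) ∈ Strip S.g := by simpa using Neck2_strip S.adm 0
  refine hH (han.eqOn_zero_of_preconnected_of_frequently_eq_zero hconv.isPreconnected h0 ?_
    (Neck2_La1 S.adm))
  have ht : Filter.Tendsto (fun s : ℝ => ((2 * Real.pi * S.k * s : ℝ) : ℂ) * I) (𝓝[≠] 0)
      (𝓝[≠] 0) := by
    refine tendsto_nhdsWithin_of_tendsto_nhds_of_eventually_within _ ?_ ?_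
    · have : Continuous fun s : ℝ => ((2 * Real.pi * S.k * s : ℝ) : ℂ) * I := by fun_prop
      simpa using (this.tendsto 0).mono_left nhdsWithin_le_nhds
    · refine eventually_nhdsWithin_of_forall fun s hs => ?_
      exact mul_ne_zero (ofReal_ne_zero.2 (mul_ne_zero hc hs)) I_ne_zero
  exact ht.frequently (Filter.Eventually.of_forall key).frequently

end Pool.Agent.MP_efb2da_gt
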