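import Pool.Agent.MP_efb2da_gt.Neck1
import Pool.Agent.MP_efb2da_gt.Est1
import Pool.Agent.MP_efb2da_gt.Contract

open Set Complex
open scoped Topology ComplexConjugate Matrix ContDiff

noncomputable section

namespace Pool.Agent.MP_efb2da_gt

/-- the unitary frame of the equator -/
def Eq0 (s : ℝ) : MW := Hol (fun _ => ((s : ℂ) * I) • A10) 1

def Neck3n : MC := !![-1/4, 1/4; -1/4, 1/4]
def Neck3m : MC := !![-1/4, -1/4; 1/4, 1/4]

lemma Neck3_nil : nilM (-1/2) (Real.pi / 2) = Neck3n := by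
  ext i j
  fin_cases i <;> fin_cases j <;> simp [nilM, Neck3n, s1, s3, sJ] <;> norm_num

lemma Neck3_trp : trpC Neck3n = Neck3m := by
  ext i j
  fin_cases i <;> fin_cases j <;> simp [Neck3n, Neck3m]

lemma Neck3_ct : ct Neck3n = Neck3m := by
  ext i j
  fin_cases i <;> fin_cases j <;> simp [Neck3n, Neck3m, conj_ofNat]

lemma Neck3_ct' : ct Neck3m = Neck3n := by
  rw [← Neck3_ct, ct_ct]

lemma Neck3_A : A10 = mono (-1) Neck3n + mono 1 Neck3m := by
  have h : (((-1 : ℝ) : ℂ) / 2) • s3 = Neck3n + Neck3m := by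
    ext i j
    fin_cases i <;> fin_cases j <;> simp [Neck3n, Neck3m, s3] <;> norm_num
  rw [A10, zeta, Neck3_nil, Neck3_trp, h]
  abel

lemma Neck3_sq : A10 * A10 = ((1/2 : ℂ) ^ 2) • (1 : MW) := by
  have h1 : Neck3n * Neck3n = 0 := by
    ext i j
    fin_cases i <;> fin_cases j <;> simp [Neck3n, matApi2_mulC] <;> norm_num
  have h2 : Neck3m * Neck3m = 0 := by
    ext i j
    fin_cases i <;> fin_cases j <;> simp [Neck3m, matApi2_mulC] <;> norm_num
  have h3 : Neck3n * Neck3m + Neck3m * Neck3n = ((1/2 : ℂ) ^ 2) • (1 : MC) := by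
    ext i j
    fin_cases i <;> fin_cases j <;> simp [Neck3n, Neck3m] <;> norm_num
  have hz : ∀ n : ℤ, mono n 0 = 0 := fun n => by simp [mono]
  rw [Neck3_A, add_mul, mul_add, mul_add, mono_mul, mono_mul, mono_mul, mono_mul, h1, h2, hz, hz,
    zero_add, add_zero, show (-1 : ℤ) + 1 = 0 by norm_num, show (1 : ℤ) + -1 = 0 by norm_num,
    ← mono_add, h3, mono_smul, mono_zero, cst_one]

lemma Neck3_st : st A10 = A10 := by
  rw [Neck3_A, map_add, st_mono, st_mono, Neck3_ct, Neck3_ct', neg_neg, add_comm]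

lemma Neck3_tr : trW A10 = 0 := Lax_tr_zeta _ _ _

lemma Neck3_cf : cf (-1) A10 = Neck3n := by
  rw [A10, cf_zeta, Neck3_nil]

lemma Neck3_E (s : ℝ) : Eq0 s = ((Real.cos (s / 2) : ℝ) : ℂ) • (1 : MW) +
    (2 * I * ((Real.sin (s / 2) : ℝ) : ℂ)) • A10 := by
  have h := Hol_const_sq Neck3_sq ((s : ℂ) * I)
  have e : (s : ℂ) * I * (1/2) = ((s / 2 : ℝ) : ℂ) * I := by push_cast; ring
  rw [e, Complex.cosh_mul_I, Complex.sinh_mul_I, ← Complex.ofReal_cos, ← Complex.ofReal_sin] at h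
  have h2 := congrArg (fun M : MW => (2 : ℂ) • M) h
  simp only [smul_add, smul_smul] at h2
  rw [show (2 : ℂ) * (1/2) = 1 by norm_num, one_smul] at h2
  rw [Eq0, h2]
  congr 2 <;> ring

lemma Neck3_det (s : ℝ) : (Eq0 s).det = 1 :=
  det_Hol continuousOn_const (fun _ _ => by rw [map_smul, Neck3_tr, smul_zero]) 1
    (right_mem_Icc.2 zero_le_one)

lemma Neck3_unit (s : ℝ) : st (Eq0 s) * Eq0 s = 1 := by
  have hc : ((Real.cos (s / 2) : ℝ) : ℂ) ^ 2 + ((Real.sin (s / 2) : ℝ) : ℂ) ^ 2 = 1 := by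
    exact_mod_cast Real.cos_sq_add_sin_sq (s / 2)
  rw [Neck3_E, map_add, st_smul, st_smul, st_one, Neck3_st]
  simp only [map_mul, conj_ofReal, conj_I, conj_ofNat, add_mul, mul_add, smul_mul_assoc,
    mul_smul_comm, one_mul, mul_one, Neck3_sq, smul_smul]
  generalize ((Real.cos (s / 2) : ℝ) : ℂ) = c at hc ⊢
  generalize ((Real.sin (s / 2) : ℝ) : ℂ) = b at hc ⊢
  have hI : I * I = -1 := I_mul_I
  have : (1 : MW) = (1 : ℂ) • (1 : MW) + (0 : ℂ) • A10 := by simp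
  conv_rhs => rw [this]
  match_scalars
  · linear_combination hc - b ^ 2 * hI
  · ring

lemma Neck3_exp (s : ℝ) : exp (((s / 2 : ℝ) : ℂ) * I) =
    ((Real.cos (s / 2) : ℝ) : ℂ) + ((Real.sin (s / 2) : ℝ) : ℂ) * I := by
  rw [exp_mul_I, ofReal_cos, ofReal_sin]

lemma Neck3_exp' (s : ℝ) : exp (-(((s / 2 : ℝ) : ℂ) * I)) =
    ((Real.cos (s / 2) : ℝ) : ℂ) - ((Real.sin (s / 2) : ℝ) : ℂ) * I := by
  rw [← neg_mul, exp_mul_I, ofReal_cos, ofReal_sin, Complex.cos_neg, Complex.sin_neg]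
  ring

lemma Neck3_J0 (s : ℝ) : J0 (Eq0 s) = Dm (s / 2) := by
  rw [Neck3_E, map_add, map_smul, map_smul, J0_one, Neck3_A, map_add, J0_mono, J0_mono, Dm,
    Neck3_exp, Neck3_exp']
  generalize ((Real.cos (s / 2) : ℝ) : ℂ) = c
  generalize ((Real.sin (s / 2) : ℝ) : ℂ) = b
  ext i j
  fin_cases i <;> fin_cases j <;> simp [Neck3n, Neck3m]
  · ring
  · norm_num
  · norm_num
  · ring

lemma Neck3_J1 (s : ℝ) : J1 (Eq0 s) 0 0 = 0 ∧
    J1 (Eq0 s) 0 1 = -(I * ((Real.sin (s / 2) : ℝ) : ℂ)) := by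
  rw [Neck3_E, map_add, map_smul, map_smul, J1_one, Neck3_A, map_add, J1_mono, J1_mono]
  constructor <;> simp [Neck3n, Neck3m, -ofReal_cos, -ofReal_sin]
  ring

lemma Neck3_iw (s : ℝ) : Uf (Eq0 s) = Eq0 s * cst (Dm (-(s / 2))) ∧
    Bm (Eq0 s) = cst (Dm (s / 2)) ∧ Bi (Eq0 s) = cst (Dm (-(s / 2))) := by
  have h := iw_gauge (Φ := 1) (g := 1) Matrix.det_one (Neck3_unit s) (Neck3_det s) MGE_one
    Matrix.det_one
  simp only [mul_one, Uf_one, Bm_one, Neck3_J0, Jet_adjC_Dm] at h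
  refine ⟨h.1, h.2, ?_⟩
  rw [← adj_Bm, h.2, adj_cst, Jet_adjC_Dm]

theorem Eq0_facts (s : ℝ) : (Eq0 s).det = 1 ∧ hz (vec (symM (Eq0 s))) + 1/2 = (1/2) * exp (s * I) ∧
    2 * I * conj ((cf 0 (Bm (Eq0 s)) * cf (-1) A10 * cf 0 (Bi (Eq0 s))) 0 1) =
      (1/2) * I * exp (s * I) := by
  obtain ⟨h1, h2, h3⟩ := Neck3_iw s
  obtain ⟨j1, j2⟩ := Neck3_J1 s
  have hc : ((Real.cos (s / 2) : ℝ) : ℂ) ^ 2 + ((Real.sin (s / 2) : ℝ) : ℂ) ^ 2 = 1 := by
    exact_mod_cast Real.cos_sq_add_sin_sq (s / 2)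
  have hI : I * I = -1 := I_mul_I
  have he : exp (s * I) = exp (((s / 2 : ℝ) : ℂ) * I) * exp (((s / 2 : ℝ) : ℂ) * I) := by
    rw [← Complex.exp_add]; congr 1; push_cast; ring
  have d00 : Dm (s / 2) 0 0 = exp (-(((s / 2 : ℝ) : ℂ) * I)) := rfl
  have d01 : Dm (s / 2) 0 1 = 0 := rfl
  have e01 : Dm (-(s / 2)) 0 1 = 0 := rfl
  have e11 : Dm (-(s / 2)) 1 1 = exp (-(((s / 2 : ℝ) : ℂ) * I)) := by
    change exp (((-(s / 2) : ℝ) : ℂ) * I) = _
    congr 1; push_cast; ring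
  refine ⟨Neck3_det s, ?_, ?_⟩
  · rw [vec, hz_mk3, symM, h1, J1_mul, J1_cst, J0_cst, mul_zero, add_zero, matApi2_mulC, j2, e01,
      e11, he, Neck3_exp, Neck3_exp']
    simp only [mul_zero, zero_add, map_mul, map_neg, map_sub, conj_ofReal, conj_I]
    linear_combination (-1/2 : ℂ) * hc + (1/2) * ((Real.sin (s / 2) : ℝ) : ℂ) ^ 2 * hI
  · rw [h2, h3, cf_cst, cf_cst, if_pos rfl, if_pos rfl, Neck3_cf, matApi2_mulC, matApi2_mulC,
      matApi2_mulC, d00, d01, e01, e11, he, Neck3_exp, Neck3_exp']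
    have n01 : Neck3n 0 1 = 1/4 := rfl
    rw [n01]
    simp only [mul_zero, zero_mul, zero_add, add_zero, map_mul, map_sub, conj_ofReal,
      conj_I, map_div₀, map_one, conj_ofNat]
    ring

/-- position and velocity of the boundary curve as functions of the frame and the potential -/
def Neck3f (p : MW × MW) : ℂ × ℂ :=
  (hz (vec (symM p.1)), 2 * I * conj ((cf 0 (Bm p.1) * cf (-1) p.2 * cf 0 (Bi p.1)) 0 1))

lemma Neck3_fst {Y : Type} [TopologicalSpace Y] {F : MW → Y} {p : MW × MW}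
    (h : ContinuousAt F p.1) : ContinuousAt (fun q : MW × MW => F q.1) p :=
  ContinuousAt.comp (f := fun q : MW × MW => q.1) h continuousAt_fst

lemma Neck3_c5 : Continuous fun M : MC => conj (M 0 1) :=
  Complex.continuous_conj.comp (entC 0 1).continuous

lemma Neck3_c4 {p : MW × MW} (h : p.1.det = 1) :
    ContinuousAt (fun q : MW × MW => cf 0 (Bm q.1) * cf (-1) q.2 * cf 0 (Bi q.1)) p := by
  have c2 : ContinuousAt (fun q : MW × MW => cf 0 (Bm q.1)) p :=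
    Neck3_fst (F := fun M => cf 0 (Bm M))
      (ContinuousAt.comp (f := Bm) (cf 0).continuous.continuousAt (contDiffAt_Bm h).continuousAt)
  have c3 : ContinuousAt (fun q : MW × MW => cf 0 (Bi q.1)) p :=
    Neck3_fst (F := fun M => cf 0 (Bi M))
      (ContinuousAt.comp (f := Bi) (cf 0).continuous.continuousAt (contDiffAt_Bi h).continuousAt)
  have c1 : Continuous (fun q : MW × MW => cf (-1) q.2) :=
    (cf (-1)).continuous.comp continuous_snd
  exact (c2.mul c1.continuousAt).mul c3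

lemma Neck3_cont {p : MW × MW} (h : p.1.det = 1) : ContinuousAt Neck3f p := by
  have c1 : ContinuousAt (fun q : MW × MW => hz (vec (symM q.1))) p := by
    simp only [vec, hz_mk3]
    exact Neck3_fst (F := fun M => conj (symM M 0 1))
      (ContinuousAt.comp (f := symM) Neck3_c5.continuousAt (contDiffAt_symM h).continuousAt)
  have c2 : ContinuousAt (fun q : MW × MW =>
      conj ((cf 0 (Bm q.1) * cf (-1) q.2 * cf 0 (Bi q.1)) 0 1)) p :=
    ContinuousAt.comp (f := fun q : MW × MW => cf 0 (Bm q.1) * cf (-1) q.2 * cf 0 (Bi q.1))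
      Neck3_c5.continuousAt (Neck3_c4 h)
  exact c1.prodMk (continuousAt_const.mul c2)

lemma Neck3_Eq0_cont : Continuous Eq0 :=
  continuous_Hol_const.comp (f := fun s : ℝ => ((s : ℂ) * I) • A10) (by fun_prop)

lemma Neck3_strip {g : Geo} (hg : AdmG g) {ζ : ℂ} (h : ζ.re = 0) : ζ ∈ Strip g := by
  obtain ⟨-, ⟨h1, h2⟩, -⟩ := hg
  change |ζ.re| < _
  rw [h, abs_zero]
  refine Real.log_pos ?_
  rw [lt_div_iff₀ (by positivity)]
  linarith

lemma Neck3_Th {η N : ℝ} {As : Fin 5 → MW} (hL : LimProp As) (S : Sol η N As) (θ : ℝ) :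
    ‖Th S.g S.d (ee S.g * exp (θ * I)) - A10‖ ≤ (2 * |N| + 1) * η := by
  have he : 0 < ee S.g := S.adm.2.1.1
  have hu : ‖(ee S.g : ℂ) * exp (θ * I)‖ = ee S.g := by
    rw [norm_mul, Complex.norm_exp_ofReal_mul_I, mul_one, Complex.norm_real,
      Real.norm_of_nonneg he.le]
  have h1 := est_Th S.g S.d (ee S.g * exp (θ * I))
  rw [hu, show ee S.g + ee S.g ^ 2 / ee S.g = 2 * ee S.g by field_simp; ring] at h1
  have h2 := S.close 1
  rw [hL.one] at h2
  have h3 : ‖S.d‖ ≤ |N| := S.bd.trans (le_abs_self N)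
  have h4 : 2 * ee S.g * ‖S.d‖ ≤ 2 * η * |N| := by
    have := S.e_le
    gcongr
    linarith
  calc _ ≤ ‖Th S.g S.d (ee S.g * exp (θ * I)) - AA S.d 1‖ + ‖AA S.d 1 - A10‖ :=
        norm_sub_le_norm_sub_add_norm_sub _ _ _
    _ ≤ _ := by linarith

lemma Neck3_frame {η N : ℝ} {As : Fin 5 → MW} (hL : LimProp As) (S : Sol η N As) {Ψ : ℂ → MW}
    (h : Neck S.g S.d Ψ) (hη : (2 * |N| + 1) * η ≤ 1) {s : ℝ} (hs : s ∈ Icc (0:ℝ) 1) :
    ‖Ψ (((2 * Real.pi * S.k * s : ℝ) : ℂ) * I) - Eq0 (2 * Real.pi * s)‖ ≤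
      Real.exp (2 * (2 * Real.pi * (‖A10‖ + 1))) * (2 * Real.pi * ((2 * |N| + 1) * η)) := by
  set θ : ℝ := 2 * Real.pi * S.k * s with hθ
  have hk : (0:ℝ) < S.k := by have := S.hk; positivity
  have hkt : θ * tt S.g = 2 * Real.pi * s := by rw [hθ, S.ht]; field_simp
  have hγ : ∀ r : ℝ, HasDerivAt (fun r : ℝ => (r : ℂ) * (θ * I)) (θ * I) r := fun r => by
    simpa using (Complex.ofRealCLM.hasDerivAt (x := r)).mul_const ((θ : ℂ) * I)
  have hO : ∀ r : ℝ, (r : ℂ) * (θ * I) ∈ Strip S.g := fun r => Neck3_strip S.adm (by simp)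
  have ha : ContinuousOn (fun r : ℝ => ((θ : ℂ) * I) • xiN S.g S.d (r * (θ * I))) (Icc 0 1) :=
    (h.fr.hol.continuousOn.comp (f := fun r : ℝ => (r : ℂ) * (θ * I)) (s := Icc 0 1)
      (by fun_prop) fun r _ => hO r).const_smul ((θ : ℂ) * I)
  have hp := frame_path h.fr.ode (right_mem_Icc.2 zero_le_one) hγ (fun r _ => hO r) ha
    (fun _ _ => rfl) 1 (right_mem_Icc.2 zero_le_one)
  simp only [ofReal_one, one_mul, ofReal_zero, zero_mul, h.zero] at hp
  have e : ∀ r : ℝ, ((θ : ℂ) * I) • xiN S.g S.d (r * (θ * I)) =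
      (((2 * Real.pi * s : ℝ) : ℂ) * I) • Th S.g S.d (ee S.g * exp ((r * θ : ℝ) * I)) := fun r => by
    rw [xiN, smul_smul, ← hkt]
    congr 1
    · push_cast; ring
    · congr 3; push_cast; ring
  have hn : ‖((2 * Real.pi * s : ℝ) : ℂ) * I‖ ≤ 2 * Real.pi := by
    rw [norm_mul, norm_I, mul_one, Complex.norm_real,
      Real.norm_of_nonneg (by have := hs.1; positivity)]
    have := hs.2
    nlinarith [Real.pi_pos]
  have hd : ∀ r : ℝ, ‖((θ : ℂ) * I) • xiN S.g S.d (r * (θ * I)) -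
      (((2 * Real.pi * s : ℝ) : ℂ) * I) • A10‖ ≤ 2 * Real.pi * ((2 * |N| + 1) * η) := fun r => by
    rw [e, ← smul_sub, norm_smul]
    exact mul_le_mul hn (Neck3_Th hL S _) (norm_nonneg _) (by positivity)
  have hK : ∀ r ∈ Icc (0:ℝ) 1, ‖((θ : ℂ) * I) • xiN S.g S.d (r * (θ * I))‖ ≤
      2 * Real.pi * (‖A10‖ + 1) := fun r _ => by
    rw [e, norm_smul]
    refine mul_le_mul hn ?_ (norm_nonneg _) (by positivity)
    have h1 := (Neck3_Th hL S (r * θ)).trans hη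
    have h2 := norm_le_insert' (Th S.g S.d (ee S.g * exp ((r * θ : ℝ) * I))) A10
    linarith
  have hK' : ∀ r ∈ Icc (0:ℝ) 1, ‖(((2 * Real.pi * s : ℝ) : ℂ) * I) • A10‖ ≤
      2 * Real.pi * (‖A10‖ + 1) := fun r _ => by
    rw [norm_smul]
    exact mul_le_mul hn (by linarith) (norm_nonneg _) (by positivity)
  have hb := norm_Hol_sub_le ha continuousOn_const hK hK' 1 (right_mem_Icc.2 zero_le_one)
  rw [hp, Eq0]
  refine hb.trans ?_
  gcongr
  have := intervalIntegral.norm_integral_le_of_norm_le_const (a := 0) (b := 1)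
    (f := fun r : ℝ => ‖((θ : ℂ) * I) • xiN S.g S.d (r * (θ * I)) -
      (((2 * Real.pi * s : ℝ) : ℂ) * I) • A10‖) (C := 2 * Real.pi * ((2 * |N| + 1) * η))
    (fun r _ => by rw [norm_norm]; exact hd r)
  rw [sub_zero, abs_one, mul_one] at this
  exact (le_abs_self _).trans this

theorem neck_close {As : Fin 5 → MW} (hL : LimProp As) (N : ℝ) : ∃ η₀ > 0,
    ∀ (η : ℝ) (S : Sol η N As) (Ψ : ℂ → MW), η ≤ η₀ → Neck S.g S.d Ψ → ∀ s ∈ Icc (0:ℝ) 1,
      ‖Gam S.k S.x Ψ s - (1/2) * exp (2 * Real.pi * I * s)‖ ≤ 1/20 ∧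
      ‖deriv (Gam S.k S.x Ψ) s - Real.pi * I * exp (2 * Real.pi * I * s)‖ ≤ 1/5 := by
  have hK : IsCompact ((fun s : ℝ => (Eq0 (2 * Real.pi * s), A10)) '' Icc 0 1) :=
    isCompact_Icc.image ((Neck3_Eq0_cont.comp (by fun_prop)).prodMk continuous_const)
  obtain ⟨δ, hδ, hf⟩ := unif_near hK (f := Neck3f)
    (by rintro _ ⟨s, -, rfl⟩; exact Neck3_cont (Neck3_det _)) (η := 1/40) (by norm_num)
  set C : ℝ := Real.exp (2 * (2 * Real.pi * (‖A10‖ + 1))) * (2 * Real.pi) with hC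
  have hC0 : 0 < C := by positivity
  have hN : 0 < 2 * |N| + 1 := by positivity
  refine ⟨min (1/40) (min 1 (δ / (C + 1)) / (2 * |N| + 1)), by positivity, ?_⟩
  intro η S Ψ hη h s hs
  have h40 : η ≤ 1/40 := hη.trans (min_le_left _ _)
  have h2 : (2 * |N| + 1) * η ≤ min 1 (δ / (C + 1)) := by
    have := hη.trans (min_le_right _ _)
    rwa [le_div_iff₀ hN, mul_comm] at this
  have h3 : (2 * |N| + 1) * η ≤ 1 := h2.trans (min_le_left _ _)
  have h4 : (2 * |N| + 1) * η * (C + 1) ≤ δ := (le_div_iff₀ (by positivity)).1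
    (h2.trans (min_le_right _ _))
  have hη0 : 0 ≤ η := (norm_nonneg _).trans (S.close 0)
  have h5 : 0 ≤ (2 * |N| + 1) * η := by positivity
  set θ : ℝ := 2 * Real.pi * S.k * s with hθ
  have f1 := Neck3_frame hL S h h3 hs
  have f2 := Neck3_Th hL S θ
  have hd : dist (Ψ (θ * I), Th S.g S.d (ee S.g * exp (θ * I))) (Eq0 (2 * Real.pi * s), A10) ≤ δ := by
    rw [Prod.dist_eq, dist_eq_norm, dist_eq_norm]
    refine max_le (f1.trans ?_) (f2.trans ?_)
    · rw [← mul_assoc, ← hC]; nlinarith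
    · nlinarith
  have hv := hf _ ⟨s, hs, rfl⟩ _ hd
  rw [Prod.dist_eq, max_le_iff, dist_eq_norm, dist_eq_norm] at hv
  obtain ⟨v1, v2⟩ := hv
  obtain ⟨-, q1, q2⟩ := Eq0_facts (2 * Real.pi * s)
  have ee1 : ((2 * Real.pi * s : ℝ) : ℂ) * I = 2 * Real.pi * I * s := by push_cast; ring
  rw [ee1] at q1 q2
  simp only [Neck3f] at v1 v2
  constructor
  · have e : Gam S.k S.x Ψ s = hz (vec (symM (Ψ (θ * I)))) - S.x := by
      rw [Gam, pt]
      apply Complex.ext <;> simp [hz, mk3, hθ]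
    have e2 : Gam S.k S.x Ψ s - (1/2) * exp (2 * Real.pi * I * s) =
        (hz (vec (symM (Ψ (θ * I)))) - hz (vec (symM (Eq0 (2 * Real.pi * s))))) -
          ((S.x + 1/2 : ℝ) : ℂ) := by
      rw [e, ← q1]; push_cast; ring
    rw [e2]
    refine (norm_sub_le _ _).trans ?_
    rw [Complex.norm_real, Real.norm_eq_abs]
    linarith [S.x_close]
  · have hk : (S.k : ℂ) ≠ 0 := by
      have := S.hk
      exact_mod_cast (by omega : S.k ≠ 0)
    have ht : (tt S.g : ℂ) = 1 / S.k := by rw [S.ht]; push_cast; ring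
    have e : deriv (Gam S.k S.x Ψ) s = (2 * Real.pi : ℂ) * (2 * I * conj ((cf 0 (Bm (Ψ (θ * I))) *
        cf (-1) (Th S.g S.d (ee S.g * exp (θ * I))) * cf 0 (Bi (Ψ (θ * I)))) 0 1)) := by
      rw [h.deriv_Gam S.adm, aM, xiN, map_smul, mul_smul_comm, smul_mul_assoc, Matrix.smul_apply,
        smul_eq_mul, map_mul, conj_ofReal, ht, ← hθ]
      field_simp
    have e2 : (Real.pi : ℂ) * I * exp (2 * Real.pi * I * s) =
        (2 * Real.pi : ℂ) * ((1/2) * I * exp (2 * Real.pi * I * s)) := by ring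
    rw [e, e2, ← q2, ← mul_sub, norm_mul]
    have hn : ‖(2 * Real.pi : ℂ)‖ ≤ 8 := by
      rw [norm_mul, Complex.norm_real, Real.norm_of_nonneg Real.pi_pos.le, Complex.norm_ofNat]
      linarith [Real.pi_le_four]
    calc _ ≤ 8 * (1/40) := mul_le_mul hn v2 (norm_nonneg _) (by norm_num)
      _ = 1/5 := by norm_num

end Pool.Agent.MP_efb2da_gt
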