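import Pool.Agent.MP_efb2da_gt.Sol0
import Pool.Agent.MP_efb2da_gt.Est1
import Pool.Agent.MP_efb2da_gt.Est2

open Set Complex
open scoped Topology ComplexConjugate Matrix ContDiff

noncomputable section

namespace Pool.Agent.MP_efb2da_gt

lemma nonV_G_le (d : Dat) : ‖GG d‖ ≤ ‖d‖ := (norm_fst_le d.2).trans (norm_snd_le d)

lemma nonV_m_le (d : Dat) (i : Fin 3) (z : ℂ) : ‖mv (mm d i) z‖ ≤ ‖d‖ :=
  (norm_mv_le _ _).trans ((norm_le_pi_norm (mm d) i).trans ((norm_snd_le d.2).trans (norm_snd_le d)))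

lemma nonV_triple {A B C : MW} {N : ℝ} (hA : ‖A‖ ≤ N) (hB : ‖B‖ ≤ N) (hC : ‖C‖ ≤ 2 * N) :
    ‖A * B * C‖ ≤ 2 * N ^ 3 ∧ ‖C * B * A‖ ≤ 2 * N ^ 3 := by
  have hN : 0 ≤ N := (norm_nonneg _).trans hA
  constructor
  · calc ‖A * B * C‖ ≤ ‖A‖ * ‖B‖ * ‖C‖ :=
        (norm_mul_le _ _).trans (mul_le_mul_of_nonneg_right (norm_mul_le _ _) (norm_nonneg _))
      _ ≤ N * N * (2 * N) := by gcongr
      _ = 2 * N ^ 3 := by ring
  · calc ‖C * B * A‖ ≤ ‖C‖ * ‖B‖ * ‖A‖ :=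
        (norm_mul_le _ _).trans (mul_le_mul_of_nonneg_right (norm_mul_le _ _) (norm_nonneg _))
      _ ≤ (2 * N) * N * N := by gcongr
      _ = 2 * N ^ 3 := by ring

lemma nonV_ratio {z : ℂ} {p r : ℝ} (hr : 0 < r) (hp : |p| ≤ 2) (h : r ≤ ‖z - p‖) :
    ‖z * (z - p)⁻¹‖ ≤ 1 + 2 / r := by
  have h0 : 0 < ‖z - p‖ := hr.trans_le h
  have hne : z - p ≠ 0 := norm_pos_iff.mp h0
  have e : z * (z - p)⁻¹ = 1 + p * (z - p)⁻¹ := by field_simp; ring
  rw [e]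
  refine (norm_add_le _ _).trans ?_
  rw [norm_one, norm_mul, norm_inv, Complex.norm_real, Real.norm_eq_abs, ← div_eq_mul_inv]
  gcongr

lemma nonV_corr (g : Geo) (d : Dat) (z : ℂ) {N r s : ℝ} (hd : ‖d‖ ≤ N) (hr : 0 < r)
    (h : r ≤ ‖z - 1‖) (hq : 0 < qq g) (hz1 : √(qq g) / 2 < ‖z‖) (hz2 : ‖z‖ < 2 / √(qq g))
    (he : ee g ^ 2 ≤ s) (hs : √(qq g) ≤ s) :
    ‖z • (h1 g d z + hinf g d z + h0 g d z)‖ ≤ ((1 + 2 / r) / r * N + 8 * N ^ 3) * s := by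
  have hN : 0 ≤ N := (norm_nonneg _).trans hd
  have hsq : 0 < √(qq g) := Real.sqrt_pos.mpr hq
  have hz0 : 0 < ‖z‖ := lt_trans (by positivity) hz1
  have hs0 : 0 ≤ s := hsq.le.trans hs
  have hG := (nonV_G_le d).trans hd
  have hG' : ‖adj (GG d)‖ ≤ 2 * N := (norm_adj_le _).trans (by linarith)
  have hqq : qq g = √(qq g) * √(qq g) := (Real.mul_self_sqrt hq.le).symm
  have a1 : ‖z • h1 g d z‖ ≤ (1 + 2 / r) / r * N * s := by
    have h0' : 0 < ‖z - 1‖ := hr.trans_le h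
    have hne : z - 1 ≠ 0 := norm_pos_iff.mp h0'
    have hrat : ‖z * (z - 1)⁻¹‖ ≤ 1 + 2 / r := by
      have := nonV_ratio (z := z) (p := 1) hr (by norm_num) (by simpa using h)
      simpa using this
    have e : z * ((ee g : ℂ) ^ 2 / (z - 1) ^ 2) = z * (z - 1)⁻¹ * (z - 1)⁻¹ * (ee g : ℂ) ^ 2 := by
      field_simp
    rw [h1, smul_neg, norm_neg, smul_smul, norm_smul, norm_sw, e, norm_mul, norm_mul, norm_inv,
      norm_pow, Complex.norm_real, Real.norm_eq_abs, sq_abs]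
    have hm := (nonV_m_le d 1 ((ee g : ℂ) ^ 2 / (z - 1))).trans hd
    have hi : ‖z - 1‖⁻¹ ≤ r⁻¹ := inv_anti₀ hr h
    calc _ ≤ (1 + 2 / r) * r⁻¹ * s * N := by gcongr
      _ = _ := by ring
  have a2 : ‖z • hinf g d z‖ ≤ 4 * N ^ 3 * s := by
    have hne : z ≠ 0 := norm_pos_iff.mp hz0
    have e : z * ((qq g : ℂ) / z ^ 2) = (qq g : ℂ) / z := by field_simp
    rw [hinf, smul_smul, norm_smul, e, norm_div, Complex.norm_real, Real.norm_of_nonneg hq.le]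
    have hm := (nonV_m_le d 2 ((qq g : ℂ) / z)).trans hd
    have h3 := (nonV_triple hG hm hG').1
    have h4 : qq g / ‖z‖ ≤ 2 * s := by
      rw [div_le_iff₀ hz0]
      calc qq g = √(qq g) * √(qq g) := hqq
        _ ≤ s * (2 * ‖z‖) := by gcongr; linarith
        _ = 2 * s * ‖z‖ := by ring
    calc _ ≤ (2 * s) * (2 * N ^ 3) := by gcongr
      _ = _ := by ring
  have a3 : ‖z • h0 g d z‖ ≤ 4 * N ^ 3 * s := by
    rw [h0, smul_smul, norm_smul, norm_mul, Complex.norm_real, Real.norm_of_nonneg hq.le]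
    have hm := (nonV_m_le d 0 ((qq g : ℂ) * z)).trans hd
    have h3 := (nonV_triple hG hm hG').2
    have h4 : ‖z‖ * qq g ≤ 2 * s := by
      rw [lt_div_iff₀ hsq] at hz2
      calc ‖z‖ * qq g = (‖z‖ * √(qq g)) * √(qq g) := by rw [mul_assoc, ← hqq]
        _ ≤ 2 * s := by gcongr
    calc _ ≤ (2 * s) * (2 * N ^ 3) := by gcongr
      _ = _ := by ring
  rw [smul_add, smul_add]
  calc _ ≤ ‖z • h1 g d z‖ + ‖z • hinf g d z‖ + ‖z • h0 g d z‖ := norm_add₃_le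
    _ ≤ (1 + 2 / r) / r * N * s + 4 * N ^ 3 * s + 4 * N ^ 3 * s := by gcongr
    _ = _ := by ring

/-- the test functional -/
def nonV_f (c : MC) : MW →ₗ[ℂ] ℂ where
  toFun X := trC (c * cf (-1) X)
  map_add' X Y := by rw [map_add, mul_add, map_add]
  map_smul' a X := by rw [map_smul, mul_smul_comm, map_smul]; rfl

lemma nonV_f_apply (c : MC) (X : MW) : nonV_f c X = trC (c * cf (-1) X) := rfl

lemma nonV_f_le (c : MC) (X : MW) : ‖nonV_f c X‖ ≤ 2 * ‖c‖ * ‖X‖ := by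
  rw [nonV_f_apply]
  calc _ ≤ 2 * ‖c * cf (-1) X‖ := norm_trC_le _
    _ ≤ 2 * (‖c‖ * ‖cf (-1) X‖) := by gcongr; exact norm_mul_le _ _
    _ ≤ 2 * (‖c‖ * ‖X‖) := by gcongr; exact norm_cf_le _ _
    _ = _ := by ring

lemma nonV_tr1 (a b : MC) : trC ((a * b - b * a) * a) = 0 := by
  simp only [trC_apply, Matrix.sub_apply, matApi2_mulC]; ring

lemma nonV_tr2 (a b : MC) : trC ((a * b - b * a) * b) = 0 := by
  simp only [trC_apply, Matrix.sub_apply, matApi2_mulC]; ring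

lemma nonV_tr3 (a b c : MC) : trC ((a * b - b * a) * c) = -trC (b * (a * c - c * a)) := by
  simp only [trC_apply, Matrix.sub_apply, matApi2_mulC]; ring

lemma nonV_lim {As : Fin 5 → MW} (hL : LimProp As) : ∃ (c : MC) (a : ℝ), 0 < a ∧
    nonV_f c (As 0) ≠ 0 ∧ ∀ j, j ≠ 0 → nonV_f c (As j) = 0 ∧ a ≤ ‖cf (-1) (As j)‖ := by
  have h1 : cf (-1) (As 1) ≠ 0 := fun h => hL.triple (by rw [h]; simp)
  have h2 : cf (-1) (As 2) ≠ 0 := fun h => hL.triple (by rw [h]; simp)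
  refine ⟨cf (-1) (As 1) * cf (-1) (As 2) - cf (-1) (As 2) * cf (-1) (As 1),
    min ‖cf (-1) (As 1)‖ ‖cf (-1) (As 2)‖, lt_min (norm_pos_iff.mpr h1) (norm_pos_iff.mpr h2),
    ?_, fun j hj => ?_⟩
  · rw [nonV_f_apply, nonV_tr3]
    exact neg_ne_zero.mpr hL.triple
  · fin_cases j
    · exact absurd rfl hj
    · exact ⟨nonV_tr1 _ _, min_le_left _ _⟩
    · exact ⟨nonV_tr2 _ _, min_le_right _ _⟩
    · refine ⟨?_, ?_⟩
      · show nonV_f _ (As 3) = 0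
        rw [nonV_f_apply, hL.e3]; exact nonV_tr1 _ _
      · show _ ≤ ‖cf (-1) (As 3)‖
        rw [hL.e3]; exact min_le_left _ _
    · refine ⟨?_, ?_⟩
      · show nonV_f _ (As 4) = 0
        rw [nonV_f_apply, hL.e4]; exact nonV_tr2 _ _
      · show _ ≤ ‖cf (-1) (As 4)‖
        rw [hL.e4]; exact min_le_right _ _

lemma nonV_small {K δ : ℝ} (hK : 0 ≤ K) (hδ : 0 < δ) : ∃ s > 0, s ≤ 1/8 ∧ K * s < δ := by
  refine ⟨min (1/8) (δ / (K + 1)), by positivity, min_le_left _ _, ?_⟩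
  calc K * min (1/8) (δ / (K + 1)) ≤ K * (δ / (K + 1)) := by gcongr; exact min_le_right _ _
    _ < δ := by
      rw [← mul_div_assoc, div_lt_iff₀ (by positivity)]; nlinarith

lemma nonV_cf_le {A B : MW} {η : ℝ} (h : ‖A - B‖ ≤ η) : ‖cf (-1) B‖ ≤ ‖cf (-1) A‖ + η := by
  have e : cf (-1) B = cf (-1) A - cf (-1) (A - B) := by rw [map_sub]; abel
  rw [e]
  exact (norm_sub_le _ _).trans (by gcongr; exact (norm_cf_le _ _).trans h)

lemma nonV_neck {g : Geo} {d : Dat} (hg : AdmG g) (hf : Fix g d) {z : ℂ} {N r : ℝ}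
    (hd : ‖d‖ ≤ N) (hr : r ≤ 1/8) (h : ‖z - 1‖ ≤ r) (he : ee g / 2 < ‖z - 1‖)
    (h0 : cf (-1) (Xi g d z) = 0) : ‖cf (-1) (AA d 1)‖ ≤ (r + 2 * ee g) * N := by
  have hee : 0 < ee g := hg.2.1.1
  have hu : 0 < ‖z - 1‖ := lt_trans (by positivity) he
  have e := Th_eq hg hf (norm_pos_iff.mp hu) (h.trans hr)
  rw [add_sub_cancel] at e
  have e2 : cf (-1) (Th g d (z - 1)) = 0 := by rw [e, map_smul, h0, smul_zero]
  have h1 := nonV_cf_le (est_Th g d (z - 1))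
  rw [e2, norm_zero, zero_add] at h1
  refine h1.trans ?_
  have h2 : ee g ^ 2 / ‖z - 1‖ ≤ 2 * ee g := by
    rw [div_le_iff₀ hu]; nlinarith
  have : 0 ≤ r := hu.le.trans h
  gcongr

lemma nonV_cap {g : Geo} {d : Dat} {z : ℂ} {C r : ℝ} (j : Fin 5) (hz : z ≠ pos (pp g) j)
    (h : ‖z - pos (pp g) j‖ ≤ r) (hC : ‖reg g d j z‖ ≤ C)
    (h0 : cf (-1) (Xi g d z) = 0) : ‖cf (-1) (AA d j)‖ ≤ r * C := by
  have hne : z - pos (pp g) j ≠ 0 := sub_ne_zero.mpr hz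
  rw [Xi_eq_reg j z, map_add, map_smul] at h0
  have e : cf (-1) (AA d j) = -((z - pos (pp g) j) • cf (-1) (reg g d j z)) := by
    have := congrArg (fun X => (z - pos (pp g) j) • X) h0
    simp only [smul_add, smul_smul, mul_inv_cancel₀ hne, one_smul, smul_zero] at this
    exact eq_neg_of_add_eq_zero_left this
  rw [e, norm_neg, norm_smul]
  have : 0 ≤ r := (norm_nonneg _).trans h
  gcongr
  exact (norm_cf_le _ _).trans hC

lemma nonV_bulk {g : Geo} {d : Dat} {As : Fin 5 → MW} {c : MC} (hg : AdmG g) {z : ℂ}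
    {r η E : ℝ} (hr : 0 < r) (hz : z ≠ 0) (h : ∀ j, j ≠ 0 → r ≤ ‖z - pos (pp g) j‖)
    (hA : ∀ j, j ≠ 0 → nonV_f c (As j) = 0) (hc : ∀ j, ‖AA d j - As j‖ ≤ η)
    (hE : ‖z • (h1 g d z + hinf g d z + h0 g d z)‖ ≤ E)
    (h0' : cf (-1) (Xi g d z) = 0) :
    ‖nonV_f c (As 0)‖ ≤ 2 * ‖c‖ * (5 * ((1 + 2 / r) * η) + E) := by
  have hη : 0 ≤ η := (norm_nonneg _).trans (hc 0)
  have hp0 : pos (pp g) 0 = 0 := rfl
  have hrat : ∀ j, ‖z * (z - pos (pp g) j)⁻¹‖ ≤ 1 + 2 / r := by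
    intro j
    by_cases hj : j = 0
    · rw [hj, hp0, Complex.ofReal_zero, sub_zero, mul_inv_cancel₀ hz, norm_one]
      have : 0 ≤ 2 / r := by positivity
      linarith
    · exact nonV_ratio hr ((abs_pos_le hg.2.2.2 j).trans (by norm_num)) (h j hj)
  have e1 : z • Xi g d z = ∑ j, (z * (z - pos (pp g) j)⁻¹) • AA d j +
      z • (h1 g d z + hinf g d z + h0 g d z) := by
    rw [Xi, rat, add_assoc, add_assoc, ← add_assoc (h1 g d z), smul_add, Finset.smul_sum]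
    simp only [smul_smul]
  have e2 : nonV_f c (z • Xi g d z) = 0 := by
    rw [map_smul, nonV_f_apply, h0', mul_zero, map_zero, smul_zero]
  have e3 : nonV_f c (∑ j, (z * (z - pos (pp g) j)⁻¹) • As j) = nonV_f c (As 0) := by
    rw [map_sum, Finset.sum_eq_single 0]
    · rw [hp0, Complex.ofReal_zero, sub_zero, mul_inv_cancel₀ hz, one_smul]
    · intro j _ hj
      rw [map_smul, hA j hj, smul_zero]
    · intro hh; exact absurd (Finset.mem_univ _) hh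
  have e4 : nonV_f c (As 0) = -nonV_f c (∑ j, (z * (z - pos (pp g) j)⁻¹) • (AA d j - As j) +
      z • (h1 g d z + hinf g d z + h0 g d z)) := by
    rw [e1] at e2
    rw [← e3, eq_neg_iff_add_eq_zero, ← map_add, ← e2, ← add_assoc, ← Finset.sum_add_distrib]
    congr 2
    refine Finset.sum_congr rfl fun j _ => ?_
    rw [← smul_add, add_sub_cancel]
  rw [e4, norm_neg]
  refine (nonV_f_le _ _).trans ?_
  gcongr
  refine (norm_add_le _ _).trans (add_le_add ?_ hE)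
  refine (norm_sum_le _ _).trans ?_
  calc ∑ j, ‖(z * (z - pos (pp g) j)⁻¹) • (AA d j - As j)‖ ≤ ∑ _j : Fin 5, (1 + 2 / r) * η := by
        refine Finset.sum_le_sum fun j _ => ?_
        rw [norm_smul]
        have := hrat j
        have := hc j
        gcongr
    _ = 5 * ((1 + 2 / r) * η) := by simp

theorem sol_ne {As : Fin 5 → MW} (hL : LimProp As) (N : ℝ) : ∃ η₀ > 0, ∀ (η : ℝ) (S : Sol η N As),
    η ≤ η₀ → ∀ z : ℂ, √(qq S.g) / 2 < ‖z‖ → ‖z‖ < 2 / √(qq S.g) → ee S.g / 2 < ‖z - 1‖ →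
      (∀ j, z ≠ pp S.g j) → cf (-1) (Xi S.g S.d z) ≠ 0 := by
  obtain ⟨c, a, ha, hf0, hfj⟩ := nonV_lim hL
  obtain ⟨C, hC⟩ := est_reg N
  obtain ⟨r, hr0, hr8, hr⟩ := nonV_small (K := |N| + |C|) (δ := a / 2) (by positivity)
    (by positivity)
  obtain ⟨s1, hs10, -, hs1⟩ := nonV_small (K := 1 + 2 * |N|) (δ := a / 2) (by positivity)
    (by positivity)
  obtain ⟨s2, hs20, hs28, hs2⟩ := nonV_small
    (K := 2 * ‖c‖ * (5 * (1 + 2 / r) + ((1 + 2 / r) / r * |N| + 8 * |N| ^ 3)))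
    (δ := ‖nonV_f c (As 0)‖) (by positivity) (norm_pos_iff.mpr hf0)
  refine ⟨min s1 (s2 ^ 2), by positivity, fun η S hη z hz1 hz2 hz3 hz4 h0' => ?_⟩
  have hη1 : η ≤ s1 := hη.trans (min_le_left _ _)
  have hη2 : η ≤ s2 ^ 2 := hη.trans (min_le_right _ _)
  have hη3 : η ≤ s2 := hη2.trans (by nlinarith)
  have hg := S.adm
  have hee : 0 < ee S.g := hg.2.1.1
  have hqq : 0 < qq S.g := hg.2.2.1.1
  have hη0 : 0 ≤ η := hee.le.trans S.e_le
  have hN : |N| = N := abs_of_nonneg ((norm_nonneg _).trans S.bd)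
  have hN0 : 0 ≤ N := (norm_nonneg _).trans S.bd
  rw [hN] at hr hs1 hs2
  have hCa : C ≤ |C| := le_abs_self C
  have hC0 : 0 ≤ |C| := abs_nonneg C
  by_cases c1 : ‖z - 1‖ ≤ r
  · have k1 := nonV_neck hg S.fix S.bd hr8 c1 hz3 h0'
    have k2 := nonV_cf_le (S.close 1)
    have k3 := (hfj 1 (by decide)).2
    have k4 : (r + 2 * ee S.g) * N ≤ (r + 2 * s1) * N := by
      have := S.e_le.trans hη1
      gcongr
    nlinarith [mul_nonneg hr0.le hC0]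
  by_cases c2 : ∃ j, ‖z - pp S.g j‖ ≤ r
  · obtain ⟨j, hj⟩ := c2
    have k0 := (hC S.g S.d j z hg S.bd (hj.trans hr8)).1.trans hCa
    have k1 := nonV_cap (cj5 j) (by rw [pos_cj5]; exact hz4 j) (by simpa only [pos_cj5] using hj) k0 h0'
    have k2 := nonV_cf_le (S.close (cj5 j))
    have k3 := (hfj (cj5 j) (by fin_cases j <;> decide)).2
    nlinarith [mul_nonneg hr0.le hN0, mul_nonneg hs10.le hN0]
  push Not at c1 c2
  have hz0 : z ≠ 0 := norm_pos_iff.mp (lt_of_le_of_lt (by positivity) hz1)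
  have hsep : ∀ j, j ≠ 0 → r ≤ ‖z - pos (pp S.g) j‖ := by
    intro j hj
    fin_cases j
    · exact absurd rfl hj
    · have : ((pos (pp S.g) 1 : ℝ) : ℂ) = 1 := by simp [pos]
      show r ≤ ‖z - pos (pp S.g) 1‖
      rw [this]; exact c1.le
    · exact (c2 0).le
    · exact (c2 1).le
    · exact (c2 2).le
  have he2 : ee S.g ^ 2 ≤ s2 := by
    have h1 := S.e_le.trans hη3
    have h2 := hg.2.1.2
    nlinarith
  have hq2 : √(qq S.g) ≤ s2 := by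
    rw [Real.sqrt_le_left hs20.le]; exact S.q_le.trans hη2
  have k1 := nonV_corr S.g S.d z S.bd hr0 c1.le hqq hz1 hz2 he2 hq2
  have k2 := nonV_bulk hg hr0 hz0 hsep (fun j hj => (hfj j hj).1) S.close k1 h0'
  refine absurd (k2.trans ?_) (not_le.mpr hs2)
  calc _ ≤ 2 * ‖c‖ * (5 * ((1 + 2 / r) * s2) + ((1 + 2 / r) / r * N + 8 * N ^ 3) * s2) := by
        gcongr
    _ = _ := by ring

end Pool.Agent.MP_efb2da_gt
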