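import Pool.Agent.MP_efb2da_gt.Surf1

open scoped Manifold ContDiff ComplexConjugate Topology
open Set Complex

noncomputable section

namespace Pool.Agent.MP_efb2da_gt

/-- retraction of the plane onto the strip `0 ≤ re ≤ 1/4` -/
def surfBdCl (ζ : ℂ) : ℂ := ((max 0 (min ζ.re (1/4)) : ℝ) : ℂ) + ζ.im * I

lemma surfBdCl_re (ζ : ℂ) : (surfBdCl ζ).re = max 0 (min ζ.re (1/4)) := by simp [surfBdCl]

lemma surfBdCl_eq {ζ : ℂ} (h0 : 0 ≤ ζ.re) (h1 : ζ.re ≤ 1/4) : surfBdCl ζ = ζ := by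
  rw [surfBdCl, min_eq_left h1, max_eq_right h0, re_add_im]

lemma surfBdCl_cont : Continuous surfBdCl := by
  unfold surfBdCl
  fun_prop

lemma surfBdCl_nonneg (ζ : ℂ) : 0 ≤ (surfBdCl ζ).re := by
  rw [surfBdCl_re]; exact le_max_left _ _

lemma surfBdCl_abs (ζ : ℂ) : |(surfBdCl ζ).re| < 1/2 := by
  rw [abs_of_nonneg (surfBdCl_nonneg ζ), surfBdCl_re]
  exact max_lt (by norm_num) ((min_le_right _ _).trans_lt (by norm_num))

namespace SurfData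
variable (D : SurfData)

/-- base point -/
def surfBdZ (ζ : ℂ) : ℂ := 1 + D.ε * exp ζ
/-- fibre coordinate -/
def surfBdH (ζ : ℂ) : ℂ := D.eta 1 0 1 D.ε ζ

lemma surfBd_k : D.k ≠ 0 := by have := D.hk; omega

lemma surfBdZ_norm (ζ : ℂ) : ‖D.surfBdZ ζ - 1‖ = D.ε * Real.exp ζ.re := by
  rw [surfBdZ, add_sub_cancel_left, norm_mul, norm_exp, norm_real, Real.norm_of_nonneg D.ε0.le]

lemma surfBdZ_near {ζ : ℂ} (h : |ζ.re| < 1/2) : ‖D.surfBdZ ζ - 1‖ < 1/16 := by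
  rw [surfBdZ_norm]
  have h1 : Real.exp ζ.re ≤ Real.exp 1 := Real.exp_le_exp.2 (by linarith [(abs_lt.1 h).2])
  have h2 := Real.exp_one_lt_d9
  have h3 := D.ε1
  have h4 := Real.exp_pos ζ.re
  nlinarith

lemma surfBdZ_ne_one (ζ : ℂ) : D.surfBdZ ζ ≠ 1 := by
  intro h
  have h1 := D.surfBdZ_norm ζ
  rw [h, sub_self, norm_zero] at h1
  exact (mul_pos D.ε0 (Real.exp_pos ζ.re)).ne h1

lemma surfBdZ_ne_p {ζ : ℂ} (h : |ζ.re| < 1/2) (j : Fin 3) : D.surfBdZ ζ ≠ D.p j := by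
  intro h1
  have h2 := D.surfBdZ_near h
  rw [h1, ← ofReal_one, ← ofReal_sub, norm_real, Real.norm_eq_abs, abs_lt] at h2
  obtain ⟨⟨-, a⟩, ⟨-, b⟩, -, c⟩ := D.adm
  fin_cases j
  · have : D.p 0 ≤ 2/3 := a
    have h3 : -(1/16) < D.p 0 - 1 := h2.1
    linarith
  · have : D.p 1 ≤ -9/10 := b
    have h3 : -(1/16) < D.p 1 - 1 := h2.1
    linarith
  · have : D.p 2 ≤ -1/4 := c
    have h3 : -(1/16) < D.p 2 - 1 := h2.1
    linarith

lemma surfBd_cover {ζ : ℂ} (h : |ζ.re| < 1/2) :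
    (∃ o : ℂ, o ^ D.k = 1 ∧ D.surfBdH ζ = o * D.et (D.surfBdZ ζ)) ∧
      D.F (D.surfBdZ ζ, D.surfBdH ζ) = D.Y ζ := by
  have := D.cover (P := 1) (c := D.ε) (l := 0) (σ := 1) D.ε0 (J := {r | |r| < 1/2}) (Z := D.Y)
    (fun ζ hζ j => by simpa [surfBdZ] using D.surfBdZ_ne_p hζ j)
    (fun ζ hζ h0 h1 => by simpa using D.Y_eq ζ hζ h0 h1)
    (fun ζ hζ => by simpa using D.Y_rot ζ hζ)
    (fun ζ hζ => by simpa using D.Y_refl ζ hζ) (ζ := ζ) h
  simpa only [surfBdZ, surfBdH, ofReal_one] using this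

lemma surfBdH_eq {ζ : ℂ} (h : |ζ.re| < 1/2) :
    D.surfBdH ζ = exp (I * (ζ.im / D.k : ℝ)) *
      exp (I * (sgn (D.surfBdZ ζ) * D.bb 1 0 1 (D.surfBdZ ζ) / D.k : ℝ)) := by
  have h1 := D.md_near_one (D.surfBdZ_near h)
  simp only [surfBdZ] at h1
  simp only [surfBdH, eta, ofReal_one, surfBdZ, h1, one_mul, Nat.cast_zero, mul_zero, zero_add,
    Int.cast_one]

lemma surfBdH_ne {ζ : ℂ} (h : |ζ.re| < 1/2) : D.surfBdH ζ ≠ 0 := by
  rw [D.surfBdH_eq h]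
  exact mul_ne_zero (exp_ne_zero _) (exp_ne_zero _)

lemma surfBdZ_cont : Continuous D.surfBdZ := by
  unfold surfBdZ
  fun_prop

lemma surfBdH_contOn : ContinuousOn D.surfBdH {ζ | |ζ.re| < 1/2} := by
  refine ContinuousOn.congr ?_ fun ζ h => D.surfBdH_eq h
  have h1 : ContinuousOn (fun ζ => sgn (D.surfBdZ ζ) * D.bb 1 0 1 (D.surfBdZ ζ))
      {ζ | |ζ.re| < 1/2} :=
    D.continuousOn_phase_one.comp D.surfBdZ_cont.continuousOn
      fun ζ h => ⟨D.surfBdZ_near h, D.surfBdZ_ne_one ζ⟩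
  refine ContinuousOn.mul (Continuous.continuousOn (by fun_prop)) ?_
  exact ContinuousOn.cexp (continuousOn_const.mul
    (continuous_ofReal.comp_continuousOn (h1.div_const _)))

lemma surfBdH_contAt {ζ : ℂ} (h : |ζ.re| < 1/2) : ContinuousAt D.surfBdH ζ :=
  D.surfBdH_contOn.continuousAt
    ((isOpen_lt (by fun_prop) continuous_const).mem_nhds h)

lemma surfBdZ_shift (ζ : ℂ) (n : ℕ) : D.surfBdZ (ζ + n * (2 * Real.pi * I)) = D.surfBdZ ζ := by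
  rw [surfBdZ, surfBdZ, exp_add, exp_nat_mul_two_pi_mul_I, mul_one]

lemma surfBdH_shift {ζ : ℂ} (h : |ζ.re| < 1/2) (n : ℕ) :
    D.surfBdH (ζ + n * (2 * Real.pi * I)) = rt D.k ^ n * D.surfBdH ζ := by
  have h1 : |(ζ + n * (2 * Real.pi * I)).re| < 1/2 := by simpa using h
  have h2 : (ζ + n * (2 * Real.pi * I)).im = ζ.im + n * (2 * Real.pi) := by simp
  rw [D.surfBdH_eq h1, D.surfBdH_eq h, surfBdZ_shift, h2, rt, ← exp_nat_mul, ← exp_add, ← exp_add,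
    ← exp_add]
  congr 1
  push_cast
  ring

lemma surfBd_mem {ζ : ℂ} (h0 : 0 ≤ ζ.re) (h : |ζ.re| < 1/2) :
    (D.surfBdZ ζ, D.surfBdH ζ) ∈ D.Et := by
  refine ⟨⟨?_, ?_, ?_⟩, (D.surfBd_cover h).1⟩
  · have h1 := D.surfBdZ_near h
    have h2 : √D.q ≤ 1/64 := by
      rw [Real.sqrt_le_iff]; exact ⟨by norm_num, by linarith [D.q1]⟩
    have h3 := norm_sub_norm_le (1 : ℂ) (D.surfBdZ ζ)
    rw [norm_sub_rev, norm_one] at h3
    show √D.q / 2 < ‖D.surfBdZ ζ‖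
    linarith
  · have h1 := D.surfBdZ_near h
    have h2 : √D.q ≤ 1/64 := by
      rw [Real.sqrt_le_iff]; exact ⟨by norm_num, by linarith [D.q1]⟩
    have h3 := norm_sub_norm_le (D.surfBdZ ζ) (1 : ℂ)
    rw [norm_one] at h3
    have h4 : 0 < √D.q := Real.sqrt_pos.2 D.q0
    show ‖D.surfBdZ ζ‖ < 2 / √D.q
    rw [lt_div_iff₀ h4]
    nlinarith [norm_nonneg (D.surfBdZ ζ)]
  · show D.ε ≤ ‖D.surfBdZ ζ - 1‖
    rw [surfBdZ_norm]
    exact le_mul_of_one_le_right D.ε0.le (Real.one_le_exp h0)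

/-- the parametrisation of a collar of the boundary -/
def surfBdPsi (ζ : ℂ) : D.Et :=
  ⟨(D.surfBdZ (surfBdCl ζ), D.surfBdH (surfBdCl ζ)),
    D.surfBd_mem (surfBdCl_nonneg ζ) (surfBdCl_abs ζ)⟩

lemma surfBdPsi_val {ζ : ℂ} (h0 : 0 ≤ ζ.re) (h1 : ζ.re ≤ 1/4) :
    (D.surfBdPsi ζ).1 = (D.surfBdZ ζ, D.surfBdH ζ) := by
  simp only [surfBdPsi, surfBdCl_eq h0 h1]

lemma surfBdPsi_cont : Continuous D.surfBdPsi :=
  Continuous.subtype_mk ((D.surfBdZ_cont.comp surfBdCl_cont).prodMk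
    (D.surfBdH_contOn.comp_continuous surfBdCl_cont surfBdCl_abs)) _

lemma surfBdPsi_F {ζ : ℂ} (h0 : 0 ≤ ζ.re) (h1 : ζ.re ≤ 1/4) : D.FE (D.surfBdPsi ζ) = D.Y ζ := by
  rw [FE, D.surfBdPsi_val h0 h1]
  exact (D.surfBd_cover (by rw [abs_of_nonneg h0]; linarith)).2

lemma surfBd_fibre (x : D.Et) {ζ : ℂ} (h : |ζ.re| < 1/2) (hx : x.1.1 = D.surfBdZ ζ) :
    ∃ o : ℂ, o ^ D.k = 1 ∧ x.1.2 = o * D.surfBdH ζ := by
  obtain ⟨o, ho, h1⟩ := x.2.2
  obtain ⟨o', ho', h2⟩ := (D.surfBd_cover h).1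
  have h3 : o' ≠ 0 := by
    rintro rfl
    rw [zero_pow D.surfBd_k] at ho'
    exact zero_ne_one ho'
  refine ⟨o / o', by rw [div_pow, ho, ho', div_one], ?_⟩
  rw [h1, h2, hx]
  field_simp

lemma surfBd_onto (x : D.Et) (h : ‖x.1.1 - 1‖ = D.ε) : ∃ θ : ℝ, D.surfBdPsi (θ * I) = x := by
  have h1 : x.1.1 = D.surfBdZ (arg (x.1.1 - 1) * I) := by
    rw [surfBdZ, ← h, norm_mul_exp_arg_mul_I]; ring
  have h2 : |(arg (x.1.1 - 1) * I : ℂ).re| < 1/2 := by simp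
  obtain ⟨o, ho, h3⟩ := D.surfBd_fibre x h2 h1
  obtain ⟨n, -, rfl⟩ := exists_rt_pow D.surfBd_k ho
  refine ⟨arg (x.1.1 - 1) + n * (2 * Real.pi), Subtype.ext ?_⟩
  rw [D.surfBdPsi_val (by simp) (by simp)]
  have h4 : ((arg (x.1.1 - 1) + n * (2 * Real.pi) : ℝ) : ℂ) * I =
      arg (x.1.1 - 1) * I + n * (2 * Real.pi * I) := by push_cast; ring
  rw [h4, surfBdZ_shift, D.surfBdH_shift h2, ← h1, ← h3]

theorem exists_bdParam : ∃ β : ℝ → D.Et, Continuous β ∧ (∀ θ, D.FE (β θ) = D.Y (θ * I)) ∧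
    (∀ θ, (β θ).1.1 = 1 + D.ε * exp (θ * I)) ∧ (∀ θ, β (θ + 2 * Real.pi * D.k) = β θ) ∧
    D.bdE = β '' Ico 0 (2 * Real.pi * D.k) := by
  have hval : ∀ θ : ℝ, (D.surfBdPsi (θ * I)).1 = (D.surfBdZ (θ * I), D.surfBdH (θ * I)) :=
    fun θ => D.surfBdPsi_val (by simp) (by simp)
  have hper : Function.Periodic (fun θ : ℝ => D.surfBdPsi (θ * I)) (2 * Real.pi * D.k) := by
    intro θ
    refine Subtype.ext ?_
    rw [hval, hval]
    have h4 : ((θ + 2 * Real.pi * D.k : ℝ) : ℂ) * I = θ * I + D.k * (2 * Real.pi * I) := by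
      push_cast; ring
    rw [h4, surfBdZ_shift, D.surfBdH_shift (by simp), rt_pow D.surfBd_k, one_mul]
  refine ⟨fun θ => D.surfBdPsi (θ * I), D.surfBdPsi_cont.comp (by fun_prop),
    fun θ => D.surfBdPsi_F (by simp) (by simp), fun θ => by rw [hval]; rfl, hper, ?_⟩
  ext x
  constructor
  · intro hx
    obtain ⟨θ, rfl⟩ := D.surfBd_onto x hx
    have hk : (0 : ℝ) < D.k := Nat.cast_pos.2 (Nat.pos_of_ne_zero D.surfBd_k)
    obtain ⟨y, hy, h⟩ := hper.exists_mem_Ico₀ (by positivity) θ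
    exact ⟨y, hy, h.symm⟩
  · rintro ⟨θ, -, rfl⟩
    show ‖(D.surfBdPsi (θ * I)).1.1 - 1‖ = D.ε
    rw [hval, surfBdZ_norm]
    simp

theorem locChart_bd (x : D.Et) (h : ‖x.1.1 - 1‖ = D.ε) : LocChart D.FE D.bdE x := by
  obtain ⟨θ, hθ⟩ := D.surfBd_onto x h
  have hre : ∀ w ∈ Metric.ball ((θ : ℂ) * I) (1/4), |w.re| < 1/4 := fun w hw => by
    have h1 := (abs_re_le_norm (w - θ * I)).trans_lt (mem_ball_iff_norm.1 hw)
    simpa using h1
  have him : ∀ w ∈ Metric.ball ((θ : ℂ) * I) (1/4), |(w - θ * I).im| < 1/4 := fun w hw =>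
    (abs_im_le_norm (w - θ * I)).trans_lt (mem_ball_iff_norm.1 hw)
  have hval : ∀ w ∈ Metric.ball ((θ : ℂ) * I) (1/4), 0 ≤ w.re →
      (D.surfBdPsi w).1 = (D.surfBdZ w, D.surfBdH w) := fun w hw h0 =>
    D.surfBdPsi_val h0 (abs_lt.1 (hre w hw)).2.le
  have hε : (D.ε : ℂ) ≠ 0 := ofReal_ne_zero.2 D.ε0.ne'
  refine ⟨Metric.ball (θ * I) (1/4), θ * I, {w | 0 ≤ w.re}, D.surfBdPsi, D.Y, Metric.isOpen_ball,
    Metric.mem_ball_self (by norm_num), hθ, Or.inr ⟨rfl, by simp, h⟩,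
    D.surfBdPsi_cont.continuousOn, ?_, ?_, fun w hw => D.Y_cmc w (by linarith [hre w hw]),
    fun w hw => D.surfBdPsi_F hw.2 (abs_lt.1 (hre w hw.1)).2.le⟩
  · intro w hw w' hw' he
    have h1 : D.surfBdZ w = D.surfBdZ w' := by
      have := congrArg (fun y : D.Et => y.1.1) he
      simpa only [hval w hw.1 hw.2, hval w' hw'.1 hw'.2] using this
    have h2 : exp w = exp w' := mul_left_cancel₀ hε (add_left_cancel h1)
    have h3 : exp (w - θ * I) = exp (w' - θ * I) := by rw [exp_sub, exp_sub, h2]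
    have h4 := abs_lt.1 (him w hw.1)
    have h5 := abs_lt.1 (him w' hw'.1)
    have hpi := Real.pi_gt_three
    exact sub_left_injective (exp_inj_of_neg_pi_lt_of_le_pi (by linarith [h4.1])
      (by linarith [h4.2]) (by linarith [h5.1]) (by linarith [h5.2]) h3)
  · intro V' hV' hsub
    rw [isOpen_iff_mem_nhds]
    rintro _ ⟨w, ⟨hw, hw0⟩, rfl⟩
    obtain ⟨δ, hδ, hsep⟩ := exists_root_sep D.surfBd_k
    have hwv := hval w (hsub hw) hw0
    have hw2 : |w.re| < 1/2 := by linarith [hre w (hsub hw)]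
    let g : D.Et → ℂ := fun y => w + log ((y.1.1 - 1) / (D.ε * exp w))
    have hone : ((D.surfBdPsi w).1.1 - 1) / (D.ε * exp w) = 1 := by
      rw [hwv, surfBdZ, add_sub_cancel_left, div_self (mul_ne_zero hε (exp_ne_zero w))]
    have hg0 : g (D.surfBdPsi w) = w := by simp only [g, hone, log_one, add_zero]
    have hgc : ContinuousAt g (D.surfBdPsi w) := by
      refine continuousAt_const.add (ContinuousAt.clog (by fun_prop) ?_)
      rw [hone]; exact one_mem_slitPlane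
    have hHc : ContinuousAt (fun y => D.surfBdH (g y)) (D.surfBdPsi w) :=
      ContinuousAt.comp (g := D.surfBdH) (by rw [hg0]; exact D.surfBdH_contAt hw2) hgc
    have hq : ContinuousAt (fun y : D.Et => ‖y.1.2 / D.surfBdH (g y) - 1‖) (D.surfBdPsi w) := by
      refine (ContinuousAt.sub (ContinuousAt.div (by fun_prop) hHc ?_) continuousAt_const).norm
      rw [hg0]; exact D.surfBdH_ne hw2
    have e1 : ∀ᶠ y in 𝓝 (D.surfBdPsi w), g y ∈ V' :=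
      hgc.preimage_mem_nhds (hV'.mem_nhds (by rw [hg0]; exact hw))
    have e2 : ∀ᶠ y in 𝓝 (D.surfBdPsi w), ‖y.1.2 / D.surfBdH (g y) - 1‖ < δ := by
      refine hq.eventually_lt continuousAt_const ?_
      rw [hg0, hwv, div_self (D.surfBdH_ne hw2), sub_self, norm_zero]
      exact hδ
    filter_upwards [e1, e2] with y h1 h2
    have hb : D.ε ≤ ‖y.1.1 - 1‖ := y.2.1.2.2
    have hy1 : y.1.1 - 1 ≠ 0 := norm_pos_iff.1 (D.ε0.trans_le hb)
    have hz : y.1.1 = D.surfBdZ (g y) := by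
      simp only [g, surfBdZ]
      rw [exp_add, exp_log (div_ne_zero hy1 (mul_ne_zero hε (exp_ne_zero w)))]
      have := exp_ne_zero w
      field_simp
      ring
    have hg1 : 0 ≤ (g y).re := by
      rw [hz, surfBdZ_norm] at hb
      exact Real.one_le_exp_iff.1 (le_of_mul_le_mul_left (by rwa [mul_one]) D.ε0)
    have hg2 : |(g y).re| < 1/2 := by linarith [hre _ (hsub h1)]
    obtain ⟨o, ho, h3⟩ := D.surfBd_fibre y hg2 hz
    have h4 : o = 1 := hsep o ho (by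
      rwa [h3, mul_div_cancel_right₀ _ (D.surfBdH_ne hg2)] at h2)
    refine ⟨g y, ⟨h1, hg1⟩, Subtype.ext ?_⟩
    rw [hval _ (hsub h1) hg1, ← hz]
    rw [h4, one_mul] at h3
    rw [← h3]

end SurfData

end Pool.Agent.MP_efb2da_gt
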