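import Pool.Agent.MP_efb2da_gt.Surf1

open scoped Manifold ContDiff ComplexConjugate Topology
open Set Complex

noncomputable section

namespace Pool.Agent.MP_efb2da_gt

/-- identity or conjugation, according to the orientation of the puncture -/
def coneCw (j : Fin 3) (w : ℂ) : ℂ := if sg j = 1 then w else conj w

lemma coneCw_cw (j : Fin 3) (w : ℂ) : coneCw j (coneCw j w) = w := by
  unfold coneCw; split_ifs <;> simp

lemma coneCw_pow (j : Fin 3) (w : ℂ) (n : ℕ) : coneCw j (w ^ n) = coneCw j w ^ n := by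
  unfold coneCw; split_ifs <;> simp

lemma coneCw_zero (j : Fin 3) : coneCw j 0 = 0 := by
  unfold coneCw; split_ifs <;> simp

lemma cone_continuous_cw (j : Fin 3) : Continuous (coneCw j) := by
  unfold coneCw; split_ifs
  · exact continuous_id
  · exact continuous_conj

lemma coneCw_exp (j : Fin 3) (a b : ℝ) :
    coneCw j (exp (a + b * I)) = Real.exp a * exp (I * (sg j * b : ℝ)) := by
  unfold coneCw
  split_ifs with h
  · rw [h, exp_add, ofReal_exp]; congr 2; push_cast; ring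
  · have h' : sg j = -1 := by
      fin_cases j <;> simp_all [sg]
    rw [h', ← exp_conj, ofReal_exp, ← exp_add]; congr 1
    simp; ring

namespace SurfData
variable (D : SurfData)

lemma cone_k_ne : D.k ≠ 0 := by have := D.hk; omega

lemma cone_sep {i j : Fin 3} (h : i ≠ j) : 1/16 ≤ |D.p i - D.p j| := by
  obtain ⟨⟨a1, a2⟩, ⟨b1, b2⟩, ⟨c1, c2⟩⟩ := D.adm
  rw [le_abs]
  fin_cases i <;> fin_cases j <;> simp at h ⊢ <;>
    first | (left; linarith) | (right; linarith)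

lemma cone_p_inj {i j : Fin 3} (h : (D.p i : ℂ) = D.p j) : i = j := by
  by_contra hne
  have h1 := D.cone_sep hne
  have h2 : D.p i = D.p j := by exact_mod_cast h
  rw [h2] at h1; norm_num at h1

lemma cone_bounds (j : Fin 3) : 1/4 ≤ |D.p j| ∧ |D.p j| ≤ 11/10 ∧ 1/3 ≤ |D.p j - 1| := by
  obtain ⟨⟨a1, a2⟩, ⟨b1, b2⟩, ⟨c1, c2⟩⟩ := D.adm
  rw [le_abs, le_abs, abs_le]
  fin_cases j <;> simp <;> refine ⟨?_, ⟨?_, ?_⟩, ?_⟩ <;>
    first | linarith | (left; linarith) | (right; linarith)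

lemma cone_base (j : Fin 3) {z : ℂ} (h : ‖z - D.p j‖ < 1/16) :
    z ∈ D.Base ∧ D.ε < ‖z - 1‖ := by
  obtain ⟨h1, h2, h3⟩ := D.cone_bounds j
  have hq : √D.q ≤ 1/64 := by
    rw [Real.sqrt_le_iff]; refine ⟨by norm_num, ?_⟩; have := D.q1; norm_num; linarith
  have hq0 : 0 < √D.q := Real.sqrt_pos.2 D.q0
  have n1 : ‖(D.p j : ℂ)‖ = |D.p j| := by simp
  have n2 : ‖(D.p j : ℂ) - 1‖ = |D.p j - 1| := by
    rw [← Real.norm_eq_abs, ← norm_real]; simp
  have t1 : ‖(D.p j : ℂ)‖ ≤ ‖z‖ + ‖z - D.p j‖ := by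
    have := norm_sub_le z (z - D.p j); simpa using this
  have t2 : ‖z‖ ≤ ‖z - D.p j‖ + ‖(D.p j : ℂ)‖ := by
    have := norm_add_le (z - D.p j) (D.p j : ℂ); simpa using this
  have t3 : ‖(D.p j : ℂ) - 1‖ ≤ ‖z - 1‖ + ‖z - D.p j‖ := by
    have := norm_sub_le (z - 1) (z - D.p j)
    rwa [show z - 1 - (z - D.p j) = (D.p j : ℂ) - 1 by ring] at this
  have e1 := D.ε1
  have hε : D.ε < ‖z - 1‖ := by linarith
  refine ⟨⟨by linarith, ?_, hε.le⟩, hε⟩
  rw [lt_div_iff₀ hq0]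
  have : ‖z‖ ≤ 2 := by linarith
  nlinarith [norm_nonneg z]

open Classical in
/-- the phase correction, extended by zero at the puncture -/
def conePh (j : Fin 3) (z : ℂ) : ℝ :=
  if z = D.p j then 0 else sgn z * D.bb (D.p j) (lr j) (sg j) z

/-- the nonvanishing factor of the fibre coordinate -/
def coneU (j : Fin 3) (z : ℂ) : ℂ :=
  ((16:ℝ) ^ (1 / (D.k : ℝ)) : ℝ) * exp (I * (Real.pi * lr j / D.k : ℝ)) *
    exp (I * (D.conePh j z / D.k : ℝ))

lemma coneU_ne (j : Fin 3) (z : ℂ) : D.coneU j z ≠ 0 := by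
  unfold coneU
  refine mul_ne_zero (mul_ne_zero ?_ (exp_ne_zero _)) (exp_ne_zero _)
  exact ofReal_ne_zero.2 (Real.rpow_pos_of_pos (by norm_num) _).ne'

lemma cone_isOpen_disc (j : Fin 3) : IsOpen {z : ℂ | ‖z - D.p j‖ < 1/16} :=
  isOpen_lt (by fun_prop) continuous_const

lemma cone_continuousOn_ph (j : Fin 3) :
    ContinuousOn (D.conePh j) {z | ‖z - D.p j‖ < 1/16} := by
  obtain ⟨h1, h2⟩ := D.continuousOn_phase_cap j
  intro z hz
  by_cases hzp : z = D.p j
  · subst hzp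
    apply ContinuousAt.continuousWithinAt
    rw [← continuousWithinAt_compl_self]
    have h0 : D.conePh j (D.p j) = 0 := by simp [conePh]
    unfold ContinuousWithinAt
    rw [h0]
    refine h2.congr' ?_
    filter_upwards [self_mem_nhdsWithin] with w hw
    have hw' : w ≠ D.p j := hw
    simp [conePh, hw']
  · apply ContinuousAt.continuousWithinAt
    have ho : IsOpen {z : ℂ | ‖z - D.p j‖ < 1/16 ∧ z ≠ D.p j} :=
      (D.cone_isOpen_disc j).inter isOpen_ne
    have hm := ho.mem_nhds (show z ∈ _ from ⟨hz, hzp⟩)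
    refine (h1.continuousAt hm).congr ?_
    filter_upwards [hm] with w hw
    simp [conePh, hw.2]

lemma cone_continuousOn_U (j : Fin 3) :
    ContinuousOn (D.coneU j) {z | ‖z - D.p j‖ < 1/16} := by
  have h := D.cone_continuousOn_ph j
  unfold coneU
  refine continuousOn_const.mul (continuous_exp.comp_continuousOn ?_)
  exact continuousOn_const.mul (continuous_ofReal.comp_continuousOn (h.div_const _))

/-- the chart at the branch point, with values in `ℂ × ℂ` -/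
def coneG (j : Fin 3) (w : ℂ) : ℂ × ℂ :=
  (D.p j + w ^ D.k, D.coneU j (D.p j + w ^ D.k) * coneCw j w)

/-- the inverse of the chart -/
def coneInv (j : Fin 3) (y : ℂ × ℂ) : ℂ := coneCw j (y.2 / D.coneU j y.1)

lemma coneInv_G (j : Fin 3) (w : ℂ) : D.coneInv j (D.coneG j w) = w := by
  simp only [coneInv, coneG]
  rw [mul_div_cancel_left₀ _ (D.coneU_ne j _), coneCw_cw]

lemma cone_norm_exp (ζ : ℂ) : ‖exp (ζ / D.k)‖ ^ D.k = Real.exp ζ.re := by
  have hk : (D.k : ℂ) ≠ 0 := by exact_mod_cast D.cone_k_ne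
  rw [← norm_pow, ← exp_nat_mul, mul_div_cancel₀ _ hk, norm_exp]

lemma coneG_exp (j : Fin 3) {ζ : ℂ} (h : Real.exp ζ.re < 1/16) :
    D.coneG j (exp (ζ / D.k)) =
      (D.p j + ((1:ℝ):ℂ) * exp ζ, D.eta (D.p j) (lr j) (sg j) 1 ζ) := by
  have hk : (D.k : ℂ) ≠ 0 := by exact_mod_cast D.cone_k_ne
  have hkr : (D.k : ℝ) ≠ 0 := by exact_mod_cast D.cone_k_ne
  have e1 : exp (ζ / D.k) ^ D.k = ((1:ℝ):ℂ) * exp ζ := by
    rw [← exp_nat_mul, mul_div_cancel₀ _ hk]; simp
  unfold coneG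
  rw [e1]
  congr 1
  have hne : (D.p j + ((1:ℝ):ℂ) * exp ζ : ℂ) ≠ D.p j := by simp
  have hn : ‖(D.p j + ((1:ℝ):ℂ) * exp ζ : ℂ) - D.p j‖ = Real.exp ζ.re := by
    simp [norm_exp]
  have e2 : ζ / D.k = ((ζ.re / D.k : ℝ) : ℂ) + ((ζ.im / D.k : ℝ) : ℂ) * I := by
    conv_lhs => rw [← re_add_im ζ]
    push_cast; ring
  unfold eta coneU conePh
  rw [D.md_near j (by rw [hn]; exact h), hn, if_neg hne, e2, coneCw_exp,
    Real.mul_rpow (by norm_num) (Real.exp_pos _).le, ← Real.exp_mul]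
  have e3 : exp (I * ((Real.pi * lr j + sg j * ζ.im) / D.k : ℝ)) =
      exp (I * (Real.pi * lr j / D.k : ℝ)) * exp (I * (sg j * (ζ.im / D.k) : ℝ)) := by
    rw [← exp_add]; congr 1; push_cast; ring
  rw [e3, show ζ.re * (1 / (D.k : ℝ)) = ζ.re / D.k by ring,
    ofReal_mul ((16:ℝ) ^ (1 / (D.k : ℝ)))]
  ring

lemma coneG_spec (j : Fin 3) {w : ℂ} (hw : ‖w‖ ^ D.k < 1/16) :
    D.coneG j w ∈ D.Et ∧ D.F (D.coneG j w) = D.X j w := by
  have hk : (D.k : ℂ) ≠ 0 := by exact_mod_cast D.cone_k_ne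
  have hb : (D.coneG j w).1 ∈ D.Base := by
    refine (D.cone_base j ?_).1
    simpa [coneG] using hw
  by_cases h0 : w = 0
  · subst h0
    have e : D.coneG j 0 = ((D.p j : ℂ), 0) := by
      simp [coneG, D.cone_k_ne, coneCw_zero]
    rw [e] at hb ⊢
    refine ⟨⟨hb, 1, one_pow _, ?_⟩, ?_⟩
    · simp [et, D.md_p]
    · have hex : ∃ i, (((D.p j : ℂ), (0:ℂ)) : ℂ × ℂ).1 = D.p i := ⟨j, rfl⟩
      unfold F
      rw [dif_pos hex]
      have : j = hex.choose := D.cone_p_inj hex.choose_spec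
      rw [← this]
  · set ζ : ℂ := D.k * log w with hζ
    have e : w = exp (ζ / D.k) := by
      rw [hζ, mul_div_cancel_left₀ _ hk, exp_log h0]
    have hr : Real.exp ζ.re < 1/16 := by
      rw [← D.cone_norm_exp, ← e]; exact hw
    have hc := D.cover (P := D.p j) (c := 1) (l := lr j) (σ := sg j) one_pos
      (J := {r | Real.exp r < 1/16}) (Z := fun ζ => D.X j (exp (ζ / D.k))) ?_ ?_ ?_ ?_
      (ζ := ζ) hr
    · have e' : D.coneG j w = _ := (congrArg (D.coneG j) e).trans (D.coneG_exp j hr)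
      rw [e'] at hb ⊢
      exact ⟨⟨hb, hc.1⟩, hc.2.trans (congrArg (D.X j) e.symm)⟩
    · intro ξ hξ i hi
      by_cases hij : i = j
      · subst hij; simp at hi
      · have h1 := D.cone_sep hij
        have h2 : exp ξ = ((D.p i - D.p j : ℝ) : ℂ) := by
          push_cast; rw [← hi]; simp
        have h3 : Real.exp ξ.re = |D.p i - D.p j| := by
          rw [← norm_exp, h2, norm_real, Real.norm_eq_abs]
        have h4 : Real.exp ξ.re < 1/16 := hξ
        linarith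
    · intro ξ hξ h1 h2
      simpa using D.X_eq j ξ hξ h1 h2
    · intro ξ hξ
      have h1 : exp ((ξ + 2 * Real.pi * I) / D.k) = rt D.k * exp (ξ / D.k) := by
        rw [rt, ← exp_add]; congr 1; ring
      simp only [h1]
      exact D.X_rot j _ (by rw [D.cone_norm_exp]; exact hξ)
    · intro ξ hξ
      have h1 : exp (conj ξ / D.k) = conj (exp (ξ / D.k)) := by
        rw [← exp_conj]; simp
      simp only [h1]
      exact D.X_refl j _ (by rw [D.cone_norm_exp]; exact hξ)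

lemma coneG_inv (j : Fin 3) {y : ℂ × ℂ} (hy : y ∈ D.Et) (h : ‖y.1 - D.p j‖ < 1/16) :
    D.coneG j (D.coneInv j y) = y := by
  obtain ⟨w₀, hw₀⟩ := IsAlgClosed.exists_pow_nat_eq (y.1 - D.p j) (Nat.pos_of_ne_zero D.cone_k_ne)
  have h0 : ‖w₀‖ ^ D.k < 1/16 := by rw [← norm_pow, hw₀]; exact h
  obtain ⟨-, o', ho', e'⟩ := (D.coneG_spec j h0).1
  obtain ⟨-, o, ho, e⟩ := hy
  have hz : (D.p j : ℂ) + w₀ ^ D.k = y.1 := by rw [hw₀]; ring
  simp only [coneG, hz] at e'
  have hu := D.coneU_ne j y.1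
  have h1 : (y.2 / D.coneU j y.1) ^ D.k = coneCw j w₀ ^ D.k := by
    rw [div_pow, div_eq_iff (pow_ne_zero _ hu), ← mul_pow, mul_comm, e', e, mul_pow, mul_pow,
      ho, ho']
  have h2 : D.coneInv j y ^ D.k = w₀ ^ D.k := by
    rw [coneInv, ← coneCw_pow, h1, ← coneCw_pow, coneCw_cw]
  unfold coneG
  rw [h2, hz, coneInv, coneCw_cw, mul_div_cancel₀ _ hu]

theorem locChart_cone (x : D.Et) {j : Fin 3} (h1 : x.1.1 = D.p j) : LocChart D.FE D.bdE x := by
  classical
  let ψ : ℂ → D.Et := fun w => if h : D.coneG j w ∈ D.Et then ⟨D.coneG j w, h⟩ else x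
  have hψ : ∀ w, ‖w‖ ^ D.k < 1/16 → (ψ w).1 = D.coneG j w := fun w hw => by
    simp only [ψ, dif_pos (D.coneG_spec j hw).1]
  have hd : ∀ w : ℂ, ‖w‖ ^ D.k < 1/16 → ‖(D.p j + w ^ D.k : ℂ) - D.p j‖ < 1/16 := fun w hw => by
    simpa using hw
  have h00 : ‖(0:ℂ)‖ ^ D.k < 1/16 := by simp [D.cone_k_ne]
  refine ⟨{w | ‖w‖ ^ D.k < 1/16}, 0, univ, ψ, D.X j, isOpen_lt (by fun_prop) continuous_const,
    h00, ?_, Or.inl ⟨rfl, ?_⟩, ?_, ?_, ?_, fun w hw => D.X_cmc j w hw, ?_⟩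
  · apply Subtype.ext
    rw [hψ 0 h00]
    obtain ⟨-, o, -, e⟩ := x.2
    refine Prod.ext ?_ ?_
    · simp [coneG, D.cone_k_ne, h1]
    · rw [e, h1]; simp [coneG, coneCw_zero, et, D.md_p]
  · have := (D.cone_base j (z := x.1.1) (by rw [h1]; simp)).2
    exact fun h => this.ne' h
  · rw [inter_univ, Topology.IsInducing.subtypeVal.continuousOn_iff]
    refine ContinuousOn.congr (f := D.coneG j) ?_ fun w hw => hψ w hw
    refine ContinuousOn.prodMk (by fun_prop) ?_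
    refine ContinuousOn.mul ?_ (cone_continuous_cw j).continuousOn
    exact (D.cone_continuousOn_U j).comp (by fun_prop) fun w hw => hd w hw
  · intro a ha b hb hab
    have := congrArg (fun y : D.Et => D.coneInv j y.1) hab
    simpa only [hψ a ha.1, hψ b hb.1, coneInv_G] using this
  · intro V' hV' hs
    have hc : ContinuousOn (D.coneInv j) {y : ℂ × ℂ | ‖y.1 - D.p j‖ < 1/16} := by
      refine (cone_continuous_cw j).comp_continuousOn ?_
      refine continuousOn_snd.div ?_ fun y _ => D.coneU_ne j _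
      exact (D.cone_continuousOn_U j).comp continuousOn_fst fun y hy => hy
    have ho := (hc.isOpen_inter_preimage (isOpen_lt (by fun_prop) continuous_const) hV').preimage
      (continuous_subtype_val (p := fun y => y ∈ D.Et))
    convert ho using 1
    ext y
    constructor
    · rintro ⟨w, ⟨hw, -⟩, rfl⟩
      have hw' : ‖w‖ ^ D.k < 1/16 := hs hw
      simp only [mem_preimage, mem_inter_iff, mem_ofPred_eq, hψ w hw', coneInv_G]
      exact ⟨hd w hw', hw⟩
    · rintro ⟨hy1, hy2⟩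
      refine ⟨D.coneInv j y.1, ⟨hy2, mem_univ _⟩, Subtype.ext ?_⟩
      rw [hψ _ (hs hy2), D.coneG_inv j y.2 hy1]
  · intro w hw
    rw [FE, hψ w hw.1, (D.coneG_spec j hw.1).2]

end SurfData

end Pool.Agent.MP_efb2da_gt
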