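import Pool.Agent.MP_efb2da_gt.Surf1

open scoped Manifold ContDiff ComplexConjugate Topology
open Set Complex

noncomputable section

namespace Pool.Agent.MP_efb2da_gt

lemma surfTop_finite {k : ℕ} (hk : k ≠ 0) : {o : ℂ | o ^ k = 1}.Finite := by
  refine ((Set.finite_lt_nat k).image fun n => rt k ^ n).subset fun o ho => ?_
  obtain ⟨n, hn, e⟩ := exists_rt_pow hk ho
  exact ⟨n, hn, e.symm⟩

lemma surfTop_le_norm {ε : ℝ} {z : ℂ} (h : ε ^ 2 ≤ (z.re - 1) ^ 2 + z.im ^ 2) : ε ≤ ‖z - 1‖ := by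
  refine le_trans (le_abs_self ε) (abs_le_of_sq_le_sq' ?_ (norm_nonneg _)).2
  rw [sq_abs, Complex.sq_norm, normSq_apply]
  simp only [sub_re, one_re, sub_im, one_im, sub_zero]
  nlinarith

lemma surfTop_sq {z : ℂ} : ‖z‖ ^ 2 = z.re ^ 2 + z.im ^ 2 := by
  rw [Complex.sq_norm, normSq_apply]
  ring

lemma surfTop_half {a b ε : ℝ} (ha : 0 < a) (ha1 : a < 1) (hb : 1 < b) (h0 : 0 < ε) (h1 : ε ≤ 1) :
    IsPreconnected ({z : ℂ | a < ‖z‖ ∧ ‖z‖ < b ∧ ε ≤ ‖z - 1‖} ∩ {z | 0 ≤ z.im}) := by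
  have hε : ε ^ 2 ≤ 1 := by nlinarith
  refine isPreconnected_of_forall I fun z hz => ?_
  obtain ⟨⟨hz1, hz2, hz3⟩, hz4⟩ := hz
  have hz4' : 0 ≤ z.im := hz4
  set r : ℝ := ‖z‖ with hr
  have hr0 : 0 < r := ha.trans hz1
  have hr2 : r ^ 2 = z.re ^ 2 + z.im ^ 2 := surfTop_sq
  let w : ℝ → ℂ := fun t => (t : ℂ) + (√(r ^ 2 - t ^ 2) : ℝ) * I
  let s : ℝ → ℂ := fun t => (t : ℂ) * I
  have hw : Continuous w := by fun_prop
  have hs : Continuous s := by fun_prop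
  have hwre : ∀ t, (w t).re = t := fun t => by simp [w]
  have hwim : ∀ t, (w t).im = √(r ^ 2 - t ^ 2) := fun t => by simp [w]
  have hw0 : w 0 = s r := by simp [w, s, Real.sqrt_sq hr0.le]
  have hz5 : ε ^ 2 ≤ (z.re - 1) ^ 2 + z.im ^ 2 := by
    have h2 : ε ^ 2 ≤ ‖z - 1‖ ^ 2 := by gcongr
    rw [surfTop_sq] at h2
    simpa using h2
  refine ⟨w '' uIcc z.re 0 ∪ s '' Ioo a b, ?_, Or.inr ⟨1, ⟨ha1, hb⟩, by simp [s]⟩,
    Or.inl ⟨z.re, left_mem_uIcc, ?_⟩, ?_⟩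
  · rintro _ (⟨t, ht, rfl⟩ | ⟨t, ht, rfl⟩)
    · have h2 : t ^ 2 ≤ z.re ^ 2 ∧ (t ≤ z.re ∨ t ≤ 0) := by
        rcases mem_uIcc.1 ht with h | h
        · exact ⟨by nlinarith [h.1, h.2], Or.inr h.2⟩
        · exact ⟨by nlinarith [h.1, h.2], Or.inl h.2⟩
      have h3 : 0 ≤ r ^ 2 - t ^ 2 := by nlinarith [h2.1, sq_nonneg z.im]
      have h4 : (w t).im ^ 2 = r ^ 2 - t ^ 2 := by rw [hwim, Real.sq_sqrt h3]
      have h5 : ‖w t‖ = r := by
        refine (pow_left_inj₀ (norm_nonneg _) hr0.le two_ne_zero).1 ?_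
        rw [surfTop_sq, h4, hwre]
        ring
      refine ⟨⟨h5 ▸ hz1, h5 ▸ hz2, surfTop_le_norm ?_⟩, ?_⟩
      · rw [h4, hwre]
        rcases h2.2 with h | h
        · nlinarith
        · nlinarith [sq_nonneg r]
      · show 0 ≤ (w t).im
        rw [hwim]
        exact Real.sqrt_nonneg _
    · have h2 : 0 < t := ha.trans ht.1
      have h3 : ‖s t‖ = t := by simp [s, abs_of_pos h2]
      refine ⟨⟨h3.symm ▸ ht.1, h3.symm ▸ ht.2, surfTop_le_norm ?_⟩, ?_⟩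
      · simp only [s, mul_re, ofReal_re, I_re, mul_zero, ofReal_im, I_im, mul_one, sub_self,
          mul_im, add_zero]
        nlinarith [sq_nonneg t]
      · simp [s, h2.le]
  · apply Complex.ext
    · exact hwre _
    · rw [hwim, hr2, add_sub_cancel_left, Real.sqrt_sq hz4']
  · refine IsPreconnected.union' ⟨s r, ⟨0, right_mem_uIcc, hw0⟩, ⟨r, ⟨hz1, hz2⟩, rfl⟩⟩ ?_ ?_
    · exact isPreconnected_uIcc.image _ hw.continuousOn
    · exact isPreconnected_Ioo.image _ hs.continuousOn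

namespace SurfData
variable (D : SurfData)

lemma surfTop_k : D.k ≠ 0 := by
  have := D.hk
  omega

lemma surfTop_q : 0 < √D.q ∧ √D.q ≤ 1 / 64 := by
  refine ⟨Real.sqrt_pos.2 D.q0, ?_⟩
  rw [Real.sqrt_le_left (by norm_num)]
  linarith [D.q1]

lemma surfTop_real {z : ℂ} (hz : z ∈ D.Base) (h : z.im ≤ 0) :
    ∃ o : ℂ, o ^ D.k = 1 ∧ conj (D.et (conj z)) = o * D.et z := by
  rcases h.lt_or_eq with h | h
  · exact ⟨1, one_pow _, by rw [one_mul, ← D.et_down h]⟩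
  obtain ⟨x, rfl⟩ : ∃ x : ℝ, z = x := ⟨z.re, Complex.ext rfl (by simpa using h)⟩
  rw [conj_ofReal]
  by_cases hp : ∃ j, x = D.p j
  · obtain ⟨j, rfl⟩ := hp
    exact ⟨1, one_pow _, by simp [et, D.md_p]⟩
  have h0 : x ≠ 0 := by
    rintro rfl
    have h1 := hz.1
    have h2 := D.surfTop_q.1
    simp only [ofReal_zero, norm_zero] at h1
    linarith
  have h1 : x ≠ 1 := by
    rintro rfl
    have h1 := hz.2.2
    have h2 := D.ε0
    simp only [ofReal_one, sub_self, norm_zero] at h1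
    linarith
  have h2 := D.an_real h0 h1 fun j hj => hp ⟨j, hj⟩
  have h3 : sgn x = 1 := by simp [sgn]
  have hk : (D.k : ℂ) ≠ 0 := Nat.cast_ne_zero.2 D.surfTop_k
  refine ⟨exp (-(2 * Real.pi * I * lab D.p x / D.k)), ?_, ?_⟩
  · rw [← Complex.exp_nat_mul]
    have h4 : (D.k : ℂ) * -(2 * Real.pi * I * lab D.p x / D.k) =
        ((-(lab D.p x : ℤ) : ℤ) : ℂ) * (2 * Real.pi * I) := by
      push_cast
      field_simp
    rw [h4, Complex.exp_int_mul_two_pi_mul_I]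
  · unfold et
    rw [h2, h3, map_mul, conj_ofReal, ← Complex.exp_conj, map_mul, conj_ofReal, conj_I,
      mul_left_comm (exp _), ← Complex.exp_add]
    congr 2
    push_cast
    ring

/-- upper sheets -/
def surfTopU (o z : ℂ) : ℂ × ℂ := (z, o * D.et z)
/-- lower sheets -/
def surfTopD (o z : ℂ) : ℂ × ℂ := (z, o * conj (D.et (conj z)))

lemma surfTopU_cont (o : ℂ) : ContinuousOn (D.surfTopU o) (D.Base ∩ {z | 0 ≤ z.im}) :=
  continuousOn_id.prodMk (continuousOn_const.mul D.continuousOn_et_up)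

lemma surfTopD_cont (o : ℂ) : ContinuousOn (D.surfTopD o) (D.Base ∩ {z | z.im ≤ 0}) :=
  continuousOn_id.prodMk (continuousOn_const.mul D.continuousOn_et_down)

lemma surfTopU_mem {o z : ℂ} (ho : o ^ D.k = 1) (hz : z ∈ D.Base) : D.surfTopU o z ∈ D.Et :=
  ⟨hz, o, ho, rfl⟩

lemma surfTopD_mem {o z : ℂ} (ho : o ^ D.k = 1) (hz : z ∈ D.Base) (h : z.im ≤ 0) :
    D.surfTopD o z ∈ D.Et := by
  obtain ⟨o', ho', e⟩ := D.surfTop_real hz h
  refine ⟨hz, o * o', by rw [mul_pow, ho, ho', one_mul], ?_⟩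
  show o * conj (D.et (conj z)) = o * o' * D.et z
  rw [e, mul_assoc]

lemma surfTop_cases {x : ℂ × ℂ} (hx : x ∈ D.Et) : ∃ o : ℂ, o ^ D.k = 1 ∧
    ((0 ≤ x.1.im ∧ D.surfTopU o x.1 = x) ∨ (x.1.im ≤ 0 ∧ D.surfTopD o x.1 = x)) := by
  obtain ⟨-, o, ho, e⟩ := hx
  refine ⟨o, ho, ?_⟩
  by_cases h : 0 ≤ x.1.im
  · exact Or.inl ⟨h, Prod.ext rfl e.symm⟩
  · refine Or.inr ⟨(not_le.1 h).le, Prod.ext rfl ?_⟩
    show o * conj (D.et (conj x.1)) = x.2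
    rw [e, ← D.et_down (not_le.1 h)]

theorem isCompact_fund : IsCompact {x : D.Et | √D.q ≤ ‖x.1.1‖ ∧ ‖x.1.1‖ ≤ 1 / √D.q} := by
  obtain ⟨hq0, hq1⟩ := D.surfTop_q
  set A : Set ℂ := {z | √D.q ≤ ‖z‖ ∧ ‖z‖ ≤ 1 / √D.q ∧ D.ε ≤ ‖z - 1‖} with hA
  have hAB : A ⊆ D.Base := fun z hz =>
    ⟨by linarith [hz.1], hz.2.1.trans_lt (div_lt_div_of_pos_right (by norm_num) hq0), hz.2.2⟩
  have hAc : IsCompact A := by
    refine (isCompact_closedBall (0 : ℂ) (1 / √D.q)).of_isClosed_subset ?_ fun z hz => ?_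
    · exact (isClosed_le continuous_const continuous_norm).inter
        ((isClosed_le continuous_norm continuous_const).inter
          (isClosed_le continuous_const (continuous_id.sub continuous_const).norm))
    · rw [mem_closedBall_zero_iff]
      exact hz.2.1
  have h1 : IsCompact (A ∩ {z | 0 ≤ z.im}) :=
    hAc.inter_right (isClosed_le continuous_const continuous_im)
  have h2 : IsCompact (A ∩ {z | z.im ≤ 0}) :=
    hAc.inter_right (isClosed_le continuous_im continuous_const)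
  rw [Subtype.isCompact_iff]
  have h3 : (Subtype.val '' {x : D.Et | √D.q ≤ ‖x.1.1‖ ∧ ‖x.1.1‖ ≤ 1 / √D.q}) =
      ⋃ o ∈ {o : ℂ | o ^ D.k = 1}, (D.surfTopU o '' (A ∩ {z | 0 ≤ z.im}) ∪
        D.surfTopD o '' (A ∩ {z | z.im ≤ 0})) := by
    ext y
    simp only [mem_iUnion, mem_ofPred_eq, exists_prop]
    constructor
    · rintro ⟨x, hx, rfl⟩
      have hxA : x.1.1 ∈ A := ⟨hx.1, hx.2, x.2.1.2.2⟩
      obtain ⟨o, ho, h | h⟩ := D.surfTop_cases x.2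
      · exact ⟨o, ho, Or.inl ⟨_, ⟨hxA, h.1⟩, h.2⟩⟩
      · exact ⟨o, ho, Or.inr ⟨_, ⟨hxA, h.1⟩, h.2⟩⟩
    · rintro ⟨o, ho, ⟨z, hz, rfl⟩ | ⟨z, hz, rfl⟩⟩
      · exact ⟨⟨_, D.surfTopU_mem ho (hAB hz.1)⟩, ⟨hz.1.1, hz.1.2.1⟩, rfl⟩
      · exact ⟨⟨_, D.surfTopD_mem ho (hAB hz.1) hz.2⟩, ⟨hz.1.1, hz.1.2.1⟩, rfl⟩
  rw [h3]
  refine (surfTop_finite D.surfTop_k).isCompact_biUnion fun o _ => IsCompact.union ?_ ?_
  · exact h1.image_of_continuousOn ((D.surfTopU_cont o).mono (inter_subset_inter_left _ hAB))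
  · exact h2.image_of_continuousOn ((D.surfTopD_cont o).mono (inter_subset_inter_left _ hAB))

lemma surfTop_up : IsPreconnected (D.Base ∩ {z | 0 ≤ z.im}) := by
  obtain ⟨hq0, hq1⟩ := D.surfTop_q
  refine surfTop_half (by positivity) (by linarith) ?_ D.ε0 (by linarith [D.ε1])
  rw [lt_div_iff₀ hq0]
  linarith

lemma surfTop_conj {z : ℂ} (hz : z ∈ D.Base) : conj z ∈ D.Base := by
  have h : ‖conj z - 1‖ = ‖z - 1‖ := by
    rw [← Complex.norm_conj (z - 1), map_sub, map_one]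
  refine ⟨?_, ?_, ?_⟩
  · rw [Complex.norm_conj]
    exact hz.1
  · rw [Complex.norm_conj]
    exact hz.2.1
  · rw [h]
    exact hz.2.2

lemma surfTop_down : IsPreconnected (D.Base ∩ {z | z.im ≤ 0}) := by
  have h : D.Base ∩ {z | z.im ≤ 0} = (fun z => conj z) '' (D.Base ∩ {z | 0 ≤ z.im}) := by
    ext z
    constructor
    · intro hz
      refine ⟨conj z, ⟨D.surfTop_conj hz.1, ?_⟩, conj_conj z⟩
      have h1 : z.im ≤ 0 := hz.2
      simpa using h1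
    · rintro ⟨w, hw, rfl⟩
      refine ⟨D.surfTop_conj hw.1, ?_⟩
      have h1 : 0 ≤ w.im := hw.2
      simpa using h1
  rw [h]
  exact D.surfTop_up.image _ continuous_conj.continuousOn

theorem preconnected_Et (hb : IsPreconnected D.bdE) : PreconnectedSpace D.Et := by
  obtain ⟨hq0, hq1⟩ := D.surfTop_q
  have h0 := D.ε0
  have h1 := D.ε1
  set z₀ : ℂ := ((1 + D.ε : ℝ) : ℂ) with hz₀
  have h2 : ‖z₀ - 1‖ = D.ε := by
    rw [hz₀]
    push_cast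
    rw [add_sub_cancel_left, Complex.norm_real, Real.norm_eq_abs, abs_of_pos h0]
  have h3 : ‖z₀‖ = 1 + D.ε := by
    rw [hz₀, Complex.norm_real, Real.norm_eq_abs, abs_of_pos (by linarith)]
  have h4 : z₀ ∈ D.Base := by
    refine ⟨by rw [h3]; linarith, ?_, h2.ge⟩
    rw [h3, lt_div_iff₀ hq0]
    nlinarith
  have h5 : z₀.im = 0 := ofReal_im _
  have hB : IsPreconnected (Subtype.val '' D.bdE) := hb.image _ continuous_subtype_val.continuousOn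
  have hBE : Subtype.val '' D.bdE ⊆ D.Et := by
    rintro _ ⟨x, -, rfl⟩
    exact x.2
  have hx₀ : D.surfTopU 1 z₀ ∈ Subtype.val '' D.bdE :=
    ⟨⟨_, D.surfTopU_mem (one_pow _) h4⟩, h2, rfl⟩
  refine Subtype.preconnectedSpace (isPreconnected_of_forall (D.surfTopU 1 z₀) fun y hy => ?_)
  obtain ⟨o, ho, h | h⟩ := D.surfTop_cases hy
  · refine ⟨Subtype.val '' D.bdE ∪ D.surfTopU o '' (D.Base ∩ {z | 0 ≤ z.im}),
      union_subset hBE ?_, Or.inl hx₀, Or.inr ⟨_, ⟨hy.1, h.1⟩, h.2⟩, ?_⟩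
    · rintro _ ⟨z, hz, rfl⟩
      exact D.surfTopU_mem ho hz.1
    · exact IsPreconnected.union' ⟨D.surfTopU o z₀, ⟨⟨_, D.surfTopU_mem ho h4⟩, h2, rfl⟩,
        ⟨z₀, ⟨h4, h5.ge⟩, rfl⟩⟩ hB (D.surfTop_up.image _ (D.surfTopU_cont o))
  · refine ⟨Subtype.val '' D.bdE ∪ D.surfTopD o '' (D.Base ∩ {z | z.im ≤ 0}),
      union_subset hBE ?_, Or.inl hx₀, Or.inr ⟨_, ⟨hy.1, h.1⟩, h.2⟩, ?_⟩
    · rintro _ ⟨z, hz, rfl⟩
      exact D.surfTopD_mem ho hz.1 hz.2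
    · exact IsPreconnected.union' ⟨D.surfTopD o z₀, ⟨⟨_, D.surfTopD_mem ho h4 h5.le⟩, h2, rfl⟩,
        ⟨z₀, ⟨h4, h5.le⟩, rfl⟩⟩ hB (D.surfTop_down.image _ (D.surfTopD_cont o))

end SurfData

end Pool.Agent.MP_efb2da_gt
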