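import Pool.Agent.MP_efb2da_gt.SurfReg
import Pool.Agent.MP_efb2da_gt.SurfCone
import Pool.Agent.MP_efb2da_gt.SurfBd
import Pool.Agent.MP_efb2da_gt.SurfTop

open scoped Manifold ContDiff ComplexConjugate Topology
open Set Complex

noncomputable section

namespace Pool.Agent.MP_efb2da_gt

namespace SurfData
variable (D : SurfData)

/-- the period of the handle -/
def surfaceL : ℝ := -Real.log D.q

lemma surface_sqrt_pos : 0 < √D.q := Real.sqrt_pos.mpr D.q0

lemma surface_sqrt_le : √D.q ≤ 1 / 64 := by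
  have h : √D.q ≤ √(1 / 4096) := Real.sqrt_le_sqrt D.q1
  have h2 : √(1 / 4096 : ℝ) = 1 / 64 := by
    rw [show (1 / 4096 : ℝ) = (1 / 64) ^ 2 by norm_num]
    exact Real.sqrt_sq (by norm_num)
  linarith

lemma surface_sq : √D.q * √D.q = D.q := Real.mul_self_sqrt D.q0.le

lemma surfaceL_gt : Real.log 4 < D.surfaceL := by
  have h : Real.log D.q ≤ Real.log (1 / 4096) := Real.log_le_log D.q0 D.q1
  have h2 : Real.log (1 / 4096 : ℝ) = -Real.log 4096 := by
    rw [one_div, Real.log_inv]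
  have h3 : Real.log 4 < Real.log 4096 := Real.log_lt_log (by norm_num) (by norm_num)
  unfold surfaceL
  linarith

lemma surfaceL_pos : 0 < D.surfaceL :=
  lt_trans (Real.log_pos (by norm_num)) D.surfaceL_gt

instance surfaceFact : Fact (0 < D.surfaceL) := ⟨D.surfaceL_pos⟩

/-- norm bounds of the base region -/
def surfaceNB (z : ℂ) : Prop := √D.q / 2 < ‖z‖ ∧ ‖z‖ < 2 / √D.q

lemma surfaceNB_pos {z : ℂ} (h : D.surfaceNB z) : 0 < ‖z‖ := by
  have := D.surface_sqrt_pos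
  have := h.1
  linarith

lemma surfaceNB_of_mem (x : D.Et) : D.surfaceNB x.1.1 := ⟨x.2.1.1, x.2.1.2.1⟩

lemma surface_log_lt {z w : ℂ} (hz : D.surfaceNB z) (hw : D.surfaceNB w) :
    Real.log ‖w‖ - Real.log ‖z‖ < 2 * D.surfaceL := by
  have hs := D.surface_sqrt_pos
  have h1 : Real.log ‖w‖ < Real.log (2 / √D.q) := Real.log_lt_log (D.surfaceNB_pos hw) hw.2
  have h2 : Real.log (√D.q / 2) < Real.log ‖z‖ := Real.log_lt_log (by positivity) hz.1
  rw [Real.log_div (by norm_num) hs.ne'] at h1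
  rw [Real.log_div hs.ne' (by norm_num)] at h2
  have h3 : Real.log D.q = 2 * Real.log √D.q := by
    conv_lhs => rw [← D.surface_sq]
    rw [Real.log_mul hs.ne' hs.ne']; ring
  have h4 : Real.log 4 = 2 * Real.log 2 := by
    rw [show (4 : ℝ) = 2 * 2 by norm_num, Real.log_mul (by norm_num) (by norm_num)]; ring
  have h5 := D.surfaceL_gt
  unfold surfaceL at *
  linarith

lemma surface_scale {z w : ℂ} (hz : 0 < ‖z‖) (hw : 0 < ‖w‖) {c : ℝ}
    (h2 : w / (‖w‖ : ℂ) = z / (‖z‖ : ℂ)) (hc : ‖w‖ = c * ‖z‖) : w = c * z := by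
  have hz' : (‖z‖ : ℂ) ≠ 0 := by exact_mod_cast hz.ne'
  have hw' : (‖w‖ : ℂ) ≠ 0 := by exact_mod_cast hw.ne'
  have h3 : w = (‖w‖ : ℂ) * (z / (‖z‖ : ℂ)) := by
    rw [← h2]; field_simp
  rw [h3, hc]
  push_cast
  field_simp

lemma surface_rel {z w : ℂ} (hz : D.surfaceNB z) (hw : D.surfaceNB w)
    (h1 : ((Real.log ‖w‖ : ℝ) : AddCircle D.surfaceL) = (Real.log ‖z‖ : ℝ))
    (h2 : w / (‖w‖ : ℂ) = z / (‖z‖ : ℂ)) : w = z ∨ w = D.q * z ∨ z = D.q * w := by
  have hz0 := D.surfaceNB_pos hz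
  have hw0 := D.surfaceNB_pos hw
  have hL := D.surfaceL_pos
  have h3 : ((Real.log ‖w‖ - Real.log ‖z‖ : ℝ) : AddCircle D.surfaceL) = 0 := by
    rw [AddCircle.coe_sub, h1, sub_self]
  obtain ⟨n, hn⟩ := (AddCircle.coe_eq_zero_iff D.surfaceL).mp h3
  rw [zsmul_eq_mul] at hn
  have b1 := D.surface_log_lt hz hw
  have b2 := D.surface_log_lt hw hz
  have n1 : (n : ℝ) < 2 := by
    by_contra hh
    push Not at hh
    nlinarith
  have n2 : (-2 : ℝ) < n := by
    by_contra hh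
    push Not at hh
    nlinarith
  have n1' : n < 2 := by exact_mod_cast n1
  have n2' : -2 < n := by exact_mod_cast n2
  have hq := D.q0
  have hn3 : n = 0 ∨ n = -1 ∨ n = 1 := by omega
  rcases hn3 with rfl | rfl | rfl
  · left
    have : ‖w‖ = 1 * ‖z‖ := by
      rw [one_mul]
      apply Real.log_injOn_pos (mem_Ioi.mpr hw0) (mem_Ioi.mpr hz0)
      simp at hn; linarith
    simpa using surface_scale hz0 hw0 h2 this
  · right; left
    have : ‖w‖ = D.q * ‖z‖ := by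
      apply Real.log_injOn_pos (mem_Ioi.mpr hw0) (mem_Ioi.mpr (by positivity))
      rw [Real.log_mul hq.ne' hz0.ne']
      unfold surfaceL at hn
      simp at hn; linarith
    exact surface_scale hz0 hw0 h2 this
  · right; right
    have : ‖z‖ = D.q * ‖w‖ := by
      apply Real.log_injOn_pos (mem_Ioi.mpr hz0) (mem_Ioi.mpr (by positivity))
      rw [Real.log_mul hq.ne' hw0.ne']
      unfold surfaceL at hn
      simp at hn; linarith
    exact surface_scale hw0 hz0 h2.symm this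

lemma surface_norm_q (z : ℂ) : ‖(D.q : ℂ) * z‖ = D.q * ‖z‖ := by
  rw [norm_mul, Complex.norm_real, Real.norm_eq_abs, abs_of_pos D.q0]

lemma surface_small {z : ℂ} (hz : D.surfaceNB z) : ‖(D.q : ℂ) * z‖ < 1 / 32 := by
  have hs := D.surface_sqrt_pos
  have h1 := D.surface_sqrt_le
  have h2 := hz.2
  rw [lt_div_iff₀ hs] at h2
  rw [D.surface_norm_q]
  have h3 := D.surface_sq
  have h4 : 0 ≤ ‖z‖ := norm_nonneg z
  nlinarith

lemma surface_big {z : ℂ} (hz : D.surfaceNB ((D.q : ℂ) * z)) : 32 < ‖z‖ := by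
  have hs := D.surface_sqrt_pos
  have h1 := D.surface_sqrt_le
  have h2 := hz.1
  rw [D.surface_norm_q] at h2
  have h3 := D.surface_sq
  have h4 : 0 ≤ ‖z‖ := norm_nonneg z
  have h5 : 1 / 2 < √D.q * ‖z‖ := by
    by_contra hh
    push Not at hh
    nlinarith
  nlinarith

lemma surface_far_small {z : ℂ} (h : ‖z‖ < 1 / 32) : D.ε < ‖z - 1‖ := by
  have h1 : ‖(1 : ℂ)‖ - ‖z‖ ≤ ‖z - 1‖ := by
    rw [norm_sub_rev]; exact norm_sub_norm_le _ _
  have := D.ε1
  simp at h1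
  linarith

lemma surface_far_big {z : ℂ} (h : 32 < ‖z‖) : D.ε < ‖z - 1‖ := by
  have h1 : ‖z‖ - ‖(1 : ℂ)‖ ≤ ‖z - 1‖ := norm_sub_norm_le _ _
  have := D.ε1
  simp at h1
  linarith

/-- moving a point of the cover along the handle -/
lemma surface_move (x : D.Et) {w : ℂ} (hw : D.surfaceNB w)
    (h : w = x.1.1 ∨ w = D.q * x.1.1 ∨ x.1.1 = D.q * w) :
    (w, x.1.2) ∈ D.Et ∧ D.F (w, x.1.2) = D.F x.1 ∧
      (w ≠ x.1.1 → ‖w - 1‖ ≠ D.ε ∧ ‖x.1.1 - 1‖ ≠ D.ε) := by
  obtain ⟨⟨z, η⟩, hx⟩ := x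
  have hz : D.surfaceNB z := D.surfaceNB_of_mem ⟨(z, η), hx⟩
  have hzb : z ∈ D.Base := hx.1
  rcases h with h | h | h
  · simp only at h
    subst h
    exact ⟨hx, rfl, fun h => absurd rfl h⟩
  · simp only at h
    subst h
    have s1 := D.surface_far_small (D.surface_small hz)
    have s2 := D.surface_far_big (D.surface_big hw)
    have hb : ((D.q : ℂ) * z) ∈ D.Base := ⟨hw.1, hw.2, s1.le⟩
    obtain ⟨a, b, -⟩ := D.seam (η := η) hzb hb
    exact ⟨a.mp hx, b, fun _ => ⟨s1.ne', s2.ne'⟩⟩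
  · simp only at h
    subst h
    have s1 := D.surface_far_small (D.surface_small hw)
    have s2 := D.surface_far_big (D.surface_big hz)
    have hb : w ∈ D.Base := ⟨hw.1, hw.2, s2.le⟩
    obtain ⟨a, b, -⟩ := D.seam (η := η) hb hzb
    exact ⟨a.mpr hx, b.symm, fun _ => ⟨s2.ne', s1.ne'⟩⟩

/-- the map closing the handle -/
def surfacePi0 (x : D.Et) : AddCircle D.surfaceL × ℂ × ℂ :=
  (((Real.log ‖x.1.1‖ : ℝ) : AddCircle D.surfaceL), x.1.1 / (‖x.1.1‖ : ℂ), x.1.2)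

lemma surface_continuous_pi0 : Continuous D.surfacePi0 := by
  have hz : Continuous fun x : D.Et => x.1.1 := continuous_fst.comp continuous_subtype_val
  have hn : ∀ x : D.Et, ‖x.1.1‖ ≠ 0 := fun x => (D.surfaceNB_pos (D.surfaceNB_of_mem x)).ne'
  refine Continuous.prodMk ?_ (Continuous.prodMk ?_ ?_)
  · exact (AddCircle.continuous_mk' D.surfaceL).comp (hz.norm.log hn)
  · exact hz.div (Complex.continuous_ofReal.comp hz.norm) (fun x => by exact_mod_cast hn x)
  · exact continuous_snd.comp continuous_subtype_val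

/-- the closed-up surface -/
abbrev SurfaceM : Type := range D.surfacePi0

def surfacePi (x : D.Et) : D.SurfaceM := ⟨D.surfacePi0 x, mem_range_self x⟩

lemma surface_continuous_pi : Continuous D.surfacePi := D.surface_continuous_pi0.subtype_mk _

lemma surface_surj : Function.Surjective D.surfacePi := by
  rintro ⟨m, x, rfl⟩
  exact ⟨x, rfl⟩

lemma surface_fibre {x y : D.Et} (h : D.surfacePi y = D.surfacePi x) :
    y.1.2 = x.1.2 ∧ (y.1.1 = x.1.1 ∨ y.1.1 = D.q * x.1.1 ∨ x.1.1 = D.q * y.1.1) := by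
  have h0 : D.surfacePi0 y = D.surfacePi0 x := congrArg Subtype.val h
  unfold surfacePi0 at h0
  simp only [Prod.mk.injEq] at h0
  exact ⟨h0.2.2, D.surface_rel (D.surfaceNB_of_mem x) (D.surfaceNB_of_mem y) h0.1 h0.2.1⟩

lemma surface_FE_eq {x y : D.Et} (h : D.surfacePi y = D.surfacePi x) : D.FE y = D.FE x := by
  obtain ⟨h1, h2⟩ := D.surface_fibre h
  have := (D.surface_move x (D.surfaceNB_of_mem y) h2).2.1
  unfold FE
  rw [← this, ← h1]

lemma surface_eq_of_bd {x y : D.Et} (h : D.surfacePi y = D.surfacePi x) (hx : x ∈ D.bdE) :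
    y = x := by
  obtain ⟨h1, h2⟩ := D.surface_fibre h
  have h3 := (D.surface_move x (D.surfaceNB_of_mem y) h2).2.2
  have h4 : y.1.1 = x.1.1 := by
    by_contra hne
    exact (h3 hne).2 hx
  exact Subtype.ext (Prod.ext h4 h1)

lemma surface_pi_q {x y : D.Et} (h1 : y.1.1 = D.q * x.1.1) (h2 : y.1.2 = x.1.2) :
    D.surfacePi y = D.surfacePi x := by
  apply Subtype.ext
  have hx := D.surfaceNB_pos (D.surfaceNB_of_mem x)
  have hq := D.q0
  show D.surfacePi0 y = D.surfacePi0 x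
  unfold surfacePi0
  rw [h1, h2, D.surface_norm_q, Real.log_mul hq.ne' hx.ne']
  refine Prod.ext ?_ (Prod.ext ?_ rfl)
  · show ((Real.log D.q + Real.log ‖x.1.1‖ : ℝ) : AddCircle D.surfaceL) = _
    have : Real.log D.q + Real.log ‖x.1.1‖ = Real.log ‖x.1.1‖ - D.surfaceL := by
      unfold surfaceL; ring
    rw [this, AddCircle.coe_sub, AddCircle.coe_period, sub_zero]
  · have hq' : (D.q : ℂ) ≠ 0 := by exact_mod_cast hq.ne'
    have hx' : (‖x.1.1‖ : ℂ) ≠ 0 := by exact_mod_cast hx.ne'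
    show (D.q : ℂ) * x.1.1 / ((D.q * ‖x.1.1‖ : ℝ) : ℂ) = x.1.1 / (‖x.1.1‖ : ℂ)
    push_cast
    field_simp

lemma surface_locInj (x : D.Et) : ∃ U ∈ 𝓝 x, InjOn D.surfacePi U := by
  have hz : Continuous fun y : D.Et => ‖y.1.1‖ :=
    (continuous_fst.comp continuous_subtype_val).norm
  have hx := D.surfaceNB_pos (D.surfaceNB_of_mem x)
  refine ⟨{y | ‖x.1.1‖ / 2 < ‖y.1.1‖ ∧ ‖y.1.1‖ < 2 * ‖x.1.1‖}, ?_, ?_⟩
  · apply IsOpen.mem_nhds
    · exact (isOpen_lt continuous_const hz).inter (isOpen_lt hz continuous_const)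
    · exact ⟨by linarith, by linarith⟩
  · intro y hy y' hy' h
    obtain ⟨h1, h2⟩ := D.surface_fibre h
    have hq := D.q1
    have hq0 := D.q0
    obtain ⟨a1, a2⟩ := hy
    obtain ⟨b1, b2⟩ := hy'
    rcases h2 with h2 | h2 | h2
    · exact Subtype.ext (Prod.ext h2 h1)
    · exfalso
      rw [h2, D.surface_norm_q] at a1
      nlinarith
    · exfalso
      rw [h2, D.surface_norm_q] at b1
      nlinarith

lemma surface_isOpenMap : IsOpenMap D.surfacePi := by
  rw [isOpenMap_iff_nhds_le]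
  intro x
  have hL := D.surfaceL_pos
  have hx := D.surfaceNB_pos (D.surfaceNB_of_mem x)
  set a : ℝ := Real.log ‖x.1.1‖ - D.surfaceL / 2 with ha
  have hmem : Real.log ‖x.1.1‖ ∈ Ico a (a + D.surfaceL) := ⟨by linarith, by linarith⟩
  let lf : AddCircle D.surfaceL → ℝ := fun t => (AddCircle.equivIco D.surfaceL a t : ℝ)
  have lf_coe : ∀ t, ((lf t : ℝ) : AddCircle D.surfaceL) = t := fun t =>
    (AddCircle.equivIco D.surfaceL a).symm_apply_apply t
  have lf_x : lf ((Real.log ‖x.1.1‖ : ℝ) : AddCircle D.surfaceL) = Real.log ‖x.1.1‖ := by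
    have h1 := lf_coe ((Real.log ‖x.1.1‖ : ℝ) : AddCircle D.surfaceL)
    exact (AddCircle.coe_eq_coe_iff_of_mem_Ico (AddCircle.equivIco D.surfaceL a _).2 hmem).mp h1
  have hne : ((Real.log ‖x.1.1‖ : ℝ) : AddCircle D.surfaceL) ≠ (a : ℝ) := by
    intro h
    have := (AddCircle.coe_eq_coe_iff_of_mem_Ico hmem ⟨le_rfl, by linarith⟩).mp h
    linarith
  have lf_cont : ContinuousAt lf ((Real.log ‖x.1.1‖ : ℝ) : AddCircle D.surfaceL) :=
    continuous_subtype_val.continuousAt.comp (AddCircle.continuousAt_equivIco D.surfaceL a hne)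
  let s : D.SurfaceM → ℂ × ℂ := fun m => ((Real.exp (lf m.1.1) : ℂ) * m.1.2.1, m.1.2.2)
  have hv : Continuous fun m : D.SurfaceM => m.1 := continuous_subtype_val
  have s_cont : ContinuousAt s (D.surfacePi x) := by
    refine ContinuousAt.prodMk (ContinuousAt.mul ?_ ?_) ?_
    · have h1 : ContinuousAt (fun m : D.SurfaceM => lf m.1.1) (D.surfacePi x) :=
        ContinuousAt.comp (f := fun m : D.SurfaceM => m.1.1) lf_cont
          (continuous_fst.comp hv).continuousAt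
      exact Complex.continuous_ofReal.continuousAt.comp (Real.continuous_exp.continuousAt.comp h1)
    · exact (continuous_fst.comp (continuous_snd.comp hv)).continuousAt
    · exact (continuous_snd.comp (continuous_snd.comp hv)).continuousAt
  have s_x : s (D.surfacePi x) = x.1 := by
    have hx' : (‖x.1.1‖ : ℂ) ≠ 0 := by exact_mod_cast hx.ne'
    refine Prod.ext ?_ rfl
    show (Real.exp (lf ((Real.log ‖x.1.1‖ : ℝ) : AddCircle D.surfaceL)) : ℂ) *
      (x.1.1 / (‖x.1.1‖ : ℂ)) = x.1.1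
    rw [lf_x, Real.exp_log hx]
    field_simp
  intro U hU
  rw [Filter.mem_map] at hU
  obtain ⟨W, hW, hWU⟩ := (mem_nhds_subtype D.Et x _).mp hU
  have hO : {u : ℂ × ℂ | D.surfaceNB u.1} ∈ 𝓝 x.1 := by
    apply IsOpen.mem_nhds
    · exact (isOpen_lt continuous_const continuous_fst.norm).inter
        (isOpen_lt continuous_fst.norm continuous_const)
    · exact D.surfaceNB_of_mem x
  have h1 : s ⁻¹' (W ∩ {u : ℂ × ℂ | D.surfaceNB u.1}) ∈ 𝓝 (D.surfacePi x) := by
    apply s_cont.preimage_mem_nhds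
    rw [s_x]
    exact Filter.inter_mem hW hO
  refine Filter.mem_of_superset h1 ?_
  intro m hm
  obtain ⟨y, rfl⟩ := D.surface_surj m
  have hy := D.surfaceNB_pos (D.surfaceNB_of_mem y)
  have hy' : (‖y.1.1‖ : ℂ) ≠ 0 := by exact_mod_cast hy.ne'
  set t : ℝ := lf ((Real.log ‖y.1.1‖ : ℝ) : AddCircle D.surfaceL) with ht
  have hs : s (D.surfacePi y) = ((Real.exp t : ℂ) * (y.1.1 / (‖y.1.1‖ : ℂ)), y.1.2) := rfl
  set w : ℂ := (Real.exp t : ℂ) * (y.1.1 / (‖y.1.1‖ : ℂ)) with hw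
  have hwn : ‖w‖ = Real.exp t := by
    rw [hw, norm_mul, norm_div, Complex.norm_real, Complex.norm_real, Real.norm_eq_abs,
      Real.norm_eq_abs, abs_of_pos (Real.exp_pos t), abs_of_pos hy, div_self hy.ne', mul_one]
  have e1 : ((Real.log ‖w‖ : ℝ) : AddCircle D.surfaceL) = (Real.log ‖y.1.1‖ : ℝ) := by
    rw [hwn, Real.log_exp, ht, lf_coe]
  have e2 : w / (‖w‖ : ℂ) = y.1.1 / (‖y.1.1‖ : ℂ) := by
    have : (Real.exp t : ℂ) ≠ 0 := by exact_mod_cast (Real.exp_pos t).ne'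
    rw [hwn, hw]
    field_simp
  rw [mem_preimage, hs] at hm
  have hwb : D.surfaceNB w := hm.2
  have hmv := (D.surface_move y hwb (D.surface_rel (D.surfaceNB_of_mem y) hwb e1 e2)).1
  have hU' : D.surfacePi ⟨(w, y.1.2), hmv⟩ ∈ U := hWU (show (w, y.1.2) ∈ W from hm.1)
  have e3 : D.surfacePi ⟨(w, y.1.2), hmv⟩ = D.surfacePi y := by
    apply Subtype.ext
    show D.surfacePi0 _ = D.surfacePi0 y
    unfold surfacePi0
    exact Prod.ext e1 (Prod.ext e2 rfl)
  rwa [e3] at hU'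

lemma surface_compact : CompactSpace D.SurfaceM := by
  refine ⟨?_⟩
  have h := D.isCompact_fund.image D.surface_continuous_pi
  have hs := D.surface_sqrt_pos
  have hs1 := D.surface_sqrt_le
  have hsq := D.surface_sq
  have hq := D.q0
  have hq' : (D.q : ℂ) ≠ 0 := by exact_mod_cast hq.ne'
  convert h using 1
  symm
  rw [eq_univ_iff_forall]
  intro m
  obtain ⟨x, rfl⟩ := D.surface_surj m
  obtain ⟨b1, b2⟩ := D.surfaceNB_of_mem x
  rw [lt_div_iff₀ hs] at b2
  have hx := D.surfaceNB_pos (D.surfaceNB_of_mem x)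
  by_cases c1 : ‖x.1.1‖ < √D.q
  · set w : ℂ := x.1.1 / D.q with hw
    have e : x.1.1 = D.q * w := by rw [hw]; field_simp
    have en : ‖x.1.1‖ = D.q * ‖w‖ := by rw [e, D.surface_norm_q]
    have hw0 : 0 ≤ ‖w‖ := norm_nonneg w
    have u1 : √D.q * ‖w‖ < 1 := by
      by_contra hh
      push Not at hh
      nlinarith
    have u2 : 1 / 2 < √D.q * ‖w‖ := by
      by_contra hh
      push Not at hh
      nlinarith
    have u3 : √D.q ≤ ‖w‖ := by
      by_contra hh
      push Not at hh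
      nlinarith
    have hwb : D.surfaceNB w := ⟨by linarith, by rw [lt_div_iff₀ hs]; nlinarith⟩
    have hmv := (D.surface_move x hwb (Or.inr (Or.inr e))).1
    refine ⟨⟨(w, x.1.2), hmv⟩, ⟨u3, ?_⟩, ?_⟩
    · show ‖w‖ ≤ 1 / √D.q
      rw [le_div_iff₀ hs]; nlinarith
    · exact (D.surface_pi_q (x := ⟨(w, x.1.2), hmv⟩) (y := x) e rfl).symm
  by_cases c2 : 1 / √D.q < ‖x.1.1‖
  · rw [div_lt_iff₀ hs] at c2
    set w : ℂ := D.q * x.1.1 with hw
    have en : ‖w‖ = D.q * ‖x.1.1‖ := by rw [hw, D.surface_norm_q]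
    have u1 : √D.q < ‖w‖ := by rw [en]; nlinarith
    have u2 : ‖w‖ < 2 * √D.q := by rw [en]; nlinarith
    have hwb : D.surfaceNB w := ⟨by linarith, by rw [lt_div_iff₀ hs]; nlinarith⟩
    have hmv := (D.surface_move x hwb (Or.inr (Or.inl rfl))).1
    refine ⟨⟨(w, x.1.2), hmv⟩, ⟨u1.le, ?_⟩, ?_⟩
    · show ‖w‖ ≤ 1 / √D.q
      rw [le_div_iff₀ hs]; nlinarith
    · exact D.surface_pi_q (x := x) (y := ⟨(w, x.1.2), hmv⟩) rfl rfl
  · push Not at c1 c2
    exact ⟨x, ⟨c1, c2⟩, rfl⟩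

/-- the immersion on the closed-up surface -/
def surfaceF (m : D.SurfaceM) : E3 := D.FE (D.surface_surj m).choose

lemma surfaceF_pi (x : D.Et) : D.surfaceF (D.surfacePi x) = D.FE x :=
  D.surface_FE_eq (D.surface_surj (D.surfacePi x)).choose_spec

lemma surface_locChart (x : D.Et) : LocChart D.FE D.bdE x := by
  by_cases h1 : ‖x.1.1 - 1‖ = D.ε
  · exact D.locChart_bd x h1
  by_cases h2 : ∃ j, x.1.1 = D.p j
  · obtain ⟨j, hj⟩ := h2
    exact D.locChart_cone x hj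
  · push Not at h2
    exact D.locChart_reg x h2 h1

end SurfData

theorem SurfData.surface (D : SurfData) :
    ∃ (M : Type) (_ : TopologicalSpace M) (_ : ChartedSpace (EuclideanHalfSpace 2) M)
      (_ : IsManifold (𝓡∂ 2) ∞ M) (_ : T2Space M) (_ : CompactSpace M) (_ : ConnectedSpace M)
      (f N : M → E3), IsHSurface f N 2 ∧
        BijOn f ((𝓡∂ 2).boundary M) (range fun θ : ℝ => D.Y (θ * I)) := by
  obtain ⟨β, hβ, b1, b2, -, b4⟩ := D.exists_bdParam
  have hb : ∀ x, D.surfacePi x ∈ D.surfacePi '' D.bdE ↔ x ∈ D.bdE := by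
    intro x
    constructor
    · rintro ⟨y, hy, h⟩
      rw [D.surface_eq_of_bd h.symm hy]; exact hy
    · exact fun h => mem_image_of_mem _ h
  have hl : ∀ m, LocChart D.surfaceF (D.surfacePi '' D.bdE) m := by
    intro m
    obtain ⟨x, rfl⟩ := D.surface_surj m
    exact LocChart.map D.surface_continuous_pi D.surface_isOpenMap D.surface_locInj
      D.surfaceF_pi hb (D.surface_locChart x)
  obtain ⟨cs, hm, hbd, N, hN⟩ := glue _ _ hl
  have hpre : PreconnectedSpace D.Et := by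
    apply D.preconnected_Et
    rw [b4]
    exact isPreconnected_Ico.image β hβ.continuousOn
  have : ConnectedSpace D.Et := { toNonempty := ⟨β 0⟩ }
  have hcon : ConnectedSpace D.SurfaceM :=
    D.surface_surj.connectedSpace D.surface_continuous_pi
  refine ⟨D.SurfaceM, inferInstance, cs, hm, inferInstance, D.surface_compact, hcon,
    D.surfaceF, N, hN, ?_⟩
  rw [hbd]
  refine ⟨?_, ?_, ?_⟩
  · rintro m ⟨x, hx, rfl⟩
    rw [b4] at hx
    obtain ⟨θ, -, rfl⟩ := hx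
    exact ⟨θ, by rw [D.surfaceF_pi, b1]⟩
  · rintro m ⟨x, hx, rfl⟩ m' ⟨x', hx', rfl⟩ h
    rw [b4] at hx hx'
    obtain ⟨θ, hθ, rfl⟩ := hx
    obtain ⟨θ', hθ', rfl⟩ := hx'
    rw [D.surfaceF_pi, D.surfaceF_pi, b1, b1] at h
    rw [D.Y_inj hθ hθ' h]
  · rintro v ⟨θ, rfl⟩
    refine ⟨D.surfacePi (β θ), ⟨β θ, ?_, rfl⟩, by rw [D.surfaceF_pi, b1]⟩
    show ‖(β θ).1.1 - 1‖ = D.ε
    rw [b2, add_sub_cancel_left, norm_mul, Complex.norm_real, Complex.norm_exp_ofReal_mul_I,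
      mul_one, Real.norm_eq_abs, abs_of_pos D.ε0]

end Pool.Agent.MP_efb2da_gt
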