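import Pool.Agent.MP_efb2da_gt.Nilp
import Pool.Agent.MP_efb2da_gt.NonV
import Pool.Agent.MP_efb2da_gt.Hopf
import Pool.Agent.MP_efb2da_gt.Fr3
import Pool.Agent.MP_efb2da_gt.Cap2
import Pool.Agent.MP_efb2da_gt.Neck2
import Pool.Agent.MP_efb2da_gt.Neck3
import Pool.Agent.MP_efb2da_gt.Surface
import Pool.Agent.MP_efb2da_gt.Circ

open Set Complex
open scoped Topology ComplexConjugate Matrix ContDiff

noncomputable section

namespace Pool.Agent.MP_efb2da_gt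

open scoped Manifold in
def Final : Prop := ∃ γ : ℝ → E2, ContDiff ℝ ∞ γ ∧ Function.Periodic γ 1 ∧ InjOn γ (Ico 0 1) ∧
    (∀ s, deriv γ s ≠ 0) ∧ (∀ (c : E2) (R : ℝ), range γ ≠ Metric.sphere c R) ∧
    0 < area (inside (range γ)) ∧
    ∃ (M : Type) (_ : TopologicalSpace M) (_ : ChartedSpace (EuclideanHalfSpace 2) M)
      (_ : IsManifold (𝓡∂ 2) ∞ M) (_ : T2Space M) (_ : CompactSpace M) (_ : ConnectedSpace M)
      (f N : M → E3) (H : ℝ), IsHSurface f N H ∧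
        BijOn f ((𝓡∂ 2).boundary M) (incl '' range γ) ∧
        |H| = len γ / (2 * area (inside (range γ)))

lemma Geom_sqrt {g : Geo} (hg : AdmG g) :
    0 < √(qq g) ∧ √(qq g) ≤ 1/64 ∧ √(qq g) * √(qq g) = qq g :=
  ⟨Real.sqrt_pos.2 hg.2.2.1.1, Real.sqrt_le_iff.2 ⟨by norm_num, by linarith [hg.2.2.1.2]⟩,
    Real.mul_self_sqrt hg.2.2.1.1.le⟩

lemma Geom_sub {g : Geo} (hg : AdmG g) : Rg (ee g) (qq g) (pp g) ⊆ Dom g := by
  rintro z ⟨h1, h2, h3, h4⟩
  obtain ⟨a, b, c⟩ := Geom_sqrt hg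
  obtain ⟨e0, e1⟩ := hg.2.1
  rw [lt_div_iff₀ a] at h2
  exact ⟨by nlinarith, by nlinarith [mul_lt_mul_of_pos_left h2 a], by nlinarith, h4⟩

lemma Geom_open (ε q : ℝ) (p : Fin 3 → ℝ) : IsOpen (Rg ε q p) := by
  refine (isOpen_lt continuous_const continuous_norm).inter
    ((isOpen_lt continuous_norm continuous_const).inter
      ((isOpen_lt continuous_const (continuous_id.sub continuous_const).norm).inter ?_))
  show IsOpen {z : ℂ | ∀ j, z ≠ p j}
  rw [ofPred_forall]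
  exact isOpen_iInter_of_finite fun j => isOpen_ne

lemma Geom_rt {k : ℕ} {t : ℝ} (ht : t = 1 / k) (l : ℕ) :
    exp (2 * Real.pi * I * t * ((l : ℤ) : ℂ)) = rt k ^ l := by
  rw [rt, ← Complex.exp_nat_mul, ht]
  congr 1
  push_cast
  ring

lemma Geom_frame {g : Geo} {d : Dat} {Ω : Set ℂ} {Φ : ℂ → MW} (hF : Frame g d Ω Φ) (hg : AdmG g)
    (hd : Str d) (hN : Nil g d) : DFrame Ω Φ fun z => (tt g : ℂ) • Xi g d z where
  opn := hF.opn
  ode := hF.ode
  det := hF.det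
  hol := ((Xi_differentiableOn hg hd).mono hF.sub).const_smul (tt g : ℂ)
  ge z _ := (Xi_ge hd z).smul _
  tr z _ := Pot3_tr_smul _ (Xi_tr hd z)
  nil z hz := by rw [map_smul, Matrix.det_smul, hN.nil z (hF.sub hz), mul_zero]

lemma Geom_per {E : Type} [NormedAddCommGroup E] {u : ℝ → E} (hu : Function.Periodic u 1) {c : ℝ}
    (h : ∀ s ∈ Icc (0:ℝ) 1, ‖u s‖ ≤ c) (s : ℝ) : ‖u s‖ ≤ c := by
  have := hu.sub_int_mul_eq (x := s) ⌊s⌋
  rw [mul_one] at this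
  rw [← this]
  exact h _ ⟨Int.fract_nonneg s, (Int.fract_lt_one s).le⟩

lemma Geom_exp : Function.Periodic (fun s : ℝ => exp (2 * Real.pi * I * s)) 1 := fun s => by
  simp only [ofReal_add, ofReal_one, mul_add, mul_one, Complex.exp_add, Complex.exp_two_pi_mul_I]

theorem Geom_main {η N : ℝ} {As : Fin 5 → MW} (S : Sol η N As) (hN : Nil S.g S.d)
    (hH : hopf (xiN S.g S.d) (La1 S.g) ≠ 0) (hη : η * N ≤ 1/4)
    (hcap : ∀ j : Fin 3, (AA S.d (cj5 j)).det = algebraMap ℂ W (-1/4) →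
      ∃ (P : MW) (φ : W), MGE 0 P ∧ P.det = 1 ∧ sharp P = P ∧ W.GE (-1) φ ∧ W.cj φ = φ ∧
        W.coef (-1) φ ≠ 0 ∧
        adj P * AA S.d (cj5 j) * P = !![algebraMap ℂ W (1/2), φ; 0, algebraMap ℂ W (-1/2)])
    (hcl : ∀ Ψ : ℂ → MW, Neck S.g S.d Ψ → ∀ s ∈ Icc (0:ℝ) 1,
      ‖Gam S.k S.x Ψ s - (1/2) * exp (2 * Real.pi * I * s)‖ ≤ 1/20 ∧
      ‖deriv (Gam S.k S.x Ψ) s - Real.pi * I * exp (2 * Real.pi * I * s)‖ ≤ 1/5) : Final := by
  obtain ⟨Ω, Φ, hF⟩ := exists_frame S.adm S.str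
  obtain ⟨R5, hR⟩ := S.arcs hF
  choose P φ p1 p2 p3 p4 p5 p6 p7 using fun j => hcap j (hR.det_cap hF hη j)
  choose X X1 X2 X3 X4 using fun j =>
    exists_cap_chart hF hR hN j (p1 j) (p2 j) (p3 j) (p4 j) (p5 j) (p6 j) (p7 j)
  obtain ⟨Ψ, hΨ, hΨe⟩ := exists_neck hF S.adm S.str S.fix hN
  have DF := Geom_frame hF S.adm S.str hN
  have t0 : (tt S.g : ℂ) ≠ 0 := ofReal_ne_zero.2 S.adm.1.1.ne'
  have hp := hΨ.periodic
  have hp' : Function.Periodic (deriv (Gam S.k S.x Ψ)) 1 := fun s => by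
    rw [← deriv_comp_add_const, funext hp]
  obtain ⟨c1, c2, c3, c4, c5, c6, c7, c8⟩ := curve_final (hΨ.contDiff_Gam S.adm S.k) hp
    (Geom_per (u := fun s => Gam S.k S.x Ψ s - (1/2) * exp (2 * Real.pi * I * s))
      (fun s => by simp only [hp s, Geom_exp s]) fun s hs => (hcl Ψ hΨ s hs).1)
    (Geom_per (u := fun s => deriv (Gam S.k S.x Ψ) s - Real.pi * I * exp (2 * Real.pi * I * s))
      (fun s => by simp only [hp' s, Geom_exp s]) fun s hs => (hcl Ψ hΨ s hs).2)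
    (hΨ.differentiable_nu S.adm S.k) (hΨ.norm_deriv_Gam S.adm S.k) hΨ.flux (hΨ.noncirc hN hH)
  have k0 : (0:ℝ) < 2 * Real.pi * S.k := by
    have : (0:ℝ) < S.k := by exact_mod_cast lt_of_lt_of_le (by norm_num) S.hk
    positivity
  have hY : ∀ s : ℝ, pt S.x (Ψ (((2 * Real.pi * S.k * s : ℝ) : ℂ) * I)) =
      mk3 (Gam S.k S.x Ψ s) 0 := fun s => by
    rw [← hΨ.planar (x := S.x) S.adm (2 * Real.pi * S.k * s), Gam, mk3_hz]
  have hY' : ∀ θ : ℝ, pt S.x (Ψ (θ * I)) = mk3 (Gam S.k S.x Ψ (θ / (2 * Real.pi * S.k))) 0 :=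
    fun θ => by rw [← hY, mul_div_cancel₀ _ k0.ne']
  have st := fun (ζ : ℂ) (h : |ζ.re| < 1/2) => xiN_ne S.adm S.fix hN h
  let D : SurfData :=
    { k := S.k, ε := ee S.g, q := qq S.g, p := pp S.g, f := fun z => pt S.x (Φ z), X := X
      Y := fun ζ => pt S.x (Ψ ζ), hk := S.hk, ε0 := S.adm.2.1.1, ε1 := S.adm.2.1.2
      q0 := S.adm.2.2.1.1, q1 := S.adm.2.2.1.2, adm := S.adm.2.2.2
      cmc := fun z hz hi => by
        filter_upwards [(Geom_open _ _ _).mem_nhds hz,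
          hF.opn.mem_nhds (hF.up z (Geom_sub S.adm hz) hi)] with w h1 h2
        refine (DF.cmcAt h2 ?_).sub_const _
        rw [map_smul]
        exact smul_ne_zero t0 (hN.ne w h1.1 h1.2.1 h1.2.2.1 h1.2.2.2)
      refl := fun y hy => by
        filter_upwards [hF.arc_local S.adm S.str (Geom_sub S.adm hy)] with z hz
        have d1 := hF.det _ hz.2.1
        have := (hR.cl_val y).pt_mul (Φ := sharp (Φ (conj z))) (by rw [det_sharp, d1, W.cj_one])
          MGE_one Matrix.det_one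
        rw [mul_one, pt_sharp d1, Geom_rt S.ht, ← hR.val y (Geom_sub S.adm hy), ← hz.2.2] at this
        exact this
      per := fun z hi h1 h2 => by
        obtain ⟨L, hL, e⟩ := hR.per
        obtain ⟨a, b, c⟩ := Geom_sqrt S.adm
        have z8 : 8 < ‖z‖ := by
          rw [div_lt_iff₀ (by positivity)] at h1
          nlinarith [norm_nonneg z]
        have zR : z ∈ Rg (ee S.g) (qq S.g) (pp S.g) := by
          refine ⟨by linarith, h2, ?_, fun j hj => ?_⟩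
          · have := norm_sub_norm_le z 1
            rw [norm_one] at this
            linarith [S.adm.2.1.2]
          · have := abs_pos_le S.adm.2.2.2 (cj5 j)
            rw [pos_cj5] at this
            rw [hj, norm_real, Real.norm_eq_abs] at z8
            linarith
        have zD := Geom_sub S.adm zR
        have := hL.pt_mul (hF.det z (hF.up z zD hi)) S.str.geG.adj
          (by rw [det_adj, S.fix.detG])
        rw [← e z hi z8 zD.2.1, mul_assoc, mul_adj_of_det S.fix.detG, mul_one] at this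
        simpa using this
      X_cmc := X1, X_eq := X2, X_rot := X3, X_refl := X4
      Y_cmc := fun ζ h => (hΨ.fr.cmcAt (st ζ h).1 (st ζ h).2).sub_const _
      Y_eq := fun ζ h h1 h2 => by rw [hΨe ζ (st ζ h).1 h1 h2]
      Y_rot := fun ζ h => by
        have := S.c1.pt_mul (hΨ.fr.det ζ (st ζ h).1) MGE_one Matrix.det_one
        have e := Geom_rt S.ht 1
        rw [Nat.cast_one, pow_one] at e
        rw [mul_one, e, ← hΨ.rot ζ (st ζ h).1] at this
        exact this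
      Y_refl := fun ζ h => by rw [hΨ.cj ζ (st ζ h).1, pt_sharp (hΨ.fr.det ζ (st ζ h).1)]
      Y_inj := fun a ha b hb e => by
        have m : ∀ θ ∈ Ico 0 (2 * Real.pi * S.k), θ / (2 * Real.pi * S.k) ∈ Ico (0:ℝ) 1 :=
          fun θ h => ⟨div_nonneg h.1 k0.le, (div_lt_one k0).2 h.2⟩
        have e' := congrArg hz e
        simp only [hY', hz_mk3] at e'
        exact (div_left_inj' k0.ne').1 (c4 (m a ha) (m b hb) e') }
  obtain ⟨M, i1, i2, i3, i4, i5, i6, f, n, hf, hb⟩ := D.surface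
  refine ⟨_, c1, c2, c3, c5, c6, c7, M, i1, i2, i3, i4, i5, i6, f, n, 2, hf, ?_, c8⟩
  convert hb using 1
  ext v
  constructor
  · rintro ⟨_, ⟨s, rfl⟩, rfl⟩
    exact ⟨2 * Real.pi * S.k * s, (hY s).trans (incl_toE2 _).symm⟩
  · rintro ⟨θ, rfl⟩
    exact ⟨_, ⟨θ / (2 * Real.pi * S.k), rfl⟩, (incl_toE2 _).trans (hY' θ).symm⟩

theorem geometry {As : Fin 5 → MW} (hL : LimProp As) (N : ℝ) :
    ∃ η > 0, Nonempty (Sol η N As) → Final := by
  obtain ⟨a1, p1, h1⟩ := sol_nil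
  obtain ⟨a2, p2, h2⟩ := sol_ne hL N
  obtain ⟨a3, p3, h3⟩ := sol_hopf hL N
  obtain ⟨a4, p4, h4⟩ := exists_cap_gauge hL N
  obtain ⟨a5, p5, h5⟩ := neck_close hL N
  have p6 : 0 < 1 / (4 * (|N| + 1)) := by positivity
  obtain ⟨η, e0, e1, e2, e3, e4, e5, e6⟩ : ∃ η > 0, η ≤ a1 ∧ η ≤ a2 ∧ η ≤ a3 ∧ η ≤ a4 ∧ η ≤ a5 ∧
      η ≤ 1 / (4 * (|N| + 1)) :=
    ⟨min a1 (min a2 (min a3 (min a4 (min a5 (1 / (4 * (|N| + 1))))))), by positivity,
      by simp only [← le_min_iff, le_refl]⟩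
  refine ⟨η, e0, fun ⟨S⟩ => Geom_main S ⟨h1 η N As S e1, h2 η S e2⟩ (h3 η S e3) ?_ (h4 η S e4)
    fun Ψ h => h5 η S Ψ e5 h⟩
  rw [le_div_iff₀ (by positivity)] at e6
  nlinarith [mul_le_mul_of_nonneg_left (le_abs_self N) e0.le]

end Pool.Agent.MP_efb2da_gt
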