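import Pool.Agent.MP_efb2da_gt.Cmc

open scoped Manifold ContDiff RealInnerProductSpace ComplexConjugate Topology
open Set

noncomputable section

namespace Pool.Agent.MP_efb2da_gt

/-- the point of `ℂ` with the coordinates of `x` -/
def toC (x : E2) : ℂ := ⟨x 0, x 1⟩

/-- an atlas indexed by the points, in which `f` is read as a conformal CMC map -/
structure Atlas {M : Type} [TopologicalSpace M] (f : M → E3) (bd : Set M) where
  c : M → OpenPartialHomeomorph M (EuclideanHalfSpace 2)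
  X : M → ℂ → E3
  V : M → Set ℂ
  mem : ∀ p, p ∈ (c p).source
  opn : ∀ p, IsOpen (V p)
  tgt : ∀ p, ∀ y ∈ (c p).target, toC y.val ∈ V p
  cmc : ∀ p, ∀ w ∈ V p, CMCAt (X p) w
  eq : ∀ p, ∀ x ∈ (c p).source, f x = X p (toC (c p x).val)
  bd_iff : ∀ p, p ∈ bd ↔ (c p p).val 0 = 0

/-- the closed right half plane -/
def GlueA_H : Set ℂ := {w | 0 ≤ w.re}

/-- normal form of a local chart: the domain is always a piece of the closed half plane -/
lemma GlueA_norm {M : Type} [TopologicalSpace M] {f : M → E3} {bd : Set M} {p : M}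
    (h : LocChart f bd p) :
    ∃ (V : Set ℂ) (w₀ : ℂ) (ψ : ℂ → M) (X : ℂ → E3), IsOpen V ∧ w₀ ∈ V ∧ 0 ≤ w₀.re ∧ ψ w₀ = p ∧
      (p ∈ bd ↔ w₀.re = 0) ∧ ContinuousOn ψ (V ∩ GlueA_H) ∧ InjOn ψ (V ∩ GlueA_H) ∧
      (∀ V', IsOpen V' → V' ⊆ V → IsOpen (ψ '' (V' ∩ GlueA_H))) ∧
      (∀ w ∈ V, CMCAt X w) ∧ ∀ w ∈ V ∩ GlueA_H, f (ψ w) = X w := by
  obtain ⟨V, w₀, S, ψ, X, hV, hw₀, hψ, hS, hcont, hinj, hop, hcmc, hX⟩ := h
  rcases hS with ⟨rfl, hp⟩ | ⟨rfl, h0, hp⟩
  · have hc : Continuous fun w : ℂ => w + (w₀ - 1) := by fun_prop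
    refine ⟨((fun w => w + (w₀ - 1)) ⁻¹' V) ∩ {w | 0 < w.re}, 1, fun w => ψ (w + (w₀ - 1)),
      fun w => X (w + (w₀ - 1)), (hV.preimage hc).inter (isOpen_lt continuous_const
        Complex.continuous_re), ⟨by simpa using hw₀, by simp⟩, by simp, by simpa using hψ,
      by simpa using hp, ?_, ?_, ?_, ?_, ?_⟩
    · exact hcont.comp hc.continuousOn (fun w hw => ⟨hw.1.1, trivial⟩)
    · intro a ha b hb hab
      exact add_right_cancel (hinj ⟨ha.1.1, trivial⟩ ⟨hb.1.1, trivial⟩ hab)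
    · intro V' hV' hsub
      have h1 : IsOpen ((fun w : ℂ => w + (w₀ - 1)) '' V') :=
        (isOpenMap_add_right (w₀ - 1)) V' hV'
      have h2 := hop _ h1 (by rintro _ ⟨w, hw, rfl⟩; exact (hsub hw).1)
      have h3 : V' ∩ GlueA_H = V' := inter_eq_left.mpr fun w hw =>
        show 0 ≤ w.re from le_of_lt (show 0 < w.re from (hsub hw).2)
      rw [inter_univ, image_image] at h2
      rw [h3]
      exact h2
    · intro w hw
      exact (hcmc _ hw.1).translate
    · intro w hw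
      exact hX _ ⟨hw.1.1, trivial⟩
  · exact ⟨V, w₀, ψ, X, hV, hw₀, h0.ge, hψ, ⟨fun _ => h0, fun _ => hp⟩, hcont, hinj, hop, hcmc, hX⟩

lemma GlueA_continuous_toC : Continuous toC := by
  have h : toC = fun v : E2 => ((v 0 : ℝ) : ℂ) + ((v 1 : ℝ) : ℂ) * Complex.I := by
    funext v; apply Complex.ext <;> simp [toC]
  rw [h]; fun_prop

/-- the retraction of the plane on the model half plane -/
def GlueA_g (w : ℂ) : EuclideanHalfSpace 2 := ⟨!₂[max w.re 0, w.im], by simp⟩

lemma GlueA_continuous_g : Continuous GlueA_g := by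
  refine Continuous.subtype_mk ?_ _
  refine (PiLp.continuous_toLp 2 _).comp ?_
  refine continuous_pi fun i => ?_
  fin_cases i
  · exact Complex.continuous_re.max continuous_const
  · exact Complex.continuous_im

lemma GlueA_g_toC (y : EuclideanHalfSpace 2) : GlueA_g (toC y.val) = y := by
  apply Subtype.ext
  have hy : 0 ≤ y.val 0 := y.property
  ext i
  fin_cases i
  · simp [GlueA_g, toC, hy]
  · simp [GlueA_g, toC]

lemma GlueA_toC_g {w : ℂ} (hw : 0 ≤ w.re) : toC (GlueA_g w).val = w := by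
  apply Complex.ext
  · simp [GlueA_g, toC, hw]
  · simp [GlueA_g, toC]

lemma GlueA_toC_mem (y : EuclideanHalfSpace 2) : toC y.val ∈ GlueA_H := y.property

/-- a chart built from a local parametrisation by a piece of the half plane -/
lemma GlueA_chart {M : Type} [TopologicalSpace M] {V : Set ℂ} {ψ : ℂ → M} (hV : IsOpen V)
    (hcont : ContinuousOn ψ (V ∩ GlueA_H)) (hinj : InjOn ψ (V ∩ GlueA_H))
    (hop : ∀ V', IsOpen V' → V' ⊆ V → IsOpen (ψ '' (V' ∩ GlueA_H))) :
    ∃ c : OpenPartialHomeomorph M (EuclideanHalfSpace 2),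
      (∀ y ∈ c.target, toC y.val ∈ V) ∧ (∀ x ∈ c.source, x = ψ (toC (c x).val)) ∧
      ∀ w ∈ V ∩ GlueA_H, ψ w ∈ c.source ∧ c (ψ w) = GlueA_g w := by
  have hce : Continuous fun y : EuclideanHalfSpace 2 => toC y.val :=
    GlueA_continuous_toC.comp continuous_subtype_val
  set T : Set (EuclideanHalfSpace 2) := {y | toC y.val ∈ V} with hT
  have hTo : IsOpen T := hV.preimage hce
  set φ : EuclideanHalfSpace 2 → M := fun y => ψ (toC y.val) with hφ
  have hφc : ContinuousOn φ T :=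
    hcont.comp hce.continuousOn (fun y hy => ⟨hy, GlueA_toC_mem y⟩)
  have hφi : InjOn φ T := by
    intro a ha b hb hab
    have h1 := hinj ⟨ha, GlueA_toC_mem a⟩ ⟨hb, GlueA_toC_mem b⟩ hab
    rw [← GlueA_g_toC a, h1, GlueA_g_toC]
  have hφo : ∀ U, IsOpen U → U ⊆ T → IsOpen (φ '' U) := by
    intro U hU hUT
    have h1 := hop (GlueA_g ⁻¹' U ∩ V) ((hU.preimage GlueA_continuous_g).inter hV)
      inter_subset_right
    have h2 : φ '' U = ψ '' ((GlueA_g ⁻¹' U ∩ V) ∩ GlueA_H) := by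
      ext x
      constructor
      · rintro ⟨y, hy, rfl⟩
        exact ⟨toC y.val, ⟨⟨by rw [mem_preimage, GlueA_g_toC]; exact hy, hUT hy⟩,
          GlueA_toC_mem y⟩, rfl⟩
      · rintro ⟨w, ⟨⟨hw1, -⟩, hw3⟩, rfl⟩
        exact ⟨GlueA_g w, hw1, by simp only [hφ, GlueA_toC_g hw3]⟩
    rw [h2]; exact h1
  haveI : Nonempty (EuclideanHalfSpace 2) := ⟨GlueA_g 0⟩
  set e : PartialEquiv (EuclideanHalfSpace 2) M := hφi.toPartialEquiv φ T with he
  have hes : e.source = T := rfl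
  have hef : (e : EuclideanHalfSpace 2 → M) = φ := rfl
  have ho : IsOpenMap (e.source.domRestrict e) := by
    intro U hU
    have h1 : IsOpen (Subtype.val '' U) := hTo.isOpenMap_subtype_val U hU
    have h2 := hφo _ h1 (by rintro _ ⟨y, -, rfl⟩; exact y.property)
    rw [image_image] at h2
    exact h2
  let c := OpenPartialHomeomorph.ofContinuousOpenRestrict e hφc ho hTo
  have hcs : c.source = T := rfl
  have hcf : ∀ y, c y = φ y := fun _ => rfl
  refine ⟨c.symm, fun y hy => hy, ?_, ?_⟩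
  · intro x hx
    exact (c.right_inv hx).symm
  · intro w hw
    have h1 : GlueA_g w ∈ c.source := by
      rw [hcs, hT, mem_ofPred_eq, GlueA_toC_g hw.2]; exact hw.1
    have h2 : c (GlueA_g w) = ψ w := by rw [hcf]; simp only [hφ, GlueA_toC_g hw.2]
    refine ⟨?_, ?_⟩
    · rw [← h2]; exact c.map_source h1
    · rw [← h2]; exact c.left_inv h1

theorem exists_atlas {M : Type} [TopologicalSpace M] (f : M → E3) (bd : Set M)
    (h : ∀ p, LocChart f bd p) : Nonempty (Atlas f bd) := by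
  choose V w₀ ψ X hV hw₀ hre hψ hbd hcont hinj hop hcmc hX using fun p => GlueA_norm (h p)
  choose c hc1 hc2 hc3 using fun p => GlueA_chart (hV p) (hcont p) (hinj p) (hop p)
  refine ⟨⟨c, X, V, fun p => ?_, hV, hc1, hcmc, fun p x hx => ?_, fun p => ?_⟩⟩
  · have h1 := (hc3 p (w₀ p) ⟨hw₀ p, hre p⟩).1
    rwa [hψ p] at h1
  · have h1 := hX p _ ⟨hc1 p _ ((c p).map_source hx), GlueA_toC_mem (c p x)⟩
    rwa [← hc2 p x hx] at h1
  · have h1 := (hc3 p (w₀ p) ⟨hw₀ p, hre p⟩).2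
    rw [hψ p] at h1
    rw [h1, hbd p]
    simp [GlueA_g, hre p]

/-- the charted space of an atlas -/
@[reducible] def Atlas.cs {M : Type} [TopologicalSpace M] {f : M → E3} {bd : Set M}
    (A : Atlas f bd) : ChartedSpace (EuclideanHalfSpace 2) M where
  atlas := range A.c
  chartAt := A.c
  mem_chart_source := A.mem
  chart_mem_atlas p := mem_range_self p

theorem Atlas.boundary_eq {M : Type} [TopologicalSpace M] {f : M → E3} {bd : Set M}
    (A : Atlas f bd) : letI := A.cs; (𝓡∂ 2).boundary M = bd := by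
  letI := A.cs
  ext p
  rw [A.bd_iff p]
  change extChartAt (𝓡∂ 2) p p ∈ frontier (range (𝓡∂ 2)) ↔ _
  rw [frontier_range_modelWithCornersEuclideanHalfSpace]
  exact eq_comm

end Pool.Agent.MP_efb2da_gt
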