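import Pool.Agent.MP_efb2da_gt.GlueA

open scoped Manifold ContDiff RealInnerProductSpace ComplexConjugate Topology
open Set

noncomputable section

namespace Pool.Agent.MP_efb2da_gt

/-- a linear left inverse of the differential of a conformal immersion -/
lemma GlueB_exists_lin {X : ℂ → E3} {w₀ : ℂ} (h : CMCAt X w₀) :
    ∃ L : E3 →L[ℝ] ℂ, L.comp (fderiv ℝ X w₀) = ContinuousLinearMap.id ℝ ℂ := by
  set a := dx X w₀ with ha
  set b := dy X w₀ with hb
  have hr : 0 < ‖a‖ ^ 2 := pow_pos (norm_pos_iff.2 h.ne) 2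
  have haa : ⟪a, a⟫ = ‖a‖ ^ 2 := real_inner_self_eq_norm_sq a
  have hbb : ⟪b, b⟫ = ‖a‖ ^ 2 := by
    rw [real_inner_self_eq_norm_sq, ha, h.conf]
  have hab : ⟪a, b⟫ = 0 := h.orth
  have hba : ⟪b, a⟫ = 0 := by rw [real_inner_comm]; exact h.orth
  refine ⟨(‖a‖ ^ 2)⁻¹ • ((innerSL ℝ a).smulRight (1:ℂ) + (innerSL ℝ b).smulRight Complex.I), ?_⟩
  ext1 z
  have hz : z = z.re • (1:ℂ) + z.im • Complex.I := by
    apply Complex.ext <;> simp
  have hD : fderiv ℝ X w₀ z = z.re • a + z.im • b := by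
    conv_lhs => rw [hz]
    rw [map_add, map_smul, map_smul]
    rfl
  simp only [ContinuousLinearMap.comp_apply, hD, ContinuousLinearMap.smul_apply,
    ContinuousLinearMap.add_apply, ContinuousLinearMap.smulRight_apply, innerSL_apply_apply,
    inner_add_right, inner_smul_right, haa, hbb, hab, hba, ContinuousLinearMap.id_apply,
    mul_zero, add_zero, zero_add]
  rw [smul_add, smul_smul, smul_smul]
  have e1 : (‖a‖ ^ 2)⁻¹ * (z.re * ‖a‖ ^ 2) = z.re := by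
    rw [mul_comm, mul_assoc, mul_inv_cancel₀ hr.ne', mul_one]
  have e2 : (‖a‖ ^ 2)⁻¹ * (z.im * ‖a‖ ^ 2) = z.im := by
    rw [mul_comm, mul_assoc, mul_inv_cancel₀ hr.ne', mul_one]
  rw [e1, e2]
  exact hz.symm

/-- a CMC chart has a smooth local left inverse -/
theorem exists_left_inv {X : ℂ → E3} {V : Set ℂ} (hV : IsOpen V) (hX : ∀ w ∈ V, CMCAt X w)
    {w₀ : ℂ} (h₀ : w₀ ∈ V) : ∃ (π : E3 → ℂ) (O : Set E3), IsOpen O ∧ X w₀ ∈ O ∧
      ContDiffOn ℝ ∞ π O ∧ ∀ᶠ w in 𝓝 w₀, π (X w) = w := by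
  obtain ⟨L, hL⟩ := GlueB_exists_lin (hX w₀ h₀)
  set g : ℂ → ℂ := fun w => L (X w) with hg
  have hgs : ∀ w ∈ V, ContDiffAt ℝ ∞ g w := fun w hw =>
    L.contDiff.contDiffAt.comp w (hX w hw).smooth
  have hne : (∞ : WithTop ℕ∞) ≠ 0 := by simp
  have hd0 : HasFDerivAt g ((ContinuousLinearEquiv.refl ℝ ℂ : ℂ ≃L[ℝ] ℂ) : ℂ →L[ℝ] ℂ) w₀ := by
    have h1 := L.hasFDerivAt.comp w₀ ((hX w₀ h₀).smooth.differentiableAt hne).hasFDerivAt
    rw [hL] at h1
    exact h1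
  set e := (hgs w₀ h₀).toOpenPartialHomeomorph g hd0 hne with he
  have hec : (e : ℂ → ℂ) = g := rfl
  have hsrc : w₀ ∈ e.source := (hgs w₀ h₀).mem_toOpenPartialHomeomorph_source hd0 hne
  have hgo : ContDiffOn ℝ ∞ g V := fun w hw => (hgs w hw).contDiffWithinAt
  have hcont : ContinuousOn (fun w => fderiv ℝ g w) V :=
    hgo.continuousOn_fderiv_of_isOpen hV (by simp)
  set W : Set ℂ := V ∩ (fun w => fderiv ℝ g w) ⁻¹' {u | IsUnit u} with hW
  have hWo : IsOpen W := hcont.isOpen_inter_preimage hV Units.isOpen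
  have hW0 : w₀ ∈ W := by
    refine ⟨h₀, ?_⟩
    show IsUnit (fderiv ℝ g w₀)
    rw [hd0.fderiv]
    exact isUnit_one
  have hT : IsOpen (e.target ∩ e.symm ⁻¹' W) := e.isOpen_inter_preimage_symm hWo
  refine ⟨fun v => e.symm (L v), L ⁻¹' (e.target ∩ e.symm ⁻¹' W), hT.preimage L.continuous,
    ?_, ?_, ?_⟩
  · have h1 : e w₀ ∈ e.target := e.map_source hsrc
    have h2 : e.symm (e w₀) = w₀ := e.left_inv hsrc
    refine ⟨h1, ?_⟩
    show e.symm (e w₀) ∈ W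
    rw [h2]; exact hW0
  · intro v hv
    obtain ⟨hv1, hv2, hv3⟩ := hv
    obtain ⟨u, hu⟩ : IsUnit (fderiv ℝ g (e.symm (L v))) := hv3
    have hd : HasFDerivAt e ((ContinuousLinearEquiv.unitsEquiv ℝ ℂ u : ℂ ≃L[ℝ] ℂ) : ℂ →L[ℝ] ℂ)
        (e.symm (L v)) := by
      have h1 : ((ContinuousLinearEquiv.unitsEquiv ℝ ℂ u : ℂ ≃L[ℝ] ℂ) : ℂ →L[ℝ] ℂ) =
          fderiv ℝ g (e.symm (L v)) := by
        rw [← hu]
        ext1 z
        rfl
      rw [h1, hec]
      exact ((hgs _ hv2).differentiableAt hne).hasFDerivAt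
    have h2 : ContDiffAt ℝ ∞ e.symm (L v) := e.contDiffAt_symm hv1 hd (hgs _ hv2)
    exact (h2.comp v L.contDiff.contDiffAt).contDiffWithinAt
  · filter_upwards [e.open_source.mem_nhds hsrc] with w hw
    exact e.left_inv hw

lemma GlueB_contDiff_toC : ContDiff ℝ ∞ toC := by
  have h : toC = fun x : E2 => (x 0) • (1:ℂ) + (x 1) • Complex.I := by
    funext x
    apply Complex.ext <;> simp [toC]
  rw [h]
  fun_prop

lemma GlueB_contDiff_toE2 : ContDiff ℝ ∞ toE2 := by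
  rw [contDiff_euclidean]
  intro i
  fin_cases i
  · exact Complex.reCLM.contDiff
  · exact Complex.imCLM.contDiff

lemma GlueB_toE2_toC (x : E2) : toE2 (toC x) = x := by
  ext i
  fin_cases i <;> simp [toE2, toC]

lemma GlueB_symm_val {y : E2} (hy : y ∈ range (𝓡∂ 2)) : ((𝓡∂ 2).symm y).val = y :=
  (𝓡∂ 2).right_inv hy

theorem Atlas.isManifold {M : Type} [TopologicalSpace M] {f : M → E3} {bd : Set M}
    (A : Atlas f bd) : letI := A.cs; IsManifold (𝓡∂ 2) ∞ M := by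
  letI := A.cs
  apply isManifold_of_contDiffOn
  rintro _ _ ⟨p, rfl⟩ ⟨q, rfl⟩ y ⟨hy1, hy2⟩
  simp only [mem_preimage, OpenPartialHomeomorph.trans_source,
    OpenPartialHomeomorph.symm_source, mem_inter_iff] at hy1
  obtain ⟨hy1, hy3⟩ := hy1
  set x := (A.c p).symm ((𝓡∂ 2).symm y) with hx
  have hxq : x ∈ (A.c q).source := hy3
  have hxp : x ∈ (A.c p).source := (A.c p).map_target hy1
  have hq0 : toC (A.c q x).val ∈ A.V q := A.tgt q _ ((A.c q).map_source hxq)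
  obtain ⟨π, O, hO, hO0, hπ, hπl⟩ := exists_left_inv (A.opn q) (A.cmc q) hq0
  have hyV : toC y ∈ A.V p := by
    have := A.tgt p _ hy1
    rwa [GlueB_symm_val hy2] at this
  have hfx : A.X p (toC y) = A.X q (toC (A.c q x).val) := by
    rw [← A.eq q x hxq, A.eq p x hxp, hx, (A.c p).right_inv hy1, GlueB_symm_val hy2]
  have hsm : ContDiffAt ℝ ∞ (fun z : E2 => toE2 (π (A.X p (toC z)))) y := by
    refine GlueB_contDiff_toE2.contDiffAt.comp y ?_
    refine ContDiffAt.comp y (g := π) ?_ ?_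
    · rw [hfx]
      exact hπ.contDiffAt (hO.mem_nhds hO0)
    · exact (A.cmc p _ hyV).smooth.comp y GlueB_contDiff_toC.contDiffAt
  have c1 : ContinuousAt (fun z : E2 => (A.c p).symm ((𝓡∂ 2).symm z)) y :=
    ((A.c p).continuousAt_symm hy1).comp (𝓡∂ 2).continuous_symm.continuousAt
  have c2 : ContinuousAt (fun z : E2 => toC (A.c q ((A.c p).symm ((𝓡∂ 2).symm z))).val) y := by
    refine GlueB_contDiff_toC.continuous.continuousAt.comp ?_
    refine continuous_subtype_val.continuousAt.comp ?_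
    exact ContinuousAt.comp (g := A.c q) ((A.c q).continuousAt hxq) c1
  have ev : ∀ᶠ z in 𝓝 y, π (A.X q (toC (A.c q ((A.c p).symm ((𝓡∂ 2).symm z))).val)) =
      toC (A.c q ((A.c p).symm ((𝓡∂ 2).symm z))).val := c2.eventually hπl
  have key : ∀ z ∈ (𝓡∂ 2).symm ⁻¹' ((A.c p).symm ≫ₕ A.c q).source ∩ range (𝓡∂ 2),
      π (A.X q (toC (A.c q ((A.c p).symm ((𝓡∂ 2).symm z))).val)) =
        toC (A.c q ((A.c p).symm ((𝓡∂ 2).symm z))).val →
      ((𝓡∂ 2) ∘ ((A.c p).symm ≫ₕ A.c q) ∘ (𝓡∂ 2).symm) z = toE2 (π (A.X p (toC z))) := by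
    rintro z ⟨hz1, hz2⟩ hz
    simp only [mem_preimage, OpenPartialHomeomorph.trans_source,
      OpenPartialHomeomorph.symm_source, mem_inter_iff] at hz1
    obtain ⟨hz1, hz3⟩ := hz1
    have h1 : A.X p (toC z) = A.X q (toC (A.c q ((A.c p).symm ((𝓡∂ 2).symm z))).val) := by
      rw [← A.eq q _ hz3, A.eq p _ ((A.c p).map_target hz1), (A.c p).right_inv hz1,
        GlueB_symm_val hz2]
    rw [h1, hz, GlueB_toE2_toC]
    rfl
  refine hsm.contDiffWithinAt.congr_of_eventuallyEq ?_ ?_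
  · filter_upwards [self_mem_nhdsWithin, nhdsWithin_le_nhds ev] with z hz1 hz2
    exact key z hz1 hz2
  · exact key y ⟨⟨hy1, hy3⟩, hy2⟩ ev.self_of_nhds

theorem Atlas.smooth {M : Type} [TopologicalSpace M] {f : M → E3} {bd : Set M}
    (A : Atlas f bd) : letI := A.cs; ContMDiff (𝓡∂ 2) 𝓘(ℝ, E3) ∞ f := by
  letI := A.cs
  intro p
  rw [contMDiffAt_iff_source, contMDiffWithinAt_iff_contDiffWithinAt]
  have hp : A.c p p ∈ (A.c p).target := (A.c p).map_source (A.mem p)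
  have hy : extChartAt (𝓡∂ 2) p p = (A.c p p).val := rfl
  have hsm : ContDiffAt ℝ ∞ (fun z : E2 => A.X p (toC z)) (extChartAt (𝓡∂ 2) p p) := by
    rw [hy]
    exact (A.cmc p _ (A.tgt p _ hp)).smooth.comp _ GlueB_contDiff_toC.contDiffAt
  have key : ∀ z ∈ (extChartAt (𝓡∂ 2) p).target,
      (f ∘ (extChartAt (𝓡∂ 2) p).symm) z = A.X p (toC z) := by
    intro z hz
    rw [extChartAt_target] at hz
    obtain ⟨hz1, hz2⟩ := hz
    have hz1' : (𝓡∂ 2).symm z ∈ (A.c p).target := hz1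
    have e1 : (extChartAt (𝓡∂ 2) p).symm z = (A.c p).symm ((𝓡∂ 2).symm z) := rfl
    rw [Function.comp_apply, e1, A.eq p _ ((A.c p).map_target hz1'), (A.c p).right_inv hz1',
      GlueB_symm_val hz2]
  refine hsm.contDiffWithinAt.congr_of_eventuallyEq ?_ ?_
  · filter_upwards [extChartAt_target_mem_nhdsWithin (I := 𝓡∂ 2) p] with z hz
    exact key z hz
  · exact key _ (mem_extChartAt_target p)

end Pool.Agent.MP_efb2da_gt
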