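import Pool.Agent.MP_efb2da_gt.GlueB

open scoped Manifold ContDiff RealInnerProductSpace ComplexConjugate Topology
open Set

noncomputable section

namespace Pool.Agent.MP_efb2da_gt

/-- unit normal of a conformal chart -/
def nrm (X : ℂ → E3) (w : ℂ) : E3 := (‖dx X w‖ ^ 2)⁻¹ • cr (dx X w) (dy X w)

lemma GlueC_two_le : (2 : WithTop ℕ∞) ≤ ∞ := by
  have : ((2 : ℕ∞) : WithTop ℕ∞) ≤ ((⊤ : ℕ∞) : WithTop ℕ∞) := WithTop.coe_le_coe.mpr le_top
  exact this

lemma GlueC_split (z : ℂ) : z = z.re • (1:ℂ) + z.im • Complex.I := by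
  apply Complex.ext <;> simp

lemma GlueC_lin (F : ℂ →L[ℝ] E3) (z : ℂ) : F z = z.re • F 1 + z.im • F Complex.I := by
  conv_lhs => rw [GlueC_split z]
  rw [map_add, map_smul, map_smul]

lemma GlueC_bil (B : ℂ →L[ℝ] ℂ →L[ℝ] E3) (hB : B Complex.I 1 = B 1 Complex.I) (z : ℂ) :
    B z z = (z.re ^ 2) • B 1 1 + (2 * (z.re * z.im)) • B 1 Complex.I +
      (z.im ^ 2) • B Complex.I Complex.I := by
  have h1 : B z = z.re • B 1 + z.im • B Complex.I := by
    conv_lhs => rw [GlueC_split z]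
    rw [map_add, map_smul, map_smul]
  rw [h1, ContinuousLinearMap.add_apply, ContinuousLinearMap.smul_apply,
    ContinuousLinearMap.smul_apply, GlueC_lin (B 1) z, GlueC_lin (B Complex.I) z, hB]
  module

/-- second derivative of a composition -/
lemma GlueC_second {X' : ℂ → E3} {τ : ℂ → ℂ} {w : ℂ} (hX' : ContDiffAt ℝ ∞ X' (τ w))
    (hτ : ContDiffAt ℝ ∞ τ w) (v : ℂ) : ∃ y : ℂ,
    CmcD v (CmcD v (X' ∘ τ)) w =
      fderiv ℝ (fderiv ℝ X') (τ w) (fderiv ℝ τ w v) (fderiv ℝ τ w v) + fderiv ℝ X' (τ w) y := by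
  have hτ1 : ∀ᶠ z in 𝓝 w, ContDiffAt ℝ 1 τ z :=
    (hτ.of_le (by exact_mod_cast le_top)).eventually (by simp)
  have hX1 : ∀ᶠ z in 𝓝 (τ w), ContDiffAt ℝ 1 X' z :=
    (hX'.of_le (by exact_mod_cast le_top)).eventually (by simp)
  have hev : CmcD v (X' ∘ τ) =ᶠ[𝓝 w] fun z => fderiv ℝ X' (τ z) (fderiv ℝ τ z v) := by
    filter_upwards [hτ1, hτ.continuousAt.eventually hX1] with z h1 h2
    simp only [CmcD]
    rw [fderiv_comp z (h2.differentiableAt (by norm_num)) (h1.differentiableAt (by norm_num))]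
    rfl
  have d1 : DifferentiableAt ℝ (fderiv ℝ X') (τ w) :=
    (((hX'.of_le GlueC_two_le).fderiv_right (m := 1) (by norm_num))).differentiableAt (by norm_num)
  have d2 : DifferentiableAt ℝ (fderiv ℝ τ) w :=
    (((hτ.of_le GlueC_two_le).fderiv_right (m := 1) (by norm_num))).differentiableAt (by norm_num)
  have d3 : DifferentiableAt ℝ τ w := hτ.differentiableAt (by simp)
  have d4 : DifferentiableAt ℝ (fun z => fderiv ℝ τ z v) w := d2.clm_apply (differentiableAt_const v)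
  have h1 : HasFDerivAt (fun z => fderiv ℝ X' (τ z))
      ((fderiv ℝ (fderiv ℝ X') (τ w)).comp (fderiv ℝ τ w)) w :=
    HasFDerivAt.comp w (g := fderiv ℝ X') d1.hasFDerivAt d3.hasFDerivAt
  have h2 := h1.clm_apply d4.hasFDerivAt
  refine ⟨fderiv ℝ (fun z => fderiv ℝ τ z v) w v, ?_⟩
  rw [(CmcD_congr hev v).eq_of_nhds]
  simp only [CmcD]
  rw [h2.fderiv]
  simp only [ContinuousLinearMap.add_apply, ContinuousLinearMap.comp_apply,
    ContinuousLinearMap.flip_apply]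
  rw [add_comm]

lemma GlueC_second' {X : ℂ → E3} {w : ℂ} (hX : ContDiffAt ℝ ∞ X w) (v : ℂ) :
    CmcD v (CmcD v X) w = fderiv ℝ (fderiv ℝ X) w v v := by
  have d1 : DifferentiableAt ℝ (fderiv ℝ X) w :=
    (((hX.of_le GlueC_two_le).fderiv_right (m := 1) (by norm_num))).differentiableAt (by norm_num)
  have h2 := d1.hasFDerivAt.clm_apply (hasFDerivAt_const v w)
  have : CmcD v X = fun z => fderiv ℝ X z v := rfl
  rw [this]
  simp only [CmcD]
  rw [h2.fderiv]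
  simp

lemma GlueC_cr_lin (a b c d : ℝ) (u v : E3) :
    cr (a • u + b • v) (c • u + d • v) = (a * d - b * c) • cr u v := by
  ext i
  fin_cases i <;> simp [cr] <;> ring

lemma GlueC_inner_cr_left (u v : E3) : ⟪u, cr u v⟫ = 0 := by
  rw [Cmc_inner]; simp [cr]; ring

lemma GlueC_inner_cr_right (u v : E3) : ⟪v, cr u v⟫ = 0 := by
  rw [Cmc_inner]; simp [cr]; ring

lemma GlueC_inner_cr_cr (u v : E3) : ⟪cr u v, cr u v⟫ = ⟪u, u⟫ * ⟪v, v⟫ - ⟪u, v⟫ ^ 2 := by
  simp only [Cmc_inner]; simp [cr]; ring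

lemma GlueC_alg {a b c d : ℝ} (h1 : a * c + b * d = 0) (h2 : a ^ 2 + b ^ 2 = c ^ 2 + d ^ 2)
    (h3 : 0 < a ^ 2 + b ^ 2) : d ^ 2 = a ^ 2 ∧ c ^ 2 = b ^ 2 ∧ a * b + c * d = 0 := by
  set s := a ^ 2 + b ^ 2 with hs
  set δ := a * d - b * c with hδ
  have e0 : δ ^ 2 = s ^ 2 := by
    have : δ ^ 2 = (a ^ 2 + b ^ 2) * (c ^ 2 + d ^ 2) - (a * c + b * d) ^ 2 := by rw [hδ]; ring
    rw [this, h1, ← h2, ← hs]; ring
  have e1 : d * s = a * δ := by rw [hs, hδ]; linear_combination b * h1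
  have e2 : c * s = -(b * δ) := by rw [hs, hδ]; linear_combination a * h1
  have hs2 : s ^ 2 ≠ 0 := pow_ne_zero 2 h3.ne'
  refine ⟨mul_right_cancel₀ hs2 ?_, mul_right_cancel₀ hs2 ?_, mul_right_cancel₀ hs2 ?_⟩
  · calc d ^ 2 * s ^ 2 = (d * s) ^ 2 := by ring
      _ = a ^ 2 * δ ^ 2 := by rw [e1]; ring
      _ = a ^ 2 * s ^ 2 := by rw [e0]
  · calc c ^ 2 * s ^ 2 = (c * s) ^ 2 := by ring
      _ = b ^ 2 * δ ^ 2 := by rw [e2]; ring
      _ = b ^ 2 * s ^ 2 := by rw [e0]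
  · calc (a * b + c * d) * s ^ 2 = a * b * s ^ 2 + (c * s) * (d * s) := by ring
      _ = a * b * s ^ 2 - a * b * δ ^ 2 := by rw [e1, e2]; ring
      _ = 0 * s ^ 2 := by rw [e0]; ring

lemma GlueC_nrm_comp {X' : ℂ → E3} {τ : ℂ → ℂ} {w : ℂ} (hX : CMCAt (X' ∘ τ) w)
    (hX' : CMCAt X' (τ w)) (hτ : ContDiffAt ℝ ∞ τ w) : nrm (X' ∘ τ) w = nrm X' (τ w) := by
  have hd : fderiv ℝ (X' ∘ τ) w = (fderiv ℝ X' (τ w)).comp (fderiv ℝ τ w) :=
    fderiv_comp w (hX'.smooth.differentiableAt (by simp)) (hτ.differentiableAt (by simp))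
  obtain ⟨y1, hy1⟩ := GlueC_second hX'.smooth hτ 1
  obtain ⟨y2, hy2⟩ := GlueC_second hX'.smooth hτ Complex.I
  have hsym : fderiv ℝ (fderiv ℝ X') (τ w) Complex.I 1 =
      fderiv ℝ (fderiv ℝ X') (τ w) 1 Complex.I :=
    (hX'.smooth.isSymmSndFDerivAt (by simpa using GlueC_two_le)) Complex.I 1
  have hl' := hX'.lap
  have hl := hX.lap
  have horth' := hX'.orth
  have hconf' := hX'.conf
  have horth := hX.orth
  have hconf := hX.conf
  have hne := hX.ne
  have hr : 0 < ‖dx X' (τ w)‖ ^ 2 := pow_pos (norm_pos_iff.2 hX'.ne) 2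
  have s1 : dx (dx X') (τ w) = fderiv ℝ (fderiv ℝ X') (τ w) 1 1 := GlueC_second' hX'.smooth 1
  have s2 : dy (dy X') (τ w) = fderiv ℝ (fderiv ℝ X') (τ w) Complex.I Complex.I :=
    GlueC_second' hX'.smooth Complex.I
  have t1 : dx (dx (X' ∘ τ)) w = _ := hy1
  have t2 : dy (dy (X' ∘ τ)) w = _ := hy2
  rw [s1, s2] at hl'
  rw [t1, t2, GlueC_bil _ hsym (fderiv ℝ τ w 1), GlueC_bil _ hsym (fderiv ℝ τ w Complex.I),
    GlueC_lin _ y1, GlueC_lin _ y2] at hl
  have u1 : dx (X' ∘ τ) w = (fderiv ℝ τ w 1).re • dx X' (τ w) +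
      (fderiv ℝ τ w 1).im • dy X' (τ w) := by
    show fderiv ℝ (X' ∘ τ) w 1 = _
    rw [hd, ContinuousLinearMap.comp_apply, GlueC_lin]; rfl
  have u2 : dy (X' ∘ τ) w = (fderiv ℝ τ w Complex.I).re • dx X' (τ w) +
      (fderiv ℝ τ w Complex.I).im • dy X' (τ w) := by
    show fderiv ℝ (X' ∘ τ) w Complex.I = _
    rw [hd, ContinuousLinearMap.comp_apply, GlueC_lin]; rfl
  have v1 : fderiv ℝ X' (τ w) 1 = dx X' (τ w) := rfl
  have v2 : fderiv ℝ X' (τ w) Complex.I = dy X' (τ w) := rfl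
  rw [v1, v2] at hl
  unfold nrm
  rw [u1, u2] at hl horth hconf ⊢
  rw [u1] at hne
  generalize (fderiv ℝ τ w 1).re = a at *
  generalize (fderiv ℝ τ w 1).im = b at *
  generalize (fderiv ℝ τ w Complex.I).re = c at *
  generalize (fderiv ℝ τ w Complex.I).im = d at *
  generalize fderiv ℝ (fderiv ℝ X') (τ w) 1 1 = B1 at *
  generalize fderiv ℝ (fderiv ℝ X') (τ w) 1 Complex.I = B2 at *
  generalize fderiv ℝ (fderiv ℝ X') (τ w) Complex.I Complex.I = B3 at *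
  generalize dx X' (τ w) = e1 at *
  generalize dy X' (τ w) = e2 at *
  have h11 : ⟪e1, e1⟫ = ‖e1‖ ^ 2 := real_inner_self_eq_norm_sq e1
  have h22 : ⟪e2, e2⟫ = ‖e1‖ ^ 2 := by rw [real_inner_self_eq_norm_sq, hconf']
  have h21 : ⟪e2, e1⟫ = 0 := by rw [real_inner_comm]; exact horth'
  have hin : ∀ a b c d : ℝ, ⟪a • e1 + b • e2, c • e1 + d • e2⟫ = (a * c + b * d) * ‖e1‖ ^ 2 := by
    intro a b c d
    simp only [inner_add_left, inner_add_right, real_inner_smul_left, real_inner_smul_right,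
      h11, h22, h21, horth']
    ring
  have hn : ∀ a b : ℝ, ‖a • e1 + b • e2‖ ^ 2 = (a ^ 2 + b ^ 2) * ‖e1‖ ^ 2 := by
    intro a b
    rw [← real_inner_self_eq_norm_sq, hin]; ring
  have k1 : a * c + b * d = 0 := by
    rw [hin] at horth
    exact (mul_eq_zero.1 horth).resolve_right hr.ne'
  have k2 : a ^ 2 + b ^ 2 = c ^ 2 + d ^ 2 := by
    apply mul_right_cancel₀ hr.ne'
    rw [← hn, ← hn, hconf]
  have k3 : 0 < a ^ 2 + b ^ 2 := by
    have : 0 < ‖a • e1 + b • e2‖ ^ 2 := pow_pos (norm_pos_iff.2 hne) 2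
    rw [hn] at this
    exact (mul_pos_iff_of_pos_right hr).1 this
  obtain ⟨m1, m2, m3⟩ := GlueC_alg k1 k2 k3
  rw [GlueC_cr_lin] at hl ⊢
  have nn : ⟪cr e1 e2, cr e1 e2⟫ = (‖e1‖ ^ 2) ^ 2 := by
    rw [GlueC_inner_cr_cr, h11, h22, horth']; ring
  have p' := congrArg (fun x => ⟪x, cr e1 e2⟫) hl'
  have p := congrArg (fun x => ⟪x, cr e1 e2⟫) hl
  simp only [inner_add_left, real_inner_smul_left, GlueC_inner_cr_left, GlueC_inner_cr_right,
    nn] at p p'
  have q : (a * d - b * c) * (‖e1‖ ^ 2) ^ 2 = (a ^ 2 + b ^ 2) * (‖e1‖ ^ 2) ^ 2 := by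
    linear_combination (-(1/4) : ℝ) * p + (1/4 : ℝ) * (a ^ 2 + b ^ 2) * p' +
      (1/4 : ℝ) * ⟪B1, cr e1 e2⟫ * m2 + (1/4 : ℝ) * ⟪B3, cr e1 e2⟫ * m1 +
      (1/2 : ℝ) * ⟪B2, cr e1 e2⟫ * m3
  have q' : a * d - b * c = a ^ 2 + b ^ 2 := mul_right_cancel₀ (pow_ne_zero 2 hr.ne') q
  rw [hn, q', smul_smul]
  congr 1
  field_simp

lemma GlueC_nrm_congr {X X' : ℂ → E3} {w : ℂ} (he : X =ᶠ[𝓝 w] X') : nrm X w = nrm X' w := by
  have hx : dx X w = dx X' w := (CmcD_congr he 1).eq_of_nhds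
  have hy : dy X w = dy X' w := (CmcD_congr he Complex.I).eq_of_nhds
  unfold nrm
  rw [hx, hy]

/-- Two CMC charts related by a smooth change of coordinates have the same normal. -/
theorem nrm_eq {X X' : ℂ → E3} {τ : ℂ → ℂ} {w : ℂ} (hX : CMCAt X w) (hX' : CMCAt X' (τ w))
    (hτ : ContDiffAt ℝ ∞ τ w) (he : X =ᶠ[𝓝 w] X' ∘ τ) : nrm X w = nrm X' (τ w) := by
  rw [GlueC_nrm_congr he]
  exact GlueC_nrm_comp (hX.congr he.symm) hX' hτ

lemma GlueC_continuous_cr : Continuous fun x : E3 × E3 => cr x.1 x.2 := by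
  refine (PiLp.continuous_toLp 2 _).comp ?_
  refine continuous_pi fun i => ?_
  fin_cases i <;> simp <;> fun_prop

lemma GlueC_continuousAt_nrm {X : ℂ → E3} {w : ℂ} (h : CMCAt X w) : ContinuousAt (nrm X) w := by
  have h0 : ContinuousAt (fderiv ℝ X) w := h.smooth.continuousAt_fderiv (by simp)
  have h1 : ContinuousAt (dx X) w := h0.clm_apply continuousAt_const
  have h2 : ContinuousAt (dy X) w := h0.clm_apply continuousAt_const
  have h3 : ContinuousAt (fun z => cr (dx X z) (dy X z)) w :=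
    ContinuousAt.comp (f := fun z => (dx X z, dy X z)) (g := fun x : E3 × E3 => cr x.1 x.2)
      GlueC_continuous_cr.continuousAt (h1.prodMk h2)
  have h4 : ContinuousAt (fun z => (‖dx X z‖ ^ 2)⁻¹) w :=
    (h1.norm.pow 2).inv₀ (pow_ne_zero 2 (norm_ne_zero_iff.2 h.ne))
  exact h4.smul h3

/-- the normal does not depend on the chart -/
lemma GlueC_indep {M : Type} [TopologicalSpace M] {f : M → E3} {bd : Set M}
    (A : Atlas f bd) {p q x : M} (hp : x ∈ (A.c p).source) (hq : x ∈ (A.c q).source) :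
    nrm (A.X q) (toC (A.c q x).val) = nrm (A.X p) (toC (A.c p x).val) := by
  set wp := toC (A.c p x).val with hwp
  set wq := toC (A.c q x).val with hwq
  have hVp : wp ∈ A.V p := A.tgt p _ ((A.c p).map_source hp)
  have hVq : wq ∈ A.V q := A.tgt q _ ((A.c q).map_source hq)
  obtain ⟨π, O, hO, hO0, hπ, hπl⟩ := exists_left_inv (A.opn p) (A.cmc p) hVp
  have hfx : A.X q wq = A.X p wp := by rw [← A.eq q x hq, A.eq p x hp]
  set τ : ℂ → ℂ := fun w => π (A.X q w) with hτ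
  have hτ0 : τ wq = wp := by
    show π (A.X q wq) = wp
    rw [hfx]; exact hπl.self_of_nhds
  have hXq : ContinuousAt (A.X q) wq := (A.cmc q wq hVq).smooth.continuousAt
  have e1 : ∀ᶠ w in 𝓝 wq, w ∈ A.V q := (A.opn q).mem_nhds hVq
  have e2 : ∀ᶠ w in 𝓝 wq, A.X q w ∈ O := hXq.eventually (hO.mem_nhds (by rw [hfx]; exact hO0))
  have e3 : ∀ᶠ w in 𝓝 wq, ContDiffAt ℝ ∞ τ w := by
    filter_upwards [e1, e2] with w h1 h2
    exact ContDiffAt.comp w (g := π) (hπ.contDiffAt (hO.mem_nhds h2)) (A.cmc q w h1).smooth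
  have hτc : ContinuousAt τ wq := e3.self_of_nhds.continuousAt
  have e4 : ∀ᶠ w in 𝓝 wq, τ w ∈ A.V p :=
    hτc.eventually ((A.opn p).mem_nhds (by rw [hτ0]; exact hVp))
  have hg : GlueA_g wq = A.c q x := GlueA_g_toC _
  have hgt : GlueA_g wq ∈ (A.c q).target := by rw [hg]; exact (A.c q).map_source hq
  have hx0 : (A.c q).symm (GlueA_g wq) = x := by rw [hg]; exact (A.c q).left_inv hq
  have c1 : ContinuousAt (fun w => (A.c q).symm (GlueA_g w)) wq :=
    ContinuousAt.comp (g := (A.c q).symm) ((A.c q).continuousAt_symm hgt)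
      GlueA_continuous_g.continuousAt
  have c2 : ContinuousAt (fun w => toC (A.c p ((A.c q).symm (GlueA_g w))).val) wq := by
    refine GlueA_continuous_toC.continuousAt.comp ?_
    refine continuous_subtype_val.continuousAt.comp ?_
    refine ContinuousAt.comp (g := A.c p) ?_ c1
    rw [hx0]; exact (A.c p).continuousAt hp
  have e5 : ∀ᶠ w in 𝓝 wq, GlueA_g w ∈ (A.c q).target :=
    GlueA_continuous_g.continuousAt.eventually ((A.c q).open_target.mem_nhds hgt)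
  have e6 : ∀ᶠ w in 𝓝 wq, (A.c q).symm (GlueA_g w) ∈ (A.c p).source :=
    c1.eventually ((A.c p).open_source.mem_nhds (by beta_reduce; rw [hx0]; exact hp))
  have e7 : ∀ᶠ w in 𝓝 wq, π (A.X p (toC (A.c p ((A.c q).symm (GlueA_g w))).val)) =
      toC (A.c p ((A.c q).symm (GlueA_g w))).val := by
    apply c2.eventually (p := fun z => π (A.X p z) = z)
    beta_reduce
    rw [hx0]; exact hπl
  have e8 : ∀ᶠ w in 𝓝 wq, 0 ≤ w.re → A.X q w = A.X p (τ w) := by
    filter_upwards [e5, e6, e7] with w h5 h6 h7 hw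
    have k1 := A.eq q _ ((A.c q).map_target h5)
    rw [(A.c q).right_inv h5, GlueA_toC_g hw] at k1
    have k2 := A.eq p _ h6
    have k3 : τ w = toC (A.c p ((A.c q).symm (GlueA_g w))).val := by
      show π (A.X q w) = _
      rw [← k1, k2, h7]
    rw [k3, ← k2, k1]
  have e9 : ∀ᶠ w in 𝓝[{z : ℂ | 0 < z.re}] wq, nrm (A.X q) w = nrm (A.X p) (τ w) := by
    filter_upwards [nhdsWithin_le_nhds e1, nhdsWithin_le_nhds e3, nhdsWithin_le_nhds e4,
      nhdsWithin_le_nhds e8.eventually_nhds, self_mem_nhdsWithin] with w h1 h3 h4 h8 hw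
    refine nrm_eq (A.cmc q w h1) (A.cmc p _ h4) h3 ?_
    have ho : ∀ᶠ z in 𝓝 w, 0 < z.re :=
      (isOpen_lt continuous_const Complex.continuous_re).mem_nhds hw
    filter_upwards [h8, ho] with z k1 k2
    exact k1 k2.le
  have hcl : wq ∈ closure {z : ℂ | 0 < z.re} := by
    rw [Complex.closure_setOfPred_lt_re]
    exact GlueA_toC_mem _
  haveI : (𝓝[{z : ℂ | 0 < z.re}] wq).NeBot := mem_closure_iff_nhdsWithin_neBot.1 hcl
  have l1 : Filter.Tendsto (nrm (A.X q)) (𝓝[{z : ℂ | 0 < z.re}] wq) (𝓝 (nrm (A.X q) wq)) :=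
    (GlueC_continuousAt_nrm (A.cmc q wq hVq)).tendsto.mono_left nhdsWithin_le_nhds
  have l2 : Filter.Tendsto (fun w => nrm (A.X p) (τ w)) (𝓝[{z : ℂ | 0 < z.re}] wq)
      (𝓝 (nrm (A.X p) wp)) := by
    have : ContinuousAt (fun w => nrm (A.X p) (τ w)) wq := by
      refine ContinuousAt.comp (g := nrm (A.X p)) ?_ hτc
      rw [hτ0]; exact GlueC_continuousAt_nrm (A.cmc p wp hVp)
    have h2 := this.tendsto.mono_left (nhdsWithin_le_nhds (s := {z : ℂ | 0 < z.re}))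
    rwa [hτ0] at h2
  exact tendsto_nhds_unique_of_eventuallyEq l1 l2 e9

theorem Atlas.continuous_nrm {M : Type} [TopologicalSpace M] {f : M → E3} {bd : Set M}
    (A : Atlas f bd) : Continuous fun p => nrm (A.X p) (toC (A.c p p).val) := by
  rw [continuous_iff_continuousAt]
  intro p
  have hVp : toC (A.c p p).val ∈ A.V p := A.tgt p _ ((A.c p).map_source (A.mem p))
  have c1 : ContinuousAt (fun x => toC (A.c p x).val) p :=
    GlueA_continuous_toC.continuousAt.comp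
      (continuous_subtype_val.continuousAt.comp ((A.c p).continuousAt (A.mem p)))
  have c2 : ContinuousAt (fun x => nrm (A.X p) (toC (A.c p x).val)) p :=
    ContinuousAt.comp (g := nrm (A.X p)) (f := fun x => toC (A.c p x).val)
      (GlueC_continuousAt_nrm (A.cmc p _ hVp)) c1
  refine c2.congr ?_
  filter_upwards [(A.c p).open_source.mem_nhds (A.mem p)] with x hx
  exact (GlueC_indep A hx (A.mem x)).symm

end Pool.Agent.MP_efb2da_gt
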