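import Pool.Agent.MP_efb2da_gt.GlueC

open scoped Manifold ContDiff RealInnerProductSpace ComplexConjugate Topology
open Set

noncomputable section

namespace Pool.Agent.MP_efb2da_gt

lemma GlueD_range : range (𝓡∂ 2) = halfPlane :=
  range_modelWithCornersEuclideanHalfSpace 2

lemma GlueD_uniq : UniqueDiffOn ℝ halfPlane := by
  rw [← GlueD_range]; exact (𝓡∂ 2).uniqueDiffOn

/-- `toC` as a continuous linear map -/
def GlueD_L : E2 →L[ℝ] ℂ :=
  LinearMap.toContinuousLinearMap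
    { toFun := toC
      map_add' := fun u v => by apply Complex.ext <;> simp [toC]
      map_smul' := fun t v => by apply Complex.ext <;> simp [toC] }

lemma GlueD_L_apply (x : E2) : GlueD_L x = toC x := rfl

/-- the two coordinate directions -/
def GlueD_e (i : Fin 2) : ℂ := toC (EuclideanSpace.single i 1)

lemma GlueD_e0 : GlueD_e 0 = 1 := by apply Complex.ext <;> simp [GlueD_e, toC]
lemma GlueD_e1 : GlueD_e 1 = Complex.I := by apply Complex.ext <;> simp [GlueD_e, toC]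

lemma GlueD_pd {g : E2 → E3} {Y : ℂ → E3} {x : E2} (hx : x ∈ halfPlane)
    (he : g =ᶠ[𝓝[halfPlane] x] fun z => Y (toC z)) (hY : DifferentiableAt ℝ Y (toC x))
    (i : Fin 2) : pd g i x = CmcD (GlueD_e i) Y (toC x) := by
  have h1 : HasFDerivAt (fun z => Y (toC z)) ((fderiv ℝ Y (toC x)).comp GlueD_L) x :=
    HasFDerivAt.comp x (g := Y) (f := GlueD_L) hY.hasFDerivAt GlueD_L.hasFDerivAt
  have h2 : fderivWithin ℝ g halfPlane x = (fderiv ℝ Y (toC x)).comp GlueD_L := by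
    rw [he.fderivWithin_eq (he.self_of_nhdsWithin hx)]
    exact h1.hasFDerivWithinAt.fderivWithin (GlueD_uniq x hx)
  simp only [pd, h2, CmcD, GlueD_e, ContinuousLinearMap.comp_apply, GlueD_L_apply]

lemma GlueD_pd_ev {g : E2 → E3} {Y : ℂ → E3} {x : E2}
    (he : g =ᶠ[𝓝[halfPlane] x] fun z => Y (toC z)) (hY : ContDiffAt ℝ ∞ Y (toC x))
    (i : Fin 2) : pd g i =ᶠ[𝓝[halfPlane] x] fun z => CmcD (GlueD_e i) Y (toC z) := by
  have h1 : ContDiffAt ℝ 1 Y (toC x) := hY.of_le (by exact_mod_cast le_top)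
  have h2 : ∀ᶠ y in 𝓝 (toC x), ContDiffAt ℝ 1 Y y := h1.eventually (by simp)
  have h3 : ∀ᶠ z in 𝓝 x, ContDiffAt ℝ 1 Y (toC z) :=
    GlueA_continuous_toC.continuousAt.eventually h2
  have h4 : ∀ᶠ z in 𝓝[halfPlane] x, g =ᶠ[𝓝[halfPlane] z] fun z => Y (toC z) :=
    eventually_eventually_nhdsWithin.mpr he
  filter_upwards [self_mem_nhdsWithin, nhdsWithin_le_nhds h3, h4] with z hz1 hz2 hz3
  exact GlueD_pd hz1 hz3 (hz2.differentiableAt (by norm_num)) i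

lemma GlueD_pd2 {g : E2 → E3} {Y : ℂ → E3} {x : E2} (hx : x ∈ halfPlane)
    (he : g =ᶠ[𝓝[halfPlane] x] fun z => Y (toC z)) (hY : ContDiffAt ℝ ∞ Y (toC x))
    (i j : Fin 2) : pd (pd g i) j x = CmcD (GlueD_e j) (CmcD (GlueD_e i) Y) (toC x) :=
  GlueD_pd hx (GlueD_pd_ev he hY i) (CmcD_diff hY _) j

lemma GlueD_loc {M : Type} [TopologicalSpace M] {f : M → E3} {bd : Set M}
    (A : Atlas f bd) (p : M) :
    letI := A.cs; loc f p =ᶠ[𝓝[halfPlane] (ctr p)] fun z => A.X p (toC z) := by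
  letI := A.cs
  have key : ∀ z ∈ (extChartAt (𝓡∂ 2) p).target,
      (f ∘ (extChartAt (𝓡∂ 2) p).symm) z = A.X p (toC z) := by
    intro z hz
    rw [extChartAt_target] at hz
    obtain ⟨hz1, hz2⟩ := hz
    have hz1' : (𝓡∂ 2).symm z ∈ (A.c p).target := hz1
    have e1 : (extChartAt (𝓡∂ 2) p).symm z = (A.c p).symm ((𝓡∂ 2).symm z) := rfl
    rw [Function.comp_apply, e1, A.eq p _ ((A.c p).map_target hz1'), (A.c p).right_inv hz1',
      GlueB_symm_val hz2]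
  rw [← GlueD_range]
  filter_upwards [extChartAt_target_mem_nhdsWithin (I := 𝓡∂ 2) p] with z hz
  exact key z hz

lemma GlueD_cr_left (a b : E3) : ⟪a, cr a b⟫ = 0 := by
  rw [Cmc_inner]; simp [cr]; ring

lemma GlueD_cr_right (a b : E3) : ⟪b, cr a b⟫ = 0 := by
  rw [Cmc_inner]; simp [cr]; ring

lemma GlueD_cr_cr (a b : E3) : ⟪cr a b, cr a b⟫ = ⟪a, a⟫ * ⟪b, b⟫ - ⟪a, b⟫ ^ 2 := by
  simp only [Cmc_inner]; simp [cr]; ring

lemma GlueD_cmc {X : ℂ → E3} {w : ℂ} (h : CMCAt X w) :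
    0 < ‖dx X w‖ ^ 2 ∧ ⟪dx X w, dx X w⟫ = ‖dx X w‖ ^ 2 ∧ ⟪dy X w, dy X w⟫ = ‖dx X w‖ ^ 2 ∧
      ⟪cr (dx X w) (dy X w), cr (dx X w) (dy X w)⟫ = (‖dx X w‖ ^ 2) ^ 2 := by
  have h1 : ⟪dx X w, dx X w⟫ = ‖dx X w‖ ^ 2 := real_inner_self_eq_norm_sq _
  have h2 : ⟪dy X w, dy X w⟫ = ‖dx X w‖ ^ 2 := by rw [real_inner_self_eq_norm_sq, h.conf]
  refine ⟨pow_pos (norm_pos_iff.2 h.ne) 2, h1, h2, ?_⟩
  rw [GlueD_cr_cr, h1, h2, h.orth]; ring

lemma GlueD_norm_nrm {X : ℂ → E3} {w : ℂ} (h : CMCAt X w) : ‖nrm X w‖ = 1 := by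
  obtain ⟨hE, -, -, h3⟩ := GlueD_cmc h
  have h4 : ‖nrm X w‖ ^ 2 = 1 := by
    rw [← real_inner_self_eq_norm_sq, nrm, inner_smul_left, inner_smul_right, h3]
    simp only [conj_trivial]
    generalize ‖dx X w‖ ^ 2 = E at hE
    field_simp
  have h5 : 0 ≤ ‖nrm X w‖ := norm_nonneg _
  nlinarith

lemma GlueD_lap_nrm {X : ℂ → E3} {w : ℂ} (h : CMCAt X w) :
    ⟪dx (dx X) w, nrm X w⟫ + ⟪dy (dy X) w, nrm X w⟫ = 4 * ‖dx X w‖ ^ 2 := by
  obtain ⟨hE, -, -, h3⟩ := GlueD_cmc h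
  rw [← inner_add_left, h.lap, nrm, inner_smul_left, inner_smul_right, h3]
  simp only [conj_trivial]
  field_simp

theorem Atlas.isHSurface {M : Type} [TopologicalSpace M] {f : M → E3} {bd : Set M}
    (A : Atlas f bd) :
    letI := A.cs; IsHSurface f (fun p => nrm (A.X p) (toC (A.c p p).val)) 2 := by
  letI := A.cs
  have hctr : ∀ p : M, ctr p = (A.c p p).val := fun _ => rfl
  have hmem : ∀ p : M, ctr p ∈ halfPlane := fun p => (A.c p p).property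
  have hc : ∀ p : M, CMCAt (A.X p) (toC (ctr p)) := fun p =>
    A.cmc p _ (A.tgt p _ ((A.c p).map_source (A.mem p)))
  have h1 : ∀ (p : M) i, d1 f p i = CmcD (GlueD_e i) (A.X p) (toC (ctr p)) := fun p i =>
    GlueD_pd (hmem p) (GlueD_loc A p) ((hc p).smooth.differentiableAt (by simp)) i
  have h2 : ∀ (p : M) i j, d2 f p i j =
      CmcD (GlueD_e j) (CmcD (GlueD_e i) (A.X p)) (toC (ctr p)) := fun p i j =>
    GlueD_pd2 (hmem p) (GlueD_loc A p) (hc p).smooth i j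
  have h10 : ∀ p : M, d1 f p 0 = dx (A.X p) (toC (ctr p)) := fun p => by
    rw [h1, GlueD_e0, Cmc_dx]
  have h11 : ∀ p : M, d1 f p 1 = dy (A.X p) (toC (ctr p)) := fun p => by
    rw [h1, GlueD_e1, Cmc_dy]
  have h20 : ∀ p : M, d2 f p 0 0 = dx (dx (A.X p)) (toC (ctr p)) := fun p => by
    rw [h2, GlueD_e0, Cmc_dx, Cmc_dx]
  have h21 : ∀ p : M, d2 f p 1 1 = dy (dy (A.X p)) (toC (ctr p)) := fun p => by
    rw [h2, GlueD_e1, Cmc_dy, Cmc_dy]
  refine ⟨A.smooth, fun p => ?_, A.continuous_nrm, fun p => GlueD_norm_nrm (hc p),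
    fun p i => ?_, fun p => ?_⟩
  · obtain ⟨hE, ha, hb, -⟩ := GlueD_cmc (hc p)
    refine linearIndependent_of_ne_zero_of_inner_eq_zero (fun i => ?_) ?_
    · fin_cases i
      · exact (h10 p).symm ▸ (hc p).ne
      · intro h0
        have h0' : d1 f p 1 = 0 := h0
        rw [h11] at h0'
        rw [h0', inner_zero_left] at hb
        exact hE.ne hb
    · intro i j hij
      fin_cases i <;> fin_cases j
      · exact absurd rfl hij
      · show ⟪d1 f p 0, d1 f p 1⟫ = 0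
        rw [h10, h11]; exact (hc p).orth
      · show ⟪d1 f p 1, d1 f p 0⟫ = 0
        rw [h10, h11, real_inner_comm]; exact (hc p).orth
      · exact absurd rfl hij
  · fin_cases i
    · show ⟪d1 f p 0, nrm (A.X p) (toC (ctr p))⟫ = 0
      rw [h10, nrm, inner_smul_right, GlueD_cr_left, mul_zero]
    · show ⟪d1 f p 1, nrm (A.X p) (toC (ctr p))⟫ = 0
      rw [h11, nrm, inner_smul_right, GlueD_cr_right, mul_zero]
  · obtain ⟨hE, ha, hb, -⟩ := GlueD_cmc (hc p)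
    have hl := GlueD_lap_nrm (hc p)
    have e00 : fff f p 0 0 = ‖dx (A.X p) (toC (ctr p))‖ ^ 2 := by rw [fff, h10, ha]
    have e11 : fff f p 1 1 = ‖dx (A.X p) (toC (ctr p))‖ ^ 2 := by rw [fff, h11, hb]
    have e01 : fff f p 0 1 = 0 := by rw [fff, h10, h11]; exact (hc p).orth
    have s00 : sff f (fun p => nrm (A.X p) (toC (A.c p p).val)) p 0 0 =
        ⟪dx (dx (A.X p)) (toC (ctr p)), nrm (A.X p) (toC (ctr p))⟫ := by rw [sff, h20]; rfl
    have s11 : sff f (fun p => nrm (A.X p) (toC (A.c p p).val)) p 1 1 =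
        ⟪dy (dy (A.X p)) (toC (ctr p)), nrm (A.X p) (toC (ctr p))⟫ := by rw [sff, h21]; rfl
    have hne : 2 * (‖dx (A.X p) (toC (ctr p))‖ ^ 2 * ‖dx (A.X p) (toC (ctr p))‖ ^ 2 - 0 ^ 2)
        ≠ 0 := by
      have := mul_pos hE hE
      intro h0
      nlinarith
    rw [meanCurv, e00, e11, e01, s00, s11, div_eq_iff hne]
    linear_combination ‖dx (A.X p) (toC (ctr p))‖ ^ 2 * hl

theorem glue {M : Type} [TopologicalSpace M] (f : M → E3) (bd : Set M)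
    (h : ∀ p, LocChart f bd p) :
    ∃ (_ : ChartedSpace (EuclideanHalfSpace 2) M), IsManifold (𝓡∂ 2) ∞ M ∧
      (𝓡∂ 2).boundary M = bd ∧ ∃ N, IsHSurface f N 2 := by
  obtain ⟨A⟩ := exists_atlas f bd h
  exact ⟨A.cs, A.isManifold, A.boundary_eq, _, A.isHSurface⟩

end Pool.Agent.MP_efb2da_gt
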