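import Mathlib

/-! Holonomy of a path in a Banach algebra: the solution of `φ' = φ a`, `φ 0 = 1`. -/

open Set
open scoped Topology

noncomputable section

namespace Pool.Agent.MP_efb2da_gt

variable {A : Type} [NormedRing A] [NormedAlgebra ℂ A] [CompleteSpace A]

/-- `φ` solves `φ' = φ a` on `[0,1]` -/
def IsSol (a φ : ℝ → A) : Prop :=
  ∀ r ∈ Icc (0:ℝ) 1, HasDerivWithinAt φ (φ r * a r) (Icc 0 1) r

open Classical in
/-- the solution with `φ 0 = 1` -/
def Hol (a : ℝ → A) : ℝ → A :=
  if h : ∃ φ, IsSol a φ ∧ φ 0 = 1 then h.choose else fun _ => 1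

/-- a function on a compact space as a continuous map -/
def cmk {K E : Type} [TopologicalSpace K] [TopologicalSpace E] [Zero E] (f : K → E) : C(K, E) :=
  ContinuousMap.mkD f 0

end Pool.Agent.MP_efb2da_gt
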