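import Pool.Agent.MP_efb2da_gt.Hol0

open Set
open scoped Topology

noncomputable section

set_option linter.unusedSectionVars false

namespace Pool.Agent.MP_efb2da_gt

variable {A : Type} [NormedRing A] [NormedAlgebra ℂ A] [CompleteSpace A] [NormOneClass A]

/-- extension of a continuous map on `[0,1]` to the line -/
def Hol1ext (φ : C(Icc (0:ℝ) 1, A)) : ℝ → A := fun r => φ (projIcc 0 1 zero_le_one r)

omit [NormedAlgebra ℂ A] [CompleteSpace A] [NormOneClass A] in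
theorem Hol1ext_cont (φ : C(Icc (0:ℝ) 1, A)) : Continuous (Hol1ext φ) :=
  φ.continuous.comp continuous_projIcc

omit [NormedAlgebra ℂ A] [CompleteSpace A] [NormOneClass A] in
theorem Hol1ext_norm (φ : C(Icc (0:ℝ) 1, A)) (r : ℝ) : ‖Hol1ext φ r‖ ≤ ‖φ‖ :=
  φ.norm_coe_le_norm _

omit [NormedAlgebra ℂ A] [CompleteSpace A] [NormOneClass A] in
theorem Hol1ext_of_mem (φ : C(Icc (0:ℝ) 1, A)) {r : ℝ} (hr : r ∈ Icc (0:ℝ) 1) :
    Hol1ext φ r = φ ⟨r, hr⟩ := by
  simp only [Hol1ext, projIcc_of_mem zero_le_one hr]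

/-- the primitive, as a linear map -/
def Hol1Jl : C(Icc (0:ℝ) 1, A) →ₗ[ℂ] C(Icc (0:ℝ) 1, A) where
  toFun ψ := ⟨fun r => ∫ t in (0:ℝ)..r, Hol1ext ψ t,
    (intervalIntegral.continuous_primitive
      (fun a b => (Hol1ext_cont ψ).intervalIntegrable a b) 0).comp continuous_subtype_val⟩
  map_add' ψ χ := by
    ext r
    simp only [ContinuousMap.coe_mk, ContinuousMap.add_apply]
    rw [← intervalIntegral.integral_add ((Hol1ext_cont ψ).intervalIntegrable _ _)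
      ((Hol1ext_cont χ).intervalIntegrable _ _)]
    rfl
  map_smul' c ψ := by
    ext r
    simp only [ContinuousMap.coe_mk, ContinuousMap.smul_apply, RingHom.id_apply]
    rw [← intervalIntegral.integral_smul]
    rfl

omit [CompleteSpace A] [NormOneClass A] in
theorem Hol1Jl_apply (ψ : C(Icc (0:ℝ) 1, A)) (r : Icc (0:ℝ) 1) :
    Hol1Jl ψ r = ∫ t in (0:ℝ)..r, Hol1ext ψ t := rfl

omit [CompleteSpace A] [NormOneClass A] in
theorem Hol1Jl_norm (ψ : C(Icc (0:ℝ) 1, A)) : ‖Hol1Jl ψ‖ ≤ ‖ψ‖ := by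
  rw [ContinuousMap.norm_le _ (norm_nonneg _)]
  intro r
  rw [Hol1Jl_apply]
  have := intervalIntegral.norm_integral_le_of_norm_le_const (a := 0) (b := (r:ℝ)) (C := ‖ψ‖)
    (f := Hol1ext ψ) (fun t _ => Hol1ext_norm ψ t)
  refine this.trans ?_
  have h1 : |(r:ℝ) - 0| ≤ 1 := by
    rw [sub_zero, abs_of_nonneg r.2.1]; exact r.2.2
  exact mul_le_of_le_one_right (norm_nonneg _) h1

/-- abstract Volterra equation in a Banach algebra -/
theorem Hol1_gen {E : Type} [NormedRing E] [NormedAlgebra ℂ E] [CompleteSpace E]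
    (J : E → E) (hadd : ∀ x y, J (x + y) = J x + J y) (hsmul : ∀ (c : ℂ) x, J (c • x) = c • J x)
    (hJ : ∀ ψ, ‖J ψ‖ ≤ ‖ψ‖)
    (hV : ∀ (a φ : E) (n : ℕ), ‖(fun ψ => J (ψ * a))^[n] φ‖ ≤ ‖a‖ ^ n / n.factorial * ‖φ‖) :
    ∃ S : E → E, Differentiable ℂ S ∧ ∀ a, S a = 1 + J (S a * a) ∧
      Filter.Tendsto (fun N => ∑ n ∈ Finset.range N, (fun ψ => J (ψ * a))^[n] 1) Filter.atTop
        (𝓝 (S a)) := by
  let Jl : E →ₗ[ℂ] E := ⟨⟨J, hadd⟩, hsmul⟩
  let Jc : E →L[ℂ] E := Jl.mkContinuous 1 fun ψ => by rw [one_mul]; exact hJ ψ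
  let V : E →L[ℂ] (E →L[ℂ] E) :=
    (ContinuousLinearMap.compL ℂ E E E Jc).comp (ContinuousLinearMap.mul ℂ E).flip
  have hVa : ∀ a φ, V a φ = J (φ * a) := fun _ _ => rfl
  have hpow : ∀ (a : E) (n : ℕ) (φ : E), ((V a) ^ n) φ = (fun ψ => J (ψ * a))^[n] φ := by
    intro a n
    induction n with
    | zero => intro φ; rfl
    | succ n ih =>
      intro φ
      rw [pow_succ', Function.iterate_succ_apply', ← ih]
      exact hVa a _
  have hn : ∀ (a : E) (n : ℕ), ‖(V a) ^ n‖ ≤ ‖a‖ ^ n / n.factorial := fun a n =>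
    ContinuousLinearMap.opNorm_le_bound _ (by positivity) fun φ => by
      rw [hpow]; exact hV a φ n
  have hs : ∀ a : E, Summable fun n => (V a) ^ n := fun a =>
    Summable.of_norm_bounded (Real.summable_pow_div_factorial ‖a‖) (hn a)
  let u : E → (E →L[ℂ] E)ˣ := fun a =>
    ⟨1 - V a, ∑' n, (V a) ^ n, (hs a).one_sub_mul_tsum_pow, (hs a).tsum_pow_mul_one_sub⟩
  have hinv : ∀ a, Ring.inverse (1 - V a) = ∑' n, (V a) ^ n := fun a => Ring.inverse_unit (u a)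
  refine ⟨fun a => Ring.inverse (1 - V a) 1, fun a => ?_, fun a => ⟨?_, ?_⟩⟩
  · have h1 : DifferentiableAt ℂ (fun b : E => 1 - V b) a :=
      V.differentiableAt.const_sub 1
    have h0 : DifferentiableAt ℂ (Ring.inverse : (E →L[ℂ] E) → (E →L[ℂ] E)) (1 - V a) :=
      differentiableAt_inverse (𝕜 := ℂ) (R := E →L[ℂ] E) (u a).isUnit
    have h2 : DifferentiableAt ℂ (fun b : E => Ring.inverse (1 - V b)) a :=
      DifferentiableAt.comp (g := (Ring.inverse : (E →L[ℂ] E) → (E →L[ℂ] E)))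
        (f := fun b : E => 1 - V b) a h0 h1
    exact h2.clm_apply (differentiableAt_const _)
  · have h : ((1 - V a) * ∑' n, (V a) ^ n) 1 = (1 : E →L[ℂ] E) 1 := by
      rw [(hs a).one_sub_mul_tsum_pow]
    have h' : (∑' n, (V a) ^ n) 1 - V a ((∑' n, (V a) ^ n) 1) = 1 := h
    simp only [hinv]
    rw [← hVa, ← sub_eq_iff_eq_add]
    exact h'
  · have := ((ContinuousLinearMap.apply ℂ E (1 : E)).hasSum (hs a).hasSum).tendsto_sum_nat
    simp only [ContinuousLinearMap.apply_apply, hpow] at this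
    simpa only [hinv] using this

omit [CompleteSpace A] [NormOneClass A] in
theorem Hol1V_pow_le (a φ : C(Icc (0:ℝ) 1, A)) (n : ℕ) : ∀ r : Icc (0:ℝ) 1,
    ‖(fun ψ => Hol1Jl (ψ * a))^[n] φ r‖ ≤ ‖φ‖ * ‖a‖ ^ n / n.factorial * (r:ℝ) ^ n := by
  induction n with
  | zero => intro r; simpa using φ.norm_coe_le_norm r
  | succ n ih =>
    intro r
    rw [Function.iterate_succ_apply', Hol1Jl_apply]
    have hb : ∀ t ∈ Icc (0:ℝ) r, ‖Hol1ext ((fun ψ => Hol1Jl (ψ * a))^[n] φ * a) t‖ ≤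
        ‖φ‖ * ‖a‖ ^ (n + 1) / n.factorial * t ^ n := by
      intro t ht
      have ht' : t ∈ Icc (0:ℝ) 1 := ⟨ht.1, ht.2.trans r.2.2⟩
      rw [Hol1ext_of_mem _ ht', ContinuousMap.mul_apply]
      refine (norm_mul_le _ _).trans ?_
      have h1 := ih ⟨t, ht'⟩
      have h2 := a.norm_coe_le_norm ⟨t, ht'⟩
      have h3 : 0 ≤ ‖φ‖ * ‖a‖ ^ n / n.factorial * t ^ n := by
        have := ht.1; positivity
      calc _ ≤ (‖φ‖ * ‖a‖ ^ n / n.factorial * t ^ n) * ‖a‖ :=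
            mul_le_mul h1 h2 (norm_nonneg _) h3
        _ = _ := by ring
    have hi := intervalIntegral.norm_integral_le_of_norm_le (μ := MeasureTheory.volume)
      (f := Hol1ext ((fun ψ => Hol1Jl (ψ * a))^[n] φ * a))
      (g := fun t => ‖φ‖ * ‖a‖ ^ (n + 1) / n.factorial * t ^ n) r.2.1
      (Filter.Eventually.of_forall fun t ht => hb t ⟨ht.1.le, ht.2⟩)
      ((by fun_prop : Continuous fun t : ℝ =>
        ‖φ‖ * ‖a‖ ^ (n + 1) / n.factorial * t ^ n).intervalIntegrable _ _)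
    refine hi.trans (le_of_eq ?_)
    rw [intervalIntegral.integral_const_mul, integral_pow, Nat.factorial_succ]
    have : (n.factorial : ℝ) ≠ 0 := by positivity
    push_cast
    field_simp
    ring

omit [CompleteSpace A] [NormOneClass A] in
theorem Hol1V_pow_norm (a φ : C(Icc (0:ℝ) 1, A)) (n : ℕ) :
    ‖(fun ψ => Hol1Jl (ψ * a))^[n] φ‖ ≤ ‖a‖ ^ n / n.factorial * ‖φ‖ := by
  rw [ContinuousMap.norm_le _ (by positivity)]
  intro r
  refine (Hol1V_pow_le a φ n r).trans ?_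
  have h1 : (r:ℝ) ^ n ≤ 1 := pow_le_one₀ r.2.1 r.2.2
  have h2 : 0 ≤ ‖φ‖ * ‖a‖ ^ n / n.factorial := by positivity
  calc _ ≤ ‖φ‖ * ‖a‖ ^ n / n.factorial * 1 := mul_le_mul_of_nonneg_left h1 h2
    _ = _ := by ring

omit [NormOneClass A] in
theorem Hol1S_exists : ∃ S : C(Icc (0:ℝ) 1, A) → C(Icc (0:ℝ) 1, A), Differentiable ℂ S ∧
    ∀ a, S a = 1 + Hol1Jl (S a * a) ∧
      Filter.Tendsto (fun N => ∑ n ∈ Finset.range N, (fun ψ => Hol1Jl (ψ * a))^[n] 1)
        Filter.atTop (𝓝 (S a)) :=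
  Hol1_gen (E := C(Icc (0:ℝ) 1, A)) (fun ψ => Hol1Jl ψ) (fun x y => Hol1Jl.map_add x y)
    (fun c x => Hol1Jl.map_smul c x) Hol1Jl_norm Hol1V_pow_norm

/-- the solution operator -/
def Hol1S : C(Icc (0:ℝ) 1, A) → C(Icc (0:ℝ) 1, A) := Hol1S_exists.choose

omit [NormOneClass A] in
theorem Hol1S_fix (a : C(Icc (0:ℝ) 1, A)) : Hol1S a = 1 + Hol1Jl (Hol1S a * a) :=
  (Hol1S_exists.choose_spec.2 a).1

omit [NormOneClass A] in
theorem Hol1S_diff : Differentiable ℂ (Hol1S (A := A)) := Hol1S_exists.choose_spec.1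

omit [NormOneClass A] in
theorem Hol1S_lim (a : C(Icc (0:ℝ) 1, A)) :
    Filter.Tendsto (fun N => ∑ n ∈ Finset.range N, (fun ψ => Hol1Jl (ψ * a))^[n] 1)
      Filter.atTop (𝓝 (Hol1S a)) := (Hol1S_exists.choose_spec.2 a).2

omit [NormOneClass A] in
theorem Hol1J_mem (B : Subalgebra ℝ A) (hB : IsClosed (B : Set A)) (ψ : C(Icc (0:ℝ) 1, A))
    (h : ∀ r, ψ r ∈ B) (r : Icc (0:ℝ) 1) : Hol1Jl ψ r ∈ B := by
  rw [Hol1Jl_apply]
  let M : Submodule ℝ A := Subalgebra.toSubmodule B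
  have : CompleteSpace M := IsClosed.completeSpace_coe (s := (B : Set A)) (hs := hB)
  let g : ℝ → M := fun t => ⟨Hol1ext ψ t, h _⟩
  have hg : Continuous g := (Hol1ext_cont ψ).subtype_mk _
  have := M.subtypeL.intervalIntegral_comp_comm (μ := MeasureTheory.volume)
    (hg.intervalIntegrable 0 (r:ℝ))
  have h2 : (∫ t in (0:ℝ)..r, Hol1ext ψ t) = ((∫ t in (0:ℝ)..r, g t : M) : A) := this
  rw [h2]
  exact (∫ t in (0:ℝ)..r, g t : M).2

omit [NormOneClass A] in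
theorem Hol1S_mem (B : Subalgebra ℝ A) (hB : IsClosed (B : Set A)) (a : C(Icc (0:ℝ) 1, A))
    (h : ∀ r, a r ∈ B) (r : Icc (0:ℝ) 1) : Hol1S a r ∈ B := by
  have hp : ∀ n : ℕ, ∀ r, (fun ψ => Hol1Jl (ψ * a))^[n] 1 r ∈ B := by
    intro n
    induction n with
    | zero => intro r; exact B.one_mem
    | succ n ih =>
      intro r
      rw [Function.iterate_succ_apply']
      exact Hol1J_mem B hB _ (fun s => B.mul_mem (ih s) (h s)) r
  have hs := ((continuous_eval_const r).tendsto (Hol1S a)).comp (Hol1S_lim a)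
  refine hB.mem_of_tendsto hs (Filter.Eventually.of_forall fun n => ?_)
  simp only [Function.comp, ContinuousMap.coe_sum, Finset.sum_apply]
  exact B.sum_mem fun i _ => hp i r

omit [NormOneClass A] in
theorem Hol1S_isSol (a : C(Icc (0:ℝ) 1, A)) : IsSol (Hol1ext a) (Hol1ext (Hol1S a)) := by
  intro r hr
  have hg := Hol1ext_cont (Hol1S a * a)
  have h1 : HasDerivAt (fun u => 1 + ∫ t in (0:ℝ)..u, Hol1ext (Hol1S a * a) t)
      (Hol1ext (Hol1S a * a) r) r :=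
    (intervalIntegral.integral_hasDerivAt_right (hg.intervalIntegrable _ _)
      (hg.stronglyMeasurableAtFilter _ _) hg.continuousAt).const_add 1
  have key : ∀ u ∈ Icc (0:ℝ) 1,
      Hol1ext (Hol1S a) u = 1 + ∫ t in (0:ℝ)..u, Hol1ext (Hol1S a * a) t := by
    intro u hu
    rw [Hol1ext_of_mem _ hu]
    conv_lhs => rw [Hol1S_fix a]
    rfl
  exact h1.hasDerivWithinAt.congr key (key r hr)

omit [NormOneClass A] in
theorem Hol1S_zero (a : C(Icc (0:ℝ) 1, A)) : Hol1S a ⟨0, left_mem_Icc.2 zero_le_one⟩ = 1 := by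
  rw [Hol1S_fix a, ContinuousMap.add_apply, Hol1Jl_apply]
  simp

/-- The solution operator on `C([0,1], A)`; it is holomorphic, and preserves closed subalgebras. -/
theorem exists_holC : ∃ S : C(Icc (0:ℝ) 1, A) → C(Icc (0:ℝ) 1, A), Differentiable ℂ S ∧
    (∀ a : C(Icc (0:ℝ) 1, A),
      IsSol (fun r => a (projIcc 0 1 zero_le_one r)) (fun r => S a (projIcc 0 1 zero_le_one r)) ∧
      S a ⟨0, left_mem_Icc.2 zero_le_one⟩ = 1) ∧
    ∀ (B : Subalgebra ℝ A), IsClosed (B : Set A) → ∀ a : C(Icc (0:ℝ) 1, A), (∀ r, a r ∈ B) →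
      ∀ r, S a r ∈ B :=
  ⟨Hol1S, Hol1S_diff, fun a => ⟨Hol1S_isSol a, Hol1S_zero a⟩, Hol1S_mem⟩

theorem IsSol.unique {a φ χ : ℝ → A} (ha : ContinuousOn a (Icc 0 1))
    (h1 : ContinuousOn φ (Icc 0 1)) (h2 : ContinuousOn χ (Icc 0 1))
    (d1 : ∀ r ∈ Ico (0:ℝ) 1, HasDerivWithinAt φ (φ r * a r) (Ici r) r)
    (d2 : ∀ r ∈ Ico (0:ℝ) 1, HasDerivWithinAt χ (χ r * a r) (Ici r) r) (h0 : φ 0 = χ 0) :
    ∀ r ∈ Icc (0:ℝ) 1, φ r = χ r := by
  obtain ⟨K, hK⟩ := isCompact_Icc.exists_bound_of_continuousOn ha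
  have hK0 : 0 ≤ K := (norm_nonneg _).trans (hK 0 (left_mem_Icc.2 zero_le_one))
  refine ODE_solution_unique_of_mem_Icc_right (v := fun t x => x * a t) (s := fun _ => univ)
    (K := ⟨K, hK0⟩) ?_ h1 d1 (fun _ _ => mem_univ _) h2 d2 (fun _ _ => mem_univ _) h0
  intro t ht
  refine LipschitzWith.lipschitzOnWith (LipschitzWith.of_dist_le_mul fun x y => ?_)
  rw [dist_eq_norm, dist_eq_norm, ← sub_mul]
  refine (norm_mul_le _ _).trans ?_
  rw [mul_comm]
  exact mul_le_mul_of_nonneg_right (hK t (Ico_subset_Icc_self ht)) (norm_nonneg _)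

theorem Hol_zero (a : ℝ → A) : Hol a 0 = 1 := by
  unfold Hol
  split_ifs with h
  · exact h.choose_spec.2
  · rfl

omit [NormOneClass A] [CompleteSpace A] in
theorem Hol1_congr {a b φ : ℝ → A} (h : ∀ r ∈ Icc (0:ℝ) 1, a r = b r) (hφ : IsSol a φ) :
    IsSol b φ := fun r hr => h r hr ▸ hφ r hr

omit [NormOneClass A] in
theorem Hol1_exists {a : ℝ → A} (ha : ContinuousOn a (Icc 0 1)) :
    IsSol a (Hol1ext (Hol1S (cmk fun y : Icc (0:ℝ) 1 => a y))) := by
  refine Hol1_congr (fun r hr => ?_) (Hol1S_isSol _)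
  rw [Hol1ext_of_mem _ hr]
  exact ContinuousMap.mkD_apply_of_continuous
    (ha.comp_continuous continuous_subtype_val fun y => y.2)

theorem Hol_isSol {a : ℝ → A} (ha : ContinuousOn a (Icc 0 1)) : IsSol a (Hol a) := by
  have h : ∃ φ, IsSol a φ ∧ φ 0 = 1 := ⟨_, Hol1_exists ha, by
    rw [Hol1ext_of_mem _ (left_mem_Icc.2 zero_le_one)]; exact Hol1S_zero _⟩
  unfold Hol
  rw [dif_pos h]
  exact h.choose_spec.1

omit [NormOneClass A] [CompleteSpace A] in
theorem Hol1_cont {a φ : ℝ → A} (h : IsSol a φ) : ContinuousOn φ (Icc 0 1) :=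
  fun r hr => (h r hr).continuousWithinAt

omit [NormOneClass A] [CompleteSpace A] in
theorem Hol1_right {a φ : ℝ → A} (h : IsSol a φ) :
    ∀ r ∈ Ico (0:ℝ) 1, HasDerivWithinAt φ (φ r * a r) (Ici r) r := fun r hr =>
  (h r (Ico_subset_Icc_self hr)).mono_of_mem_nhdsWithin
    (Filter.mem_of_superset (Icc_mem_nhdsGE hr.2) (Icc_subset_Icc_left hr.1))

theorem Hol_continuousOn {a : ℝ → A} (ha : ContinuousOn a (Icc 0 1)) :
    ContinuousOn (Hol a) (Icc 0 1) := Hol1_cont (Hol_isSol ha)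

theorem IsSol.eq_Hol {a φ : ℝ → A} (ha : ContinuousOn a (Icc 0 1)) (h : IsSol a φ) :
    ∀ r ∈ Icc (0:ℝ) 1, φ r = φ 0 * Hol a r := by
  have h2 : IsSol a (fun r => φ 0 * Hol a r) := fun r hr => by
    have := (Hol_isSol ha r hr).const_mul (φ 0)
    rwa [← mul_assoc] at this
  exact IsSol.unique ha (Hol1_cont h) (Hol1_cont h2) (Hol1_right h) (Hol1_right h2)
    (by simp [Hol_zero])

theorem Hol_congr {a b : ℝ → A} (ha : ContinuousOn a (Icc 0 1)) (h : ∀ r ∈ Icc (0:ℝ) 1, a r = b r) :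
    ∀ r ∈ Icc (0:ℝ) 1, Hol a r = Hol b r := by
  intro r hr
  have hb : ContinuousOn b (Icc 0 1) := ha.congr fun r hr => (h r hr).symm
  have := IsSol.eq_Hol hb (Hol1_congr h (Hol_isSol ha)) r hr
  rwa [Hol_zero, one_mul] at this

theorem Hol1_eq {a : ℝ → A} (ha : ContinuousOn a (Icc 0 1)) {r : ℝ} (hr : r ∈ Icc (0:ℝ) 1) :
    Hol a r = Hol1S (cmk fun y : Icc (0:ℝ) 1 => a y) ⟨r, hr⟩ := by
  have := IsSol.eq_Hol ha (Hol1_exists ha) r hr
  rw [Hol1ext_of_mem _ hr, Hol1ext_of_mem _ (left_mem_Icc.2 zero_le_one), Hol1S_zero,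
    one_mul] at this
  exact this.symm

theorem Hol_mem {a : ℝ → A} (ha : ContinuousOn a (Icc 0 1)) (B : Subalgebra ℝ A)
    (hB : IsClosed (B : Set A)) (h : ∀ r ∈ Icc (0:ℝ) 1, a r ∈ B) :
    ∀ r ∈ Icc (0:ℝ) 1, Hol a r ∈ B := by
  intro r hr
  rw [Hol1_eq ha hr]
  refine Hol1S_mem B hB _ (fun y => ?_) _
  have : cmk (fun y : Icc (0:ℝ) 1 => a y) y = a y := ContinuousMap.mkD_apply_of_continuous
    (ha.comp_continuous continuous_subtype_val fun y => y.2)
  rw [this]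
  exact h y y.2

theorem Hol1_continuousOn_cmk {P K E : Type} [TopologicalSpace P] [TopologicalSpace K]
    [NormedAddCommGroup E] {S : Set P} {F : P → K → E}
    (hc : ContinuousOn (fun x : P × K => F x.1 x.2) (S ×ˢ univ)) :
    ContinuousOn (fun p => cmk (F p)) S :=
  ContinuousMap.continuousOn_mkD_of_uncurry F 0 hc

/-- holomorphy of a `C(K,E)`-valued function from pointwise holomorphy -/
theorem differentiableOn_cmk {K E : Type} [TopologicalSpace K] [CompactSpace K]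
    [NormedAddCommGroup E] [NormedSpace ℂ E] [CompleteSpace E] {U : Set ℂ} (hU : IsOpen U)
    {F : ℂ → K → E} (hc : ContinuousOn (fun x : ℂ × K => F x.1 x.2) (U ×ˢ univ))
    (hd : ∀ y, DifferentiableOn ℂ (fun τ => F τ y) U) :
    DifferentiableOn ℂ (fun τ => cmk (F τ)) U := by
  intro c hcU
  have hΦ := Hol1_continuousOn_cmk hc
  have hev : ∀ τ ∈ U, ∀ y, cmk (F τ) y = F τ y := fun τ hτ y =>
    ContinuousMap.mkD_apply_of_continuous
      (hc.comp_continuous (Continuous.prodMk_right τ) fun _ => ⟨hτ, trivial⟩)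
  obtain ⟨R, hR, hRU⟩ := Metric.nhds_basis_closedBall.mem_iff.1 (hU.mem_nhds hcU)
  have hsph : ContinuousOn (fun τ => cmk (F τ)) (Metric.sphere c R) :=
    hΦ.mono (Metric.sphere_subset_closedBall.trans hRU)
  have hci : CircleIntegrable (fun τ => cmk (F τ)) c (⟨R, hR.le⟩ : NNReal) :=
    hsph.circleIntegrable hR.le
  have hps := hasFPowerSeriesOn_cauchy_integral hci (by exact_mod_cast hR)
  have hda := hps.hasFPowerSeriesAt.differentiableAt
  refine (hda.congr_of_eventuallyEq ?_).differentiableWithinAt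
  filter_upwards [Metric.ball_mem_nhds c hR] with w hw
  ext y
  have hwne : ∀ z ∈ Metric.sphere c R, z - w ≠ 0 := by
    intro z hz h0
    rw [sub_eq_zero] at h0
    rw [h0, Metric.mem_sphere] at hz
    exact (Metric.mem_ball.1 hw).ne hz
  have hci2 : CircleIntegrable (fun z => (z - w)⁻¹ • cmk (F z)) c R :=
    ContinuousOn.circleIntegrable hR.le
      (((continuousOn_id.sub continuousOn_const).inv₀ hwne).smul hsph)
  have h1 := ((hd y).mono hRU).circleIntegral_sub_inv_smul hw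
  have h2 : (∮ z in C(c, R), (z - w)⁻¹ • cmk (F z)) y = ∮ z in C(c, R), (z - w)⁻¹ • F z y := by
    have := (ContinuousMap.evalCLM ℂ y).intervalIntegral_comp_comm hci2.out
    unfold circleIntegral
    refine Eq.trans this.symm ?_
    refine intervalIntegral.integral_congr fun θ _ => ?_
    have hm : circleMap c R θ ∈ U := hRU (circleMap_mem_closedBall c hR.le θ)
    change deriv (circleMap c R) θ • (circleMap c R θ - w)⁻¹ • cmk (F (circleMap c R θ)) y = _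
    rw [hev _ hm]
  rw [hev w (hRU (Metric.ball_subset_closedBall hw)), ContinuousMap.smul_apply]
  change F w y = _ • (∮ z in C(c, R), (z - w)⁻¹ • cmk (F z)) y
  rw [h2, h1, inv_smul_smul₀ Complex.two_pi_I_ne_zero]

theorem continuousOn_cmk {P K E : Type} [TopologicalSpace P] [TopologicalSpace K] [CompactSpace K]
    [NormedAddCommGroup E] {S : Set P} {F : P → K → E}
    (hc : ContinuousOn (fun x : P × K => F x.1 x.2) (S ×ˢ univ)) :
    ContinuousOn (fun p => cmk (F p)) S := Hol1_continuousOn_cmk hc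

theorem cmk_apply {K E : Type} [TopologicalSpace K] [TopologicalSpace E] [Zero E] {f : K → E}
    (hf : Continuous f) (y : K) : cmk f y = f y := ContinuousMap.mkD_apply_of_continuous hf

omit [NormedAlgebra ℂ A] [CompleteSpace A] [NormOneClass A] in
theorem Hol1_restrict {P : Type} [TopologicalSpace P] {S : Set P} {F : P → ℝ → A}
    (hc : ContinuousOn (fun x : P × ℝ => F x.1 x.2) (S ×ˢ Icc 0 1)) :
    ContinuousOn (fun x : P × Icc (0:ℝ) 1 => F x.1 x.2) (S ×ˢ univ) :=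
  hc.comp (f := fun x : P × Icc (0:ℝ) 1 => (x.1, (x.2 : ℝ))) (by fun_prop)
    fun x hx => ⟨hx.1, x.2.2⟩

omit [NormedAlgebra ℂ A] [CompleteSpace A] [NormOneClass A] in
theorem Hol1_slice {P : Type} [TopologicalSpace P] {S : Set P} {F : P → ℝ → A}
    (hc : ContinuousOn (fun x : P × ℝ => F x.1 x.2) (S ×ˢ Icc 0 1)) {p : P} (hp : p ∈ S) :
    ContinuousOn (F p) (Icc 0 1) :=
  hc.comp (f := fun r : ℝ => (p, r)) (by fun_prop) fun _ hr => ⟨hp, hr⟩

theorem continuousOn_Hol {P : Type} [TopologicalSpace P] {S : Set P} {F : P → ℝ → A}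
    (hc : ContinuousOn (fun x : P × ℝ => F x.1 x.2) (S ×ˢ Icc 0 1)) {r : ℝ} (hr : r ∈ Icc (0:ℝ) 1) :
    ContinuousOn (fun p => Hol (F p) r) S := by
  have h1 := continuousOn_cmk (F := fun p (y : Icc (0:ℝ) 1) => F p y) (Hol1_restrict hc)
  have h2 := ((ContinuousMap.evalCLM ℂ (⟨r, hr⟩ : Icc (0:ℝ) 1)).continuous.comp
    (Hol1S_diff (A := A)).continuous).comp_continuousOn h1
  exact h2.congr fun p hp => Hol1_eq (Hol1_slice hc hp) hr

theorem differentiableOn_Hol {U : Set ℂ} (hU : IsOpen U) {F : ℂ → ℝ → A}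
    (hc : ContinuousOn (fun x : ℂ × ℝ => F x.1 x.2) (U ×ˢ Icc 0 1))
    (hd : ∀ r ∈ Icc (0:ℝ) 1, DifferentiableOn ℂ (fun τ => F τ r) U) {r : ℝ}
    (hr : r ∈ Icc (0:ℝ) 1) : DifferentiableOn ℂ (fun τ => Hol (F τ) r) U := by
  have h1 := differentiableOn_cmk hU (F := fun p (y : Icc (0:ℝ) 1) => F p y) (Hol1_restrict hc)
    (fun y => hd y y.2)
  have h2 := ((ContinuousMap.evalCLM ℂ (⟨r, hr⟩ : Icc (0:ℝ) 1)).differentiable.comp
    (Hol1S_diff (A := A))).comp_differentiableOn h1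
  exact h2.congr fun p hp => Hol1_eq (Hol1_slice hc hp) hr

end Pool.Agent.MP_efb2da_gt
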