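import Pool.Agent.MP_efb2da_gt.Hol1

open Set
open scoped Topology

noncomputable section

namespace Pool.Agent.MP_efb2da_gt

variable {A : Type} [NormedRing A] [NormedAlgebra ℂ A] [CompleteSpace A] [NormOneClass A]

theorem Hol2_right {φ : ℝ → A} {v : A} {r : ℝ} (hr : r ∈ Ico (0:ℝ) 1)
    (h : HasDerivWithinAt φ v (Icc 0 1) r) : HasDerivWithinAt φ v (Ici r) r :=
  h.mono_of_mem_nhdsWithin (Icc_mem_nhdsGE_of_mem hr)

theorem Hol2_deriv {a : ℝ → A} (ha : ContinuousOn a (Icc 0 1)) {r : ℝ} (hr : r ∈ Ico (0:ℝ) 1) :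
    HasDerivWithinAt (Hol a) (Hol a r * a r) (Ici r) r :=
  Hol2_right hr (Hol_isSol ha r (Ico_subset_Icc_self hr))

theorem Hol2_K_nonneg {a : ℝ → A} {K : ℝ} (hK : ∀ r ∈ Icc (0:ℝ) 1, ‖a r‖ ≤ K) : 0 ≤ K :=
  (norm_nonneg _).trans (hK 0 (left_mem_Icc.2 zero_le_one))

theorem norm_Hol_le {a : ℝ → A} (ha : ContinuousOn a (Icc 0 1)) {K : ℝ}
    (hK : ∀ r ∈ Icc (0:ℝ) 1, ‖a r‖ ≤ K) : ∀ r ∈ Icc (0:ℝ) 1, ‖Hol a r‖ ≤ Real.exp K := by
  intro r hr
  have h0 := Hol2_K_nonneg hK
  have h := norm_le_gronwallBound_of_norm_deriv_right_le (δ := 1) (K := K) (ε := 0)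
    (f' := fun r => Hol a r * a r) (Hol_continuousOn ha) (fun x hx => Hol2_deriv ha hx)
    (by rw [Hol_zero, norm_one]) (fun x hx => by
      calc ‖Hol a x * a x‖ ≤ ‖Hol a x‖ * ‖a x‖ := norm_mul_le _ _
        _ ≤ ‖Hol a x‖ * K :=
          mul_le_mul_of_nonneg_left (hK x (Ico_subset_Icc_self hx)) (norm_nonneg _)
        _ = K * ‖Hol a x‖ + 0 := by ring) r hr
  rw [gronwallBound_ε0, one_mul, sub_zero] at h
  refine h.trans (Real.exp_le_exp.2 ?_)
  nlinarith [hr.1, hr.2]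

theorem norm_Hol_sub_one_le {a : ℝ → A} (ha : ContinuousOn a (Icc 0 1)) {K : ℝ}
    (hK : ∀ r ∈ Icc (0:ℝ) 1, ‖a r‖ ≤ K) : ∀ r ∈ Icc (0:ℝ) 1, ‖Hol a r - 1‖ ≤ K * Real.exp K := by
  intro r hr
  have h0 := Hol2_K_nonneg hK
  have h := norm_le_gronwallBound_of_norm_deriv_right_le (δ := 0) (K := 0) (ε := K * Real.exp K)
    (f := fun r => Hol a r - 1)
    (f' := fun r => Hol a r * a r) ((Hol_continuousOn ha).sub continuousOn_const)
    (fun x hx => (Hol2_deriv ha hx).sub_const 1)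
    (by simp [Hol_zero]) (fun x hx => by
      have hx' := Ico_subset_Icc_self hx
      calc ‖Hol a x * a x‖ ≤ ‖Hol a x‖ * ‖a x‖ := norm_mul_le _ _
        _ ≤ Real.exp K * K :=
          mul_le_mul (norm_Hol_le ha hK x hx') (hK x hx') (norm_nonneg _) (Real.exp_pos _).le
        _ = 0 * ‖Hol a x - 1‖ + K * Real.exp K := by ring) r hr
  rw [gronwallBound_K0] at h
  refine h.trans ?_
  have : 0 ≤ K * Real.exp K := by positivity
  show 0 + K * Real.exp K * (r - 0) ≤ K * Real.exp K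
  nlinarith [hr.1, hr.2]

theorem Hol2_gronwall_le {K η r : ℝ} (hK : 0 ≤ K) (hη : 0 ≤ η) (hr : r ∈ Icc (0:ℝ) 1) :
    gronwallBound 0 K (K * η) (r - 0) + η ≤ η * Real.exp K := by
  have h1 : 1 ≤ Real.exp K := Real.one_le_exp hK
  by_cases h : K = 0
  · subst h
    simp [gronwallBound_K0]
  · rw [gronwallBound_of_K_ne_0 h]
    have h2 : Real.exp (K * (r - 0)) ≤ Real.exp K :=
      Real.exp_le_exp.2 (by nlinarith [hr.1, hr.2])
    have h3 : K * η / K = η := by field_simp
    show 0 * Real.exp (K * (r - 0)) + K * η / K * (Real.exp (K * (r - 0)) - 1) + η ≤ _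
    rw [h3]
    nlinarith

theorem norm_Hol_sub_le {a b : ℝ → A} (ha : ContinuousOn a (Icc 0 1))
    (hb : ContinuousOn b (Icc 0 1)) {K : ℝ} (hK : ∀ r ∈ Icc (0:ℝ) 1, ‖a r‖ ≤ K)
    (hK' : ∀ r ∈ Icc (0:ℝ) 1, ‖b r‖ ≤ K) : ∀ r ∈ Icc (0:ℝ) 1,
      ‖Hol a r - Hol b r‖ ≤ Real.exp (2 * K) * ∫ s in (0:ℝ)..1, ‖a s - b s‖ := by
  intro r hr
  have h0 := Hol2_K_nonneg hK
  set f : ℝ → A := fun s => Hol b s * (a s - b s) with hf
  have hfc : ContinuousOn f (Icc 0 1) := (Hol_continuousOn hb).mul (ha.sub hb)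
  set g : ℝ → A := fun s => f (projIcc 0 1 zero_le_one s) with hg
  have hgc : Continuous g :=
    hfc.comp_continuous (continuous_subtype_val.comp continuous_projIcc)
      (fun s => (projIcc 0 1 zero_le_one s).2)
  have hgf : ∀ s ∈ Icc (0:ℝ) 1, g s = f s := fun s hs => by
    simp only [hg, projIcc_of_mem _ hs]
  set J : ℝ → A := fun u => ∫ s in (0:ℝ)..u, g s with hJ
  have hJd : ∀ u, HasDerivAt J (g u) u := fun u => (hgc.integral_hasStrictDerivAt 0 u).hasDerivAt
  have hJc : Continuous J := continuous_iff_continuousAt.2 fun u => (hJd u).continuousAt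
  set η : ℝ := Real.exp K * ∫ s in (0:ℝ)..1, ‖a s - b s‖ with hη
  have hab : IntervalIntegrable (fun s => ‖a s - b s‖) MeasureTheory.volume 0 1 :=
    ((ha.sub hb).norm).intervalIntegrable_of_Icc zero_le_one
  have hη0 : 0 ≤ η := mul_nonneg (Real.exp_pos _).le
    (intervalIntegral.integral_nonneg zero_le_one fun _ _ => norm_nonneg _)
  have hJle : ∀ u ∈ Icc (0:ℝ) 1, ‖J u‖ ≤ η := by
    intro u hu
    calc ‖J u‖ ≤ ∫ s in (0:ℝ)..u, ‖g s‖ := intervalIntegral.norm_integral_le_integral_norm hu.1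
      _ ≤ ∫ s in (0:ℝ)..1, ‖g s‖ := by
        refine intervalIntegral.integral_mono_interval le_rfl hu.1 hu.2
          (Filter.Eventually.of_forall fun _ => norm_nonneg _) (hgc.norm.intervalIntegrable _ _)
      _ ≤ ∫ s in (0:ℝ)..1, Real.exp K * ‖a s - b s‖ := by
        refine intervalIntegral.integral_mono_on zero_le_one (hgc.norm.intervalIntegrable _ _)
          (hab.const_mul _) fun s hs => ?_
        rw [hgf s hs]
        exact (norm_mul_le _ _).trans
          (mul_le_mul_of_nonneg_right (norm_Hol_le hb hK' s hs) (norm_nonneg _))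
      _ = η := by rw [intervalIntegral.integral_const_mul]
  have h := norm_le_gronwallBound_of_norm_deriv_right_le (δ := 0) (K := K) (ε := K * η)
    (f := fun r => Hol a r - Hol b r - J r)
    (f' := fun r => (Hol a r - Hol b r) * a r)
    (((Hol_continuousOn ha).sub (Hol_continuousOn hb)).sub hJc.continuousOn)
    (fun x hx => by
      have h1 := ((Hol2_deriv ha hx).sub (Hol2_deriv hb hx)).sub (hJd x).hasDerivWithinAt
      refine h1.congr_deriv ?_
      rw [hgf x (Ico_subset_Icc_self hx)]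
      simp only [hf]
      noncomm_ring)
    (by simp [Hol_zero, hJ]) (fun x hx => by
      have hx' := Ico_subset_Icc_self hx
      have h1 : ‖Hol a x - Hol b x‖ ≤ ‖Hol a x - Hol b x - J x‖ + η := by
        calc ‖Hol a x - Hol b x‖ = ‖(Hol a x - Hol b x - J x) + J x‖ := by
              rw [sub_add_cancel]
          _ ≤ _ := (norm_add_le _ _).trans (by linarith [hJle x hx'])
      calc ‖(Hol a x - Hol b x) * a x‖ ≤ ‖Hol a x - Hol b x‖ * ‖a x‖ := norm_mul_le _ _
        _ ≤ (‖Hol a x - Hol b x - J x‖ + η) * K :=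
          mul_le_mul h1 (hK x hx') (norm_nonneg _) (by positivity)
        _ = K * ‖Hol a x - Hol b x - J x‖ + K * η := by ring) r hr
  have h2 := Hol2_gronwall_le h0 hη0 hr
  calc ‖Hol a r - Hol b r‖ = ‖(Hol a r - Hol b r - J r) + J r‖ := by rw [sub_add_cancel]
    _ ≤ ‖Hol a r - Hol b r - J r‖ + ‖J r‖ := norm_add_le _ _
    _ ≤ η * Real.exp K := by linarith [hJle r hr]
    _ = _ := by rw [hη, two_mul, Real.exp_add]; ring

theorem norm_Hol_second {a : ℝ → A} (ha : ContinuousOn a (Icc 0 1)) {K : ℝ}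
    (hK : ∀ r ∈ Icc (0:ℝ) 1, ‖a r‖ ≤ K) :
    ‖Hol a 1 - 1 - ∫ s in (0:ℝ)..1, a s‖ ≤ K ^ 2 * Real.exp K := by
  have h0 := Hol2_K_nonneg hK
  have hi : IntervalIntegrable (fun s => Hol a s * a s) MeasureTheory.volume 0 1 :=
    ((Hol_continuousOn ha).mul ha).intervalIntegrable_of_Icc zero_le_one
  have hia : IntervalIntegrable a MeasureTheory.volume 0 1 :=
    ha.intervalIntegrable_of_Icc zero_le_one
  have h1 : ∫ s in (0:ℝ)..1, Hol a s * a s = Hol a 1 - Hol a 0 :=
    intervalIntegral.integral_eq_sub_of_hasDeriv_right_of_le zero_le_one (Hol_continuousOn ha)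
      (fun x hx => (Hol2_deriv ha (Ioo_subset_Ico_self hx)).mono Ioi_subset_Ici_self) hi
  rw [Hol_zero] at h1
  rw [← h1, ← intervalIntegral.integral_sub hi hia]
  have h2 := intervalIntegral.norm_integral_le_of_norm_le_const (a := (0:ℝ)) (b := 1)
    (C := K ^ 2 * Real.exp K) (f := fun s => Hol a s * a s - a s) (fun x hx => by
      rw [uIoc_of_le zero_le_one] at hx
      have hx' := Ioc_subset_Icc_self hx
      calc ‖Hol a x * a x - a x‖ = ‖(Hol a x - 1) * a x‖ := by rw [sub_mul, one_mul]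
        _ ≤ ‖Hol a x - 1‖ * ‖a x‖ := norm_mul_le _ _
        _ ≤ (K * Real.exp K) * K :=
          mul_le_mul (norm_Hol_sub_one_le ha hK x hx') (hK x hx') (norm_nonneg _) (by positivity)
        _ = K ^ 2 * Real.exp K := by ring)
  simpa using h2

/-- multiplicative real linear maps commute with `Hol` -/
theorem Hol_map {B : Type} [NormedRing B] [NormedAlgebra ℂ B] [CompleteSpace B] [NormOneClass B]
    (σ : A →L[ℝ] B) (h1 : σ 1 = 1) (hm : ∀ x y, σ (x * y) = σ x * σ y) {a : ℝ → A}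
    (ha : ContinuousOn a (Icc 0 1)) : ∀ r ∈ Icc (0:ℝ) 1, σ (Hol a r) = Hol (fun s => σ (a s)) r := by
  intro r hr
  have hs : IsSol (fun s => σ (a s)) (fun s => σ (Hol a s)) := by
    intro s hs
    have h := σ.hasFDerivAt.comp_hasDerivWithinAt s (Hol_isSol ha s hs)
    rw [hm] at h
    exact h
  have h := IsSol.eq_Hol (a := fun s => σ (a s)) (σ.continuous.comp_continuousOn ha) hs r hr
  simpa [Hol_zero, h1] using h

/-- reversal symmetry -/
theorem Hol_rev (σ : A →L[ℝ] A) (h1 : σ 1 = 1) (hm : ∀ x y, σ (x * y) = σ x * σ y) {a : ℝ → A}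
    (ha : ContinuousOn a (Icc 0 1)) (hs : ∀ r ∈ Icc (0:ℝ) 1, σ (a r) = -a (1 - r)) :
    ∀ r ∈ Icc (0:ℝ) 1, Hol a 1 * σ (Hol a r) = Hol a (1 - r) := by
  intro r hr
  have hmap : MapsTo (fun s : ℝ => 1 - s) (Icc 0 1) (Icc 0 1) := fun s hs =>
    ⟨by linarith [hs.2], by linarith [hs.1]⟩
  have hsol : IsSol (fun s => σ (a s)) (fun s => Hol a (1 - s)) := by
    intro s hs'
    have hd : HasDerivWithinAt (fun s : ℝ => 1 - s) (-1) (Icc 0 1) s :=
      ((hasDerivAt_id s).const_sub 1).hasDerivWithinAt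
    have h := (Hol_isSol ha (1 - s) (hmap hs')).scomp s hd hmap
    refine h.congr_deriv ?_
    simp [hs s hs']
  have h := IsSol.eq_Hol (a := fun s => σ (a s)) (σ.continuous.comp_continuousOn ha) hsol r hr
  rw [Hol_map σ h1 hm ha r hr]
  simpa using h.symm

theorem Hol2_const_eq (y : A) : Hol (fun _ => y) 1 = NormedSpace.exp y := by
  have hsol : IsSol (fun _ => y) (fun r : ℝ => NormedSpace.exp (r • y)) := fun r _ =>
    (hasDerivAt_exp_smul_const y r).hasDerivWithinAt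
  have h := IsSol.eq_Hol continuousOn_const hsol 1 (right_mem_Icc.2 zero_le_one)
  simpa using h.symm

/-- constant coefficients: `Hol (l x) 1` is the exponential; derivative in `l` -/
theorem hasDerivAt_Hol_const (x : A) (l : ℂ) :
    HasDerivAt (fun l : ℂ => Hol (fun _ => l • x) 1) (Hol (fun _ => l • x) 1 * x) l := by
  simp only [Hol2_const_eq]
  exact hasDerivAt_exp_smul_const x l

theorem Hol_const_zero : Hol (fun _ => (0 : A)) 1 = 1 := by
  rw [Hol2_const_eq, NormedSpace.exp_zero]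

theorem continuous_Hol_const : Continuous fun x : A => Hol (fun _ => x) 1 := by
  have h := continuousOn_Hol (S := (univ : Set A)) (F := fun (x : A) (_ : ℝ) => x)
    continuous_fst.continuousOn (right_mem_Icc.2 zero_le_one)
  exact continuousOn_univ.1 h

/-- closed form when `x² = μ²` -/
theorem Hol_const_sq {x : A} {μ : ℂ} (hx : x * x = (μ ^ 2) • (1 : A)) (l : ℂ) :
    μ • Hol (fun _ => l • x) 1 =
      (μ * Complex.cosh (l * μ)) • (1 : A) + Complex.sinh (l * μ) • x := by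
  have hsol : IsSol (fun _ => l • x) (fun r : ℝ =>
      (μ * Complex.cosh ((r : ℂ) * (l * μ))) • (1 : A) + Complex.sinh ((r : ℂ) * (l * μ)) • x) := by
    intro r _
    have e1 : HasDerivAt (fun z : ℂ => z * (l * μ)) (l * μ) (r : ℂ) := by
      simpa using (hasDerivAt_id (r : ℂ)).mul_const (l * μ)
    have e2 : HasDerivAt (fun z : ℂ =>
        (μ * Complex.cosh (z * (l * μ))) • (1 : A) + Complex.sinh (z * (l * μ)) • x)
        ((μ * (Complex.sinh ((r : ℂ) * (l * μ)) * (l * μ))) • (1 : A) +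
          (Complex.cosh ((r : ℂ) * (l * μ)) * (l * μ)) • x) (r : ℂ) :=
      ((e1.ccosh.const_mul μ).smul_const (1 : A)).add (e1.csinh.smul_const x)
    have e3 := e2.scomp r Complex.ofRealCLM.hasDerivAt
    refine (e3.congr_deriv ?_).hasDerivWithinAt
    simp only [Complex.ofRealCLM_apply, Complex.ofReal_one, one_smul, add_mul, smul_mul_assoc,
      mul_smul_comm, hx, one_mul, smul_smul]
    module
  have h := IsSol.eq_Hol continuousOn_const hsol 1 (right_mem_Icc.2 zero_le_one)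
  simpa using h.symm

end Pool.Agent.MP_efb2da_gt
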