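import Pool.Agent.MP_efb2da_gt.Hol2

open Set
open scoped Topology

noncomputable section

namespace Pool.Agent.MP_efb2da_gt

variable {A : Type} [NormedRing A] [NormedAlgebra ℂ A] [CompleteSpace A] [NormOneClass A]

theorem const_of_deriv_zero {E : Type} [NormedAddCommGroup E] [NormedSpace ℂ E] {O S : Set ℂ}
    (hO : IsOpen O) {F : ℂ → E} (hF : ∀ z ∈ O, HasDerivAt F 0 z) (hS : IsPreconnected S)
    (hSO : S ⊆ O) {z w : ℂ} (hz : z ∈ S) (hw : w ∈ S) : F z = F w := by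
  have hC : IsOpen (connectedComponentIn O z) := hO.connectedComponentIn
  have hsub : S ⊆ connectedComponentIn O z := hS.subset_connectedComponentIn hz hSO
  have hCO : connectedComponentIn O z ⊆ O := connectedComponentIn_subset O z
  obtain ⟨c, hc⟩ := hC.exists_is_const_of_deriv_eq_zero isPreconnected_connectedComponentIn
    (f := F) (fun x hx => (hF x (hCO hx)).differentiableAt.differentiableWithinAt)
    (fun x hx => (hF x (hCO hx)).deriv)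
  rw [hc z (hsub hz), hc w (hsub hw)]

omit [CompleteSpace A] [NormOneClass A] in
theorem ode_uniq {a φ χ : ℝ → A} {b : ℝ} (ha : ContinuousOn a (Icc 0 b))
    (h1 : ContinuousOn φ (Icc 0 b)) (h2 : ContinuousOn χ (Icc 0 b))
    (d1 : ∀ r ∈ Ico (0:ℝ) b, HasDerivWithinAt φ (φ r * a r) (Ici r) r)
    (d2 : ∀ r ∈ Ico (0:ℝ) b, HasDerivWithinAt χ (χ r * a r) (Ici r) r) (h0 : φ 0 = χ 0) :
    ∀ r ∈ Icc (0:ℝ) b, φ r = χ r := by
  obtain ⟨K, hK⟩ := isCompact_Icc.exists_bound_of_continuousOn ha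
  have hv : ∀ t ∈ Ico (0:ℝ) b, LipschitzOnWith (Real.toNNReal K) (fun x : A => x * a t) univ := by
    intro t ht
    refine LipschitzOnWith.of_dist_le' fun x _ y _ => ?_
    rw [dist_eq_norm, dist_eq_norm, ← sub_mul, mul_comm K]
    exact (norm_mul_le _ _).trans
      (mul_le_mul_of_nonneg_left (hK t (Ico_subset_Icc_self ht)) (norm_nonneg _))
  intro r hr
  exact ODE_solution_unique_of_mem_Icc_right (v := fun t x => x * a t) (s := fun _ => univ) hv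
    h1 d1 (fun _ _ => mem_univ _) h2 d2 (fun _ _ => mem_univ _) h0 hr

omit [CompleteSpace A] [NormOneClass A] in
theorem ode_chain {ξ Φ : ℂ → A} {γ : ℝ → ℂ} {g : ℂ} {r : ℝ}
    (hΦ : HasDerivAt Φ (Φ (γ r) * ξ (γ r)) (γ r)) (hγ : HasDerivAt γ g r) :
    HasDerivAt (fun r => Φ (γ r)) (Φ (γ r) * (g • ξ (γ r))) r := by
  have := hΦ.scomp r hγ
  rw [mul_smul_comm]
  exact this

theorem ode_seg_deriv (u v : ℂ) (r : ℝ) :
    HasDerivAt (fun r : ℝ => u + (r : ℂ) * (v - u)) (v - u) r := by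
  have h : HasDerivAt (fun r : ℝ => (r : ℂ)) 1 r := Complex.ofRealCLM.hasDerivAt
  simpa using (h.mul_const (v - u)).const_add u

theorem ode_seg_mem {U : Set ℂ} (hc : Convex ℝ U) {u v : ℂ} (hu : u ∈ U) (hv : v ∈ U) {r : ℝ}
    (hr : r ∈ Icc (0:ℝ) 1) : u + (r : ℂ) * (v - u) ∈ U := by
  have := hc.add_smul_sub_mem hu hv hr
  simpa using this

omit [CompleteSpace A] [NormOneClass A] in
theorem ode_uniq_convex {U : Set ℂ} (hc : Convex ℝ U) {ξ Φ Ψ : ℂ → A} (hξ : ContinuousOn ξ U)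
    (hΦ : ∀ z ∈ U, HasDerivAt Φ (Φ z * ξ z) z) (hΨ : ∀ z ∈ U, HasDerivAt Ψ (Ψ z * ξ z) z)
    {u v : ℂ} (hu : u ∈ U) (hv : v ∈ U) (he : Φ u = Ψ u) : Φ v = Ψ v := by
  have hγc : Continuous fun r : ℝ => u + (r : ℂ) * (v - u) := by fun_prop
  have hm : ∀ r ∈ Icc (0:ℝ) 1, u + (r : ℂ) * (v - u) ∈ U := fun r hr => ode_seg_mem hc hu hv hr
  have dΦ : ∀ r ∈ Icc (0:ℝ) 1, HasDerivAt (fun r : ℝ => Φ (u + (r : ℂ) * (v - u)))
      (Φ (u + (r : ℂ) * (v - u)) * ((v - u) • ξ (u + (r : ℂ) * (v - u)))) r := fun r hr =>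
    ode_chain (γ := fun r : ℝ => u + (r : ℂ) * (v - u)) (hΦ _ (hm r hr)) (ode_seg_deriv u v r)
  have dΨ : ∀ r ∈ Icc (0:ℝ) 1, HasDerivAt (fun r : ℝ => Ψ (u + (r : ℂ) * (v - u)))
      (Ψ (u + (r : ℂ) * (v - u)) * ((v - u) • ξ (u + (r : ℂ) * (v - u)))) r := fun r hr =>
    ode_chain (γ := fun r : ℝ => u + (r : ℂ) * (v - u)) (hΨ _ (hm r hr)) (ode_seg_deriv u v r)
  have key := ode_uniq (a := fun r : ℝ => (v - u) • ξ (u + (r : ℂ) * (v - u))) (b := 1)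
    (φ := fun r : ℝ => Φ (u + (r : ℂ) * (v - u))) (χ := fun r : ℝ => Ψ (u + (r : ℂ) * (v - u)))
    ((hξ.comp hγc.continuousOn hm).const_smul (v - u))
    (fun r hr => (dΦ r hr).continuousAt.continuousWithinAt)
    (fun r hr => (dΨ r hr).continuousAt.continuousWithinAt)
    (fun r hr => (dΦ r (Ico_subset_Icc_self hr)).hasDerivWithinAt)
    (fun r hr => (dΨ r (Ico_subset_Icc_self hr)).hasDerivWithinAt)
    (by simpa using he) 1 (right_mem_Icc.2 zero_le_one)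
  simpa using key

/-- two solutions that agree at a point of a preconnected set agree on it -/
theorem frame_unique {O S : Set ℂ} (hO : IsOpen O) {ξ Φ Ψ : ℂ → A} (hξ : ContinuousOn ξ O)
    (hΦ : ∀ z ∈ O, HasDerivAt Φ (Φ z * ξ z) z) (hΨ : ∀ z ∈ O, HasDerivAt Ψ (Ψ z * ξ z) z)
    (hS : IsPreconnected S) (hSO : S ⊆ O) {w : ℂ} (hw : w ∈ S) (he : Φ w = Ψ w) :
    ∀ z ∈ S, Φ z = Ψ z := by
  have loc : ∀ z ∈ O, ∃ ε > 0, Metric.ball z ε ⊆ O ∧
      ∀ u ∈ Metric.ball z ε, ∀ v ∈ Metric.ball z ε, Φ u = Ψ u → Φ v = Ψ v := by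
    intro z hz
    obtain ⟨ε, hε, hb⟩ := Metric.isOpen_iff.1 hO z hz
    exact ⟨ε, hε, hb, fun u hu v hv h => ode_uniq_convex (convex_ball z ε) (hξ.mono hb)
      (fun x hx => hΦ x (hb hx)) (fun x hx => hΨ x (hb hx)) hu hv h⟩
  have o1 : IsOpen {z | z ∈ O ∧ Φ z = Ψ z} := by
    refine Metric.isOpen_iff.2 fun z hz => ?_
    obtain ⟨ε, hε, hb, h⟩ := loc z hz.1
    exact ⟨ε, hε, fun v hv => ⟨hb hv, h z (Metric.mem_ball_self hε) v hv hz.2⟩⟩
  have o2 : IsOpen {z | z ∈ O ∧ Φ z ≠ Ψ z} := by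
    refine Metric.isOpen_iff.2 fun z hz => ?_
    obtain ⟨ε, hε, hb, h⟩ := loc z hz.1
    exact ⟨ε, hε, fun v hv => ⟨hb hv, fun hv' => hz.2 (h v hv z (Metric.mem_ball_self hε) hv')⟩⟩
  have := hS.subset_left_of_subset_union o1 o2
    (Set.disjoint_left.2 fun z h1 h2 => h2.2 h1.2)
    (fun z hz => by
      by_cases h : Φ z = Ψ z
      · exact Or.inl ⟨hSO hz, h⟩
      · exact Or.inr ⟨hSO hz, h⟩) ⟨w, hw, hSO hw, he⟩
  exact fun z hz => (this hz).2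

theorem frame_path {O : Set ℂ} {ξ Φ : ℂ → A} (hΦ : ∀ z ∈ O, HasDerivAt Φ (Φ z * ξ z) z)
    {γ γ' : ℝ → ℂ} {b : ℝ} (hb : b ∈ Icc (0:ℝ) 1) (hγ : ∀ r, HasDerivAt γ (γ' r) r)
    (hO : ∀ r ∈ Icc (0:ℝ) b, γ r ∈ O) {a : ℝ → A} (ha : ContinuousOn a (Icc 0 1))
    (he : ∀ r ∈ Icc (0:ℝ) b, a r = γ' r • ξ (γ r)) :
    ∀ r ∈ Icc (0:ℝ) b, Φ (γ r) = Φ (γ 0) * Hol a r := by
  have hsub : Icc (0:ℝ) b ⊆ Icc 0 1 := Icc_subset_Icc_right hb.2
  have dΦ : ∀ r ∈ Icc (0:ℝ) b, HasDerivAt (fun r => Φ (γ r)) (Φ (γ r) * a r) r := fun r hr => by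
    rw [he r hr]
    exact ode_chain (hΦ _ (hO r hr)) (hγ r)
  refine ode_uniq (a := a) (φ := fun r => Φ (γ r)) (χ := fun r => Φ (γ 0) * Hol a r)
    (ha.mono hsub) (fun r hr => (dΦ r hr).continuousAt.continuousWithinAt)
    (continuousOn_const.mul ((Hol_continuousOn ha).mono hsub))
    (fun r hr => (dΦ r (Ico_subset_Icc_self hr)).hasDerivWithinAt) (fun r hr => ?_)
    (by simp [Hol_zero])
  have hr1 : r ∈ Ico (0:ℝ) 1 := ⟨hr.1, hr.2.trans_le hb.2⟩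
  have h := (Hol_isSol ha r (Ico_subset_Icc_self hr1)).mono_of_mem_nhdsWithin
    (Icc_mem_nhdsGE_of_mem hr1)
  have := h.const_mul (Φ (γ 0))
  rwa [← mul_assoc] at this

theorem ode_hol_scale {a c : ℝ → A} (ha : ContinuousOn a (Icc 0 1))
    (hc : ContinuousOn c (Icc 0 1)) {s : ℝ} (hs : s ∈ Icc (0:ℝ) 1)
    (he : ∀ r ∈ Icc (0:ℝ) 1, c r = s • a (s * r)) : Hol c 1 = Hol a s := by
  have hm : MapsTo (fun r : ℝ => s * r) (Icc 0 1) (Icc 0 1) := fun r hr =>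
    ⟨mul_nonneg hs.1 hr.1, mul_le_one₀ hs.2 hr.1 hr.2⟩
  have hsol : IsSol c (fun r => Hol a (s * r)) := by
    intro r hr
    have h1 : HasDerivWithinAt (fun r : ℝ => s * r) s (Icc 0 1) r := by
      simpa using ((hasDerivAt_id r).const_mul s).hasDerivWithinAt
    have h2 := (Hol_isSol ha (s * r) (hm hr)).scomp r h1 hm
    rw [he r hr, mul_smul_comm]
    exact h2
  have := hsol.eq_Hol hc 1 (right_mem_Icc.2 zero_le_one)
  simpa [Hol_zero] using this.symm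

theorem exists_frame_convex {U : Set ℂ} (hU : IsOpen U) (hc : Convex ℝ U) {ξ : ℂ → A}
    (hξ : DifferentiableOn ℂ ξ U) {z₀ : ℂ} (h₀ : z₀ ∈ U) (Φ₀ : A) :
    ∃ Φ : ℂ → A, Φ z₀ = Φ₀ ∧ ∀ z ∈ U, HasDerivAt Φ (Φ z * ξ z) z := by
  set F : ℂ → ℝ → A := fun z r => (z - z₀) • ξ (z₀ + (r : ℂ) * (z - z₀)) with hF
  have hFc : ContinuousOn (fun x : ℂ × ℝ => F x.1 x.2) (U ×ˢ Icc 0 1) := by
    have h1 : Continuous fun x : ℂ × ℝ => z₀ + (x.2 : ℂ) * (x.1 - z₀) := by fun_prop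
    have h2 : Continuous fun x : ℂ × ℝ => x.1 - z₀ := by fun_prop
    exact h2.continuousOn.smul (hξ.continuousOn.comp h1.continuousOn
      fun x hx => ode_seg_mem hc h₀ hx.1 hx.2)
  have hFz : ∀ z ∈ U, ContinuousOn (F z) (Icc 0 1) := fun z hz => by
    have h1 : Continuous fun r : ℝ => ((z, r) : ℂ × ℝ) := by fun_prop
    exact hFc.comp h1.continuousOn fun r hr => ⟨hz, hr⟩
  have hFd : ∀ r ∈ Icc (0:ℝ) 1, DifferentiableOn ℂ (fun τ => F τ r) U := fun r hr => by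
    have h1 : Differentiable ℂ fun z : ℂ => z₀ + (r : ℂ) * (z - z₀) := by fun_prop
    have h2 : Differentiable ℂ fun z : ℂ => z - z₀ := by fun_prop
    exact h2.differentiableOn.smul (hξ.comp h1.differentiableOn
      fun x hx => ode_seg_mem hc h₀ hx hr)
  have one : (1:ℝ) ∈ Icc (0:ℝ) 1 := right_mem_Icc.2 zero_le_one
  set Φ : ℂ → A := fun z => Φ₀ * Hol (F z) 1 with hΦ
  have hΦd : DifferentiableOn ℂ Φ U := (differentiableOn_Hol hU hFc hFd one).const_mul Φ₀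
  have hscale : ∀ z ∈ U, ∀ s ∈ Icc (0:ℝ) 1,
      Φ (z₀ + (s : ℂ) * (z - z₀)) = Φ₀ * Hol (F z) s := by
    intro z hz s hs
    have := ode_hol_scale (hFz z hz) (hFz _ (ode_seg_mem hc h₀ hz hs)) hs (fun r _ => by
      simp only [hF]
      rw [← Complex.coe_smul, smul_smul]
      congr 1
      · ring
      · congr 1
        push_cast
        ring)
    simp only [hΦ]
    rw [this]
  have hne : ∀ z ∈ U, z ≠ z₀ → deriv Φ z = Φ z * ξ z := by
    intro z hz hzz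
    have hd : HasDerivAt Φ (deriv Φ z) (z₀ + ((1:ℝ) : ℂ) * (z - z₀)) := by
      have : z₀ + ((1:ℝ) : ℂ) * (z - z₀) = z := by simp
      rw [this]
      exact (hΦd.differentiableAt (hU.mem_nhds hz)).hasDerivAt
    have d1 : HasDerivWithinAt (fun s : ℝ => Φ (z₀ + (s : ℂ) * (z - z₀)))
        ((z - z₀) • deriv Φ z) (Icc 0 1) 1 :=
      (HasDerivAt.scomp (h := fun s : ℝ => z₀ + (s : ℂ) * (z - z₀)) (1:ℝ) hd
        (ode_seg_deriv z₀ z 1)).hasDerivWithinAt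
    have d2 : HasDerivWithinAt (fun s : ℝ => Φ (z₀ + (s : ℂ) * (z - z₀)))
        (Φ₀ * (Hol (F z) 1 * F z 1)) (Icc 0 1) 1 :=
      ((Hol_isSol (hFz z hz) 1 one).const_mul Φ₀).congr (fun s hs => hscale z hz s hs)
        (hscale z hz 1 one)
    have hu : UniqueDiffWithinAt ℝ (Icc (0:ℝ) 1) 1 := uniqueDiffOn_Icc zero_lt_one 1 one
    have e := hu.eq_deriv _ d1 d2
    have e2 : Φ₀ * (Hol (F z) 1 * F z 1) = (z - z₀) • (Φ z * ξ z) := by
      simp only [hΦ, hF]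
      simp [mul_assoc]
    rw [e2] at e
    exact smul_right_injective A (sub_ne_zero.2 hzz) e
  have hall : ∀ z ∈ U, deriv Φ z = Φ z * ξ z := by
    intro z hz
    by_cases hzz : z = z₀
    · subst hzz
      have c1 : ContinuousAt (deriv Φ) z :=
        ((hΦd.deriv hU).continuousOn.continuousAt (hU.mem_nhds hz))
      have c2 : ContinuousAt (fun z => Φ z * ξ z) z :=
        (hΦd.continuousOn.mul hξ.continuousOn).continuousAt (hU.mem_nhds hz)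
      have ev : deriv Φ =ᶠ[𝓝[≠] z] fun z => Φ z * ξ z := by
        filter_upwards [self_mem_nhdsWithin, mem_nhdsWithin_of_mem_nhds (hU.mem_nhds hz)]
          with x hx hxU
        exact hne x hxU hx
      exact tendsto_nhds_unique_of_eventuallyEq (c1.tendsto.mono_left nhdsWithin_le_nhds)
        (c2.tendsto.mono_left nhdsWithin_le_nhds) ev
    · exact hne z hz hzz
  refine ⟨Φ, ?_, fun z hz => ?_⟩
  · have := hscale z₀ h₀ 0 (left_mem_Icc.2 zero_le_one)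
    simpa [Hol_zero] using this
  · rw [← hall z hz]
    exact (hΦd.differentiableAt (hU.mem_nhds hz)).hasDerivAt

end Pool.Agent.MP_efb2da_gt
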