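import Pool.Agent.MP_efb2da_gt.Iw2
import Pool.Agent.MP_efb2da_gt.Ode

open Set Complex
open scoped Topology ComplexConjugate Matrix ContDiff

noncomputable section

namespace Pool.Agent.MP_efb2da_gt

lemma HolMat_alg (P x : MW) :
    (P * x) 0 0 * P 1 1 + P 0 0 * (P * x) 1 1 - ((P * x) 0 1 * P 1 0 + P 0 1 * (P * x) 1 0) =
      P.det * trW x := by
  simp only [Matrix.mul_apply, Fin.sum_univ_two, Matrix.det_fin_two, trW_apply]
  ring

lemma HolMat_det_real {φ : ℝ → MW} {x : MW} {r : ℝ} {s : Set ℝ}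
    (h : HasDerivWithinAt φ (φ r * x) s r) :
    HasDerivWithinAt (fun z => (φ z).det) ((φ r).det * trW x) s r := by
  have e : ∀ i j, HasDerivWithinAt (fun z => φ z i j) ((φ r * x) i j) s r := fun i j =>
    ((entW i j).restrictScalars ℝ).hasFDerivAt.comp_hasDerivWithinAt r h
  have := ((e 0 0).mul (e 1 1)).sub ((e 0 1).mul (e 1 0))
  rw [← HolMat_alg]
  simp only [Matrix.det_fin_two]
  exact this

theorem det_Hol {a : ℝ → MW} (ha : ContinuousOn a (Icc 0 1)) (ht : ∀ r ∈ Icc (0:ℝ) 1, trW (a r) = 0) :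
    ∀ r ∈ Icc (0:ℝ) 1, (Hol a r).det = 1 := by
  have hd : ∀ r ∈ Icc (0:ℝ) 1, HasDerivWithinAt (fun z => (Hol a z).det) 0 (Icc 0 1) r := by
    intro r hr
    have := HolMat_det_real (Hol_isSol ha r hr)
    rwa [ht r hr, mul_zero] at this
  intro r hr
  have := constant_of_has_deriv_right_zero (f := fun z => (Hol a z).det) (a := 0) (b := 1)
    (fun r hr => (hd r hr).continuousWithinAt)
    (fun r hr => (hd r (Ico_subset_Icc_self hr)).mono_of_mem_nhdsWithin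
      (Icc_mem_nhdsGE_of_mem hr)) r hr
  rw [this, Hol_zero, Matrix.det_one]

theorem Hol_MGE {a : ℝ → MW} (ha : ContinuousOn a (Icc 0 1)) (ht : ∀ r ∈ Icc (0:ℝ) 1, MGE 0 (a r)) :
    ∀ r ∈ Icc (0:ℝ) 1, MGE 0 (Hol a r) := by
  obtain ⟨B, hB, hm⟩ := exists_posAlg
  intro r hr
  exact (hm _).1 (Hol_mem ha B hB (fun s hs => (hm _).2 (ht s hs)) r hr)

theorem sharp_Hol {a : ℝ → MW} (ha : ContinuousOn a (Icc 0 1))
    (ht : ∀ r ∈ Icc (0:ℝ) 1, sharp (a r) = a r) : ∀ r ∈ Icc (0:ℝ) 1, sharp (Hol a r) = Hol a r := by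
  intro r hr
  rw [Hol_map sharp sharp_one sharp_mul ha r hr]
  exact (Hol_congr ha (fun s hs => (ht s hs).symm) r hr).symm

theorem sharp_Hol_rev {a : ℝ → MW} (ha : ContinuousOn a (Icc 0 1))
    (ht : ∀ r ∈ Icc (0:ℝ) 1, trW (a r) = 0) (hs : ∀ r ∈ Icc (0:ℝ) 1, sharp (a r) = -a (1 - r)) :
    sharp (Hol a 1) = adj (Hol a 1) ∧ sharp (Hol a (1/2)) = adj (Hol a 1) * Hol a (1/2) := by
  have h1 : (1:ℝ) ∈ Icc (0:ℝ) 1 := right_mem_Icc.2 zero_le_one
  have h2 : (1/2:ℝ) ∈ Icc (0:ℝ) 1 := ⟨by norm_num, by norm_num⟩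
  have hd := det_Hol ha ht 1 h1
  have e1 := Hol_rev sharp sharp_one sharp_mul ha hs 1 h1
  have e2 := Hol_rev sharp sharp_one sharp_mul ha hs (1/2) h2
  rw [sub_self, Hol_zero] at e1
  rw [show (1:ℝ) - 1/2 = 1/2 by norm_num] at e2
  refine ⟨eq_adj_of_mul hd e1, ?_⟩
  calc sharp (Hol a (1/2)) = adj (Hol a 1) * (Hol a 1 * sharp (Hol a (1/2))) := by
        rw [← mul_assoc, adj_mul_of_det hd, one_mul]
    _ = adj (Hol a 1) * Hol a (1/2) := by rw [e2]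

theorem sw_Hol_rev {a : ℝ → MW} (ha : ContinuousOn a (Icc 0 1))
    (ht : ∀ r ∈ Icc (0:ℝ) 1, trW (a r) = 0) (hs : ∀ r ∈ Icc (0:ℝ) 1, sw (a r) = -a (1 - r)) :
    sw (Hol a 1) = adj (Hol a 1) := by
  have h1 : (1:ℝ) ∈ Icc (0:ℝ) 1 := right_mem_Icc.2 zero_le_one
  have hd := det_Hol ha ht 1 h1
  have e1 := Hol_rev (sw.restrictScalars ℝ) sw_one sw_mul ha hs 1 h1
  rw [sub_self, Hol_zero] at e1
  exact eq_adj_of_mul hd e1

theorem hasDerivAt_det {Φ : ℂ → MW} {x : MW} {z : ℂ} (h : HasDerivAt Φ (Φ z * x) z) :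
    HasDerivAt (fun z => (Φ z).det) ((Φ z).det * trW x) z := by
  have e : ∀ i j, HasDerivAt (fun w => Φ w i j) ((Φ z * x) i j) z := fun i j =>
    (entW i j).hasFDerivAt.comp_hasDerivAt z h
  have := ((e 0 0).mul (e 1 1)).sub ((e 0 1).mul (e 1 0))
  rw [← HolMat_alg]
  simp only [Matrix.det_fin_two]
  exact this

theorem frame_det {O : Set ℂ} (hO : IsOpen O) (hc : IsPreconnected O) {Φ ξ : ℂ → MW}
    (h : ∀ z ∈ O, HasDerivAt Φ (Φ z * ξ z) z) (ht : ∀ z ∈ O, trW (ξ z) = 0) {w : ℂ} (hw : w ∈ O)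
    (h1 : (Φ w).det = 1) : ∀ z ∈ O, (Φ z).det = 1 := by
  intro z hz
  rw [← h1]
  refine const_of_deriv_zero (F := fun z => (Φ z).det) hO (fun u hu => ?_) hc Subset.rfl hz hw
  have := hasDerivAt_det (h u hu)
  rwa [ht u hu, mul_zero] at this

/-- the conjugate frame -/
theorem hasDerivAt_sharp_conj {Φ : ℂ → MW} {D : MW} {z : ℂ} (h : HasDerivAt Φ D (conj z)) :
    HasDerivAt (fun w => sharp (Φ (conj w))) (sharp D) z := by
  rw [hasDerivAt_iff_isLittleO] at h ⊢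
  have hc : Filter.Tendsto (fun w : ℂ => conj w) (𝓝 z) (𝓝 (conj z)) :=
    continuous_conj.tendsto z
  have h2 := h.comp_tendsto hc
  refine Asymptotics.IsLittleO.of_norm_norm ?_
  refine h2.norm_norm.congr (fun w => ?_) (fun w => ?_)
  · simp only [Function.comp]
    rw [← norm_sharp, map_sub, map_sub, sharp_smul, map_sub, conj_conj, conj_conj]
  · simp only [Function.comp]
    rw [← map_sub, Complex.norm_conj]

/-- two solutions differ by a constant left factor on a preconnected set -/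
theorem frame_ratio {O S : Set ℂ} (hO : IsOpen O) {ξ Φ Ψ : ℂ → MW} (hξ : ContinuousOn ξ O)
    (hΦ : ∀ z ∈ O, HasDerivAt Φ (Φ z * ξ z) z) (hΨ : ∀ z ∈ O, HasDerivAt Ψ (Ψ z * ξ z) z)
    (hS : IsPreconnected S) (hSO : S ⊆ O) {w : ℂ} (hw : w ∈ S) {L : MW} (he : Φ w = L * Ψ w) :
    ∀ z ∈ S, Φ z = L * Ψ z :=
  frame_unique (Ψ := fun z => L * Ψ z) hO hξ hΦ
    (fun z hz => by rw [mul_assoc]; exact (hΨ z hz).const_mul L) hS hSO hw he

end Pool.Agent.MP_efb2da_gt
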