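import Pool.Agent.MP_efb2da_gt.MatApi2

open Set Complex
open scoped Topology ComplexConjugate Matrix ContDiff

noncomputable section

namespace Pool.Agent.MP_efb2da_gt

lemma iw1_ext {M N : MW} (h : ∀ i j n, W.coef n (M i j) = W.coef n (N i j)) : M = N :=
  Matrix.ext fun i j => W.ext_coef (h i j)

lemma iw1_add (X : MW) : prj (Ici 0) X + prj (Iio 0) X = X := iw1_ext fun i j n => by
  rw [Matrix.add_apply, map_add, prj_apply, prj_apply, W.coef_proj, W.coef_proj]
  by_cases h : 0 ≤ n
  · simp [h]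
  · simp [h, not_le.1 h]

lemma iw1_pp (S : Set ℤ) (X : MW) : prj S (prj S X) = prj S X := iw1_ext fun i j n => by
  simp only [prj_apply, W.coef_proj]
  split_ifs <;> rfl

lemma iw1_pm (X : MW) : prj (Ici 0) (prj (Iio 0) X) = 0 := iw1_ext fun i j n => by
  simp only [prj_apply, W.coef_proj, Matrix.zero_apply, map_zero]
  by_cases h : 0 ≤ n
  · simp [h]
  · simp [h]

lemma iw1_mp (X : MW) : prj (Iio 0) (prj (Ici 0) X) = 0 := iw1_ext fun i j n => by
  simp only [prj_apply, W.coef_proj, Matrix.zero_apply, map_zero]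
  by_cases h : 0 ≤ n
  · simp [h]
  · simp [h]

lemma iw1_toep (P X : MW) :
    toep P X = prj (Ici 0) (P * prj (Ici 0) X) + prj (Iio 0) X := rfl

lemma iw1_p_toep (P X : MW) : prj (Ici 0) (toep P X) = prj (Ici 0) (P * prj (Ici 0) X) := by
  rw [iw1_toep, map_add, iw1_pp, iw1_pm, add_zero]

lemma iw1_m_toep (P X : MW) : prj (Iio 0) (toep P X) = prj (Iio 0) X := by
  rw [iw1_toep, map_add, iw1_pp, iw1_mp, zero_add]

lemma iw1_sq_zero {Y : MW} (h : cf 0 (st Y * Y) = 0) : Y = 0 := by
  refine iw1_ext fun i j n => ?_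
  have h1 := congrArg (fun M : MC => (M j j).re) h
  simp only [cf_apply, matApi2_mulW, st_apply, map_add, add_re, Matrix.zero_apply,
    zero_re] at h1
  have a0 := W.sq_coef_le n (Y 0 j)
  have a1 := W.sq_coef_le n (Y 1 j)
  have b0 := sq_nonneg ‖W.coef n (Y 0 j)‖
  have b1 := sq_nonneg ‖W.coef n (Y 1 j)‖
  have c0 : ‖W.coef n (Y 0 j)‖ ^ 2 = 0 := by linarith
  have c1 : ‖W.coef n (Y 1 j)‖ ^ 2 = 0 := by linarith
  rw [Matrix.zero_apply, map_zero]
  fin_cases i
  · simpa using c0
  · simpa using c1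

lemma iw1_inj {Ψ : MW} (h : Ψ.det = 1) {X : MW} (hX : toep (st Ψ * Ψ) X = 0) : X = 0 := by
  have hm : prj (Iio 0) X = 0 := by rw [← iw1_m_toep (st Ψ * Ψ), hX, map_zero]
  have hp : prj (Ici 0) X = X := by
    have := iw1_add X
    rwa [hm, add_zero] at this
  have hP : prj (Ici 0) (st Ψ * Ψ * X) = 0 := by
    have := iw1_p_toep (st Ψ * Ψ) X
    rw [hX, map_zero, hp] at this
    exact this.symm
  have g : MGE 0 X := fun i j n hn => by
    have := congrArg (fun M : MW => W.coef n (M i j)) hm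
    simpa [W.coef_proj, hn] using this
  have l : MLE (-1) (st Ψ * Ψ * X) := fun i j n hn => by
    have := congrArg (fun M : MW => W.coef n (M i j)) hP
    have hn' : 0 ≤ n := by omega
    simpa only [prj_apply, W.coef_proj, mem_Ici, hn', if_true, Matrix.zero_apply, map_zero]
      using this
  have l0 : MLE 0 (st X) := MLE_st.2 (by simpa using g)
  have l1 := MLE_iff.1 (l0.mul l) 0 (by norm_num)
  have e : st X * (st Ψ * Ψ * X) = st (Ψ * X) * (Ψ * X) := by
    rw [st_mul]; simp only [mul_assoc]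
  rw [e] at l1
  have y := iw1_sq_zero l1
  calc X = adj Ψ * (Ψ * X) := by rw [← mul_assoc, adj_mul_of_det h, one_mul]
    _ = 0 := by rw [y, mul_zero]

lemma iw1_single (i j : Fin 2) : Continuous fun w : W => (Matrix.single i j w : MW) := by
  refine continuous_matrix fun a b => ?_
  simp only [Matrix.single_apply]
  split_ifs
  · exact continuous_id
  · exact continuous_const

lemma iw1_compact (P : MW) :
    IsCompactOperator fun X : MW => prj (Ici 0) (P * prj (Iio 0) X) := by
  have H : ∀ i j k : Fin 2, IsCompactOperator fun X : MW =>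
      (Matrix.single i j (W.proj (Ici 0) (P i k * W.proj (Iio 0) (X k j))) : MW) := fun i j k =>
    ((W.isCompactOperator_hankel (P i k)).comp_clm (entW k j)).continuous_comp (iw1_single i j)
  have := ((((H 0 0 0).add (H 0 0 1)).add ((H 0 1 0).add (H 0 1 1))).add
    ((H 1 0 0).add (H 1 0 1))).add ((H 1 1 0).add (H 1 1 1))
  refine (congrArg (fun f : MW → MW => IsCompactOperator f) ?_).mpr this
  funext X
  refine Matrix.ext fun a b => ?_
  rw [prj_apply, matApi2_mulW, map_add]
  fin_cases a <;> fin_cases b <;> simp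

theorem isUnit_toep {Φ : MW} (h : Φ.det = 1) : IsUnit (toep (st Φ * Φ)) := by
  set Ψ : MW := st (adj Φ) with hΨ
  have hd : Ψ.det = 1 := by rw [hΨ, det_st, det_adj, h, W.cj_one, W.rev_one]
  have hPQ : st Φ * Φ * (st Ψ * Ψ) = 1 := by
    rw [hΨ, st_st, mul_assoc, ← mul_assoc Φ, mul_adj_of_det h, one_mul, ← st_mul,
      adj_mul_of_det h, st_one]
  set P := st Φ * Φ with hP
  set Q := st Ψ * Ψ with hQ
  let K : MW →L[ℂ] MW := ((prj (Ici 0)).comp ((ContinuousLinearMap.mul ℂ MW P).comp
    (prj (Iio 0)))).comp ((ContinuousLinearMap.mul ℂ MW Q).comp (prj (Ici 0)))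
  have hK : IsCompactOperator K :=
    (iw1_compact P).comp_clm ((ContinuousLinearMap.mul ℂ MW Q).comp (prj (Ici 0)))
  have key : ∀ X, toep P (toep Q X) = X - K X := by
    intro X
    change _ = X - prj (Ici 0) (P * prj (Iio 0) (Q * prj (Ici 0) X))
    rw [iw1_toep P, iw1_p_toep, iw1_m_toep, eq_sub_iff_add_eq, add_right_comm, ← map_add,
      ← mul_add, iw1_add, ← mul_assoc, hPQ, one_mul, iw1_pp, iw1_add]
  have hinj : Function.Injective (toep P) :=
    (injective_iff_map_eq_zero _).2 fun X hX => iw1_inj h hX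
  rcases hK.hasEigenvalue_or_mem_resolventSet (μ := 1) one_ne_zero with he | hr
  · obtain ⟨X, hX, hX0⟩ := he.exists_hasEigenvector
    have h1 : K X = X := by simpa using Module.End.mem_eigenspace_iff.1 hX
    have h2 : toep P (toep Q X) = 0 := by rw [key, h1, sub_self]
    exact absurd (iw1_inj hd (iw1_inj h h2)) hX0
  · have hu : IsUnit (algebraMap ℂ (MW →L[ℂ] MW) 1 - K) := hr
    rw [map_one] at hu
    refine ContinuousLinearMap.isUnit_iff_bijective.2 ⟨hinj, fun Y => ?_⟩
    obtain ⟨X, hX⟩ := (ContinuousLinearMap.isUnit_iff_bijective.1 hu).2 Y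
    exact ⟨toep Q X, by rw [key]; exact hX⟩

end Pool.Agent.MP_efb2da_gt
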