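import Pool.Agent.MP_efb2da_gt.Iw1

open Set Complex
open scoped Topology ComplexConjugate Matrix ContDiff

noncomputable section

namespace Pool.Agent.MP_efb2da_gt

open Classical in
lemma Iw2_cf_prj (S : Set ℤ) (n : ℤ) (M : MW) :
    cf n (prj S M) = if n ∈ S then cf n M else 0 := by
  ext i j
  rw [cf_apply, prj_apply, W.coef_proj]
  split_ifs <;> simp

lemma Iw2_cf_one (n : ℤ) : cf n 1 = if n = 0 then 1 else 0 := by
  rw [← cst_one, cf_cst]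

lemma Iw2_ct_one : ct 1 = 1 := by rw [ct_eq, Matrix.conjTranspose_one]

lemma Iw2_cjC_one : cjC 1 = 1 := by
  ext i j
  rw [cjC_apply, Matrix.one_apply]
  split_ifs <;> simp

lemma Iw2_toep_apply (P X : MW) :
    toep P X = prj (Ici 0) (P * prj (Ici 0) X) + prj (Iio 0) X := rfl

lemma Iw2_toep_Xi0 {Φ : MW} (h : Φ.det = 1) : toep (st Φ * Φ) (Xi0 (st Φ) Φ) = 1 := by
  have := Ring.mul_inverse_cancel _ (isUnit_toep h)
  exact congrArg (fun f : MW →L[ℂ] MW => f 1) this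

lemma Iw2_X_pos {Φ : MW} (h : Φ.det = 1) : MGE 0 (Xi0 (st Φ) Φ) := by
  rw [MGE_iff]
  intro n hn
  have := congrArg (cf n) (Iw2_toep_Xi0 h)
  rw [Iw2_toep_apply, map_add, Iw2_cf_prj, Iw2_cf_prj, Iw2_cf_one, if_neg (by simpa using hn),
    if_pos (by simpa using hn), if_neg hn.ne, zero_add] at this
  exact this

lemma Iw2_prj_of_MGE {X : MW} (hX : MGE 0 X) : prj (Ici 0) X = X := by
  refine MW_ext fun n => ?_
  rw [Iw2_cf_prj]
  split_ifs with hn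
  · rfl
  · exact (MGE_iff.1 hX n (by simpa using hn)).symm

lemma Iw2_cf_PX {Φ : MW} (h : Φ.det = 1) {n : ℤ} (hn : 0 ≤ n) :
    cf n (st Φ * Φ * Xi0 (st Φ) Φ) = if n = 0 then 1 else 0 := by
  have := congrArg (cf n) (Iw2_toep_Xi0 h)
  rw [Iw2_toep_apply, map_add, Iw2_cf_prj, Iw2_cf_prj, Iw2_cf_one, if_pos (by simpa using hn),
    if_neg (by simpa using hn), add_zero, Iw2_prj_of_MGE (Iw2_X_pos h)] at this
  exact this

lemma Iw2_PX_neg {Φ : MW} (h : Φ.det = 1) : MLE 0 (st Φ * Φ * Xi0 (st Φ) Φ) := by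
  rw [MLE_iff]
  intro n hn
  rw [Iw2_cf_PX h hn.le, if_neg hn.ne']

lemma Iw2_LE_det {M : MW} (hM : MLE 0 M) :
    W.LE 0 M.det ∧ W.coef 0 M.det = (cf 0 M).det := by
  have h1 := (hM 0 0).mul (hM 1 1)
  have h2 := (hM 0 1).mul (hM 1 0)
  have h3 := (hM 0 0).coef_mul (hM 1 1)
  have h4 := (hM 0 1).coef_mul (hM 1 0)
  rw [add_zero] at h1 h2 h3 h4
  rw [Matrix.det_fin_two, Matrix.det_fin_two]
  refine ⟨?_, ?_⟩
  · rw [sub_eq_add_neg]; exact h1.add h2.neg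
  · rw [map_sub, h3, h4]; rfl

lemma Iw2_det_X {Φ : MW} (h : Φ.det = 1) : (Xi0 (st Φ) Φ).det = 1 := by
  have e : (st Φ * Φ * Xi0 (st Φ) Φ).det = (Xi0 (st Φ) Φ).det := by
    rw [Matrix.det_mul, Matrix.det_mul, det_st, h]; simp
  obtain ⟨h1, h2⟩ := Iw2_LE_det (Iw2_PX_neg h)
  have h3 := (Iw2_X_pos h).det
  rw [add_zero] at h3
  rw [e] at h1 h2
  rw [Iw2_cf_PX h le_rfl, if_pos rfl, Matrix.det_one] at h2
  rw [W.eq_const h3 h1, h2, map_one]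

lemma Iw2_det_F0 {Φ : MW} (h : Φ.det = 1) : (J0 (Φ * Xi0 (st Φ) Φ)).det = 1 := by
  rw [det_J0, Matrix.det_mul, h, Iw2_det_X h, one_mul, W.j0_one]

lemma Iw2_isUnitC {M : MC} (h : M.det = 1) : IsUnit M :=
  ⟨⟨M, adjC M, mul_adjC_of_det h, adjC_mul_of_det h⟩, rfl⟩

lemma Iw2_inverseC {M : MC} (h : M.det = 1) : Ring.inverse M = adjC M := by
  have := Ring.inverse_mul_cancel M (Iw2_isUnitC h)
  calc Ring.inverse M = Ring.inverse M * (M * adjC M) := by rw [mul_adjC_of_det h, mul_one]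
    _ = adjC M := by rw [← mul_assoc, this, one_mul]

lemma Iw2_det_adjC {M : MC} (h : M.det = 1) : (adjC M).det = 1 := by
  have := congrArg Matrix.det (mul_adjC_of_det h)
  rwa [Matrix.det_mul, h, one_mul, Matrix.det_one] at this

lemma Iw2_Bi_eq {Φ : MW} (h : Φ.det = 1) :
    Bi Φ = Xi0 (st Φ) Φ * cst (adjC (J0 (Φ * Xi0 (st Φ) Φ))) := by
  rw [← Iw2_inverseC (Iw2_det_F0 h)]; rfl

lemma Iw2_Uf_eq {Φ : MW} (h : Φ.det = 1) :
    Uf Φ = Φ * Xi0 (st Φ) Φ * cst (adjC (J0 (Φ * Xi0 (st Φ) Φ))) := by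
  rw [Uf, Iw2_Bi_eq h, mul_assoc]

lemma Iw2_FF {Φ : MW} (h : Φ.det = 1) :
    st (Φ * Xi0 (st Φ) Φ) * (Φ * Xi0 (st Φ) Φ) =
      cst (ct (J0 (Φ * Xi0 (st Φ) Φ)) * J0 (Φ * Xi0 (st Φ) Φ)) := by
  set X := Xi0 (st Φ) Φ with hX
  have h1 : MLE 0 (st (Φ * X) * (Φ * X)) := by
    have e : st (Φ * X) * (Φ * X) = st X * (st Φ * Φ * X) := by
      rw [st_mul]; simp only [mul_assoc]
    have := (MLE_st.2 (by simpa using Iw2_X_pos h) : MLE 0 (st X)).mul (Iw2_PX_neg h)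
    rw [add_zero] at this
    rw [e]; exact this
  have h2 : MGE 0 (st (Φ * X) * (Φ * X)) := by
    have e : st (st (Φ * X) * (Φ * X)) = st (Φ * X) * (Φ * X) := by
      rw [st_mul (st (Φ * X)), st_st]
    rw [← e]
    exact MGE_st.2 (by simpa using h1)
  have h3 := eq_cst h2 h1
  have h4 := congrArg J0 h3
  rw [J0_mul, J0_st, J0_cst] at h4
  rw [h4]; exact h3

theorem isUnit_J0 {Φ : MW} (h : Φ.det = 1) : IsUnit (J0 (Φ * Xi0 (st Φ) Φ)) :=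
  Iw2_isUnitC (Iw2_det_F0 h)

theorem Uf_unitary {Φ : MW} (h : Φ.det = 1) : st (Uf Φ) * Uf Φ = 1 := by
  have hF := Iw2_FF h
  have hd := Iw2_det_F0 h
  rw [Iw2_Uf_eq h]
  set F := Φ * Xi0 (st Φ) Φ
  set F0 := J0 F
  have e : st (F * cst (adjC F0)) * (F * cst (adjC F0)) =
      cst (ct (adjC F0)) * (st F * F) * cst (adjC F0) := by
    rw [st_mul, st_cst]; simp only [mul_assoc]
  rw [e, hF, ← cst_mul, ← cst_mul, ← mul_assoc, ← ct_mul, mul_adjC_of_det hd, Iw2_ct_one, one_mul,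
    mul_adjC_of_det hd, cst_one]

theorem J0_Uf {Φ : MW} (h : Φ.det = 1) : J0 (Uf Φ) = 1 := by
  rw [Iw2_Uf_eq h, J0_mul, J0_cst, mul_adjC_of_det (Iw2_det_F0 h)]

theorem Bi_pos {Φ : MW} (h : Φ.det = 1) : MGE 0 (Bi Φ) := by
  have := (Iw2_X_pos h).mul (MGE_cst (adjC (J0 (Φ * Xi0 (st Φ) Φ))))
  rw [add_zero] at this
  rw [Iw2_Bi_eq h]; exact this

theorem det_Bi {Φ : MW} (h : Φ.det = 1) : (Bi Φ).det = 1 := by
  rw [Iw2_Bi_eq h, Matrix.det_mul, Iw2_det_X h, det_cst, Iw2_det_adjC (Iw2_det_F0 h), map_one,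
    one_mul]

theorem det_Uf {Φ : MW} (h : Φ.det = 1) : (Uf Φ).det = 1 := by
  rw [Uf, Matrix.det_mul, h, det_Bi h, one_mul]

theorem Bm_pos {Φ : MW} (h : Φ.det = 1) : MGE 0 (Bm Φ) := (Bi_pos h).adj

theorem det_Bm {Φ : MW} (h : Φ.det = 1) : (Bm Φ).det = 1 := by
  rw [Bm, det_adj, det_Bi h]

theorem Bm_mul_Bi {Φ : MW} (h : Φ.det = 1) : Bm Φ * Bi Φ = 1 := adj_mul_of_det (det_Bi h)
theorem Bi_mul_Bm {Φ : MW} (h : Φ.det = 1) : Bi Φ * Bm Φ = 1 := mul_adj_of_det (det_Bi h)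
theorem adj_Bm (Φ : MW) : adj (Bm Φ) = Bi Φ := adj_adj _

theorem Uf_mul_Bm {Φ : MW} (h : Φ.det = 1) : Uf Φ * Bm Φ = Φ := by
  rw [Uf, mul_assoc, Bi_mul_Bm h, mul_one]

lemma Iw2_st_eq_adj {U : MW} (hU : st U * U = 1) (hdU : U.det = 1) : st U = adj U := by
  calc st U = st U * (U * adj U) := by rw [mul_adj_of_det hdU, mul_one]
    _ = adj U := by rw [← mul_assoc, hU, one_mul]

theorem st_Uf {Φ : MW} (h : Φ.det = 1) : st (Uf Φ) = adj (Uf Φ) :=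
  Iw2_st_eq_adj (Uf_unitary h) (det_Uf h)

theorem iw_unique {U B : MW} (hU : st U * U = 1) (hdU : U.det = 1) (h0 : J0 U = 1) (hB : MGE 0 B)
    (hdB : B.det = 1) : Uf (U * B) = U ∧ Bm (U * B) = B := by
  have h : (U * B).det = 1 := by rw [Matrix.det_mul, hdU, hdB, one_mul]
  have e1 : adj U * Uf (U * B) = B * Bi (U * B) := by
    rw [Uf, ← mul_assoc, ← mul_assoc, adj_mul_of_det hdU, one_mul]
  have hV : MGE 0 (adj U * Uf (U * B)) := by
    have := hB.mul (Bi_pos h)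
    rw [add_zero] at this
    rw [e1]; exact this
  have e2 : st (adj U * Uf (U * B)) = adj (adj U * Uf (U * B)) := by
    rw [st_mul, adj_mul, adj_adj, st_Uf h, ← Iw2_st_eq_adj hU hdU, st_st]
  have hV' : MLE 0 (adj U * Uf (U * B)) := by
    have : MGE 0 (st (adj U * Uf (U * B))) := by rw [e2]; exact hV.adj
    simpa using MGE_st.1 this
  have h3 := eq_cst hV hV'
  have h4 := congrArg J0 h3
  rw [J0_mul, J0_adj, h0, J0_Uf h, J0_cst, adjC_one, one_mul] at h4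
  rw [← h4, cst_one] at h3
  refine ⟨?_, ?_⟩
  · calc Uf (U * B) = U * adj U * Uf (U * B) := by rw [mul_adj_of_det hdU, one_mul]
      _ = U := by rw [mul_assoc, h3, mul_one]
  · rw [e1] at h3
    rw [Bm, eq_adj_of_mul hdB h3, adj_adj]

theorem iw_gauge {Φ M g : MW} (h : Φ.det = 1) (hM : st M * M = 1) (hdM : M.det = 1) (hg : MGE 0 g)
    (hdg : g.det = 1) : Uf (M * Φ * g) = M * Uf Φ * cst (adjC (J0 M)) ∧
      Bm (M * Φ * g) = cst (J0 M) * Bm Φ * g := by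
  have d0 : (J0 M).det = 1 := by rw [det_J0, hdM, W.j0_one]
  have c0 : ct (adjC (J0 M)) = J0 M := by
    rw [← J0_adj, ← Iw2_st_eq_adj hM hdM, J0_st, ct_ct]
  have e : M * Φ * g = (M * Uf Φ * cst (adjC (J0 M))) * (cst (J0 M) * Bm Φ * g) := by
    calc M * Φ * g = M * (Uf Φ * (cst (adjC (J0 M) * J0 M)) * Bm Φ) * g := by
          rw [adjC_mul_of_det d0, cst_one, mul_one, Uf_mul_Bm h]
      _ = _ := by rw [cst_mul]; simp only [mul_assoc]
  rw [e]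
  refine iw_unique ?_ ?_ ?_ (MGE.conj (MGE_cst _) (Bm_pos h) hg) ?_
  · calc st (M * Uf Φ * cst (adjC (J0 M))) * (M * Uf Φ * cst (adjC (J0 M)))
        = cst (J0 M) * (st (Uf Φ) * (st M * M) * Uf Φ) * cst (adjC (J0 M)) := by
          rw [st_mul, st_mul, st_cst, c0]; simp only [mul_assoc]
      _ = 1 := by
          rw [hM, mul_one, Uf_unitary h, mul_one, ← cst_mul, mul_adjC_of_det d0, cst_one]
  · rw [Matrix.det_mul, Matrix.det_mul, hdM, det_Uf h, det_cst, Iw2_det_adjC d0, map_one]; simp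
  · rw [J0_mul, J0_mul, J0_Uf h, J0_cst, mul_one, mul_adjC_of_det d0]
  · rw [Matrix.det_mul, Matrix.det_mul, det_cst, d0, det_Bm h, hdg, map_one]; simp

lemma Iw2_sharp {Φ : MW} (h : Φ.det = 1) :
    Uf (sharp Φ) = sharp (Uf Φ) ∧ Bm (sharp Φ) = sharp (Bm Φ) := by
  have e : sharp Φ = sharp (Uf Φ) * sharp (Bm Φ) := by rw [← sharp_mul, Uf_mul_Bm h]
  rw [e]
  refine iw_unique ?_ ?_ ?_ (Bm_pos h).sharp ?_
  · rw [st_sharp, ← sharp_mul, Uf_unitary h, sharp_one]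
  · rw [det_sharp, det_Uf h, W.cj_one]
  · rw [J0_sharp, J0_Uf h, Iw2_cjC_one]
  · rw [det_sharp, det_Bm h, W.cj_one]

theorem Uf_sharp {Φ : MW} (h : Φ.det = 1) : Uf (sharp Φ) = sharp (Uf Φ) := (Iw2_sharp h).1
theorem Bm_sharp {Φ : MW} (h : Φ.det = 1) : Bm (sharp Φ) = sharp (Bm Φ) := (Iw2_sharp h).2
theorem Bi_sharp {Φ : MW} (h : Φ.det = 1) : Bi (sharp Φ) = sharp (Bi Φ) := by
  rw [← adj_Bm, Bm_sharp h, ← sharp_adj, adj_Bm]

lemma Iw2_s1_sq : s1 * s1 = 1 := by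
  ext i j; fin_cases i <;> fin_cases j <;> simp [s1, Matrix.mul_apply, Fin.sum_univ_two]

lemma Iw2_st_sw (M : MW) : st (sw M) = sw (st M) := by
  ext i j; fin_cases i <;> fin_cases j <;> simp [sw_apply]

theorem Uf_sw {Φ : MW} (h : Φ.det = 1) : Uf (sw Φ) = sw (Uf Φ) := by
  have e : sw Φ = sw (Uf Φ) * sw (Bm Φ) := by rw [← sw_mul, Uf_mul_Bm h]
  rw [e]
  refine (iw_unique ?_ ?_ ?_ (Bm_pos h).sw ?_).1
  · rw [Iw2_st_sw, ← sw_mul, Uf_unitary h, sw_one]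
  · rw [det_sw, det_Uf h]
  · rw [sw_eq, J0_mul, J0_mul, J0_cst, J0_Uf h, mul_one, Iw2_s1_sq]
  · rw [det_sw, det_Bm h]

lemma Iw2_one : Uf 1 = 1 ∧ Bm 1 = 1 := by
  have := iw_unique (U := 1) (B := 1) (by simp) Matrix.det_one J0_one MGE_one Matrix.det_one
  rwa [one_mul] at this

theorem Uf_one : Uf 1 = 1 := Iw2_one.1
theorem Bm_one : Bm 1 = 1 := Iw2_one.2
theorem Bi_one : Bi 1 = 1 := by rw [← adj_Bm, Bm_one, adj_one]

theorem symM_herm {Φ : MW} (h : Φ.det = 1) : ct (symM Φ) = symM Φ := by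
  have := congrArg J1 (Uf_unitary h)
  rw [J1_mul, J1_st, J0_st, J0_Uf h, Iw2_ct_one, mul_one, one_mul, J1_one, neg_add_eq_zero] at this
  exact this

theorem symM_tr {Φ : MW} (h : Φ.det = 1) : trC (symM Φ) = 0 := by
  have := congrArg J1 (mul_adj_of_det (det_Uf h))
  rw [J1_mul, J0_adj, J1_adj, J0_Uf h, adjC_one, mul_one, one_mul, J1_one] at this
  have h2 := congrFun (congrFun this 0) 0
  rw [Matrix.add_apply, adjC_apply] at h2
  rw [trC_apply]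
  exact h2

theorem symM_sharp {Φ : MW} (h : Φ.det = 1) : symM (sharp Φ) = cjC (symM Φ) := by
  rw [symM, Uf_sharp h, J1_sharp, symM]

theorem symM_sw {Φ : MW} (h : Φ.det = 1) : symM (sw Φ) = s1 * symM Φ * s1 := by
  rw [symM, Uf_sw h, sw_eq, J1_mul, J1_mul, J1_cst, J0_cst, zero_mul, mul_zero, zero_add, add_zero,
    symM]

theorem symM_gauge {Φ g : MW} (h : Φ.det = 1) (hg : MGE 0 g) (hdg : g.det = 1) :
    symM (Φ * g) = symM Φ := by
  have := (iw_gauge (M := 1) h (by simp) Matrix.det_one hg hdg).1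
  rw [one_mul, one_mul, J0_one, adjC_one, cst_one, mul_one] at this
  rw [symM, this, symM]

lemma Iw2_contDiff_toep : ContDiff ℂ ∞ toep :=
  (contDiff_const.clm_comp
    ((ContinuousLinearMap.mul ℂ MW).contDiff.clm_comp contDiff_const)).add contDiff_const

lemma Iw2_inv_contDiffAt {R : Type} [NormedRing R] [NormedAlgebra ℂ R] [CompleteSpace R] {a : R}
    (ha : IsUnit a) : ContDiffAt ℂ ∞ Ring.inverse a := by
  obtain ⟨u, rfl⟩ := ha
  exact contDiffAt_ringInverse ℂ u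

lemma Iw2_xi0_contDiffAt {Φ : MW} (h : Φ.det = 1) :
    ContDiffAt ℂ ∞ (fun x : MW × MW => Xi0 x.1 x.2) (st Φ, Φ) := by
  have h1 : ContDiffAt ℂ ∞ (fun x : MW × MW => toep (x.1 * x.2)) (st Φ, Φ) :=
    Iw2_contDiff_toep.contDiffAt.comp _ (contDiffAt_fst.mul contDiffAt_snd)
  have h2 : ContDiffAt ℂ ∞ (fun x : MW × MW => Ring.inverse (toep (x.1 * x.2))) (st Φ, Φ) :=
    ContDiffAt.comp (g := Ring.inverse) (st Φ, Φ)
      (Iw2_inv_contDiffAt (R := MW →L[ℂ] MW) (isUnit_toep h)) h1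
  exact h2.clm_apply contDiffAt_const

theorem binv_contDiffAt {Φ : MW} (h : Φ.det = 1) :
    ContDiffAt ℂ ∞ (fun x : MW × MW => Binv x.1 x.2) (st Φ, Φ) := by
  have h1 := Iw2_xi0_contDiffAt h
  have h2 : ContDiffAt ℂ ∞ (fun x : MW × MW => J0 (x.2 * Xi0 x.1 x.2)) (st Φ, Φ) :=
    J0.contDiff.contDiffAt.comp _ (contDiffAt_snd.mul h1)
  have h3 : ContDiffAt ℂ ∞ (fun x : MW × MW => Ring.inverse (J0 (x.2 * Xi0 x.1 x.2))) (st Φ, Φ) :=
    ContDiffAt.comp (g := Ring.inverse) (st Φ, Φ) (Iw2_inv_contDiffAt (isUnit_J0 h)) h2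
  exact h1.mul (cst.contDiff.contDiffAt.comp _ h3)

theorem binv_near {Φ : MW} (h : Φ.det = 1) : ∀ᶠ x in 𝓝 (st Φ, Φ),
    DifferentiableAt ℂ (fun x : MW × MW => Binv x.1 x.2) x := by
  have h1 : ContDiffAt ℂ 1 (fun x : MW × MW => Binv x.1 x.2) (st Φ, Φ) :=
    (binv_contDiffAt h).of_le (by exact_mod_cast le_top)
  exact (h1.eventually (by simp)).mono fun y hy => hy.differentiableAt (by simp)

theorem contDiffAt_Bi {Φ : MW} (h : Φ.det = 1) : ContDiffAt ℝ ∞ Bi Φ := by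
  have h1 : ContDiffAt ℝ ∞ (fun x : MW × MW => Binv x.1 x.2) (st Φ, Φ) :=
    (binv_contDiffAt h).restrict_scalars ℝ
  have h2 : ContDiffAt ℝ ∞ (fun y : MW => (st y, y)) Φ :=
    st.contDiff.contDiffAt.prodMk contDiffAt_id
  have h3 := ContDiffAt.comp (g := fun x : MW × MW => Binv x.1 x.2) (f := fun y : MW => (st y, y))
    Φ h1 h2
  exact h3

theorem contDiffAt_Bm {Φ : MW} (h : Φ.det = 1) : ContDiffAt ℝ ∞ Bm Φ :=
  (adj.restrictScalars ℝ).contDiff.contDiffAt.comp Φ (contDiffAt_Bi h)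

theorem contDiffAt_Uf {Φ : MW} (h : Φ.det = 1) : ContDiffAt ℝ ∞ Uf Φ :=
  contDiffAt_id.mul (contDiffAt_Bi h)

theorem contDiffAt_symM {Φ : MW} (h : Φ.det = 1) : ContDiffAt ℝ ∞ symM Φ :=
  (J1.restrictScalars ℝ).contDiff.contDiffAt.comp Φ (contDiffAt_Uf h)

end Pool.Agent.MP_efb2da_gt
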