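import Pool.Agent.MP_efb2da_gt.Geo

/-! The finite dimensional limit problem. Traceless real matrices are triples of coefficients
of `σ₃, σ₁, J`. Parameters `y = (ψ₁, ψ₂, ψ₁', ψ₄, ψₑ, p₂, p₁', p₂')`. -/

open Set Real

noncomputable section

namespace Pool.Agent.MP_efb2da_gt

abbrev Y8 := Fin 8 → ℝ

def nilv (κ ψ : ℝ) : Fin 3 → ℝ := ![κ / 2 * sin ψ, -(κ / 2 * cos ψ), κ / 2]
/-- polarisation of the determinant -/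
def bil (u v : Fin 3 → ℝ) : ℝ := 2 * (u 2 * v 2 - u 0 * v 0 - u 1 * v 1)
def DD (c ψ : ℝ) : ℝ := √(sin ψ ^ 2 - 16 * c)
def rf (c ψ : ℝ) : ℝ := (sin ψ + DD c ψ) / 4
def rho (y : Y8) : ℝ := sin (y 0) / 2
def cc (y : Y8) : ℝ := rho y * sin (y 3) / 2 - rho y ^ 2
def rhoE (y : Y8) : ℝ := rf (cc y) (y 4)
def ell1 (y : Y8) : ℝ := ∫ ψ in y 0..π / 2, 1 / DD 0 ψ
def ell (y : Y8) : ℝ := ∫ ψ in y 4..y 3, 1 / DD (cc y) ψ
def yp (y : Y8) : Fin 3 → ℝ := ![y 5, y 6, y 7]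
/-- positions of the finite punctures `3, 1, 2, 1', 2'` -/
def pos (p : Fin 3 → ℝ) : Fin 5 → ℝ := ![0, 1, p 0, p 1, p 2]
def av (y : Y8) : Fin 5 → Fin 3 → ℝ :=
  ![nilv (-rhoE y) (y 4), nilv (-rho y) (y 0), nilv (rho y) (y 1), nilv (-rho y) (y 2),
    -(nilv (-rhoE y) (y 4) + nilv (-rho y) (y 0) + nilv (rho y) (y 1) + nilv (-rho y) (y 2) +
      nilv (rho y) (y 3))]
def resv (y : Y8) (j : Fin 5) : ℝ :=
  ∑ i ∈ Finset.univ.erase j, bil (av y j) (av y i) / (pos (yp y) j - pos (yp y) i)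
/-- the limit equations -/
def E0 (y : Y8) : Fin 8 → ℝ :=
  ![∫ ψ in y 4..y 3, rf (cc y) ψ * sin ψ / DD (cc y) ψ,
    rho y ^ 2 - rho y * sin (y 1) / 2, rho y ^ 2 - rho y * sin (y 2) / 2, rhoE y - rho y,
    bil (av y 4) (av y 4) / 2, resv y 2, resv y 3, resv y 4]
def pstar (ψ : ℝ) : ℝ :=
  √((1 - 2 * cos ψ ^ 2 - sin ψ * sin (arccos (2 * cos ψ))) /
    (1 + 2 * cos ψ ^ 2 - sin ψ * sin (arccos (2 * cos ψ))))
def ystar (ψ : ℝ) : Y8 :=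
  ![ψ, π - ψ, ψ, arccos (2 * cos ψ), -π - arccos (2 * cos ψ), pstar ψ, -1, -pstar ψ]
def Yadm (y : Y8) : Prop := 0 < y 0 ∧ y 0 < π / 2 ∧ cc y < 0 ∧ y 4 < y 3 ∧ AdmP (yp y)

end Pool.Agent.MP_efb2da_gt
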