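import Pool.Agent.MP_efb2da_gt.HolMat
import Pool.Agent.MP_efb2da_gt.Lim0

open Set Complex
open scoped Topology ComplexConjugate Matrix ContDiff

noncomputable section

namespace Pool.Agent.MP_efb2da_gt

def nilM (κ : ℂ) (ψ : ℝ) : MC :=
  (κ / 2) • (sJ + (Real.sin ψ : ℂ) • s3 - (Real.cos ψ : ℂ) • s1)

/-- Delaunay residue in the unitary frame -/
def zeta (e : ℝ) (a : MC) : MW :=
  cst ((e / 2 : ℂ) • s3) + mono (-1) a + mono 1 (trpC a) - cst (a + trpC a)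

theorem mat_nilv (κ ψ : ℝ) : mat (nilv κ ψ) = nilM κ ψ := by
  ext i j
  fin_cases i <;> fin_cases j <;> simp [mat, nilv, nilM, s1, s3, sJ] <;> ring

theorem det_mat (v : Fin 3 → ℝ) : (mat v).det = (bil v v / 2 : ℝ) := by
  simp [mat, bil, s1, s3, sJ, Matrix.det_fin_two]
  ring

theorem tr_adj_mat (u v : Fin 3 → ℝ) : trC (adjC (mat u) * mat v) = (bil u v : ℝ) := by
  simp [trC_apply, adjC_apply, mat, bil, s1, s3, sJ]
  ring

theorem mat_add (u v : Fin 3 → ℝ) : mat (u + v) = mat u + mat v := by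
  simp only [mat, Pi.add_apply, ofReal_add, add_smul]
  abel

theorem mat_neg (u : Fin 3 → ℝ) : mat (-u) = -mat u := by
  simp only [mat, Pi.neg_apply, ofReal_neg, neg_smul]
  abel

theorem det_nilM (κ : ℂ) (ψ : ℝ) : (nilM κ ψ).det = 0 := by
  have h : (Complex.sin ψ) ^ 2 + (Complex.cos ψ) ^ 2 = 1 := Complex.sin_sq_add_cos_sq _
  simp [nilM, s1, s3, sJ, Matrix.det_fin_two]
  linear_combination (-(κ / 2) ^ 2) * h

theorem cf_zeta (e : ℝ) (a : MC) : cf (-1) (zeta e a) = a := by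
  simp [zeta, cf_mono, cf_cst]

theorem zeta_ge (e : ℝ) (a : MC) : MGE (-1) (zeta e a) :=
  ((((MGE_cst _).weaken (by norm_num)).add (MGE_mono (-1) a)).add
    ((MGE_mono 1 _).weaken (by norm_num))).sub ((MGE_cst _).weaken (by norm_num))

theorem Lax_cf_zero (e : ℝ) (a : MC) : cf 0 (zeta e a) = (e / 2 : ℂ) • s3 - (a + trpC a) := by
  simp only [zeta, map_add, map_sub, cf_mono, cf_cst]
  simp

theorem coef_det_zeta {e : ℝ} (he : e = 1 ∨ e = -1) (ρ ψ : ℝ) :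
    W.coef (-1) (zeta e (nilM (e * ρ : ℝ) ψ)).det = (ρ ^ 2 - ρ * Real.sin ψ / 2 : ℝ) := by
  have h : (Complex.sin ψ) ^ 2 + (Complex.cos ψ) ^ 2 = 1 := Complex.sin_sq_add_cos_sq _
  have hg := zeta_ge e (nilM (e * ρ : ℝ) ψ)
  have h1 := W.GE.coef_mul_succ (hg 0 0) (hg 1 1)
  have h2 := W.GE.coef_mul_succ (hg 0 1) (hg 1 0)
  have e1 : (-1 + -1 + 1 : ℤ) = -1 := by norm_num
  have e2 : (-1 + 1 : ℤ) = 0 := by norm_num
  rw [e1, e2] at h1 h2
  rw [Matrix.det_fin_two, map_sub, h1, h2]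
  simp only [← cf_apply, cf_zeta, Lax_cf_zero]
  rcases he with rfl | rfl
  · simp [nilM, s1, s3, sJ]
    linear_combination (ρ : ℂ) ^ 2 * h
  · simp [nilM, s1, s3, sJ]
    linear_combination (ρ : ℂ) ^ 2 * h

/-- `M ↦ M λⁿ` as a continuous linear map -/
def LaxMono (n : ℤ) : MC →L[ℂ] MW := (ContinuousLinearMap.mul ℂ MW (mono n 1)).comp cst

theorem LaxMono_apply (n : ℤ) (M : MC) : LaxMono n M = mono n M := by
  change mono n 1 * cst M = _
  rw [← mono_zero, mono_mul, add_zero, one_mul]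

/-- linear part of the residue -/
def LaxZ : MC →L[ℂ] MW :=
  LaxMono (-1) + (LaxMono 1).comp trpC - cst.comp (ContinuousLinearMap.id ℂ MC + trpC)

/-- unitary part of the residue -/
def LaxAl : MC →L[ℂ] MW := LaxMono (-1) - cst - ((LaxMono 1).comp trpC - cst.comp trpC)

theorem LaxZ_apply (a : MC) : LaxZ a = mono (-1) a + mono 1 (trpC a) - cst (a + trpC a) := by
  simp [LaxZ, LaxMono_apply]

theorem LaxAl_apply (a : MC) :
    LaxAl a = mono (-1) a - cst a - (mono 1 (trpC a) - cst (trpC a)) := by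
  simp [LaxAl, LaxMono_apply]

theorem Lax_zeta_eq (e : ℝ) (a : MC) : zeta e a = cst ((e / 2 : ℂ) • s3) + LaxZ a := by
  rw [zeta, LaxZ_apply]
  abel

theorem Lax_trp_mul (M N : MC) : trpC (M * N) = trpC N * trpC M := by
  ext i j
  simp [Matrix.mul_apply, Fin.sum_univ_two, mul_comm]

theorem Lax_trp_trp (M : MC) : trpC (trpC M) = M := by
  ext i j
  simp

theorem Lax_trp_s3 : trpC s3 = s3 := by
  ext i j
  fin_cases i <;> fin_cases j <;> simp [s3]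

/-- right hand side of the Lax equation for the residue -/
def LaxR (e : ℝ) (a : MC) : MC :=
  ((e / 2 : ℂ) • s3) * a - a * ((e / 2 : ℂ) • s3) + (a * trpC a - trpC a * a) +
    (a * trpC a - trpC a * a)

theorem Lax_comm (e : ℝ) (a : MC) :
    zeta e a * LaxAl a - LaxAl a * zeta e a = LaxZ (LaxR e a) := by
  have h1 : W.mon (-1) * W.mon 1 = 1 := by rw [W.mon_mul_mon]; rfl
  have h2 : W.mon 1 * W.mon (-1) = 1 := by rw [W.mon_mul_mon]; rfl
  have h3 : trpC ((e / 2 : ℂ) • s3) = (e / 2 : ℂ) • s3 := by rw [map_smul, Lax_trp_s3]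
  rw [zeta, LaxZ_apply, LaxAl_apply, LaxR]
  generalize (e / 2 : ℂ) • s3 = S at h3 ⊢
  simp only [mono, map_add, map_sub, Lax_trp_mul, Lax_trp_trp, h3, cst_mul]
  generalize cst S = S'
  generalize cst a = P
  generalize cst (trpC a) = Q
  simp only [mul_add, add_mul, mul_sub, sub_mul, smul_mul_assoc, mul_smul_comm, smul_smul, h1, h2,
    one_smul, smul_add, smul_sub]
  module

theorem Lax_ct_nilM (κ ψ : ℝ) : ct (nilM κ ψ) = trpC (nilM κ ψ) := by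
  ext i j
  fin_cases i <;> fin_cases j <;>
    simp [nilM, s1, s3, sJ, -Complex.ofReal_sin, -Complex.ofReal_cos, map_ofNat]

theorem Lax_ct_trp_nilM (κ ψ : ℝ) : ct (trpC (nilM κ ψ)) = nilM κ ψ := by
  rw [← Lax_ct_nilM, ct_ct]

theorem Lax_st_al (κ ψ : ℝ) : st (LaxAl (nilM κ ψ)) = -LaxAl (nilM κ ψ) := by
  rw [LaxAl_apply]
  simp only [map_sub, st_mono, st_cst, Lax_ct_nilM, Lax_ct_trp_nilM, neg_neg]
  abel

theorem Lax_J0_al (a : MC) : J0 (LaxAl a) = 0 := by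
  rw [LaxAl_apply]
  simp only [map_sub, J0_mono, J0_cst, sub_self]

theorem Lax_J1_al (a : MC) : J1 (LaxAl a) = -(a + trpC a) := by
  rw [LaxAl_apply]
  simp only [map_sub, J1_mono, J1_cst, sub_zero]
  simp only [Int.reduceNeg, Int.cast_neg, Int.cast_one, neg_smul, one_smul]
  abel

theorem Lax_tr_mono (n : ℤ) {a : MC} (h : a 0 0 + a 1 1 = 0) : trW (mono n a) = 0 := by
  rw [trW_apply, mono_apply, mono_apply, ← add_smul, h, zero_smul]

theorem Lax_tr_cst {a : MC} (h : a 0 0 + a 1 1 = 0) : trW (cst a) = 0 := by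
  rw [← mono_zero]
  exact Lax_tr_mono 0 h

theorem Lax_tr_nilM (κ : ℂ) (ψ : ℝ) : nilM κ ψ 0 0 + nilM κ ψ 1 1 = 0 := by
  simp [nilM, s1, s3, sJ]

theorem Lax_tr_al (κ : ℂ) (ψ : ℝ) : trW (LaxAl (nilM κ ψ)) = 0 := by
  have h := Lax_tr_nilM κ ψ
  have h' : trpC (nilM κ ψ) 0 0 + trpC (nilM κ ψ) 1 1 = 0 := by simpa using h
  rw [LaxAl_apply]
  simp only [map_sub, Lax_tr_mono _ h, Lax_tr_mono _ h', Lax_tr_cst h, Lax_tr_cst h', sub_self]

theorem Lax_tr_zeta (e : ℝ) (κ : ℂ) (ψ : ℝ) : trW (zeta e (nilM κ ψ)) = 0 := by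
  have h := Lax_tr_nilM κ ψ
  have h' : trpC (nilM κ ψ) 0 0 + trpC (nilM κ ψ) 1 1 = 0 := by simpa using h
  have h3 : ((e / 2 : ℂ) • s3) 0 0 + ((e / 2 : ℂ) • s3) 1 1 = 0 := by simp [s3]
  rw [zeta]
  simp only [map_sub, map_add, Lax_tr_mono _ h, Lax_tr_mono _ h', Lax_tr_cst h, Lax_tr_cst h',
    Lax_tr_cst h3, add_zero, sub_self]

theorem Lax_be_ge (e : ℝ) (a : MC) : MGE 0 (LaxAl a - zeta e a) := by
  have h : LaxAl a - zeta e a = cst (trpC a) + cst (trpC a) - cst ((e / 2 : ℂ) • s3) -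
      mono 1 (trpC a) - mono 1 (trpC a) := by
    rw [LaxAl_apply, zeta, map_add]
    abel
  rw [h]
  exact ((((MGE_cst _).add (MGE_cst _)).sub (MGE_cst _)).sub
    ((MGE_mono 1 _).weaken (by norm_num))).sub ((MGE_mono 1 _).weaken (by norm_num))

theorem Lax_sum_nilM (κ : ℂ) (ψ : ℝ) : nilM κ ψ + trpC (nilM κ ψ) =
    (κ * Real.sin ψ) • s3 - (κ * Real.cos ψ) • s1 := by
  ext i j
  fin_cases i <;> fin_cases j <;> simp [nilM, s1, s3, sJ] <;> ring

/-- derivative of the nilpotent residue along the Delaunay flow -/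
theorem Lax_deriv_nilM {e m : ℝ} {κ ψ : ℝ → ℝ} {r : ℝ}
    (hκ : HasDerivAt κ (e * κ r * Real.cos (ψ r) * m) r)
    (hψ : HasDerivAt ψ ((4 * κ r - e * Real.sin (ψ r)) * m) r) :
    HasDerivAt (fun r => nilM (κ r) (ψ r)) ((m : ℂ) • LaxR e (nilM (κ r) (ψ r))) r := by
  have h : (Complex.sin (ψ r)) ^ 2 + (Complex.cos (ψ r)) ^ 2 = 1 := Complex.sin_sq_add_cos_sq _
  have h1 : HasDerivAt (fun r => ((κ r : ℝ) : ℂ) / 2) _ r := hκ.ofReal_comp.div_const 2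
  have h2 : HasDerivAt (fun r => ((Real.sin (ψ r) : ℝ) : ℂ) • s3) _ r :=
    hψ.sin.ofReal_comp.smul_const s3
  have h3 : HasDerivAt (fun r => ((Real.cos (ψ r) : ℝ) : ℂ) • s1) _ r :=
    hψ.cos.ofReal_comp.smul_const s1
  have h4 := h1.fun_smul ((h2.const_add sJ).fun_sub h3)
  refine HasDerivAt.congr_deriv h4 ?_
  ext i j
  simp only [LaxR, Matrix.add_apply, Matrix.sub_apply, Matrix.smul_apply, Matrix.mul_apply,
    Fin.sum_univ_two, trpC_apply, nilM]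
  fin_cases i <;> fin_cases j <;> simp [s1, s3, sJ]
  · ring
  · linear_combination (-(e * κ r * m) / 2 : ℂ) * h
  · linear_combination (-(e * κ r * m) / 2 : ℂ) * h
  · ring

theorem Lax_isOpen (c : ℝ) : IsOpen {ψ : ℝ | 0 < Real.sin ψ ^ 2 - 16 * c} :=
  isOpen_lt continuous_const (by fun_prop)

theorem Lax_DD_cont (c : ℝ) : Continuous (DD c) := by
  unfold DD
  fun_prop

theorem Lax_rf_cont (c : ℝ) : Continuous (rf c) := by
  have := Lax_DD_cont c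
  unfold rf
  fun_prop

theorem Lax_DD_pos {c ψ : ℝ} (h : 0 < Real.sin ψ ^ 2 - 16 * c) : 0 < DD c ψ := Real.sqrt_pos.2 h

theorem Lax_deriv_rf {c ψ : ℝ} (h : 0 < Real.sin ψ ^ 2 - 16 * c) :
    HasDerivAt (rf c) (rf c ψ * Real.cos ψ / DD c ψ) ψ := by
  have h0 := Lax_DD_pos h
  have h1 : HasDerivAt (fun ψ => Real.sin ψ ^ 2 - 16 * c) (2 * Real.sin ψ * Real.cos ψ) ψ := by
    have := ((Real.hasDerivAt_sin ψ).fun_pow 2).sub_const (16 * c)
    simpa using this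
  have h2 : HasDerivAt (DD c) (2 * Real.sin ψ * Real.cos ψ / (2 * DD c ψ)) ψ := h1.sqrt h.ne'
  have h3 := ((Real.hasDerivAt_sin ψ).fun_add h2).div_const 4
  refine HasDerivAt.congr_deriv h3 ?_
  unfold rf
  field_simp
  ring

/-- derivative of a primitive of a function continuous on the admissible set -/
theorem Lax_deriv_int {c ψ₀ ψ₁ ψ : ℝ} {f : ℝ → ℝ}
    (hf : ContinuousOn f {ψ : ℝ | 0 < Real.sin ψ ^ 2 - 16 * c})
    (hD : ∀ ψ ∈ uIcc ψ₀ ψ₁, 0 < Real.sin ψ ^ 2 - 16 * c) (hψ : ψ ∈ uIcc ψ₀ ψ₁) :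
    HasDerivAt (fun u => ∫ x in ψ₀..u, f x) (f ψ) ψ := by
  refine intervalIntegral.integral_hasDerivAt_right ?_ ?_ ?_
  · refine (hf.mono fun x hx => hD x ?_).intervalIntegrable
    exact uIcc_subset_uIcc_left hψ hx
  · exact hf.stronglyMeasurableAtFilter (Lax_isOpen c) ψ (hD ψ hψ)
  · exact hf.continuousAt ((Lax_isOpen c).mem_nhds (hD ψ hψ))

theorem Lax_const {E : Type} [NormedAddCommGroup E] [NormedSpace ℝ E] {f : ℝ → E}
    (h : ∀ r ∈ Icc (0:ℝ) 1, HasDerivWithinAt f 0 (Icc 0 1) r) : ∀ r ∈ Icc (0:ℝ) 1, f r = f 0 :=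
  constant_of_has_deriv_right_zero (fun r hr => (h r hr).continuousWithinAt) fun r hr =>
    (h r (Ico_subset_Icc_self hr)).mono_of_mem_nhdsWithin (Icc_mem_nhdsGE_of_mem hr)

/-- abstract form of the Lax argument -/
theorem Lax_core {Φ₀ A : MW} (hd : Φ₀.det = 1) {ze al : ℝ → MW} {m l : ℝ → ℝ}
    (hm : ContinuousOn m (Icc 0 1)) (hal : ContinuousOn al (Icc 0 1))
    (hze : ∀ r ∈ Icc (0:ℝ) 1, HasDerivAt ze ((m r : ℂ) • (ze r * al r - al r * ze r)) r)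
    (hl : ∀ r ∈ Icc (0:ℝ) 1, HasDerivAt l (m r) r) (hl0 : l 0 = 0)
    (hA : Bm Φ₀ * A * Bi Φ₀ = ze 0)
    (hst : ∀ r, st (al r) = -al r) (hJ : ∀ r, J0 (al r) = 0) (ht : ∀ r, trW (al r) = 0)
    (ht' : ∀ r, trW (ze r) = 0) (hge : ∀ r, MGE 0 (al r - ze r)) {g : ℝ → MC}
    (hg : ∀ r ∈ Icc (0:ℝ) 1, HasDerivAt g ((m r : ℂ) • J1 (al r)) r) :
    (Φ₀ * Hol (fun _ => ((l 1 : ℝ) : ℂ) • A) 1).det = 1 ∧
      Bm (Φ₀ * Hol (fun _ => ((l 1 : ℝ) : ℂ) • A) 1) * A *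
        Bi (Φ₀ * Hol (fun _ => ((l 1 : ℝ) : ℂ) • A) 1) = ze 1 ∧
      symM (Φ₀ * Hol (fun _ => ((l 1 : ℝ) : ℂ) • A) 1) = symM Φ₀ + (g 1 - g 0) := by
  have h0 : (0:ℝ) ∈ Icc (0:ℝ) 1 := left_mem_Icc.2 zero_le_one
  have h1 : (1:ℝ) ∈ Icc (0:ℝ) 1 := right_mem_Icc.2 zero_le_one
  have hmC : ContinuousOn (fun r => (m r : ℂ)) (Icc 0 1) :=
    Complex.continuous_ofReal.comp_continuousOn hm
  have hzc : ContinuousOn ze (Icc 0 1) := fun r hr => (hze r hr).continuousAt.continuousWithinAt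
  obtain ⟨a, ha⟩ : ∃ a : ℝ → MW, a = fun r => (m r : ℂ) • al r := ⟨_, rfl⟩
  obtain ⟨b, hb⟩ : ∃ b : ℝ → MW, b = fun r => (m r : ℂ) • (al r - ze r) := ⟨_, rfl⟩
  have hac : ContinuousOn a (Icc 0 1) := ha ▸ hmC.smul hal
  have hbc : ContinuousOn b (Icc 0 1) := hb ▸ hmC.smul (hal.sub hzc)
  obtain ⟨U, hU⟩ : ∃ U : ℝ → MW, U = fun r => Uf Φ₀ * Hol a r := ⟨_, rfl⟩
  obtain ⟨C, hC⟩ : ∃ C : ℝ → MW, C = fun r => Bi Φ₀ * Hol b r := ⟨_, rfl⟩
  have hUs : IsSol a U := by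
    intro r hr
    have := (Hol_isSol hac r hr).const_mul (Uf Φ₀)
    rw [← mul_assoc] at this
    rw [hU]
    exact this
  have hCs : IsSol b C := by
    intro r hr
    have := (Hol_isSol hbc r hr).const_mul (Bi Φ₀)
    rw [← mul_assoc] at this
    rw [hC]
    exact this
  have hU0 : U 0 = Uf Φ₀ := by rw [hU]; simp [Hol_zero]
  have hC0 : C 0 = Bi Φ₀ := by rw [hC]; simp [Hol_zero]
  -- the positive factor conjugates the residue to a constant
  have hCz : ∀ r ∈ Icc (0:ℝ) 1, C r * ze r = A * C r := by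
    have hs : IsSol b (fun r => C r * ze r) := by
      intro r hr
      refine ((hCs r hr).fun_mul (hze r hr).hasDerivWithinAt).congr_deriv ?_
      simp only [hb, mul_smul_comm, smul_mul_assoc, ← smul_add]
      congr 1
      noncomm_ring
    intro r hr
    rw [IsSol.eq_Hol hbc hs r hr, hC0, ← hA, ← mul_assoc, ← mul_assoc, Bi_mul_Bm hd, one_mul, hC,
      mul_assoc]
  obtain ⟨Ψ, hΨ⟩ : ∃ Ψ : ℝ → MW, Ψ = fun r => Φ₀ * Hol (fun _ => ((l r : ℝ) : ℂ) • A) 1 :=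
    ⟨_, rfl⟩
  have hΨd : ∀ r ∈ Icc (0:ℝ) 1, HasDerivAt Ψ ((m r : ℂ) • (Ψ r * A)) r := by
    intro r hr
    have e1 := (hasDerivAt_Hol_const A (l r : ℂ)).scomp r (hl r hr).ofReal_comp
    have e2 := e1.const_mul Φ₀
    rw [hΨ]
    refine HasDerivAt.congr_deriv e2 ?_
    simp only [mul_smul_comm, mul_assoc]
  have hΨ0 : Ψ 0 = Φ₀ := by rw [hΨ]; simp [hl0, Hol_const_zero]
  have hΨC : ∀ r ∈ Icc (0:ℝ) 1, Ψ r * C r = U r := by
    have hs : IsSol a (fun r => Ψ r * C r) := by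
      intro r hr
      refine ((hΨd r hr).hasDerivWithinAt.fun_mul (hCs r hr)).congr_deriv ?_
      simp only [ha, hb, mul_smul_comm, smul_mul_assoc, ← smul_add]
      congr 1
      rw [mul_assoc, ← hCz r hr]
      noncomm_ring
    intro r hr
    rw [IsSol.eq_Hol hac hs r hr, hΨ0, hC0, hU]
    rfl
  have hdU : (U 1).det = 1 := by
    rw [hU]
    simp only [Matrix.det_mul, det_Uf hd, one_mul]
    exact det_Hol hac (fun r _ => by rw [ha]; simp [ht r]) 1 h1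
  have hdC : (C 1).det = 1 := by
    rw [hC]
    simp only [Matrix.det_mul, det_Bi hd, one_mul]
    exact det_Hol hbc (fun r _ => by rw [hb]; simp [ht r, ht' r]) 1 h1
  have hCge : MGE 0 (C 1) := by
    rw [hC]
    have := (Bi_pos hd).mul (Hol_MGE hbc (fun r _ => by rw [hb]; exact (hge r).smul _) 1 h1)
    simpa using this
  -- the unitary factor
  have hun : st (U 1) * U 1 = 1 := by
    have hc := Lax_const (f := fun r => U r * st (U r)) (fun r hr => by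
      have e1 := st.hasFDerivAt.comp_hasDerivWithinAt r (hUs r hr)
      refine ((hUs r hr).fun_mul e1).congr_deriv ?_
      simp only [ha, st_mul, st_smul, hst, Complex.conj_ofReal, mul_smul_comm, smul_mul_assoc,
        Function.comp, ← smul_add]
      rw [show U r * al r * st (U r) + U r * (-al r * st (U r)) = 0 by noncomm_ring, smul_zero])
      1 h1
    simp only [hU0] at hc
    rw [mul_eq_one_comm.1 (Uf_unitary hd)] at hc
    exact mul_eq_one_comm.1 hc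
  have hJ0 : ∀ r ∈ Icc (0:ℝ) 1, J0 (U r) = 1 := by
    intro r hr
    have hc := Lax_const (f := fun r => J0 (U r)) (fun r hr => by
      have e1 := (J0.restrictScalars ℝ).hasFDerivAt.comp_hasDerivWithinAt r (hUs r hr)
      refine HasDerivWithinAt.congr_deriv e1 ?_
      simp [ha, J0_mul, hJ]) r hr
    simpa [hU0, J0_Uf hd] using hc
  have hJ1 : J1 (U 1) - g 1 = J1 (U 0) - g 0 :=
    Lax_const (f := fun r => J1 (U r) - g r) (fun r hr => by
      have e1 := (J1.restrictScalars ℝ).hasFDerivAt.comp_hasDerivWithinAt r (hUs r hr)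
      refine HasDerivWithinAt.congr_deriv (e1.fun_sub (hg r hr).hasDerivWithinAt) ?_
      simp [ha, J1_mul, hJ, hJ0 r hr]) 1 h1
  have hΨ1 : Ψ 1 = U 1 * adj (C 1) := by
    rw [← hΨC 1 h1, mul_assoc, mul_adj_of_det hdC, mul_one]
  have hiw := iw_unique hun hdU (hJ0 1 h1) hCge.adj (by rw [det_adj, hdC])
  have hΨe : Φ₀ * Hol (fun _ => ((l 1 : ℝ) : ℂ) • A) 1 = U 1 * adj (C 1) := by rw [← hΨ1, hΨ]
  rw [hΨe]
  refine ⟨by rw [Matrix.det_mul, hdU, det_adj, hdC, one_mul], ?_, ?_⟩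
  · rw [← adj_Bm, hiw.2, adj_adj, mul_assoc, ← hCz 1 h1, ← mul_assoc, adj_mul_of_det hdC, one_mul]
  · rw [symM, hiw.1, symM, ← hU0]
    exact (eq_add_of_sub_eq hJ1).trans (by abel)

/-- Iwasawa decomposition along a Delaunay end -/
theorem lax {Φ₀ A : MW} {e ρ₀ ψ₀ ψ₁ c : ℝ} (hd : Φ₀.det = 1) (he : e = 1 ∨ e = -1)
    (hA : Bm Φ₀ * A * Bi Φ₀ = zeta e (nilM (e * ρ₀ : ℝ) ψ₀))
    (hc : c = ρ₀ * Real.sin ψ₀ / 2 - ρ₀ ^ 2) (hD : ∀ ψ ∈ uIcc ψ₀ ψ₁, 0 < Real.sin ψ ^ 2 - 16 * c)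
    (h4 : Real.sin ψ₀ < 4 * ρ₀) :
    let Φ₁ := Φ₀ * Hol (fun _ => ((e * ∫ ψ in ψ₀..ψ₁, 1 / DD c ψ : ℝ) : ℂ) • A) 1
    Φ₁.det = 1 ∧ Bm Φ₁ * A * Bi Φ₁ = zeta e (nilM (e * rf c ψ₁ : ℝ) ψ₁) ∧
      symM Φ₁ = symM Φ₀ + ((rf c ψ₁ - ρ₀ : ℝ) : ℂ) • s1 -
        ((∫ ψ in ψ₀..ψ₁, rf c ψ * Real.sin ψ / DD c ψ : ℝ) : ℂ) • s3 := by
  intro Φ₁
  have hee : e * e = 1 := by rcases he with rfl | rfl <;> norm_num
  have hrf0 : rf c ψ₀ = ρ₀ := by
    have : DD c ψ₀ = 4 * ρ₀ - Real.sin ψ₀ := by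
      unfold DD
      rw [show Real.sin ψ₀ ^ 2 - 16 * c = (4 * ρ₀ - Real.sin ψ₀) ^ 2 by rw [hc]; ring]
      exact Real.sqrt_sq (by linarith)
    unfold rf
    rw [this]
    ring
  obtain ⟨p, hp⟩ : ∃ p : ℝ → ℝ, p = fun r => ψ₀ + r * (ψ₁ - ψ₀) := ⟨_, rfl⟩
  have hp0 : p 0 = ψ₀ := by simp [hp]
  have hp1 : p 1 = ψ₁ := by simp [hp]
  have hpc : Continuous p := by rw [hp]; fun_prop
  have hpd : ∀ r, HasDerivAt p (ψ₁ - ψ₀) r := by
    intro r
    rw [hp]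
    simpa using ((hasDerivAt_id r).mul_const (ψ₁ - ψ₀)).const_add ψ₀
  have hpm : ∀ r ∈ Icc (0:ℝ) 1, p r ∈ uIcc ψ₀ ψ₁ := by
    intro r hr
    rw [hp, mem_uIcc]
    rcases le_total ψ₀ ψ₁ with h | h
    · left
      constructor <;> nlinarith [hr.1, hr.2]
    · right
      constructor <;> nlinarith [hr.1, hr.2]
  have hDp : ∀ r ∈ Icc (0:ℝ) 1, 0 < DD c (p r) := fun r hr => Lax_DD_pos (hD _ (hpm r hr))
  obtain ⟨m, hm⟩ : ∃ m : ℝ → ℝ, m = fun r => e * (1 / DD c (p r) * (ψ₁ - ψ₀)) := ⟨_, rfl⟩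
  have hmc : ContinuousOn m (Icc 0 1) := by
    rw [hm]
    exact continuousOn_const.mul ((continuousOn_const.div
      ((Lax_DD_cont c).comp hpc).continuousOn fun r hr => (hDp r hr).ne').mul continuousOn_const)
  have hρ : ∀ r ∈ Icc (0:ℝ) 1, HasDerivAt (fun r => rf c (p r))
      (rf c (p r) * Real.cos (p r) / DD c (p r) * (ψ₁ - ψ₀)) r :=
    fun r hr => (Lax_deriv_rf (hD _ (hpm r hr))).comp r (hpd r)
  have ha : ∀ r ∈ Icc (0:ℝ) 1, HasDerivAt (fun r => nilM (e * rf c (p r) : ℝ) (p r))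
      ((m r : ℂ) • LaxR e (nilM (e * rf c (p r) : ℝ) (p r))) r := by
    intro r hr
    have h0 := (hDp r hr).ne'
    refine Lax_deriv_nilM (κ := fun r => e * rf c (p r)) ?_ ?_
    · refine ((hρ r hr).const_mul e).congr_deriv ?_
      rw [hm]
      field_simp
      linear_combination (-e * rf c (p r) * Real.cos (p r) * (ψ₁ - ψ₀)) * hee
    · refine (hpd r).congr_deriv ?_
      rw [hm]
      unfold rf
      field_simp
      linear_combination (-(DD c (p r)) * (ψ₁ - ψ₀)) * hee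
  have hf1 : ContinuousOn (fun ψ => 1 / DD c ψ) {ψ : ℝ | 0 < Real.sin ψ ^ 2 - 16 * c} :=
    continuousOn_const.div (Lax_DD_cont c).continuousOn fun ψ h => (Lax_DD_pos h).ne'
  have hf2 : ContinuousOn (fun ψ => rf c ψ * Real.sin ψ / DD c ψ)
      {ψ : ℝ | 0 < Real.sin ψ ^ 2 - 16 * c} :=
    ((Lax_rf_cont c).mul Real.continuous_sin).continuousOn.div (Lax_DD_cont c).continuousOn
      fun ψ h => (Lax_DD_pos h).ne'
  have key := Lax_core (A := A) hd (ze := fun r => zeta e (nilM (e * rf c (p r) : ℝ) (p r)))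
    (al := fun r => LaxAl (nilM (e * rf c (p r) : ℝ) (p r))) (m := m)
    (l := fun r => e * ∫ ψ in ψ₀..p r, 1 / DD c ψ) hmc
    (LaxAl.continuous.comp_continuousOn fun r hr => (ha r hr).continuousAt.continuousWithinAt)
    (fun r hr => by
      have e1 := (LaxZ.restrictScalars ℝ).hasFDerivAt.comp_hasDerivAt r (ha r hr)
      have e2 := e1.const_add (cst ((e / 2 : ℂ) • s3))
      simp only [Lax_zeta_eq]
      refine HasDerivAt.congr_deriv e2 ?_
      simp only [← Lax_zeta_eq, Lax_comm]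
      simp)
    (fun r hr => by
      rw [hm]
      exact ((Lax_deriv_int hf1 hD (hpm r hr)).comp r (hpd r)).const_mul e)
    (by simp [hp0]) (by simpa [hp0, hrf0] using hA)
    (fun r => Lax_st_al _ _) (fun r => Lax_J0_al _) (fun r => Lax_tr_al _ _)
    (fun r => Lax_tr_zeta _ _ _) (fun r => Lax_be_ge _ _)
    (g := fun r => ((rf c (p r) : ℝ) : ℂ) • s1 -
      ((∫ ψ in ψ₀..p r, rf c ψ * Real.sin ψ / DD c ψ : ℝ) : ℂ) • s3)
    (fun r hr => by
      have e1 := (hρ r hr).ofReal_comp.smul_const s1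
      have e2 := ((Lax_deriv_int hf2 hD (hpm r hr)).comp r (hpd r)).ofReal_comp.smul_const s3
      refine HasDerivAt.congr_deriv (e1.fun_sub e2) ?_
      have hee' : (e : ℂ) * e = 1 := by exact_mod_cast hee
      rw [Lax_J1_al, Lax_sum_nilM, neg_sub, smul_sub, smul_smul, smul_smul, hm]
      congr 2
      · push_cast
        linear_combination (-(rf c (p r) : ℂ) * Complex.cos (p r) / DD c (p r) * (ψ₁ - ψ₀)) * hee'
      · push_cast
        linear_combination (-(rf c (p r) : ℂ) * Complex.sin (p r) / DD c (p r) * (ψ₁ - ψ₀)) * hee')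
  simp only [hp0, hp1, hrf0, intervalIntegral.integral_same] at key
  refine ⟨key.1, key.2.1, key.2.2.trans ?_⟩
  simp only [ofReal_zero, zero_smul, sub_zero, ofReal_sub, sub_smul]
  abel

end Pool.Agent.MP_efb2da_gt
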