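import Pool.Agent.MP_efb2da_gt.Lim0

open Set Real
open scoped Topology

noncomputable section

namespace Pool.Agent.MP_efb2da_gt

theorem Lim1_facts {ψ : ℝ} (h1 : π / 3 < ψ) (h2 : ψ < π / 2) :
    0 < cos ψ ∧ cos ψ < 1 / 2 ∧ 0 < sin ψ ∧ cos (arccos (2 * cos ψ)) = 2 * cos ψ ∧
      0 < sin (arccos (2 * cos ψ)) ∧ sin (arccos (2 * cos ψ)) ^ 2 = 1 - 4 * cos ψ ^ 2 ∧
      sin (arccos (2 * cos ψ)) < sin ψ := by
  have hp := pi_pos
  have k1 : 0 < cos ψ := cos_pos_of_mem_Ioo ⟨by linarith, h2⟩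
  have k2 : cos ψ < 1 / 2 := by
    rw [← cos_pi_div_three]
    exact cos_lt_cos_of_nonneg_of_le_pi (by linarith) (by linarith) h1
  have k3 : 0 < sin ψ := sin_pos_of_pos_of_lt_pi (by linarith) (by linarith)
  have k4 : cos (arccos (2 * cos ψ)) = 2 * cos ψ := cos_arccos (by linarith) (by linarith)
  have k5 : 0 < sin (arccos (2 * cos ψ)) := by
    rw [sin_arccos]
    exact sqrt_pos.2 (by nlinarith)
  have k6 : sin (arccos (2 * cos ψ)) ^ 2 = 1 - 4 * cos ψ ^ 2 := by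
    rw [sin_sq, k4]; ring
  have k7 := sin_sq_add_cos_sq ψ
  exact ⟨k1, k2, k3, k4, k5, k6, lt_of_pow_lt_pow_left₀ 2 k3.le (by nlinarith)⟩

theorem Lim1_rs {h r s : ℝ} (h0 : 0 < h) (h1 : h < 1 / 2) (hr : 0 < r) (hs : 0 < s)
    (e1 : r ^ 2 + h ^ 2 = 1) (e2 : s ^ 2 = 1 - 4 * h ^ 2) :
    r * s ≤ 1 - 5 * h ^ 2 / 2 ∧ 1 - 17 * h ^ 2 / 4 ≤ r * s := by
  have u0 : 0 < h ^ 2 := by positivity
  have u1 : h ^ 2 < 1 / 4 := by nlinarith
  have e : (r * s) ^ 2 = (1 - h ^ 2) * (1 - 4 * h ^ 2) := by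
    rw [mul_pow, e2]; congr 1; linarith
  have hrs : 0 < r * s := mul_pos hr hs
  generalize r * s = t at *
  generalize h ^ 2 = u at *
  constructor
  · refine le_of_pow_le_pow_left₀ two_ne_zero (by linarith) ?_
    rw [e]; nlinarith [sq_nonneg u]
  · by_cases c : 1 - 17 * u / 4 ≤ 0
    · linarith
    · refine le_of_pow_le_pow_left₀ two_ne_zero hrs.le ?_
      rw [e]
      have c2 : 0 ≤ 4 - 17 * u := by linarith
      nlinarith [mul_nonneg u0.le c2]

theorem Lim1_den {ψ : ℝ} (h1 : π / 3 < ψ) (h2 : ψ < π / 2) :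
    0 < 1 + 2 * cos ψ ^ 2 - sin ψ * sin (arccos (2 * cos ψ)) ∧
      0 < 1 - 2 * cos ψ ^ 2 - sin ψ * sin (arccos (2 * cos ψ)) := by
  obtain ⟨k1, k2, k3, k4, k5, k6, k7⟩ := Lim1_facts h1 h2
  obtain ⟨b1, b2⟩ := Lim1_rs k1 k2 k3 k5 (sin_sq_add_cos_sq ψ) k6
  have u0 : 0 < cos ψ ^ 2 := by positivity
  constructor <;> linarith

theorem Lim1_pstar_sq {ψ : ℝ} (h1 : π / 3 < ψ) (h2 : ψ < π / 2) :
    pstar ψ ^ 2 * (1 + 2 * cos ψ ^ 2 - sin ψ * sin (arccos (2 * cos ψ))) =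
      1 - 2 * cos ψ ^ 2 - sin ψ * sin (arccos (2 * cos ψ)) := by
  obtain ⟨d1, d2⟩ := Lim1_den h1 h2
  rw [pstar, sq_sqrt (div_pos d2 d1).le, div_mul_cancel₀ _ d1.ne']

theorem pstar_bounds {ψ : ℝ} (h1 : π / 3 < ψ) (h2 : ψ < π / 2) : 1/3 ≤ pstar ψ ∧ pstar ψ ≤ 3/5 := by
  obtain ⟨k1, k2, k3, k4, k5, k6, k7⟩ := Lim1_facts h1 h2
  obtain ⟨b1, b2⟩ := Lim1_rs k1 k2 k3 k5 (sin_sq_add_cos_sq ψ) k6
  obtain ⟨d1, d2⟩ := Lim1_den h1 h2
  unfold pstar
  constructor
  · refine le_sqrt_of_sq_le ?_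
    rw [le_div_iff₀ d1]; linarith
  · refine sqrt_le_iff.2 ⟨by norm_num, ?_⟩
    rw [div_le_iff₀ d1]; linarith

theorem Lim1_cont_rho : Continuous rho := by unfold rho; fun_prop

theorem Lim1_cont_cc : Continuous cc := by unfold cc rho; fun_prop

theorem Lim1_cc {ψ : ℝ} : cc (ystar ψ) =
    sin ψ / 2 * sin (arccos (2 * cos ψ)) / 2 - (sin ψ / 2) ^ 2 := rfl

theorem yadm_near {ψ : ℝ} (h1 : π / 3 < ψ) (h2 : ψ < π / 2) : ∀ᶠ y in 𝓝 (ystar ψ), Yadm y := by
  have hp := pi_pos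
  obtain ⟨k1, k2, k3, k4, k5, k6, k7⟩ := Lim1_facts h1 h2
  obtain ⟨p1, p2⟩ := pstar_bounds h1 h2
  have e : ∀ i : Fin 8, ContinuousAt (fun z : Y8 => z i) (ystar ψ) :=
    fun i => (continuous_apply i).continuousAt
  have lo : ∀ (i : Fin 8) (c : ℝ), c < ystar ψ i → ∀ᶠ y in 𝓝 (ystar ψ), c < y i :=
    fun i c hc => continuousAt_const.eventually_lt (e i) hc
  have hi : ∀ (i : Fin 8) (c : ℝ), ystar ψ i < c → ∀ᶠ y in 𝓝 (ystar ψ), y i < c :=
    fun i c hc => (e i).eventually_lt continuousAt_const hc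
  have a0 := lo 0 0 (show 0 < ψ by linarith)
  have a1 := hi 0 (π / 2) h2
  have a2 : ∀ᶠ y in 𝓝 (ystar ψ), cc y < 0 :=
    Lim1_cont_cc.continuousAt.eventually_lt continuousAt_const (by
      show cc (ystar ψ) < 0
      rw [Lim1_cc]; nlinarith)
  have a3 : ∀ᶠ y in 𝓝 (ystar ψ), y 4 < y 3 := (e 4).eventually_lt (e 3) (by
    show -π - arccos (2 * cos ψ) < arccos (2 * cos ψ)
    have := arccos_nonneg (2 * cos ψ)
    linarith)
  have a4 := lo 5 (1 / 4) (show 1 / 4 < pstar ψ by linarith)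
  have a5 := hi 5 (2 / 3) (show pstar ψ < 2 / 3 by linarith)
  have a6 := lo 6 (-11 / 10) (show (-11 / 10 : ℝ) < -1 by norm_num)
  have a7 := hi 6 (-9 / 10) (show (-1 : ℝ) < -9 / 10 by norm_num)
  have a8 := lo 7 (-2 / 3) (show -2 / 3 < -pstar ψ by linarith)
  have a9 := hi 7 (-1 / 4) (show -pstar ψ < -1 / 4 by linarith)
  filter_upwards [a0, a1, a2, a3, a4, a5, a6, a7, a8, a9] with y b0 b1 b2 b3 b4 b5 b6 b7 b8 b9
  exact ⟨b0, b1, b2, b3, ⟨b4.le, b5.le⟩, ⟨b6.le, b7.le⟩, b8.le, b9.le⟩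

theorem Lim1_sin4 (a : ℝ) : sin (-π - a) = sin a := by
  rw [show -π - a = -(a + π) by ring, sin_neg, sin_add_pi, neg_neg]

theorem Lim1_cos4 (a : ℝ) : cos (-π - a) = -cos a := by
  rw [show -π - a = -(a + π) by ring, cos_neg, cos_add_pi]

theorem rhoE_ystar {ψ : ℝ} (h1 : π / 3 < ψ) (h2 : ψ < π / 2) : rhoE (ystar ψ) = sin ψ / 2 := by
  obtain ⟨k1, k2, k3, k4, k5, k6, k7⟩ := Lim1_facts h1 h2
  have d4 : ystar ψ 4 = -π - arccos (2 * cos ψ) := rfl
  rw [rhoE, rf, DD, d4, Lim1_sin4, Lim1_cc]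
  generalize sin (arccos (2 * cos ψ)) = s at *
  rw [show s ^ 2 - 16 * (sin ψ / 2 * s / 2 - (sin ψ / 2) ^ 2) = (2 * sin ψ - s) ^ 2 by ring,
    sqrt_sq (by linarith)]
  ring

theorem Lim1_av0 {ψ : ℝ} (h1 : π / 3 < ψ) (h2 : ψ < π / 2) :
    av (ystar ψ) 0 = nilv (-(sin ψ / 2)) (-π - arccos (2 * cos ψ)) := by
  rw [← rhoE_ystar h1 h2]; rfl

theorem Lim1_av1 (ψ : ℝ) : av (ystar ψ) 1 = nilv (-(sin ψ / 2)) ψ := rfl
theorem Lim1_av2 (ψ : ℝ) : av (ystar ψ) 2 = nilv (sin ψ / 2) (π - ψ) := rfl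
theorem Lim1_av3 (ψ : ℝ) : av (ystar ψ) 3 = nilv (-(sin ψ / 2)) ψ := rfl

theorem av_ystar {ψ : ℝ} (h1 : π / 3 < ψ) (h2 : ψ < π / 2) :
    av (ystar ψ) 4 = nilv (sin ψ / 2) (π - ψ) := by
  obtain ⟨k1, k2, k3, k4, k5, k6, k7⟩ := Lim1_facts h1 h2
  have e : av (ystar ψ) 4 = -(nilv (-rhoE (ystar ψ)) (-π - arccos (2 * cos ψ)) +
      nilv (-(sin ψ / 2)) ψ + nilv (sin ψ / 2) (π - ψ) + nilv (-(sin ψ / 2)) ψ +
      nilv (sin ψ / 2) (arccos (2 * cos ψ))) := rfl
  rw [e, rhoE_ystar h1 h2]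
  generalize arccos (2 * cos ψ) = a at *
  funext i
  fin_cases i
  · show -((-(sin ψ / 2)) / 2 * sin (-π - a) + (-(sin ψ / 2)) / 2 * sin ψ +
      (sin ψ / 2) / 2 * sin (π - ψ) + (-(sin ψ / 2)) / 2 * sin ψ + (sin ψ / 2) / 2 * sin a) =
      (sin ψ / 2) / 2 * sin (π - ψ)
    rw [Lim1_sin4, sin_pi_sub]; ring
  · show -(-((-(sin ψ / 2)) / 2 * cos (-π - a)) + -((-(sin ψ / 2)) / 2 * cos ψ) +
      -((sin ψ / 2) / 2 * cos (π - ψ)) + -((-(sin ψ / 2)) / 2 * cos ψ) +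
      -((sin ψ / 2) / 2 * cos a)) = -((sin ψ / 2) / 2 * cos (π - ψ))
    rw [Lim1_cos4, cos_pi_sub, k4]; ring
  · show -((-(sin ψ / 2)) / 2 + (-(sin ψ / 2)) / 2 + (sin ψ / 2) / 2 + (-(sin ψ / 2)) / 2 +
      (sin ψ / 2) / 2) = (sin ψ / 2) / 2
    ring

theorem Lim1_bil (κ κ' α β : ℝ) : bil (nilv κ α) (nilv κ' β) =
    κ * κ' / 2 * (1 - sin α * sin β - cos α * cos β) := by
  show 2 * (κ / 2 * (κ' / 2) - κ / 2 * sin α * (κ' / 2 * sin β) -
    -(κ / 2 * cos α) * -(κ' / 2 * cos β)) = _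
  ring

theorem Lim1_bil_self (κ α : ℝ) : bil (nilv κ α) (nilv κ α) = 0 := by
  rw [Lim1_bil]
  have := sin_sq_add_cos_sq α
  rw [show 1 - sin α * sin α - cos α * cos α = 0 by linarith, mul_zero]

theorem Lim1_resv (y : Y8) (j : Fin 5) : resv y j =
    ∑ i, bil (av y j) (av y i) / (pos (yp y) j - pos (yp y) i) := by
  rw [resv, ← Finset.sum_erase_add _ _ (Finset.mem_univ j), sub_self, div_zero, add_zero]

theorem E0_ystar {ψ : ℝ} (h1 : π / 3 < ψ) (h2 : ψ < π / 2) (i : Fin 8) (hi : i ≠ 0) :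
    E0 (ystar ψ) i = 0 := by
  obtain ⟨k1, k2, k3, k4, k5, k6, k7⟩ := Lim1_facts h1 h2
  obtain ⟨p1, p2⟩ := pstar_bounds h1 h2
  have hq := Lim1_pstar_sq h1 h2
  have hsc := sin_sq_add_cos_sq ψ
  have q0 : pos (yp (ystar ψ)) 0 = 0 := rfl
  have q1 : pos (yp (ystar ψ)) 1 = 1 := rfl
  have q2 : pos (yp (ystar ψ)) 2 = pstar ψ := rfl
  have q3 : pos (yp (ystar ψ)) 3 = -1 := rfl
  have q4 : pos (yp (ystar ψ)) 4 = -pstar ψ := rfl
  have n0 : pstar ψ ≠ 0 := by linarith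
  have n1 : pstar ψ - 1 ≠ 0 := by linarith
  have n2 : pstar ψ + 1 ≠ 0 := by linarith
  have n3 : -1 - pstar ψ ≠ 0 := by linarith
  have n4 : -1 + pstar ψ ≠ 0 := by linarith
  have n5 : -pstar ψ - 1 ≠ 0 := by linarith
  have n6 : -pstar ψ + 1 ≠ 0 := by linarith
  have b12 : bil (nilv (-(sin ψ / 2)) ψ) (nilv (sin ψ / 2) (π - ψ)) =
      -((sin ψ / 2) ^ 2 * cos ψ ^ 2) := by
    rw [Lim1_bil, sin_pi_sub, cos_pi_sub]
    linear_combination (sin ψ / 2) ^ 2 / 2 * hsc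
  have b21 : bil (nilv (sin ψ / 2) (π - ψ)) (nilv (-(sin ψ / 2)) ψ) =
      -((sin ψ / 2) ^ 2 * cos ψ ^ 2) := by
    rw [Lim1_bil, sin_pi_sub, cos_pi_sub]
    linear_combination (sin ψ / 2) ^ 2 / 2 * hsc
  have b10 : bil (nilv (-(sin ψ / 2)) ψ) (nilv (-(sin ψ / 2)) (-π - arccos (2 * cos ψ))) =
      (sin ψ / 2) ^ 2 * (1 + 2 * cos ψ ^ 2 - sin ψ * sin (arccos (2 * cos ψ))) / 2 := by
    rw [Lim1_bil, Lim1_sin4, Lim1_cos4, k4]; ring
  have b20 : bil (nilv (sin ψ / 2) (π - ψ)) (nilv (-(sin ψ / 2)) (-π - arccos (2 * cos ψ))) =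
      -((sin ψ / 2) ^ 2 * (1 - 2 * cos ψ ^ 2 - sin ψ * sin (arccos (2 * cos ψ))) / 2) := by
    rw [Lim1_bil, Lim1_sin4, Lim1_cos4, k4, sin_pi_sub, cos_pi_sub]; ring
  fin_cases i
  · exact absurd rfl hi
  · show (sin ψ / 2) ^ 2 - sin ψ / 2 * sin (π - ψ) / 2 = 0
    rw [sin_pi_sub]; ring
  · show (sin ψ / 2) ^ 2 - sin ψ / 2 * sin ψ / 2 = 0
    ring
  · show rhoE (ystar ψ) - sin ψ / 2 = 0
    rw [rhoE_ystar h1 h2, sub_self]
  · show bil (av (ystar ψ) 4) (av (ystar ψ) 4) / 2 = 0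
    rw [av_ystar h1 h2, Lim1_bil_self, zero_div]
  · show resv (ystar ψ) 2 = 0
    rw [Lim1_resv, Fin.sum_univ_five, Lim1_av0 h1 h2, Lim1_av1, Lim1_av2, Lim1_av3,
      av_ystar h1 h2, q0, q1, q2, q3, q4, b21, b20, Lim1_bil_self]
    simp only [sub_zero, sub_neg_eq_add, zero_div, add_zero]
    generalize pstar ψ = p at *
    generalize sin ψ * sin (arccos (2 * cos ψ)) = t at *
    generalize (sin ψ / 2) ^ 2 = w at *
    field_simp
    linear_combination (-w) * hq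
  · show resv (ystar ψ) 3 = 0
    rw [Lim1_resv, Fin.sum_univ_five, Lim1_av0 h1 h2, Lim1_av1, Lim1_av2, Lim1_av3,
      av_ystar h1 h2, q0, q1, q2, q3, q4, b12, b10, Lim1_bil_self]
    simp only [sub_zero, sub_neg_eq_add, zero_div, add_zero]
    generalize pstar ψ = p at *
    generalize sin ψ * sin (arccos (2 * cos ψ)) = t at *
    generalize (sin ψ / 2) ^ 2 = w at *
    field_simp
    linear_combination w * hq
  · show resv (ystar ψ) 4 = 0
    rw [Lim1_resv, Fin.sum_univ_five, Lim1_av0 h1 h2, Lim1_av1, Lim1_av2, Lim1_av3,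
      av_ystar h1 h2, q0, q1, q2, q3, q4, b21, b20, Lim1_bil_self]
    simp only [sub_zero, sub_neg_eq_add, zero_div, add_zero]
    generalize pstar ψ = p at *
    generalize sin ψ * sin (arccos (2 * cos ψ)) = t at *
    generalize (sin ψ / 2) ^ 2 = w at *
    field_simp
    linear_combination w * hq

theorem continuousOn_ystar : ContinuousOn ystar (Ioo (π / 3) (π / 2)) := by
  have ha : Continuous fun ψ : ℝ => arccos (2 * cos ψ) := continuous_arccos.comp (by fun_prop)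
  have hs : Continuous fun ψ : ℝ => sin (arccos (2 * cos ψ)) := continuous_sin.comp ha
  have hp : ContinuousOn pstar (Ioo (π / 3) (π / 2)) := by
    refine ContinuousOn.sqrt (ContinuousOn.div ?_ ?_ fun ψ h => (Lim1_den h.1 h.2).1.ne')
    · exact (Continuous.sub (by fun_prop) (continuous_sin.mul hs)).continuousOn
    · exact (Continuous.sub (by fun_prop) (continuous_sin.mul hs)).continuousOn
  refine continuousOn_pi.2 fun i => ?_
  fin_cases i
  · exact continuousOn_id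
  · exact continuousOn_const.sub continuousOn_id
  · exact continuousOn_id
  · exact ha.continuousOn
  · exact continuousOn_const.sub ha.continuousOn
  · exact hp
  · exact continuousOn_const
  · exact hp.neg

theorem Lim1_rf_cont : Continuous fun p : ℝ × ℝ => rf p.1 p.2 := by unfold rf DD; fun_prop

theorem Lim1_DD_pos {c : ℝ} (hc : c < 0) (t : ℝ) : 0 < DD c t :=
  sqrt_pos.2 (by nlinarith [sq_nonneg (sin t)])

theorem Lim1_DD0_pos {t : ℝ} (h0 : 0 < t) (h1 : t < π) : 0 < DD 0 t := by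
  have := sin_pos_of_pos_of_lt_pi h0 h1
  exact sqrt_pos.2 (by nlinarith)

theorem Lim1_f0_cont {t : ℝ} (h0 : 0 < t) (h1 : t < π) :
    ContinuousAt (fun ψ => 1 / DD 0 ψ) t := by
  have h : Continuous fun ψ => DD 0 ψ := by unfold DD; fun_prop
  exact continuousAt_const.div h.continuousAt (Lim1_DD0_pos h0 h1).ne'

theorem Lim1_f0_int {t : ℝ} (h0 : 0 < t) (h1 : t < π / 2) :
    IntervalIntegrable (fun ψ => 1 / DD 0 ψ) MeasureTheory.volume t (π / 2) := by
  have hp := pi_pos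
  refine ContinuousOn.intervalIntegrable fun x hx => ?_
  rw [uIcc_of_le h1.le] at hx
  exact (Lim1_f0_cont (by linarith [hx.1]) (by linarith [hx.2])).continuousWithinAt

theorem continuousOn_ell1 : ContinuousOn ell1 {y | Yadm y} := by
  intro y hy
  have hp := pi_pos
  have h0 : 0 < y 0 := hy.1
  have h1 : y 0 < π / 2 := hy.2.1
  have hm : Measurable fun ψ => 1 / DD 0 ψ := by
    have h : Continuous fun ψ => DD 0 ψ := by unfold DD; fun_prop
    exact measurable_const.div h.measurable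
  have h := (intervalIntegral.integral_hasDerivAt_left (Lim1_f0_int h0 h1)
    hm.stronglyMeasurable.stronglyMeasurableAtFilter
    (Lim1_f0_cont h0 (by linarith))).continuousAt
  have e : ContinuousAt (fun z : Y8 => z 0) y := (continuous_apply 0).continuousAt
  exact (ContinuousAt.comp (f := fun z : Y8 => z 0) h e).continuousWithinAt

theorem Lim1_param0 {X : Type} [TopologicalSpace X] [FirstCountableTopology X]
    [LocallyCompactSpace X] {G : ℝ × ℝ → ℝ} (hG : Continuous G) {a b c : X → ℝ}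
    (ha : Continuous a) (hb : Continuous b) (hc : Continuous c) (h0 : ∀ x, c x < 0) :
    Continuous fun x => ∫ ψ in a x..b x, G (c x, ψ) / DD (c x) ψ := by
  have hq : Continuous fun p : X × ℝ => (c p.1, p.2) := by fun_prop
  have h1 : Continuous fun p : X × ℝ => G (c p.1, p.2) := hG.comp hq
  have h2 : Continuous fun p : X × ℝ => DD (c p.1) p.2 := by unfold DD; fun_prop
  have hf : Continuous (Function.uncurry fun (x : X) (t : ℝ) => G (c x, t) / DD (c x) t) :=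
    Continuous.div h1 h2 fun p => (Lim1_DD_pos (h0 p.1) p.2).ne'
  have g1 := intervalIntegral.continuous_parametric_intervalIntegral_of_continuous
    (μ := MeasureTheory.volume) (a₀ := 0) hf hb
  have g2 := intervalIntegral.continuous_parametric_intervalIntegral_of_continuous
    (μ := MeasureTheory.volume) (a₀ := 0) hf ha
  refine (g1.sub g2).congr fun x => ?_
  have h3 : Continuous fun t : ℝ => G (c x, t) := hG.comp (by fun_prop)
  have h4 : Continuous fun t : ℝ => DD (c x) t := by unfold DD; fun_prop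
  have hx : Continuous fun t : ℝ => G (c x, t) / DD (c x) t :=
    h3.div h4 fun t => (Lim1_DD_pos (h0 x) t).ne'
  exact intervalIntegral.integral_interval_sub_left (hx.intervalIntegrable _ _)
    (hx.intervalIntegrable _ _)

theorem Lim1_param {G : ℝ × ℝ → ℝ} (hG : Continuous G) :
    ContinuousOn (fun y : Y8 => ∫ ψ in y 4..y 3, G (cc y, ψ) / DD (cc y) ψ) {y | Yadm y} := by
  have ho : IsOpen {y : Y8 | cc y < 0} := isOpen_lt Lim1_cont_cc continuous_const
  refine ContinuousOn.mono (s := {y : Y8 | cc y < 0}) ?_ fun y hy => hy.2.2.1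
  have := ho.locallyCompactSpace
  have e : ∀ i : Fin 8, Continuous fun x : {y : Y8 | cc y < 0} => x.1 i :=
    fun i => (continuous_apply i).comp continuous_subtype_val
  have hc : Continuous fun x : {y : Y8 | cc y < 0} => cc x.1 :=
    Lim1_cont_cc.comp continuous_subtype_val
  have h := Lim1_param0 hG (e 4) (e 3) hc fun x => x.2
  exact continuousOn_iff_continuous_domRestrict.2 h

theorem continuousOn_ell : ContinuousOn ell {y | Yadm y} :=
  Lim1_param (G := fun _ => 1) continuous_const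

theorem continuousOn_rhoE : Continuous rhoE := by unfold rhoE rf DD cc rho; fun_prop

theorem Lim1_cont_nilv {κ x : Y8 → ℝ} (hκ : Continuous κ) (hx : Continuous x) :
    Continuous fun z => nilv (κ z) (x z) := by
  refine continuous_pi fun k => ?_
  fin_cases k
  · exact (hκ.div_const 2).mul (continuous_sin.comp hx)
  · exact ((hκ.div_const 2).mul (continuous_cos.comp hx)).neg
  · exact hκ.div_const 2

theorem Lim1_cont_av (j : Fin 5) : Continuous fun z => av z j := by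
  have a0 := Lim1_cont_nilv continuousOn_rhoE.neg (continuous_apply 4)
  have a1 := Lim1_cont_nilv Lim1_cont_rho.neg (continuous_apply 0)
  have a2 := Lim1_cont_nilv Lim1_cont_rho (continuous_apply 1)
  have a3 := Lim1_cont_nilv Lim1_cont_rho.neg (continuous_apply 2)
  have a4 := Lim1_cont_nilv Lim1_cont_rho (continuous_apply 3)
  fin_cases j
  · exact a0
  · exact a1
  · exact a2
  · exact a3
  · exact ((((a0.add a1).add a2).add a3).add a4).neg

theorem Lim1_cont_bil (i j : Fin 5) : Continuous fun z => bil (av z i) (av z j) := by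
  have h1 := continuous_pi_iff.1 (Lim1_cont_av i)
  have h2 := continuous_pi_iff.1 (Lim1_cont_av j)
  exact continuous_const.mul
    ((((h1 2).mul (h2 2)).sub ((h1 0).mul (h2 0))).sub ((h1 1).mul (h2 1)))

theorem Lim1_pos_ne {p : Fin 3 → ℝ} (h : AdmP p) {i j : Fin 5} (hij : i ≠ j) :
    pos p j - pos p i ≠ 0 := by
  obtain ⟨⟨h1, h2⟩, ⟨h3, h4⟩, h5, h6⟩ := h
  intro e
  fin_cases i <;> fin_cases j <;> simp [pos] at hij e <;> linarith

theorem Lim1_cont_pos (j : Fin 5) : Continuous fun z => pos (yp z) j := by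
  fin_cases j
  · exact continuous_const
  · exact continuous_const
  · exact continuous_apply 5
  · exact continuous_apply 6
  · exact continuous_apply 7

theorem Lim1_cont_resv (j : Fin 5) : ContinuousOn (fun z => resv z j) {y | Yadm y} := by
  refine continuousOn_finsetSum _ fun i hi => ?_
  exact (Lim1_cont_bil j i).continuousOn.div
    ((Lim1_cont_pos j).sub (Lim1_cont_pos i)).continuousOn
    fun y h => Lim1_pos_ne h.2.2.2.2 (Finset.ne_of_mem_erase hi)

theorem continuousOn_E0 : ContinuousOn E0 {y | Yadm y} := by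
  have hr := Lim1_cont_rho
  refine continuousOn_pi.2 fun i => ?_
  fin_cases i
  · exact Lim1_param (G := fun p => rf p.1 p.2 * sin p.2)
      (Lim1_rf_cont.mul (continuous_sin.comp continuous_snd))
  · exact ((hr.pow 2).sub ((hr.mul (continuous_sin.comp (continuous_apply 1))).div_const
      2)).continuousOn
  · exact ((hr.pow 2).sub ((hr.mul (continuous_sin.comp (continuous_apply 2))).div_const
      2)).continuousOn
  · exact (continuousOn_rhoE.sub hr).continuousOn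
  · exact ((Lim1_cont_bil 4 4).div_const 2).continuousOn
  · exact Lim1_cont_resv 2
  · exact Lim1_cont_resv 3
  · exact Lim1_cont_resv 4

theorem ell1_pos {y : Y8} (h : Yadm y) : 0 < ell1 y := by
  have hp := pi_pos
  have h0 : 0 < y 0 := h.1
  have h1 : y 0 < π / 2 := h.2.1
  refine intervalIntegral.intervalIntegral_pos_of_pos_on (Lim1_f0_int h0 h1) (fun x hx => ?_) h1
  exact one_div_pos.2 (Lim1_DD0_pos (by linarith [hx.1]) (by linarith [hx.2]))

theorem ell_pos {y : Y8} (h : Yadm y) : 0 < ell y := by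
  have hc : cc y < 0 := h.2.2.1
  have hD : Continuous fun ψ => DD (cc y) ψ := by unfold DD; fun_prop
  have hf : Continuous fun ψ => 1 / DD (cc y) ψ :=
    continuous_const.div hD fun ψ => (Lim1_DD_pos hc ψ).ne'
  exact intervalIntegral.intervalIntegral_pos_of_pos_on (hf.intervalIntegrable _ _)
    (fun x _ => one_div_pos.2 (Lim1_DD_pos hc x)) h.2.2.2.1

end Pool.Agent.MP_efb2da_gt
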