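import Pool.Agent.MP_efb2da_gt.Lim1

open Set Real
open scoped Topology

noncomputable section

namespace Pool.Agent.MP_efb2da_gt

/-- the integrand -/
def Lim2f (k t : ℝ) : ℝ := sin t ^ 2 / √(sin t ^ 2 + k)
/-- the integral over the loop -/
def Lim2J (a k : ℝ) : ℝ := ∫ t in (-π - a)..a, Lim2f k t
/-- the modulus -/
def Lim2k (ψ : ℝ) : ℝ := 4 * (sin ψ ^ 2 - sin ψ * sin (arccos (2 * cos ψ)))

theorem Lim2_sqrt_pos {k : ℝ} (hk : 0 < k) (t : ℝ) : 0 < √(sin t ^ 2 + k) :=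
  sqrt_pos.2 (by positivity)

theorem Lim2f_cont {k : ℝ} (hk : 0 < k) : Continuous (Lim2f k) :=
  Continuous.div (by fun_prop) (by fun_prop) fun t => (Lim2_sqrt_pos hk t).ne'

theorem Lim2f_nonneg (k t : ℝ) : 0 ≤ Lim2f k t := div_nonneg (sq_nonneg _) (sqrt_nonneg _)

theorem Lim2J_mono {a a' k k' : ℝ} (ha : 0 ≤ a) (haa : a ≤ a') (hk : 0 < k') (hkk : k' ≤ k) :
    Lim2J a k ≤ Lim2J a' k' := by
  have hp := pi_pos
  have h1 : Lim2J a k ≤ Lim2J a k' := by
    refine intervalIntegral.integral_mono_on (by linarith)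
      ((Lim2f_cont (hk.trans_le hkk)).intervalIntegrable _ _)
      ((Lim2f_cont hk).intervalIntegrable _ _) fun t _ => ?_
    exact div_le_div_of_nonneg_left (sq_nonneg _) (Lim2_sqrt_pos hk t)
      (sqrt_le_sqrt (by linarith))
  refine h1.trans (intervalIntegral.integral_mono_interval (by linarith) (by linarith) haa
    (Filter.Eventually.of_forall fun t => Lim2f_nonneg k' t)
    ((Lim2f_cont hk).intervalIntegrable _ _))

theorem Lim2J_cont {X : Type} [TopologicalSpace X] [FirstCountableTopology X]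
    [LocallyCompactSpace X] {a k : X → ℝ} (ha : Continuous a) (hk : Continuous k)
    (h0 : ∀ x, 0 < k x) : Continuous fun x => Lim2J (a x) (k x) := by
  have hf : Continuous (Function.uncurry fun x t => Lim2f (k x) t) :=
    Continuous.div (by fun_prop) (by fun_prop) fun p => (Lim2_sqrt_pos (h0 p.1) p.2).ne'
  have h1 := intervalIntegral.continuous_parametric_intervalIntegral_of_continuous
    (μ := MeasureTheory.volume) (a₀ := 0) hf ha
  have h2 := intervalIntegral.continuous_parametric_intervalIntegral_of_continuous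
    (μ := MeasureTheory.volume) (a₀ := 0) hf (s := fun x => -π - a x) (by fun_prop)
  refine (h1.sub h2).congr fun x => ?_
  exact intervalIntegral.integral_interval_sub_left
    ((Lim2f_cont (h0 x)).intervalIntegrable _ _) ((Lim2f_cont (h0 x)).intervalIntegrable _ _)

theorem Lim2J_hi : Lim2J 0 3 ≤ π / 2 := by
  have hp := pi_pos
  have h : Lim2J 0 3 ≤ ∫ _ in (-π - 0)..0, (1 / 2 : ℝ) := by
    refine intervalIntegral.integral_mono_on (by linarith)
      ((Lim2f_cont (by norm_num)).intervalIntegrable _ _) (by simp) fun t _ => ?_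
    rw [Lim2f, div_le_iff₀ (Lim2_sqrt_pos (by norm_num) t)]
    have h1 := sin_sq_le_one t
    have h2 : 2 * sin t ^ 2 ≤ √(sin t ^ 2 + 3) :=
      le_sqrt_of_sq_le (by nlinarith [sq_nonneg (sin t)])
    linarith
  rw [intervalIntegral.integral_const, smul_eq_mul] at h
  linarith

theorem Lim2J_lo : 1 < Lim2J 0 1 := by
  have hp := pi_gt_three
  have h : ∫ t in (-π - 0)..0, 2 / 3 * sin t ^ 2 ≤ Lim2J 0 1 := by
    refine intervalIntegral.integral_mono_on (by linarith)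
      (Continuous.intervalIntegrable (by fun_prop) _ _)
      ((Lim2f_cont (by norm_num)).intervalIntegrable _ _) fun t _ => ?_
    rw [Lim2f, le_div_iff₀ (Lim2_sqrt_pos (by norm_num) t)]
    have h1 := sin_sq_le_one t
    have h2 : √(sin t ^ 2 + 1) ≤ 3 / 2 := sqrt_le_iff.2 ⟨by norm_num, by linarith⟩
    nlinarith [sq_nonneg (sin t)]
  rw [intervalIntegral.integral_const_mul, integral_sin_sq] at h
  simp only [sub_zero, sin_neg, sin_pi, sin_zero, neg_zero, zero_mul] at h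
  linarith

theorem Lim2_basic {ψ : ℝ} (h1 : π / 3 ≤ ψ) (h2 : ψ < π / 2) :
    0 < cos ψ ∧ cos ψ ≤ 1 / 2 ∧ 0 ≤ sin ψ ∧ 0 ≤ sin (arccos (2 * cos ψ)) ∧
      sin (arccos (2 * cos ψ)) ^ 2 = 1 - 4 * cos ψ ^ 2 := by
  have hp := pi_pos
  have a1 : 0 < cos ψ := cos_pos_of_mem_Ioo ⟨by linarith, h2⟩
  have a2 : cos ψ ≤ 1 / 2 := by
    rw [← cos_pi_div_three]
    exact cos_le_cos_of_nonneg_of_le_pi (by linarith) (by linarith) h1
  refine ⟨a1, a2, sin_nonneg_of_nonneg_of_le_pi (by linarith) (by linarith),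
    sin_nonneg_of_nonneg_of_le_pi (arccos_nonneg _) (arccos_le_pi _), ?_⟩
  rw [sin_sq, cos_arccos (by linarith) (by linarith)]
  ring

theorem Lim2k_pos {ψ : ℝ} (h1 : π / 3 ≤ ψ) (h2 : ψ < π / 2) : 0 < Lim2k ψ := by
  obtain ⟨a1, a2, a3, a4, a5⟩ := Lim2_basic h1 h2
  have a6 := sin_sq_add_cos_sq ψ
  have a7 : sin (arccos (2 * cos ψ)) < sin ψ :=
    lt_of_pow_lt_pow_left₀ 2 a3 (by nlinarith)
  have a8 : 0 < sin ψ := a4.trans_lt a7
  unfold Lim2k
  nlinarith

theorem Lim2k_anti {ψ χ : ℝ} (h1 : π / 3 ≤ ψ) (h : ψ ≤ χ) (h2 : χ < π / 2) :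
    Lim2k χ ≤ Lim2k ψ := by
  have hp := pi_pos
  obtain ⟨a1, a2, a3, a4, a5⟩ := Lim2_basic h1 (h.trans_lt h2)
  obtain ⟨b1, b2, b3, b4, b5⟩ := Lim2_basic (h1.trans h) h2
  have a6 := sin_sq_add_cos_sq ψ
  have b6 := sin_sq_add_cos_sq χ
  have c : cos χ ≤ cos ψ := cos_le_cos_of_nonneg_of_le_pi (by linarith) (by linarith) h
  unfold Lim2k
  have a7 := sin_le_one ψ
  have a8 := sin_le_one (arccos (2 * cos ψ))
  generalize sin (arccos (2 * cos ψ)) = s at *
  generalize sin (arccos (2 * cos χ)) = s' at *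
  generalize sin ψ = r at *
  generalize sin χ = r' at *
  have d1 : cos χ ^ 2 ≤ cos ψ ^ 2 := pow_le_pow_left₀ b1.le c 2
  have d2 : cos ψ ^ 2 ≤ 1 / 4 := by nlinarith
  have d3 : 0 ≤ cos χ ^ 2 := sq_nonneg _
  generalize cos ψ ^ 2 = v at *
  generalize cos χ ^ 2 = u at *
  have e1 : (r * s) ^ 2 = (1 - v) * (1 - 4 * v) := by rw [mul_pow, a5]; congr 1; linarith
  have e2 : (r' * s') ^ 2 = (1 - u) * (1 - 4 * u) := by rw [mul_pow, b5]; congr 1; linarith
  have e3 : r * s ≤ 1 := mul_le_one₀ a7 a4 a8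
  have e4 : r * s + (v - u) ≤ r' * s' := by
    refine le_of_pow_le_pow_left₀ two_ne_zero (mul_nonneg b3 b4) ?_
    rw [e2, add_sq, e1]
    nlinarith [mul_nonneg (sub_nonneg.2 d1) (sub_nonneg.2 e3),
      mul_nonneg (sub_nonneg.2 d1) (sub_nonneg.2 d2)]
  linarith

theorem Lim2_formula {ψ : ℝ} (h1 : π / 3 ≤ ψ) (h2 : ψ < π / 2) :
    E0 (ystar ψ) 0 = -cos ψ + Lim2J (arccos (2 * cos ψ)) (Lim2k ψ) / 4 := by
  obtain ⟨a1, a2, -, -, -⟩ := Lim2_basic h1 h2
  have hk := Lim2k_pos h1 h2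
  have e0 : E0 (ystar ψ) 0 = ∫ t in (-π - arccos (2 * cos ψ))..arccos (2 * cos ψ),
      rf (cc (ystar ψ)) t * sin t / DD (cc (ystar ψ)) t := rfl
  have e1 : ∀ t, DD (cc (ystar ψ)) t = √(sin t ^ 2 + Lim2k ψ) := fun t => by
    have : cc (ystar ψ) = sin ψ / 2 * sin (arccos (2 * cos ψ)) / 2 - (sin ψ / 2) ^ 2 := rfl
    rw [DD, this, Lim2k]
    congr 1
    ring
  have e2 : ∀ t, rf (cc (ystar ψ)) t * sin t / DD (cc (ystar ψ)) t =
      (sin t + Lim2f (Lim2k ψ) t) / 4 := fun t => by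
    rw [rf, e1, Lim2f]
    have := (Lim2_sqrt_pos hk t).ne'
    field_simp
    ring
  rw [e0]
  simp only [e2]
  rw [intervalIntegral.integral_div, intervalIntegral.integral_add
    (continuous_sin.intervalIntegrable _ _) ((Lim2f_cont hk).intervalIntegrable _ _), integral_sin,
    show -π - arccos (2 * cos ψ) = -(arccos (2 * cos ψ) + π) by ring, cos_neg, cos_add_pi,
    cos_arccos (by linarith) (by linarith), Lim2J,
    show -π - arccos (2 * cos ψ) = -(arccos (2 * cos ψ) + π) by ring]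
  ring

theorem Lim2_strict {ψ χ : ℝ} (h1 : π / 3 ≤ ψ) (h : ψ < χ) (h2 : χ < π / 2) :
    E0 (ystar ψ) 0 < E0 (ystar χ) 0 := by
  have hp := pi_pos
  rw [Lim2_formula h1 (h.trans h2), Lim2_formula (h1.trans h.le) h2]
  have c : cos χ < cos ψ := cos_lt_cos_of_nonneg_of_le_pi (by linarith) (by linarith) h
  have := Lim2J_mono (arccos_nonneg (2 * cos ψ))
    (arccos_le_arccos (x := 2 * cos χ) (y := 2 * cos ψ) (by linarith))
    (Lim2k_pos (h1.trans h.le) h2) (Lim2k_anti h1 h.le h2)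
  linarith

/-- the closing condition of the nodoid loop has a root with a change of sign -/
theorem exists_root : ∃ ψ, π / 3 < ψ ∧ ψ < π / 2 ∧ E0 (ystar ψ) 0 = 0 ∧
    ∃ δ > 0, ∀ χ, (ψ - δ < χ → χ < ψ → E0 (ystar χ) 0 < 0) ∧
      (ψ < χ → χ < ψ + δ → 0 < E0 (ystar χ) 0) := by
  have hp := pi_pos
  have b0 : cos (arccos (1 / 4)) = 1 / 4 := cos_arccos (by norm_num) (by norm_num)
  have b1 : π / 3 ≤ arccos (1 / 4) := by
    rw [← arccos_cos (x := π / 3) (by linarith) (by linarith), cos_pi_div_three]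
    exact arccos_le_arccos (by norm_num)
  have b2 : arccos (1 / 4) < π / 2 := arccos_lt_pi_div_two.2 (by norm_num)
  generalize arccos (1 / 4) = b at *
  have hc : ContinuousOn (fun ψ => E0 (ystar ψ) 0) (Icc (π / 3) b) := by
    refine ContinuousOn.congr (f := fun ψ => -cos ψ + Lim2J (arccos (2 * cos ψ)) (Lim2k ψ) / 4)
      ?_ fun ψ hψ => Lim2_formula hψ.1 (hψ.2.trans_lt b2)
    rw [continuousOn_iff_continuous_domRestrict]
    have ha : Continuous fun x : Icc (π / 3) b => arccos (2 * cos x) :=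
      continuous_arccos.comp (by fun_prop)
    have := Lim2J_cont (X := Icc (π / 3) b) (k := fun x => Lim2k x) ha
      (by unfold Lim2k; fun_prop) fun x => Lim2k_pos x.2.1 (x.2.2.trans_lt b2)
    exact Continuous.add (by fun_prop) (this.div_const 4)
  have lo : E0 (ystar (π / 3)) 0 < 0 := by
    rw [Lim2_formula le_rfl (by linarith), Lim2k, cos_pi_div_three, sq_sin_pi_div_three,
      show (2 : ℝ) * (1 / 2) = 1 by norm_num, arccos_one, sin_zero,
      show (4 : ℝ) * (3 / 4 - sin (π / 3) * 0) = 3 by ring]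
    have := Lim2J_hi
    have := pi_le_four
    have := pi_lt_four
    linarith
  have hi : 0 < E0 (ystar b) 0 := by
    obtain ⟨-, -, a3, a4, a5⟩ := Lim2_basic b1 b2
    have a6 := sin_sq_add_cos_sq b
    have hk : Lim2k b ≤ 1 := by
      unfold Lim2k
      rw [b0] at a5 a6
      rw [b0] at a4 ⊢
      have : 11 / 16 ≤ sin b * sin (arccos (2 * (1 / 4))) := by
        refine le_of_pow_le_pow_left₀ two_ne_zero (mul_nonneg a3 a4) ?_
        rw [mul_pow, a5, show sin b ^ 2 = 15 / 16 by linarith]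
        norm_num
      linarith
    have := Lim2J_mono le_rfl (arccos_nonneg (2 * cos b)) (Lim2k_pos b1 b2) hk
    rw [Lim2_formula b1 b2]
    have := Lim2J_lo
    linarith
  obtain ⟨ψ, ⟨c1, c2⟩, c3⟩ := intermediate_value_Ioo b1 hc ⟨lo, hi⟩
  have c4 : E0 (ystar ψ) 0 = 0 := c3
  refine ⟨ψ, c1, c2.trans b2, c4, min (ψ - π / 3) (π / 2 - ψ),
    lt_min (by linarith) (by linarith), fun χ => ⟨fun d1 d2 => ?_, fun d1 d2 => ?_⟩⟩
  · have := min_le_left (ψ - π / 3) (π / 2 - ψ)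
    exact c4 ▸ Lim2_strict (by linarith) d2 (c2.trans b2)
  · have := min_le_right (ψ - π / 3) (π / 2 - ψ)
    exact c4 ▸ Lim2_strict c1.le d1 (by linarith)

end Pool.Agent.MP_efb2da_gt
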