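import Pool.Agent.MP_efb2da_gt.Lim1

open Set Real
open scoped Topology

noncomputable section

namespace Pool.Agent.MP_efb2da_gt

/-- first coordinate and the seven algebraic equations -/
def F8 (y : Y8) : Y8 := Function.update (E0 y) 0 (y 0)

lemma Lim3_cd_rho (y : Y8) : ContDiffAt ℝ 1 rho y := by
  unfold rho; fun_prop

lemma Lim3_cd_rhoE {y : Y8} (h : cc y < 0) : ContDiffAt ℝ 1 rhoE y := by
  have h1 : ContDiffAt ℝ 1 (fun z : Y8 => sin (z 4) ^ 2 - 16 * cc z) y := by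
    unfold cc rho; fun_prop
  have h2 : sin (y 4) ^ 2 - 16 * cc y ≠ 0 := by nlinarith [sq_nonneg (sin (y 4))]
  have h3 := h1.sqrt h2
  have h4 : ContDiffAt ℝ 1 (fun z : Y8 => sin (z 4)) y := by fun_prop
  exact (h4.add h3).div_const 4

lemma Lim3_cd_nilv {κ x : Y8 → ℝ} {y : Y8} (hκ : ContDiffAt ℝ 1 κ y) (hx : ContDiffAt ℝ 1 x y) :
    ContDiffAt ℝ 1 (fun z => nilv (κ z) (x z)) y := by
  refine contDiffAt_pi.2 fun k => ?_
  fin_cases k
  · exact (hκ.div_const 2).mul hx.sin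
  · exact ((hκ.div_const 2).mul hx.cos).neg
  · exact hκ.div_const 2

lemma Lim3_cd_av {y : Y8} (h : cc y < 0) (j : Fin 5) : ContDiffAt ℝ 1 (fun z => av z j) y := by
  have e : ∀ i : Fin 8, ContDiffAt ℝ 1 (fun z : Y8 => z i) y := fun i => by fun_prop
  have a0 := Lim3_cd_nilv (Lim3_cd_rhoE h).neg (e 4)
  have a1 := Lim3_cd_nilv (Lim3_cd_rho y).neg (e 0)
  have a2 := Lim3_cd_nilv (Lim3_cd_rho y) (e 1)
  have a3 := Lim3_cd_nilv (Lim3_cd_rho y).neg (e 2)
  have a4 := Lim3_cd_nilv (Lim3_cd_rho y) (e 3)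
  fin_cases j
  · exact a0
  · exact a1
  · exact a2
  · exact a3
  · exact ((((a0.add a1).add a2).add a3).add a4).neg

lemma Lim3_cd_bil {u v : Y8 → Fin 3 → ℝ} {y : Y8} (hu : ContDiffAt ℝ 1 u y)
    (hv : ContDiffAt ℝ 1 v y) : ContDiffAt ℝ 1 (fun z => bil (u z) (v z)) y := by
  have h1 := contDiffAt_pi.1 hu
  have h2 := contDiffAt_pi.1 hv
  exact contDiffAt_const.mul ((((h1 2).mul (h2 2)).sub ((h1 0).mul (h2 0))).sub ((h1 1).mul (h2 1)))

lemma Lim3_pos_ne {p : Fin 3 → ℝ} (h : AdmP p) {i j : Fin 5} (hij : i ≠ j) :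
    pos p j - pos p i ≠ 0 := by
  obtain ⟨⟨h1, h2⟩, ⟨h3, h4⟩, h5, h6⟩ := h
  intro e
  fin_cases i <;> fin_cases j <;> simp [pos] at hij e <;> linarith

lemma Lim3_cd_pos (y : Y8) (j : Fin 5) : ContDiffAt ℝ 1 (fun z => pos (yp z) j) y := by
  have e : ∀ i : Fin 8, ContDiffAt ℝ 1 (fun z : Y8 => z i) y := fun i => by fun_prop
  fin_cases j
  · exact contDiffAt_const
  · exact contDiffAt_const
  · exact e 5
  · exact e 6
  · exact e 7

lemma Lim3_cd_resv {y : Y8} (h : Yadm y) (j : Fin 5) : ContDiffAt ℝ 1 (fun z => resv z j) y := by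
  refine ContDiffAt.sum fun i hi => ?_
  exact (Lim3_cd_bil (Lim3_cd_av h.2.2.1 j) (Lim3_cd_av h.2.2.1 i)).div
    ((Lim3_cd_pos y j).sub (Lim3_cd_pos y i))
    (Lim3_pos_ne h.2.2.2.2 (Finset.ne_of_mem_erase hi))

lemma Lim3_F8 (y : Y8) : F8 y = ![y 0, rho y ^ 2 - rho y * sin (y 1) / 2,
    rho y ^ 2 - rho y * sin (y 2) / 2, rhoE y - rho y,
    bil (av y 4) (av y 4) / 2, resv y 2, resv y 3, resv y 4] := by
  funext i
  fin_cases i <;> rfl

lemma Lim3_cd_F8 {y : Y8} (h : Yadm y) : ContDiffAt ℝ 1 F8 y := by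
  have e : ∀ i : Fin 8, ContDiffAt ℝ 1 (fun z : Y8 => z i) y := fun i => by fun_prop
  have hr := Lim3_cd_rho y
  refine contDiffAt_pi.2 fun i => ?_
  simp only [Lim3_F8]
  fin_cases i
  · exact e 0
  · exact (hr.pow 2).sub ((hr.mul (e 1).sin).div_const 2)
  · exact (hr.pow 2).sub ((hr.mul (e 2).sin).div_const 2)
  · exact (Lim3_cd_rhoE h.2.2.1).sub hr
  · exact (Lim3_cd_bil (Lim3_cd_av h.2.2.1 4) (Lim3_cd_av h.2.2.1 4)).div_const 2
  · exact Lim3_cd_resv h 2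
  · exact Lim3_cd_resv h 3
  · exact Lim3_cd_resv h 4

lemma Lim3_line (c d : ℝ) : HasDerivAt (fun τ : ℝ => c + τ * d) d 0 := by
  simpa using ((hasDerivAt_id (0:ℝ)).mul_const d).const_add c

lemma Lim3_sin (c d : ℝ) : HasDerivAt (fun τ : ℝ => sin (c + τ * d)) (cos c * d) 0 := by
  simpa using (Lim3_line c d).sin

lemma Lim3_cos (c d : ℝ) : HasDerivAt (fun τ : ℝ => cos (c + τ * d)) (-sin c * d) 0 := by
  simpa using (Lim3_line c d).cos

lemma Lim3_div (b : ℝ) {c : ℝ} (d : ℝ) (hc : c ≠ 0) :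
    HasDerivAt (fun τ : ℝ => b / (c + τ * d)) (-(b / c ^ 2) * d) 0 := by
  have := (hasDerivAt_const (0:ℝ) b).div (Lim3_line c d) (by simpa using hc)
  refine this.congr_deriv ?_
  simp only [zero_mul, add_zero, zero_sub]
  ring

lemma Lim3_solve {B P p u v w : ℝ} (hB : 0 < B) (hP : 0 < P) (h0 : 0 < p) (h1 : p < 1)
    (hp : P * (1 - p ^ 2) = 2 * B)
    (e1 : P * u + B / (1 - p) ^ 2 * u + B / (1 + p) ^ 2 * (u - v) = 0)
    (e2 : -P * v + B / (1 + p) ^ 2 * (v - u) + B / (1 - p) ^ 2 * (v - w) = 0)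
    (e3 : P * w + B / (1 + p) ^ 2 * w + B / (1 - p) ^ 2 * (w - v) = 0) :
    u = 0 ∧ v = 0 ∧ w = 0 := by
  have k1 : 0 < 1 - p := by linarith
  have k2 : 0 < 1 + p := by linarith
  have hal : 0 < B / (1 - p) ^ 2 := by positivity
  have hg : 0 < B / (1 + p) ^ 2 := by positivity
  have hpr : 4 * (B / (1 - p) ^ 2 * (B / (1 + p) ^ 2)) = P ^ 2 := by
    have : B = P * ((1 - p) * (1 + p)) / 2 := by linarith
    rw [this]
    field_simp
    ring
  generalize B / (1 - p) ^ 2 = al at *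
  generalize B / (1 + p) ^ 2 = g at *
  have hT : 0 < al + g + P := by linarith
  have hv : P ^ 2 * v = 0 := by
    linear_combination (-2) * (al + g + P) * e2 - 2 * g * e1 - 2 * al * e3 + v * hpr
  have hv0 : v = 0 := by
    rcases mul_eq_zero.1 hv with h | h
    · exact absurd h (by positivity)
    · exact h
  subst hv0
  refine ⟨?_, rfl, ?_⟩
  · have : (al + g + P) * u = 0 := by linear_combination e1
    exact (mul_eq_zero.1 this).resolve_left hT.ne'
  · have : (al + g + P) * w = 0 := by linear_combination e3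
    exact (mul_eq_zero.1 this).resolve_left hT.ne'

lemma Lim3_facts {ψ : ℝ} (h1 : π / 3 < ψ) (h2 : ψ < π / 2) :
    0 < cos ψ ∧ cos ψ < 1 / 2 ∧ 0 < sin ψ ∧ cos (arccos (2 * cos ψ)) = 2 * cos ψ ∧
      0 < sin (arccos (2 * cos ψ)) := by
  have hp := pi_pos
  have k1 : 0 < cos ψ := cos_pos_of_mem_Ioo ⟨by linarith, h2⟩
  have k2 : cos ψ < 1 / 2 := by
    rw [← cos_pi_div_three]
    exact cos_lt_cos_of_nonneg_of_le_pi (by linarith) (by linarith) h1
  refine ⟨k1, k2, sin_pos_of_pos_of_lt_pi (by linarith) (by linarith),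
    cos_arccos (by linarith) (by linarith), ?_⟩
  rw [sin_arccos]
  exact sqrt_pos.2 (by nlinarith)

lemma Lim3_ker {ψ : ℝ} (h1 : π / 3 < ψ) (h2 : ψ < π / 2) (w : Y8)
    (H : ∀ i, HasDerivAt (fun τ : ℝ => F8 (ystar ψ + τ • w) i) 0 0) : w = 0 := by
  obtain ⟨f1, f2, f3, f4, f5⟩ := Lim3_facts h1 h2
  have hadm : Yadm (ystar ψ) := (yadm_near h1 h2).self_of_nhds
  have hE := rhoE_ystar h1 h2
  obtain ⟨p1, p2⟩ := pstar_bounds h1 h2
  have hsc := sin_sq_add_cos_sq ψ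
  have hpd : pstar ψ = √((1 - 2 * cos ψ ^ 2 - sin ψ * sin (arccos (2 * cos ψ))) /
    (1 + 2 * cos ψ ^ 2 - sin ψ * sin (arccos (2 * cos ψ)))) := rfl
  have hcc := hadm.2.2.1
  have c0 : ∀ τ : ℝ, (ystar ψ + τ • w) 0 = ψ + τ * w 0 := fun _ => rfl
  have c1 : ∀ τ : ℝ, (ystar ψ + τ • w) 1 = π - ψ + τ * w 1 := fun _ => rfl
  have c2 : ∀ τ : ℝ, (ystar ψ + τ • w) 2 = ψ + τ * w 2 := fun _ => rfl
  have c3 : ∀ τ : ℝ, (ystar ψ + τ • w) 3 = arccos (2 * cos ψ) + τ * w 3 := fun _ => rfl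
  have c4 : ∀ τ : ℝ, (ystar ψ + τ • w) 4 = -π - arccos (2 * cos ψ) + τ * w 4 := fun _ => rfl
  have c5 : ∀ τ : ℝ, (ystar ψ + τ • w) 5 = pstar ψ + τ * w 5 := fun _ => rfl
  have c6 : ∀ τ : ℝ, (ystar ψ + τ • w) 6 = -1 + τ * w 6 := fun _ => rfl
  have c7 : ∀ τ : ℝ, (ystar ψ + τ • w) 7 = -pstar ψ + τ * w 7 := fun _ => rfl
  have d0 : ystar ψ 0 = ψ := rfl
  have d3 : ystar ψ 3 = arccos (2 * cos ψ) := rfl
  have d4 : ystar ψ 4 = -π - arccos (2 * cos ψ) := rfl
  simp only [rhoE, rf, DD, cc, rho, d0, d3, d4] at hE hcc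
  generalize arccos (2 * cos ψ) = a at *
  generalize pstar ψ = p at *
  generalize ystar ψ = y at *
  have s4 : sin (-π - a) = sin a := by
    rw [show -π - a = -(a + π) by ring, sin_neg, sin_add_pi, neg_neg]
  have k4 : cos (-π - a) = -(2 * cos ψ) := by
    rw [show -π - a = -(a + π) by ring, cos_neg, cos_add_pi, f4]
  simp only [Lim3_F8] at H
  have w0 : w 0 = 0 := by
    have u : HasDerivAt (fun τ : ℝ => (y + τ • w) 0) 0 0 := H 0
    simp only [c0] at u
    exact (Lim3_line ψ (w 0)).unique u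
  have hr : ∀ τ : ℝ, rho (y + τ • w) = sin ψ / 2 := fun τ => by
    simp only [rho, c0, w0, mul_zero, add_zero]
  have w1 : w 1 = 0 := by
    have t := (((Lim3_sin (π - ψ) (w 1)).const_mul (sin ψ / 2)).div_const 2).const_sub
      ((sin ψ / 2) ^ 2)
    have u : HasDerivAt (fun τ : ℝ => rho (y + τ • w) ^ 2 -
      rho (y + τ • w) * sin ((y + τ • w) 1) / 2) 0 0 := H 1
    simp only [hr, c1] at u
    have e := t.unique u
    rw [cos_pi_sub] at e
    have : (sin ψ * cos ψ) * w 1 = 0 := by linear_combination 4 * e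
    exact (mul_eq_zero.1 this).resolve_left (by positivity)
  have w2 : w 2 = 0 := by
    have t := (((Lim3_sin ψ (w 2)).const_mul (sin ψ / 2)).div_const 2).const_sub
      ((sin ψ / 2) ^ 2)
    have u : HasDerivAt (fun τ : ℝ => rho (y + τ • w) ^ 2 -
      rho (y + τ • w) * sin ((y + τ • w) 2) / 2) 0 0 := H 2
    simp only [hr, c2] at u
    have e := t.unique u
    have : (sin ψ * cos ψ) * w 2 = 0 := by linear_combination (-4) * e
    exact (mul_eq_zero.1 this).resolve_left (by positivity)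
  have hE' : HasDerivAt (fun τ : ℝ => rhoE (y + τ • w)) 0 0 := by
    have u : HasDerivAt (fun τ : ℝ => rhoE (y + τ • w) - rho (y + τ • w)) 0 0 := H 3
    simp only [hr] at u
    simpa using u.add_const (sin ψ / 2)
  have w4 : w 4 = -w 3 := by
    have t1 := Lim3_sin (-π - a) (w 4)
    have t2 := ((((Lim3_sin a (w 3)).const_mul (sin ψ / 2)).div_const 2).sub_const
      ((sin ψ / 2) ^ 2)).const_mul 16
    have hpos : 0 < sin (-π - a) ^ 2 - 16 * (sin ψ / 2 * sin a / 2 - (sin ψ / 2) ^ 2) := by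
      nlinarith [sq_nonneg (sin (-π - a))]
    have t3 := ((t1.pow 2).sub t2).sqrt (by simpa using hpos.ne')
    have t4 := (t1.add t3).div_const 4
    have u := hE'
    simp only [rhoE, rf, DD, cc, hr, c3, c4] at u
    have e := t4.unique u
    have hD := sqrt_pos.2 hpos
    simp only [Pi.sub_apply, Pi.pow_apply, zero_mul, add_zero] at e
    generalize √(sin (-π - a) ^ 2 - 16 * (sin ψ / 2 * sin a / 2 - (sin ψ / 2) ^ 2)) = D at *
    rw [s4] at hE
    rw [s4, k4, f4] at e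
    field_simp at e
    have : (sin ψ * cos ψ) * (w 4 + w 3) = 0 := by
      have hD2 : D = 2 * sin ψ - sin a := by linarith
      rw [hD2] at e
      push_cast at e
      linear_combination (-1/16) * e
    have := (mul_eq_zero.1 this).resolve_left (by positivity)
    linarith
  have hE0 : rhoE (y + (0:ℝ) • w) = sin ψ / 2 := by
    simp only [rhoE, rf, DD, cc, hr, c3, c4, zero_mul, add_zero]
    exact hE
  have w3 : w 3 = 0 := by
    have u : HasDerivAt (fun τ : ℝ => bil (av (y + τ • w) 4) (av (y + τ • w) 4) / 2) 0 0 := H 4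
    have q : ∀ τ : ℝ, bil (av (y + τ • w) 4) (av (y + τ • w) 4) / 2 =
        (rhoE (y + τ • w) / 2) ^ 2 - ((rhoE (y + τ • w) * sin (-π - a + τ * w 4) +
          sin ψ / 2 * sin ψ - sin ψ / 2 * sin (a + τ * w 3)) / 2) ^ 2 -
          ((-(rhoE (y + τ • w) * cos (-π - a + τ * w 4)) - 3 * (sin ψ / 2) * cos ψ +
            sin ψ / 2 * cos (a + τ * w 3)) / 2) ^ 2 := fun τ => by
      simp only [bil, av, nilv, hr, c0, c1, c2, c3, c4, w0, w1, w2, mul_zero, add_zero,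
        sin_pi_sub, cos_pi_sub]
      simp
      ring
    simp only [q] at u
    have t1 := (hE'.div_const 2).pow 2
    have t2 := ((((hE'.mul (Lim3_sin (-π - a) (w 4))).add_const (sin ψ / 2 * sin ψ)).sub
      ((Lim3_sin a (w 3)).const_mul (sin ψ / 2))).div_const 2).pow 2
    have t3 := (((((hE'.mul (Lim3_cos (-π - a) (w 4))).neg).sub_const
      (3 * (sin ψ / 2) * cos ψ)).add ((Lim3_cos a (w 3)).const_mul (sin ψ / 2))).div_const 2).pow 2
    have e := ((t1.sub t2).sub t3).unique u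
    simp only [Pi.sub_apply, Pi.add_apply, Pi.mul_apply, Pi.neg_apply, hE0, zero_mul, add_zero,
      s4, k4, f4, w4] at e
    have : (sin ψ ^ 2 * cos ψ * sin a) * w 3 = 0 := by
      push_cast at e
      linear_combination 4 * e
    exact (mul_eq_zero.1 this).resolve_left (by positivity)
  have w4' : w 4 = 0 := by rw [w4, w3, neg_zero]
  have hE1 : ∀ τ : ℝ, rhoE (y + τ • w) = sin ψ / 2 := fun τ => by
    simp only [rhoE, rf, DD, cc, hr, c3, c4, w3, w4', mul_zero, add_zero]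
    exact hE
  have hP : 0 < 1 + 2 * cos ψ ^ 2 - sin ψ * sin a := by
    nlinarith [sin_le_one a, sin_le_one ψ, mul_pos f1 f1]
  have hp2 : p ^ 2 * (1 + 2 * cos ψ ^ 2 - sin ψ * sin a) = 1 - 2 * cos ψ ^ 2 - sin ψ * sin a := by
    have : 0 < √((1 - 2 * cos ψ ^ 2 - sin ψ * sin a) / (1 + 2 * cos ψ ^ 2 - sin ψ * sin a)) := by
      rw [← hpd]; linarith
    rw [hpd, sq_sqrt (sqrt_pos.1 this).le]
    field_simp
  obtain ⟨B, hB⟩ : ∃ B, B = (sin ψ / 2) ^ 2 * cos ψ ^ 2 := ⟨_, rfl⟩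
  obtain ⟨P, hPd⟩ : ∃ P, P = (sin ψ / 2) ^ 2 * (1 + 2 * cos ψ ^ 2 - sin ψ * sin a) / 2 := ⟨_, rfl⟩
  have hB0 : 0 < B := by rw [hB]; positivity
  have hP0 : 0 < P := by rw [hPd]; positivity
  have hav : ∀ τ : ℝ, av (y + τ • w) = ![nilv (-(sin ψ / 2)) (-π - a), nilv (-(sin ψ / 2)) ψ,
      nilv (sin ψ / 2) (π - ψ), nilv (-(sin ψ / 2)) ψ, nilv (sin ψ / 2) (π - ψ)] := fun τ => by
    simp only [av, hr, hE1, c0, c1, c2, c3, c4, w0, w1, w2, w3, w4', mul_zero, add_zero]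
    congr 5
    funext k
    fin_cases k <;> simp [nilv, s4, k4, f4] <;> ring
  have b1 : bil (nilv (sin ψ / 2) (π - ψ)) (nilv (-(sin ψ / 2)) (-π - a)) = -(P * p ^ 2) := by
    simp [bil, nilv, s4, k4, hPd]
    linear_combination (sin ψ / 2) ^ 2 / 2 * hp2
  have b2 : bil (nilv (sin ψ / 2) (π - ψ)) (nilv (-(sin ψ / 2)) ψ) = -B := by
    simp [bil, nilv, hB]
    linear_combination (sin ψ / 2) ^ 2 / 2 * hsc
  have b3 : bil (nilv (-(sin ψ / 2)) ψ) (nilv (sin ψ / 2) (π - ψ)) = -B := by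
    simp [bil, nilv, hB]
    linear_combination (sin ψ / 2) ^ 2 / 2 * hsc
  have b4 : bil (nilv (-(sin ψ / 2)) ψ) (nilv (-(sin ψ / 2)) (-π - a)) = P := by
    simp [bil, nilv, s4, k4, hPd]
    ring
  have b5 : ∀ κ x : ℝ, bil (nilv κ x) (nilv κ x) = 0 := fun κ x => by
    simp [bil, nilv]
    linear_combination -(κ / 2) ^ 2 * sin_sq_add_cos_sq x
  have n1 : p ≠ 0 := by linarith
  have n2 : p - 1 ≠ 0 := by linarith
  have n3 : p + 1 ≠ 0 := by linarith
  have e1 : P * w 5 + B / (1 - p) ^ 2 * w 5 + B / (1 + p) ^ 2 * (w 5 - w 6) = 0 := by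
    have u : HasDerivAt (fun τ : ℝ => resv (y + τ • w) 2) 0 0 := H 5
    have q : ∀ τ : ℝ, resv (y + τ • w) 2 = -(P * p ^ 2) / (p + τ * w 5) +
        -B / (p - 1 + τ * w 5) + -B / (p + 1 + τ * (w 5 - w 6)) := fun τ => by
      rw [resv, show Finset.univ.erase (2 : Fin 5) = {0, 1, 3, 4} by decide, hav]
      simp only [Finset.mem_insert, Finset.mem_singleton, Fin.reduceEq, or_self,
        not_false_eq_true, Finset.sum_insert, Finset.sum_singleton, pos, yp, c5, c6, c7]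
      simp only [Matrix.cons_val, b1, b2, b5, zero_div, add_zero, sub_zero]
      ring
    simp only [q] at u
    have e := (((Lim3_div (-(P * p ^ 2)) (w 5) n1).add (Lim3_div (-B) (w 5) n2)).add
      (Lim3_div (-B) (w 5 - w 6) n3)).unique u
    rw [← e, show (1 - p) ^ 2 = (p - 1) ^ 2 by ring, add_comm 1 p]
    field_simp
  have e2 : -P * w 6 + B / (1 + p) ^ 2 * (w 6 - w 5) + B / (1 - p) ^ 2 * (w 6 - w 7) = 0 := by
    have u : HasDerivAt (fun τ : ℝ => resv (y + τ • w) 3) 0 0 := H 6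
    have q : ∀ τ : ℝ, resv (y + τ • w) 3 = P / (-1 + τ * w 6) +
        -B / (-(p + 1) + τ * (w 6 - w 5)) + -B / (p - 1 + τ * (w 6 - w 7)) := fun τ => by
      rw [resv, show Finset.univ.erase (3 : Fin 5) = {0, 1, 2, 4} by decide, hav]
      simp only [Finset.mem_insert, Finset.mem_singleton, Fin.reduceEq, or_self,
        not_false_eq_true, Finset.sum_insert, Finset.sum_singleton, pos, yp, c5, c6, c7]
      simp only [Matrix.cons_val, b3, b4, b5, zero_div, add_zero, zero_add, sub_zero]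
      ring
    simp only [q] at u
    have e := (((Lim3_div P (w 6) (by norm_num : (-1:ℝ) ≠ 0)).add
      (Lim3_div (-B) (w 6 - w 5) (neg_ne_zero.2 n3))).add
      (Lim3_div (-B) (w 6 - w 7) n2)).unique u
    rw [← e, show (1 - p) ^ 2 = (p - 1) ^ 2 by ring, add_comm 1 p]
    field_simp
  have e3 : P * w 7 + B / (1 + p) ^ 2 * w 7 + B / (1 - p) ^ 2 * (w 7 - w 6) = 0 := by
    have u : HasDerivAt (fun τ : ℝ => resv (y + τ • w) 4) 0 0 := H 7
    have q : ∀ τ : ℝ, resv (y + τ • w) 4 = -(P * p ^ 2) / (-p + τ * w 7) +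
        -B / (-(p + 1) + τ * w 7) + -B / (-(p - 1) + τ * (w 7 - w 6)) := fun τ => by
      rw [resv, show Finset.univ.erase (4 : Fin 5) = {0, 1, 2, 3} by decide, hav]
      simp only [Finset.mem_insert, Finset.mem_singleton, Fin.reduceEq, or_self,
        not_false_eq_true, Finset.sum_insert, Finset.sum_singleton, pos, yp, c5, c6, c7]
      simp only [Matrix.cons_val, b1, b2, b5, zero_div, add_zero, zero_add, sub_zero]
      ring
    simp only [q] at u
    have e := (((Lim3_div (-(P * p ^ 2)) (w 7) (neg_ne_zero.2 n1)).add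
      (Lim3_div (-B) (w 7) (neg_ne_zero.2 n3))).add
      (Lim3_div (-B) (w 7 - w 6) (neg_ne_zero.2 n2))).unique u
    rw [← e, show (1 - p) ^ 2 = (p - 1) ^ 2 by ring, add_comm 1 p]
    field_simp
  obtain ⟨w5, w6, w7⟩ := Lim3_solve hB0 hP0 (by linarith) (by linarith)
    (by rw [hB, hPd]; linear_combination -(sin ψ / 2) ^ 2 / 2 * hp2) e1 e2 e3
  funext i
  fin_cases i
  exacts [w0, w1, w2, w3, w4', w5, w6, w7]

theorem exists_localInv {ψ : ℝ} (h1 : π / 3 < ψ) (h2 : ψ < π / 2) :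
    ∃ e : OpenPartialHomeomorph Y8 Y8, ystar ψ ∈ e.source ∧ ∀ y ∈ e.source, e y = F8 y := by
  have hc := Lim3_cd_F8 (yadm_near h1 h2).self_of_nhds
  have hd := (hc.differentiableAt one_ne_zero).hasFDerivAt
  have hinj : Function.Injective (fderiv ℝ F8 (ystar ψ)).toLinearMap := by
    refine (injective_iff_map_eq_zero _).2 fun w hw => Lim3_ker h1 h2 w ?_
    have hw' : fderiv ℝ F8 (ystar ψ) w = 0 := hw
    have g : HasDerivAt (fun τ : ℝ => ystar ψ + τ • w) w 0 := by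
      simpa using ((hasDerivAt_id (0:ℝ)).smul_const w).const_add (ystar ψ)
    have := HasFDerivAt.comp_hasDerivAt_of_eq (0:ℝ) hd g (by simp)
    rw [hw'] at this
    exact hasDerivAt_pi.1 this
  let L : Y8 ≃L[ℝ] Y8 := (LinearEquiv.ofInjectiveEndo _ hinj).toContinuousLinearEquiv
  have hL : HasFDerivAt F8 (L : Y8 →L[ℝ] Y8) (ystar ψ) := hd
  exact ⟨hc.toOpenPartialHomeomorph F8 hL one_ne_zero,
    hc.mem_toOpenPartialHomeomorph_source hL one_ne_zero, fun y _ => rfl⟩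

end Pool.Agent.MP_efb2da_gt
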