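import Pool.Agent.MP_efb2da_gt.Lim2
import Pool.Agent.MP_efb2da_gt.Lim3

open Set Real
open scoped Topology

noncomputable section

namespace Pool.Agent.MP_efb2da_gt

/-- the point `(χ, 0, …, 0)` -/
def Lim4w (χ : ℝ) : Y8 := fun i => if i = 0 then χ else 0

/-- the affine parametrisation of the small box -/
def Lim4v (ψ d₁ d₂ : ℝ) (x : Y8) : Y8 := fun i => if i = 0 then ψ + d₁ * x 0 else d₂ * x i

theorem Lim4_F8_ystar {ψ : ℝ} (h1 : π / 3 < ψ) (h2 : ψ < π / 2) : F8 (ystar ψ) = Lim4w ψ := by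
  funext i
  by_cases hi : i = 0
  · subst hi
    simp [F8, Lim4w, ystar]
  · simp only [F8, Lim4w, hi, if_false]
    rw [Function.update_of_ne hi]
    exact E0_ystar h1 h2 i hi

theorem Lim4_v_cont (ψ d₁ d₂ : ℝ) : Continuous (Lim4v ψ d₁ d₂) := by
  refine continuous_pi fun i => ?_
  by_cases hi : i = 0
  · simp only [Lim4v, hi, if_true]
    fun_prop
  · simp only [Lim4v, hi, if_false]
    fun_prop

theorem Lim4_dist_box {ψ d₁ d₂ r : ℝ} (h₁ : 0 < d₁) (h₂ : 0 < d₂) (hr₁ : d₁ < r) (hr₂ : d₂ < r)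
    {x : Y8} (hx : ∀ i, |x i| ≤ 1) : dist (Lim4v ψ d₁ d₂ x) (Lim4w ψ) < r := by
  rw [dist_pi_lt_iff (lt_trans h₁ hr₁)]
  intro i
  by_cases hi : i = 0
  · simp only [Lim4v, Lim4w, hi, if_true, Real.dist_eq, add_sub_cancel_left, abs_mul,
      abs_of_pos h₁]
    have := hx 0
    nlinarith
  · simp only [Lim4v, Lim4w, hi, if_false, Real.dist_eq, sub_zero, abs_mul, abs_of_pos h₂]
    have := hx i
    nlinarith

theorem Lim4_dist_face {ψ d₁ d₂ r s : ℝ} (h₂ : 0 < d₂) (hr₂ : d₂ < r)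
    {x : Y8} (hx : ∀ i, |x i| ≤ 1) (h0 : x 0 = s) :
    dist (Lim4v ψ d₁ d₂ x) (Lim4w (ψ + d₁ * s)) < r := by
  rw [dist_pi_lt_iff (lt_trans h₂ hr₂)]
  intro i
  by_cases hi : i = 0
  · simp only [Lim4v, Lim4w, hi, if_true, h0, dist_self]
    exact lt_trans h₂ hr₂
  · simp only [Lim4v, Lim4w, hi, if_false, Real.dist_eq, sub_zero, abs_mul, abs_of_pos h₂]
    have := hx i
    nlinarith

theorem Lim4_dist_w (χ ψ r : ℝ) (h : |χ - ψ| < r) : dist (Lim4w χ) (Lim4w ψ) < r := by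
  have hr : 0 < r := lt_of_le_of_lt (abs_nonneg _) h
  rw [dist_pi_lt_iff hr]
  intro i
  by_cases hi : i = 0
  · simpa only [Lim4w, hi, if_true, Real.dist_eq] using h
  · simpa only [Lim4w, hi, if_false, dist_self] using hr

theorem limit_box : ∃ ψ, π / 3 < ψ ∧ ψ < π / 2 ∧ ∀ δ > 0, ∃ (Y : Y8 → Y8) (κ : ℝ), 0 < κ ∧
    ContinuousOn Y {x | ∀ i, |x i| ≤ 1} ∧ ∀ x : Y8, (∀ i, |x i| ≤ 1) →
      ‖Y x - ystar ψ‖ ≤ δ ∧ ∀ i, (x i = 1 → κ ≤ E0 (Y x) i) ∧ (x i = -1 → E0 (Y x) i ≤ -κ) := by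
  obtain ⟨ψ, h1, h2, -, δ₀, hδ₀, hsign⟩ := exists_root
  refine ⟨ψ, h1, h2, fun δ hδ => ?_⟩
  obtain ⟨e, hsrc, he⟩ := exists_localInv h1 h2
  have hev : e (ystar ψ) = Lim4w ψ := by rw [he _ hsrc, Lim4_F8_ystar h1 h2]
  have htar : Lim4w ψ ∈ e.target := hev ▸ e.map_source hsrc
  have hsymm : e.symm (Lim4w ψ) = ystar ψ := by rw [← hev, e.left_inv hsrc]
  -- a ball on which the inverse behaves well
  have hU : ∀ᶠ y in 𝓝 (ystar ψ), ‖y - ystar ψ‖ ≤ δ ∧ Yadm y := by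
    refine Filter.Eventually.and ?_ (yadm_near h1 h2)
    filter_upwards [Metric.closedBall_mem_nhds (ystar ψ) hδ] with y hy
    rwa [Metric.mem_closedBall, dist_eq_norm] at hy
  have hcs : ContinuousAt e.symm (Lim4w ψ) := e.continuousAt_symm htar
  have hG : ∀ᶠ v in 𝓝 (Lim4w ψ), v ∈ e.target ∧ ‖e.symm v - ystar ψ‖ ≤ δ ∧ Yadm (e.symm v) := by
    refine Filter.Eventually.and (e.open_target.mem_nhds htar) ?_
    have h := hcs.tendsto
    rw [hsymm] at h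
    exact h.eventually hU
  obtain ⟨ε, hε, hball⟩ := Metric.eventually_nhds_iff.1 hG
  -- nearby points of the curve
  have hmem : Ioo (π / 3) (π / 2) ∈ 𝓝 ψ := Ioo_mem_nhds h1 h2
  have hcy : ContinuousAt ystar ψ := continuousOn_ystar.continuousAt hmem
  have hχ : ∀ᶠ χ in 𝓝 ψ, χ ∈ Ioo (π / 3) (π / 2) ∧ ystar χ ∈ e.source :=
    Filter.Eventually.and hmem (hcy.tendsto.eventually (e.open_source.mem_nhds hsrc))
  obtain ⟨ε', hε', hball'⟩ := Metric.eventually_nhds_iff.1 hχ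
  have hcurve : ∀ χ, |χ - ψ| < ε' → e.symm (Lim4w χ) = ystar χ := by
    intro χ h
    obtain ⟨hI, hS⟩ := hball' (y := χ) (by rwa [Real.dist_eq])
    rw [← Lim4_F8_ystar hI.1 hI.2, ← he _ hS, e.left_inv hS]
  -- continuity of the first equation along the inverse
  have hcont : ContinuousOn (fun v => E0 (e.symm v) 0) (Metric.ball (Lim4w ψ) ε) := by
    have ha : ContinuousOn e.symm (Metric.ball (Lim4w ψ) ε) :=
      e.continuousOn_symm.mono fun v hv => (hball hv).1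
    have hb : ContinuousOn (fun v => E0 (e.symm v)) (Metric.ball (Lim4w ψ) ε) :=
      continuousOn_E0.comp ha fun v hv => (hball hv).2.2
    exact (continuous_apply 0).comp_continuousOn hb
  obtain ⟨d₁, hd₁, hd₁ε, hd₁ε', hd₁δ⟩ : ∃ d₁ : ℝ, 0 < d₁ ∧ d₁ < ε ∧ d₁ < ε' ∧ d₁ < δ₀ := by
    refine ⟨min ε (min ε' δ₀) / 2, by positivity, ?_, ?_, ?_⟩
    · have := min_le_left ε (min ε' δ₀)
      linarith
    · have := le_trans (min_le_right ε (min ε' δ₀)) (min_le_left ε' δ₀)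
      linarith
    · have := le_trans (min_le_right ε (min ε' δ₀)) (min_le_right ε' δ₀)
      linarith
  have habs : ∀ s : ℝ, |s| = 1 → |ψ + d₁ * s - ψ| = d₁ := by
    intro s hs
    rw [add_sub_cancel_left, abs_mul, hs, abs_of_pos hd₁, mul_one]
  have hat : ∀ s : ℝ, |s| = 1 →
      ContinuousAt (fun v => E0 (e.symm v) 0) (Lim4w (ψ + d₁ * s)) := by
    intro s hs
    refine hcont.continuousAt (Metric.isOpen_ball.mem_nhds ?_)
    exact Lim4_dist_w _ _ _ (by rw [habs s hs]; exact hd₁ε)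
  have hpos : 0 < E0 (e.symm (Lim4w (ψ + d₁ * 1))) 0 := by
    rw [hcurve _ (by rw [habs 1 abs_one]; exact hd₁ε')]
    exact (hsign _).2 (by linarith) (by linarith)
  have hneg : E0 (e.symm (Lim4w (ψ + d₁ * (-1)))) 0 < 0 := by
    rw [hcurve _ (by rw [habs (-1) (by simp)]; exact hd₁ε')]
    exact (hsign _).1 (by linarith) (by linarith)
  obtain ⟨a, ha⟩ : ∃ a, a = E0 (e.symm (Lim4w (ψ + d₁ * 1))) 0 := ⟨_, rfl⟩
  obtain ⟨b, hb⟩ : ∃ b, b = E0 (e.symm (Lim4w (ψ + d₁ * (-1)))) 0 := ⟨_, rfl⟩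
  have hP : ∀ᶠ v in 𝓝 (Lim4w (ψ + d₁ * 1)), a / 2 < E0 (e.symm v) 0 :=
    (hat 1 abs_one).eventually (lt_mem_nhds (by rw [ha]; linarith))
  have hN : ∀ᶠ v in 𝓝 (Lim4w (ψ + d₁ * (-1))), E0 (e.symm v) 0 < b / 2 :=
    (hat (-1) (by simp)).eventually (gt_mem_nhds (by rw [hb]; linarith))
  obtain ⟨η₁, hη₁, hP'⟩ := Metric.eventually_nhds_iff.1 hP
  obtain ⟨η₂, hη₂, hN'⟩ := Metric.eventually_nhds_iff.1 hN
  obtain ⟨d₂, hd₂, hd₂ε, hd₂η₁, hd₂η₂⟩ : ∃ d₂ : ℝ, 0 < d₂ ∧ d₂ < ε ∧ d₂ < η₁ ∧ d₂ < η₂ := by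
    refine ⟨min ε (min η₁ η₂) / 2, by positivity, ?_, ?_, ?_⟩
    · have := min_le_left ε (min η₁ η₂)
      linarith
    · have := le_trans (min_le_right ε (min η₁ η₂)) (min_le_left η₁ η₂)
      linarith
    · have := le_trans (min_le_right ε (min η₁ η₂)) (min_le_right η₁ η₂)
      linarith
  rw [← ha] at hpos
  rw [← hb] at hneg
  have hin : ∀ x : Y8, (∀ i, |x i| ≤ 1) → dist (Lim4v ψ d₁ d₂ x) (Lim4w ψ) < ε :=
    fun x hx => Lim4_dist_box hd₁ hd₂ hd₁ε hd₂ε hx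
  refine ⟨fun x => e.symm (Lim4v ψ d₁ d₂ x), min d₂ (min (a / 2) (-b / 2)), ?_, ?_, ?_⟩
  · refine lt_min hd₂ (lt_min ?_ ?_) <;> linarith
  · exact e.continuousOn_symm.comp (Lim4_v_cont ψ d₁ d₂).continuousOn
      fun x hx => (hball (hin x hx)).1
  · intro x hx
    obtain ⟨hxt, hxδ, -⟩ := hball (hin x hx)
    refine ⟨hxδ, fun i => ?_⟩
    have hk1 : min d₂ (min (a / 2) (-b / 2)) ≤ d₂ := min_le_left _ _
    have hk2 : min d₂ (min (a / 2) (-b / 2)) ≤ a / 2 :=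
      le_trans (min_le_right _ _) (min_le_left _ _)
    have hk3 : min d₂ (min (a / 2) (-b / 2)) ≤ -b / 2 :=
      le_trans (min_le_right _ _) (min_le_right _ _)
    by_cases hi : i = 0
    · subst hi
      refine ⟨fun h => ?_, fun h => ?_⟩
      · have := hP' (Lim4_dist_face (ψ := ψ) (d₁ := d₁) hd₂ hd₂η₁ hx h)
        linarith
      · have := hN' (Lim4_dist_face (ψ := ψ) (d₁ := d₁) hd₂ hd₂η₂ hx h)
        linarith
    · have hE : E0 (e.symm (Lim4v ψ d₁ d₂ x)) i = d₂ * x i := by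
        have h3 : F8 (e.symm (Lim4v ψ d₁ d₂ x)) = Lim4v ψ d₁ d₂ x := by
          rw [← he _ (e.map_target hxt), e.right_inv hxt]
        have h4 := congrFun h3 i
        simp only [F8] at h4
        rw [Function.update_of_ne hi] at h4
        rw [h4]
        simp only [Lim4v, hi, if_false]
      refine ⟨fun h => ?_, fun h => ?_⟩
      · show _ ≤ E0 (e.symm (Lim4v ψ d₁ d₂ x)) i
        rw [hE, h]
        linarith
      · show E0 (e.symm (Lim4v ψ d₁ d₂ x)) i ≤ _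
        rw [hE, h]
        linarith

end Pool.Agent.MP_efb2da_gt
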