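import Pool.Agent.MP_efb2da_gt.Solve
import Pool.Agent.MP_efb2da_gt.Geom

open Set Complex
open scoped Topology ComplexConjugate Matrix ContDiff

noncomputable section

namespace Pool.Agent.MP_efb2da_gt

theorem final : Final := by
  obtain ⟨As, N, hL, h⟩ := solve
  obtain ⟨η, hη, hg⟩ := geometry hL N
  exact hg (h η hη)

end Pool.Agent.MP_efb2da_gt
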