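import Pool.Agent.MP_efb2da_gt.W
import Pool.Agent.MP_efb2da_gt.Geo

/-! Two by two matrices over the Wiener algebra (loops) and over `ℂ`. -/

open Set
open scoped Topology ComplexConjugate Matrix

noncomputable section

namespace Pool.Agent.MP_efb2da_gt

abbrev MW := Matrix (Fin 2) (Fin 2) W
abbrev MC := Matrix (Fin 2) (Fin 2) ℂ

instance : NormedRing MW := Matrix.linftyOpNormedRing
instance : NormedAlgebra ℂ MW := Matrix.linftyOpNormedAlgebra
instance : NormedRing MC := Matrix.linftyOpNormedRing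
instance : NormedAlgebra ℂ MC := Matrix.linftyOpNormedAlgebra
instance : UniformSpace MW := (inferInstance : NormedRing MW).toMetricSpace.toUniformSpace
instance : UniformSpace MC := (inferInstance : NormedRing MC).toMetricSpace.toUniformSpace
instance : TopologicalSpace MW := (inferInstance : UniformSpace MW).toTopologicalSpace
instance : TopologicalSpace MC := (inferInstance : UniformSpace MC).toTopologicalSpace
instance : NormOneClass MW := Matrix.linfty_opNormOneClass
instance : NormOneClass MC := Matrix.linfty_opNormOneClass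
instance : CompleteSpace MW := inferInstanceAs (CompleteSpace (Fin 2 → Fin 2 → W))
instance : CompleteSpace MC := inferInstanceAs (CompleteSpace (Fin 2 → Fin 2 → ℂ))

instance : ContinuousSMul W MW := inferInstanceAs (ContinuousSMul W (Fin 2 → Fin 2 → W))
instance : ContinuousStar MC := ⟨continuous_id.matrix_conjTranspose⟩

example : (Matrix.module : Module ℝ MW) = Module.complexToReal MW := rfl
example : (Matrix.module : Module ℝ MC) = Module.complexToReal MC := rfl
example : (inferInstance : NormedSpace ℝ MW).toModule = Matrix.module := rfl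
example : (Pi.topologicalSpace : TopologicalSpace (Fin 2 → Fin 2 → W)) =
  (inferInstance : NormedRing MW).toMetricSpace.toUniformSpace.toTopologicalSpace := rfl

/-- entrywise application of a continuous linear map -/
def mapL {R E F : Type} [Semiring R] [TopologicalSpace E] [TopologicalSpace F] [AddCommMonoid E]
    [AddCommMonoid F] [Module R E] [Module R F] (φ : E →L[R] F) :
    Matrix (Fin 2) (Fin 2) E →L[R] Matrix (Fin 2) (Fin 2) F where
  toFun M := M.map φ
  map_add' M N := by ext i j; simp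
  map_smul' c M := by ext i j; simp
  cont := continuous_id.matrix_map φ.continuous

@[simp] lemma mapL_apply {R E F : Type} [Semiring R] [TopologicalSpace E] [TopologicalSpace F]
    [AddCommMonoid E] [AddCommMonoid F] [Module R E] [Module R F] (φ : E →L[R] F)
    (M : Matrix (Fin 2) (Fin 2) E) (i j : Fin 2) : mapL φ M i j = φ (M i j) := rfl

/-- an entry as a continuous linear map -/
def ent {E : Type} [TopologicalSpace E] [AddCommMonoid E] [Module ℂ E] (i j : Fin 2) :
    Matrix (Fin 2) (Fin 2) E →L[ℂ] E where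
  toFun M := M i j
  map_add' _ _ := rfl
  map_smul' _ _ := rfl
  cont := continuous_id.matrix_elem i j

/-- the linear map rearranging entries with signs -/
def perm {E : Type} [TopologicalSpace E] [AddCommGroup E] [IsTopologicalAddGroup E] [Module ℂ E]
    (a b c d : Fin 2 × Fin 2) (neg : Bool) :
    Matrix (Fin 2) (Fin 2) E →L[ℂ] Matrix (Fin 2) (Fin 2) E where
  toFun M := !![M a.1 a.2, if neg then -M b.1 b.2 else M b.1 b.2;
    if neg then -M c.1 c.2 else M c.1 c.2, M d.1 d.2]
  map_add' M N := by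
    ext i j; fin_cases i <;> fin_cases j <;> cases neg <;> simp [add_comm]
  map_smul' c M := by
    ext i j; fin_cases i <;> fin_cases j <;> cases neg <;> simp
  cont := by
    refine continuous_matrix fun i j => ?_
    fin_cases i <;> fin_cases j <;> cases neg <;> simp <;> fun_prop

def entW (i j : Fin 2) : MW →L[ℂ] W := ent i j
def entC (i j : Fin 2) : MC →L[ℂ] ℂ := ent i j
/-- adjugate -/
def adj : MW →L[ℂ] MW := perm (1,1) (0,1) (1,0) (0,0) true
def adjC : MC →L[ℂ] MC := perm (1,1) (0,1) (1,0) (0,0) true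
/-- conjugation by `σ₁` -/
def sw : MW →L[ℂ] MW := perm (1,1) (1,0) (0,1) (0,0) false
def trp : MW →L[ℂ] MW := perm (0,0) (1,0) (0,1) (1,1) false

def trpC : MC →L[ℂ] MC := perm (0,0) (1,0) (0,1) (1,1) false
/-- entrywise conjugation -/
def cjC : MC →L[ℝ] MC := mapL (Complex.conjCLE : ℂ →L[ℝ] ℂ)
/-- conjugate transpose -/
def ct : MC →L[ℝ] MC := (trpC.restrictScalars ℝ).comp cjC
def trW : MW →L[ℂ] W := entW 0 0 + entW 1 1
def trC : MC →L[ℂ] ℂ := entC 0 0 + entC 1 1

/-- constant loops -/
def cst : MC →L[ℂ] MW := mapL (algebraMapCLM ℂ W)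
def cf (n : ℤ) : MW →L[ℂ] MC := mapL (W.coef n)
def J0 : MW →L[ℂ] MC := mapL W.j0
def J1 : MW →L[ℂ] MC := mapL W.j1
def J2 : MW →L[ℂ] MC := mapL W.j2
def Ev (θ : ℝ) : MW →L[ℂ] MC := mapL (W.ev θ)
/-- `L♭(λ) = L(1/λ)ᵀ` -/
def flat : MW →L[ℂ] MW := trp.comp (mapL W.rev)
/-- conjugation of the coefficients -/
def sharp : MW →L[ℝ] MW := mapL W.cj
/-- `L*(λ) = L(1/λ̄)ᴴ` -/
def st : MW →L[ℝ] MW := (flat.restrictScalars ℝ).comp sharp
def prj (S : Set ℤ) : MW →L[ℂ] MW := mapL (W.proj S)
/-- `M λⁿ` -/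
def mono (n : ℤ) (M : MC) : MW := W.mon n • cst M

def MGE (a : ℤ) (M : MW) : Prop := ∀ i j, W.GE a (M i j)
def MLE (a : ℤ) (M : MW) : Prop := ∀ i j, W.LE a (M i j)

def s1 : MC := !![0, 1; 1, 0]
def s3 : MC := !![1, 0; 0, -1]
def sJ : MC := !![0, -1; 1, 0]
/-- the traceless matrix with coefficients `v` of `σ₃, σ₁, J` -/
def mat (v : Fin 3 → ℝ) : MC := (v 0 : ℂ) • s3 + (v 1 : ℂ) • s1 + (v 2 : ℂ) • sJ
/-- the vector of a Hermitian traceless matrix `x σ₁ + y σ₂ + z σ₃` -/
def vec (M : MC) : E3 := mk3 (conj (M 0 1)) (M 0 0).re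

/-- block Toeplitz operator -/
def toep (P : MW) : MW →L[ℂ] MW :=
  (prj (Ici 0)).comp ((ContinuousLinearMap.mul ℂ MW P).comp (prj (Ici 0))) + prj (Iio 0)
def Xi0 (Φ' Φ : MW) : MW := Ring.inverse (toep (Φ' * Φ)) 1
/-- inverse of the positive factor; `Φ'` stands for `Φ*` -/
def Binv (Φ' Φ : MW) : MW := Xi0 Φ' Φ * cst (Ring.inverse (J0 (Φ * Xi0 Φ' Φ)))
def Bi (Φ : MW) : MW := Binv (st Φ) Φ
/-- positive factor of the Iwasawa decomposition -/
def Bm (Φ : MW) : MW := adj (Bi Φ)
/-- based unitary factor of the Iwasawa decomposition -/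
def Uf (Φ : MW) : MW := Φ * Bi Φ
/-- Sym formula -/
def symM (Φ : MW) : MC := J1 (Uf Φ)

end Pool.Agent.MP_efb2da_gt
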