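import Pool.Agent.MP_efb2da_gt.WApi

open Set
open scoped Topology ComplexConjugate

noncomputable section

namespace Pool.Agent.MP_efb2da_gt

namespace W

lemma WApi2_bil (f a b c d e g : W →L[ℂ] ℂ)
    (h : ∀ n m, f (mon (n + m)) =
      a (mon n) * b (mon m) + c (mon n) * d (mon m) + e (mon n) * g (mon m)) (x y : W) :
    f (x * y) = a x * b y + c x * d y + e x * g y := by
  have := bil_ext (f := (ContinuousLinearMap.compL ℂ W W ℂ f).comp mulL)
    (g := (ContinuousLinearMap.mul ℂ ℂ).bilinearComp a b +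
      (ContinuousLinearMap.mul ℂ ℂ).bilinearComp c d +
      (ContinuousLinearMap.mul ℂ ℂ).bilinearComp e g)
    (fun n m => by simpa [mulL_mon] using h n m) x y
  simpa [mul_def] using this

lemma WApi2_cj (f g : W →L[ℂ] ℂ) (h : ∀ n, f (mon n) = conj (g (mon n))) (x : W) :
    f (cj x) = conj (g x) := by
  refine ind (p := fun x => f (cj x) = conj (g x))
    (isClosed_eq (f.continuous.comp cj.continuous)
      (Complex.continuous_conj.comp g.continuous)) (by simp)
    (fun x y hx hy => by simp only [map_add, hx, hy]) (fun n c => ?_) x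
  simp [h]

lemma WApi2_comp (f g : W →L[ℂ] ℂ) (h : ∀ n, f (mon (-n)) = g (mon n)) (x : W) :
    f (rev x) = g x := by
  have : f.comp rev = g := clm_ext fun n => by simpa using h n
  exact congrArg (fun f : W →L[ℂ] ℂ => f x) this

@[simp] lemma j0_mon (n : ℤ) : j0 (mon n) = 1 := lift_mon _ _ _ _
@[simp] lemma j1_mon (n : ℤ) : j1 (mon n) = n := lift_mon _ _ _ _
@[simp] lemma j2_mon (n : ℤ) : j2 (mon n) = (n : ℂ) ^ 2 := lift_mon _ _ _ _
@[simp] lemma j0_one : j0 1 = 1 := by rw [← mon_zero, j0_mon]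
@[simp] lemma j1_one : j1 1 = 0 := by rw [← mon_zero, j1_mon]; simp
@[simp] lemma j2_one : j2 1 = 0 := by rw [← mon_zero, j2_mon]; simp
@[simp] lemma j0_algebraMap (c : ℂ) : j0 (algebraMap ℂ W c) = c := by
  rw [algebraMap_eq, map_smul, j0_mon]; simp
@[simp] lemma j1_algebraMap (c : ℂ) : j1 (algebraMap ℂ W c) = 0 := by
  rw [algebraMap_eq, map_smul, j1_mon]; simp
@[simp] lemma j2_algebraMap (c : ℂ) : j2 (algebraMap ℂ W c) = 0 := by
  rw [algebraMap_eq, map_smul, j2_mon]; simp
lemma j0_mul (x y : W) : j0 (x * y) = j0 x * j0 y := by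
  simpa using WApi2_bil j0 j0 j0 0 0 0 0 (fun n m => by simp) x y
lemma j1_mul (x y : W) : j1 (x * y) = j1 x * j0 y + j0 x * j1 y := by
  simpa using WApi2_bil j1 j1 j0 j0 j1 0 0 (fun n m => by simp) x y
lemma j2_mul (x y : W) : j2 (x * y) = j2 x * j0 y + 2 * (j1 x * j1 y) + j0 x * j2 y := by
  have := WApi2_bil j2 j2 j0 ((2 : ℂ) • j1) j1 j0 j2 (fun n m => by simp; ring) x y
  rw [this]; simp; ring
@[simp] lemma j0_rev (x : W) : j0 (rev x) = j0 x := WApi2_comp j0 j0 (fun n => by simp) x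
@[simp] lemma j1_rev (x : W) : j1 (rev x) = -j1 x := WApi2_comp j1 (-j1) (fun n => by simp) x
@[simp] lemma j2_rev (x : W) : j2 (rev x) = j2 x := WApi2_comp j2 j2 (fun n => by simp) x
@[simp] lemma j0_cj (x : W) : j0 (cj x) = conj (j0 x) := WApi2_cj j0 j0 (fun n => by simp) x
@[simp] lemma j1_cj (x : W) : j1 (cj x) = conj (j1 x) := WApi2_cj j1 j1 (fun n => by simp) x
@[simp] lemma j2_cj (x : W) : j2 (cj x) = conj (j2 x) := WApi2_cj j2 j2 (fun n => by simp) x
lemma norm_j0_le (x : W) : ‖j0 x‖ ≤ ‖x‖ := (norm_lift_apply_le _ _ _ x).trans (one_mul _).le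
lemma norm_j1_le (x : W) : ‖j1 x‖ ≤ ‖x‖ := (norm_lift_apply_le _ _ _ x).trans (one_mul _).le
lemma norm_j2_le (x : W) : ‖j2 x‖ ≤ 2 * ‖x‖ := norm_lift_apply_le _ _ _ x

@[simp] lemma ev_mon (θ : ℝ) (n : ℤ) : ev θ (mon n) = Complex.exp (n * θ * Complex.I) :=
  lift_mon _ _ _ _
@[simp] lemma ev_one (θ : ℝ) : ev θ 1 = 1 := by rw [← mon_zero, ev_mon]; simp
@[simp] lemma ev_algebraMap (θ : ℝ) (c : ℂ) : ev θ (algebraMap ℂ W c) = c := by
  rw [algebraMap_eq, map_smul, ev_mon]; simp
lemma ev_mul (θ : ℝ) (x y : W) : ev θ (x * y) = ev θ x * ev θ y := by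
  simpa using WApi2_bil (ev θ) (ev θ) (ev θ) 0 0 0 0 (fun n m => by
    simp only [ev_mon, zero_apply, mul_zero, add_zero, ← Complex.exp_add]
    congr 1; push_cast; ring) x y
lemma ev_zero (x : W) : ev 0 x = j0 x := by
  have : ev 0 = j0 := clm_ext fun n => by simp
  rw [this]
lemma ev_rev (θ : ℝ) (x : W) : ev θ (rev x) = ev (-θ) x :=
  WApi2_comp (ev θ) (ev (-θ)) (fun n => by
    simp only [ev_mon]; congr 1; push_cast; ring) x
lemma ev_cj (θ : ℝ) (x : W) : ev θ (cj x) = conj (ev (-θ) x) :=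
  WApi2_cj (ev θ) (ev (-θ)) (fun n => by
    simp only [ev_mon, ← Complex.exp_conj]; congr 1; simp) x
lemma norm_ev_le (θ : ℝ) (x : W) : ‖ev θ x‖ ≤ ‖x‖ :=
  (norm_lift_apply_le _ _ _ x).trans (one_mul _).le

lemma WApi2_norm_exp (n : ℤ) (θ : ℝ) : ‖Complex.exp (n * θ * Complex.I)‖ = 1 := by
  have : (n : ℂ) * θ * Complex.I = ((n * θ : ℝ) : ℂ) * Complex.I := by push_cast; ring
  rw [this, Complex.norm_exp_ofReal_mul_I]

lemma WApi2_continuous_ev (x : W) : Continuous fun θ : ℝ => ev θ x := by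
  have : (fun θ : ℝ => ev θ x) =
      fun θ : ℝ => ∑' n : ℤ, coef n x • Complex.exp (n * θ * Complex.I) := rfl
  rw [this]
  refine continuous_tsum (fun n => by fun_prop) (hasSum_norm x).summable fun n θ => ?_
  rw [norm_smul, WApi2_norm_exp]
  gcongr
  exact one_le_wt n

lemma WApi2_int (n : ℤ) (x : W) : IntervalIntegrable
    (fun θ : ℝ => ev θ x * Complex.exp ((-n : ℤ) * θ * Complex.I)) MeasureTheory.volume 0
    (2 * Real.pi) :=
  ((WApi2_continuous_ev x).mul (by fun_prop)).intervalIntegrable _ _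

/-- the Fourier coefficient of the boundary values -/
def WApi2_four (n : ℤ) : W →L[ℂ] ℂ :=
  LinearMap.mkContinuous
    { toFun := fun x => ∫ θ in (0 : ℝ)..2 * Real.pi,
        ev θ x * Complex.exp ((-n : ℤ) * θ * Complex.I)
      map_add' := fun x y => by
        simp only [map_add, add_mul]
        exact intervalIntegral.integral_add (WApi2_int n x) (WApi2_int n y)
      map_smul' := fun c x => by
        simp only [map_smul, smul_eq_mul, mul_assoc c, RingHom.id_apply]
        exact intervalIntegral.integral_const_mul _ _ } (2 * Real.pi)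
    fun x => by
      have := intervalIntegral.norm_integral_le_of_norm_le_const (a := 0) (b := 2 * Real.pi)
        (C := ‖x‖) (f := fun θ : ℝ => ev θ x * Complex.exp ((-n : ℤ) * θ * Complex.I))
        fun θ _ => by rw [norm_mul, WApi2_norm_exp, mul_one]; exact norm_ev_le θ x
      rw [sub_zero, abs_of_pos (by positivity), mul_comm ‖x‖] at this
      exact this

lemma WApi2_four_eq (n : ℤ) : WApi2_four n = (2 * Real.pi : ℂ) • coef n := by
  refine clm_ext fun m => ?_
  change ∫ θ in (0 : ℝ)..2 * Real.pi,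
    ev θ (mon m) * Complex.exp ((-n : ℤ) * θ * Complex.I) = _
  have e : ∀ θ : ℝ, ev θ (mon m) * Complex.exp ((-n : ℤ) * θ * Complex.I) =
      Complex.exp (((m - n : ℤ) * Complex.I) * θ) := fun θ => by
    rw [ev_mon, ← Complex.exp_add]; congr 1; push_cast; ring
  simp only [e, smul_apply, coef_mon, smul_eq_mul]
  split_ifs with h
  · subst h; simp
  · have h1 : ((m - n : ℤ) : ℂ) * Complex.I ≠ 0 :=
      mul_ne_zero (by exact_mod_cast sub_ne_zero.2 (Ne.symm h)) Complex.I_ne_zero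
    rw [integral_exp_mul_complex h1]
    have h2 : ((m - n : ℤ) : ℂ) * Complex.I * ((2 * Real.pi : ℝ) : ℂ) =
        ((m - n : ℤ) : ℂ) * (2 * Real.pi * Complex.I) := by push_cast; ring
    rw [h2, Complex.exp_int_mul_two_pi_mul_I]
    simp

lemma ev_inj {x y : W} (h : ∀ θ, ev θ x = ev θ y) : x = y := by
  refine ext_coef fun n => ?_
  have h1 : WApi2_four n x = WApi2_four n y := by
    change ∫ θ in (0 : ℝ)..2 * Real.pi, ev θ x * Complex.exp ((-n : ℤ) * θ * Complex.I) =
      ∫ θ in (0 : ℝ)..2 * Real.pi, ev θ y * Complex.exp ((-n : ℤ) * θ * Complex.I)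
    simp only [h]
  rw [WApi2_four_eq] at h1
  have h2 : (2 * Real.pi : ℂ) ≠ 0 := by exact_mod_cast (by positivity : (2 * Real.pi : ℝ) ≠ 0)
  exact mul_left_cancel₀ h2 h1

lemma WApi2_exp_taylor (t : ℝ) :
    ‖Complex.exp (t * Complex.I) - 1 - t * Complex.I + (t : ℂ) ^ 2 / 2‖ ≤ 4 * |t| ^ 3 := by
  have hn : ‖(t : ℂ) * Complex.I‖ = |t| := by simp
  rcases le_total |t| 1 with h | h
  · have := Complex.exp_bound (x := t * Complex.I) (by rw [hn]; exact h) (n := 3) (by norm_num)
    rw [hn] at this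
    have e : Complex.exp (t * Complex.I) - 1 - t * Complex.I + (t : ℂ) ^ 2 / 2 =
        Complex.exp (t * Complex.I) - ∑ m ∈ Finset.range 3,
          ((t : ℂ) * Complex.I) ^ m / (m.factorial : ℂ) := by
      simp [Finset.sum_range_succ, mul_pow, Nat.factorial]; ring
    rw [e]
    refine this.trans ?_
    have h3 : 0 ≤ |t| ^ 3 := by positivity
    norm_num [Nat.factorial]
    linarith
  · have h1 : ‖Complex.exp (t * Complex.I) - 1 - t * Complex.I + (t : ℂ) ^ 2 / 2‖ ≤
        1 + 1 + |t| + |t| ^ 2 / 2 := by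
      refine (norm_add_le _ _).trans (add_le_add ((norm_sub_le _ _).trans
        (add_le_add ((norm_sub_le _ _).trans ?_) hn.le)) ?_)
      · rw [Complex.norm_exp_ofReal_mul_I, norm_one]
      · simp
    have h2 : |t| ≤ |t| ^ 2 := by nlinarith
    have h3 : |t| ^ 2 ≤ |t| ^ 3 := by nlinarith
    linarith

lemma WApi2_cube_le (n : ℤ) : |(n : ℝ)| ^ 3 ≤ 4 * wt n := by
  rw [wt, ← Int.cast_abs, ← Int.natCast_natAbs, Int.cast_natCast]
  have : ∀ m : ℕ, m ^ 3 ≤ 4 * 2 ^ m := by
    intro m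
    induction m with
    | zero => simp
    | succ m ih =>
      rcases Nat.lt_or_ge m 4 with h | h
      · interval_cases m <;> norm_num
      · rw [pow_succ 2 m]
        have h1 : 4 * m ^ 2 ≤ m ^ 3 := by nlinarith [sq_nonneg m]
        have h2 : 4 * m ≤ m ^ 2 := by nlinarith
        nlinarith
  exact_mod_cast this n.natAbs

lemma ev_taylor : ∃ C : ℝ, ∀ (θ : ℝ) (x : W),
    ‖ev θ x - j0 x - θ * Complex.I * j1 x + θ ^ 2 / 2 * j2 x‖ ≤ C * |θ| ^ 3 * ‖x‖ := by
  refine ⟨16, fun θ x => ?_⟩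
  have := norm_clm_le (ev θ - j0 - ((θ : ℂ) * Complex.I) • j1 + ((θ : ℂ) ^ 2 / 2) • j2)
    (C := 16 * |θ| ^ 3) (fun n => by
      have h1 := WApi2_exp_taylor (n * θ)
      have e : (ev θ - j0 - ((θ : ℂ) * Complex.I) • j1 + ((θ : ℂ) ^ 2 / 2) • j2) (mon n) =
          Complex.exp (((n * θ : ℝ) : ℂ) * Complex.I) - 1 - ((n * θ : ℝ) : ℂ) * Complex.I +
            ((n * θ : ℝ) : ℂ) ^ 2 / 2 := by
        simp; ring
      rw [e]
      refine h1.trans ?_
      rw [abs_mul, mul_pow]
      have h2 := WApi2_cube_le n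
      have h3 : 0 ≤ |θ| ^ 3 := by positivity
      nlinarith [mul_le_mul_of_nonneg_right h2 h3]) x
  simpa using this

lemma sq_coef_le (n : ℤ) (x : W) : ‖coef n x‖ ^ 2 ≤ (coef 0 (rev (cj x) * x)).re := by
  have h1 := (hasSum_mon x).mapL ((coef 0).comp (mulL (rev (cj x))))
  have h2 := Complex.hasSum_re h1
  have e : (fun k : ℤ => (((coef 0).comp (mulL (rev (cj x)))) (coef k x • mon k)).re) =
      fun k : ℤ => ‖coef k x‖ ^ 2 := by
    funext k
    rw [map_smul, ContinuousLinearMap.comp_apply, ← mul_def, coef_mul_mon, coef_rev, coef_cj,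
      smul_eq_mul, zero_sub, neg_neg, Complex.mul_conj, Complex.ofReal_re, Complex.sq_norm]
  rw [e] at h2
  exact le_hasSum h2 n fun m _ => by positivity

/-- a positive loop close to a nonzero constant has a positive inverse -/
lemma exists_inv_GE {x : W} {c : ℂ} (hx : GE 0 x) (h : ‖x - algebraMap ℂ W c‖ < ‖c‖) :
    ∃ y, GE 0 y ∧ x * y = 1 := by
  have hc : 0 < ‖c‖ := lt_of_le_of_lt (norm_nonneg _) h
  have hc0 : c ≠ 0 := norm_pos_iff.1 hc
  set u : W := 1 - c⁻¹ • x with hu
  have hu1 : ‖u‖ < 1 := by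
    have : u = (-c⁻¹) • (x - algebraMap ℂ W c) := by
      rw [hu, Algebra.algebraMap_eq_smul_one, smul_sub, smul_smul, neg_mul, inv_mul_cancel₀ hc0,
        neg_smul, neg_smul, one_smul]
      abel
    rw [this, norm_smul, norm_neg, norm_inv, inv_mul_lt_iff₀ hc, mul_one]
    exact h
  have huG : GE 0 u := GE_one.sub (hx.smul _)
  have hpow : ∀ k : ℕ, GE 0 (u ^ k) := by
    intro k
    induction k with
    | zero => rw [pow_zero]; exact GE_one
    | succ k ih => rw [pow_succ]; simpa using ih.mul huG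
  have hs : GE 0 (∑' k : ℕ, u ^ k) := by
    refine (isClosed_GE 0).mem_of_tendsto (summable_geometric_of_norm_lt_one hu1).hasSum
      (Filter.Eventually.of_forall fun s => ?_)
    exact Finset.sum_induction _ (GE 0) (fun _ _ => GE.add) (GE.zero 0) fun k _ => hpow k
  refine ⟨c⁻¹ • ∑' k : ℕ, u ^ k, hs.smul _, ?_⟩
  have := mul_neg_geom_series u hu1
  rw [hu, sub_sub_cancel, smul_mul_assoc] at this
  rw [mul_smul_comm]
  exact this

open Classical in
lemma WApi2_proj_mon (S : Set ℤ) (n : ℤ) : proj S (mon n) = if n ∈ S then mon n else 0 :=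
  lift_mon _ _ _ _

/-- the Hankel operator as a function of its symbol -/
def WApi2_hankel : W →L[ℂ] W →L[ℂ] W :=
  (ContinuousLinearMap.compL ℂ W W W (proj (Ici 0))).comp
    (((ContinuousLinearMap.compL ℂ W W W).flip (proj (Iio 0))).comp mulL)

lemma WApi2_hankel_apply (p x : W) :
    WApi2_hankel p x = proj (Ici 0) (p * proj (Iio 0) x) := rfl

lemma WApi2_hankel_mon (n : ℤ) :
    WApi2_hankel (mon n) = ∑ k ∈ Finset.Ico (-n) 0, (coef k).smulRight (mon (n + k)) := by
  refine clm_ext fun m => ?_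
  rw [WApi2_hankel_apply, sum_apply]
  simp only [ContinuousLinearMap.smulRight_apply, coef_mon, ite_smul, one_smul, zero_smul,
    Finset.sum_ite_eq', Finset.mem_Ico, WApi2_proj_mon, mem_Iio]
  by_cases h : m < 0
  · rw [if_pos h, mon_mul_mon, WApi2_proj_mon]
    by_cases h2 : -n ≤ m
    · rw [if_pos (show n + m ∈ Ici (0 : ℤ) from by simp only [mem_Ici]; omega), if_pos ⟨h2, h⟩]
    · rw [if_neg (show n + m ∉ Ici (0 : ℤ) from by simp only [mem_Ici]; omega),
        if_neg fun h3 => h2 h3.1]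
  · rw [if_neg h, mul_zero, map_zero, if_neg fun h3 => h h3.2]

/-- Hankel operators are compact -/
lemma isCompactOperator_hankel (p : W) :
    IsCompactOperator fun x : W => proj (Ici 0) (p * proj (Iio 0) x) := by
  change IsCompactOperator (WApi2_hankel p)
  refine ind (p := fun p => IsCompactOperator (WApi2_hankel p))
    (isClosed_setOfPred_isCompactOperator.preimage WApi2_hankel.continuous) ?_ (fun x y hx hy => ?_)
    (fun n c => ?_) p
  · rw [map_zero]; exact isCompactOperator_zero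
  · rw [map_add]; exact hx.add hy
  · rw [map_smul, WApi2_hankel_mon]
    refine IsCompactOperator.smul ?_ c
    refine Finset.sum_induction _ (fun f : W →L[ℂ] W => IsCompactOperator f)
      (fun _ _ hx hy => hx.add hy) isCompactOperator_zero fun k _ => ?_
    exact (isCompactOperator_of_locallyCompactSpace_dom (coef k)).continuous_comp
      (g := fun z : ℂ => z • mon (n + k)) (by fun_prop)

end W

end Pool.Agent.MP_efb2da_gt
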