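import Pool.Agent.MP_efb2da_gt.Mat
import Pool.Agent.MP_efb2da_gt.WApi2

open Set
open scoped Topology ComplexConjugate Matrix

noncomputable section

namespace Pool.Agent.MP_efb2da_gt

@[simp] lemma entW_apply (i j : Fin 2) (M : MW) : entW i j M = M i j := rfl
@[simp] lemma entC_apply (i j : Fin 2) (M : MC) : entC i j M = M i j := rfl
lemma adj_apply (M : MW) : adj M = !![M 1 1, -M 0 1; -M 1 0, M 0 0] := rfl
lemma adjC_apply (M : MC) : adjC M = !![M 1 1, -M 0 1; -M 1 0, M 0 0] := rfl
lemma sw_apply (M : MW) : sw M = !![M 1 1, M 1 0; M 0 1, M 0 0] := rfl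
@[simp] lemma cst_apply (M : MC) (i j : Fin 2) : cst M i j = algebraMap ℂ W (M i j) := rfl
@[simp] lemma cf_apply (n : ℤ) (M : MW) (i j : Fin 2) : cf n M i j = W.coef n (M i j) := rfl
@[simp] lemma J0_apply (M : MW) (i j : Fin 2) : J0 M i j = W.j0 (M i j) := rfl
@[simp] lemma J1_apply (M : MW) (i j : Fin 2) : J1 M i j = W.j1 (M i j) := rfl
@[simp] lemma J2_apply (M : MW) (i j : Fin 2) : J2 M i j = W.j2 (M i j) := rfl
@[simp] lemma Ev_apply (θ : ℝ) (M : MW) (i j : Fin 2) : Ev θ M i j = W.ev θ (M i j) := rfl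
@[simp] lemma sharp_apply (M : MW) (i j : Fin 2) : sharp M i j = W.cj (M i j) := rfl
@[simp] lemma prj_apply (S : Set ℤ) (M : MW) (i j : Fin 2) : prj S M i j = W.proj S (M i j) := rfl
@[simp] lemma cjC_apply (M : MC) (i j : Fin 2) : cjC M i j = conj (M i j) := rfl
@[simp] lemma flat_apply (M : MW) (i j : Fin 2) : flat M i j = W.rev (M j i) := by
  fin_cases i <;> fin_cases j <;> rfl
@[simp] lemma trpC_apply (M : MC) (i j : Fin 2) : trpC M i j = M j i := by
  fin_cases i <;> fin_cases j <;> rfl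
@[simp] lemma ct_apply (M : MC) (i j : Fin 2) : ct M i j = conj (M j i) := by
  fin_cases i <;> fin_cases j <;> rfl
lemma st_eq (M : MW) : st M = flat (sharp M) := rfl
@[simp] lemma st_apply (M : MW) (i j : Fin 2) : st M i j = W.rev (W.cj (M j i)) := by
  rw [st_eq, flat_apply, sharp_apply]
lemma trW_apply (M : MW) : trW M = M 0 0 + M 1 1 := rfl
lemma trC_apply (M : MC) : trC M = M 0 0 + M 1 1 := rfl
@[simp] lemma mono_apply (n : ℤ) (M : MC) (i j : Fin 2) : mono n M i j = M i j • W.mon n := by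
  change W.mon n * algebraMap ℂ W (M i j) = _
  rw [mul_comm, ← Algebra.smul_def]

lemma adj_eq (M : MW) : adj M = M.adjugate := by
  rw [adj_apply, Matrix.adjugate_fin_two]
lemma adjC_eq (M : MC) : adjC M = M.adjugate := by
  rw [adjC_apply, Matrix.adjugate_fin_two]
lemma mul_adj (M : MW) : M * adj M = M.det • (1 : MW) := by
  rw [adj_eq, Matrix.mul_adjugate]
lemma adj_mul_self (M : MW) : adj M * M = M.det • (1 : MW) := by
  rw [adj_eq, Matrix.adjugate_mul]
lemma mul_adj_of_det {M : MW} (h : M.det = 1) : M * adj M = 1 := by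
  rw [mul_adj, h, one_smul]
lemma adj_mul_of_det {M : MW} (h : M.det = 1) : adj M * M = 1 := by
  rw [adj_mul_self, h, one_smul]
lemma mul_adjC_of_det {M : MC} (h : M.det = 1) : M * adjC M = 1 := by
  rw [adjC_eq, Matrix.mul_adjugate, h, one_smul]
lemma adjC_mul_of_det {M : MC} (h : M.det = 1) : adjC M * M = 1 := by
  rw [adjC_eq, Matrix.adjugate_mul, h, one_smul]
lemma adj_mul (M N : MW) : adj (M * N) = adj N * adj M := by
  rw [adj_eq, adj_eq, adj_eq, Matrix.adjugate_mul_distrib]
lemma adjC_mul (M N : MC) : adjC (M * N) = adjC N * adjC M := by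
  rw [adjC_eq, adjC_eq, adjC_eq, Matrix.adjugate_mul_distrib]
@[simp] lemma adj_adj (M : MW) : adj (adj M) = M := by
  ext i j; fin_cases i <;> fin_cases j <;> simp [adj_apply]
@[simp] lemma adj_one : adj 1 = 1 := by
  rw [adj_eq, Matrix.adjugate_one]
@[simp] lemma adjC_one : adjC 1 = 1 := by
  rw [adjC_eq, Matrix.adjugate_one]
@[simp] lemma det_adj (M : MW) : (adj M).det = M.det := by
  simp [adj_apply, Matrix.det_fin_two]; ring
lemma add_adj (M : MW) : M + adj M = trW M • (1 : MW) := by
  ext i j; fin_cases i <;> fin_cases j <;> simp [adj_apply, trW_apply, add_comm]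
lemma adj_of_tr {M : MW} (h : trW M = 0) : adj M = -M := by
  have := add_adj M
  rw [h, zero_smul] at this
  exact eq_neg_of_add_eq_zero_right this
lemma mul_self_of_tr {M : MW} (h : trW M = 0) : M * M = (-M.det) • (1 : MW) := by
  have := mul_adj M
  rw [adj_of_tr h, mul_neg] at this
  rw [neg_smul, ← this, neg_neg]
lemma eq_adj_of_mul {M N : MW} (hM : M.det = 1) (h : M * N = 1) : N = adj M := by
  calc N = (adj M * M) * N := by rw [adj_mul_of_det hM, one_mul]
    _ = adj M := by rw [mul_assoc, h, mul_one]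
lemma trW_mul_comm (M N : MW) : trW (M * N) = trW (N * M) := by
  simp only [trW_apply, Matrix.mul_apply, Fin.sum_univ_two]; ring
lemma trC_mul_comm (M N : MC) : trC (M * N) = trC (N * M) := by
  simp only [trC_apply, Matrix.mul_apply, Fin.sum_univ_two]; ring
lemma trW_conj (G M : MW) : trW (G * M * adj G) = G.det * trW M := by
  simp [trW_apply, adj_apply, Matrix.mul_apply, Fin.sum_univ_two, Matrix.det_fin_two]; ring
lemma trW_conj' (G M : MW) : trW (adj G * M * G) = G.det * trW M := by
  simp only [trW_apply, Matrix.mul_apply, Fin.sum_univ_two, Matrix.det_fin_two]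
  simp [adj_apply]; ring
lemma trW_adj (M : MW) : trW (adj M) = trW M := by
  simp [trW_apply, adj_apply, add_comm]
lemma det_add (M N : MW) : (M + N).det = M.det + N.det + trW (adj M * N) := by
  simp only [trW_apply, Matrix.mul_apply, Fin.sum_univ_two, Matrix.det_fin_two]
  simp [adj_apply]; ring
lemma det_addC (M N : MC) : (M + N).det = M.det + N.det + trC (adjC M * N) := by
  simp only [trC_apply, Matrix.mul_apply, Fin.sum_univ_two, Matrix.det_fin_two]
  simp [adjC_apply]; ring

lemma sw_eq (M : MW) : sw M = cst s1 * M * cst s1 := by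
  ext i j; fin_cases i <;> fin_cases j <;> 
    simp [sw_apply, s1, Matrix.mul_apply, Fin.sum_univ_two]
lemma sw_mul (M N : MW) : sw (M * N) = sw M * sw N := by
  ext i j; fin_cases i <;> fin_cases j <;> 
    simp [sw_apply, Matrix.mul_apply, Fin.sum_univ_two, add_comm]
@[simp] lemma sw_one : sw 1 = 1 := by
  ext i j; fin_cases i <;> fin_cases j <;> simp [sw_apply]
@[simp] lemma sw_sw (M : MW) : sw (sw M) = M := by
  ext i j; fin_cases i <;> fin_cases j <;> simp [sw_apply]
lemma sw_adj (M : MW) : sw (adj M) = adj (sw M) := by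
  ext i j; fin_cases i <;> fin_cases j <;> simp [sw_apply, adj_apply]
lemma det_sw (M : MW) : (sw M).det = M.det := by
  simp [sw_apply, Matrix.det_fin_two]; ring
lemma trW_sw (M : MW) : trW (sw M) = trW M := by
  simp [sw_apply, trW_apply, add_comm]

lemma cst_mul (M N : MC) : cst (M * N) = cst M * cst N := by
  ext i j; simp [Matrix.mul_apply, Fin.sum_univ_two]
@[simp] lemma cst_one : cst 1 = 1 := by
  ext i j; fin_cases i <;> fin_cases j <;> simp
lemma adj_cst (M : MC) : adj (cst M) = cst (adjC M) := by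
  ext i j; fin_cases i <;> fin_cases j <;> simp [adj_apply, adjC_apply]
lemma det_cst (M : MC) : (cst M).det = algebraMap ℂ W M.det := by
  simp [Matrix.det_fin_two]
lemma mono_zero (M : MC) : mono 0 M = cst M := by
  rw [mono, W.mon_zero, one_smul]
lemma mono_mul (n m : ℤ) (M N : MC) : mono n M * mono m N = mono (n + m) (M * N) := by
  rw [mono, mono, mono, Matrix.smul_mul, Matrix.mul_smul, smul_smul, W.mon_mul_mon, cst_mul]
lemma mono_add (n : ℤ) (M N : MC) : mono n (M + N) = mono n M + mono n N := by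
  rw [mono, mono, mono, map_add, smul_add]
lemma mono_smul (n : ℤ) (c : ℂ) (M : MC) : mono n (c • M) = c • mono n M := by
  ext i j; simp [mul_smul]
lemma mono_neg (n : ℤ) (M : MC) : mono n (-M) = -mono n M := by
  rw [mono, mono, map_neg, smul_neg]
/-- `mono n` as a continuous linear map -/
def MatApi_monoL (n : ℤ) : MC →L[ℂ] MW where
  toFun := mono n
  map_add' := mono_add n
  map_smul' := mono_smul n
  cont := cst.continuous.const_smul (W.mon n)

lemma MatApi_norm_le {E F : Type} [NormedAddCommGroup E] [NormedAddCommGroup F]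
    {A : Matrix (Fin 2) (Fin 2) E} {B : Matrix (Fin 2) (Fin 2) F} {C : ℝ} (hC : 0 ≤ C)
    (h : ∀ i j, ‖A i j‖ ≤ C * ‖B i j‖) :
    (((Finset.univ : Finset (Fin 2)).sup fun i => ∑ j, ‖A i j‖₊ : NNReal) : ℝ) ≤
      C * (((Finset.univ : Finset (Fin 2)).sup fun i => ∑ j, ‖B i j‖₊ : NNReal) : ℝ) := by
  lift C to NNReal using hC
  rw [← NNReal.coe_mul, NNReal.coe_le_coe]
  refine Finset.sup_le fun i _ => ?_
  calc ∑ j, ‖A i j‖₊ ≤ ∑ j, C * ‖B i j‖₊ :=
        Finset.sum_le_sum fun j _ => by rw [← NNReal.coe_le_coe]; simpa using h i j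
    _ = C * ∑ j, ‖B i j‖₊ := by rw [Finset.mul_sum]
    _ ≤ _ := by
        gcongr
        exact Finset.le_sup (f := fun i => ∑ j, ‖B i j‖₊) (Finset.mem_univ i)

lemma MatApi_norm_le_W {A : MW} {B : MC} {C : ℝ} (hC : 0 ≤ C)
    (h : ∀ i j, ‖A i j‖ ≤ C * ‖B i j‖) : ‖A‖ ≤ C * ‖B‖ := by
  have := MatApi_norm_le hC h
  rwa [← Matrix.linfty_opNorm_def, ← Matrix.linfty_opNorm_def] at this

lemma MatApi_norm_sharp_le (M : MW) : ‖sharp M‖ ≤ ‖M‖ := by
  have := MatApi_norm_le (A := sharp M) (B := M) (C := 1) zero_le_one fun i j => by simp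
  rwa [← Matrix.linfty_opNorm_def, ← Matrix.linfty_opNorm_def, one_mul] at this

lemma continuous_mono (n : ℤ) : Continuous (mono n) :=
  (MatApi_monoL n).continuous
lemma differentiable_mono (n : ℤ) : Differentiable ℂ (mono n) :=
  (MatApi_monoL n).differentiable
lemma norm_mono_le (n : ℤ) (M : MC) : ‖mono n M‖ ≤ wt n * ‖M‖ := by
  refine MatApi_norm_le_W (wt_pos n).le fun i j => ?_
  rw [mono_apply, norm_smul, W.norm_mon, mul_comm]
lemma cf_mono (n m : ℤ) (M : MC) : cf n (mono m M) = if n = m then M else 0 := by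
  ext i j
  rw [cf_apply, mono_apply, map_smul, W.coef_mon]
  split_ifs <;> simp
lemma cf_cst (n : ℤ) (M : MC) : cf n (cst M) = if n = 0 then M else 0 := by
  rw [← mono_zero, cf_mono]
lemma MW_ext {M N : MW} (h : ∀ n, cf n M = cf n N) : M = N := by
  ext i j
  exact W.ext_coef fun n => congrFun (congrFun (h n) i) j

lemma flat_mul (M N : MW) : flat (M * N) = flat N * flat M := by
  ext i j; simp [Matrix.mul_apply, Fin.sum_univ_two, mul_comm]
@[simp] lemma flat_one : flat 1 = 1 := by
  ext i j; fin_cases i <;> fin_cases j <;> simp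
@[simp] lemma flat_flat (M : MW) : flat (flat M) = M := by
  ext i j; simp
lemma flat_adj (M : MW) : flat (adj M) = adj (flat M) := by
  ext i j; fin_cases i <;> fin_cases j <;> simp [adj_apply]
lemma flat_cst (M : MC) : flat (cst M) = cst (trpC M) := by
  ext i j; simp
lemma flat_mono (n : ℤ) (M : MC) : flat (mono n M) = mono (-n) (trpC M) := by
  ext i j; simp
lemma det_flat (M : MW) : (flat M).det = W.rev M.det := by
  simp [Matrix.det_fin_two]; ring
lemma trW_flat (M : MW) : trW (flat M) = W.rev (trW M) := by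
  simp [trW_apply]
lemma cf_flat (n : ℤ) (M : MW) : cf n (flat M) = trpC (cf (-n) M) := by
  ext i j; simp
lemma sharp_mul (M N : MW) : sharp (M * N) = sharp M * sharp N := by
  ext i j; simp [Matrix.mul_apply, Fin.sum_univ_two]
@[simp] lemma sharp_one : sharp 1 = 1 := by
  ext i j; fin_cases i <;> fin_cases j <;> simp
@[simp] lemma sharp_sharp (M : MW) : sharp (sharp M) = M := by
  ext i j; simp
lemma sharp_smul (c : ℂ) (M : MW) : sharp (c • M) = conj c • sharp M := by
  ext i j; simp
lemma sharp_smulW (c : W) (M : MW) : sharp (c • M) = W.cj c • sharp M := by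
  ext i j; simp
lemma sharp_adj (M : MW) : sharp (adj M) = adj (sharp M) := by
  ext i j; fin_cases i <;> fin_cases j <;> simp [adj_apply]
lemma sharp_sw (M : MW) : sharp (sw M) = sw (sharp M) := by
  ext i j; fin_cases i <;> fin_cases j <;> simp [sw_apply]
lemma sharp_flat (M : MW) : sharp (flat M) = flat (sharp M) := by
  ext i j; simp [W.cj_rev]
lemma sharp_cst (M : MC) : sharp (cst M) = cst (cjC M) := by
  ext i j; simp
lemma sharp_mono (n : ℤ) (M : MC) : sharp (mono n M) = mono n (cjC M) := by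
  ext i j; simp
lemma sharp_prj (S : Set ℤ) (M : MW) : sharp (prj S M) = prj S (sharp M) := by
  ext i j
  refine W.ext_coef fun n => ?_
  rw [sharp_apply, prj_apply, prj_apply, sharp_apply, W.coef_cj, W.coef_proj, W.coef_proj, W.coef_cj]
  split_ifs <;> simp
lemma det_sharp (M : MW) : (sharp M).det = W.cj M.det := by
  simp [Matrix.det_fin_two]
lemma trW_sharp (M : MW) : trW (sharp M) = W.cj (trW M) := by
  simp [trW_apply]
lemma cf_sharp (n : ℤ) (M : MW) : cf n (sharp M) = cjC (cf n M) := by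
  ext i j; simp
@[simp] lemma norm_sharp (M : MW) : ‖sharp M‖ = ‖M‖ := by
  refine le_antisymm (MatApi_norm_sharp_le M) ?_
  simpa using MatApi_norm_sharp_le (sharp M)
lemma st_mul (M N : MW) : st (M * N) = st N * st M := by
  rw [st_eq, st_eq, st_eq, sharp_mul, flat_mul]
@[simp] lemma st_one : st 1 = 1 := by
  rw [st_eq, sharp_one, flat_one]
@[simp] lemma st_st (M : MW) : st (st M) = M := by
  rw [st_eq, st_eq, sharp_flat, sharp_sharp, flat_flat]
lemma st_cst (M : MC) : st (cst M) = cst (ct M) := by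
  ext i j; simp
lemma st_mono (n : ℤ) (M : MC) : st (mono n M) = mono (-n) (ct M) := by
  ext i j; simp
lemma st_smul (c : ℂ) (M : MW) : st (c • M) = conj c • st M := by
  rw [st_eq, st_eq, sharp_smul, map_smul]
lemma st_sharp (M : MW) : st (sharp M) = sharp (st M) := by
  rw [st_eq, st_eq, sharp_flat]
lemma det_st (M : MW) : (st M).det = W.rev (W.cj M.det) := by
  rw [st_eq, det_flat, det_sharp]
lemma ct_eq (M : MC) : ct M = Mᴴ := by
  ext i j; simp
lemma ct_mul (M N : MC) : ct (M * N) = ct N * ct M := by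
  rw [ct_eq, ct_eq, ct_eq, Matrix.conjTranspose_mul]
lemma ct_smul (c : ℂ) (M : MC) : ct (c • M) = conj c • ct M := by
  ext i j; simp
@[simp] lemma ct_ct (M : MC) : ct (ct M) = M := by
  ext i j; simp
lemma cjC_mul (M N : MC) : cjC (M * N) = cjC M * cjC N := by
  ext i j; simp [Matrix.mul_apply, Fin.sum_univ_two]

end Pool.Agent.MP_efb2da_gt
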