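import Pool.Agent.MP_efb2da_gt.MatApi

open Set
open scoped Topology ComplexConjugate Matrix

noncomputable section

namespace Pool.Agent.MP_efb2da_gt

lemma matApi2_mulW (M N : MW) (i j : Fin 2) : (M * N) i j = M i 0 * N 0 j + M i 1 * N 1 j := by
  rw [Matrix.mul_apply, Fin.sum_univ_two]
lemma matApi2_mulC (M N : MC) (i j : Fin 2) : (M * N) i j = M i 0 * N 0 j + M i 1 * N 1 j := by
  rw [Matrix.mul_apply, Fin.sum_univ_two]

lemma J0_mul (M N : MW) : J0 (M * N) = J0 M * J0 N := by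
  ext i j; simp [matApi2_mulW, matApi2_mulC, W.j0_mul]
lemma J1_mul (M N : MW) : J1 (M * N) = J1 M * J0 N + J0 M * J1 N := by
  ext i j; simp only [J1_apply, J0_apply, matApi2_mulW, matApi2_mulC, Matrix.add_apply, map_add,
    W.j1_mul]; ring
lemma J2_mul (M N : MW) : J2 (M * N) = J2 M * J0 N + (2:ℂ) • (J1 M * J1 N) + J0 M * J2 N := by
  ext i j; simp only [J2_apply, J1_apply, J0_apply, matApi2_mulW, matApi2_mulC, Matrix.add_apply,
    Matrix.smul_apply, smul_eq_mul, map_add, W.j2_mul]; ring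
@[simp] lemma J0_one : J0 1 = 1 := by
  ext i j; fin_cases i <;> fin_cases j <;> simp
@[simp] lemma J1_one : J1 1 = 0 := by
  ext i j; fin_cases i <;> fin_cases j <;> simp
@[simp] lemma J2_one : J2 1 = 0 := by
  ext i j; fin_cases i <;> fin_cases j <;> simp
@[simp] lemma J0_cst (M : MC) : J0 (cst M) = M := by ext i j; simp
@[simp] lemma J1_cst (M : MC) : J1 (cst M) = 0 := by ext i j; simp
@[simp] lemma J2_cst (M : MC) : J2 (cst M) = 0 := by ext i j; simp
@[simp] lemma J0_mono (n : ℤ) (M : MC) : J0 (mono n M) = M := by ext i j; simp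
@[simp] lemma J1_mono (n : ℤ) (M : MC) : J1 (mono n M) = (n : ℂ) • M := by
  ext i j; simp [mul_comm]
@[simp] lemma J2_mono (n : ℤ) (M : MC) : J2 (mono n M) = ((n : ℂ) ^ 2) • M := by
  ext i j; simp [mul_comm]
lemma J0_adj (M : MW) : J0 (adj M) = adjC (J0 M) := by
  ext i j; fin_cases i <;> fin_cases j <;> simp [adj_apply, adjC_apply]
lemma J1_adj (M : MW) : J1 (adj M) = adjC (J1 M) := by
  ext i j; fin_cases i <;> fin_cases j <;> simp [adj_apply, adjC_apply]
lemma J2_adj (M : MW) : J2 (adj M) = adjC (J2 M) := by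
  ext i j; fin_cases i <;> fin_cases j <;> simp [adj_apply, adjC_apply]
lemma J0_flat (M : MW) : J0 (flat M) = trpC (J0 M) := by ext i j; simp
lemma J1_flat (M : MW) : J1 (flat M) = -trpC (J1 M) := by ext i j; simp
lemma J2_flat (M : MW) : J2 (flat M) = trpC (J2 M) := by ext i j; simp
lemma J0_sharp (M : MW) : J0 (sharp M) = cjC (J0 M) := by ext i j; simp
lemma J1_sharp (M : MW) : J1 (sharp M) = cjC (J1 M) := by ext i j; simp
lemma J2_sharp (M : MW) : J2 (sharp M) = cjC (J2 M) := by ext i j; simp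
lemma J0_st (M : MW) : J0 (st M) = ct (J0 M) := by ext i j; simp
lemma J1_st (M : MW) : J1 (st M) = -ct (J1 M) := by ext i j; simp
lemma det_J0 (M : MW) : (J0 M).det = W.j0 M.det := by
  simp [Matrix.det_fin_two, W.j0_mul]
lemma Ev_mul (θ : ℝ) (M N : MW) : Ev θ (M * N) = Ev θ M * Ev θ N := by
  ext i j; simp [matApi2_mulW, matApi2_mulC, W.ev_mul]
@[simp] lemma Ev_one (θ : ℝ) : Ev θ 1 = 1 := by
  ext i j; fin_cases i <;> fin_cases j <;> simp
lemma det_Ev (θ : ℝ) (M : MW) : (Ev θ M).det = W.ev θ M.det := by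
  simp [Matrix.det_fin_two, W.ev_mul]

lemma isClosed_MGE (a : ℤ) : IsClosed {M | MGE a M} := by
  have : {M | MGE a M} = ⋂ i, ⋂ j, entW i j ⁻¹' {x | W.GE a x} := by
    ext M; simp [MGE]
  rw [this]
  exact isClosed_iInter fun i => isClosed_iInter fun j =>
    (W.isClosed_GE a).preimage (entW i j).continuous
lemma MGE_iff {a : ℤ} {M : MW} : MGE a M ↔ ∀ n, n < a → cf n M = 0 :=
  ⟨fun h n hn => by ext i j; exact h i j n hn, fun h i j n hn => by
    have := congrFun (congrFun (h n hn) i) j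
    exact this⟩
lemma MLE_iff {a : ℤ} {M : MW} : MLE a M ↔ ∀ n, a < n → cf n M = 0 :=
  ⟨fun h n hn => by ext i j; exact h i j n hn, fun h i j n hn => by
    have := congrFun (congrFun (h n hn) i) j
    exact this⟩
lemma MGE.zero (a : ℤ) : MGE a 0 := fun _ _ => W.GE.zero a
lemma MGE.add {a : ℤ} {M N : MW} (hM : MGE a M) (hN : MGE a N) : MGE a (M + N) :=
  fun i j => (hM i j).add (hN i j)
lemma MGE.neg {a : ℤ} {M : MW} (hM : MGE a M) : MGE a (-M) := fun i j => (hM i j).neg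
lemma MGE.sub {a : ℤ} {M N : MW} (hM : MGE a M) (hN : MGE a N) : MGE a (M - N) :=
  fun i j => (hM i j).sub (hN i j)
lemma MGE.smul {a : ℤ} {M : MW} (c : ℂ) (hM : MGE a M) : MGE a (c • M) :=
  fun i j => (hM i j).smul c
lemma MGE.smulW {a b : ℤ} {c : W} {M : MW} (hc : W.GE a c) (hM : MGE b M) : MGE (a + b) (c • M) :=
  fun i j => hc.mul (hM i j)
lemma MGE.sum {ι : Type} {a : ℤ} {s : Finset ι} {M : ι → MW} (h : ∀ i ∈ s, MGE a (M i)) :
    MGE a (∑ i ∈ s, M i) :=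
  Finset.sum_induction M (MGE a) (fun _ _ => MGE.add) (MGE.zero a) h
lemma MGE.weaken {a b : ℤ} {M : MW} (hM : MGE a M) (h : b ≤ a) : MGE b M :=
  fun i j => (hM i j).mono h
lemma MGE.mul {a b : ℤ} {M N : MW} (hM : MGE a M) (hN : MGE b N) : MGE (a + b) (M * N) :=
  fun i j => by
    rw [matApi2_mulW]; exact ((hM _ _).mul (hN _ _)).add ((hM _ _).mul (hN _ _))
lemma MGE.conj {a : ℤ} {B M C : MW} (hB : MGE 0 B) (hM : MGE a M) (hC : MGE 0 C) :
    MGE a (B * M * C) := by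
  simpa using (hB.mul hM).mul hC
lemma MGE.cf_mul {a b : ℤ} {M N : MW} (hM : MGE a M) (hN : MGE b N) :
    cf (a + b) (M * N) = cf a M * cf b N := by
  ext i j
  simp only [cf_apply, matApi2_mulW, matApi2_mulC, map_add, (hM _ _).coef_mul (hN _ _)]
lemma MGE.cf_mul_succ {a b : ℤ} {M N : MW} (hM : MGE a M) (hN : MGE b N) :
    cf (a + b + 1) (M * N) = cf a M * cf (b + 1) N + cf (a + 1) M * cf b N := by
  ext i j
  simp only [cf_apply, matApi2_mulW, matApi2_mulC, map_add, Matrix.add_apply,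
    (hM _ _).coef_mul_succ (hN _ _)]
  ring
lemma MGE.cf_conj {a : ℤ} {B M C : MW} (hB : MGE 0 B) (hM : MGE a M) (hC : MGE 0 C) :
    cf a (B * M * C) = cf 0 B * cf a M * cf 0 C := by
  have h1 := (hB.mul hM).cf_mul hC
  rw [hB.cf_mul hM] at h1
  simpa using h1
lemma MGE.adj {a : ℤ} {M : MW} (hM : MGE a M) : MGE a (adj M) := by
  intro i j
  fin_cases i <;> fin_cases j
  exacts [hM 1 1, (hM 0 1).neg, (hM 1 0).neg, hM 0 0]
lemma MGE.sw {a : ℤ} {M : MW} (hM : MGE a M) : MGE a (sw M) := by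
  intro i j
  fin_cases i <;> fin_cases j
  exacts [hM 1 1, hM 1 0, hM 0 1, hM 0 0]
lemma MGE.sharp {a : ℤ} {M : MW} (hM : MGE a M) : MGE a (sharp M) := fun i j => (hM i j).cj
lemma MGE.det {a : ℤ} {M : MW} (hM : MGE a M) : W.GE (a + a) M.det := by
  rw [Matrix.det_fin_two]
  exact ((hM _ _).mul (hM _ _)).sub ((hM _ _).mul (hM _ _))
lemma MGE.coef_det {a : ℤ} {M : MW} (hM : MGE a M) : W.coef (a + a) M.det = (cf a M).det := by
  simp only [Matrix.det_fin_two, map_sub, cf_apply, (hM _ _).coef_mul (hM _ _)]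
lemma MGE_cst (M : MC) : MGE 0 (cst M) := fun _ _ => W.GE_algebraMap _
lemma MGE_one : MGE 0 1 := by rw [← cst_one]; exact MGE_cst 1
lemma MGE_mono (n : ℤ) (M : MC) : MGE n (mono n M) := fun i j => by
  rw [mono_apply]; exact (W.GE_mon n).smul _
lemma matApi2_GE_cj {a : ℤ} {x : W} : W.GE a (W.cj x) ↔ W.GE a x :=
  ⟨fun h => by simpa using h.cj, fun h => h.cj⟩
lemma matApi2_LE_cj {a : ℤ} {x : W} : W.LE a (W.cj x) ↔ W.LE a x :=
  ⟨fun h => by simpa using h.cj, fun h => h.cj⟩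
lemma MGE_st {a : ℤ} {M : MW} : MGE a (st M) ↔ MLE (-a) M := by
  simp only [MGE, MLE, st_apply, W.GE_rev, matApi2_LE_cj]
  exact forall_comm
lemma MLE_st {a : ℤ} {M : MW} : MLE a (st M) ↔ MGE (-a) M := by
  simp only [MGE, MLE, st_apply, W.LE_rev, matApi2_GE_cj]
  exact forall_comm
lemma MLE.mul {a b : ℤ} {M N : MW} (hM : MLE a M) (hN : MLE b N) : MLE (a + b) (M * N) :=
  fun i j => by
    rw [matApi2_mulW]; exact ((hM _ _).mul (hN _ _)).add ((hM _ _).mul (hN _ _))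
lemma MLE.cf_mul {a b : ℤ} {M N : MW} (hM : MLE a M) (hN : MLE b N) :
    cf (a + b) (M * N) = cf a M * cf b N := by
  ext i j
  simp only [cf_apply, matApi2_mulW, matApi2_mulC, map_add, (hM _ _).coef_mul (hN _ _)]
lemma eq_cst {M : MW} (h1 : MGE 0 M) (h2 : MLE 0 M) : M = cst (cf 0 M) := by
  refine Matrix.ext fun i j => ?_
  exact W.eq_const (h1 i j) (h2 i j)
lemma eq_two_mono {a : ℤ} {M : MW} (h1 : MGE a M) (h2 : MLE (a + 1) M) :
    M = mono a (cf a M) + mono (a + 1) (cf (a + 1) M) := by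
  refine Matrix.ext fun i j => ?_
  rw [Matrix.add_apply, mono_apply, mono_apply]
  exact W.eq_two (h1 i j) (h2 i j)
lemma cf_adj (n : ℤ) (M : MW) : cf n (adj M) = adjC (cf n M) := by
  ext i j; fin_cases i <;> fin_cases j <;> simp [adj_apply, adjC_apply]
/-- the closed real subalgebra of positive loops -/
lemma exists_posAlg : ∃ B : Subalgebra ℝ MW, IsClosed (B : Set MW) ∧ ∀ M, M ∈ B ↔ MGE 0 M := by
  refine ⟨{ carrier := {M | MGE 0 M}
            mul_mem' := fun h1 h2 => by simpa using MGE.mul h1 h2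
            one_mem' := MGE_one
            add_mem' := MGE.add
            zero_mem' := MGE.zero 0
            algebraMap_mem' := fun r => ?_ }, isClosed_MGE 0, fun M => Iff.rfl⟩
  rw [Algebra.algebraMap_eq_smul_one]
  exact MGE_one.smul (r : ℂ)

lemma matApi2_normW (M : MW) : ‖M‖ = max (‖M 0 0‖ + ‖M 0 1‖) (‖M 1 0‖ + ‖M 1 1‖) := by
  have := Matrix.linfty_opNorm_def M
  refine this.trans ?_
  simp [Finset.univ_fin2]
lemma matApi2_normC (M : MC) : ‖M‖ = max (‖M 0 0‖ + ‖M 0 1‖) (‖M 1 0‖ + ‖M 1 1‖) := by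
  have := Matrix.linfty_opNorm_def M
  refine this.trans ?_
  simp [Finset.univ_fin2]

lemma matApi2_max {a b c d a' b' c' d' C : ℝ} (hC : 0 ≤ C) (h1 : a ≤ C * a') (h2 : b ≤ C * b')
    (h3 : c ≤ C * c') (h4 : d ≤ C * d') :
    max (a + b) (c + d) ≤ C * max (a' + b') (c' + d') := by
  have e1 := mul_le_mul_of_nonneg_left (le_max_left (a' + b') (c' + d')) hC
  have e2 := mul_le_mul_of_nonneg_left (le_max_right (a' + b') (c' + d')) hC
  exact max_le (by linarith) (by linarith)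

lemma matApi2_max_one {a b c d a' b' c' d' : ℝ} (h1 : a ≤ a') (h2 : b ≤ b')
    (h3 : c ≤ c') (h4 : d ≤ d') : max (a + b) (c + d) ≤ max (a' + b') (c' + d') :=
  max_le_max (add_le_add h1 h2) (add_le_add h3 h4)

lemma norm_entry_le (M : MW) (i j : Fin 2) : ‖M i j‖ ≤ ‖M‖ := by
  rw [matApi2_normW]
  fin_cases i <;> fin_cases j <;> simp
lemma norm_entryC_le (M : MC) (i j : Fin 2) : ‖M i j‖ ≤ ‖M‖ := by
  rw [matApi2_normC]
  fin_cases i <;> fin_cases j <;> simp
lemma norm_le_of_entries {M : MW} {C : ℝ} (h : ∀ i j, ‖M i j‖ ≤ C) : ‖M‖ ≤ 2 * C := by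
  rw [matApi2_normW]
  exact max_le (by linarith [h 0 0, h 0 1]) (by linarith [h 1 0, h 1 1])
lemma norm_le_of_entriesC {M : MC} {C : ℝ} (h : ∀ i j, ‖M i j‖ ≤ C) : ‖M‖ ≤ 2 * C := by
  rw [matApi2_normC]
  exact max_le (by linarith [h 0 0, h 0 1]) (by linarith [h 1 0, h 1 1])
lemma norm_adj_le (M : MW) : ‖adj M‖ ≤ 2 * ‖M‖ := by
  refine norm_le_of_entries fun i j => ?_
  fin_cases i <;> fin_cases j <;> simp [adj_apply, norm_entry_le]
lemma norm_adjC_le (M : MC) : ‖adjC M‖ ≤ 2 * ‖M‖ := by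
  refine norm_le_of_entriesC fun i j => ?_
  fin_cases i <;> fin_cases j <;> simp [adjC_apply, norm_entryC_le]
lemma norm_sw (M : MW) : ‖sw M‖ = ‖M‖ := by
  rw [matApi2_normW, matApi2_normW M, max_comm]
  simp [sw_apply, add_comm]
lemma norm_flat_le (M : MW) : ‖flat M‖ ≤ 2 * ‖M‖ :=
  norm_le_of_entries fun i j => by simp [norm_entry_le]
lemma norm_cf_le (n : ℤ) (M : MW) : ‖cf n M‖ ≤ ‖M‖ := by
  rw [matApi2_normC, matApi2_normW]
  exact matApi2_max_one (W.norm_coef_le' _ _) (W.norm_coef_le' _ _) (W.norm_coef_le' _ _)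
    (W.norm_coef_le' _ _)
lemma norm_cst (M : MC) : ‖cst M‖ = ‖M‖ := by
  rw [matApi2_normC, matApi2_normW]
  simp only [cst_apply, norm_algebraMap']
lemma norm_prj_le (S : Set ℤ) (M : MW) : ‖prj S M‖ ≤ ‖M‖ := by
  rw [matApi2_normW, matApi2_normW M]
  exact matApi2_max_one (W.norm_proj_le _ _) (W.norm_proj_le _ _) (W.norm_proj_le _ _)
    (W.norm_proj_le _ _)
lemma norm_J0_le (M : MW) : ‖J0 M‖ ≤ ‖M‖ := by
  rw [matApi2_normC, matApi2_normW]
  exact matApi2_max_one (W.norm_j0_le _) (W.norm_j0_le _) (W.norm_j0_le _) (W.norm_j0_le _)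
lemma norm_J1_le (M : MW) : ‖J1 M‖ ≤ ‖M‖ := by
  rw [matApi2_normC, matApi2_normW]
  exact matApi2_max_one (W.norm_j1_le _) (W.norm_j1_le _) (W.norm_j1_le _) (W.norm_j1_le _)
lemma norm_J2_le (M : MW) : ‖J2 M‖ ≤ 2 * ‖M‖ := by
  rw [matApi2_normC, matApi2_normW]
  exact matApi2_max (by norm_num) (W.norm_j2_le _) (W.norm_j2_le _) (W.norm_j2_le _)
    (W.norm_j2_le _)
lemma norm_trC_le (M : MC) : ‖trC M‖ ≤ 2 * ‖M‖ := by
  rw [trC_apply]
  linarith [norm_add_le (M 0 0) (M 1 1), norm_entryC_le M 0 0, norm_entryC_le M 1 1]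
lemma norm_smulW_le (c : W) (M : MW) : ‖c • M‖ ≤ ‖c‖ * ‖M‖ := by
  rw [matApi2_normW, matApi2_normW M]
  exact matApi2_max (norm_nonneg _) (norm_mul_le _ _) (norm_mul_le _ _) (norm_mul_le _ _)
    (norm_mul_le _ _)
lemma contDiff_detW {n : WithTop ℕ∞} : ContDiff ℂ n fun M : MW => M.det := by
  simp only [Matrix.det_fin_two]
  exact ((entW 0 0).contDiff.mul (entW 1 1).contDiff).sub
    ((entW 0 1).contDiff.mul (entW 1 0).contDiff)
lemma contDiff_detC {n : WithTop ℕ∞} : ContDiff ℂ n fun M : MC => M.det := by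
  simp only [Matrix.det_fin_two]
  exact ((entC 0 0).contDiff.mul (entC 1 1).contDiff).sub
    ((entC 0 1).contDiff.mul (entC 1 0).contDiff)
lemma contDiff_vec {n : WithTop ℕ∞} : ContDiff ℝ n vec := by
  rw [contDiff_euclidean]
  have h : ∀ i j, ContDiff ℝ n fun M : MC => M i j := fun i j =>
    ((entC i j).restrictScalars ℝ).contDiff
  intro i
  fin_cases i
  · exact Complex.reCLM.contDiff.comp (h 0 1)
  · exact (Complex.imCLM.contDiff.comp (h 0 1)).neg
  · exact Complex.reCLM.contDiff.comp (h 0 0)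
lemma vec_add (M N : MC) : vec (M + N) = vec M + vec N := by
  ext i; fin_cases i <;> simp [vec, mk3]
lemma vec_sub (M N : MC) : vec (M - N) = vec M - vec N := by
  ext i; fin_cases i <;> simp [vec, mk3]
lemma vec_smul (c : ℝ) (M : MC) : vec ((c : ℂ) • M) = c • vec M := by
  ext i; fin_cases i <;> simp [vec, mk3]
lemma vec_cjC (M : MC) : vec (cjC M) = Refl (vec M) :=
  E3_ext (by simp [vec]) (by simp [vec])

end Pool.Agent.MP_efb2da_gt
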