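import Pool.Agent.MP_efb2da_gt.Fr1

open Set Complex
open scoped Topology ComplexConjugate Matrix ContDiff

noncomputable section

namespace Pool.Agent.MP_efb2da_gt

lemma Neck1_norm {g : Geo} (hg : AdmG g) (ζ : ℂ) :
    ‖(ee g : ℂ) * exp ζ‖ = ee g * Real.exp ζ.re := by
  rw [norm_mul, Complex.norm_exp, Complex.norm_real, Real.norm_of_nonneg hg.2.1.1.le]

lemma Neck1_ne {g : Geo} (hg : AdmG g) (ζ : ℂ) : (ee g : ℂ) * exp ζ ≠ 0 :=
  mul_ne_zero (by exact_mod_cast hg.2.1.1.ne') (exp_ne_zero ζ)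

lemma Neck1_mem {g : Geo} (hg : AdmG g) {ζ : ℂ} (h : ζ ∈ Strip g) :
    8 * ee g ^ 2 < ‖(ee g : ℂ) * exp ζ‖ ∧ ‖(ee g : ℂ) * exp ζ‖ < 1/8 := by
  have he := hg.2.1.1
  have hp : 0 < 1 / (8 * ee g) := by positivity
  obtain ⟨h1, h2⟩ := abs_lt.1 (show |ζ.re| < Real.log (1 / (8 * ee g)) from h)
  have h3 : Real.exp ζ.re < 1 / (8 * ee g) := (Real.lt_log_iff_exp_lt hp).1 h2
  have h4 : Real.exp (-ζ.re) < 1 / (8 * ee g) := (Real.lt_log_iff_exp_lt hp).1 (by linarith)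
  have h5 := Real.exp_pos ζ.re
  rw [lt_div_iff₀ (by positivity)] at h3 h4
  rw [Real.exp_neg, inv_mul_lt_iff₀ h5] at h4
  rw [Neck1_norm hg]
  constructor
  · nlinarith
  · linarith

lemma Neck1_half {g : Geo} (hg : AdmG g) : 1/2 ≤ Real.log (1 / (8 * ee g)) := by
  have he := hg.2.1.1
  have he' := hg.2.1.2
  have h := Real.one_sub_inv_le_log_of_pos (show 0 < 1 / (8 * ee g) by positivity)
  rw [one_div, inv_inv] at h
  rw [one_div (8 * ee g)]
  linarith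

lemma Neck1_of_re {g : Geo} (hg : AdmG g) {ζ : ℂ} (h : |ζ.re| < 1/2) : ζ ∈ Strip g :=
  h.trans_le (Neck1_half hg)

lemma Neck1_imag {g : Geo} (hg : AdmG g) (θ : ℝ) : (θ : ℂ) * I ∈ Strip g :=
  Neck1_of_re hg (by simp)

lemma Neck1_open (g : Geo) : IsOpen (Strip g) :=
  isOpen_lt (by fun_prop) continuous_const

lemma Neck1_convex (g : Geo) : Convex ℝ (Strip g) := by
  have e : Strip g = {ζ : ℂ | -Real.log (1 / (8 * ee g)) < ζ.re} ∩
      {ζ : ℂ | ζ.re < Real.log (1 / (8 * ee g))} := by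
    ext ζ
    exact abs_lt (a := ζ.re)
  rw [e]
  exact (convex_halfSpace_re_gt _).inter (convex_halfSpace_re_lt _)

lemma Neck1_congr {g : Geo} {ζ w : ℂ} (h : ζ ∈ Strip g) (e : |w.re| = |ζ.re|) : w ∈ Strip g := by
  change |w.re| < _
  rw [e]
  exact h

lemma Neck1_xi {g : Geo} {d : Dat} (hg : AdmG g) (hf : Fix g d) {ζ : ℂ} (h : ζ ∈ Strip g) :
    xiN g d ζ = ((tt g : ℂ) * (ee g * exp ζ)) • Xi g d (1 + ee g * exp ζ) := by
  rw [xiN, Th_eq hg hf (Neck1_ne hg ζ) (Neck1_mem hg h).2.le, smul_smul]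

lemma Neck1_hol {g : Geo} {d : Dat} (hg : AdmG g) (hd : Str d) :
    DifferentiableOn ℂ (xiN g d) (Strip g) := by
  have h1 : Differentiable ℂ fun ζ : ℂ => (ee g : ℂ) * exp ζ := by fun_prop
  exact ((Th_differentiableOn hg hd).comp h1.differentiableOn
    fun ζ hζ => Neck1_mem hg hζ).const_smul (tt g : ℂ)

lemma Neck1_xi_per (g : Geo) (d : Dat) (ζ : ℂ) : xiN g d (ζ + 2 * Real.pi * I) = xiN g d ζ := by
  rw [xiN, xiN, Complex.exp_add, Complex.exp_two_pi_mul_I, mul_one]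

lemma Neck1_xi_cj {g : Geo} {d : Dat} (hd : Str d) (ζ : ℂ) :
    sharp (xiN g d (conj ζ)) = xiN g d ζ := by
  have e : (ee g : ℂ) * exp (conj ζ) = conj ((ee g : ℂ) * exp ζ) := by
    rw [map_mul, Complex.conj_ofReal, Complex.exp_conj]
  rw [xiN, xiN, sharp_smul, Complex.conj_ofReal, e, Th_real hd]

lemma Neck1_xi_neg {g : Geo} {d : Dat} (hg : AdmG g) (hd : Str d) (ζ : ℂ) :
    sw (xiN g d (-ζ)) = -xiN g d ζ := by
  have he : (ee g : ℂ) ≠ 0 := by exact_mod_cast hg.2.1.1.ne'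
  have e : (ee g : ℂ) * exp (-ζ) = (ee g : ℂ) ^ 2 / (ee g * exp ζ) := by
    rw [Complex.exp_neg]
    have := exp_ne_zero ζ
    field_simp
  rw [xiN, xiN, map_smul, e, Th_sw hg hd (Neck1_ne hg ζ), smul_neg]

theorem exists_neck {g : Geo} {d : Dat} {Ω : Set ℂ} {Φ : ℂ → MW} (hF : Frame g d Ω Φ) (hg : AdmG g)
    (hd : Str d) (hf : Fix g d) (hN : Nil g d) : ∃ Ψ, Neck g d Ψ ∧
      ∀ ζ ∈ Strip g, 0 ≤ ζ.im → ζ.im ≤ Real.pi → Ψ ζ = Φ (1 + ee g * exp ζ) := by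
  have hO := Neck1_open g
  have hc := Neck1_convex g
  have hξ := Neck1_hol hg hd
  have h0 : (0 : ℂ) ∈ Strip g := Neck1_of_re hg (by simp)
  obtain ⟨Ψ, hz, hΨ⟩ := exists_frame_convex hO hc hξ h0 (1 : MW)
  have htr : ∀ ζ ∈ Strip g, trW (xiN g d ζ) = 0 := fun ζ _ => Pot3_tr_smul _ (Th_tr hd _)
  refine ⟨Ψ, ⟨⟨hO, hΨ, ?_, hξ, fun ζ _ => (Th_ge hd _).smul _, htr, fun ζ hζ => ?_⟩, hz, ?_, ?_, ?_⟩,
    ?_⟩
  · exact frame_det hO hc.isPreconnected hΨ htr h0 (by rw [hz, Matrix.det_one])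
  · rw [Neck1_xi hg hf hζ, map_smul, Matrix.det_smul,
      hN.nil _ (neck_subset_Dom hg (Neck1_mem hg hζ).1 (Neck1_mem hg hζ).2), mul_zero]
  · have hγ : ∀ r : ℝ, HasDerivAt (fun r : ℝ => 2 * Real.pi * I * (r : ℂ)) (2 * Real.pi * I) r := by
      intro r
      simpa using (Complex.ofRealCLM.hasDerivAt (x := r)).const_mul (2 * Real.pi * I : ℂ)
    have h1 := frame_path hΨ (γ' := fun _ => 2 * Real.pi * I) (right_mem_Icc.2 zero_le_one) hγ
      (fun r _ => Neck1_of_re hg (by simp)) (continuous_a1 (d := d) hg).continuousOn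
      (fun r _ => by rw [a1, xiN, smul_smul]) 1 (right_mem_Icc.2 zero_le_one)
    refine frame_ratio (Φ := fun ζ => Ψ (ζ + 2 * Real.pi * I)) hO hξ.continuousOn
      (fun ζ hζ => ?_) hΨ hc.isPreconnected Subset.rfl h0 ?_
    · have h2 := hΨ (ζ + 2 * Real.pi * I) (Neck1_congr hζ (by simp))
      rw [Neck1_xi_per] at h2
      exact h2.comp_add_const ζ _
    · simp only [ofReal_one, ofReal_zero, mul_one, mul_zero, hz, one_mul] at h1
      rw [zero_add, h1, hz, mul_one, R1]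
  · intro ζ hζ
    have h1 := frame_unique (Φ := fun ζ => sharp (Ψ (conj ζ))) hO hξ.continuousOn
      (fun w hw => by
        have h2 := hasDerivAt_sharp_conj (hΨ (conj w) (Neck1_congr hw (by simp)))
        rwa [sharp_mul, Neck1_xi_cj hd] at h2)
      hΨ hc.isPreconnected Subset.rfl h0 (by simp [hz]) ζ hζ
    rw [← h1, sharp_sharp]
  · intro ζ hζ
    have h1 := frame_unique (Φ := fun ζ => sw (Ψ (-ζ))) hO hξ.continuousOn
      (fun w hw => by
        have h2 := (hΨ (-w) (Neck1_congr hw (by simp))).scomp w (hasDerivAt_neg w)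
        have h3 := sw.hasFDerivAt.comp_hasDerivAt w h2
        rw [map_smul, sw_mul, Neck1_xi_neg hg hd, neg_smul, one_smul, mul_neg, neg_neg] at h3
        exact h3)
      hΨ hc.isPreconnected Subset.rfl h0 (by simp [hz]) ζ hζ
    rw [← h1, sw_sw]
  · intro ζ hζ hζ0 hζ1
    have hE : ∀ w : ℂ, HasDerivAt (fun w : ℂ => 1 + (ee g : ℂ) * exp w) (ee g * exp w) w :=
      fun w => ((Complex.hasDerivAt_exp w).const_mul (ee g : ℂ)).const_add 1
    have hEc : Continuous fun w : ℂ => 1 + (ee g : ℂ) * exp w := by fun_prop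
    refine frame_unique (O := Strip g ∩ (fun w : ℂ => 1 + (ee g : ℂ) * exp w) ⁻¹' Ω)
      (S := Strip g ∩ ({w : ℂ | 0 ≤ w.im} ∩ {w : ℂ | w.im ≤ Real.pi}))
      (Ψ := fun w => Φ (1 + ee g * exp w)) (w := 0) (hO.inter (hF.opn.preimage hEc))
      (hξ.continuousOn.mono inter_subset_left) (fun w hw => hΨ w hw.1) (fun w hw => ?_)
      (hc.inter ((convex_halfSpace_im_ge _).inter (convex_halfSpace_im_le _))).isPreconnected
      (fun w hw => ⟨hw.1, hF.up _ (neck_subset_Dom hg (Neck1_mem hg hw.1).1 (Neck1_mem hg hw.1).2)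
        ?_⟩) ⟨h0, by simp, by simp [Real.pi_pos.le]⟩ ?_ ζ ⟨hζ, hζ0, hζ1⟩
    · have h2 := (hF.ode _ hw.2).scomp w (hE w)
      rw [Neck1_xi hg hf hw.1, mul_comm (tt g : ℂ), ← smul_smul, mul_smul_comm]
      exact h2
    · have h2 : (1 + (ee g : ℂ) * exp w).im = ee g * (Real.exp w.re * Real.sin w.im) := by
        rw [add_im, one_im, zero_add, Complex.im_ofReal_mul, Complex.exp_im]
      rw [h2]
      exact mul_nonneg hg.2.1.1.le (mul_nonneg (Real.exp_pos _).le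
        (Real.sin_nonneg_of_nonneg_of_le_pi hw.2.1 hw.2.2))
    · simp only [Complex.exp_zero, mul_one, hz, hF.base]

theorem xiN_ne {g : Geo} {d : Dat} (hg : AdmG g) (hf : Fix g d) (hN : Nil g d) {ζ : ℂ}
    (h : |ζ.re| < 1/2) : ζ ∈ Strip g ∧ cf (-1) (xiN g d ζ) ≠ 0 := by
  have hζ := Neck1_of_re hg h
  refine ⟨hζ, ?_⟩
  obtain ⟨h1, h2⟩ := Neck1_mem hg hζ
  have ht : (tt g : ℂ) ≠ 0 := by exact_mod_cast hg.1.1.ne'
  have hq := hg.2.2.1.1
  have hq0 : 0 < √(qq g) := Real.sqrt_pos.2 hq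
  have hq1 : √(qq g) ≤ 1 := Real.sqrt_le_one.2 (hg.2.2.1.2.trans (by norm_num))
  have n1 : 1 - 1/8 ≤ ‖1 + (ee g : ℂ) * exp ζ‖ := by
    have := norm_sub_le (1 + (ee g : ℂ) * exp ζ) ((ee g : ℂ) * exp ζ)
    rw [add_sub_cancel_right, norm_one] at this
    linarith
  have n2 : ‖1 + (ee g : ℂ) * exp ζ‖ ≤ 1 + 1/8 := by
    have := norm_add_le (1 : ℂ) ((ee g : ℂ) * exp ζ)
    rw [norm_one] at this
    linarith
  rw [Neck1_xi hg hf hζ, map_smul]
  refine smul_ne_zero (mul_ne_zero ht (Neck1_ne hg ζ)) (hN.ne _ (by linarith) ?_ ?_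
    (neck_subset_Dom hg h1 h2).2.2.2)
  · rw [lt_div_iff₀ hq0]
    nlinarith
  · rw [add_sub_cancel_left, Neck1_norm hg]
    have h3 := Real.add_one_le_exp ζ.re
    have h4 := (abs_lt.1 h).1
    have he := hg.2.1.1
    nlinarith

variable {g : Geo} {d : Dat} {Ψ : ℂ → MW} {x : ℝ}

lemma Neck1_hz_pt (x : ℝ) (Φ : MW) : hz (pt x Φ) = conj (symM Φ 0 1) - x := by
  apply Complex.ext <;> simp [pt, vec, hz, mk3]

lemma Neck1_pt_two (x : ℝ) (Φ : MW) : pt x Φ 2 = (symM Φ 0 0).re := by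
  simp [pt, vec, mk3]

lemma Neck1_sym (h : Neck g d Ψ) {ζ : ℂ} (hζ : ζ ∈ Strip g) :
    symM (Ψ (-conj ζ)) 0 1 = symM (Ψ ζ) 0 1 ∧ symM (Ψ (-conj ζ)) 0 0 = -symM (Ψ ζ) 0 0 := by
  have hd := h.fr.det ζ hζ
  have h1 := symM_herm hd
  have h2 := symM_tr hd
  rw [h.neg _ (Neck1_congr hζ (by simp)), h.cj ζ hζ,
    symM_sw (by rw [det_sharp, hd, W.cj_one]), symM_sharp hd]
  generalize symM (Ψ ζ) = f at *
  have h3 : conj (f 1 0) = f 0 1 := congrFun (congrFun h1 0) 1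
  have h4 : conj (f 1 1) = f 1 1 := congrFun (congrFun h1 1) 1
  rw [trC_apply] at h2
  constructor
  · simpa [s1, Matrix.mul_apply, Fin.sum_univ_two, Matrix.vecMul, dotProduct] using h3
  · have h5 : (s1 * cjC f * s1) 0 0 = conj (f 1 1) := by
      simp [s1, Matrix.mul_apply, Fin.sum_univ_two, Matrix.vecMul, dotProduct]
    rw [h5, h4]
    linear_combination h2

theorem Neck.mirror (h : Neck g d Ψ) {ζ : ℂ} (hζ : ζ ∈ Strip g) :
    pt x (Ψ (-conj ζ)) = mk3 (hz (pt x (Ψ ζ))) (-(pt x (Ψ ζ) 2)) := by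
  obtain ⟨h1, h2⟩ := Neck1_sym h hζ
  refine E3_ext ?_ ?_
  · rw [hz_mk3, Neck1_hz_pt, Neck1_hz_pt, h1]
  · rw [mk3_two, Neck1_pt_two, Neck1_pt_two, h2, neg_re]

lemma Neck1_zero (h : Neck g d Ψ) (hg : AdmG g) (θ : ℝ) : symM (Ψ (θ * I)) 0 0 = 0 := by
  have h1 := (Neck1_sym h (Neck1_imag hg θ)).2
  have e : -conj ((θ : ℂ) * I) = θ * I := by simp
  rw [e] at h1
  linear_combination (1/2 : ℂ) * h1

theorem Neck.planar (h : Neck g d Ψ) (hg : AdmG g) (θ : ℝ) : pt x (Ψ (θ * I)) 2 = 0 := by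
  rw [Neck1_pt_two, Neck1_zero h hg, zero_re]

lemma Neck1_path (h : Neck g d Ψ) {γ : ℝ → ℂ} {v : ℂ} {s : ℝ} (hγ : HasDerivAt γ v s)
    (hs : γ s ∈ Strip g) (i j : Fin 2) : HasDerivAt (fun r => symM (Ψ (γ r)) i j)
      (-(v * aM Ψ (xiN g d) (γ s) i j + conj v * conj (aM Ψ (xiN g d) (γ s) j i))) s := by
  have h1 := ((h.fr.contDiffAt_sym hs).differentiableAt (by simp)).hasFDerivAt.comp_hasDerivAt s hγ
  rw [h.fr.fderiv_sym hs] at h1
  have h2 := ((entC i j).restrictScalars ℝ).hasFDerivAt.comp_hasDerivAt s h1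
  have e : ((entC i j).restrictScalars ℝ) (-(v • aM Ψ (xiN g d) (γ s) +
      conj v • ct (aM Ψ (xiN g d) (γ s)))) =
      -(v * aM Ψ (xiN g d) (γ s) i j + conj v * conj (aM Ψ (xiN g d) (γ s) j i)) := by
    rw [← ct_apply]
    rfl
  rw [e] at h2
  exact h2

lemma Neck1_ofReal (c b : ℂ) (s : ℝ) : HasDerivAt (fun r : ℝ => b + c * (r : ℂ)) c s := by
  simpa using ((Complex.ofRealCLM.hasDerivAt (x := s)).const_mul c).const_add b

/-- shape of `a` along the boundary -/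
theorem Neck.a_bd (h : Neck g d Ψ) (hg : AdmG g) (θ : ℝ) :
    (aM Ψ (xiN g d) (θ * I) 0 0).im = 0 ∧
      aM Ψ (xiN g d) (θ * I) 1 0 = -conj (aM Ψ (xiN g d) (θ * I) 0 1) ∧
      aM Ψ (xiN g d) (θ * I) 1 1 = -aM Ψ (xiN g d) (θ * I) 0 0 ∧
      (aM Ψ (xiN g d) (θ * I) 0 0).re ^ 2 = ‖aM Ψ (xiN g d) (θ * I) 0 1‖ ^ 2 := by
  have hθ := Neck1_imag hg θ
  have hγ : HasDerivAt (fun r : ℝ => (r : ℂ) * I) I θ := by
    simpa using (Complex.ofRealCLM.hasDerivAt (x := θ)).mul_const I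
  have d1 := Neck1_path h hγ hθ 0 0
  simp only [Neck1_zero h hg] at d1
  have e1 := d1.unique (hasDerivAt_const θ (0 : ℂ))
  have d2 := Neck1_path h (Neck1_ofReal 1 (θ * I) 0) (by simpa using hθ) 0 1
  have d3 := Neck1_path h (Neck1_ofReal (-1) (θ * I) 0) (by simpa using hθ) 0 1
  have ev : (fun r : ℝ => symM (Ψ (θ * I + 1 * (r : ℂ))) 0 1) =ᶠ[𝓝 0]
      fun r : ℝ => symM (Ψ (θ * I + -1 * (r : ℂ))) 0 1 := by
    filter_upwards [Ioo_mem_nhds (show (-(1/2) : ℝ) < 0 by norm_num) (show (0 : ℝ) < 1/2 by norm_num)]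
      with r hr
    have h1 := (Neck1_sym h (ζ := θ * I + 1 * (r : ℂ))
      (Neck1_of_re hg (by simpa using abs_lt.2 hr))).1
    have e : -conj ((θ : ℂ) * I + 1 * (r : ℂ)) = θ * I + -1 * (r : ℂ) := by
      simp
      ring
    rw [← h1, e]
  have e2 := d2.unique (d3.congr_of_eventuallyEq ev)
  have e3 := h.fr.a_tr hθ
  have e4 := congrFun (congrFun (h.fr.a_sq hθ) 0) 0
  simp only [ofReal_zero, mul_zero, add_zero] at e2
  rw [trC_apply] at e3
  simp only [Matrix.mul_apply, Fin.sum_univ_two, Matrix.zero_apply] at e4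
  generalize aM Ψ (xiN g d) (θ * I) = a at *
  have f1 : (a 0 0).im = 0 := by
    have := congrArg Complex.re e1
    simp at this
    linarith
  have f2 : a 1 0 = -conj (a 0 1) := by
    have h1 : conj (a 1 0) = -a 0 1 := by
      simp only [map_one, map_neg] at e2
      linear_combination (-1/2 : ℂ) * e2
    rw [← Complex.conj_conj (a 1 0), h1, map_neg]
  refine ⟨f1, f2, by linear_combination e3, ?_⟩
  rw [f2, mul_neg, Complex.mul_conj, Complex.normSq_eq_norm_sq] at e4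
  have := congrArg Complex.re e4
  simp only [add_re, mul_re, neg_re, ofReal_re, zero_re, f1] at this
  linarith

lemma Neck1_Gam (k : ℕ) (x : ℝ) (Ψ : ℂ → MW) : Gam k x Ψ =
    fun s : ℝ => conj (symM (Ψ (((2 * Real.pi * k * s : ℝ) : ℂ) * I)) 0 1) - x :=
  funext fun _ => Neck1_hz_pt _ _

lemma Neck1_cd (k : ℕ) : ContDiff ℝ ∞ fun s : ℝ => ((2 * Real.pi * k * s : ℝ) : ℂ) * I :=
  (Complex.ofRealCLM.contDiff.comp (contDiff_const.mul contDiff_id)).mul contDiff_const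

theorem Neck.contDiff_Gam (h : Neck g d Ψ) (hg : AdmG g) (k : ℕ) : ContDiff ℝ ∞ (Gam k x Ψ) := by
  rw [Neck1_Gam]
  refine ContDiff.sub (contDiff_iff_contDiffAt.2 fun s => ?_) contDiff_const
  have h1 := (h.fr.contDiffAt_sym (Neck1_imag hg (2 * Real.pi * k * s))).comp s
    (Neck1_cd k).contDiffAt
  exact Complex.conjCLE.contDiff.contDiffAt.comp s
    (((entC 0 1).restrictScalars ℝ).contDiff.contDiffAt.comp s h1)

theorem Neck.deriv_Gam (h : Neck g d Ψ) (hg : AdmG g) (k : ℕ) (s : ℝ) :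
    deriv (Gam k x Ψ) s = (2 * Real.pi * k) *
      (2 * I * conj (aM Ψ (xiN g d) (((2 * Real.pi * k * s : ℝ) : ℂ) * I) 0 1)) := by
  have hγ : HasDerivAt (fun s : ℝ => ((2 * Real.pi * k * s : ℝ) : ℂ) * I)
      (((2 * Real.pi * k : ℝ) : ℂ) * I) s := by
    simpa using (((hasDerivAt_id s).const_mul (2 * Real.pi * k : ℝ)).ofReal_comp).mul_const I
  have d1 := Neck1_path h hγ (Neck1_imag hg _) 0 1
  have d2 := ((Complex.conjCLE : ℂ →L[ℝ] ℂ).hasFDerivAt.comp_hasDerivAt s d1).sub_const (x : ℂ)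
  rw [Neck1_Gam]
  refine d2.deriv.trans ?_
  rw [(h.a_bd hg _).2.1]
  simp [map_ofNat]
  ring

theorem Neck.differentiable_nu (h : Neck g d Ψ) (hg : AdmG g) (k : ℕ) :
    Differentiable ℝ (nuB k Ψ (xiN g d)) := by
  intro s
  have h1 := (h.fr.contDiffAt_a (Neck1_imag hg (2 * Real.pi * k * s))).comp s
    (Neck1_cd k).contDiffAt
  have h2 := (Complex.reCLM.contDiff.contDiffAt.comp s
    (((entC 0 0).restrictScalars ℝ).contDiff.contDiffAt.comp s h1)).differentiableAt (by simp)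
  exact (h2.const_mul 2).const_mul _

theorem Neck.norm_deriv_Gam (h : Neck g d Ψ) (hg : AdmG g) (k : ℕ) (s : ℝ) :
    ‖deriv (Gam k x Ψ) s‖ = |nuB k Ψ (xiN g d) s| := by
  have h1 := (h.a_bd hg (2 * Real.pi * k * s)).2.2.2
  have h2 := (sq_eq_sq_iff_abs_eq_abs _ _).1 h1
  rw [abs_norm] at h2
  rw [h.deriv_Gam hg, nuB, abs_mul, abs_mul, abs_neg, h2]
  simp [abs_mul, abs_of_pos Real.pi_pos]

end Pool.Agent.MP_efb2da_gt
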