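import Pool.Agent.MP_efb2da_gt.Pot0
import Pool.Agent.MP_efb2da_gt.HolMat

open Set Complex
open scoped Topology ComplexConjugate Matrix ContDiff

noncomputable section

namespace Pool.Agent.MP_efb2da_gt

variable {g : Geo} {d : Dat}

lemma continuous_clampD : Continuous clampD := by
  refine Continuous.subtype_mk ?_ _
  refine Continuous.smul ((continuous_const.max continuous_norm).inv₀ fun z => ?_) continuous_id
  exact (lt_of_lt_of_le one_pos (le_max_left _ _)).ne'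
lemma clampD_of_le {z : ℂ} (h : ‖z‖ ≤ 1) : (clampD z : ℂ) = z := by
  simp [clampD, max_eq_left h]
lemma Pot1_clampD_conj (z : ℂ) : (clampD (conj z) : ℂ) = conj (clampD z : ℂ) := by
  simp [clampD]
lemma continuous_mv : Continuous fun x : CD × ℂ => mv x.1 x.2 :=
  continuous_fst.eval (continuous_clampD.comp (continuous_const.mul continuous_snd))
lemma norm_mv_le (m : CD) (z : ℂ) : ‖mv m z‖ ≤ ‖m‖ := m.norm_coe_le_norm _
lemma differentiable_mv (z : ℂ) : Differentiable ℂ fun m : CD => mv m z :=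
  (ContinuousMap.evalCLM ℂ (clampD (8 * z)) : CD →L[ℂ] MW).differentiable
lemma mv_smul (c : ℂ) (m : CD) (z : ℂ) : mv (c • m) z = c • mv m z := rfl
lemma Pot1_cont_mv (m : CD) : Continuous (mv m) :=
  continuous_mv.comp (continuous_const.prodMk continuous_id)
lemma Pot1_cont_mv' (z : ℂ) : Continuous fun m : CD => mv m z := (differentiable_mv z).continuous

lemma isClosed_StrM : IsClosed {m : CD | StrM m} := by
  have h1 : IsClosed {m : CD | ∀ z, sharp (mv m (conj z)) = mv m z} := by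
    rw [ofPred_forall]
    exact isClosed_iInter fun z =>
      isClosed_eq (sharp.continuous.comp (Pot1_cont_mv' _)) (Pot1_cont_mv' _)
  have h2 : IsClosed {m : CD | ∀ z, trW (mv m z) = 0} := by
    rw [ofPred_forall]
    exact isClosed_iInter fun z =>
      isClosed_eq (trW.continuous.comp (Pot1_cont_mv' _)) continuous_const
  have h3 : IsClosed {m : CD | ∀ z, MGE (-1) (mv m z)} := by
    rw [ofPred_forall]
    exact isClosed_iInter fun z => (isClosed_MGE (-1)).preimage (Pot1_cont_mv' z)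
  have h4 : IsClosed {m : CD | DifferentiableOn ℂ (mv m) (Metric.ball 0 (1/8))} := by
    refine IsSeqClosed.isClosed fun x m hx hm => ?_
    have hu : TendstoUniformlyOn (fun n => mv (x n)) (mv m) Filter.atTop (Metric.ball 0 (1/8)) := by
      rw [Metric.tendstoUniformlyOn_iff]
      intro ε hε
      filter_upwards [Metric.tendsto_nhds.1 hm ε hε] with n hn z _
      rw [dist_comm]
      exact lt_of_le_of_lt (ContinuousMap.dist_apply_le_dist _) hn
    exact hu.tendstoLocallyUniformlyOn.differentiableOn (Filter.Eventually.of_forall hx)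
      Metric.isOpen_ball
  have : {m : CD | StrM m} = {m : CD | ∀ z, sharp (mv m (conj z)) = mv m z} ∩
      ({m : CD | ∀ z, trW (mv m z) = 0} ∩ ({m : CD | ∀ z, MGE (-1) (mv m z)} ∩
        {m : CD | DifferentiableOn ℂ (mv m) (Metric.ball 0 (1/8))})) := by
    ext m
    exact ⟨fun h => ⟨h.real, h.tr, h.ge, h.hol⟩, fun h => ⟨h.1, h.2.1, h.2.2.1, h.2.2.2⟩⟩
  rw [this]
  exact h1.inter (h2.inter (h3.inter h4))

lemma StrM.zero : StrM 0 := by
  have : mv 0 = fun _ => 0 := rfl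
  refine ⟨fun z => ?_, fun z => ?_, fun z => ?_, ?_⟩ <;> rw [this]
  · exact map_zero _
  · exact map_zero _
  · exact MGE.zero _
  · exact differentiableOn_const _
lemma StrM.smul {m : CD} (h : StrM m) (c : ℝ) : StrM ((c : ℂ) • m) := by
  refine ⟨fun z => ?_, fun z => ?_, fun z => ?_, ?_⟩
  · rw [mv_smul, mv_smul, sharp_smul, conj_ofReal, h.real]
  · rw [mv_smul, map_smul, h.tr, smul_zero]
  · rw [mv_smul]; exact (h.ge z).smul _
  · exact h.hol.const_smul (c : ℂ)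
lemma isOpen_Dom (g : Geo) : IsOpen (Dom g) := by
  refine (isOpen_lt continuous_const continuous_norm).inter
    ((isOpen_lt (continuous_const.mul continuous_norm) continuous_const).inter
    ((isOpen_lt continuous_const (continuous_id.sub continuous_const).norm).inter ?_))
  have : IsOpen (⋂ j, {z : ℂ | z ≠ pp g j}) := isOpen_iInter_of_finite fun j => isOpen_ne
  convert this using 1
  ext z; simp only [mem_iInter, mem_ofPred_eq]; rfl
lemma conj_mem_Dom {z : ℂ} (h : z ∈ Dom g) : conj z ∈ Dom g := by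
  obtain ⟨h1, h2, h3, h4⟩ := h
  refine ⟨by rwa [norm_conj], by rwa [norm_conj], ?_, fun j hj => h4 j ?_⟩
  · have : conj z - 1 = conj (z - 1) := by simp
    rwa [this, norm_conj]
  · rw [← conj_conj z, hj, conj_ofReal]
lemma pos_cj5 (p : Fin 3 → ℝ) (j : Fin 3) : pos p (cj5 j) = p j := by
  fin_cases j <;> rfl
lemma Pot1_pos0 (p : Fin 3 → ℝ) : pos p 0 = 0 := rfl
lemma Pot1_pos1 (p : Fin 3 → ℝ) : pos p 1 = 1 := rfl
lemma ne_pos_of_mem_Dom (hg : AdmG g) {z : ℂ} (h : z ∈ Dom g) (j : Fin 5) : z ≠ pos (pp g) j := by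
  obtain ⟨h1, h2, h3, h4⟩ := h
  obtain ⟨-, ⟨he, -⟩, ⟨hq, -⟩, -⟩ := hg
  fin_cases j
  · intro hz
    have : z = 0 := by simpa [pos] using hz
    rw [this, norm_zero] at h1; linarith
  · intro hz
    have : z = 1 := by simpa [pos] using hz
    rw [this, sub_self, norm_zero] at h3; nlinarith [sq_nonneg (ee g)]
  · exact h4 0
  · exact h4 1
  · exact h4 2
/-- separation of the punctures -/
lemma pos_sep {p : Fin 3 → ℝ} (h : AdmP p) {i j : Fin 5} (hij : i ≠ j) :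
    7/30 ≤ |pos p i - pos p j| := by
  obtain ⟨⟨a1, a2⟩, ⟨b1, b2⟩, ⟨c1, c2⟩⟩ := h
  fin_cases i <;> fin_cases j <;> simp only [pos] <;>
    first
    | exact absurd rfl hij
    | (rw [le_abs]; left; simp; linarith)
    | (rw [le_abs]; right; simp; linarith)
lemma abs_pos_le {p : Fin 3 → ℝ} (h : AdmP p) (j : Fin 5) : |pos p j| ≤ 11/10 := by
  obtain ⟨⟨a1, a2⟩, ⟨b1, b2⟩, ⟨c1, c2⟩⟩ := h
  rw [abs_le]
  fin_cases j
  · change -(11/10) ≤ (0:ℝ) ∧ (0:ℝ) ≤ 11/10
    norm_num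
  · change -(11/10) ≤ (1:ℝ) ∧ (1:ℝ) ≤ 11/10
    norm_num
  · change -(11/10) ≤ p 0 ∧ p 0 ≤ 11/10
    constructor <;> linarith
  · change -(11/10) ≤ p 1 ∧ p 1 ≤ 11/10
    constructor <;> linarith
  · change -(11/10) ≤ p 2 ∧ p 2 ≤ 11/10
    constructor <;> linarith

/-- a point within `1/8` of one puncture is at distance at least `13/120` of the others -/
lemma Pot1_far {p : Fin 3 → ℝ} (h : AdmP p) {i j : Fin 5} (hij : i ≠ j) {z : ℂ}
    (hz : ‖z - pos p j‖ ≤ 1/8) : 13/120 ≤ ‖z - pos p i‖ := by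
  have h1 := pos_sep h hij
  have h2 : ‖((pos p i : ℝ) : ℂ) - (pos p j : ℝ)‖ = |pos p i - pos p j| := by
    rw [← ofReal_sub, norm_real, Real.norm_eq_abs]
  have h3 : ‖((pos p i : ℝ) : ℂ) - (pos p j : ℝ)‖ ≤ ‖z - pos p j‖ + ‖z - pos p i‖ := by
    have : ((pos p i : ℝ) : ℂ) - (pos p j : ℝ) = (z - pos p j) - (z - pos p i) := by ring
    rw [this]; exact norm_sub_le _ _
  linarith
lemma Pot1_ne {p : Fin 3 → ℝ} (h : AdmP p) {i j : Fin 5} (hij : i ≠ j) {z : ℂ}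
    (hz : ‖z - pos p j‖ ≤ 1/8) : z ≠ pos p i := by
  intro e
  have := Pot1_far h hij hz
  rw [e, sub_self, norm_zero] at this; linarith
lemma Pot1_near {p : Fin 3 → ℝ} (h : AdmP p) {j : Fin 5} {z : ℂ}
    (hz : ‖z - pos p j‖ ≤ 1/8) : ‖z‖ ≤ 2 := by
  have h1 := abs_pos_le h j
  have h3 : ‖z‖ ≤ ‖z - pos p j‖ + ‖((pos p j : ℝ) : ℂ)‖ := by
    conv_lhs => rw [show z = (z - pos p j) + (pos p j : ℝ) by ring]
    exact norm_add_le _ _
  rw [norm_real, Real.norm_eq_abs] at h3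
  linarith
lemma Pot1_e (hg : AdmG g) : 8 * ee g ^ 2 < 13/120 := by
  obtain ⟨-, ⟨he, he'⟩, -, -⟩ := hg
  nlinarith
lemma Pot1_q (hg : AdmG g) : 8 * qq g < 13/120 := by
  obtain ⟨-, -, ⟨hq, hq'⟩, -⟩ := hg
  linarith
lemma Pot1_q' (hg : AdmG g) {z : ℂ} (hz : ‖z‖ ≤ 2) : 8 * qq g * ‖z‖ < 1 := by
  obtain ⟨-, -, ⟨hq, hq'⟩, -⟩ := hg
  nlinarith [norm_nonneg z]

lemma Xi_eq_reg (j : Fin 5) (z : ℂ) :
    Xi g d z = (z - pos (pp g) j)⁻¹ • AA d j + reg g d j z := by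
  unfold Xi reg rat
  rw [← Finset.add_sum_erase _ _ (Finset.mem_univ j)]
  abel

lemma Pot1_dsmul {f : ℂ → ℂ} {F : ℂ → MW} {z : ℂ} (hf : DifferentiableAt ℂ f z)
    (hF : DifferentiableAt ℂ F z) : DifferentiableAt ℂ (fun w => f w • F w) z := hf.smul hF
lemma Pot1_csmul {f : ℂ → ℂ} {F : ℂ → MW} {z : ℂ} (hf : ContinuousAt f z)
    (hF : ContinuousAt F z) : ContinuousAt (fun w => f w • F w) z := hf.smul hF

lemma Pot1_mv_diff {m : CD} (h : StrM m) {f : ℂ → ℂ} {z : ℂ} (hf : DifferentiableAt ℂ f z)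
    (hz : ‖f z‖ < 1/8) : DifferentiableAt ℂ (fun w => mv m (f w)) z :=
  (h.hol.differentiableAt (Metric.isOpen_ball.mem_nhds (mem_ball_zero_iff.2 hz))).comp z hf

lemma Pot1_rat_diff {s : Finset (Fin 5)} {z : ℂ} (h : ∀ j ∈ s, z ≠ pos (pp g) j) :
    DifferentiableAt ℂ (rat g d s) z := by
  unfold rat
  refine DifferentiableAt.fun_sum fun j hj => ?_
  have h1 : DifferentiableAt ℂ (fun w : ℂ => w - pos (pp g) j) z := differentiableAt_id.sub_const _
  exact Pot1_dsmul (h1.inv (sub_ne_zero.2 (h j hj))) (differentiableAt_const _)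

lemma Pot1_div_lt {a : ℝ} (ha : 0 ≤ a) {u : ℂ} (h : 8 * a < ‖u‖) : ‖(a : ℂ) / u‖ < 1/8 := by
  have hu : 0 < ‖u‖ := by linarith
  rw [norm_div, norm_real, Real.norm_of_nonneg ha, div_lt_iff₀ hu]
  linarith

lemma Pot1_h1_diff (hd : Str d) {z : ℂ} (h : 8 * ee g ^ 2 < ‖z - 1‖) :
    DifferentiableAt ℂ (h1 g d) z := by
  have h0 : z - 1 ≠ 0 := by
    intro e; rw [e, norm_zero] at h; nlinarith [sq_nonneg (ee g)]
  have hz : ‖(ee g : ℂ) ^ 2 / (z - 1)‖ < 1/8 := by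
    rw [← ofReal_pow]; exact Pot1_div_lt (sq_nonneg _) h
  unfold h1
  refine DifferentiableAt.neg (Pot1_dsmul ?_ ?_)
  · exact (differentiableAt_const _).div ((differentiableAt_id.sub_const _).pow 2) (pow_ne_zero _ h0)
  · exact sw.differentiableAt.comp z (Pot1_mv_diff (hd.m 1)
      ((differentiableAt_const _).div (differentiableAt_id.sub_const _) h0) hz)

lemma Pot1_hinf_diff (hg : AdmG g) (hd : Str d) {z : ℂ} (h : 8 * qq g < ‖z‖) :
    DifferentiableAt ℂ (hinf g d) z := by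
  have hq := hg.2.2.1.1
  have h0 : z ≠ 0 := by
    intro e; rw [e, norm_zero] at h; linarith
  have hz : ‖(qq g : ℂ) / z‖ < 1/8 := Pot1_div_lt hq.le h
  unfold hinf
  refine Pot1_dsmul ?_ ?_
  · exact (differentiableAt_const _).div (differentiableAt_id.pow 2) (pow_ne_zero _ h0)
  · exact ((Pot1_mv_diff (hd.m 2) ((differentiableAt_const _).div differentiableAt_id h0)
      hz).const_mul _).mul_const _

lemma Pot1_q_mul (hg : AdmG g) (z : ℂ) : ‖(qq g : ℂ) * z‖ = qq g * ‖z‖ := by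
  rw [norm_mul, norm_real, Real.norm_of_nonneg hg.2.2.1.1.le]

lemma Pot1_h0_diff (hg : AdmG g) (hd : Str d) {z : ℂ} (h : 8 * qq g * ‖z‖ < 1) :
    DifferentiableAt ℂ (h0 g d) z := by
  have hz : ‖(qq g : ℂ) * z‖ < 1/8 := by rw [Pot1_q_mul hg]; linarith
  unfold h0
  refine Pot1_dsmul (differentiableAt_const _) ?_
  exact ((Pot1_mv_diff (hd.m 0) (differentiableAt_id.const_mul _) hz).const_mul _).mul_const _

lemma Xi_differentiableOn (hg : AdmG g) (hd : Str d) : DifferentiableOn ℂ (Xi g d) (Dom g) := by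
  intro z hz
  refine DifferentiableAt.differentiableWithinAt ?_
  exact (((Pot1_rat_diff fun j _ => ne_pos_of_mem_Dom hg hz j).add (Pot1_h1_diff hd hz.2.2.1)).add
    (Pot1_hinf_diff hg hd hz.1)).add (Pot1_h0_diff hg hd hz.2.1)

lemma Pot1_cj5_ne0 (j : Fin 3) : (0 : Fin 5) ≠ cj5 j := by fin_cases j <;> decide
lemma Pot1_cj5_ne1 (j : Fin 3) : (1 : Fin 5) ≠ cj5 j := by fin_cases j <;> decide
lemma Pot1_cj5_inj {i j : Fin 3} (h : i ≠ j) : cj5 i ≠ cj5 j := by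
  revert i j; decide

lemma Pot1_ball (hg : AdmG g) (j : Fin 3) {z : ℂ} (h : ‖z - pp g j‖ < 1/8) :
    8 * qq g < ‖z‖ ∧ 8 * qq g * ‖z‖ < 1 ∧ 8 * ee g ^ 2 < ‖z - 1‖ := by
  have hp := hg.2.2.2
  have h' : ‖z - pos (pp g) (cj5 j)‖ ≤ 1/8 := by rw [pos_cj5]; exact h.le
  have a0 := Pot1_far hp (Pot1_cj5_ne0 j) h'
  have a1 := Pot1_far hp (Pot1_cj5_ne1 j) h'
  rw [Pot1_pos0, ofReal_zero, sub_zero] at a0
  rw [Pot1_pos1, ofReal_one] at a1
  exact ⟨(Pot1_q hg).trans_le a0, Pot1_q' hg (Pot1_near hp h'), (Pot1_e hg).trans_le a1⟩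

lemma reg_differentiableOn (hg : AdmG g) (hd : Str d) (j : Fin 3) :
    DifferentiableOn ℂ (reg g d (cj5 j)) (Metric.ball (pp g j : ℂ) (1/8)) := by
  intro z hz
  rw [mem_ball_iff_norm] at hz
  obtain ⟨b1, b2, b3⟩ := Pot1_ball hg j hz
  have h' : ‖z - pos (pp g) (cj5 j)‖ ≤ 1/8 := by rw [pos_cj5]; exact hz.le
  refine DifferentiableAt.differentiableWithinAt ?_
  exact (((Pot1_rat_diff fun i hi => Pot1_ne hg.2.2.2 (Finset.ne_of_mem_erase hi) h').add
    (Pot1_h1_diff hd b3)).add (Pot1_hinf_diff hg hd b1)).add (Pot1_h0_diff hg hd b2)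

lemma ball_subset_Dom (hg : AdmG g) (j : Fin 3) {z : ℂ} (h : ‖z - pp g j‖ < 1/8)
    (h' : z ≠ pp g j) : z ∈ Dom g := by
  obtain ⟨b1, b2, b3⟩ := Pot1_ball hg j h
  refine ⟨b1, b2, b3, fun i => ?_⟩
  by_cases hij : i = j
  · rw [hij]; exact h'
  · have h'' : ‖z - pos (pp g) (cj5 j)‖ ≤ 1/8 := by rw [pos_cj5]; exact h.le
    have := Pot1_ne hg.2.2.2 (Pot1_cj5_inj hij) h''
    rwa [pos_cj5] at this

lemma Pot1_neck (hg : AdmG g) {u : ℂ} (h' : ‖u‖ ≤ 1/8) :
    ‖1 + u - pos (pp g) 1‖ ≤ 1/8 ∧ 8 * qq g < ‖1 + u‖ ∧ 8 * qq g * ‖1 + u‖ < 1 := by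
  have hp := hg.2.2.2
  have h1 : ‖1 + u - pos (pp g) 1‖ ≤ 1/8 := by
    rw [Pot1_pos1, ofReal_one, add_sub_cancel_left]; exact h'
  have a0 := Pot1_far hp (zero_ne_one) h1
  rw [Pot1_pos0, ofReal_zero, sub_zero] at a0
  exact ⟨h1, (Pot1_q hg).trans_le a0, Pot1_q' hg (Pot1_near hp h1)⟩

lemma neck_subset_Dom (hg : AdmG g) {u : ℂ} (h : 8 * ee g ^ 2 < ‖u‖) (h' : ‖u‖ < 1/8) :
    1 + u ∈ Dom g := by
  obtain ⟨b1, b2, b3⟩ := Pot1_neck hg h'.le
  refine ⟨b2, b3, by rwa [add_sub_cancel_left], fun i => ?_⟩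
  have := Pot1_ne hg.2.2.2 (Pot1_cj5_ne1 i).symm b1
  rwa [pos_cj5] at this

lemma Th_differentiableOn (hg : AdmG g) (hd : Str d) :
    DifferentiableOn ℂ (Th g d) {u | 8 * ee g ^ 2 < ‖u‖ ∧ ‖u‖ < 1/8} := by
  intro u hu
  obtain ⟨h, h'⟩ := hu
  have h0 : u ≠ 0 := by
    intro e; rw [e, norm_zero] at h; nlinarith [sq_pos_of_pos hg.2.1.1]
  have hz : ‖(ee g : ℂ) ^ 2 / u‖ < 1/8 := by
    rw [← ofReal_pow]; exact Pot1_div_lt (sq_nonneg _) h
  have hdiv : DifferentiableAt ℂ (fun w : ℂ => (ee g : ℂ) ^ 2 / w) u :=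
    (differentiableAt_const _).div differentiableAt_id h0
  refine DifferentiableAt.differentiableWithinAt ?_
  unfold Th
  exact ((differentiableAt_const _).add
    (differentiableAt_id.smul (Pot1_mv_diff (hd.m 1) differentiableAt_id h'))).sub
    (hdiv.smul (sw.differentiableAt.comp u (Pot1_mv_diff (hd.m 1) hdiv hz)))

lemma Pot1_rat_tr (hd : Str d) (s : Finset (Fin 5)) (z : ℂ) : trW (rat g d s z) = 0 := by
  unfold rat
  rw [map_sum]
  exact Finset.sum_eq_zero fun j _ => by rw [map_smul, hd.trA, smul_zero]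
lemma Pot1_h1_tr (hd : Str d) (z : ℂ) : trW (h1 g d z) = 0 := by
  unfold h1
  rw [map_neg, map_smul, trW_sw, (hd.m 1).tr, smul_zero, neg_zero]
lemma Pot1_hinf_tr (hd : Str d) (z : ℂ) : trW (hinf g d z) = 0 := by
  unfold hinf
  rw [map_smul, trW_conj, (hd.m 2).tr, mul_zero, smul_zero]
lemma Pot1_h0_tr (hd : Str d) (z : ℂ) : trW (h0 g d z) = 0 := by
  unfold h0
  rw [map_smul, trW_conj', (hd.m 0).tr, mul_zero, smul_zero]
lemma Pot1_rat_ge (hd : Str d) (s : Finset (Fin 5)) (z : ℂ) : MGE (-1) (rat g d s z) :=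
  MGE.sum fun j _ => (hd.geA j).smul _
lemma Pot1_h1_ge (hd : Str d) (z : ℂ) : MGE (-1) (h1 g d z) :=
  (((hd.m 1).ge _).sw.smul _).neg
lemma Pot1_hinf_ge (hd : Str d) (z : ℂ) : MGE (-1) (hinf g d z) :=
  (hd.geG.conj ((hd.m 2).ge _) hd.geG.adj).smul _
lemma Pot1_h0_ge (hd : Str d) (z : ℂ) : MGE (-1) (h0 g d z) :=
  (hd.geG.adj.conj ((hd.m 0).ge _) hd.geG).smul _
lemma Pot1_mv_real {m : CD} (h : StrM m) {w w' : ℂ} (e : w' = conj w) :
    sharp (mv m w') = mv m w := by rw [e, h.real]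
lemma Pot1_rat_real (hd : Str d) (s : Finset (Fin 5)) (z : ℂ) :
    sharp (rat g d s (conj z)) = rat g d s z := by
  unfold rat
  rw [map_sum]
  refine Finset.sum_congr rfl fun j _ => ?_
  rw [sharp_smul, hd.realA]; simp
lemma Pot1_h1_real (hd : Str d) (z : ℂ) : sharp (h1 g d (conj z)) = h1 g d z := by
  unfold h1
  rw [map_neg, sharp_smul, sharp_sw,
    Pot1_mv_real (hd.m 1) (w := (ee g : ℂ) ^ 2 / (z - 1)) (by simp)]
  simp
lemma Pot1_hinf_real (hd : Str d) (z : ℂ) : sharp (hinf g d (conj z)) = hinf g d z := by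
  unfold hinf
  rw [sharp_smul, sharp_mul, sharp_mul, sharp_adj, hd.realG,
    Pot1_mv_real (hd.m 2) (w := (qq g : ℂ) / z) (by simp)]
  simp
lemma Pot1_h0_real (hd : Str d) (z : ℂ) : sharp (h0 g d (conj z)) = h0 g d z := by
  unfold h0
  rw [sharp_smul, sharp_mul, sharp_mul, sharp_adj, hd.realG,
    Pot1_mv_real (hd.m 0) (w := (qq g : ℂ) * z) (by simp)]
  simp

lemma Xi_tr (hd : Str d) (z : ℂ) : trW (Xi g d z) = 0 := by
  unfold Xi
  simp only [map_add, Pot1_rat_tr hd, Pot1_h1_tr hd, Pot1_hinf_tr hd, Pot1_h0_tr hd, add_zero]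
lemma Xi_ge (hd : Str d) (z : ℂ) : MGE (-1) (Xi g d z) :=
  (((Pot1_rat_ge hd _ z).add (Pot1_h1_ge hd z)).add (Pot1_hinf_ge hd z)).add (Pot1_h0_ge hd z)
lemma Xi_real (hd : Str d) (z : ℂ) : sharp (Xi g d (conj z)) = Xi g d z := by
  unfold Xi
  simp only [map_add, Pot1_rat_real hd, Pot1_h1_real hd, Pot1_hinf_real hd, Pot1_h0_real hd]
lemma reg_tr (hd : Str d) (j : Fin 5) (z : ℂ) : trW (reg g d j z) = 0 := by
  unfold reg
  simp only [map_add, Pot1_rat_tr hd, Pot1_h1_tr hd, Pot1_hinf_tr hd, Pot1_h0_tr hd, add_zero]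
lemma reg_ge (hd : Str d) (j : Fin 5) (z : ℂ) : MGE (-1) (reg g d j z) :=
  (((Pot1_rat_ge hd _ z).add (Pot1_h1_ge hd z)).add (Pot1_hinf_ge hd z)).add (Pot1_h0_ge hd z)
lemma reg_real (hd : Str d) (j : Fin 5) (z : ℂ) : sharp (reg g d j (conj z)) = reg g d j z := by
  unfold reg
  simp only [map_add, Pot1_rat_real hd, Pot1_h1_real hd, Pot1_hinf_real hd, Pot1_h0_real hd]
lemma Th_tr (hd : Str d) (u : ℂ) : trW (Th g d u) = 0 := by
  unfold Th
  rw [map_sub, map_add, map_smul, map_smul, trW_sw, hd.trA, (hd.m 1).tr, (hd.m 1).tr]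
  simp
lemma Th_ge (hd : Str d) (u : ℂ) : MGE (-1) (Th g d u) :=
  ((hd.geA 1).add (((hd.m 1).ge _).smul _)).sub (((hd.m 1).ge _).sw.smul _)
lemma Th_real (hd : Str d) (u : ℂ) : sharp (Th g d (conj u)) = Th g d u := by
  unfold Th
  rw [map_sub, map_add, sharp_smul, sharp_smul, sharp_sw, hd.realA, (hd.m 1).real,
    Pot1_mv_real (hd.m 1) (w := (ee g : ℂ) ^ 2 / u) (by simp)]
  simp
lemma Th_sw (hg : AdmG g) (hd : Str d) {u : ℂ} (hu : u ≠ 0) :
    sw (Th g d ((ee g : ℂ) ^ 2 / u)) = -Th g d u := by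
  have he : (ee g : ℂ) ≠ 0 := ofReal_ne_zero.2 hg.2.1.1.ne'
  have e : (ee g : ℂ) ^ 2 / ((ee g : ℂ) ^ 2 / u) = u := by field_simp
  unfold Th
  rw [e, map_sub, map_add, map_smul, map_smul, sw_sw, hd.odd]
  abel

lemma Pot1_rat_cont {s : Finset (Fin 5)} {z : ℂ} (h : ∀ j ∈ s, z ≠ pos (pp g) j) :
    ContinuousAt (rat g d s) z := (Pot1_rat_diff h).continuousAt
lemma Pot1_h1_cont {z : ℂ} (h0 : z - 1 ≠ 0) : ContinuousAt (h1 g d) z := by
  unfold h1
  refine ContinuousAt.neg (Pot1_csmul ?_ ?_)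
  · exact continuousAt_const.div ((continuousAt_id.sub continuousAt_const).pow 2) (pow_ne_zero _ h0)
  · exact (sw.continuous.comp (Pot1_cont_mv _)).continuousAt.comp
      (continuousAt_const.div (continuousAt_id.sub continuousAt_const) h0)
lemma Pot1_hinf_cont {z : ℂ} (h0 : z ≠ 0) : ContinuousAt (hinf g d) z := by
  unfold hinf
  refine Pot1_csmul ?_ ?_
  · exact continuousAt_const.div (continuousAt_id.pow 2) (pow_ne_zero _ h0)
  · exact (continuousAt_const.mul ((Pot1_cont_mv _).continuousAt.comp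
      (continuousAt_const.div continuousAt_id h0))).mul continuousAt_const
lemma Pot1_h0_cont : Continuous (h0 g d) := by
  unfold h0
  exact ((continuous_const.mul ((Pot1_cont_mv _).comp
    (continuous_const.mul continuous_id))).mul continuous_const).const_smul (qq g : ℂ)

lemma Pot1_one_sub {a : ℝ} (ha : |a| ≤ 11/10) {w : ℂ} (hw : ‖w‖ ≤ 1/8) : 1 - (a : ℂ) * w ≠ 0 := by
  intro e
  have h1 : (a : ℂ) * w = 1 := by linear_combination -e
  have h2 := congrArg norm h1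
  rw [norm_mul, norm_real, Real.norm_eq_abs, norm_one] at h2
  nlinarith [abs_nonneg a, norm_nonneg w]
lemma Pot1_one_sub' {w : ℂ} (hw : ‖w‖ ≤ 1/8) : 7/8 ≤ ‖1 - w‖ := by
  have := norm_sub_norm_le (1 : ℂ) w
  rw [norm_one] at this; linarith
lemma Pot1_one_sub'' {w : ℂ} (hw : ‖w‖ ≤ 1/8) : 1 - w ≠ 0 := by
  intro e
  have := Pot1_one_sub' hw
  rw [e, norm_zero] at this; linarith

lemma Pot1_zero_near {z : ℂ} (hz : ‖z‖ ≤ 1/8) : ‖z - pos (pp g) 0‖ ≤ 1/8 := by
  rw [Pot1_pos0, ofReal_zero, sub_zero]; exact hz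

lemma Pot1_Mf_cont (hg : AdmG g) (i : Fin 3) {z : ℂ} (hz : ‖z‖ ≤ 1/8) :
    ContinuousAt (Mf g d i) z := by
  have hp := hg.2.2.2
  have h1' : 1 - z ≠ 0 := Pot1_one_sub'' hz
  fin_cases i
  · change ContinuousAt (M0 g d) z
    exact ((Pot1_rat_cont fun j hj => Pot1_ne hp (Finset.ne_of_mem_erase hj)
      (Pot1_zero_near hz)).add (Pot1_h1_cont (by rw [← neg_sub]; exact neg_ne_zero.2 h1'))).add
      Pot1_h0_cont.continuousAt
  · change ContinuousAt (M1 g d) z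
    obtain ⟨b1, b2, b3⟩ := Pot1_neck hg hz
    have h0 : 1 + z ≠ 0 := by
      intro e; rw [e, norm_zero] at b2; linarith [hg.2.2.1.1]
    have hc : ContinuousAt (fun u : ℂ => 1 + u) z := continuousAt_const.add continuousAt_id
    exact (((Pot1_rat_cont fun j hj => Pot1_ne hp (Finset.ne_of_mem_erase hj) b1).comp hc).add
      ((Pot1_hinf_cont h0).comp hc)).add (Pot1_h0_cont.continuousAt.comp hc)
  · change ContinuousAt (M2 g d) z
    unfold M2
    refine ContinuousAt.add (ContinuousAt.sub ?_ (Pot1_csmul ?_ ?_)) ?_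
    · refine tendsto_finsetSum _ fun j _ => ?_
      exact (continuousAt_const.div (continuousAt_const.sub (continuousAt_const.mul continuousAt_id))
        (Pot1_one_sub (abs_pos_le hp j) hz)).smul continuousAt_const
    · exact continuousAt_const.div ((continuousAt_const.sub continuousAt_id).pow 2)
        (pow_ne_zero _ h1')
    · exact (sw.continuous.comp (Pot1_cont_mv _)).continuousAt.comp
        ((continuousAt_const.mul continuousAt_id).div (continuousAt_const.sub continuousAt_id) h1')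
    · exact (((continuous_const.mul ((Pot1_cont_mv _).comp
        (continuous_const.mul continuous_id))).mul continuous_const).const_smul
        (qq g : ℂ)).continuousAt

lemma Pot1_disc (z : Disc) : ‖(z : ℂ) / 8‖ ≤ 1/8 := by
  have := mem_closedBall_zero_iff.1 z.2
  rw [norm_div]
  simp only [norm_ofNat]
  linarith

lemma continuous_Mf (hg : AdmG g) (i : Fin 3) : Continuous fun z : Disc => Mf g d i (z / 8) := by
  refine continuous_iff_continuousAt.2 fun z => ?_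
  exact ContinuousAt.comp (f := fun z : Disc => (z : ℂ) / 8) (Pot1_Mf_cont hg i (Pot1_disc z))
    (continuous_subtype_val.div_const _).continuousAt
lemma Pot1_mv_MM (hg : AdmG g) (i : Fin 3) (z : ℂ) :
    mv (MM g d i) z = Mf g d i ((clampD (8 * z) : ℂ) / 8) := by
  unfold mv MM cmk
  rw [ContinuousMap.mkD_of_continuous (continuous_Mf hg i)]
  rfl
lemma mv_MM (hg : AdmG g) (i : Fin 3) {z : ℂ} (hz : ‖z‖ ≤ 1/8) : mv (MM g d i) z = Mf g d i z := by
  have h : ‖8 * z‖ ≤ 1 := by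
    rw [norm_mul]; simp only [norm_ofNat]; linarith
  rw [Pot1_mv_MM hg, clampD_of_le h]
  congr 1; ring

lemma Pot1_Mf_real (hd : Str d) (i : Fin 3) (z : ℂ) : sharp (Mf g d i (conj z)) = Mf g d i z := by
  fin_cases i
  · change sharp (M0 g d (conj z)) = M0 g d z
    unfold M0
    simp only [map_add, Pot1_rat_real hd, Pot1_h1_real hd, Pot1_h0_real hd]
  · change sharp (M1 g d (conj z)) = M1 g d z
    unfold M1
    have e : 1 + conj z = conj (1 + z) := by simp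
    simp only [e, map_add sharp, Pot1_rat_real hd, Pot1_hinf_real hd, Pot1_h0_real hd]
  · change sharp (M2 g d (conj z)) = M2 g d z
    unfold M2
    rw [map_add, map_sub, map_sum, sharp_smul, sharp_smul, sharp_sw, sharp_mul, sharp_mul,
      sharp_adj, hd.realG, Pot1_mv_real (hd.m 2) (w := (qq g : ℂ) * z) (by simp),
      Pot1_mv_real (hd.m 1) (w := (ee g : ℂ) ^ 2 * z / (1 - z)) (by simp)]
    have : ∀ j, sharp (((pos (pp g) j : ℂ) / (1 - pos (pp g) j * conj z)) • AA d j) =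
        ((pos (pp g) j : ℂ) / (1 - pos (pp g) j * z)) • AA d j := fun j => by
      rw [sharp_smul, hd.realA]; simp
    simp only [this]
    simp
lemma Pot1_Mf_tr (hd : Str d) (i : Fin 3) (z : ℂ) : trW (Mf g d i z) = 0 := by
  fin_cases i
  · change trW (M0 g d z) = 0
    unfold M0
    simp only [map_add, Pot1_rat_tr hd, Pot1_h1_tr hd, Pot1_h0_tr hd, add_zero]
  · change trW (M1 g d z) = 0
    unfold M1
    simp only [map_add, Pot1_rat_tr hd, Pot1_hinf_tr hd, Pot1_h0_tr hd, add_zero]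
  · change trW (M2 g d z) = 0
    unfold M2
    rw [map_add, map_sub, map_sum, map_smul, map_smul, trW_sw, trW_conj, (hd.m 1).tr, (hd.m 2).tr]
    simp [hd.trA]
lemma Pot1_Mf_ge (hd : Str d) (i : Fin 3) (z : ℂ) : MGE (-1) (Mf g d i z) := by
  fin_cases i
  · exact ((Pot1_rat_ge hd _ z).add (Pot1_h1_ge hd z)).add (Pot1_h0_ge hd z)
  · exact ((Pot1_rat_ge hd _ _).add (Pot1_hinf_ge hd _)).add (Pot1_h0_ge hd _)
  · exact ((MGE.sum fun j _ => (hd.geA j).smul _).sub (((hd.m 1).ge _).sw.smul _)).add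
      ((hd.geG.conj ((hd.m 2).ge _) hd.geG.adj).smul _)
lemma Pot1_Mf_diff (hg : AdmG g) (hd : Str d) (i : Fin 3) {z : ℂ} (hz : ‖z‖ ≤ 1/8) :
    DifferentiableAt ℂ (Mf g d i) z := by
  have hp := hg.2.2.2
  have h1' : 1 - z ≠ 0 := Pot1_one_sub'' hz
  have h7 := Pot1_one_sub' hz
  have hz2 : ‖z‖ ≤ 2 := by linarith
  fin_cases i
  · change DifferentiableAt ℂ (M0 g d) z
    refine ((Pot1_rat_diff fun j hj => Pot1_ne hp (Finset.ne_of_mem_erase hj)
      (Pot1_zero_near hz)).add (Pot1_h1_diff hd ?_)).add (Pot1_h0_diff hg hd (Pot1_q' hg hz2))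
    rw [norm_sub_rev]; linarith [Pot1_e hg]
  · change DifferentiableAt ℂ (M1 g d) z
    obtain ⟨b1, b2, b3⟩ := Pot1_neck hg hz
    have hc : DifferentiableAt ℂ (fun u : ℂ => 1 + u) z := differentiableAt_id.const_add _
    exact (((Pot1_rat_diff fun j hj => Pot1_ne hp (Finset.ne_of_mem_erase hj) b1).comp z hc).add
      ((Pot1_hinf_diff hg hd b2).comp z hc)).add ((Pot1_h0_diff hg hd b3).comp z hc)
  · change DifferentiableAt ℂ (M2 g d) z
    have hq : ‖(qq g : ℂ) * z‖ < 1/8 := by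
      rw [Pot1_q_mul hg]; linarith [Pot1_q' hg hz2]
    have he : ‖(ee g : ℂ) ^ 2 * z / (1 - z)‖ < 1/8 := by
      have h8 : 0 < ‖1 - z‖ := by linarith
      rw [norm_div, norm_mul, norm_pow, norm_real, Real.norm_eq_abs, sq_abs, div_lt_iff₀ h8]
      nlinarith [Pot1_e hg, sq_nonneg (ee g), norm_nonneg z]
    unfold M2
    refine DifferentiableAt.add (DifferentiableAt.sub ?_ (Pot1_dsmul ?_ ?_)) ?_
    · refine DifferentiableAt.fun_sum fun j _ => ?_
      have h1 : DifferentiableAt ℂ (fun w : ℂ => 1 - (pos (pp g) j : ℂ) * w) z := by fun_prop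
      exact Pot1_dsmul ((differentiableAt_const _).div h1 (Pot1_one_sub (abs_pos_le hp j) hz))
        (differentiableAt_const _)
    · exact (differentiableAt_const _).div ((differentiableAt_id.const_sub _).pow 2)
        (pow_ne_zero _ h1')
    · exact sw.differentiableAt.comp z (Pot1_mv_diff (hd.m 1)
        ((differentiableAt_id.const_mul _).div (differentiableAt_id.const_sub _) h1') he)
    · exact Pot1_dsmul (differentiableAt_const _)
        (((Pot1_mv_diff (hd.m 2) (differentiableAt_id.const_mul _) hq).const_mul _).mul_const _)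

lemma StrM_MM (hg : AdmG g) (hd : Str d) (i : Fin 3) : StrM (MM g d i) := by
  refine ⟨fun z => ?_, fun z => ?_, fun z => ?_, ?_⟩
  · have e : (clampD (8 * conj z) : ℂ) / 8 = conj ((clampD (8 * z) : ℂ) / 8) := by
      have : 8 * conj z = conj (8 * z) := by rw [map_mul, map_ofNat]
      rw [this, Pot1_clampD_conj, map_div₀, map_ofNat]
    rw [Pot1_mv_MM hg, Pot1_mv_MM hg, e, Pot1_Mf_real hd]
  · rw [Pot1_mv_MM hg, Pot1_Mf_tr hd]
  · rw [Pot1_mv_MM hg]; exact Pot1_Mf_ge hd i _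
  · refine DifferentiableOn.congr (f := Mf g d i) (fun z hz => ?_) (fun z hz => ?_)
    · exact (Pot1_Mf_diff hg hd i (mem_ball_zero_iff.1 hz).le).differentiableWithinAt
    · exact mv_MM hg i (mem_ball_zero_iff.1 hz).le

lemma Pot1_fix (hg : AdmG g) (hf : Fix g d) (i : Fin 3) {z : ℂ} (hz : ‖z‖ ≤ 1/8) :
    mv (mm d i) z = Mf g d i z := by
  rw [hf.m i, mv_MM hg i hz]

lemma Th_eq (hg : AdmG g) (hf : Fix g d) {u : ℂ} (hu : u ≠ 0) (h : ‖u‖ ≤ 1/8) :
    Th g d u = u • Xi g d (1 + u) := by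
  have e1 : mv (mm d 1) u = M1 g d u := Pot1_fix hg hf 1 h
  have e2 : u * ((ee g : ℂ) ^ 2 / u ^ 2) = (ee g : ℂ) ^ 2 / u := by field_simp
  have e3 : u • h1 g d (1 + u) =
      -(((ee g : ℂ) ^ 2 / u) • sw (mv (mm d 1) ((ee g : ℂ) ^ 2 / u))) := by
    unfold h1
    rw [add_sub_cancel_left, smul_neg, smul_smul, e2]
  rw [Xi_eq_reg 1, Th, e1, M1, reg, Pot1_pos1, ofReal_one, add_sub_cancel_left]
  simp only [smul_add, e3, smul_smul, mul_inv_cancel₀ hu, one_smul]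
  abel

lemma Xi_per (hg : AdmG g) (hf : Fix g d) {z : ℂ} (h1 : 8 ≤ ‖z‖) (h2 : 8 * qq g * ‖z‖ ≤ 1) :
    (qq g : ℂ) • Xi g d (qq g * z) = GG d * Xi g d z * adj (GG d) := by
  have hp := hg.2.2.2
  have hq : (qq g : ℂ) ≠ 0 := ofReal_ne_zero.2 hg.2.2.1.1.ne'
  have hz0 : 0 < ‖z‖ := by linarith
  have hz : z ≠ 0 := norm_pos_iff.1 hz0
  have hw : ‖z⁻¹‖ ≤ 1/8 := by
    rw [norm_inv, one_div]; exact inv_anti₀ (by norm_num) h1
  have hqz : ‖(qq g : ℂ) * z‖ ≤ 1/8 := by rw [Pot1_q_mul hg]; linarith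
  have e0 : mv (mm d 0) (qq g * z) = M0 g d (qq g * z) := Pot1_fix hg hf 0 hqz
  have e2 : mv (mm d 2) z⁻¹ = M2 g d z⁻¹ := Pot1_fix hg hf 2 hw
  have hG := mul_adj_of_det hf.detG
  have hne : ∀ j, z - pos (pp g) j ≠ 0 := fun j e => by
    have := abs_pos_le hp j
    rw [sub_eq_zero] at e
    rw [e, norm_real, Real.norm_eq_abs] at h1
    linarith
  have hz1 : z - 1 ≠ 0 := by simpa [Pot1_pos1] using hne 1
  have L : (qq g : ℂ) • Xi g d (qq g * z) = z⁻¹ • AA d 0 + (qq g : ℂ) • mv (mm d 0) (qq g * z) +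
      (z⁻¹ ^ 2) • (GG d * mv (mm d 2) z⁻¹ * adj (GG d)) := by
    have a1 : (qq g : ℂ) * (qq g * z)⁻¹ = z⁻¹ := by field_simp
    have a2 : (qq g : ℂ) * (qq g / (qq g * z) ^ 2) = z⁻¹ ^ 2 := by field_simp
    have a3 : (qq g : ℂ) / (qq g * z) = z⁻¹ := by field_simp
    have a4 : (qq g : ℂ) • hinf g d (qq g * z) =
        (z⁻¹ ^ 2) • (GG d * mv (mm d 2) z⁻¹ * adj (GG d)) := by
      unfold hinf
      rw [smul_smul, a2, a3]
    rw [Xi_eq_reg 0, e0, M0, reg, Pot1_pos0, ofReal_zero, sub_zero]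
    simp only [smul_add, a4, smul_smul, a1]
    abel
  have R0 : GG d * h0 g d z * adj (GG d) = (qq g : ℂ) • mv (mm d 0) (qq g * z) := by
    unfold h0
    rw [mul_smul_comm, smul_mul_assoc]
    congr 1
    calc GG d * (adj (GG d) * mv (mm d 0) (qq g * z) * GG d) * adj (GG d)
        = (GG d * adj (GG d)) * mv (mm d 0) (qq g * z) * (GG d * adj (GG d)) := by
          simp only [mul_assoc]
      _ = _ := by rw [hG, one_mul, mul_one]
  have R1 : z⁻¹ • (∑ j, AA d j) + (z⁻¹ ^ 2) • M2 g d z⁻¹ =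
      rat g d Finset.univ z + Pool.Agent.MP_efb2da_gt.h1 g d z + hinf g d z := by
    have b1 : ∀ j, z⁻¹ + z⁻¹ ^ 2 * ((pos (pp g) j : ℂ) / (1 - pos (pp g) j * z⁻¹)) =
        (z - pos (pp g) j)⁻¹ := fun j => by
      have := hne j
      field_simp
      ring
    have b2 : z⁻¹ ^ 2 * ((ee g : ℂ) ^ 2 / (1 - z⁻¹) ^ 2) = (ee g : ℂ) ^ 2 / (z - 1) ^ 2 := by
      field_simp
    have b3 : (ee g : ℂ) ^ 2 * z⁻¹ / (1 - z⁻¹) = (ee g : ℂ) ^ 2 / (z - 1) := by
      field_simp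
    have b4 : z⁻¹ ^ 2 * (qq g : ℂ) = qq g / z ^ 2 := by field_simp
    have b5 : (qq g : ℂ) * z⁻¹ = qq g / z := by field_simp
    have b6 : z⁻¹ • (∑ j, AA d j) + (z⁻¹ ^ 2) •
        ∑ j, ((pos (pp g) j : ℂ) / (1 - pos (pp g) j * z⁻¹)) • AA d j = rat g d Finset.univ z := by
      unfold rat
      rw [Finset.smul_sum, Finset.smul_sum, ← Finset.sum_add_distrib]
      refine Finset.sum_congr rfl fun j _ => ?_
      rw [smul_smul, ← add_smul, b1]
    unfold M2 Pool.Agent.MP_efb2da_gt.h1 hinf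
    rw [smul_add, smul_sub, smul_smul, smul_smul, b2, b3, b4, b5, ← b6]
    abel
  rw [L, Xi, ← R1, mul_add, add_mul, R0, hf.A0, e2, mul_add, add_mul, mul_smul_comm,
    smul_mul_assoc, mul_smul_comm, smul_mul_assoc]
  abel

end Pool.Agent.MP_efb2da_gt
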