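import Mathlib

open Set Complex Metric
open scoped Topology

noncomputable section

namespace Pool.Agent.MP_efb2da_gt

lemma vanish_cauchy {Q : ℂ → ℂ} {r R : ℝ} (hr : 0 < r)
    (hQ : DifferentiableOn ℂ Q {u | r / 2 < ‖u‖ ∧ ‖u‖ < 2 * R}) {w : ℂ} (h1 : r < ‖w‖)
    (h2 : ‖w‖ < R) :
    2 * Real.pi * I * Q w =
      (∮ u in C(0, R), (u - w)⁻¹ * Q u) - ∮ u in C(0, r), (u - w)⁻¹ * Q u := by
  have hR : 0 < R := by linarith
  have hop : IsOpen {u : ℂ | r / 2 < ‖u‖ ∧ ‖u‖ < 2 * R} :=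
    (isOpen_lt continuous_const continuous_norm).inter (isOpen_lt continuous_norm continuous_const)
  have hwA : w ∈ {u : ℂ | r / 2 < ‖u‖ ∧ ‖u‖ < 2 * R} := ⟨by linarith, by linarith⟩
  have hd : DifferentiableOn ℂ (dslope Q w) {u : ℂ | r / 2 < ‖u‖ ∧ ‖u‖ < 2 * R} :=
    (differentiableOn_dslope (hop.mem_nhds hwA)).mpr hQ
  have hsub : closedBall (0 : ℂ) R \ ball 0 r ⊆ {u : ℂ | r / 2 < ‖u‖ ∧ ‖u‖ < 2 * R} := by
    intro u hu
    have a := hu.1
    have b := hu.2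
    simp only [mem_closedBall, dist_zero_right, mem_ball, not_lt] at a b
    exact ⟨by linarith, by linarith⟩
  have key := circleIntegral_eq_of_differentiable_on_annulus_off_countable (c := 0) hr
    (by linarith : r ≤ R) (f := dslope Q w) countable_empty (hd.continuousOn.mono hsub)
    (fun z hz => by
      have a := hz.1.1
      have b := hz.1.2
      simp only [mem_closedBall, dist_zero_right, mem_ball, not_le] at a b
      exact hd.differentiableAt (hop.mem_nhds ⟨by linarith, by linarith⟩))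
  have hsplit : ∀ ρ : ℝ, 0 < ρ → r ≤ ρ → ρ ≤ R → ρ ≠ ‖w‖ →
      (∮ u in C(0, ρ), dslope Q w u) =
        (∮ u in C(0, ρ), (u - w)⁻¹ * Q u) - (∮ u in C(0, ρ), (u - w)⁻¹) * Q w := by
    intro ρ h0 ha hb hne
    have hsp : sphere (0 : ℂ) ρ ⊆ {u : ℂ | r / 2 < ‖u‖ ∧ ‖u‖ < 2 * R} := by
      intro u hu
      simp only [mem_sphere, dist_zero_right] at hu
      exact ⟨by linarith, by linarith⟩
    have hne' : ∀ u ∈ sphere (0 : ℂ) ρ, u - w ≠ 0 := by
      intro u hu h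
      simp only [mem_sphere, dist_zero_right] at hu
      apply hne
      rw [← hu, sub_eq_zero.mp h]
    have c1 : ContinuousOn (fun u : ℂ => (u - w)⁻¹) (sphere (0 : ℂ) ρ) :=
      (continuousOn_id.sub continuousOn_const).inv₀ hne'
    have i1 : CircleIntegrable (fun u : ℂ => (u - w)⁻¹ * Q u) 0 ρ :=
      (c1.mul (hQ.continuousOn.mono hsp)).circleIntegrable h0.le
    have i2 : CircleIntegrable (fun u : ℂ => (u - w)⁻¹ * Q w) 0 ρ :=
      (c1.mul continuousOn_const).circleIntegrable h0.le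
    have e : (∮ u in C(0, ρ), (u - w)⁻¹) * Q w = ∮ u in C(0, ρ), (u - w)⁻¹ * Q w := by
      have := circleIntegral.integral_smul_const (fun u : ℂ => (u - w)⁻¹) (Q w) 0 ρ
      simpa [smul_eq_mul] using this.symm
    rw [e, ← circleIntegral.integral_sub i1 i2]
    apply circleIntegral.integral_congr h0.le
    intro u hu
    have := hne' u hu
    simp only
    rw [dslope_of_ne _ (sub_ne_zero.mp this), slope_def_field]
    field_simp
  rw [hsplit R hR (by linarith) le_rfl (by linarith), hsplit r hr le_rfl (by linarith) (by linarith),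
    circleIntegral.integral_sub_inv_of_mem_ball (by simpa using h2)] at key
  have hz : (∮ u in C(0, r), (u - w)⁻¹) = 0 := by
    have hne' : ∀ u ∈ closedBall (0 : ℂ) r, u - w ≠ 0 := by
      intro u hu h
      simp only [mem_closedBall, dist_zero_right] at hu
      rw [sub_eq_zero.mp h] at hu
      linarith
    apply circleIntegral_eq_zero_of_differentiable_on_off_countable hr.le countable_empty
      ((continuousOn_id.sub continuousOn_const).inv₀ hne')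
    intro z hz
    exact (differentiableAt_id.sub_const w).inv (hne' z (ball_subset_closedBall hz.1))
  rw [hz] at key
  linear_combination -key

lemma vanish_circ {Q : ℂ → ℂ} {ρ m d M : ℝ} (hρ : 0 < ρ) (hd : 0 < d)
    (hQ : ContinuousOn Q (sphere 0 ρ)) (hM : ∀ u : ℂ, ‖u‖ = ρ → ‖Q u‖ ≤ M) {w w' : ℂ}
    (hw : ‖w‖ = m) (hw' : ‖w'‖ = m) (hdist : d ≤ |ρ - m|) :
    ‖(∮ u in C(0, ρ), (u - w)⁻¹ * Q u) - ∮ u in C(0, ρ), (u - w')⁻¹ * Q u‖ ≤
      2 * Real.pi * ρ * (2 * m / d ^ 2 * M) := by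
  have hlow : ∀ v : ℂ, ‖v‖ = m → ∀ u ∈ sphere (0 : ℂ) ρ, d ≤ ‖u - v‖ := by
    intro v hv u hu
    simp only [mem_sphere, dist_zero_right] at hu
    have := abs_norm_sub_norm_le u v
    rw [hu, hv] at this
    linarith
  have hint : ∀ v : ℂ, ‖v‖ = m → CircleIntegrable (fun u : ℂ => (u - v)⁻¹ * Q u) 0 ρ := by
    intro v hv
    refine ContinuousOn.circleIntegrable hρ.le (ContinuousOn.mul ?_ hQ)
    refine (continuousOn_id.sub continuousOn_const).inv₀ ?_
    intro u hu h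
    have := hlow v hv u hu
    have h' : u - v = 0 := h
    rw [h', norm_zero] at this
    linarith
  rw [← circleIntegral.integral_sub (hint w hw) (hint w' hw')]
  apply circleIntegral.norm_integral_le_of_norm_le_const hρ.le
  intro u hu
  have a := hlow w hw u hu
  have b := hlow w' hw' u hu
  have a0 : u - w ≠ 0 := by intro h; rw [h, norm_zero] at a; linarith
  have b0 : u - w' ≠ 0 := by intro h; rw [h, norm_zero] at b; linarith
  have hm : 0 ≤ m := hw ▸ norm_nonneg w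
  have e : (u - w)⁻¹ * Q u - (u - w')⁻¹ * Q u = (w - w') / ((u - w) * (u - w')) * Q u := by
    field_simp
    ring
  have hu' : ‖u‖ = ρ := by simpa using hu
  rw [e, norm_mul, norm_div, norm_mul]
  have c : ‖w - w'‖ ≤ 2 * m := by
    have := norm_sub_le w w'
    linarith
  refine mul_le_mul ?_ (hM u hu') (norm_nonneg _) (by positivity)
  rw [sq]
  exact div_le_div₀ (by positivity) c (by positivity) (mul_le_mul a b hd.le (norm_nonneg _))

/-- oscillation on the middle circle of a long annulus -/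
theorem annulus_osc {Q : ℂ → ℂ} {r m R M : ℝ} (hr : 0 < r) (h1 : 4 * r ≤ m) (h2 : 4 * m ≤ R)
    (hQ : DifferentiableOn ℂ Q {u | r / 2 < ‖u‖ ∧ ‖u‖ < 2 * R})
    (hM : ∀ u : ℂ, ‖u‖ = r ∨ ‖u‖ = R → ‖Q u‖ ≤ M) {w w' : ℂ} (hw : ‖w‖ = m) (hw' : ‖w'‖ = m) :
    ‖Q w - Q w'‖ ≤ 4 * M * (m / R + r / m) := by
  have hm : 0 < m := by linarith
  have hR : 0 < R := by linarith
  have hM0 : 0 ≤ M := (norm_nonneg _).trans (hM (r : ℂ) (Or.inl (by simp [hr.le])))
  have e1 := vanish_cauchy hr hQ (w := w) (by linarith) (by linarith)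
  have e2 := vanish_cauchy hr hQ (w := w') (by linarith) (by linarith)
  have hc : ∀ ρ : ℝ, r ≤ ρ → ρ ≤ R → ContinuousOn Q (sphere 0 ρ) := by
    intro ρ a b
    refine hQ.continuousOn.mono ?_
    intro u hu
    simp only [mem_sphere, dist_zero_right] at hu
    exact ⟨by linarith, by linarith⟩
  have b1 := vanish_circ (d := 3 / 4 * R) hR (by positivity) (hc R (by linarith) le_rfl)
    (fun u hu => hM u (Or.inr hu)) hw hw' (le_trans (by linarith) (le_abs_self _))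
  have b2 := vanish_circ (d := 3 / 4 * m) hr (by positivity) (hc r le_rfl (by linarith))
    (fun u hu => hM u (Or.inl hu)) hw hw' (le_trans (by linarith) (neg_le_abs _))
  have e : 2 * Real.pi * I * (Q w - Q w') =
      ((∮ u in C(0, R), (u - w)⁻¹ * Q u) - ∮ u in C(0, R), (u - w')⁻¹ * Q u) -
      ((∮ u in C(0, r), (u - w)⁻¹ * Q u) - ∮ u in C(0, r), (u - w')⁻¹ * Q u) := by
    linear_combination e1 - e2
  have n1 : ‖2 * (Real.pi : ℂ) * I * (Q w - Q w')‖ = 2 * Real.pi * ‖Q w - Q w'‖ := by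
    simp [norm_mul, abs_of_pos Real.pi_pos]
  have n2 := norm_sub_le ((∮ u in C(0, R), (u - w)⁻¹ * Q u) - ∮ u in C(0, R), (u - w')⁻¹ * Q u)
    ((∮ u in C(0, r), (u - w)⁻¹ * Q u) - ∮ u in C(0, r), (u - w')⁻¹ * Q u)
  rw [← e, n1] at n2
  have f1 : 2 * Real.pi * R * (2 * m / (3 / 4 * R) ^ 2 * M) =
      2 * Real.pi * (32 / 9 * M * (m / R)) := by
    field_simp
    ring
  have f2 : 2 * Real.pi * r * (2 * m / (3 / 4 * m) ^ 2 * M) =
      2 * Real.pi * (32 / 9 * M * (r / m)) := by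
    field_simp
    ring
  rw [f1] at b1
  rw [f2] at b2
  have p1 : 0 ≤ M * (m / R) := by positivity
  have p2 : 0 ≤ M * (r / m) := by positivity
  have hpi := Real.pi_pos
  have : 2 * Real.pi * ‖Q w - Q w'‖ ≤ 2 * Real.pi * (4 * M * (m / R + r / m)) := by
    nlinarith
  exact le_of_mul_le_mul_left this (by positivity)

lemma vanish_fin {a d b M : ℝ} (ha : 0 ≤ a) (haM : a ≤ 128 * M) (hd : 0 ≤ d) (hd' : d ≤ 1 / 2 ^ 30)
    (hb : 0 ≤ b) (hb' : b ≤ 2) : a ^ 3 * d * b ^ 4 ≤ (M / 2) ^ 3 := by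
  have hM : 0 ≤ M := by linarith
  have h1 : a ^ 3 ≤ (128 * M) ^ 3 := pow_le_pow_left₀ ha haM 3
  have h2 : b ^ 4 ≤ 2 ^ 4 := pow_le_pow_left₀ hb hb' 4
  have h3 : a ^ 3 * d * b ^ 4 ≤ (128 * M) ^ 3 * (1 / 2 ^ 30) * 2 ^ 4 := by
    refine mul_le_mul (mul_le_mul h1 hd' hd (by positivity)) h2 (by positivity) (by positivity)
  have h4 : 0 ≤ M ^ 3 := by positivity
  nlinarith

/-- one step of the contraction -/
lemma vanish_step {ε s : ℝ} {Q : ℂ → ℂ} (hε : 0 < ε) (hε' : ε ≤ 1 / 2 ^ 30) (hs : 0 < s)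
    (hs' : s ≤ 1 / 2 ^ 30)
    (hQ : DifferentiableOn ℂ Q {z | 8 * s ^ 2 < ‖z‖ ∧ 8 * s ^ 2 * ‖z‖ < 1 ∧ 8 * ε ^ 2 < ‖z - 1‖})
    (h0 : ∀ z : ℂ, 8 < ‖z‖ → 8 * s ^ 2 * ‖z‖ < 1 →
      (s ^ 2 * z) ^ 2 * Q (s ^ 2 * z) = z ^ 2 * Q z)
    (h1 : ∀ u : ℂ, 8 * ε ^ 2 < ‖u‖ → ‖u‖ < 1/8 →
      (ε ^ 2 / u) ^ 2 * Q (1 + ε ^ 2 / u) = u ^ 2 * Q (1 + u))
    (z1 : Q (1 + ε) = 0) (z0 : Q (1 / s) = 0) {M : ℝ}
    (hM0 : ∀ z : ℂ, ‖z‖ = 1 / 16 ∨ ‖z‖ = 16 → ‖z ^ 2 * Q z‖ ≤ M)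
    (hM1 : ∀ u : ℂ, ‖u‖ = 1 / 16 → ‖u ^ 2 * Q (1 + u)‖ ≤ M) (z : ℂ) (a : s ≤ ‖z‖)
    (b : ‖z‖ ≤ 1 / s) (c : ε ≤ ‖z - 1‖) : ‖Q z ^ 3 * z ^ 4 * (z - 1) ^ 4‖ ≤ (M / 2) ^ 3 := by
  have hs2 : s ^ 2 ≤ s / 2 ^ 30 := by nlinarith
  have hε2 : ε ^ 2 ≤ ε / 2 ^ 30 := by nlinarith
  have hsc : (s : ℂ) ≠ 0 := by exact_mod_cast hs.ne'
  have hεc : (ε : ℂ) ≠ 0 := by exact_mod_cast hε.ne'
  have hns : ‖(s : ℂ)‖ = s := by simp [hs.le]
  have hnε : ‖(ε : ℂ)‖ = ε := by simp [hε.le]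
  have hst : s * (1 / s) = 1 := by field_simp
  have ht8 : 8 < 1 / s := by rw [lt_div_iff₀ hs]; linarith
  have hst8 : 8 * s ^ 2 * (1 / s) < 1 := by
    have : 8 * s ^ 2 * (1 / s) = 8 * s := by field_simp
    rw [this]; linarith
  -- the neck at zero
  have A0 : ∀ w : ℂ, ‖w‖ = s → ‖w ^ 2 * Q w‖ ≤ 128 * M * s := by
    intro w hw
    have hd : DifferentiableOn ℂ (fun z : ℂ => z ^ 2 * Q z)
        {u | 16 * s ^ 2 / 2 < ‖u‖ ∧ ‖u‖ < 2 * (1 / 16)} := by
      refine (differentiableOn_id.pow 2).mul (hQ.mono ?_)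
      intro u hu
      have u1 := hu.1
      have u2 := hu.2
      have u3 : 1 - ‖u‖ ≤ ‖u - 1‖ := by
        have := norm_sub_norm_le (1 : ℂ) u
        rw [norm_one, norm_sub_rev] at this
        exact this
      refine ⟨by linarith, ?_, by linarith⟩
      nlinarith [norm_nonneg u]
    have hb : ∀ u : ℂ, ‖u‖ = 16 * s ^ 2 ∨ ‖u‖ = 1 / 16 → ‖u ^ 2 * Q u‖ ≤ M := by
      rintro u (hu | hu)
      · have n : ‖u / s ^ 2‖ = 16 := by
          rw [norm_div, norm_pow, hns, hu]; field_simp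
        have := h0 (u / s ^ 2) (by rw [n]; norm_num) (by rw [n]; linarith)
        have e : (s : ℂ) ^ 2 * (u / s ^ 2) = u := by field_simp
        rw [e] at this
        rw [this]
        exact hM0 _ (Or.inr n)
      · exact hM0 _ (Or.inl hu)
    have hz : (s : ℂ) ^ 2 * Q s = 0 := by
      have n : ‖1 / (s : ℂ)‖ = 1 / s := by rw [norm_div, norm_one, hns]
      have := h0 (1 / s) (by rw [n]; exact ht8) (by rw [n]; exact hst8)
      have e : (s : ℂ) ^ 2 * (1 / s) = s := by field_simp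
      rw [e, z0, mul_zero] at this
      exact this
    have := annulus_osc (Q := fun z : ℂ => z ^ 2 * Q z) (r := 16 * s ^ 2) (m := s) (R := 1 / 16)
      (M := M) (by positivity) (by linarith) (by linarith) hd hb hw hns
    simp only [hz, sub_zero] at this
    have e : 4 * M * (s / (1 / 16) + 16 * s ^ 2 / s) = 128 * M * s := by field_simp; ring
    rwa [e] at this
  -- the neck at one
  have A1 : ∀ w : ℂ, ‖w‖ = ε → ‖w ^ 2 * Q (1 + w)‖ ≤ 128 * M * ε := by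
    intro w hw
    have hd : DifferentiableOn ℂ (fun u : ℂ => u ^ 2 * Q (1 + u))
        {u | 16 * ε ^ 2 / 2 < ‖u‖ ∧ ‖u‖ < 2 * (1 / 16)} := by
      refine (differentiableOn_id.pow 2).mul
        (hQ.comp (differentiableOn_id.const_add 1) ?_)
      intro u hu
      have u1 := hu.1
      have u2 := hu.2
      have u3 : 1 - ‖u‖ ≤ ‖1 + u‖ := by
        have := norm_sub_norm_le (1 : ℂ) (-u)
        rw [norm_one, norm_neg, sub_neg_eq_add] at this
        exact this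
      have u4 : ‖1 + u‖ ≤ 1 + ‖u‖ := by
        have := norm_add_le (1 : ℂ) u
        rwa [norm_one] at this
      simp only [id, mem_setOf_eq, add_sub_cancel_left]
      refine ⟨by linarith, ?_, by linarith⟩
      nlinarith [norm_nonneg (1 + u)]
    have hb : ∀ u : ℂ, ‖u‖ = 16 * ε ^ 2 ∨ ‖u‖ = 1 / 16 → ‖u ^ 2 * Q (1 + u)‖ ≤ M := by
      rintro u (hu | hu)
      · have u0 : u ≠ 0 := by
          intro h
          rw [h, norm_zero] at hu
          have : 0 < 16 * ε ^ 2 := by positivity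
          linarith
        have n : ‖(ε : ℂ) ^ 2 / u‖ = 1 / 16 := by
          rw [norm_div, norm_pow, hnε, hu]; field_simp
        have := h1 (ε ^ 2 / u) (by rw [n]; linarith) (by rw [n]; norm_num)
        have e : (ε : ℂ) ^ 2 / (ε ^ 2 / u) = u := by field_simp
        rw [e] at this
        rw [this]
        exact hM1 _ n
      · exact hM1 _ hu
    have := annulus_osc (Q := fun u : ℂ => u ^ 2 * Q (1 + u)) (r := 16 * ε ^ 2) (m := ε)
      (R := 1 / 16) (M := M) (by positivity) (by linarith) (by linarith) hd hb hw hnε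
    simp only [z1, mul_zero, sub_zero] at this
    have e : 4 * M * (ε / (1 / 16) + 16 * ε ^ 2 / ε) = 128 * M * ε := by field_simp; ring
    rwa [e] at this
  -- bounds on the three boundary circles
  have B : ∀ z : ℂ, ‖z‖ = s ∨ ‖z‖ = 1 / s ∨ ‖z - 1‖ = ε →
      ‖Q z ^ 3 * z ^ 4 * (z - 1) ^ 4‖ ≤ (M / 2) ^ 3 := by
    intro z hz
    have n1 : ‖z - 1‖ ≤ ‖z‖ + 1 := by
      have := norm_sub_le z 1
      rwa [norm_one] at this
    rw [norm_mul, norm_mul, norm_pow, norm_pow, norm_pow]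
    rcases hz with hz | hz | hz
    · have := A0 z hz
      rw [norm_mul, norm_pow, hz] at this
      have k : ‖Q z‖ * s ≤ 128 * M := by
        refine le_of_mul_le_mul_right ?_ hs
        nlinarith
      have := vanish_fin (by positivity) k hs.le hs' (norm_nonneg (z - 1)) (by linarith)
      rw [hz]
      calc _ = (‖Q z‖ * s) ^ 3 * s * ‖z - 1‖ ^ 4 := by ring
        _ ≤ _ := this
    · have n : ‖(s : ℂ) ^ 2 * z‖ = s := by
        rw [norm_mul, norm_pow, hns, hz]; field_simp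
      have := A0 _ n
      rw [h0 z (by rw [hz]; exact ht8) (by rw [hz]; exact hst8), norm_mul, norm_pow, hz] at this
      have k : ‖Q z‖ * (1 / s) ^ 3 ≤ 128 * M := by
        refine le_of_mul_le_mul_right ?_ hs
        have e : ‖Q z‖ * (1 / s) ^ 3 * s = (1 / s) ^ 2 * ‖Q z‖ := by field_simp
        rw [e]
        exact this
      have k2 : ‖z - 1‖ * s ≤ 2 := by
        rw [hz] at n1
        have := mul_le_mul_of_nonneg_right n1 hs.le
        nlinarith
      have := vanish_fin (by positivity) k hs.le hs' (by positivity) k2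
      rw [hz]
      calc _ = (‖Q z‖ * (1 / s) ^ 3) ^ 3 * s * (‖z - 1‖ * s) ^ 4 := by field_simp
        _ ≤ _ := this
    · have := A1 _ hz
      rw [norm_mul, norm_pow, hz, add_sub_cancel] at this
      have k : ‖Q z‖ * ε ≤ 128 * M := by
        refine le_of_mul_le_mul_right ?_ hε
        nlinarith
      have n2 : ‖z‖ ≤ 2 := by
        have := norm_add_le (z - 1) 1
        rw [sub_add_cancel, norm_one, hz] at this
        linarith
      have := vanish_fin (by positivity) k hε.le hε' (norm_nonneg z) n2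
      rw [hz]
      calc _ = (‖Q z‖ * ε) ^ 3 * ε * ‖z‖ ^ 4 := by ring
        _ ≤ _ := this
  by_cases hb : ‖z‖ = s ∨ ‖z‖ = 1 / s ∨ ‖z - 1‖ = ε
  · exact B z hb
  push Not at hb
  set U : Set ℂ := {z | s < ‖z‖ ∧ ‖z‖ < 1 / s ∧ ε < ‖z - 1‖} with hU
  have cn : Continuous fun z : ℂ => ‖z - 1‖ := by fun_prop
  have hop : IsOpen U :=
    (isOpen_lt continuous_const continuous_norm).inter
      ((isOpen_lt continuous_norm continuous_const).inter (isOpen_lt continuous_const cn))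
  have hcl : IsClosed {z : ℂ | s ≤ ‖z‖ ∧ ‖z‖ ≤ 1 / s ∧ ε ≤ ‖z - 1‖} :=
    (isClosed_le continuous_const continuous_norm).inter
      ((isClosed_le continuous_norm continuous_const).inter (isClosed_le continuous_const cn))
  have hsub : closure U ⊆ {z : ℂ | s ≤ ‖z‖ ∧ ‖z‖ ≤ 1 / s ∧ ε ≤ ‖z - 1‖} :=
    closure_minimal (fun z hz => ⟨hz.1.le, hz.2.1.le, hz.2.2.le⟩) hcl
  have hbd : Bornology.IsBounded U := by
    refine (isBounded_ball (x := (0 : ℂ)) (r := 1 / s)).subset ?_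
    intro z hz
    simpa using hz.2.1
  have hd : DifferentiableOn ℂ (fun z : ℂ => Q z ^ 3 * z ^ 4 * (z - 1) ^ 4) (closure U) := by
    refine (((hQ.mono ?_).pow 3).mul (differentiableOn_id.pow 4)).mul
      ((differentiableOn_id.sub_const 1).pow 4)
    intro z hz
    obtain ⟨a, b, c⟩ := hsub hz
    refine ⟨by linarith, ?_, by linarith⟩
    have := mul_le_mul_of_nonneg_left b (by positivity : 0 ≤ 8 * s ^ 2)
    linarith
  refine Complex.norm_le_of_forall_mem_frontier_norm_le hbd hd.diffContOnCl ?_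
    (subset_closure ⟨lt_of_le_of_ne a (Ne.symm hb.1), lt_of_le_of_ne b hb.2.1,
      lt_of_le_of_ne c (Ne.symm hb.2.2)⟩)
  intro z hz
  rw [hop.frontier_eq] at hz
  obtain ⟨a, b, c⟩ := hsub hz.1
  apply B
  by_contra hb
  push Not at hb
  exact hz.2 ⟨lt_of_le_of_ne a (Ne.symm hb.1), lt_of_le_of_ne b hb.2.1,
    lt_of_le_of_ne c (Ne.symm hb.2.2)⟩

lemma vanish_core {ε s : ℝ} {Q : ℂ → ℂ} (hε : 0 < ε) (hε' : ε ≤ 1 / 2 ^ 30) (hs : 0 < s)
    (hs' : s ≤ 1 / 2 ^ 30)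
    (hQ : DifferentiableOn ℂ Q {z | 8 * s ^ 2 < ‖z‖ ∧ 8 * s ^ 2 * ‖z‖ < 1 ∧ 8 * ε ^ 2 < ‖z - 1‖})
    (h0 : ∀ z : ℂ, 8 < ‖z‖ → 8 * s ^ 2 * ‖z‖ < 1 →
      (s ^ 2 * z) ^ 2 * Q (s ^ 2 * z) = z ^ 2 * Q z)
    (h1 : ∀ u : ℂ, 8 * ε ^ 2 < ‖u‖ → ‖u‖ < 1/8 →
      (ε ^ 2 / u) ^ 2 * Q (1 + ε ^ 2 / u) = u ^ 2 * Q (1 + u))
    (z1 : Q (1 + ε) = 0) (z0 : Q (1 / s) = 0) (z : ℂ) (a : s ≤ ‖z‖)
    (b : ‖z‖ ≤ 1 / s) (c : ε ≤ ‖z - 1‖) : Q z = 0 := by
  have hs2 : s ^ 2 ≤ s / 2 ^ 30 := by nlinarith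
  have hε2 : ε ^ 2 ≤ ε / 2 ^ 30 := by nlinarith
  have ht : 16 ≤ 1 / s := by rw [le_div_iff₀ hs]; linarith
  have lo : ∀ z : ℂ, |‖z‖ - 1| ≤ ‖z - 1‖ := by
    intro z
    have := abs_norm_sub_norm_le z 1
    rwa [norm_one] at this
  have lo1 : ∀ u : ℂ, 1 - ‖u‖ ≤ ‖1 + u‖ ∧ ‖1 + u‖ ≤ 1 + ‖u‖ := by
    intro u
    constructor
    · have := norm_sub_norm_le (1 : ℂ) (-u)
      rw [norm_one, norm_neg, sub_neg_eq_add] at this
      exact this
    · have := norm_add_le (1 : ℂ) u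
      rwa [norm_one] at this
  have lo0 : ∀ z : ℂ, ‖z‖ = 1 / 16 ∨ ‖z‖ = 16 → s ≤ ‖z‖ ∧ ‖z‖ ≤ 1 / s ∧ 15 / 16 ≤ ‖z - 1‖ := by
    intro z hz
    have := lo z
    rcases hz with hz | hz
    · rw [hz] at this ⊢
      have := neg_le_abs ((1 : ℝ) / 16 - 1)
      exact ⟨by linarith, by linarith, by linarith⟩
    · rw [hz] at this ⊢
      have := le_abs_self ((16 : ℝ) - 1)
      exact ⟨by linarith, by linarith, by linarith⟩
  -- an initial bound
  obtain ⟨M, hM0, hM1⟩ : ∃ M : ℝ, (∀ z : ℂ, ‖z‖ = 1 / 16 ∨ ‖z‖ = 16 → ‖z ^ 2 * Q z‖ ≤ M) ∧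
      ∀ u : ℂ, ‖u‖ = 1 / 16 → ‖u ^ 2 * Q (1 + u)‖ ≤ M := by
    have c0 : ContinuousOn (fun z : ℂ => z ^ 2 * Q z) (sphere 0 (1 / 16) ∪ sphere 0 16) := by
      refine (continuousOn_id.pow 2).mul (hQ.continuousOn.mono ?_)
      intro z hz
      have hz' : ‖z‖ = 1 / 16 ∨ ‖z‖ = 16 := by simpa using hz
      obtain ⟨a, b, c⟩ := lo0 z hz'
      refine ⟨by linarith, ?_, by linarith⟩
      rcases hz' with h | h <;> rw [h] <;> linarith
    have c1 : ContinuousOn (fun u : ℂ => u ^ 2 * Q (1 + u)) (sphere 0 (1 / 16)) := by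
      refine (continuousOn_id.pow 2).mul
        (hQ.continuousOn.comp (continuousOn_const.add continuousOn_id) ?_)
      intro u hu
      have hu' : ‖u‖ = 1 / 16 := by simpa using hu
      obtain ⟨a, b⟩ := lo1 u
      simp only [id, mem_setOf_eq, add_sub_cancel_left]
      refine ⟨by linarith, ?_, by linarith⟩
      nlinarith [norm_nonneg (1 + u)]
    obtain ⟨M0, h0⟩ := ((isCompact_sphere (0 : ℂ) (1 / 16)).union
      (isCompact_sphere (0 : ℂ) 16)).exists_bound_of_continuousOn c0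
    obtain ⟨M1, h1⟩ := (isCompact_sphere (0 : ℂ) (1 / 16)).exists_bound_of_continuousOn c1
    refine ⟨max M0 M1, fun z hz => (h0 z (by simpa using hz)).trans (le_max_left _ _),
      fun u hu => (h1 u (by simpa using hu)).trans (le_max_right _ _)⟩
  have hMn : 0 ≤ M := (norm_nonneg _).trans (hM0 (16 : ℂ) (Or.inr (by simp)))
  have ind : ∀ k : ℕ, (∀ z : ℂ, ‖z‖ = 1 / 16 ∨ ‖z‖ = 16 → ‖z ^ 2 * Q z‖ ≤ M / 2 ^ k) ∧
      ∀ u : ℂ, ‖u‖ = 1 / 16 → ‖u ^ 2 * Q (1 + u)‖ ≤ M / 2 ^ k := by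
    intro k
    induction k with
    | zero =>
      simp only [pow_zero, div_one]
      exact ⟨hM0, hM1⟩
    | succ k ih =>
      have e : M / 2 ^ (k + 1) = M / 2 ^ k / 2 := by rw [pow_succ, div_div]
      have st := vanish_step hε hε' hs hs' hQ h0 h1 z1 z0 ih.1 ih.2
      rw [e]
      constructor
      · intro z hz
        obtain ⟨a, b, c⟩ := lo0 z hz
        have := st z a b (by linarith)
        refine le_of_pow_le_pow_left₀ (n := 3) (by norm_num) (by positivity) (le_trans ?_ this)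
        rw [norm_mul, norm_mul, norm_mul, norm_pow, norm_pow, norm_pow, norm_pow]
        have k1 : ‖z‖ ^ 2 ≤ ‖z - 1‖ ^ 4 := by
          rcases hz with hz | hz
          · have := pow_le_pow_left₀ (by norm_num) c 4
            rw [hz]
            linarith
          · have := lo z
            rw [hz] at this ⊢
            have k2 : (15 : ℝ) ≤ ‖z - 1‖ := by
              have := le_abs_self ((16 : ℝ) - 1)
              linarith
            have := pow_le_pow_left₀ (by norm_num) k2 4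
            linarith
        calc _ = ‖Q z‖ ^ 3 * ‖z‖ ^ 4 * ‖z‖ ^ 2 := by ring
          _ ≤ _ := mul_le_mul_of_nonneg_left k1 (by positivity)
      · intro u hu
        obtain ⟨a, b⟩ := lo1 u
        have := st (1 + u) (by linarith) (by linarith) (by rw [add_sub_cancel_left]; linarith)
        refine le_of_pow_le_pow_left₀ (n := 3) (by norm_num) (by positivity) (le_trans ?_ this)
        rw [add_sub_cancel_left, norm_mul, norm_mul, norm_mul, norm_pow, norm_pow, norm_pow,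
          norm_pow]
        have k1 : ‖u‖ ^ 2 ≤ ‖1 + u‖ ^ 4 := by
          have k2 : (15 / 16 : ℝ) ≤ ‖1 + u‖ := by linarith
          have := pow_le_pow_left₀ (by norm_num) k2 4
          rw [hu]
          linarith
        calc _ = ‖Q (1 + u)‖ ^ 3 * ‖u‖ ^ 2 * ‖u‖ ^ 4 := by ring
          _ ≤ _ := mul_le_mul_of_nonneg_right
            (mul_le_mul_of_nonneg_left k1 (by positivity)) (by positivity)
  have lim : Filter.Tendsto (fun k : ℕ => (M / 2 ^ k / 2) ^ 3) Filter.atTop (𝓝 ((0 / 2) ^ 3)) := by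
    refine (Filter.Tendsto.div_const ?_ 2).pow 3
    exact tendsto_const_nhds.div_atTop (tendsto_pow_atTop_atTop_of_one_lt (by norm_num))
  have := ge_of_tendsto' lim
    (fun k => vanish_step hε hε' hs hs' hQ h0 h1 z1 z0 (ind k).1 (ind k).2 z a b c)
  have hz : Q z ^ 3 * z ^ 4 * (z - 1) ^ 4 = 0 := by
    apply norm_le_zero_iff.mp
    simpa using this
  have n0 : z ≠ 0 := by intro h; rw [h, norm_zero] at a; linarith
  have n1 : z - 1 ≠ 0 := by intro h; rw [h, norm_zero] at c; linarith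
  simpa [n0, n1] using hz

/-- A symmetric quadratic differential without poles vanishing at one point of each neck is zero. -/
theorem quad_vanish : ∃ η > 0, ∀ (ε q : ℝ) (Q : ℂ → ℂ), 0 < ε → ε ≤ η → 0 < q → q ≤ η →
    DifferentiableOn ℂ Q {z | 8 * q < ‖z‖ ∧ 8 * q * ‖z‖ < 1 ∧ 8 * ε ^ 2 < ‖z - 1‖} →
    (∀ z : ℂ, 8 < ‖z‖ → 8 * q * ‖z‖ < 1 → (q * z) ^ 2 * Q (q * z) = z ^ 2 * Q z) →
    (∀ u : ℂ, 8 * ε ^ 2 < ‖u‖ → ‖u‖ < 1/8 →
      (ε ^ 2 / u) ^ 2 * Q (1 + ε ^ 2 / u) = u ^ 2 * Q (1 + u)) →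
    Q (1 + ε) = 0 → Q (1 / √q) = 0 →
    ∀ z : ℂ, 8 * q < ‖z‖ → 8 * q * ‖z‖ < 1 → 8 * ε ^ 2 < ‖z - 1‖ → Q z = 0 := by
  refine ⟨(1 / 2 ^ 30) ^ 2, by positivity, ?_⟩
  intro ε q Q hε hε' hq hq' hQ h0 h1 z1 z0 z a b c
  obtain ⟨s, hs, rfl⟩ : ∃ s : ℝ, 0 < s ∧ q = s ^ 2 :=
    ⟨√q, Real.sqrt_pos.mpr hq, (Real.sq_sqrt hq.le).symm⟩
  rw [Real.sqrt_sq hs.le] at z0
  have hs' : s ≤ 1 / 2 ^ 30 := le_of_pow_le_pow_left₀ (n := 2) (by norm_num) (by positivity) hq'
  have hε'' : ε ≤ 1 / 2 ^ 30 := hε'.trans (by norm_num)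
  simp only [ofReal_pow] at h0
  have core := vanish_core hε hε'' hs hs' hQ h0 h1 z1 z0
  have hsc : (s : ℂ) ≠ 0 := by exact_mod_cast hs.ne'
  have hns : ‖(s : ℂ)‖ = s := by simp [hs.le]
  have hnε : ‖(ε : ℂ)‖ = ε := by simp [hε.le]
  have ht : 16 ≤ 1 / s := by rw [le_div_iff₀ hs]; linarith
  have lo : ∀ z : ℂ, |‖z‖ - 1| ≤ ‖z - 1‖ := by
    intro z
    have := abs_norm_sub_norm_le z 1
    rwa [norm_one] at this
  have n0 : z ≠ 0 := by intro h; rw [h, norm_zero] at a; linarith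
  have n1 : z - 1 ≠ 0 := by
    intro h
    rw [h, norm_zero] at c
    have : 0 < 8 * ε ^ 2 := by positivity
    linarith
  rcases lt_or_ge ‖z‖ s with k1 | k1
  · have n : ‖z / s ^ 2‖ = ‖z‖ / s ^ 2 := by rw [norm_div, norm_pow, hns]
    have m1 : 8 < ‖z / s ^ 2‖ := by rw [n, lt_div_iff₀ hq]; exact a
    have m2 : ‖z / s ^ 2‖ ≤ 1 / s := by
      rw [n, div_le_div_iff₀ hq hs]
      nlinarith
    have m3 : 8 * s ^ 2 * ‖z / s ^ 2‖ < 1 := by
      rw [n]
      have : 8 * s ^ 2 * (‖z‖ / s ^ 2) = 8 * ‖z‖ := by field_simp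
      rw [this]; linarith
    have := h0 _ m1 m3
    have e : (s : ℂ) ^ 2 * (z / s ^ 2) = z := by field_simp
    have m4 := (le_abs_self _).trans (lo (z / s ^ 2))
    rw [e, core (z / s ^ 2) (by linarith) m2 (by linarith), mul_zero] at this
    simpa [n0] using this
  rcases lt_or_ge (1 / s) ‖z‖ with k2 | k2
  · have n : ‖(s : ℂ) ^ 2 * z‖ = s ^ 2 * ‖z‖ := by rw [norm_mul, norm_pow, hns]
    have := h0 z (by linarith) b
    have m1 : s ≤ ‖(s : ℂ) ^ 2 * z‖ := by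
      rw [n]
      rw [div_lt_iff₀ hs] at k2
      nlinarith
    have m2 : ‖(s : ℂ) ^ 2 * z‖ < 1 / 8 := by rw [n]; linarith
    have m4 := (neg_le_abs _).trans (lo ((s : ℂ) ^ 2 * z))
    rw [core _ m1 (by linarith) (by linarith), mul_zero] at this
    simpa [n0] using this.symm
  rcases lt_or_ge ‖z - 1‖ ε with k3 | k3
  · have p : 0 < ‖z - 1‖ := norm_pos_iff.mpr n1
    have n : ‖(ε : ℂ) ^ 2 / (z - 1)‖ = ε ^ 2 / ‖z - 1‖ := by rw [norm_div, norm_pow, hnε]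
    have := h1 (z - 1) c (by linarith)
    have m1 : ε ≤ ‖(ε : ℂ) ^ 2 / (z - 1)‖ := by
      rw [n, le_div_iff₀ p]
      nlinarith
    have m2 : ‖(ε : ℂ) ^ 2 / (z - 1)‖ ≤ 1 / 8 := by
      rw [n, div_le_iff₀ p]
      linarith
    have m3 := norm_add_le (1 : ℂ) ((ε : ℂ) ^ 2 / (z - 1))
    have m4 := norm_sub_norm_le (1 : ℂ) (-((ε : ℂ) ^ 2 / (z - 1)))
    rw [norm_one] at m3
    rw [norm_one, norm_neg, sub_neg_eq_add] at m4
    rw [core _ (by linarith) (by linarith) (by rw [add_sub_cancel_left]; exact m1), mul_zero,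
      add_sub_cancel] at this
    simpa [n1] using this.symm
  exact core z k1 k2 k3

end Pool.Agent.MP_efb2da_gt
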