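import Pool.Agent.MP_efb2da_gt.Sol0
import Pool.Agent.MP_efb2da_gt.Pot1
import Pool.Agent.MP_efb2da_gt.Vanish

open Set Complex
open scoped Topology ComplexConjugate Matrix ContDiff

noncomputable section

namespace Pool.Agent.MP_efb2da_gt

/-- the determinant of the Higgs field -/
def NilpQ (g : Geo) (d : Dat) (z : ℂ) : ℂ := (cf (-1) (Xi g d z)).det

/-- the determinant with the removable singularities filled in -/
def NilpR (g : Geo) (d : Dat) (z : ℂ) : ℂ := (𝓝[≠] z).limUnder (NilpQ g d)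

variable {g : Geo} {d : Dat}

lemma Nilp_det_diff {f : ℂ → MW} {s : Set ℂ} (hf : DifferentiableOn ℂ f s) :
    DifferentiableOn ℂ (fun z => (cf (-1) (f z)).det) s :=
  ((contDiff_detC (n := 1)).differentiable one_ne_zero).comp_differentiableOn
    ((cf (-1)).differentiable.comp_differentiableOn hf)

lemma Nilp_det_smul (c : ℂ) (M : MW) : (cf (-1) (c • M)).det = c ^ 2 * (cf (-1) M).det := by
  rw [map_smul, Matrix.det_smul, Fintype.card_fin]

lemma Nilp_det_sw (M : MW) : (cf (-1) (sw M)).det = (cf (-1) M).det := by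
  simp only [Matrix.det_fin_two, cf_apply, sw_apply]
  simp [mul_comm]

lemma NilpR_eq (hg : AdmG g) (hd : Str d) {z : ℂ} (hz : z ∈ Dom g) : NilpR g d z = NilpQ g d z :=
  (((Nilp_det_diff (Xi_differentiableOn hg hd)).continuousOn.continuousAt
    ((isOpen_Dom g).mem_nhds hz)).tendsto.mono_left nhdsWithin_le_nhds).limUnder_eq

lemma Nilp_ext (hg : AdmG g) (hd : Str d) (j : Fin 3) (hn : W.coef (-2) (AA d (cj5 j)).det = 0)
    (hr : trC (adjC (cf (-1) (AA d (cj5 j))) * cf (-1) (reg g d (cj5 j) (pp g j))) = 0) :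
    DifferentiableAt ℂ (NilpR g d) (pp g j) := by
  have hb : Metric.ball (pp g j : ℂ) (1/8) ∈ 𝓝 (pp g j : ℂ) := Metric.ball_mem_nhds _ (by norm_num)
  have hreg := reg_differentiableOn hg hd j
  set b : ℂ → ℂ := fun z => trC (adjC (cf (-1) (AA d (cj5 j))) * cf (-1) (reg g d (cj5 j) z))
    with hbd
  have hb1 : DifferentiableOn ℂ b (Metric.ball (pp g j : ℂ) (1/8)) :=
    trC.differentiable.comp_differentiableOn
      (((cf (-1)).differentiable.comp_differentiableOn hreg).const_mul _)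
  have hE : DifferentiableOn ℂ (fun z => dslope b (pp g j) z + (cf (-1) (reg g d (cj5 j) z)).det)
      (Metric.ball (pp g j : ℂ) (1/8)) :=
    ((Complex.differentiableOn_dslope hb).2 hb1).add (Nilp_det_diff hreg)
  have hn' : (cf (-1) (AA d (cj5 j))).det = 0 := by
    rw [← (hd.geA (cj5 j)).coef_det]; exact hn
  have hQ : ∀ z ∈ Metric.ball (pp g j : ℂ) (1/8), z ≠ pp g j →
      NilpQ g d z = dslope b (pp g j) z + (cf (-1) (reg g d (cj5 j) z)).det := by
    intro z _ hz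
    have hb0 : b (pp g j) = 0 := hr
    rw [NilpQ, Xi_eq_reg (cj5 j), map_add, det_addC, Nilp_det_smul, hn', pos_cj5, dslope_of_ne _ hz,
      slope_def_module, hb0, map_smul, map_smul, smul_mul_assoc, map_smul]
    simp only [hbd, smul_eq_mul]
    ring
  refine (hE.differentiableAt hb).congr_of_eventuallyEq ?_
  filter_upwards [hb] with z hz
  by_cases h : z = pp g j
  · subst h
    refine Filter.Tendsto.limUnder_eq ?_
    refine ((hE.continuousOn.continuousAt hb).tendsto.mono_left nhdsWithin_le_nhds).congr' ?_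
    filter_upwards [mem_nhdsWithin_of_mem_nhds hb, self_mem_nhdsWithin] with w h1 h2
    exact (hQ w h1 h2).symm
  · rw [NilpR_eq hg hd (ball_subset_Dom hg j (mem_ball_iff_norm.1 hz) h), hQ z hz h]

lemma Nilp_abs (hg : AdmG g) (j : Fin 3) : 1/4 ≤ |pp g j| ∧ |pp g j| ≤ 11/10 := by
  obtain ⟨⟨a, b⟩, ⟨c, e⟩, f, h⟩ := hg.2.2.2
  fin_cases j
  · simp only [Fin.zero_eta]
    rw [abs_of_nonneg (by linarith)]; constructor <;> linarith
  · simp only [Fin.mk_one]
    rw [abs_of_nonpos (by linarith)]; constructor <;> linarith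
  · simp only [Fin.reduceFinMk]
    rw [abs_of_nonpos (by linarith)]; constructor <;> linarith

lemma Nilp_far (hg : AdmG g) {z : ℂ} (h1 : 8 < ‖z‖) (h2 : 8 * qq g * ‖z‖ < 1) : z ∈ Dom g := by
  obtain ⟨⟨he, he'⟩, ⟨hq, hq'⟩, -⟩ := hg.2
  refine ⟨by linarith, h2, ?_, fun j hj => ?_⟩
  · have := norm_sub_norm_le z 1
    rw [norm_one] at this
    nlinarith
  · rw [hj, Complex.norm_real, Real.norm_eq_abs] at h1
    linarith [(Nilp_abs hg j).2]

lemma Nilp_near (hg : AdmG g) {z : ℂ} (h1 : 8 < ‖z‖) (h2 : 8 * qq g * ‖z‖ < 1) :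
    (qq g : ℂ) * z ∈ Dom g := by
  obtain ⟨⟨he, he'⟩, ⟨hq, hq'⟩, -⟩ := hg.2
  have e : ‖(qq g : ℂ) * z‖ = qq g * ‖z‖ := by
    rw [norm_mul, Complex.norm_real, Real.norm_eq_abs, abs_of_pos hq]
  refine ⟨by rw [e]; nlinarith, by rw [e]; nlinarith, ?_, fun j hj => ?_⟩
  · have := norm_sub_norm_le 1 ((qq g : ℂ) * z)
    rw [norm_one, norm_sub_rev, e] at this
    nlinarith
  · rw [hj, Complex.norm_real, Real.norm_eq_abs] at e
    linarith [(Nilp_abs hg j).1]

theorem sol_nil : ∃ η₀ > 0, ∀ (η N : ℝ) (As : Fin 5 → MW) (S : Sol η N As), η ≤ η₀ →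
    ∀ z ∈ Dom S.g, (cf (-1) (Xi S.g S.d z)).det = 0 := by
  obtain ⟨η₀, h0, H⟩ := quad_vanish
  refine ⟨η₀, h0, fun η N As S hη z hz => ?_⟩
  have hg := S.adm
  have hd := S.str
  obtain ⟨⟨he, he'⟩, ⟨hq, hq'⟩, -⟩ := hg.2
  have hTh : ∀ u : ℂ, 8 * ee S.g ^ 2 < ‖u‖ → ‖u‖ < 1/8 →
      u ^ 2 * NilpR S.g S.d (1 + u) = (cf (-1) (Th S.g S.d u)).det := by
    intro u h1 h2
    have hu : u ≠ 0 := norm_pos_iff.1 (lt_trans (by positivity) h1)
    rw [NilpR_eq hg hd (neck_subset_Dom hg h1 h2), Th_eq hg S.fix hu h2.le, Nilp_det_smul, NilpQ]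
  have key := H (ee S.g) (qq S.g) (NilpR S.g S.d) he (S.e_le.trans hη) hq (S.q_le.trans hη)
    ?_ ?_ ?_ ?_ ?_ z hz.1 hz.2.1 hz.2.2.1
  · rwa [NilpR_eq hg hd hz] at key
  · intro w hw
    refine DifferentiableAt.differentiableWithinAt ?_
    by_cases h : ∃ j, w = pp S.g j
    · obtain ⟨j, rfl⟩ := h
      exact Nilp_ext hg hd j (S.nil j) (S.res j)
    · have hD : Dom S.g ∈ 𝓝 w :=
        (isOpen_Dom _).mem_nhds ⟨hw.1, hw.2.1, hw.2.2, fun j hj => h ⟨j, hj⟩⟩
      refine ((Nilp_det_diff (Xi_differentiableOn hg hd)).differentiableAt hD).congr_of_eventuallyEq ?_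
      filter_upwards [hD] with y hy
      exact NilpR_eq hg hd hy
  · intro w h1 h2
    have h3 := congrArg (fun M => (cf (-1) M).det) (Xi_per hg S.fix h1.le h2.le)
    have h4 : (cf 0 (GG S.d)).det = 1 := by
      rw [← hd.geG.coef_det, S.fix.detG, add_zero, W.coef_one, if_pos rfl]
    have h5 : (cf 0 (adj (GG S.d))).det = 1 := by
      rw [← hd.geG.adj.coef_det, det_adj, S.fix.detG, add_zero, W.coef_one, if_pos rfl]
    simp only [Nilp_det_smul] at h3
    rw [hd.geG.cf_conj (Xi_ge hd w) hd.geG.adj, Matrix.det_mul, Matrix.det_mul, h4, h5] at h3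
    rw [NilpR_eq hg hd (Nilp_far hg h1 h2), NilpR_eq hg hd (Nilp_near hg h1 h2), NilpQ, NilpQ]
    linear_combination w ^ 2 * h3
  · intro u h1 h2
    have hu' : 0 < ‖u‖ := lt_trans (by positivity) h1
    have hu : u ≠ 0 := norm_pos_iff.1 hu'
    have e : ‖(ee S.g : ℂ) ^ 2 / u‖ = ee S.g ^ 2 / ‖u‖ := by
      rw [norm_div, norm_pow, Complex.norm_real, Real.norm_eq_abs, abs_of_pos he]
    have he2 : 0 < ee S.g ^ 2 := by positivity
    rw [hTh u h1 h2, hTh _ (by rw [e, lt_div_iff₀ hu']; nlinarith)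
      (by rw [e, div_lt_iff₀ hu']; linarith), ← Nilp_det_sw, Th_sw hg hd hu, ← neg_one_smul ℂ (Th S.g S.d u),
      Nilp_det_smul]
    ring
  · have e : ‖(ee S.g : ℂ)‖ = ee S.g := by rw [Complex.norm_real, Real.norm_eq_abs, abs_of_pos he]
    have h1 := hTh (ee S.g) (by rw [e]; nlinarith) (by rw [e]; linarith)
    rw [S.n1] at h1
    exact (mul_eq_zero.1 h1).resolve_left (pow_ne_zero 2 (by exact_mod_cast he.ne'))
  · have hs : 0 < √(qq S.g) := Real.sqrt_pos.2 hq
    have hs2 : √(qq S.g) ^ 2 = qq S.g := Real.sq_sqrt hq.le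
    have hs3 : √(qq S.g) < 1/8 := by
      rw [Real.sqrt_lt' (by norm_num)]; linarith
    have e : ‖(1 / (√(qq S.g) : ℝ) : ℂ)‖ = 1 / √(qq S.g) := by
      rw [norm_div, norm_one, Complex.norm_real, Real.norm_eq_abs, abs_of_pos hs]
    rw [NilpR_eq hg hd (Nilp_far hg (by rw [e, lt_div_iff₀ hs]; linarith)
      (by rw [e, mul_one_div, div_lt_one hs]; nlinarith))]
    have h1 := S.n4
    push_cast at h1
    exact h1

end Pool.Agent.MP_efb2da_gt
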