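import Pool.Agent.MP_efb2da_gt.Sol0

/-! Parametrisation of the residues by the errors; the fixed point map; the remaining finite
dimensional equations. -/

open Set Complex
open scoped Topology ComplexConjugate Matrix ContDiff

noncomputable section

namespace Pool.Agent.MP_efb2da_gt

/-- positive loop making `e + Pos e` symmetric -/
def Pos (e : MW) : MW := prj (Ioi 0) (flat e - e) + (1/2 : ℂ) • prj {0} (flat e - e)
def SymE (e : MW) : MW := e + Pos e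
/-- traceless part -/
def tl (e : MW) : MW := (1/2 : ℂ) • (e - adj e)
/-- coefficient of `J` -/
def jc (x : MC) : ℂ := (x 1 0 - x 0 1) / 2
def build (e : MW) (a S0 : MC) : MW :=
  Pos e + mono (-1) a + mono 1 (trpC a) + cst (S0 - J0 (SymE e) - a - trpC a)
def kap (t : ℝ) : ℝ := Real.sin (Real.pi * t) / (Real.pi * t)
def nilmu (κ μ : ℂ) (ψ : ℝ) : MC :=
  (κ / 2) • sJ + (κ / 2 + μ) • ((Real.sin ψ : ℂ) • s3 - (Real.cos ψ : ℂ) • s1)

/-- reference frame at the junction -/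
def H0 (y : Y8) : MW := Hol (fun _ => ((ell1 y : ℝ) : ℂ) • A10) 1
def sg5 : Fin 5 → ℝ := ![-1, -1, 1, -1, 1]
/-- limit residues -/
def Al (y : Y8) (j : Fin 5) : MW := Bi (H0 y) * zeta (sg5 j) (mat (av y j)) * Bm (H0 y)
def Z40 (y : Y8) : MW := -(Bi (H0 y) * zeta 1 (nilM (rho y) (y 3)) * Bm (H0 y))
def Phi0 (y : Y8) : MW := H0 y * Hol (fun _ => ((ell y : ℝ) : ℂ) • Z40 y) 1
def G0 (y : Y8) : MW := Bi (H0 y) * Bm (Phi0 y)

abbrev Par := Y8 × ℝ × ℝ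
abbrev EE := (Fin 4 → MW) × MW × (Fin 3 → CD)

def geo (s : ℝ) (y : Y8) : Geo :=
  (s ^ 4, 1/16 * Real.exp (-(ell1 y / s ^ 4)), 1/17 * Real.exp (-(ell y / s ^ 4)), yp y)
def sc (s : ℝ) : Fin 4 → ℝ := ![s ^ 3, s, s, s]

variable (s RG Rm : ℝ) (p : Par) (x : EE)

def be : ℝ := 1/2 + s ^ 2 * p.2.1
def er (i : Fin 4) : MW := tl ((sc s i : ℂ) • x.1 i)
def jj (i : Fin 4) : ℂ := jc (J1 (SymE (er s x i)))
def S10 : MC := ((-(kap (s ^ 4) / 2) : ℝ) : ℂ) • s3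
def A1p : MW :=
  build (er s x 0)
    ((-((be s p : ℂ) ^ 2 / kap (s ^ 4)) - J2 (SymE (er s x 0)) 0 0 / 2) • s3 +
      ((jj s x 0 - be s p) / 2) • sJ) (S10 s)
def k4 : ℂ := be s p + kap (s ^ 4) * symM (H0 p.1) 0 1 - jj s x 3
def a4 : MC := nilmu (k4 s p x) ((s * p.2.2 : ℝ) : ℂ) (p.1 3)
def a3 : MC := nilM (-k4 s p x - jj s x 2) (p.1 2)
def al1 : MW := Bm (H0 p.1) * A1p s p x * Bi (H0 p.1)
def a2 : MC := nilM (jj s x 1 - 2 * jc (cf (-1) (al1 s p x))) (p.1 1)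
def alZ : Fin 3 → MW :=
  ![build (er s x 1) (cf (-1) (al1 s p x) + a2 s p x) 0,
    build (er s x 2) (-a4 s p x - a3 s p x) 0,
    build (er s x 3) (-a4 s p x) (S10 s)]
def Z4 : MW := Bi (H0 p.1) * alZ s p x 2 * Bm (H0 p.1)
def A2p : MW := Bi (H0 p.1) * (alZ s p x 0 - al1 s p x) * Bm (H0 p.1)
def A3p : MW := Bi (H0 p.1) * (alZ s p x 2 - alZ s p x 1) * Bm (H0 p.1)
def A0p : MW := ((RG : ℂ) • x.2.1) * Z4 s p x * adj ((RG : ℂ) • x.2.1)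
def dat : Dat :=
  (![A0p s RG p x, A1p s p x, A2p s p x, A3p s p x,
      Z4 s p x - A0p s RG p x - A1p s p x - A2p s p x - A3p s p x],
    (RG : ℂ) • x.2.1, fun i => (Rm : ℂ) • x.2.2 i)
def errZ (i : Fin 3) : MW :=
  adj (Uf (H0 p.1)) * Sof (s ^ 4) (RR (geo s p.1) (dat s RG Rm p x) i) * Uf (H0 p.1) - alZ s p x i
/-- the fixed point map -/
def Fmap : EE :=
  (![((s ^ 3)⁻¹ : ℂ) • (Sof (s ^ 4) (R1 (geo s p.1) (dat s RG Rm p x)) - A1p s p x),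
      (s⁻¹ : ℂ) • errZ s RG Rm p x 0, (s⁻¹ : ℂ) • errZ s RG Rm p x 1,
      (s⁻¹ : ℂ) • errZ s RG Rm p x 2],
    (RG⁻¹ : ℂ) • Gf (geo s p.1) (dat s RG Rm p x),
    fun i => (Rm⁻¹ : ℂ) • MM (geo s p.1) (dat s RG Rm p x) i)

/-- the closed set of structured unknowns -/
def CC : Set EE :=
  {x | (∀ i, sharp (x.1 i) = x.1 i ∧ trW (x.1 i) = 0) ∧ sw (x.1 0) = -x.1 0 ∧
    sharp x.2.1 = x.2.1 ∧ MGE 0 x.2.1 ∧ ∀ i, StrM (x.2.2 i)}

/-- real part of the gauge component -/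
def reG : EE →L[ℝ] EE :=
  (ContinuousLinearMap.id ℝ _).prodMap
    ((((1/2 : ℝ) • (ContinuousLinearMap.id ℝ MW + sharp))).prodMap (ContinuousLinearMap.id ℝ _))

def resj (g : Geo) (d : Dat) (j : Fin 3) : ℂ :=
  trC (adjC (cf (-1) (AA d (cj5 j))) * cf (-1) (reg g d (cj5 j) (pp g j)))
/-- the eight equations whose limit is `E0` -/
def Et (g : Geo) (d : Dat) : Fin 8 → ℝ :=
  ![((symM (Phi g d) - symM (Php g d)) 0 0).re, (W.coef (-1) (AA d 2).det).re,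
    (W.coef (-1) (AA d 3).det).re, ((symM (Phi g d) - symM (Php g d)) 0 1).re,
    (W.coef (-2) (AA d 4).det).re, (resj g d 0).re, (resj g d 1).re, (resj g d 2).re]
def Eb (g : Geo) (d : Dat) : ℝ := -((cf (-1) (Th g d (ee g))).det).re
def Em (g : Geo) (d : Dat) : ℝ :=
  -((cf (-1) (((1 / √(qq g) : ℝ) : ℂ) • Xi g d ((1 / √(qq g) : ℝ) : ℂ))).det).re

/-- parameter box -/
def Box (K : Set Y8) : Set Par := {p | p.1 ∈ K ∧ |p.2.1| ≤ 1 ∧ |p.2.2| ≤ 1}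

end Pool.Agent.MP_efb2da_gt
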