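import Pool.Agent.MP_efb2da_gt.ParB

open Set Complex
open scoped Topology ComplexConjugate Matrix ContDiff

noncomputable section

namespace Pool.Agent.MP_efb2da_gt

theorem Par1_dPos : Differentiable ℂ Pos := by
  have h : Differentiable ℂ fun e : MW => flat e - e := flat.differentiable.sub differentiable_id
  exact ((prj (Ioi 0)).differentiable.comp h).add
    (((prj {0}).differentiable.comp h).const_smul (1/2 : ℂ))

theorem Par1_dSymE : Differentiable ℂ SymE := differentiable_id.add Par1_dPos

theorem Par1_dtl : Differentiable ℂ tl :=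
  (differentiable_id.sub adj.differentiable).const_smul (1/2 : ℂ)

theorem Par1_half {T : Type} [NormedAddCommGroup T] [NormedSpace ℂ T] {k : T → ℂ}
    (h : Differentiable ℂ k) : Differentiable ℂ fun x => k x / 2 := by
  simp only [div_eq_mul_inv]
  exact h.mul_const _

theorem Par1_djc : Differentiable ℂ jc :=
  Par1_half ((entC 1 0).differentiable.sub (entC 0 1).differentiable)

theorem Par1_dbuild : Differentiable ℂ fun q : MW × MC × MC => build q.1 q.2.1 q.2.2 := by
  have h1 : Differentiable ℂ fun q : MW × MC × MC => q.1 := differentiable_fst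
  have h2 : Differentiable ℂ fun q : MW × MC × MC => q.2.1 :=
    differentiable_fst.comp differentiable_snd
  have h3 : Differentiable ℂ fun q : MW × MC × MC => q.2.2 :=
    differentiable_snd.comp differentiable_snd
  have h4 : Differentiable ℂ fun q : MW × MC × MC => trpC q.2.1 := trpC.differentiable.comp h2
  exact (((Par1_dPos.comp h1).add ((differentiable_mono (-1)).comp h2)).add
    ((differentiable_mono 1).comp h4)).add (cst.differentiable.comp
      (((h3.sub (J0.differentiable.comp (Par1_dSymE.comp h1))).sub h2).sub h4))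

theorem Par1_der (s : ℝ) (i : Fin 4) : Differentiable ℂ fun x : EE => er s x i := by
  have h : Differentiable ℂ fun x : EE => (sc s i : ℂ) • x.1 i := by fun_prop
  exact Par1_dtl.comp h

theorem Par1_djj (s : ℝ) (i : Fin 4) : Differentiable ℂ fun x : EE => jj s x i :=
  Par1_djc.comp (J1.differentiable.comp (Par1_dSymE.comp (Par1_der s i)))

theorem Par1_dJ2 (s : ℝ) : Differentiable ℂ fun x : EE => J2 (SymE (er s x 0)) 0 0 :=
  (entC 0 0).differentiable.comp (J2.differentiable.comp (Par1_dSymE.comp (Par1_der s 0)))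

section diff
variable {f : EE → MW} {a b : EE → MC} {k : EE → ℂ}

theorem Par1_db (hf : Differentiable ℂ f) (ha : Differentiable ℂ a) (hb : Differentiable ℂ b) :
    Differentiable ℂ fun x => build (f x) (a x) (b x) := by
  have h := Par1_dbuild.comp (hf.prodMk (ha.prodMk hb))
  simpa only [Function.comp_def] using h

theorem Par1_dnilM (hk : Differentiable ℂ k) (ψ : ℝ) : Differentiable ℂ fun x => nilM (k x) ψ :=
  (Par1_half hk).smul_const _

theorem Par1_dnilmu (hk : Differentiable ℂ k) (μ : ℂ) (ψ : ℝ) :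
    Differentiable ℂ fun x => nilmu (k x) μ ψ :=
  ((Par1_half hk).smul_const _).add (((Par1_half hk).add_const μ).smul_const _)

theorem Par1_dconj (hf : Differentiable ℂ f) (A B : MW) :
    Differentiable ℂ fun x => A * f x * B := (hf.const_mul A).mul_const B

end diff

section cont
variable {S : Set (Par × EE)} {f : Par × EE → MW} {a b : Par × EE → MC} {k m : Par × EE → ℂ}
  {ψ : Par × EE → ℝ}

theorem Par1_cb (hf : ContinuousOn f S) (ha : ContinuousOn a S) (hb : ContinuousOn b S) :
    ContinuousOn (fun x => build (f x) (a x) (b x)) S := by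
  have h := Par1_dbuild.continuous.comp_continuousOn (hf.prodMk (ha.prodMk hb))
  simpa only [Function.comp_def] using h

theorem Par1_csin (h : ContinuousOn ψ S) : ContinuousOn (fun x => (Real.sin (ψ x) : ℂ)) S :=
  (continuous_ofReal.comp Real.continuous_sin).comp_continuousOn h

theorem Par1_ccos (h : ContinuousOn ψ S) : ContinuousOn (fun x => (Real.cos (ψ x) : ℂ)) S :=
  (continuous_ofReal.comp Real.continuous_cos).comp_continuousOn h

theorem Par1_cnilM (hk : ContinuousOn k S) (h : ContinuousOn ψ S) :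
    ContinuousOn (fun x => nilM (k x) (ψ x)) S :=
  (hk.div_const 2).smul ((continuousOn_const.add ((Par1_csin h).smul continuousOn_const)).sub
    ((Par1_ccos h).smul continuousOn_const))

theorem Par1_cnilmu (hk : ContinuousOn k S) (hm : ContinuousOn m S) (h : ContinuousOn ψ S) :
    ContinuousOn (fun x => nilmu (k x) (m x) (ψ x)) S :=
  ((hk.div_const 2).smul continuousOn_const).add (((hk.div_const 2).add hm).smul
    (((Par1_csin h).smul continuousOn_const).sub ((Par1_ccos h).smul continuousOn_const)))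

end cont

variable (s RG Rm : ℝ) (p : Par) (x : EE)

theorem Par1_dA1p : Differentiable ℂ (A1p s p) :=
  Par1_db (Par1_der s 0)
    ((((Par1_half (Par1_dJ2 s)).const_sub _).smul_const _).add
      ((Par1_half ((Par1_djj s 0).sub_const _)).smul_const _)) (differentiable_const _)

theorem Par1_dk4 : Differentiable ℂ (k4 s p) := (Par1_djj s 3).const_sub _
theorem Par1_da4 : Differentiable ℂ (a4 s p) := Par1_dnilmu (Par1_dk4 s p) _ _
theorem Par1_da3 : Differentiable ℂ (a3 s p) :=
  Par1_dnilM ((Par1_dk4 s p).neg.sub (Par1_djj s 2)) _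
theorem Par1_dal1 : Differentiable ℂ (al1 s p) := Par1_dconj (Par1_dA1p s p) _ _
theorem Par1_dcf : Differentiable ℂ fun x => cf (-1) (al1 s p x) :=
  (cf (-1)).differentiable.comp (Par1_dal1 s p)
theorem Par1_da2 : Differentiable ℂ (a2 s p) :=
  Par1_dnilM ((Par1_djj s 1).sub ((Par1_djc.comp (Par1_dcf s p)).const_mul 2)) _

theorem differentiable_alZ (i : Fin 3) : Differentiable ℂ fun x => alZ s p x i := by
  fin_cases i
  · exact Par1_db (Par1_der s 1) ((Par1_dcf s p).add (Par1_da2 s p)) (differentiable_const _)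
  · exact Par1_db (Par1_der s 2) ((Par1_da4 s p).neg.sub (Par1_da3 s p)) (differentiable_const _)
  · exact Par1_db (Par1_der s 3) (Par1_da4 s p).neg (differentiable_const _)

theorem Par1_dZ4 : Differentiable ℂ (Z4 s p) := Par1_dconj (differentiable_alZ s p 2) _ _
theorem Par1_dA2p : Differentiable ℂ (A2p s p) :=
  Par1_dconj ((differentiable_alZ s p 0).sub (Par1_dal1 s p)) _ _
theorem Par1_dA3p : Differentiable ℂ (A3p s p) :=
  Par1_dconj ((differentiable_alZ s p 2).sub (differentiable_alZ s p 1)) _ _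
theorem Par1_dG : Differentiable ℂ fun x : EE => (RG : ℂ) • x.2.1 := by fun_prop
theorem Par1_dM : Differentiable ℂ fun (x : EE) (i : Fin 3) => (Rm : ℂ) • x.2.2 i := by fun_prop
theorem Par1_dA0p : Differentiable ℂ (A0p s RG p) :=
  ((Par1_dG RG).mul (Par1_dZ4 s p)).mul (adj.differentiable.comp (Par1_dG RG))

theorem differentiable_dat : Differentiable ℂ (dat s RG Rm p) := by
  refine Differentiable.prodMk (differentiable_pi.2 fun j => ?_)
    ((Par1_dG RG).prodMk (Par1_dM Rm))
  fin_cases j
  · exact Par1_dA0p s RG p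
  · exact Par1_dA1p s p
  · exact Par1_dA2p s p
  · exact Par1_dA3p s p
  · exact ((((Par1_dZ4 s p).sub (Par1_dA0p s RG p)).sub (Par1_dA1p s p)).sub
      (Par1_dA2p s p)).sub (Par1_dA3p s p)

theorem Par1_cy : Continuous fun z : Par × EE => z.1.1 := continuous_fst.comp continuous_fst

theorem Par1_cc {T : Type} [TopologicalSpace T] {g : Y8 → T} (h : ContinuousOn g {y | Yadm y}) :
    ContinuousOn (fun z : Par × EE => g z.1.1) {z | Yadm z.1.1} :=
  h.comp Par1_cy.continuousOn fun _ hz => hz

theorem Par1_cx {T : Type} [NormedAddCommGroup T] [NormedSpace ℂ T] {g : EE → T}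
    (h : Differentiable ℂ g) : ContinuousOn (fun z : Par × EE => g z.2) {z | Yadm z.1.1} :=
  (h.continuous.comp continuous_snd).continuousOn

theorem Par1_cyi (i : Fin 8) : ContinuousOn (fun z : Par × EE => z.1.1 i) {z | Yadm z.1.1} :=
  ((continuous_apply i).comp Par1_cy).continuousOn

theorem Par1_cbe : ContinuousOn (fun z : Par × EE => (be s z.1 : ℂ)) {z | Yadm z.1.1} := by
  refine (continuous_ofReal.comp ?_).continuousOn
  unfold be
  fun_prop

theorem Par1_cmu : ContinuousOn (fun z : Par × EE => ((s * z.1.2.2 : ℝ) : ℂ)) {z | Yadm z.1.1} := by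
  refine (continuous_ofReal.comp ?_).continuousOn
  fun_prop

theorem Par1_cA1p : ContinuousOn (fun z : Par × EE => A1p s z.1 z.2) {z | Yadm z.1.1} :=
  Par1_cb (Par1_cx (Par1_der s 0))
    ((((((Par1_cbe s).pow 2).div_const _).neg.sub ((Par1_cx (Par1_dJ2 s)).div_const 2)).smul
      continuousOn_const).add
      ((((Par1_cx (Par1_djj s 0)).sub (Par1_cbe s)).div_const 2).smul continuousOn_const))
    continuousOn_const

theorem Par1_ck4 : ContinuousOn (fun z : Par × EE => k4 s z.1 z.2) {z | Yadm z.1.1} :=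
  ((Par1_cbe s).add (continuousOn_const.mul
    ((entC 0 1).continuous.comp_continuousOn (Par1_cc co_sym0)))).sub (Par1_cx (Par1_djj s 3))
theorem Par1_ca4 : ContinuousOn (fun z : Par × EE => a4 s z.1 z.2) {z | Yadm z.1.1} :=
  Par1_cnilmu (Par1_ck4 s) (Par1_cmu s) (Par1_cyi 3)
theorem Par1_ca3 : ContinuousOn (fun z : Par × EE => a3 s z.1 z.2) {z | Yadm z.1.1} :=
  Par1_cnilM ((Par1_ck4 s).neg.sub (Par1_cx (Par1_djj s 2))) (Par1_cyi 2)
theorem Par1_cal1 : ContinuousOn (fun z : Par × EE => al1 s z.1 z.2) {z | Yadm z.1.1} :=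
  ((Par1_cc co_Bm0).mul (Par1_cA1p s)).mul (Par1_cc co_Bi0)
theorem Par1_ccf : ContinuousOn (fun z : Par × EE => cf (-1) (al1 s z.1 z.2)) {z | Yadm z.1.1} :=
  (cf (-1)).continuous.comp_continuousOn (Par1_cal1 s)
theorem Par1_ca2 : ContinuousOn (fun z : Par × EE => a2 s z.1 z.2) {z | Yadm z.1.1} :=
  Par1_cnilM ((Par1_cx (Par1_djj s 1)).sub (continuousOn_const.mul
    (Par1_djc.continuous.comp_continuousOn (Par1_ccf s)))) (Par1_cyi 1)

theorem co_alZ (i : Fin 3) :
    ContinuousOn (fun z : Par × EE => alZ s z.1 z.2 i) {z | Yadm z.1.1} := by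
  fin_cases i
  · exact Par1_cb (Par1_cx (Par1_der s 1)) ((Par1_ccf s).add (Par1_ca2 s)) continuousOn_const
  · exact Par1_cb (Par1_cx (Par1_der s 2)) ((Par1_ca4 s).neg.sub (Par1_ca3 s)) continuousOn_const
  · exact Par1_cb (Par1_cx (Par1_der s 3)) (Par1_ca4 s).neg continuousOn_const

theorem Par1_cZ4 : ContinuousOn (fun z : Par × EE => Z4 s z.1 z.2) {z | Yadm z.1.1} :=
  ((Par1_cc co_Bi0).mul (co_alZ s 2)).mul (Par1_cc co_Bm0)
theorem Par1_cA2p : ContinuousOn (fun z : Par × EE => A2p s z.1 z.2) {z | Yadm z.1.1} :=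
  ((Par1_cc co_Bi0).mul ((co_alZ s 0).sub (Par1_cal1 s))).mul (Par1_cc co_Bm0)
theorem Par1_cA3p : ContinuousOn (fun z : Par × EE => A3p s z.1 z.2) {z | Yadm z.1.1} :=
  ((Par1_cc co_Bi0).mul ((co_alZ s 2).sub (co_alZ s 1))).mul (Par1_cc co_Bm0)
theorem Par1_cA0p : ContinuousOn (fun z : Par × EE => A0p s RG z.1 z.2) {z | Yadm z.1.1} :=
  ((Par1_cx (Par1_dG RG)).mul (Par1_cZ4 s)).mul
    (Par1_cx (adj.differentiable.comp (Par1_dG RG)))

theorem co_dat : ContinuousOn (fun z : Par × EE => dat s RG Rm z.1 z.2) {z | Yadm z.1.1} := by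
  refine ContinuousOn.prodMk (continuousOn_pi.2 fun j => ?_)
    ((Par1_cx (Par1_dG RG)).prodMk (Par1_cx (Par1_dM Rm)))
  fin_cases j
  · exact Par1_cA0p s RG
  · exact Par1_cA1p s
  · exact Par1_cA2p s
  · exact Par1_cA3p s
  · exact ((((Par1_cZ4 s).sub (Par1_cA0p s RG)).sub (Par1_cA1p s)).sub
      (Par1_cA2p s)).sub (Par1_cA3p s)

theorem co_geo : ContinuousOn (geo s) {y | Yadm y} := by
  refine continuousOn_const.prodMk (ContinuousOn.prodMk ?_ (ContinuousOn.prodMk ?_ ?_))
  · exact continuousOn_const.mul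
      (Real.continuous_exp.comp_continuousOn (continuousOn_ell1.div_const _).neg)
  · exact continuousOn_const.mul
      (Real.continuous_exp.comp_continuousOn (continuousOn_ell.div_const _).neg)
  · refine (continuous_pi fun i => ?_).continuousOn
    fin_cases i
    · exact continuous_apply 5
    · exact continuous_apply 6
    · exact continuous_apply 7

end Pool.Agent.MP_efb2da_gt
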