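import Pool.Agent.MP_efb2da_gt.Par1

open Set Complex
open scoped Topology ComplexConjugate Matrix ContDiff

noncomputable section

set_option maxHeartbeats 400000

namespace Pool.Agent.MP_efb2da_gt

lemma Par2_exp {m t l : ℝ} (hm : 0 < m) (ht : 0 < t) (hl : m ≤ l) (h : t ≤ m ^ 2) :
    Real.exp (-(l / t)) ≤ 2 * t := by
  have h1 : 0 < l / t := div_pos (hm.trans_le hl) ht
  have h2 := Real.quadratic_le_exp_of_nonneg h1.le
  have h3 : (m / t) ^ 2 ≤ (l / t) ^ 2 := by gcongr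
  have h4 : 1 / t ≤ (m / t) ^ 2 := by
    rw [div_pow, div_le_div_iff₀ ht (by positivity)]; nlinarith
  rw [Real.exp_neg, inv_le_comm₀ (Real.exp_pos _) (by positivity)]
  have h5 : (2 * t)⁻¹ = 1 / t / 2 := by field_simp
  rw [h5]; linarith

theorem geo_est {K : Set Y8} (hK : IsCompact K) (hY : ∀ y ∈ K, Yadm y) : ∃ s₀ > 0, ∃ L : ℝ,
    ∀ s ∈ Ioc 0 s₀, ∀ y ∈ K, AdmG (geo s y) ∧ ee (geo s y) ≤ s ^ 4 ∧ qq (geo s y) ≤ s ^ 4 ∧
      tt (geo s y) * La1 (geo s y) = ell1 y ∧ tt (geo s y) * La (geo s y) = ell y ∧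
      ell1 y ≤ L ∧ ell y ≤ L := by
  have c1 : ContinuousOn ell1 K := continuousOn_ell1.mono hY
  have c2 : ContinuousOn ell K := continuousOn_ell.mono hY
  obtain ⟨m, hm, hmin⟩ : ∃ m > 0, ∀ y ∈ K, m ≤ min (ell1 y) (ell y) :=
    hK.exists_forall_le' (c1.inf c2) fun y hy => lt_min (ell1_pos (hY y hy)) (ell_pos (hY y hy))
  obtain ⟨L, hL⟩ := hK.bddAbove_image (c1.sup c2)
  refine ⟨min (1/8) (m ^ 2), lt_min (by norm_num) (by positivity), L, fun s hs y hy => ?_⟩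
  have h0 : 0 < s := hs.1
  have h8 : s ≤ 1/8 := hs.2.trans (min_le_left _ _)
  have hm2 : s ≤ m ^ 2 := hs.2.trans (min_le_right _ _)
  have h4 : 0 < s ^ 4 := by positivity
  have h41 : s ^ 4 ≤ 1/4096 := by
    calc s ^ 4 ≤ (1/8) ^ 4 := by gcongr
      _ = _ := by norm_num
  have h42 : s ^ 4 ≤ m ^ 2 :=
    (pow_le_of_le_one h0.le (by linarith) (by norm_num)).trans hm2
  have e1 := Par2_exp hm h4 ((hmin y hy).trans (min_le_left _ _)) h42
  have e2 := Par2_exp hm h4 ((hmin y hy).trans (min_le_right _ _)) h42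
  have p1 := Real.exp_pos (-(ell1 y / s ^ 4))
  have p2 := Real.exp_pos (-(ell y / s ^ 4))
  have hL' : max (ell1 y) (ell y) ≤ L := hL ⟨y, hy, rfl⟩
  have b1 : ee (geo s y) ≤ s ^ 4 := by
    change 1/16 * Real.exp (-(ell1 y / s ^ 4)) ≤ _
    linarith
  have b2 : qq (geo s y) ≤ s ^ 4 := by
    change 1/17 * Real.exp (-(ell y / s ^ 4)) ≤ _
    linarith
  refine ⟨⟨⟨h4, h41.trans (by norm_num)⟩, ⟨?_, b1.trans (h41.trans (by norm_num))⟩,
    ⟨?_, b2.trans h41⟩, (hY y hy).2.2.2.2⟩, b1, b2, ?_, ?_, (le_max_left _ _).trans hL',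
    (le_max_right _ _).trans hL'⟩
  · change 0 < 1/16 * Real.exp (-(ell1 y / s ^ 4))
    positivity
  · change 0 < 1/17 * Real.exp (-(ell y / s ^ 4))
    positivity
  · change s ^ 4 * Real.log (1 / (16 * (1/16 * Real.exp (-(ell1 y / s ^ 4))))) = _
    rw [← mul_assoc, show (16:ℝ) * (1/16) = 1 by norm_num, one_mul, one_div, ← Real.exp_neg,
      Real.log_exp]
    field_simp
  · change s ^ 4 * Real.log (1 / (17 * (1/17 * Real.exp (-(ell y / s ^ 4))))) = _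
    rw [← mul_assoc, show (17:ℝ) * (1/17) = 1 by norm_num, one_mul, one_div, ← Real.exp_neg,
      Real.log_exp]
    field_simp

theorem kap_est {t : ℝ} (h0 : 0 < t) (h1 : t ≤ 1/4) : |kap t - 1| ≤ 4 * t ∧ 1/2 ≤ kap t := by
  have hp := Real.pi_pos
  have hp4 := Real.pi_le_four
  have hx : 0 < Real.pi * t := by positivity
  have hx1 : Real.pi * t ≤ 4 * t := by gcongr
  have hx2 : Real.pi * t ≤ 1 := by linarith
  have a1 := Real.sin_le hx.le
  have a2 := Real.sin_gt_sub_cube hx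
  unfold kap
  generalize Real.pi * t = u at *
  have b1 : Real.sin u / u ≤ 1 := (div_le_one hx).2 a1
  have b2 : 1 - u / 4 ≤ Real.sin u / u := by
    rw [le_div_iff₀ hx]
    have : u ^ 3 ≤ u ^ 2 := pow_le_pow_of_le_one hx.le hx2 (by norm_num)
    nlinarith [sq_nonneg u]
  exact ⟨abs_le.2 ⟨by linarith, by linarith⟩, by linarith⟩

section BigO

open Asymptotics Filter

def Par2_SymL : MW →L[ℂ] MW :=
  ContinuousLinearMap.id ℂ MW + ((prj (Ioi 0)).comp (flat - ContinuousLinearMap.id ℂ MW) +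
    (1/2 : ℂ) • (prj {0}).comp (flat - ContinuousLinearMap.id ℂ MW))
def Par2_tlL : MW →L[ℂ] MW := (1/2 : ℂ) • (ContinuousLinearMap.id ℂ MW - adj)
def Par2_jcL : MC →L[ℂ] ℂ := (1/2 : ℂ) • (entC 1 0 - entC 0 1)

lemma Par2_SymL_apply (e : MW) : Par2_SymL e = SymE e := rfl
lemma Par2_tlL_apply (e : MW) : Par2_tlL e = tl e := rfl
lemma Par2_jcL_apply (a : MC) : Par2_jcL a = jc a := by
  simp only [Par2_jcL, jc, ContinuousLinearMap.smul_apply, ContinuousLinearMap.sub_apply,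
    entC_apply, smul_eq_mul]
  ring

lemma Par2_jc_nilM (κ : ℂ) (ψ : ℝ) : jc (nilM κ ψ) = κ / 2 := by
  simp [jc, nilM, sJ, s3, s1]; ring
lemma Par2_jc_sub (a b : MC) : jc (a - b) = jc a - jc b := by
  simp only [jc, Matrix.sub_apply]; ring
lemma Par2_nilM_sub (κ κ' : ℂ) (ψ : ℝ) : nilM κ ψ - nilM κ' ψ = nilM (κ - κ') ψ := by
  rw [nilM, nilM, nilM, ← sub_smul, sub_div]
lemma Par2_nilmu (κ μ : ℂ) (ψ : ℝ) :
    nilmu κ μ ψ = nilM κ ψ + μ • ((Real.sin ψ : ℂ) • s3 - (Real.cos ψ : ℂ) • s1) := by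
  rw [nilmu, nilM, add_smul, add_sub_assoc sJ, smul_add, add_assoc]

variable {ι : Type} {l : Filter ι} {g : ι → ℝ}

lemma Par2_one {E : Type} [NormedAddCommGroup E] (c : E) :
    (fun _ : ι => c) =O[l] (fun _ => (1:ℝ)) := isBigO_const_const c one_ne_zero l

lemma Par2_smul_r {E : Type} [NormedAddCommGroup E] [NormedSpace ℂ E] {c : ι → ℂ} {f : ι → E}
    (hc : c =O[l] g) (hf : f =O[l] (fun _ => (1:ℝ))) : (fun z => c z • f z) =O[l] g := by
  have := hc.norm_left.mul hf.norm_left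
  simp only [mul_one, ← norm_smul] at this
  exact this.of_norm_left

lemma Par2_mul_r {E : Type} [NormedRing E] {c f : ι → E}
    (hc : c =O[l] g) (hf : f =O[l] (fun _ => (1:ℝ))) : (fun z => c z * f z) =O[l] g := by
  simpa only [mul_one] using hc.mul hf

lemma Par2_mul_l {E : Type} [NormedRing E] {c f : ι → E}
    (hc : c =O[l] (fun _ => (1:ℝ))) (hf : f =O[l] g) : (fun z => c z * f z) =O[l] g := by
  simpa only [one_mul] using hc.mul hf

lemma Par2_real {c : ι → ℝ} (hc : c =O[l] g) : (fun z => (c z : ℂ)) =O[l] g := by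
  refine IsBigO.of_norm_left ?_
  simpa only [norm_real] using hc.norm_left

lemma Par2_trig (ψ : ι → ℝ) :
    (fun z => (Real.sin (ψ z) : ℂ) • s3 - (Real.cos (ψ z) : ℂ) • s1) =O[l] (fun _ => (1:ℝ)) := by
  refine IsBigO.sub (Par2_smul_r (Par2_real ?_) (Par2_one _))
    (Par2_smul_r (Par2_real ?_) (Par2_one _))
  · exact IsBigO.of_norm_le fun z => by simpa using Real.abs_sin_le_one _
  · exact IsBigO.of_norm_le fun z => by simpa using Real.abs_cos_le_one _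

lemma Par2_nilM {κ κ' : ι → ℂ} (ψ : ι → ℝ) (h : (fun z => κ z - κ' z) =O[l] g) :
    (fun z => nilM (κ z) (ψ z) - nilM (κ' z) (ψ z)) =O[l] g := by
  simp only [Par2_nilM_sub]
  simp only [nilM, add_sub_assoc]
  refine Par2_smul_r ?_ ((Par2_one _).add (Par2_trig ψ))
  simpa only [div_eq_mul_inv] using Par2_mul_r h (Par2_one (2⁻¹ : ℂ))

lemma Par2_build {e : ι → MW} {a a' S S' : ι → MC} (he : e =O[l] g)
    (ha : (fun z => a z - a' z) =O[l] g) (hS : (fun z => S z - S' z) =O[l] g) :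
    (fun z => build (e z) (a z) (S z) - build 0 (a' z) (S' z)) =O[l] g := by
  obtain ⟨C, hC⟩ := norm_build_sub
  exact (IsBigO.of_norm_le fun z => hC (e z) (a z) (a' z) (S z) (S' z)).trans
    (((he.norm_left.add ha.norm_left).add hS.norm_left).const_mul_left C)

/-- the parameter domain -/
def Par2_T (K : Set Y8) : Set (ℝ × Par × EE) :=
  {z | z.1 ∈ Ioc (0:ℝ) (1/2) ∧ z.2.1 ∈ Box K ∧ ‖z.2.2‖ ≤ 1}

lemma Par2_pow (K : Set Y8) {n m : ℕ} (h : m ≤ n) :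
    (fun z : ℝ × Par × EE => z.1 ^ n) =O[𝓟 (Par2_T K)] fun z => z.1 ^ m := by
  refine IsBigO.of_bound 1 (eventually_principal.2 fun z hz => ?_)
  have h0 := hz.1.1
  rw [one_mul, Real.norm_of_nonneg (by positivity), Real.norm_of_nonneg (by positivity)]
  exact pow_le_pow_of_le_one h0.le (hz.1.2.trans (by norm_num)) h

lemma Par2_bd {K : Set Y8} (hK : IsCompact K) {E : Type} [NormedAddCommGroup E] {f : Y8 → E}
    (hf : ContinuousOn f K) :
    (fun z : ℝ × Par × EE => f z.2.1.1) =O[𝓟 (Par2_T K)] fun _ => (1:ℝ) := by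
  obtain ⟨C, hC⟩ := hK.exists_bound_of_continuousOn hf
  exact IsBigO.of_bound C (eventually_principal.2 fun z hz => by simpa using hC _ hz.2.1.1)

lemma Par2_congr {ι E : Type} [NormedAddCommGroup E] {T : Set ι} {f f' : ι → E} {g : ι → ℝ}
    (h : f =O[𝓟 T] g) (e : ∀ z ∈ T, f' z = f z) : f' =O[𝓟 T] g :=
  h.congr' (eventually_principal.2 fun z hz => (e z hz).symm) EventuallyEq.rfl

lemma Par2_ev {K : Set Y8} {E : Type} [NormedAddCommGroup E] {f : ℝ × Par × EE → E} {n : ℕ}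
    (h : f =O[𝓟 (Par2_T K)] fun z => z.1 ^ n) :
    ∀ᶠ C : ℝ in atTop, ∀ z ∈ Par2_T K, ‖f z‖ ≤ C * z.1 ^ n := by
  filter_upwards [isBigO_iff_eventually.1 h] with C hC z hz
  have := eventually_principal.1 hC z hz
  have h0 := hz.1.1
  rwa [Real.norm_of_nonneg (by positivity : 0 ≤ z.1 ^ n)] at this

lemma Par2_er (K : Set Y8) (i : Fin 4) :
    (fun z : ℝ × Par × EE => er z.1 z.2.2 i) =O[𝓟 (Par2_T K)] fun z => sc z.1 i := by
  refine (Par2_tlL.isBigO_comp (fun z : ℝ × Par × EE => (sc z.1 i : ℂ) • z.2.2.1 i) _).trans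
    (Par2_smul_r (Par2_real (isBigO_refl _ _)) ?_)
  refine IsBigO.of_bound 1 (eventually_principal.2 fun z hz => ?_)
  have := ((norm_le_pi_norm z.2.2.1 i).trans (norm_fst_le z.2.2)).trans hz.2.2
  simpa using this

lemma Par2_jj {ι : Type} {l : Filter ι} {g : ι → ℝ} {e : ι → MW} (h : e =O[l] g) :
    (fun z => jc (J1 (SymE (e z)))) =O[l] g := by
  simpa only [ContinuousLinearMap.comp_apply, Par2_jcL_apply, Par2_SymL_apply] using
    ((Par2_jcL.comp (J1.comp Par2_SymL)).isBigO_comp e l).trans h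

lemma Par2_J2 {ι : Type} {l : Filter ι} {g : ι → ℝ} {e : ι → MW} (h : e =O[l] g) :
    (fun z => J2 (SymE (e z)) 0 0) =O[l] g :=
  (((entC 0 0).comp (J2.comp Par2_SymL)).isBigO_comp e l).trans h

lemma Par2_be (K : Set Y8) :
    (fun z : ℝ × Par × EE => be z.1 z.2.1 - 1/2) =O[𝓟 (Par2_T K)] fun z => z.1 ^ 2 := by
  refine IsBigO.of_bound 1 (eventually_principal.2 fun z hz => ?_)
  rw [be, add_sub_cancel_left, norm_mul, one_mul]
  exact mul_le_of_le_one_right (norm_nonneg _) hz.2.1.2.1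

lemma Par2_s4 {K : Set Y8} {z : ℝ × Par × EE} (hz : z ∈ Par2_T K) :
    0 < z.1 ^ 4 ∧ z.1 ^ 4 ≤ 1/4 := by
  have h0 := hz.1.1
  have h1 := hz.1.2
  refine ⟨by positivity, ?_⟩
  calc z.1 ^ 4 ≤ (1/2) ^ 4 := by gcongr
    _ ≤ _ := by norm_num

lemma Par2_kap (K : Set Y8) :
    (fun z : ℝ × Par × EE => kap (z.1 ^ 4) - 1) =O[𝓟 (Par2_T K)] fun z => z.1 ^ 4 := by
  refine IsBigO.of_bound 4 (eventually_principal.2 fun z hz => ?_)
  rw [Real.norm_of_nonneg (Par2_s4 hz).1.le]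
  exact (kap_est (Par2_s4 hz).1 (Par2_s4 hz).2).1

lemma Par2_kap_inv (K : Set Y8) :
    (fun z : ℝ × Par × EE => (kap (z.1 ^ 4))⁻¹) =O[𝓟 (Par2_T K)] fun _ => (1:ℝ) := by
  refine IsBigO.of_bound 2 (eventually_principal.2 fun z hz => ?_)
  have := (kap_est (Par2_s4 hz).1 (Par2_s4 hz).2).2
  rw [norm_one, mul_one, Real.norm_of_nonneg (by positivity), inv_le_comm₀ (by linarith) two_pos]
  linarith

lemma Par2_S10 (K : Set Y8) :
    (fun z : ℝ × Par × EE => S10 z.1 - (((-1 : ℝ) : ℂ) / 2) • s3) =O[𝓟 (Par2_T K)]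
      fun z => z.1 ^ 4 := by
  refine (Par2_smul_r (Par2_real ((Par2_kap K).const_mul_left (-1/2))) (Par2_one s3)).congr_left
    fun z => ?_
  rw [S10, ← sub_smul]
  congr 1
  push_cast; ring

lemma Par2_A10 : A10 = build 0 ((-1/4 : ℂ) • s3 + (-1/4 : ℂ) • sJ) ((((-1 : ℝ) : ℂ) / 2) • s3) := by
  rw [build_zero, A10]
  congr 1
  simp only [nilM, Real.sin_pi_div_two, Real.cos_pi_div_two, ofReal_one, ofReal_zero, one_smul,
    zero_smul, sub_zero, smul_add]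
  rw [add_comm]
  norm_num

lemma Par2_A1p (K : Set Y8) :
    (fun z : ℝ × Par × EE => A1p z.1 z.2.1 z.2.2 - A10) =O[𝓟 (Par2_T K)] fun z => z.1 ^ 2 := by
  have e0 : (fun z : ℝ × Par × EE => er z.1 z.2.2 0) =O[𝓟 (Par2_T K)] fun z => z.1 ^ 2 :=
    (Par2_er K 0).trans (Par2_pow K (show 2 ≤ 3 by norm_num))
  have hb := Par2_be K
  have hb1 : (fun z : ℝ × Par × EE => be z.1 z.2.1 + 1/2) =O[𝓟 (Par2_T K)] fun _ => (1:ℝ) := by
    have := (hb.trans (Par2_pow K (Nat.zero_le 2))).add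
      ((Par2_one (1:ℝ)).congr_right fun z => (pow_zero z.1).symm)
    simp only [pow_zero] at this
    exact this.congr_left fun z => by ring
  have hk := (Par2_kap K).trans (Par2_pow K (show 2 ≤ 4 by norm_num))
  have h1 := Par2_real (Par2_mul_r ((hk.const_mul_left (1/4)).sub (Par2_mul_r hb hb1))
    (Par2_kap_inv K))
  have h2 := h1.sub ((Par2_J2 e0).const_mul_left (1/2))
  have h3 := ((Par2_jj e0).sub (Par2_real hb)).const_mul_left (1/2)
  have h4 := (Par2_smul_r h2 (Par2_one s3)).add (Par2_smul_r h3 (Par2_one sJ))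
  rw [Par2_A10]
  refine Par2_build e0 (Par2_congr h4 fun z hz => ?_)
    ((Par2_S10 K).trans (Par2_pow K (show 2 ≤ 4 by norm_num)))
  have hk0 : ((kap (z.1 ^ 4) : ℝ) : ℂ) ≠ 0 :=
    ofReal_ne_zero.2 (by linarith [(kap_est (Par2_s4 hz).1 (Par2_s4 hz).2).2])
  rw [add_sub_add_comm, ← sub_smul, ← sub_smul, jj]
  congr 2
  · push_cast; field_simp; ring
  · push_cast; ring

lemma Par2_Al2 (y : Y8) : Al y 2 = Bi (H0 y) * zeta 1 (nilM (rho y) (y 1)) * Bm (H0 y) := by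
  have e1 : sg5 2 = 1 := rfl
  have e2 : av y 2 = nilv (rho y) (y 1) := rfl
  rw [Al, e1, e2, mat_nilv]

lemma Par2_Al3 (y : Y8) :
    Al y 3 = Bi (H0 y) * zeta (-1) (nilM (-rho y : ℝ) (y 2)) * Bm (H0 y) := by
  have e1 : sg5 3 = -1 := rfl
  have e2 : av y 3 = nilv (-rho y) (y 2) := rfl
  rw [Al, e1, e2, mat_nilv]

lemma Par2_zeta0 (a : MC) : zeta 0 a = build 0 a 0 := by
  rw [← build_zero, ofReal_zero, zero_div, zero_smul]

lemma Par2_alZ0 (s : ℝ) (p : Par) (x : EE) :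
    alZ s p x 0 = build (er s x 1) (cf (-1) (al1 s p x) + a2 s p x) 0 := rfl
lemma Par2_alZ1 (s : ℝ) (p : Par) (x : EE) :
    alZ s p x 1 = build (er s x 2) (-a4 s p x - a3 s p x) 0 := rfl

lemma Par2_alg (B C u v a b : MW) :
    B * (u - (a + b) - (v - a)) * C = B * (u - v) * C - B * b * C := by
  rw [← sub_mul, ← mul_sub, show u - (a + b) - (v - a) = u - v - b by abel]

lemma Par2_alg' (B C u v a b : MW) :
    B * (u - (a + b) - (v - b)) * C = B * (u - v) * C - B * a * C := by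
  rw [← sub_mul, ← mul_sub, show u - (a + b) - (v - b) = u - v - a by abel]

section main
variable {K : Set Y8} (hK : IsCompact K) (hY : ∀ y ∈ K, Yadm y)
include hK hY

lemma Par2_conj {g : ℝ × Par × EE → ℝ} {f : ℝ × Par × EE → MW} (h : f =O[𝓟 (Par2_T K)] g) :
    (fun z => Bi (H0 z.2.1.1) * f z * Bm (H0 z.2.1.1)) =O[𝓟 (Par2_T K)] g :=
  Par2_mul_r (Par2_mul_l (Par2_bd hK (co_Bi0.mono hY)) h) (Par2_bd hK (co_Bm0.mono hY))

lemma Par2_k4 : (fun z : ℝ × Par × EE => k4 z.1 z.2.1 z.2.2 - rho z.2.1.1) =O[𝓟 (Par2_T K)]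
    fun z => z.1 ^ 1 := by
  have h1 := Par2_real ((Par2_be K).trans (Par2_pow K (show 1 ≤ 2 by norm_num)))
  have h2 := Par2_mul_r (Par2_real ((Par2_kap K).trans (Par2_pow K (show 1 ≤ 4 by norm_num))))
    (((entC 0 1).isBigO_comp _ _).trans (Par2_bd hK (co_sym0.mono hY)))
  have h3 := (Par2_jj (Par2_er K 3)).congr_right fun z => (pow_one z.1).symm
  refine Par2_congr ((h1.add h2).sub h3) fun z hz => ?_
  obtain ⟨c, hc⟩ := symM_H0 (hY _ hz.2.1.1)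
  have e : symM (H0 z.2.1.1) 0 1 = rho z.2.1.1 - 1/2 := by
    rw [hc]; simp [s1, s3]
  rw [k4, jj, entC_apply, e]
  push_cast; ring

lemma Par2_al1 : (fun z : ℝ × Par × EE => al1 z.1 z.2.1 z.2.2 -
    zeta (-1) (nilM (-rho z.2.1.1 : ℝ) (z.2.1.1 0))) =O[𝓟 (Par2_T K)] fun z => z.1 ^ 1 := by
  have h := Par2_mul_r (Par2_mul_l (Par2_bd hK (co_Bm0.mono hY))
    ((Par2_A1p K).trans (Par2_pow K (show 1 ≤ 2 by norm_num)))) (Par2_bd hK (co_Bi0.mono hY))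
  refine Par2_congr h fun z hz => ?_
  rw [← H0_conj (hY _ hz.2.1.1), al1, mul_sub, sub_mul]

lemma Par2_a4 : (fun z : ℝ × Par × EE => a4 z.1 z.2.1 z.2.2 - nilM (rho z.2.1.1) (z.2.1.1 3))
    =O[𝓟 (Par2_T K)] fun z => z.1 ^ 1 := by
  have h1 : (fun z : ℝ × Par × EE => z.1 * z.2.1.2.2) =O[𝓟 (Par2_T K)] fun z => z.1 ^ 1 := by
    refine IsBigO.of_bound 1 (eventually_principal.2 fun z hz => ?_)
    rw [pow_one, one_mul, norm_mul]
    exact mul_le_of_le_one_right (norm_nonneg _) hz.2.1.2.2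
  refine ((Par2_nilM (fun z => z.2.1.1 3) (Par2_k4 hK hY)).add
    (Par2_smul_r (Par2_real h1) (Par2_trig fun z => z.2.1.1 3))).congr_left fun z => ?_
  rw [a4, Par2_nilmu]; abel

lemma Par2_alZ2 : (fun z : ℝ × Par × EE => alZ z.1 z.2.1 z.2.2 2 -
    zeta (-1) (-nilM (rho z.2.1.1) (z.2.1.1 3))) =O[𝓟 (Par2_T K)] fun z => z.1 ^ 1 := by
  simp only [← build_zero]
  refine Par2_build ((Par2_er K 3).congr_right fun z => (pow_one z.1).symm)
    ((Par2_a4 hK hY).neg_left.congr_left fun z => by abel)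
    ((Par2_S10 K).trans (Par2_pow K (show 1 ≤ 4 by norm_num)))

lemma Par2_Z4 : (fun z : ℝ × Par × EE => Z4 z.1 z.2.1 z.2.2 - Z40 z.2.1.1) =O[𝓟 (Par2_T K)]
    fun z => z.1 ^ 1 := by
  refine (Par2_conj hK hY (Par2_alZ2 hK hY)).congr_left fun z => ?_
  rw [zeta_neg, Z4, Z40, mul_sub, sub_mul, mul_neg, neg_mul]

lemma Par2_A2p : (fun z : ℝ × Par × EE => A2p z.1 z.2.1 z.2.2 - Al z.2.1.1 2) =O[𝓟 (Par2_T K)]
    fun z => z.1 ^ 1 := by
  have h1 : (fun z : ℝ × Par × EE => cf (-1) (al1 z.1 z.2.1 z.2.2) -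
      nilM (-rho z.2.1.1 : ℝ) (z.2.1.1 0)) =O[𝓟 (Par2_T K)] fun z => z.1 ^ 1 :=
    (((cf (-1)).isBigO_comp _ _).trans (Par2_al1 hK hY)).congr_left fun z => by
      rw [map_sub, cf_zeta]
  have h2 := ((Par2_jj (Par2_er K 1)).congr_right fun z => (pow_one z.1).symm).sub
    (((Par2_jcL.isBigO_comp _ _).trans h1).const_mul_left 2)
  have h3 : (fun z : ℝ × Par × EE => a2 z.1 z.2.1 z.2.2 - nilM (rho z.2.1.1) (z.2.1.1 1))
      =O[𝓟 (Par2_T K)] fun z => z.1 ^ 1 := by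
    simp only [a2]
    refine Par2_nilM _ (h2.congr_left fun z => ?_)
    rw [Par2_jcL_apply, Par2_jc_sub, Par2_jc_nilM, jj]; push_cast; ring
  have h4 : (fun z : ℝ × Par × EE => alZ z.1 z.2.1 z.2.2 0 - zeta 0
      (nilM (-rho z.2.1.1 : ℝ) (z.2.1.1 0) + nilM (rho z.2.1.1) (z.2.1.1 1)))
      =O[𝓟 (Par2_T K)] fun z => z.1 ^ 1 := by
    simp only [Par2_zeta0, Par2_alZ0]
    refine Par2_build ((Par2_er K 1).congr_right fun z => (pow_one z.1).symm)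
      ((h1.add h3).congr_left fun z => (add_sub_add_comm _ _ _ _).symm) ?_
    simp only [sub_zero]
    exact isBigO_zero _ _
  refine (Par2_conj hK hY (h4.sub (Par2_al1 hK hY))).congr_left fun z => ?_
  have e := zeta_add (-1) 1 (nilM (-rho z.2.1.1 : ℝ) (z.2.1.1 0)) (nilM (rho z.2.1.1) (z.2.1.1 1))
  rw [neg_add_cancel] at e
  rw [e, Par2_Al2, A2p, Par2_alg]

lemma Par2_A3p : (fun z : ℝ × Par × EE => A3p z.1 z.2.1 z.2.2 - Al z.2.1.1 3) =O[𝓟 (Par2_T K)]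
    fun z => z.1 ^ 1 := by
  have h2 := (Par2_k4 hK hY).neg_left.sub
    ((Par2_jj (Par2_er K 2)).congr_right fun z => (pow_one z.1).symm)
  have h3 : (fun z : ℝ × Par × EE => a3 z.1 z.2.1 z.2.2 - nilM (-rho z.2.1.1 : ℝ) (z.2.1.1 2))
      =O[𝓟 (Par2_T K)] fun z => z.1 ^ 1 := by
    simp only [a3]
    refine Par2_nilM _ (h2.congr_left fun z => ?_)
    rw [jj]; push_cast; ring
  have h4 : (fun z : ℝ × Par × EE => alZ z.1 z.2.1 z.2.2 1 - zeta 0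
      (-nilM (rho z.2.1.1) (z.2.1.1 3) - nilM (-rho z.2.1.1 : ℝ) (z.2.1.1 2)))
      =O[𝓟 (Par2_T K)] fun z => z.1 ^ 1 := by
    simp only [Par2_zeta0, Par2_alZ1]
    refine Par2_build ((Par2_er K 2).congr_right fun z => (pow_one z.1).symm)
      (((Par2_a4 hK hY).neg_left.sub h3).congr_left fun z => by abel) ?_
    simp only [sub_zero]
    exact isBigO_zero _ _
  refine (Par2_conj hK hY ((Par2_alZ2 hK hY).sub h4)).congr_left fun z => ?_
  have e := zeta_add (-1) 0 (nilM (-rho z.2.1.1 : ℝ) (z.2.1.1 2))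
    (-nilM (rho z.2.1.1) (z.2.1.1 3) - nilM (-rho z.2.1.1 : ℝ) (z.2.1.1 2))
  rw [add_zero, add_sub_cancel] at e
  rw [e, Par2_Al3, A3p, Par2_alg']

omit hK hY in
lemma Par2_zero {E : Type} [NormedAddCommGroup E] {f : ℝ × Par × EE → E}
    (h : f =O[𝓟 (Par2_T K)] fun _ => (1:ℝ)) : f =O[𝓟 (Par2_T K)] fun z => z.1 ^ 0 :=
  h.congr_right fun z => (pow_zero z.1).symm

omit hK hY in
lemma Par2_near {f f' : ℝ × Par × EE → MW} {n : ℕ}
    (h : (fun z => f z - f' z) =O[𝓟 (Par2_T K)] fun z => z.1 ^ n)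
    (h' : f' =O[𝓟 (Par2_T K)] fun _ => (1:ℝ)) : f =O[𝓟 (Par2_T K)] fun z => z.1 ^ 0 :=
  ((h.trans (Par2_pow K (Nat.zero_le n))).add (Par2_zero h')).congr_left fun z => by abel

lemma Par2_AA : ∀ᶠ C : ℝ in atTop, ∀ z ∈ Par2_T K, ∀ RG Rm : ℝ, 0 ≤ RG →
    ‖AA (dat z.1 RG Rm z.2.1 z.2.2)‖ ≤ C * (1 + RG ^ 2) := by
  obtain ⟨D, hD0, h1, h2, h3, h4⟩ := ((eventually_ge_atTop 0).and
    ((Par2_ev (Par2_near (Par2_A1p K) (Par2_one A10))).and
    ((Par2_ev (Par2_near (Par2_A2p hK hY) (Par2_bd hK ((co_Al 2).mono hY)))).and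
    ((Par2_ev (Par2_near (Par2_A3p hK hY) (Par2_bd hK ((co_Al 3).mono hY)))).and
    (Par2_ev (Par2_near (Par2_Z4 hK hY) (Par2_bd hK (co_Z40.mono hY)))))))).exists
  filter_upwards [eventually_ge_atTop (4 * D)] with C hC z hz RG Rm hRG
  have b1 := h1 z hz
  have b2 := h2 z hz
  have b3 := h3 z hz
  have b4 := h4 z hz
  simp only [pow_zero, mul_one] at b1 b2 b3 b4
  have hg : ‖(RG : ℂ) • z.2.2.2.1‖ ≤ RG := by
    rw [norm_smul, norm_real, Real.norm_of_nonneg hRG]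
    exact mul_le_of_le_one_right hRG
      (((norm_fst_le z.2.2.2).trans (norm_snd_le z.2.2)).trans hz.2.2)
  have b0 : ‖A0p z.1 RG z.2.1 z.2.2‖ ≤ 2 * D * RG ^ 2 := by
    have hg2 := (norm_adj_le ((RG : ℂ) • z.2.2.2.1)).trans
      (mul_le_mul_of_nonneg_left hg zero_le_two)
    calc _ ≤ ‖(RG : ℂ) • z.2.2.2.1‖ * ‖Z4 z.1 z.2.1 z.2.2‖ * ‖adj ((RG : ℂ) • z.2.2.2.1)‖ :=
          (norm_mul_le _ _).trans (mul_le_mul_of_nonneg_right (norm_mul_le _ _) (norm_nonneg _))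
      _ ≤ RG * D * (2 * RG) := by gcongr
      _ = _ := by ring
  have hR : 0 ≤ D * RG ^ 2 := by positivity
  have hC' : 4 * D * (1 + RG ^ 2) ≤ C * (1 + RG ^ 2) := by gcongr
  refine le_trans ((pi_norm_le_iff_of_nonneg (by positivity)).2 fun j => ?_) hC'
  fin_cases j
  · exact b0.trans (by nlinarith)
  · exact b1.trans (by nlinarith)
  · exact b2.trans (by nlinarith)
  · exact b3.trans (by nlinarith)
  · change ‖Z4 z.1 z.2.1 z.2.2 - A0p z.1 RG z.2.1 z.2.2 - A1p z.1 z.2.1 z.2.2 -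
      A2p z.1 z.2.1 z.2.2 - A3p z.1 z.2.1 z.2.2‖ ≤ _
    have := (norm_sub_le _ _).trans (add_le_add ((norm_sub_le _ _).trans (add_le_add
      ((norm_sub_le _ _).trans (add_le_add ((norm_sub_le _ _).trans (add_le_add b4 b0)) b1)) b2)) b3)
    exact this.trans (by nlinarith)

end main

end BigO

theorem par_est {K : Set Y8} (hK : IsCompact K) (hY : ∀ y ∈ K, Yadm y) : ∃ C : ℝ, 0 ≤ C ∧
    ∀ s ∈ Ioc (0:ℝ) (1/2), ∀ p ∈ Box K, ∀ x : EE, ‖x‖ ≤ 1 →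
      ‖A1p s p x - A10‖ ≤ C * s ^ 2 ∧ ‖A2p s p x - Al p.1 2‖ ≤ C * s ∧
      ‖A3p s p x - Al p.1 3‖ ≤ C * s ∧ ‖Z4 s p x - Z40 p.1‖ ≤ C * s ∧
      ‖k4 s p x - rho p.1‖ ≤ C * s ∧ ‖jj s x 0‖ ≤ C * s ^ 3 ∧
      ‖J2 (SymE (er s x 0)) 0 0‖ ≤ C * s ^ 3 ∧
      (∀ RG Rm : ℝ, 0 ≤ RG → ‖AA (dat s RG Rm p x)‖ ≤ C * (1 + RG ^ 2)) ∧
      ‖A10‖ ≤ C ∧ ‖Z40 p.1‖ ≤ C ∧ ‖H0 p.1‖ ≤ C ∧ ‖Uf (H0 p.1)‖ ≤ C ∧ ‖Bm (H0 p.1)‖ ≤ C ∧
      ‖Bi (H0 p.1)‖ ≤ C ∧ ‖G0 p.1‖ ≤ C := by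
  have e0 : (fun z : ℝ × Par × EE => er z.1 z.2.2 0) =O[Filter.principal (Par2_T K)]
      fun z => z.1 ^ 3 := Par2_er K 0
  obtain ⟨C, h⟩ := Filter.Eventually.exists <|
      (Filter.eventually_ge_atTop 0).and <| (Par2_ev (Par2_A1p K)).and <|
      (Par2_ev (Par2_A2p hK hY)).and <| (Par2_ev (Par2_A3p hK hY)).and <|
      (Par2_ev (Par2_Z4 hK hY)).and <| (Par2_ev (Par2_k4 hK hY)).and <|
      (Par2_ev (Par2_jj e0)).and <| (Par2_ev (Par2_J2 e0)).and <| (Par2_AA hK hY).and <|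
      (Filter.eventually_ge_atTop ‖A10‖).and <|
      (Par2_ev (Par2_zero (Par2_bd hK (co_Z40.mono hY)))).and <|
      (Par2_ev (Par2_zero (Par2_bd hK (co_H0.mono hY)))).and <|
      (Par2_ev (Par2_zero (Par2_bd hK (co_U0.mono hY)))).and <|
      (Par2_ev (Par2_zero (Par2_bd hK (co_Bm0.mono hY)))).and <|
      (Par2_ev (Par2_zero (Par2_bd hK (co_Bi0.mono hY)))).and
      (Par2_ev (Par2_zero (Par2_bd hK (co_G0.mono hY))))
  obtain ⟨h0, h1, h2, h3, h4, h5, h6, h7, h8, h9, h10, h11, h12, h13, h14, h15⟩ := h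
  refine ⟨C, h0, fun s hs p hp x hx => ?_⟩
  have hz : (s, p, x) ∈ Par2_T K := ⟨hs, hp, hx⟩
  specialize h1 _ hz
  specialize h2 _ hz
  specialize h3 _ hz
  specialize h4 _ hz
  specialize h5 _ hz
  specialize h6 _ hz
  specialize h7 _ hz
  specialize h8 _ hz
  specialize h10 _ hz
  specialize h11 _ hz
  specialize h12 _ hz
  specialize h13 _ hz
  specialize h14 _ hz
  specialize h15 _ hz
  dsimp only at h1 h2 h3 h4 h5 h6 h7 h8 h10 h11 h12 h13 h14 h15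
  rw [pow_one] at h2 h3 h4 h5
  rw [pow_zero, mul_one] at h10 h11 h12 h13 h14 h15
  unfold jj
  exact ⟨h1, h2, h3, h4, h5, h6, h7, h8, h9, h10, h11, h12, h13, h14, h15⟩

end Pool.Agent.MP_efb2da_gt
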