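import Pool.Agent.MP_efb2da_gt.Ref1
import Pool.Agent.MP_efb2da_gt.Pot1

open Set Complex
open scoped Topology ComplexConjugate Matrix ContDiff

noncomputable section

namespace Pool.Agent.MP_efb2da_gt

open Classical in
lemma ParA_cf_prj (S : Set ℤ) (n : ℤ) (M : MW) :
    cf n (prj S M) = if n ∈ S then cf n M else 0 := by
  ext i j
  rw [cf_apply, prj_apply, W.coef_proj]
  split_ifs <;> rfl

lemma ParA_trp_trp (M : MC) : trpC (trpC M) = M := by
  ext i j; simp

lemma ParA_cf_pos (e : MW) {n : ℤ} (hn : 0 < n) :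
    cf n (Pos e) = trpC (cf (-n) e) - cf n e := by
  rw [Pos, map_add, map_smul, ParA_cf_prj, ParA_cf_prj, if_pos (mem_Ioi.2 hn),
    if_neg (fun h => hn.ne' (mem_singleton_iff.1 h)), smul_zero, add_zero, map_sub, cf_flat]

lemma ParA_cf_zero (e : MW) : cf 0 (Pos e) = (1/2 : ℂ) • (trpC (cf 0 e) - cf 0 e) := by
  rw [Pos, map_add, map_smul, ParA_cf_prj, ParA_cf_prj, if_neg (fun h => lt_irrefl _ (mem_Ioi.1 h)),
    if_pos (mem_singleton _), zero_add, map_sub, cf_flat, neg_zero]

lemma ParA_cf_neg (e : MW) {n : ℤ} (hn : n < 0) : cf n (Pos e) = 0 := by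
  rw [Pos, map_add, map_smul, ParA_cf_prj, ParA_cf_prj, if_neg (fun h => hn.not_gt (mem_Ioi.1 h)),
    if_neg (fun h => hn.ne (mem_singleton_iff.1 h)), smul_zero, add_zero]

theorem Pos_ge (e : MW) : MGE 0 (Pos e) := MGE_iff.2 fun _ hn => ParA_cf_neg e hn

theorem flat_SymE (e : MW) : flat (SymE e) = SymE e := by
  refine MW_ext fun n => ?_
  rw [cf_flat, SymE, map_add (cf (-n)), map_add (cf n)]
  rcases lt_trichotomy n 0 with h | rfl | h
  · rw [ParA_cf_neg e h, ParA_cf_pos e (neg_pos.2 h), neg_neg, add_sub_cancel, ParA_trp_trp,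
      add_zero]
  · rw [neg_zero, ParA_cf_zero, map_add, map_smul, map_sub, ParA_trp_trp]
    module
  · rw [ParA_cf_pos e h, ParA_cf_neg e (neg_neg_of_pos h), add_zero, add_sub_cancel]

lemma ParA_anti (x : MC) : x - trpC x = (2 * jc x) • sJ := by
  ext i j
  fin_cases i <;> fin_cases j <;> simp [jc, sJ] <;> ring

theorem J1_SymE (e : MW) : J1 (SymE e) = jc (J1 (SymE e)) • sJ := by
  have h := J1_flat (SymE e)
  rw [flat_SymE] at h
  have h2 := ParA_anti (J1 (SymE e))
  rw [sub_eq_add_neg, ← h, ← two_smul ℂ, mul_smul] at h2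
  exact smul_right_injective MC (two_ne_zero (α := ℂ)) h2

theorem tl_tr (e : MW) : trW (tl e) = 0 := by
  rw [tl, map_smul, map_sub, trW_adj, sub_self, smul_zero]

theorem tl_of_tr {e : MW} (h : trW e = 0) : tl e = e := by
  rw [tl, adj_of_tr h]
  module

theorem build_ge (e : MW) (a S0 : MC) : MGE (-1) (build e a S0) :=
  ((((Pos_ge e).weaken (by norm_num)).add (MGE_mono _ _)).add
    ((MGE_mono _ _).weaken (by norm_num))).add ((MGE_cst _).weaken (by norm_num))

theorem cf_build (e : MW) (a S0 : MC) : cf (-1) (build e a S0) = a := by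
  rw [build, map_add, map_add, map_add, ParA_cf_neg e (by norm_num), cf_mono, cf_mono, cf_cst,
    if_pos rfl, if_neg (by norm_num), if_neg (by norm_num), zero_add, add_zero, add_zero]

lemma ParA_tr_prj (S : Set ℤ) (M : MW) : trW (prj S M) = W.proj S (trW M) := by
  simp [trW_apply]

lemma ParA_tr_mono (n : ℤ) (M : MC) : trW (mono n M) = trC M • W.mon n := by
  simp [trW_apply, trC_apply, add_smul]

lemma ParA_tr_cst (M : MC) : trW (cst M) = algebraMap ℂ W (trC M) := by
  simp [trW_apply, trC_apply]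

lemma ParA_tr_trp (M : MC) : trC (trpC M) = trC M := by
  simp [trC_apply]

lemma ParA_tr_J0 (M : MW) : trC (J0 M) = W.j0 (trW M) := by
  simp [trW_apply, trC_apply]

lemma ParA_tr_Pos {e : MW} (he : trW e = 0) : trW (Pos e) = 0 := by
  rw [Pos, map_add, map_smul, ParA_tr_prj, ParA_tr_prj, map_sub, trW_flat, he]
  simp

theorem build_tr {e : MW} {a S0 : MC} (he : trW e = 0) (ha : trC a = 0) (hS : trC S0 = 0) :
    trW (build e a S0) = 0 := by
  rw [build, map_add, map_add, map_add, ParA_tr_Pos he, ParA_tr_mono, ParA_tr_mono, ParA_tr_cst,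
    map_sub trC, map_sub trC, map_sub trC, ParA_tr_trp, ParA_tr_J0, SymE, map_add, ParA_tr_Pos he, he, ha, hS]
  simp

lemma ParA_cj_trp (M : MC) : cjC (trpC M) = trpC (cjC M) := by
  ext i j; simp

lemma ParA_sharp_Pos {e : MW} (he : sharp e = e) : sharp (Pos e) = Pos e := by
  rw [Pos, map_add, sharp_smul, sharp_prj, sharp_prj, map_sub, sharp_flat, he]
  rw [show conj (1/2 : ℂ) = 1/2 by rw [map_div₀, map_one, map_ofNat]]

theorem build_real {e : MW} {a S0 : MC} (he : sharp e = e) (ha : cjC a = a) (hS : cjC S0 = S0) :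
    sharp (build e a S0) = build e a S0 := by
  have h : sharp (SymE e) = SymE e := by rw [SymE, map_add, he, ParA_sharp_Pos he]
  rw [build, map_add, map_add, map_add, ParA_sharp_Pos he, sharp_mono, sharp_mono, sharp_cst,
    map_sub cjC, map_sub cjC, map_sub cjC, ParA_cj_trp, ← J0_sharp, h, ha, hS]

lemma ParA_build_add (e : MW) (a S0 : MC) : build e a S0 + e =
    SymE e + mono (-1) a + mono 1 (trpC a) + cst (S0 - J0 (SymE e) - a - trpC a) := by
  rw [build]
  generalize cst (S0 - J0 (SymE e) - a - trpC a) = z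
  rw [SymE]
  abel

theorem flat_build {e : MW} {a S0 : MC} (hS : trpC S0 = S0) :
    flat (build e a S0 + e) = build e a S0 + e := by
  rw [ParA_build_add, map_add, map_add, map_add, flat_SymE, flat_mono, flat_mono, flat_cst,
    map_sub trpC, map_sub trpC, map_sub trpC, ParA_trp_trp, ← J0_flat, flat_SymE, hS, neg_neg,
    sub_right_comm _ (trpC a) a]
  abel

theorem J0_build (e : MW) (a S0 : MC) : J0 (build e a S0 + e) = S0 := by
  rw [ParA_build_add, map_add, map_add, map_add, J0_mono, J0_mono, J0_cst]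
  abel

theorem J1_build (e : MW) (a S0 : MC) :
    J1 (build e a S0 + e) = (jc (J1 (SymE e)) - 2 * jc a) • sJ := by
  rw [ParA_build_add, map_add, map_add, map_add, J1_mono, J1_mono, J1_cst, sub_smul, ← J1_SymE,
    ← ParA_anti]
  push_cast
  module

theorem J2_build (e : MW) (a S0 : MC) : J2 (build e a S0 + e) = J2 (SymE e) + a + trpC a := by
  rw [ParA_build_add, map_add, map_add, map_add, J2_mono, J2_mono, J2_cst]
  push_cast
  module

lemma ParA_Pos_zero : Pos 0 = 0 := by simp [Pos]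

lemma ParA_SymE_zero : SymE 0 = 0 := by rw [SymE, ParA_Pos_zero, add_zero]

lemma ParA_mono_sub (n : ℤ) (M N : MC) : mono n (M - N) = mono n M - mono n N := by
  rw [sub_eq_add_neg, mono_add, mono_neg, sub_eq_add_neg]

lemma ParA_norm_trp (M : MC) : ‖trpC M‖ ≤ 2 * ‖M‖ :=
  norm_le_of_entriesC fun i j => by rw [trpC_apply]; exact norm_entryC_le M j i

lemma ParA_norm_Pos (e : MW) : ‖Pos e‖ ≤ 6 * ‖e‖ := by
  have h1 : ‖flat e - e‖ ≤ 3 * ‖e‖ := (norm_sub_le _ _).trans (by linarith [norm_flat_le e])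
  have h2 := norm_prj_le (Ioi 0) (flat e - e)
  have h3 := norm_prj_le {0} (flat e - e)
  have h4 : ‖(1/2 : ℂ)‖ = 1/2 := by simp
  refine (norm_add_le _ _).trans ?_
  rw [norm_smul, h4]
  linarith [norm_nonneg e]

theorem norm_build_sub : ∃ C, ∀ (e : MW) (a a' S0 S0' : MC),
    ‖build e a S0 - build 0 a' S0'‖ ≤ C * (‖e‖ + ‖a - a'‖ + ‖S0 - S0'‖) := by
  refine ⟨13, fun e a a' S0 S0' => ?_⟩
  have h : build e a S0 - build 0 a' S0' = Pos e + mono (-1) (a - a') + mono 1 (trpC (a - a')) +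
      cst (S0 - S0' - J0 (SymE e) - (a - a') - trpC (a - a')) := by
    simp only [build, ParA_Pos_zero, ParA_SymE_zero, map_sub, map_zero, ParA_mono_sub]
    abel
  have w1 : wt 1 = 2 := by simp [wt]
  have w2 : wt (-1) = 2 := by rw [wt_neg, w1]
  have h1 := ParA_norm_Pos e
  have h2 := norm_mono_le (-1) (a - a')
  have h3 := norm_mono_le 1 (trpC (a - a'))
  have h4 := ParA_norm_trp (a - a')
  have h5 := norm_J0_le (SymE e)
  have h6 : ‖SymE e‖ ≤ ‖e‖ + ‖Pos e‖ := norm_add_le _ _
  have h7 := norm_sub_le (S0 - S0' - J0 (SymE e) - (a - a')) (trpC (a - a'))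
  have h8 := norm_sub_le (S0 - S0' - J0 (SymE e)) (a - a')
  have h9 := norm_sub_le (S0 - S0') (J0 (SymE e))
  rw [w1] at h3
  rw [w2] at h2
  rw [h]
  refine (norm_add_le _ _).trans ?_
  rw [norm_cst]
  have h10 := norm_add₃_le (a := Pos e) (b := mono (-1) (a - a')) (c := mono 1 (trpC (a - a')))
  linarith [norm_nonneg e, norm_nonneg (a - a'), norm_nonneg (S0 - S0')]

theorem build_zero (e : ℝ) (a : MC) : build 0 a ((e / 2 : ℂ) • s3) = zeta e a := by
  simp only [build, zeta, ParA_Pos_zero, ParA_SymE_zero, map_sub, map_add, map_zero]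
  abel

end Pool.Agent.MP_efb2da_gt
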