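import Pool.Agent.MP_efb2da_gt.ParA

open Set Complex
open scoped Topology ComplexConjugate Matrix ContDiff

noncomputable section

namespace Pool.Agent.MP_efb2da_gt

variable (s RG Rm : ℝ) (p : Par) (x : EE)

/-! ### traces -/

lemma ParB_tr_s3 : trC s3 = 0 := by simp [trC_apply, s3]
lemma ParB_tr_s1 : trC s1 = 0 := by simp [trC_apply, s1]
lemma ParB_tr_sJ : trC sJ = 0 := by simp [trC_apply, sJ]

lemma ParB_trC_cf (n : ℤ) (M : MW) : trC (cf n M) = W.coef n (trW M) := by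
  rw [trC_apply, trW_apply, map_add, cf_apply, cf_apply]

lemma ParB_tr_nilM (κ : ℂ) (ψ : ℝ) : trC (nilM κ ψ) = 0 := by
  simp only [nilM, map_smul, map_sub, map_add, ParB_tr_s3, ParB_tr_s1, ParB_tr_sJ, smul_zero,
    add_zero, sub_zero]

lemma ParB_tr_nilmu (κ μ : ℂ) (ψ : ℝ) : trC (nilmu κ μ ψ) = 0 := by
  simp only [nilmu, map_smul, map_sub, map_add, ParB_tr_s3, ParB_tr_s1, ParB_tr_sJ, smul_zero,
    add_zero, sub_zero]

lemma ParB_tr_S10 : trC (S10 s) = 0 := by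
  rw [S10, map_smul, ParB_tr_s3, smul_zero]

lemma ParB_tr_conj (Φ : MW) {M : MW} (h : trW M = 0) : trW (Bi Φ * M * Bm Φ) = 0 := by
  rw [Bm, trW_conj, h, mul_zero]

lemma ParB_tr_conj' (Φ : MW) {M : MW} (h : trW M = 0) : trW (Bm Φ * M * Bi Φ) = 0 := by
  rw [Bm, trW_conj', h, mul_zero]

lemma ParB_er_tr (i : Fin 4) : trW (er s x i) = 0 := tl_tr _

lemma ParB_A1p_tr : trW (A1p s p x) = 0 := by
  refine build_tr (ParB_er_tr s x 0) ?_ (ParB_tr_S10 s)
  rw [map_add, map_smul, map_smul, ParB_tr_s3, ParB_tr_sJ, smul_zero, smul_zero, add_zero]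

lemma ParB_al1_tr : trW (al1 s p x) = 0 := ParB_tr_conj' _ (ParB_A1p_tr s p x)

lemma ParB_alZ0 :
    alZ s p x 0 = build (er s x 1) (cf (-1) (al1 s p x) + a2 s p x) 0 := rfl
lemma ParB_alZ1 : alZ s p x 1 = build (er s x 2) (-a4 s p x - a3 s p x) 0 := rfl
lemma ParB_alZ2 : alZ s p x 2 = build (er s x 3) (-a4 s p x) (S10 s) := rfl

lemma ParB_alZ_tr (i : Fin 3) : trW (alZ s p x i) = 0 := by
  have h4 : trC (a4 s p x) = 0 := ParB_tr_nilmu _ _ _
  have h3 : trC (a3 s p x) = 0 := ParB_tr_nilM _ _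
  have h2 : trC (a2 s p x) = 0 := ParB_tr_nilM _ _
  have e0 : trW (alZ s p x 0) = 0 := by
    refine build_tr (ParB_er_tr s x 1) ?_ (map_zero _)
    rw [map_add, ParB_trC_cf, ParB_al1_tr, map_zero, h2, add_zero]
  have e1 : trW (alZ s p x 1) = 0 := by
    refine build_tr (ParB_er_tr s x 2) ?_ (map_zero _)
    rw [map_sub, map_neg, h4, h3, neg_zero, sub_zero]
  have e2 : trW (alZ s p x 2) = 0 := by
    refine build_tr (ParB_er_tr s x 3) ?_ (ParB_tr_S10 s)
    rw [map_neg, h4, neg_zero]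
  fin_cases i
  exacts [e0, e1, e2]

lemma ParB_AA0 : AA (dat s RG Rm p x) 0 = A0p s RG p x := rfl
lemma ParB_AA1 : AA (dat s RG Rm p x) 1 = A1p s p x := rfl
lemma ParB_AA2 : AA (dat s RG Rm p x) 2 = A2p s p x := rfl
lemma ParB_AA3 : AA (dat s RG Rm p x) 3 = A3p s p x := rfl
lemma ParB_AA4 : AA (dat s RG Rm p x) 4 =
    Z4 s p x - A0p s RG p x - A1p s p x - A2p s p x - A3p s p x := rfl

/-- a property closed under differences holds for all residues -/
lemma ParB_all {P : MW → Prop} (hsub : ∀ M N, P M → P N → P (M - N)) (hZ : P (Z4 s p x))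
    (h0 : P (A0p s RG p x)) (h1 : P (A1p s p x)) (h2 : P (A2p s p x)) (h3 : P (A3p s p x))
    (j : Fin 5) : P (AA (dat s RG Rm p x) j) := by
  have h4 : P (AA (dat s RG Rm p x) 4) := hsub _ _ (hsub _ _ (hsub _ _ (hsub _ _ hZ h0) h1) h2) h3
  fin_cases j
  exacts [h0, h1, h2, h3, h4]

theorem dat_tr (j : Fin 5) : trW (AA (dat s RG Rm p x) j) = 0 := by
  have hsub : ∀ M N : MW, trW M = 0 → trW N = 0 → trW (M - N) = 0 := fun M N hM hN => by
    rw [map_sub, hM, hN, sub_zero]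
  have hZ : trW (Z4 s p x) = 0 := ParB_tr_conj _ (ParB_alZ_tr s p x 2)
  refine ParB_all s RG Rm p x (P := fun M => trW M = 0) hsub hZ ?_ (ParB_A1p_tr s p x)
    (ParB_tr_conj _ (hsub _ _ (ParB_alZ_tr s p x 0) (ParB_al1_tr s p x)))
    (ParB_tr_conj _ (hsub _ _ (ParB_alZ_tr s p x 2) (ParB_alZ_tr s p x 1))) j
  rw [A0p, trW_conj, hZ, mul_zero]

theorem dat_sum : ∑ j, AA (dat s RG Rm p x) j = Z4 s p x := by
  rw [Fin.sum_univ_five, ParB_AA0, ParB_AA1, ParB_AA2, ParB_AA3, ParB_AA4]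
  abel

lemma ParB_al1_back : Bi (H0 p.1) * al1 s p x * Bm (H0 p.1) = A1p s p x := by
  have h := Bi_mul_Bm (det_H0 p.1)
  calc Bi (H0 p.1) * al1 s p x * Bm (H0 p.1)
      = (Bi (H0 p.1) * Bm (H0 p.1)) * A1p s p x * (Bi (H0 p.1) * Bm (H0 p.1)) := by
        rw [al1]; simp only [mul_assoc]
    _ = A1p s p x := by rw [h, one_mul, mul_one]

theorem dat_ins (i : Fin 3) :
    ∑ j ∈ ins i, AA (dat s RG Rm p x) j = Bi (H0 p.1) * alZ s p x i * Bm (H0 p.1) := by
  have e0 : ∑ j ∈ ins 0, AA (dat s RG Rm p x) j =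
      Bi (H0 p.1) * alZ s p x 0 * Bm (H0 p.1) := by
    have : ins 0 = {1, 2} := rfl
    rw [this, Finset.sum_pair (by decide), ParB_AA1, ParB_AA2, A2p, mul_sub, sub_mul,
      ParB_al1_back]
    abel
  have e1 : ∑ j ∈ ins 1, AA (dat s RG Rm p x) j =
      Bi (H0 p.1) * alZ s p x 1 * Bm (H0 p.1) := by
    have : ins 1 = {0, 1, 2, 4} := rfl
    rw [this, Finset.sum_insert (by decide), Finset.sum_insert (by decide),
      Finset.sum_pair (by decide), ParB_AA0, ParB_AA1, ParB_AA2, ParB_AA4, A3p, Z4, mul_sub,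
      sub_mul]
    abel
  have e2 : ∑ j ∈ ins 2, AA (dat s RG Rm p x) j =
      Bi (H0 p.1) * alZ s p x 2 * Bm (H0 p.1) := dat_sum s RG Rm p x
  fin_cases i
  exacts [e0, e1, e2]

theorem dat_A0 : AA (dat s RG Rm p x) 0 =
    GG (dat s RG Rm p x) * (∑ j, AA (dat s RG Rm p x) j) * adj (GG (dat s RG Rm p x)) := by
  rw [dat_sum]
  rfl

/-! ### lowest coefficients -/

lemma ParB_al1_ge : MGE (-1) (al1 s p x) :=
  MGE.conj (Bm_pos (det_H0 _)) (build_ge _ _ _) (Bi_pos (det_H0 _))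

lemma ParB_alZ_ge (i : Fin 3) : MGE (-1) (alZ s p x i) := by
  fin_cases i <;> exact build_ge _ _ _

lemma ParB_conj_ge (y : Y8) {M : MW} (h : MGE (-1) M) :
    MGE (-1) (Bi (H0 y) * M * Bm (H0 y)) :=
  MGE.conj (Bi_pos (det_H0 _)) h (Bm_pos (det_H0 _))

lemma ParB_det_cf_conj (y : Y8) {M : MW} (h : MGE (-1) M) :
    (cf (-1) (Bi (H0 y) * M * Bm (H0 y))).det = (cf (-1) M).det := by
  have hi := Bi_pos (det_H0 y)
  have hm := Bm_pos (det_H0 y)
  have h1 : (cf 0 (Bi (H0 y))).det = 1 := by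
    rw [← hi.coef_det, det_Bi (det_H0 y), W.coef_one, if_pos (add_zero _)]
  have h2 : (cf 0 (Bm (H0 y))).det = 1 := by
    rw [← hm.coef_det, det_Bm (det_H0 y), W.coef_one, if_pos (add_zero _)]
  rw [MGE.cf_conj hi h hm, Matrix.det_mul, Matrix.det_mul, h1, h2, one_mul, mul_one]

lemma ParB_coef_det {M : MW} (h : MGE (-1) M) : W.coef (-2) M.det = (cf (-1) M).det :=
  h.coef_det

theorem dat_nil2 : W.coef (-2) (AA (dat s RG Rm p x) 2).det = 0 := by
  have h := (ParB_alZ_ge s p x 0).sub (ParB_al1_ge s p x)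
  rw [ParB_AA2, A2p, ParB_coef_det (ParB_conj_ge _ h), ParB_det_cf_conj _ h, map_sub, ParB_alZ0,
    cf_build, add_sub_cancel_left]
  exact det_nilM _ _

theorem dat_nil3 : W.coef (-2) (AA (dat s RG Rm p x) 3).det = 0 := by
  have h := (ParB_alZ_ge s p x 2).sub (ParB_alZ_ge s p x 1)
  rw [ParB_AA3, A3p, ParB_coef_det (ParB_conj_ge _ h), ParB_det_cf_conj _ h, map_sub, ParB_alZ1,
    ParB_alZ2, cf_build, cf_build, sub_sub_cancel]
  exact det_nilM _ _

lemma ParB_det_nilmu (κ μ : ℂ) (ψ : ℝ) : (-nilmu κ μ ψ).det = -(μ * (κ + μ)) := by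
  have h : (Real.sin ψ : ℂ) ^ 2 + (Real.cos ψ : ℂ) ^ 2 = 1 := by
    exact_mod_cast Real.sin_sq_add_cos_sq ψ
  generalize hS : (Real.sin ψ : ℂ) = S at h
  generalize hC : (Real.cos ψ : ℂ) = C at h
  rw [Matrix.det_fin_two, nilmu, hS, hC]
  simp [s1, s3, sJ]
  linear_combination (-(κ / 2 + μ) ^ 2) * h

theorem det_cf_Z4 : (cf (-1) (Z4 s p x)).det =
    -(((s * p.2.2 : ℝ) : ℂ) * (k4 s p x + ((s * p.2.2 : ℝ) : ℂ))) := by
  rw [Z4, ParB_det_cf_conj _ (ParB_alZ_ge s p x 2), ParB_alZ2, cf_build, a4, ParB_det_nilmu]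

lemma ParB_det_s3J (a b : ℂ) : (a • s3 + b • sJ).det = b ^ 2 - a ^ 2 := by
  rw [Matrix.det_fin_two]
  simp [s3, sJ]
  ring

theorem det_cf_A1p : (cf (-1) (A1p s p x)).det = ((jj s x 0 - be s p) / 2) ^ 2 -
    (-((be s p : ℂ) ^ 2 / kap (s ^ 4)) - J2 (SymE (er s x 0)) 0 0 / 2) ^ 2 := by
  rw [A1p, cf_build, ParB_det_s3J]

/-! ### reality -/

lemma ParB_cjC_smul (c : ℂ) (M : MC) : cjC (c • M) = conj c • cjC M := by
  ext i j
  simp

lemma ParB_cj_s3 : cjC s3 = s3 := by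
  ext i j
  fin_cases i <;> fin_cases j <;> simp [s3]
lemma ParB_cj_s1 : cjC s1 = s1 := by
  ext i j
  fin_cases i <;> fin_cases j <;> simp [s1]
lemma ParB_cj_sJ : cjC sJ = sJ := by
  ext i j
  fin_cases i <;> fin_cases j <;> simp [sJ]

lemma ParB_conj_half {κ : ℂ} (h : conj κ = κ) : conj (κ / 2) = κ / 2 := by
  rw [map_div₀, h, map_ofNat]

lemma ParB_cj_nilM {κ : ℂ} (h : conj κ = κ) (ψ : ℝ) : cjC (nilM κ ψ) = nilM κ ψ := by
  rw [nilM, ParB_cjC_smul, map_sub, map_add, ParB_cjC_smul, ParB_cjC_smul, ParB_conj_half h,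
    conj_ofReal, conj_ofReal, ParB_cj_s3, ParB_cj_s1, ParB_cj_sJ]

lemma ParB_cj_nilmu {κ μ : ℂ} (h : conj κ = κ) (h' : conj μ = μ) (ψ : ℝ) :
    cjC (nilmu κ μ ψ) = nilmu κ μ ψ := by
  rw [nilmu, map_add, ParB_cjC_smul, ParB_cjC_smul, map_sub, ParB_cjC_smul, ParB_cjC_smul,
    map_add, ParB_conj_half h, h', conj_ofReal, conj_ofReal, ParB_cj_s3, ParB_cj_s1, ParB_cj_sJ]

lemma ParB_cj_S10 : cjC (S10 s) = S10 s := by
  rw [S10, ParB_cjC_smul, conj_ofReal, ParB_cj_s3]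

lemma ParB_entry_real {M : MC} (h : cjC M = M) (i j : Fin 2) : conj (M i j) = M i j := by
  rw [← cjC_apply, h]

lemma ParB_jc_real {M : MC} (h : cjC M = M) : conj (jc M) = jc M := by
  refine ParB_conj_half ?_
  rw [map_sub, ParB_entry_real h, ParB_entry_real h]

lemma ParB_conj_one_half : conj (1 / 2 : ℂ) = 1 / 2 := ParB_conj_half (map_one _)

lemma ParB_tl_real {e : MW} (h : sharp e = e) : sharp (tl e) = tl e := by
  rw [tl, sharp_smul, map_sub, sharp_adj, h, ParB_conj_one_half]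

lemma ParB_SymE_real {e : MW} (h : sharp e = e) : sharp (SymE e) = SymE e := by
  have h1 : sharp (flat e - e) = flat e - e := by rw [map_sub, sharp_flat, h]
  rw [SymE, Pos, map_add, map_add, sharp_smul, sharp_prj, sharp_prj, h1, h, ParB_conj_one_half]

lemma ParB_smul_real (c : ℝ) {e : MW} (h : sharp e = e) : sharp ((c : ℂ) • e) = (c : ℂ) • e := by
  rw [sharp_smul, conj_ofReal, h]

lemma ParB_Bi_real (y : Y8) : sharp (Bi (H0 y)) = Bi (H0 y) := by
  rw [← Bi_sharp (det_H0 y), sharp_H0]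

lemma ParB_Bm_real (y : Y8) : sharp (Bm (H0 y)) = Bm (H0 y) := by
  rw [← Bm_sharp (det_H0 y), sharp_H0]

lemma ParB_conj_real (y : Y8) {M : MW} (h : sharp M = M) :
    sharp (Bi (H0 y) * M * Bm (H0 y)) = Bi (H0 y) * M * Bm (H0 y) := by
  rw [sharp_mul, sharp_mul, h, ParB_Bi_real, ParB_Bm_real]

section real
variable {x} (hx : x ∈ CC)
include hx

lemma ParB_er_real (i : Fin 4) : sharp (er s x i) = er s x i :=
  ParB_tl_real (ParB_smul_real _ (hx.1 i).1)

lemma ParB_jj_real (i : Fin 4) : conj (jj s x i) = jj s x i := by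
  refine ParB_jc_real ?_
  rw [← J1_sharp, ParB_SymE_real (ParB_er_real s hx i)]

lemma ParB_A1p_real : sharp (A1p s p x) = A1p s p x := by
  refine build_real (ParB_er_real s hx 0) ?_ (ParB_cj_S10 s)
  have h2 : conj (J2 (SymE (er s x 0)) 0 0) = J2 (SymE (er s x 0)) 0 0 := by
    refine ParB_entry_real ?_ 0 0
    rw [← J2_sharp, ParB_SymE_real (ParB_er_real s hx 0)]
  have h3 : conj (jj s x 0 - be s p) = jj s x 0 - be s p := by
    rw [map_sub, ParB_jj_real s hx, conj_ofReal]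
  rw [map_add, ParB_cjC_smul, ParB_cjC_smul, ParB_cj_s3, ParB_cj_sJ, ParB_conj_half h3, map_sub,
    ParB_conj_half h2, map_neg, map_div₀, map_pow, conj_ofReal, conj_ofReal]

lemma ParB_al1_real : sharp (al1 s p x) = al1 s p x := by
  rw [al1, sharp_mul, sharp_mul, ParB_A1p_real s p hx, ParB_Bi_real, ParB_Bm_real]

lemma ParB_k4_real : conj (k4 s p x) = k4 s p x := by
  have h : conj (symM (H0 p.1) 0 1) = symM (H0 p.1) 0 1 := by
    refine ParB_entry_real ?_ 0 1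
    rw [← symM_sharp (det_H0 _), sharp_H0]
  rw [k4, map_sub, map_add, map_mul, h, conj_ofReal, conj_ofReal, ParB_jj_real s hx]

lemma ParB_alZ_real (i : Fin 3) : sharp (alZ s p x i) = alZ s p x i := by
  have h1 : cjC (cf (-1) (al1 s p x)) = cf (-1) (al1 s p x) := by
    rw [← cf_sharp, ParB_al1_real s p hx]
  have h4 : cjC (a4 s p x) = a4 s p x := ParB_cj_nilmu (ParB_k4_real s p hx) (conj_ofReal _) _
  have h3 : cjC (a3 s p x) = a3 s p x := by
    refine ParB_cj_nilM ?_ _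
    rw [map_sub, map_neg, ParB_k4_real s p hx, ParB_jj_real s hx]
  have h2 : cjC (a2 s p x) = a2 s p x := by
    refine ParB_cj_nilM ?_ _
    rw [map_sub, map_mul, ParB_jc_real h1, ParB_jj_real s hx, map_ofNat]
  have e0 : sharp (alZ s p x 0) = alZ s p x 0 := by
    refine build_real (ParB_er_real s hx 1) ?_ (map_zero _)
    rw [map_add, h1, h2]
  have e1 : sharp (alZ s p x 1) = alZ s p x 1 := by
    refine build_real (ParB_er_real s hx 2) ?_ (map_zero _)
    rw [map_sub, map_neg, h4, h3]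
  have e2 : sharp (alZ s p x 2) = alZ s p x 2 := by
    refine build_real (ParB_er_real s hx 3) ?_ (ParB_cj_S10 s)
    rw [map_neg, h4]
  fin_cases i
  exacts [e0, e1, e2]

end real

/-! ### oddness -/

lemma ParB_sw_iff {M : MW} : sw M = -M ↔ M 1 1 = -M 0 0 ∧ M 1 0 = -M 0 1 := by
  rw [sw_apply]
  constructor
  · intro h
    exact ⟨congrFun (congrFun h 0) 0, congrFun (congrFun h 0) 1⟩
  · rintro ⟨h1, h2⟩
    ext i j
    fin_cases i <;> fin_cases j <;> simp [h1, h2]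

lemma ParB_sw_flat (M : MW) : sw (flat M) = flat (sw M) := by
  ext i j
  fin_cases i <;> fin_cases j <;> simp [sw_apply]

lemma ParB_sw_prj (S : Set ℤ) (M : MW) : sw (prj S M) = prj S (sw M) := by
  ext i j
  fin_cases i <;> fin_cases j <;> simp [sw_apply]

lemma ParB_Pos_odd {e : MW} (h : sw e = -e) : sw (Pos e) = -Pos e := by
  have h1 : sw (flat e - e) = -(flat e - e) := by
    rw [map_sub, ParB_sw_flat, h, map_neg]
    abel
  rw [Pos, map_add, map_smul, ParB_sw_prj, ParB_sw_prj, h1, map_neg, map_neg, smul_neg, neg_add]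

lemma ParB_mono_odd (n : ℤ) {a : MC} (h1 : a 1 1 = -a 0 0) (h2 : a 1 0 = -a 0 1) :
    sw (mono n a) = -mono n a := by
  rw [ParB_sw_iff, mono_apply, mono_apply, mono_apply, mono_apply, h1, h2, neg_smul, neg_smul]
  exact ⟨rfl, rfl⟩

lemma ParB_build_odd {e : MW} {a S0 : MC} (h : sw e = -e) (h1 : a 1 1 = -a 0 0)
    (h2 : a 1 0 = -a 0 1) (h3 : S0 1 1 = -S0 0 0) (h4 : S0 1 0 = -S0 0 1) :
    sw (build e a S0) = -build e a S0 := by
  have hP := ParB_Pos_odd h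
  have hS : sw (SymE e) = -SymE e := by rw [SymE, map_add, h, hP, neg_add]
  obtain ⟨k1, k2⟩ := ParB_sw_iff.1 hS
  have m1 := ParB_mono_odd (-1) h1 h2
  have m2 : sw (mono 1 (trpC a)) = -mono 1 (trpC a) :=
    ParB_mono_odd 1 (by simp [h1]) (by simp [h2])
  have m3 : sw (cst (S0 - J0 (SymE e) - a - trpC a)) = -cst (S0 - J0 (SymE e) - a - trpC a) := by
    rw [← mono_zero]
    refine ParB_mono_odd 0 ?_ ?_
    · simp only [Matrix.sub_apply, J0_apply, trpC_apply, h1, h3, k1, map_neg]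
      ring
    · simp only [Matrix.sub_apply, J0_apply, trpC_apply, h2, h4, k2, map_neg]
      ring
  rw [build, map_add, map_add, map_add, hP, m1, m2, m3]
  abel

lemma ParB_A1p_odd (hx : x ∈ CC) : sw (A1p s p x) = -A1p s p x := by
  refine ParB_build_odd ?_ (by simp [s3, sJ]) (by simp [s3, sJ]) (by simp [S10, s3])
    (by simp [S10, s3])
  rw [er, tl, map_smul, map_sub, sw_adj, map_smul, hx.2.1, smul_neg, map_neg, neg_sub_neg,
    ← smul_neg, neg_sub]

theorem dat_str (hx : x ∈ CC) : Str (dat s RG Rm p x) := by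
  have hG : sharp ((RG : ℂ) • x.2.1) = (RG : ℂ) • x.2.1 := ParB_smul_real _ hx.2.2.1
  have hG' : MGE 0 ((RG : ℂ) • x.2.1) := hx.2.2.2.1.smul _
  have hsub : ∀ M N : MW, sharp M = M → sharp N = N → sharp (M - N) = M - N :=
    fun M N hM hN => by rw [map_sub, hM, hN]
  have hZ : sharp (Z4 s p x) = Z4 s p x := ParB_conj_real _ (ParB_alZ_real s p hx 2)
  have hZ' : MGE (-1) (Z4 s p x) := ParB_conj_ge _ (ParB_alZ_ge s p x 2)
  refine ⟨fun j => ?_, dat_tr s RG Rm p x, fun j => ?_, ParB_A1p_odd s p x hx, hG, hG',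
    fun i => (hx.2.2.2.2 i).smul Rm⟩
  · refine ParB_all s RG Rm p x (P := fun M => sharp M = M) hsub hZ ?_ (ParB_A1p_real s p hx)
      (ParB_conj_real _ (hsub _ _ (ParB_alZ_real s p hx 0) (ParB_al1_real s p hx)))
      (ParB_conj_real _ (hsub _ _ (ParB_alZ_real s p hx 2) (ParB_alZ_real s p hx 1))) j
    rw [A0p, sharp_mul, sharp_mul, sharp_adj, hG, hZ]
  · exact ParB_all s RG Rm p x (P := MGE (-1)) (fun _ _ => MGE.sub) hZ'
      (MGE.conj hG' hZ' hG'.adj) (build_ge _ _ _)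
      (ParB_conj_ge _ ((ParB_alZ_ge s p x 0).sub (ParB_al1_ge s p x)))
      (ParB_conj_ge _ ((ParB_alZ_ge s p x 2).sub (ParB_alZ_ge s p x 1))) j

theorem alZ_real (hx : x ∈ CC) (i : Fin 3) : sharp (alZ s p x i) = alZ s p x i :=
  ParB_alZ_real s p hx i

theorem alZ_tr (i : Fin 3) : trW (alZ s p x i) = 0 := ParB_alZ_tr s p x i

theorem isClosed_CC : IsClosed CC := by
  have c1 : ∀ i, Continuous fun x : EE => x.1 i := fun i => (continuous_apply i).comp continuous_fst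
  have c2 : Continuous fun x : EE => x.2.1 := continuous_fst.comp continuous_snd
  have c3 : ∀ i, Continuous fun x : EE => x.2.2 i := fun i =>
    (continuous_apply i).comp (continuous_snd.comp continuous_snd)
  refine IsClosed.and ?_ (IsClosed.and ?_ (IsClosed.and ?_ (IsClosed.and ?_ ?_)))
  · rw [ofPred_forall]
    exact isClosed_iInter fun i => IsClosed.and
      (isClosed_eq (sharp.continuous.comp (c1 i)) (c1 i))
      (isClosed_eq (trW.continuous.comp (c1 i)) continuous_const)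
  · exact isClosed_eq (sw.continuous.comp (c1 0)) (c1 0).neg
  · exact isClosed_eq (sharp.continuous.comp c2) c2
  · exact (isClosed_MGE 0).preimage c2
  · rw [ofPred_forall]
    exact isClosed_iInter fun i => isClosed_StrM.preimage (c3 i)

theorem zero_mem_CC : (0 : EE) ∈ CC :=
  ⟨fun _ => ⟨map_zero sharp, map_zero trW⟩, (map_zero sw).trans neg_zero.symm, map_zero sharp,
    MGE.zero 0, fun _ => StrM.zero⟩

theorem reG_apply : reG x = (x.1, (1/2 : ℝ) • (x.2.1 + sharp x.2.1), x.2.2) := rfl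

theorem norm_reG_le : ‖reG x‖ ≤ ‖x‖ := by
  have h : ‖(1/2 : ℝ) • (x.2.1 + sharp x.2.1)‖ ≤ ‖x.2.1‖ := by
    have h1 := norm_add_le x.2.1 (sharp x.2.1)
    rw [norm_sharp] at h1
    rw [norm_smul, Real.norm_of_nonneg (by norm_num)]
    linarith
  rw [reG_apply, Prod.norm_def, Prod.norm_def, Prod.norm_def x, Prod.norm_def x.2]
  exact max_le_max le_rfl (max_le_max h le_rfl)

end Pool.Agent.MP_efb2da_gt
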