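import Pool.Agent.MP_efb2da_gt.Geo

open scoped ContDiff ComplexConjugate Topology
open Set Complex

noncomputable section

namespace Pool.Agent.MP_efb2da_gt

theorem polar_norm_exp (s : ℝ) : ‖exp (2 * Real.pi * I * s)‖ = 1 := by
  have : (2 * Real.pi * I * s : ℂ) = ((2 * Real.pi * s : ℝ) : ℂ) * I := by push_cast; ring
  rw [this, norm_exp_ofReal_mul_I]

theorem polar_norm_exp_neg (s : ℝ) : ‖exp (-(2 * Real.pi * I * s))‖ = 1 := by
  rw [exp_neg, norm_inv, polar_norm_exp, inv_one]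

theorem polar_im_pos {e a b : ℂ} (he : ‖e‖ = 1) (ha : ‖a‖ ≤ 1/20) (hb : ‖b‖ ≤ 1/5) :
    0 < (conj ((1/2) * e + a) * (Real.pi * I * e + b)).im := by
  have hce : conj e * e = 1 := by
    rw [mul_comm, mul_conj, normSq_eq_norm_sq, he]; simp
  have hexp : conj ((1/2) * e + a) * (Real.pi * I * e + b) =
      ((Real.pi / 2 : ℝ) : ℂ) * I + ((1/2) * (conj e * b) + Real.pi * (I * (conj a * e)) +
        conj a * b) := by
    have h2 : conj ((1/2 : ℂ)) = 1/2 := by
      rw [map_div₀, map_one, conj_ofNat]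
    rw [map_add, map_mul, h2]
    push_cast
    linear_combination (Real.pi * I / 2 : ℂ) * hce
  have hpi := Real.pi_gt_three
  have hn : ‖(1/2 : ℂ) * (conj e * b) + Real.pi * (I * (conj a * e)) + conj a * b‖ ≤
      1/10 + Real.pi / 20 + 1/100 := by
    have h1 : ‖(1/2 : ℂ) * (conj e * b)‖ ≤ 1/10 := by
      rw [norm_mul, norm_mul, norm_conj, he]
      have : ‖(1/2 : ℂ)‖ = 1/2 := by simp
      rw [this]; linarith
    have h2 : ‖(Real.pi : ℂ) * (I * (conj a * e))‖ ≤ Real.pi / 20 := by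
      rw [norm_mul, norm_mul, norm_mul, norm_conj, he, norm_I, norm_real,
        Real.norm_of_nonneg Real.pi_pos.le]
      nlinarith [Real.pi_pos]
    have h3 : ‖conj a * b‖ ≤ 1/100 := by
      rw [norm_mul, norm_conj]
      nlinarith [norm_nonneg a, norm_nonneg b]
    calc _ ≤ ‖(1/2 : ℂ) * (conj e * b) + Real.pi * (I * (conj a * e))‖ + ‖conj a * b‖ :=
          norm_add_le _ _
      _ ≤ ‖(1/2 : ℂ) * (conj e * b)‖ + ‖(Real.pi : ℂ) * (I * (conj a * e))‖ + ‖conj a * b‖ := by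
          gcongr; exact norm_add_le _ _
      _ ≤ _ := by linarith
  rw [hexp, add_im]
  have h4 := (abs_le.mp ((abs_im_le_norm
    ((1/2 : ℂ) * (conj e * b) + Real.pi * (I * (conj a * e)) + conj a * b)).trans hn)).1
  have h5 : (((Real.pi / 2 : ℝ) : ℂ) * I).im = Real.pi / 2 := by simp
  rw [h5]
  linarith

/-- polar form of a curve that is `C¹` close to the circle of radius `1/2` -/
theorem exists_polar {Γ : ℝ → ℂ} (hΓ : ContDiff ℝ ∞ Γ) (hp : Function.Periodic Γ 1)
    (h0 : ∀ s : ℝ, ‖Γ s - (1/2) * exp (2 * Real.pi * I * s)‖ ≤ 1/20)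
    (h1 : ∀ s : ℝ, ‖deriv Γ s - Real.pi * I * exp (2 * Real.pi * I * s)‖ ≤ 1/5) :
    ∃ θ : ℝ → ℝ, (∀ s, Γ s = ‖Γ s‖ * exp (I * θ s)) ∧ (∀ s, θ (s + 1) = θ s + 2 * Real.pi) ∧
      (∀ s, Γ s ≠ 0) ∧ (∀ s, 0 < (conj (Γ s) * deriv Γ s).im) ∧
      ∀ s, HasDerivAt θ ((conj (Γ s) * deriv Γ s).im / ‖Γ s‖ ^ 2) s := by
  set w : ℝ → ℂ := fun s => Γ s * exp (-(2 * Real.pi * I * s)) with hw
  have hee : ∀ s : ℝ, exp (2 * Real.pi * I * s) * exp (-(2 * Real.pi * I * s)) = 1 := by
    intro s; rw [← exp_add]; simp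
  have hwre : ∀ s, 0 < (w s).re := by
    intro s
    have h2 : w s = ((1/2 : ℝ) : ℂ) +
        (Γ s - (1/2) * exp (2 * Real.pi * I * s)) * exp (-(2 * Real.pi * I * s)) := by
      simp only [hw]
      push_cast
      linear_combination (1/2 : ℂ) * hee s
    have h3 : ‖(Γ s - (1/2) * exp (2 * Real.pi * I * s)) * exp (-(2 * Real.pi * I * s))‖ ≤
        1/20 := by
      rw [norm_mul, polar_norm_exp_neg, mul_one]; exact h0 s
    have h4 := (abs_le.mp ((abs_re_le_norm _).trans h3)).1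
    rw [h2, add_re, ofReal_re]
    linarith
  have hwslit : ∀ s, w s ∈ slitPlane := fun s => Or.inl (hwre s)
  have hwne : ∀ s, w s ≠ 0 := fun s => slitPlane_ne_zero (hwslit s)
  have hne : ∀ s, Γ s ≠ 0 := by
    intro s h
    apply hwne s
    simp only [hw, h, zero_mul]
  have hnorm : ∀ s, ‖w s‖ = ‖Γ s‖ := by
    intro s
    simp only [hw]
    rw [norm_mul, polar_norm_exp_neg, mul_one]
  refine ⟨fun s => 2 * Real.pi * s + (log (w s)).im, ?_, ?_, hne, ?_, ?_⟩
  · intro s
    have h2 : (‖w s‖ : ℂ) * exp (arg (w s) * I) = w s := norm_mul_exp_arg_mul_I (w s)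
    have h3 : Γ s = w s * exp (2 * Real.pi * I * s) := by
      simp only [hw]
      linear_combination (-Γ s) * hee s
    have h4 : exp (I * ((2 * Real.pi * s + (log (w s)).im : ℝ) : ℂ)) =
        exp (arg (w s) * I) * exp (2 * Real.pi * I * s) := by
      rw [← exp_add, log_im]
      congr 1
      push_cast
      ring
    show Γ s = ‖Γ s‖ * exp (I * ((2 * Real.pi * s + (log (w s)).im : ℝ) : ℂ))
    rw [h4, ← hnorm s, ← mul_assoc, h2]
    exact h3
  · intro s
    have h2 : w (s + 1) = w s := by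
      simp only [hw]
      rw [hp s]
      congr 1
      have : (-(2 * Real.pi * I * ((s + 1 : ℝ) : ℂ))) =
          -(2 * Real.pi * I * s) - 2 * Real.pi * I := by
        push_cast; ring
      rw [this, exp_sub, exp_two_pi_mul_I, div_one]
    show 2 * Real.pi * (s + 1) + (log (w (s + 1))).im =
      2 * Real.pi * s + (log (w s)).im + 2 * Real.pi
    rw [h2]; ring
  · intro s
    have := polar_im_pos (polar_norm_exp s) (h0 s) (h1 s)
    simpa only [add_sub_cancel] using this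
  · intro s
    have hd : HasDerivAt Γ (deriv Γ s) s :=
      ((hΓ.differentiable (by simp)) s).hasDerivAt
    have hlin : HasDerivAt (fun t : ℝ => -(2 * Real.pi * I * (t : ℂ)))
        (-(2 * Real.pi * I * 1)) s :=
      ((ofRealCLM.hasDerivAt (x := s)).const_mul (2 * Real.pi * I : ℂ)).neg
    have hexp := hlin.cexp
    have hdw : HasDerivAt w (deriv Γ s * exp (-(2 * Real.pi * I * s)) +
        Γ s * (exp (-(2 * Real.pi * I * s)) * (-(2 * Real.pi * I * 1)))) s := hd.mul hexp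
    have hlog := hdw.clog_real (hwslit s)
    have him : HasDerivAt (fun t => (log (w t)).im)
        ((deriv Γ s * exp (-(2 * Real.pi * I * s)) +
          Γ s * (exp (-(2 * Real.pi * I * s)) * (-(2 * Real.pi * I * 1)))) / w s).im s :=
      imCLM.hasFDerivAt.comp_hasDerivAt s hlog
    have hl : HasDerivAt (fun t : ℝ => 2 * Real.pi * t) (2 * Real.pi * 1) s :=
      (hasDerivAt_id s).const_mul _
    have hsum := hl.add him
    have hval : (deriv Γ s * exp (-(2 * Real.pi * I * s)) +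
          Γ s * (exp (-(2 * Real.pi * I * s)) * (-(2 * Real.pi * I * 1)))) / w s =
        conj (Γ s) * deriv Γ s / ((‖Γ s‖ ^ 2 : ℝ) : ℂ) - ((2 * Real.pi : ℝ) : ℂ) * I := by
      have hG := hne s
      have hcG : conj (Γ s) ≠ 0 := by simpa using hG
      have hE : exp (-(2 * Real.pi * I * (s : ℂ))) ≠ 0 := exp_ne_zero _
      have hsq : ((‖Γ s‖ ^ 2 : ℝ) : ℂ) = Γ s * conj (Γ s) := by
        rw [mul_conj, normSq_eq_norm_sq]
      rw [hsq]
      simp only [hw]
      push_cast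
      field_simp
      ring
    rw [hval] at hsum
    have hfin : 2 * Real.pi * 1 + (conj (Γ s) * deriv Γ s / ((‖Γ s‖ ^ 2 : ℝ) : ℂ) -
        ((2 * Real.pi : ℝ) : ℂ) * I).im = (conj (Γ s) * deriv Γ s).im / ‖Γ s‖ ^ 2 := by
      rw [sub_im, div_ofReal_im, mul_I_im, ofReal_re]
      ring
    rw [hfin] at hsum
    exact hsum

end Pool.Agent.MP_efb2da_gt
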