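import Pool.Agent.MP_efb2da_gt.Mat
import Pool.Agent.MP_efb2da_gt.Hol0
import Pool.Agent.MP_efb2da_gt.Lim0

/-! The DPW potential on the sphere with opened nodes, the holonomies entering the closing
conditions. -/

open Set Complex
open scoped Topology ComplexConjugate Matrix ContDiff

noncomputable section

namespace Pool.Agent.MP_efb2da_gt

abbrev Disc := Metric.closedBall (0:ℂ) 1
abbrev CD := C(Disc, MW)
/-- geometric parameters `(t, ε, q, p)` -/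
abbrev Geo := ℝ × ℝ × ℝ × (Fin 3 → ℝ)
/-- residues at `0, 1, p 0, p 1, p 2`; gauge `G`; regular parts at `0, 1, ∞` -/
abbrev Dat := (Fin 5 → MW) × MW × (Fin 3 → CD)

abbrev tt (g : Geo) : ℝ := g.1
abbrev ee (g : Geo) : ℝ := g.2.1
abbrev qq (g : Geo) : ℝ := g.2.2.1
abbrev pp (g : Geo) : Fin 3 → ℝ := g.2.2.2
abbrev AA (d : Dat) : Fin 5 → MW := d.1
abbrev GG (d : Dat) : MW := d.2.1
abbrev mm (d : Dat) : Fin 3 → CD := d.2.2

def clampD (z : ℂ) : Disc := ⟨((max 1 ‖z‖)⁻¹ : ℝ) • z, by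
  have h : (0:ℝ) < max 1 ‖z‖ := lt_of_lt_of_le one_pos (le_max_left _ _)
  rw [mem_closedBall_zero_iff, norm_smul, norm_inv, Real.norm_of_nonneg h.le, inv_mul_le_iff₀ h,
    mul_one]
  exact le_max_right _ _⟩

/-- a function on the closed unit disc read on the disc of radius `1/8` -/
def mv (m : CD) (z : ℂ) : MW := m (clampD (8 * z))

def AdmG (g : Geo) : Prop :=
  (0 < tt g ∧ tt g ≤ 1) ∧ (0 < ee g ∧ ee g ≤ 1/64) ∧ (0 < qq g ∧ qq g ≤ 1/4096) ∧ AdmP (pp g)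

def Dom (g : Geo) : Set ℂ :=
  {z | 8 * qq g < ‖z‖ ∧ 8 * qq g * ‖z‖ < 1 ∧ 8 * ee g ^ 2 < ‖z - 1‖ ∧ ∀ j, z ≠ pp g j}

variable (g : Geo) (d : Dat)

def h1 (z : ℂ) : MW :=
  -(((ee g : ℂ) ^ 2 / (z - 1) ^ 2) • sw (mv (mm d 1) ((ee g : ℂ) ^ 2 / (z - 1))))
def hinf (z : ℂ) : MW :=
  ((qq g : ℂ) / z ^ 2) • (GG d * mv (mm d 2) ((qq g : ℂ) / z) * adj (GG d))
def h0 (z : ℂ) : MW := (qq g : ℂ) • (adj (GG d) * mv (mm d 0) ((qq g : ℂ) * z) * GG d)
def rat (s : Finset (Fin 5)) (z : ℂ) : MW := ∑ j ∈ s, (z - pos (pp g) j)⁻¹ • AA d j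
/-- the potential is `t Xi dz` -/
def Xi (z : ℂ) : MW := rat g d Finset.univ z + h1 g d z + hinf g d z + h0 g d z
/-- regular part at the puncture `j` -/
def reg (j : Fin 5) (z : ℂ) : MW :=
  rat g d (Finset.univ.erase j) z + h1 g d z + hinf g d z + h0 g d z
/-- the potential on the neck at `1`, in the coordinate `log u` -/
def Th (u : ℂ) : MW :=
  AA d 1 + u • mv (mm d 1) u - ((ee g : ℂ) ^ 2 / u) • sw (mv (mm d 1) ((ee g : ℂ) ^ 2 / u))
def M0 (z : ℂ) : MW := rat g d (Finset.univ.erase 0) z + h1 g d z + h0 g d z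
def M1 (u : ℂ) : MW := rat g d (Finset.univ.erase 1) (1 + u) + hinf g d (1 + u) + h0 g d (1 + u)
def M2 (w : ℂ) : MW :=
  ∑ j, ((pos (pp g) j : ℂ) / (1 - pos (pp g) j * w)) • AA d j -
    ((ee g : ℂ) ^ 2 / (1 - w) ^ 2) • sw (mv (mm d 1) ((ee g : ℂ) ^ 2 * w / (1 - w))) +
    (qq g : ℂ) • (GG d * mv (mm d 2) ((qq g : ℂ) * w) * adj (GG d))
def Mf : Fin 3 → ℂ → MW := ![M0 g d, M1 g d, M2 g d]
def MM (i : Fin 3) : CD := cmk fun z : Disc => Mf g d i (z / 8)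

def La1 : ℝ := Real.log (1 / (16 * ee g))
def La : ℝ := Real.log (1 / (17 * qq g))
def aH (r : ℝ) : MW := ((tt g * La1 g : ℝ) : ℂ) • Th g d ((ee g * Real.exp (r * La1 g) : ℝ) : ℂ)
def a1 (r : ℝ) : MW := (2 * Real.pi * I * tt g) • Th g d (ee g * exp (2 * Real.pi * I * r))
def aC (c R : ℝ) (r : ℝ) : MW :=
  (tt g * (2 * Real.pi * I * R * exp (2 * Real.pi * I * r))) •
    Xi g d (c + R * exp (2 * Real.pi * I * r))
def aL (r : ℝ) : MW :=
  ((tt g * La g * (17/16 * Real.exp (r * La g)) : ℝ) : ℂ) •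
    Xi g d ((17/16 * Real.exp (r * La g) : ℝ) : ℂ)
def cen : Fin 3 → ℝ := ![9/16, 21/160, -15/32]
def rad : Fin 3 → ℝ := ![1/2, 149/160, 49/32]
def ins : Fin 3 → Finset (Fin 5) := ![{1, 2}, {0, 1, 2, 4}, Finset.univ]
def HH : MW := Hol (aH g d) 1
def R1 : MW := Hol (a1 g d) 1
def TT (i : Fin 3) : ℝ → MW := Hol (aC g d (cen i) (rad i))
def RR (i : Fin 3) : MW := HH g d * TT g d i 1 * adj (HH g d)
def Php : MW := HH g d * TT g d 0 (1/2)
def Phm : MW := adj (RR g d 0) * Php g d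
def Phi : MW := HH g d * Hol (aL g d) 1
def Gf : MW := Binv (flat (Phm g d)) (Php g d) * adj (Binv (flat (Phi g d)) (Phi g d))

/-- index of the residue at the cap puncture `j` -/
def cj5 : Fin 3 → Fin 5 := ![2, 3, 4]

/-- structure of a regular part -/
structure StrM (m : CD) : Prop where
  real : ∀ z, sharp (mv m (conj z)) = mv m z
  tr : ∀ z, trW (mv m z) = 0
  ge : ∀ z, MGE (-1) (mv m z)
  hol : DifferentiableOn ℂ (mv m) (Metric.ball 0 (1/8))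

structure Str : Prop where
  realA : ∀ j, sharp (AA d j) = AA d j
  trA : ∀ j, trW (AA d j) = 0
  geA : ∀ j, MGE (-1) (AA d j)
  odd : sw (AA d 1) = -AA d 1
  realG : sharp (GG d) = GG d
  geG : MGE 0 (GG d)
  m : ∀ i, StrM (mm d i)

structure Fix : Prop where
  detG : (GG d).det = 1
  A0 : AA d 0 = GG d * (∑ j, AA d j) * adj (GG d)
  m : ∀ i, mm d i = MM g d i

end Pool.Agent.MP_efb2da_gt
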