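import Pool.Agent.MP_efb2da_gt.Pot1

open Set Complex
open scoped Topology ComplexConjugate Matrix ContDiff

noncomputable section

namespace Pool.Agent.MP_efb2da_gt

variable {g : Geo} {d : Dat}

lemma Pot2_norm_exp (r : ℝ) : ‖exp (2 * Real.pi * I * r)‖ = 1 := by
  have : (2 * Real.pi * I * r : ℂ) = ((2 * Real.pi * r : ℝ) : ℂ) * I := by push_cast; ring
  rw [this, norm_exp_ofReal_mul_I]

lemma Pot2_rad_pos (i : Fin 3) : 0 < rad i := by
  fin_cases i <;> simp [rad]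

lemma Pot2_sep (c R p r : ℝ) (hR : 0 < R) (h : 1/16 ≤ |p - c| - R ∨ 1/16 ≤ R - |p - c|) :
    1/16 ≤ ‖(c : ℂ) + R * exp (2 * Real.pi * I * r) - p‖ := by
  have e : (c : ℂ) + R * exp (2 * Real.pi * I * r) - p =
      R * exp (2 * Real.pi * I * r) - ((p - c : ℝ) : ℂ) := by push_cast; ring
  have n1 : ‖(R : ℂ) * exp (2 * Real.pi * I * r)‖ = R := by
    rw [norm_mul, Pot2_norm_exp, mul_one, Complex.norm_real, Real.norm_of_nonneg hR.le]
  have n2 : ‖((p - c : ℝ) : ℂ)‖ = |p - c| := by rw [Complex.norm_real, Real.norm_eq_abs]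
  have k := abs_norm_sub_norm_le ((R : ℂ) * exp (2 * Real.pi * I * r)) ((p - c : ℝ) : ℂ)
  rw [n1, n2] at k
  rw [e]
  have k1 := le_abs_self (R - |p - c|)
  have k2 := neg_abs_le (R - |p - c|)
  rcases h with h | h <;> linarith

lemma circle_sep (hg : AdmG g) (i : Fin 3) (r : ℝ) (j : Fin 5) :
    1/16 ≤ ‖(cen i : ℂ) + rad i * exp (2 * Real.pi * I * r) - pos (pp g) j‖ := by
  obtain ⟨-, -, -, ⟨a1, a2⟩, ⟨b1, b2⟩, ⟨c1, c2⟩⟩ := hg
  refine Pot2_sep _ _ _ r (Pot2_rad_pos i) ?_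
  have key : ∀ c R p : ℝ, (p + 1/16 ≤ c - R ∨ (c - R + 1/16 ≤ p ∧ p + 1/16 ≤ c + R)) →
      1/16 ≤ |p - c| - R ∨ 1/16 ≤ R - |p - c| := by
    intro c R p h
    rcases h with h | ⟨h, h'⟩
    · left
      have := neg_abs_le (p - c)
      linarith
    · right
      have : |p - c| ≤ R - 1/16 := abs_le.2 ⟨by linarith, by linarith⟩
      linarith
  apply key
  fin_cases i <;> fin_cases j <;> simp [cen, rad, pos] <;>
    first
    | (left; linarith)
    | (right; constructor <;> linarith)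
    | norm_num

lemma circle_mem_Dom (hg : AdmG g) (i : Fin 3) (r : ℝ) :
    ((cen i : ℂ) + rad i * exp (2 * Real.pi * I * r)) ∈ Dom g := by
  have h0 := circle_sep hg i r 0
  have h1 := circle_sep hg i r 1
  have hj := fun j => circle_sep hg i r (cj5 j)
  obtain ⟨-, ⟨e1, e2⟩, ⟨q1, q2⟩, -⟩ := hg
  have p0 : pos (pp g) 0 = 0 := rfl
  have p1 : pos (pp g) 1 = 1 := rfl
  rw [p0, ofReal_zero, sub_zero] at h0
  rw [p1, ofReal_one] at h1
  have hn : ‖(cen i : ℂ) + rad i * exp (2 * Real.pi * I * r)‖ ≤ 2 := by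
    refine (norm_add_le _ _).trans ?_
    rw [norm_mul, Pot2_norm_exp, mul_one, Complex.norm_real, Complex.norm_real, Real.norm_eq_abs,
      Real.norm_eq_abs]
    fin_cases i <;> simp [cen, rad] <;> norm_num [abs_of_pos, abs_of_neg]
  refine ⟨by linarith, by nlinarith, by nlinarith, fun j h => ?_⟩
  have := hj j
  rw [pos_cj5, h, sub_self, norm_zero] at this
  norm_num at this

lemma cen_add_rad (i : Fin 3) : cen i + rad i = 17/16 := by
  fin_cases i <;> simp [cen, rad] <;> norm_num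

lemma La1_pos (hg : AdmG g) : 0 < La1 g := by
  obtain ⟨-, ⟨e1, e2⟩, -, -⟩ := hg
  refine Real.log_pos ?_
  rw [lt_div_iff₀ (by positivity)]
  linarith

lemma La_pos (hg : AdmG g) : 0 < La g := by
  obtain ⟨-, -, ⟨e1, e2⟩, -⟩ := hg
  refine Real.log_pos ?_
  rw [lt_div_iff₀ (by positivity)]
  linarith

/-! ### joint continuity -/

lemma Pot2_c_pos (j : Fin 5) : Continuous fun p : Fin 3 → ℝ => pos p j := by
  fin_cases j
  · exact continuous_const
  · exact continuous_const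
  · exact continuous_apply 0
  · exact continuous_apply 1
  · exact continuous_apply 2

lemma Pot2_c_posG (j : Fin 5) : Continuous fun g : Geo => ((pos (pp g) j : ℝ) : ℂ) :=
  continuous_ofReal.comp ((Pot2_c_pos j).comp continuous_snd.snd.snd)
lemma Pot2_c_tt : Continuous fun g : Geo => tt g := continuous_fst
lemma Pot2_c_ee : Continuous fun g : Geo => ee g := continuous_snd.fst
lemma Pot2_c_qq : Continuous fun g : Geo => qq g := continuous_snd.snd.fst
lemma Pot2_c_AA (j : Fin 5) : Continuous fun d : Dat => AA d j :=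
  (continuous_apply j).comp continuous_fst
lemma Pot2_c_GG : Continuous fun d : Dat => GG d := continuous_snd.fst
lemma Pot2_c_mm (i : Fin 3) : Continuous fun d : Dat => mm d i :=
  (continuous_apply i).comp continuous_snd.snd

section gen
variable {X : Type} [TopologicalSpace X] {S : Set X} {γ : X → Geo} {δ : X → Dat} {z : X → ℂ}

lemma Pot2_smul {f : X → ℂ} {F : X → MW} (hf : ContinuousOn f S) (hF : ContinuousOn F S) :
    ContinuousOn (fun x => f x • F x) S := hf.smul hF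
lemma Pot2_mul {F G : X → MW} (hF : ContinuousOn F S) (hG : ContinuousOn G S) :
    ContinuousOn (fun x => F x * G x) S := hF.mul hG
lemma Pot2_add {F G : X → MW} (hF : ContinuousOn F S) (hG : ContinuousOn G S) :
    ContinuousOn (fun x => F x + G x) S := hF.add hG
lemma Pot2_sub {F G : X → MW} (hF : ContinuousOn F S) (hG : ContinuousOn G S) :
    ContinuousOn (fun x => F x - G x) S := hF.sub hG
lemma Pot2_neg {F : X → MW} (hF : ContinuousOn F S) : ContinuousOn (fun x => -F x) S := hF.neg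
lemma Pot2_adj {F : X → MW} (hF : ContinuousOn F S) : ContinuousOn (fun x => adj (F x)) S :=
  adj.continuous.comp_continuousOn hF
lemma Pot2_sw {F : X → MW} (hF : ContinuousOn F S) : ContinuousOn (fun x => sw (F x)) S :=
  sw.continuous.comp_continuousOn hF

lemma Pot2_mv (hδ : ContinuousOn δ S) (hz : ContinuousOn z S) (i : Fin 3) :
    ContinuousOn (fun x => mv (mm (δ x) i) (z x)) S :=
  continuous_mv.comp_continuousOn (((Pot2_c_mm i).comp_continuousOn hδ).prodMk hz)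

lemma Pot2_ee (hγ : ContinuousOn γ S) : ContinuousOn (fun x => ((ee (γ x) : ℝ) : ℂ)) S :=
  (continuous_ofReal.comp Pot2_c_ee).comp_continuousOn hγ
lemma Pot2_qq (hγ : ContinuousOn γ S) : ContinuousOn (fun x => ((qq (γ x) : ℝ) : ℂ)) S :=
  (continuous_ofReal.comp Pot2_c_qq).comp_continuousOn hγ
lemma Pot2_tt (hγ : ContinuousOn γ S) : ContinuousOn (fun x => ((tt (γ x) : ℝ) : ℂ)) S :=
  (continuous_ofReal.comp Pot2_c_tt).comp_continuousOn hγ
lemma Pot2_pos (hγ : ContinuousOn γ S) (j : Fin 5) :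
    ContinuousOn (fun x => ((pos (pp (γ x)) j : ℝ) : ℂ)) S :=
  (Pot2_c_posG j).comp_continuousOn hγ
lemma Pot2_AA (hδ : ContinuousOn δ S) (j : Fin 5) : ContinuousOn (fun x => AA (δ x) j) S :=
  (Pot2_c_AA j).comp_continuousOn hδ
lemma Pot2_GG (hδ : ContinuousOn δ S) : ContinuousOn (fun x => GG (δ x)) S :=
  Pot2_c_GG.comp_continuousOn hδ

lemma Pot2_rat (hγ : ContinuousOn γ S) (hδ : ContinuousOn δ S) (hz : ContinuousOn z S)
    (s : Finset (Fin 5)) (h : ∀ x ∈ S, ∀ j ∈ s, z x ≠ pos (pp (γ x)) j) :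
    ContinuousOn (fun x => rat (γ x) (δ x) s (z x)) S := by
  unfold rat
  refine continuousOn_finset_sum _ fun j hj => ?_
  exact ((hz.sub (Pot2_pos hγ j)).inv₀ fun x hx => sub_ne_zero.2 (h x hx j hj)).smul (Pot2_AA hδ j)

lemma Pot2_h1 (hγ : ContinuousOn γ S) (hδ : ContinuousOn δ S) (hz : ContinuousOn z S)
    (h : ∀ x ∈ S, z x ≠ 1) : ContinuousOn (fun x => h1 (γ x) (δ x) (z x)) S := by
  unfold h1
  have a1 : ContinuousOn (fun x => z x - 1) S := hz.sub continuousOn_const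
  have a2 := (Pot2_ee hγ).pow 2
  refine Pot2_neg (Pot2_smul ?_ ?_)
  · exact a2.div (a1.pow 2) fun x hx => pow_ne_zero 2 (sub_ne_zero.2 (h x hx))
  · exact sw.continuous.comp_continuousOn
      (Pot2_mv hδ (a2.div a1 fun x hx => sub_ne_zero.2 (h x hx)) 1)

lemma Pot2_hinf (hγ : ContinuousOn γ S) (hδ : ContinuousOn δ S) (hz : ContinuousOn z S)
    (h : ∀ x ∈ S, z x ≠ 0) : ContinuousOn (fun x => hinf (γ x) (δ x) (z x)) S := by
  unfold hinf
  refine Pot2_smul ?_ ?_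
  · exact (Pot2_qq hγ).div (hz.pow 2) fun x hx => pow_ne_zero 2 (h x hx)
  · exact ((Pot2_GG hδ).mul (Pot2_mv hδ ((Pot2_qq hγ).div hz h) 2)).mul
      (adj.continuous.comp_continuousOn (Pot2_GG hδ))

lemma Pot2_h0 (hγ : ContinuousOn γ S) (hδ : ContinuousOn δ S) (hz : ContinuousOn z S) :
    ContinuousOn (fun x => h0 (γ x) (δ x) (z x)) S := by
  unfold h0
  refine Pot2_smul (Pot2_qq hγ) ?_
  exact ((adj.continuous.comp_continuousOn (Pot2_GG hδ)).mul
    (Pot2_mv hδ ((Pot2_qq hγ).mul hz) 0)).mul (Pot2_GG hδ)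

lemma Pot2_Xi (hγ : ContinuousOn γ S) (hδ : ContinuousOn δ S) (hz : ContinuousOn z S)
    (h : ∀ x ∈ S, ∀ j, z x ≠ pos (pp (γ x)) j) :
    ContinuousOn (fun x => Xi (γ x) (δ x) (z x)) S := by
  unfold Xi
  refine (((Pot2_rat hγ hδ hz _ fun x hx j _ => h x hx j).add (Pot2_h1 hγ hδ hz ?_)).add
    (Pot2_hinf hγ hδ hz ?_)).add (Pot2_h0 hγ hδ hz)
  · intro x hx
    have := h x hx 1
    rwa [show pos (pp (γ x)) 1 = 1 from rfl, ofReal_one] at this
  · intro x hx
    have := h x hx 0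
    rwa [show pos (pp (γ x)) 0 = 0 from rfl, ofReal_zero] at this

lemma Pot2_Th (hγ : ContinuousOn γ S) (hδ : ContinuousOn δ S) (hz : ContinuousOn z S)
    (h : ∀ x ∈ S, z x ≠ 0) : ContinuousOn (fun x => Th (γ x) (δ x) (z x)) S := by
  unfold Th
  have a2 := ((Pot2_ee hγ).pow 2).div hz h
  exact ((Pot2_AA hδ 1).add (hz.smul (Pot2_mv hδ hz 1))).sub
    (a2.smul (sw.continuous.comp_continuousOn (Pot2_mv hδ a2 1)))

lemma Pot2_La1 (hγ : ContinuousOn γ S) (h : ∀ x ∈ S, AdmG (γ x)) :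
    ContinuousOn (fun x => La1 (γ x)) S := by
  unfold La1
  have a := Pot2_c_ee.comp_continuousOn hγ
  have b : ∀ x ∈ S, 16 * ee (γ x) ≠ 0 := fun x hx => by
    have := (h x hx).2.1.1
    positivity
  refine ContinuousOn.log (continuousOn_const.div (continuousOn_const.mul a) b) fun x hx => ?_
  exact one_div_ne_zero (b x hx)

lemma Pot2_La (hγ : ContinuousOn γ S) (h : ∀ x ∈ S, AdmG (γ x)) :
    ContinuousOn (fun x => La (γ x)) S := by
  unfold La
  have a := Pot2_c_qq.comp_continuousOn hγ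
  have b : ∀ x ∈ S, 17 * qq (γ x) ≠ 0 := fun x hx => by
    have := (h x hx).2.2.1.1
    positivity
  refine ContinuousOn.log (continuousOn_const.div (continuousOn_const.mul a) b) fun x hx => ?_
  exact one_div_ne_zero (b x hx)

variable {ρ : X → ℝ}

lemma Pot2_aH (hγ : ContinuousOn γ S) (hδ : ContinuousOn δ S) (hρ : ContinuousOn ρ S)
    (h : ∀ x ∈ S, AdmG (γ x)) : ContinuousOn (fun x => aH (γ x) (δ x) (ρ x)) S := by
  unfold aH
  refine Pot2_smul ?_ (Pot2_Th hγ hδ ?_ fun x hx => ?_)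
  · exact continuous_ofReal.comp_continuousOn
      ((Pot2_c_tt.comp_continuousOn hγ).mul (Pot2_La1 hγ h))
  · exact continuous_ofReal.comp_continuousOn
      ((Pot2_c_ee.comp_continuousOn hγ).mul (hρ.mul (Pot2_La1 hγ h)).rexp)
  · have := (h x hx).2.1.1
    exact ofReal_ne_zero.2 (by positivity)

lemma Pot2_cexp (hρ : ContinuousOn ρ S) :
    ContinuousOn (fun x => exp (2 * Real.pi * I * ρ x)) S :=
  (continuousOn_const.mul (continuous_ofReal.comp_continuousOn hρ)).cexp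

lemma Pot2_a1 (hγ : ContinuousOn γ S) (hδ : ContinuousOn δ S) (hρ : ContinuousOn ρ S)
    (h : ∀ x ∈ S, AdmG (γ x)) : ContinuousOn (fun x => a1 (γ x) (δ x) (ρ x)) S := by
  unfold a1
  refine Pot2_smul ?_ (Pot2_Th hγ hδ ?_ fun x hx => ?_)
  · exact continuousOn_const.mul (Pot2_tt hγ)
  · exact (Pot2_ee hγ).mul (Pot2_cexp hρ)
  · exact mul_ne_zero (ofReal_ne_zero.2 (h x hx).2.1.1.ne') (exp_ne_zero _)

lemma Pot2_aC (hγ : ContinuousOn γ S) (hδ : ContinuousOn δ S) (hρ : ContinuousOn ρ S)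
    (h : ∀ x ∈ S, AdmG (γ x)) (i : Fin 3) :
    ContinuousOn (fun x => aC (γ x) (δ x) (cen i) (rad i) (ρ x)) S := by
  unfold aC
  refine Pot2_smul ?_ (Pot2_Xi hγ hδ ?_ fun x hx j hj => ?_)
  · exact (Pot2_tt hγ).mul (continuousOn_const.mul (Pot2_cexp hρ))
  · exact continuousOn_const.add (continuousOn_const.mul (Pot2_cexp hρ))
  · have := circle_sep (h x hx) i (ρ x) j
    rw [hj, sub_self, norm_zero] at this
    norm_num at this

lemma Pot2_pos_le (hg : AdmG g) (j : Fin 5) : pos (pp g) j ≤ 1 := by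
  obtain ⟨-, -, -, ⟨a1, a2⟩, ⟨b1, b2⟩, ⟨c1, c2⟩⟩ := hg
  fin_cases j <;> simp [pos] <;> linarith

lemma Pot2_aL (hγ : ContinuousOn γ S) (hδ : ContinuousOn δ S) (hρ : ContinuousOn ρ S)
    (h : ∀ x ∈ S, AdmG (γ x)) (h' : ∀ x ∈ S, 0 ≤ ρ x) :
    ContinuousOn (fun x => aL (γ x) (δ x) (ρ x)) S := by
  unfold aL
  have a : ContinuousOn (fun x => 17/16 * Real.exp (ρ x * La (γ x))) S :=
    continuousOn_const.mul (hρ.mul (Pot2_La hγ h)).rexp
  refine Pot2_smul ?_ (Pot2_Xi hγ hδ ?_ fun x hx j hj => ?_)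
  · exact continuous_ofReal.comp_continuousOn
      (((Pot2_c_tt.comp_continuousOn hγ).mul (Pot2_La hγ h)).mul a)
  · exact continuous_ofReal.comp_continuousOn a
  · have k1 := ofReal_injective hj
    have k2 := Pot2_pos_le (h x hx) j
    have k3 := Real.one_le_exp (mul_nonneg (h' x hx) (La_pos (h x hx)).le)
    linarith

lemma Pot2_ne_of_sep {a b : ℝ} {u : ℂ} (h : 7/30 ≤ |a - b|) (hu : ‖u‖ ≤ 1/8) :
    (a : ℂ) + u ≠ b := by
  intro e
  have : u = ((b - a : ℝ) : ℂ) := by push_cast; linear_combination e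
  rw [this, Complex.norm_real, Real.norm_eq_abs, abs_sub_comm] at hu
  linarith

lemma Pot2_Mf (hγ : ContinuousOn γ S) (hδ : ContinuousOn δ S) (hz : ContinuousOn z S)
    (h : ∀ x ∈ S, AdmG (γ x)) (h' : ∀ x ∈ S, ‖z x‖ ≤ 1/8) (i : Fin 3) :
    ContinuousOn (fun x => Mf (γ x) (δ x) i (z x)) S := by
  have n1 : ∀ x ∈ S, z x ≠ 1 := fun x hx e => by
    have := h' x hx
    rw [e, norm_one] at this
    norm_num at this
  fin_cases i
  · change ContinuousOn (fun x => M0 (γ x) (δ x) (z x)) S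
    unfold M0
    refine ((Pot2_rat hγ hδ hz _ fun x hx j hj => ?_).add (Pot2_h1 hγ hδ hz n1)).add
      (Pot2_h0 hγ hδ hz)
    have := Pot2_ne_of_sep (pos_sep (h x hx).2.2.2 (Finset.ne_of_mem_erase hj).symm) (h' x hx)
    rwa [show pos (pp (γ x)) 0 = 0 from rfl, ofReal_zero, zero_add] at this
  · change ContinuousOn (fun x => M1 (γ x) (δ x) (z x)) S
    unfold M1
    have a : ContinuousOn (fun x => 1 + z x) S := continuousOn_const.add hz
    have b : ∀ x ∈ S, ∀ j : Fin 5, j ≠ 1 → 1 + z x ≠ pos (pp (γ x)) j := fun x hx j hj => by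
      have := Pot2_ne_of_sep (pos_sep (h x hx).2.2.2 hj.symm) (h' x hx)
      rwa [show pos (pp (γ x)) 1 = 1 from rfl, ofReal_one] at this
    refine ((Pot2_rat hγ hδ a _ fun x hx j hj => b x hx j (Finset.ne_of_mem_erase hj)).add
      (Pot2_hinf hγ hδ a fun x hx => ?_)).add (Pot2_h0 hγ hδ a)
    have := b x hx 0 (by decide)
    rwa [show pos (pp (γ x)) 0 = 0 from rfl, ofReal_zero] at this
  · change ContinuousOn (fun x => M2 (γ x) (δ x) (z x)) S
    unfold M2
    have a1 : ContinuousOn (fun x => 1 - z x) S := continuousOn_const.sub hz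
    have a2 := (Pot2_ee hγ).pow 2
    have n2 : ∀ x ∈ S, 1 - z x ≠ 0 := fun x hx => sub_ne_zero.2 (n1 x hx).symm
    refine Pot2_add (Pot2_sub ?_ (Pot2_smul ?_ ?_))
      (Pot2_smul (Pot2_qq hγ) ?_)
    · refine continuousOn_finset_sum _ fun j _ => Pot2_smul ?_ (Pot2_AA hδ j)
      refine (Pot2_pos hγ j).div (continuousOn_const.sub ((Pot2_pos hγ j).mul hz)) fun x hx e => ?_
      have k1 : ‖((pos (pp (γ x)) j : ℝ) : ℂ) * z x‖ = 1 := by
        rw [← sub_eq_zero.1 e, norm_one]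
      rw [norm_mul, Complex.norm_real, Real.norm_eq_abs] at k1
      have k2 := abs_pos_le (h x hx).2.2.2 j
      have k3 := h' x hx
      have k4 := abs_nonneg (pos (pp (γ x)) j)
      have k5 := norm_nonneg (z x)
      nlinarith
    · exact a2.div (a1.pow 2) fun x hx => pow_ne_zero 2 (n2 x hx)
    · exact sw.continuous.comp_continuousOn (Pot2_mv hδ ((a2.mul hz).div a1 n2) 1)
    · exact ((Pot2_GG hδ).mul (Pot2_mv hδ ((Pot2_qq hγ).mul hz) 2)).mul
        (adj.continuous.comp_continuousOn (Pot2_GG hδ))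

end gen

lemma jc_Xi : ContinuousOn (fun x : (Geo × Dat) × ℂ => Xi x.1.1 x.1.2 x.2)
    {x | ∀ j, x.2 ≠ pos (pp x.1.1) j} :=
  Pot2_Xi continuous_fst.fst.continuousOn continuous_fst.snd.continuousOn
    continuous_snd.continuousOn fun _ hx => hx
lemma jc_Th : ContinuousOn (fun x : (Geo × Dat) × ℂ => Th x.1.1 x.1.2 x.2) {x | x.2 ≠ 0} :=
  Pot2_Th continuous_fst.fst.continuousOn continuous_fst.snd.continuousOn
    continuous_snd.continuousOn fun _ hx => hx
lemma jc_aH : ContinuousOn (fun x : (Geo × Dat) × ℝ => aH x.1.1 x.1.2 x.2) {x | AdmG x.1.1} :=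
  Pot2_aH continuous_fst.fst.continuousOn continuous_fst.snd.continuousOn
    continuous_snd.continuousOn fun _ hx => hx
lemma jc_a1 : ContinuousOn (fun x : (Geo × Dat) × ℝ => a1 x.1.1 x.1.2 x.2) {x | AdmG x.1.1} :=
  Pot2_a1 continuous_fst.fst.continuousOn continuous_fst.snd.continuousOn
    continuous_snd.continuousOn fun _ hx => hx
lemma jc_aC (i : Fin 3) : ContinuousOn
    (fun x : (Geo × Dat) × ℝ => aC x.1.1 x.1.2 (cen i) (rad i) x.2) {x | AdmG x.1.1} :=
  Pot2_aC continuous_fst.fst.continuousOn continuous_fst.snd.continuousOn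
    continuous_snd.continuousOn (fun _ hx => hx) i
lemma jc_aL : ContinuousOn (fun x : (Geo × Dat) × ℝ => aL x.1.1 x.1.2 x.2)
    {x | AdmG x.1.1 ∧ 0 ≤ x.2} :=
  Pot2_aL continuous_fst.fst.continuousOn continuous_fst.snd.continuousOn
    continuous_snd.continuousOn (fun _ hx => hx.1) (fun _ hx => hx.2)
lemma continuous_aH (hg : AdmG g) : Continuous (aH g d) :=
  continuousOn_univ.1 (Pot2_aH (γ := fun _ => g) (δ := fun _ => d) (ρ := fun r => r)
    continuousOn_const continuousOn_const continuousOn_id fun _ _ => hg)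
lemma continuous_a1 (hg : AdmG g) : Continuous (a1 g d) :=
  continuousOn_univ.1 (Pot2_a1 (γ := fun _ => g) (δ := fun _ => d) (ρ := fun r => r)
    continuousOn_const continuousOn_const continuousOn_id fun _ _ => hg)
lemma continuous_aC (hg : AdmG g) (i : Fin 3) : Continuous (aC g d (cen i) (rad i)) :=
  continuousOn_univ.1 (Pot2_aC (γ := fun _ => g) (δ := fun _ => d) (ρ := fun r => r)
    continuousOn_const continuousOn_const continuousOn_id (fun _ _ => hg) i)
lemma continuousOn_aL (hg : AdmG g) : ContinuousOn (aL g d) (Icc 0 1) :=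
  Pot2_aL (γ := fun _ => g) (δ := fun _ => d) (ρ := fun r => r)
    continuousOn_const continuousOn_const continuousOn_id (fun _ _ => hg) fun _ hx => hx.1

lemma Pot2_one_mem : (1:ℝ) ∈ Icc (0:ℝ) 1 := right_mem_Icc.2 zero_le_one
lemma Pot2_half_mem : (1/2:ℝ) ∈ Icc (0:ℝ) 1 := ⟨by norm_num, by norm_num⟩

lemma Pot2_disc (z : Disc) : ‖(z : ℂ) / 8‖ ≤ 1/8 := by
  have := mem_closedBall_zero_iff.1 z.2
  rw [norm_div]
  have e : ‖(8 : ℂ)‖ = 8 := by simp
  rw [e]
  linarith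

lemma co_HH : ContinuousOn (fun x : Geo × Dat => HH x.1 x.2) {x | AdmG x.1} :=
  continuousOn_Hol (F := fun (x : Geo × Dat) r => aH x.1 x.2 r)
    (jc_aH.mono fun _ hx => hx.1) Pot2_one_mem
lemma co_R1 : ContinuousOn (fun x : Geo × Dat => R1 x.1 x.2) {x | AdmG x.1} :=
  continuousOn_Hol (F := fun (x : Geo × Dat) r => a1 x.1 x.2 r)
    (jc_a1.mono fun _ hx => hx.1) Pot2_one_mem
lemma Pot2_co_TT (i : Fin 3) {r : ℝ} (hr : r ∈ Icc (0:ℝ) 1) :
    ContinuousOn (fun x : Geo × Dat => TT x.1 x.2 i r) {x | AdmG x.1} :=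
  continuousOn_Hol (F := fun (x : Geo × Dat) r => aC x.1 x.2 (cen i) (rad i) r)
    ((jc_aC i).mono fun _ hx => hx.1) hr
lemma co_RR (i : Fin 3) : ContinuousOn (fun x : Geo × Dat => RR x.1 x.2 i) {x | AdmG x.1} :=
  (co_HH.mul (Pot2_co_TT i Pot2_one_mem)).mul (adj.continuous.comp_continuousOn co_HH)
lemma co_Php : ContinuousOn (fun x : Geo × Dat => Php x.1 x.2) {x | AdmG x.1} :=
  co_HH.mul (Pot2_co_TT 0 Pot2_half_mem)
lemma co_Phm : ContinuousOn (fun x : Geo × Dat => Phm x.1 x.2) {x | AdmG x.1} :=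
  (adj.continuous.comp_continuousOn (co_RR 0)).mul co_Php
lemma co_Phi : ContinuousOn (fun x : Geo × Dat => Phi x.1 x.2) {x | AdmG x.1} :=
  co_HH.mul (continuousOn_Hol (F := fun (x : Geo × Dat) r => aL x.1 x.2 r)
    (jc_aL.mono fun _ hx => ⟨hx.1, hx.2.1⟩) Pot2_one_mem)
lemma co_MM (i : Fin 3) : ContinuousOn (fun x : Geo × Dat => MM x.1 x.2 i) {x | AdmG x.1} :=
  continuousOn_cmk (F := fun (x : Geo × Dat) (z : Disc) => Mf x.1 x.2 i (z / 8))
    (Pot2_Mf continuous_fst.fst.continuousOn continuous_fst.snd.continuousOn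
      ((continuous_subtype_val.comp continuous_snd).div_const 8).continuousOn
      (fun _ hx => hx.1) (fun x _ => Pot2_disc x.2) i)
lemma co_Th : ContinuousOn (fun x : Geo × Dat => Th x.1 x.2 (ee x.1)) {x | AdmG x.1} :=
  Pot2_Th continuous_fst.continuousOn continuous_snd.continuousOn
    (Pot2_ee continuous_fst.continuousOn) fun _ hx => ofReal_ne_zero.2 hx.2.1.1.ne'
lemma co_Xi : ContinuousOn (fun x : Geo × Dat => Xi x.1 x.2 ((1 / √(qq x.1) : ℝ) : ℂ))
    {x | AdmG x.1} := by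
  refine Pot2_Xi continuous_fst.continuousOn continuous_snd.continuousOn ?_ fun x hx j hj => ?_
  · refine continuous_ofReal.comp_continuousOn (continuousOn_const.div ?_ fun x hx => ?_)
    · exact (Real.continuous_sqrt.comp (Pot2_c_qq.comp continuous_fst)).continuousOn
    · exact (Real.sqrt_pos.2 hx.2.2.1.1).ne'
  · have k1 := ofReal_injective hj
    have k2 := Pot2_pos_le hx j
    have k3 : 0 < √(qq x.1) := Real.sqrt_pos.2 hx.2.2.1.1
    have k4 : √(qq x.1) < 1 := by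
      rw [Real.sqrt_lt' one_pos]
      linarith [hx.2.2.1.2]
    rw [← k1, div_le_one k3] at k2
    linarith
lemma co_reg (j : Fin 3) : ContinuousOn (fun x : Geo × Dat => reg x.1 x.2 (cj5 j) (pp x.1 j))
    {x | AdmG x.1} := by
  have hγ : ContinuousOn (fun x : Geo × Dat => x.1) {x | AdmG x.1} := continuous_fst.continuousOn
  have hδ : ContinuousOn (fun x : Geo × Dat => x.2) {x | AdmG x.1} := continuous_snd.continuousOn
  have hz : ContinuousOn (fun x : Geo × Dat => ((pp x.1 j : ℝ) : ℂ)) {x | AdmG x.1} :=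
    (continuous_ofReal.comp ((continuous_apply j).comp continuous_fst.snd.snd.snd)).continuousOn
  have b : ∀ x ∈ {x : Geo × Dat | AdmG x.1}, ∀ i : Fin 5, i ≠ cj5 j →
      ((pp x.1 j : ℝ) : ℂ) ≠ pos (pp x.1) i := fun x hx i hi e => by
    have := pos_sep hx.2.2.2 hi
    rw [pos_cj5, ← ofReal_injective e, sub_self, abs_zero] at this
    norm_num at this
  unfold reg
  refine (((Pot2_rat hγ hδ hz _ fun x hx i hi => b x hx i (Finset.ne_of_mem_erase hi)).add
    (Pot2_h1 hγ hδ hz fun x hx => ?_)).add (Pot2_hinf hγ hδ hz fun x hx => ?_)).add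
    (Pot2_h0 hγ hδ hz)
  · have := b x hx 1 (by fin_cases j <;> decide)
    rwa [show pos (pp x.1) 1 = 1 from rfl, ofReal_one] at this
  · have := b x hx 0 (by fin_cases j <;> decide)
    rwa [show pos (pp x.1) 0 = 0 from rfl, ofReal_zero] at this

/-! ### holomorphy in the data -/

section dif
variable {U : Set ℂ} {c : ℂ → Dat}

lemma Pot2_dsmul (a : ℂ) {F : ℂ → MW} (hF : DifferentiableOn ℂ F U) :
    DifferentiableOn ℂ (fun τ => a • F τ) U := hF.const_smul a
lemma Pot2_dmul {F G : ℂ → MW} (hF : DifferentiableOn ℂ F U) (hG : DifferentiableOn ℂ G U) :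
    DifferentiableOn ℂ (fun τ => F τ * G τ) U := hF.mul hG
lemma Pot2_dadd {F G : ℂ → MW} (hF : DifferentiableOn ℂ F U) (hG : DifferentiableOn ℂ G U) :
    DifferentiableOn ℂ (fun τ => F τ + G τ) U := hF.add hG
lemma Pot2_dsub {F G : ℂ → MW} (hF : DifferentiableOn ℂ F U) (hG : DifferentiableOn ℂ G U) :
    DifferentiableOn ℂ (fun τ => F τ - G τ) U := hF.sub hG
lemma Pot2_dneg {F : ℂ → MW} (hF : DifferentiableOn ℂ F U) :
    DifferentiableOn ℂ (fun τ => -F τ) U := hF.neg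
lemma Pot2_d_AA (hc : DifferentiableOn ℂ c U) (j : Fin 5) :
    DifferentiableOn ℂ (fun τ => AA (c τ) j) U :=
  differentiableOn_pi.1 hc.fst j
lemma Pot2_d_GG (hc : DifferentiableOn ℂ c U) : DifferentiableOn ℂ (fun τ => GG (c τ)) U :=
  hc.snd.fst
lemma Pot2_d_mm (hc : DifferentiableOn ℂ c U) (i : Fin 3) :
    DifferentiableOn ℂ (fun τ => mm (c τ) i) U :=
  differentiableOn_pi.1 hc.snd.snd i
lemma Pot2_d_mv (hc : DifferentiableOn ℂ c U) (i : Fin 3) (z : ℂ) :
    DifferentiableOn ℂ (fun τ => mv (mm (c τ) i) z) U :=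
  (differentiable_mv z).comp_differentiableOn (Pot2_d_mm hc i)
lemma Pot2_d_adj {f : ℂ → MW} (hf : DifferentiableOn ℂ f U) :
    DifferentiableOn ℂ (fun τ => adj (f τ)) U :=
  adj.differentiable.comp_differentiableOn hf
lemma Pot2_d_sw {f : ℂ → MW} (hf : DifferentiableOn ℂ f U) :
    DifferentiableOn ℂ (fun τ => sw (f τ)) U :=
  sw.differentiable.comp_differentiableOn hf
lemma Pot2_d_rat (hc : DifferentiableOn ℂ c U) (s : Finset (Fin 5)) (z : ℂ) :
    DifferentiableOn ℂ (fun τ => rat g (c τ) s z) U := by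
  unfold rat
  exact DifferentiableOn.fun_sum fun j _ => Pot2_dsmul _ (Pot2_d_AA hc j)
lemma Pot2_d_h1 (hc : DifferentiableOn ℂ c U) (z : ℂ) :
    DifferentiableOn ℂ (fun τ => h1 g (c τ) z) U := by
  unfold h1
  exact Pot2_dneg (Pot2_dsmul _ (Pot2_d_sw (Pot2_d_mv hc 1 _)))
lemma Pot2_d_hinf (hc : DifferentiableOn ℂ c U) (z : ℂ) :
    DifferentiableOn ℂ (fun τ => hinf g (c τ) z) U := by
  unfold hinf
  exact Pot2_dsmul _ (Pot2_dmul (Pot2_dmul (Pot2_d_GG hc) (Pot2_d_mv hc 2 _))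
    (Pot2_d_adj (Pot2_d_GG hc)))
lemma Pot2_d_h0 (hc : DifferentiableOn ℂ c U) (z : ℂ) :
    DifferentiableOn ℂ (fun τ => h0 g (c τ) z) U := by
  unfold h0
  exact Pot2_dsmul _ (Pot2_dmul (Pot2_dmul (Pot2_d_adj (Pot2_d_GG hc)) (Pot2_d_mv hc 0 _))
    (Pot2_d_GG hc))
lemma Pot2_d_Xi (hc : DifferentiableOn ℂ c U) (z : ℂ) :
    DifferentiableOn ℂ (fun τ => Xi g (c τ) z) U := by
  unfold Xi
  exact Pot2_dadd (Pot2_dadd (Pot2_dadd (Pot2_d_rat hc _ z) (Pot2_d_h1 hc z)) (Pot2_d_hinf hc z))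
    (Pot2_d_h0 hc z)
lemma Pot2_d_Th (hc : DifferentiableOn ℂ c U) (z : ℂ) :
    DifferentiableOn ℂ (fun τ => Th g (c τ) z) U := by
  unfold Th
  exact Pot2_dsub (Pot2_dadd (Pot2_d_AA hc 1) (Pot2_dsmul _ (Pot2_d_mv hc 1 _)))
    (Pot2_dsmul _ (Pot2_d_sw (Pot2_d_mv hc 1 _)))
lemma Pot2_d_Mf (hc : DifferentiableOn ℂ c U) (i : Fin 3) (z : ℂ) :
    DifferentiableOn ℂ (fun τ => Mf g (c τ) i z) U := by
  fin_cases i
  · change DifferentiableOn ℂ (fun τ => M0 g (c τ) z) U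
    unfold M0
    exact Pot2_dadd (Pot2_dadd (Pot2_d_rat hc _ z) (Pot2_d_h1 hc z)) (Pot2_d_h0 hc z)
  · change DifferentiableOn ℂ (fun τ => M1 g (c τ) z) U
    unfold M1
    exact Pot2_dadd (Pot2_dadd (Pot2_d_rat hc _ _) (Pot2_d_hinf hc _)) (Pot2_d_h0 hc _)
  · change DifferentiableOn ℂ (fun τ => M2 g (c τ) z) U
    unfold M2
    refine Pot2_dadd (Pot2_dsub ?_ (Pot2_dsmul _ (Pot2_d_sw (Pot2_d_mv hc 1 _))))
      (Pot2_dsmul _ (Pot2_dmul (Pot2_dmul (Pot2_d_GG hc) (Pot2_d_mv hc 2 _))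
        (Pot2_d_adj (Pot2_d_GG hc))))
    exact DifferentiableOn.fun_sum fun j _ => Pot2_dsmul _ (Pot2_d_AA hc j)

lemma Pot2_cc {K : Type} [TopologicalSpace K] (hc : DifferentiableOn ℂ c U) (T : Set K) :
    ContinuousOn (fun x : ℂ × K => c x.1) (U ×ˢ T) :=
  hc.continuousOn.comp continuous_fst.continuousOn fun _ hx => hx.1

end dif

section
variable {U : Set ℂ} {c : ℂ → Dat} (hg : AdmG g) (hU : IsOpen U) (hc : DifferentiableOn ℂ c U)
include hg hU hc
lemma ho_HH : DifferentiableOn ℂ (fun τ => HH g (c τ)) U :=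
  differentiableOn_Hol hU (F := fun τ r => aH g (c τ) r)
    (Pot2_aH continuousOn_const (Pot2_cc hc _) continuous_snd.continuousOn fun _ _ => hg)
    (fun _ _ => Pot2_dsmul _ (Pot2_d_Th hc _)) Pot2_one_mem
lemma ho_R1 : DifferentiableOn ℂ (fun τ => R1 g (c τ)) U :=
  differentiableOn_Hol hU (F := fun τ r => a1 g (c τ) r)
    (Pot2_a1 continuousOn_const (Pot2_cc hc _) continuous_snd.continuousOn fun _ _ => hg)
    (fun _ _ => Pot2_dsmul _ (Pot2_d_Th hc _)) Pot2_one_mem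
lemma Pot2_ho_TT (i : Fin 3) {r : ℝ} (hr : r ∈ Icc (0:ℝ) 1) :
    DifferentiableOn ℂ (fun τ => TT g (c τ) i r) U :=
  differentiableOn_Hol hU (F := fun τ r => aC g (c τ) (cen i) (rad i) r)
    (Pot2_aC continuousOn_const (Pot2_cc hc _) continuous_snd.continuousOn (fun _ _ => hg) i)
    (fun _ _ => Pot2_dsmul _ (Pot2_d_Xi hc _)) hr
lemma ho_RR (i : Fin 3) : DifferentiableOn ℂ (fun τ => RR g (c τ) i) U :=
  ((ho_HH hg hU hc).mul (Pot2_ho_TT hg hU hc i Pot2_one_mem)).mul (Pot2_d_adj (ho_HH hg hU hc))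
lemma ho_Php : DifferentiableOn ℂ (fun τ => Php g (c τ)) U :=
  (ho_HH hg hU hc).mul (Pot2_ho_TT hg hU hc 0 Pot2_half_mem)
lemma ho_Phm : DifferentiableOn ℂ (fun τ => Phm g (c τ)) U :=
  (Pot2_d_adj (ho_RR hg hU hc 0)).mul (ho_Php hg hU hc)
lemma ho_Phi : DifferentiableOn ℂ (fun τ => Phi g (c τ)) U :=
  (ho_HH hg hU hc).mul (differentiableOn_Hol hU (F := fun τ r => aL g (c τ) r)
    (Pot2_aL continuousOn_const (Pot2_cc hc _) continuous_snd.continuousOn (fun _ _ => hg)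
      fun _ hx => hx.2.1)
    (fun _ _ => Pot2_dsmul _ (Pot2_d_Xi hc _)) Pot2_one_mem)
lemma ho_MM (i : Fin 3) : DifferentiableOn ℂ (fun τ => MM g (c τ) i) U :=
  differentiableOn_cmk hU (F := fun τ (z : Disc) => Mf g (c τ) i (z / 8))
    (Pot2_Mf continuousOn_const (Pot2_cc hc _)
      ((continuous_subtype_val.comp continuous_snd).div_const 8).continuousOn
      (fun _ _ => hg) (fun x _ => Pot2_disc x.2) i)
    fun _ => Pot2_d_Mf hc i _
end

end Pool.Agent.MP_efb2da_gt
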