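import Pool.Agent.MP_efb2da_gt.Par0
import Pool.Agent.MP_efb2da_gt.Lim1

open Set Complex
open scoped Topology ComplexConjugate Matrix ContDiff

noncomputable section

namespace Pool.Agent.MP_efb2da_gt

variable {y : Y8}

lemma Ref1_one_mem : (1:ℝ) ∈ Icc (0:ℝ) 1 := right_mem_Icc.2 zero_le_one

lemma Ref1_cj_nilM (κ ψ : ℝ) : cjC (nilM κ ψ) = nilM κ ψ := by
  ext i j
  fin_cases i <;> fin_cases j <;>
    simp [nilM, s1, s3, sJ, -Complex.ofReal_sin, -Complex.ofReal_cos, map_ofNat]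

lemma Ref1_sharp_zeta (e : ℝ) {a : MC} (h : cjC a = a) : sharp (zeta e a) = zeta e a := by
  have h1 : cjC (trpC a) = trpC a := by
    ext i j
    have := congrFun (congrFun h j) i
    simpa using this
  have h2 : cjC ((e / 2 : ℂ) • s3) = (e / 2 : ℂ) • s3 := by
    ext i j
    fin_cases i <;> fin_cases j <;> simp [s3, map_ofNat]
  rw [zeta]
  simp only [map_add, map_sub, sharp_cst, sharp_mono, h, h1, h2]

lemma Ref1_A10 : A10 = zeta (-1) (nilM ((-1 * (1/2) : ℝ) : ℂ) (Real.pi / 2)) := by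
  rw [A10]; congr 2; push_cast; ring

lemma Ref1_nilM_neg (κ ψ : ℝ) : nilM ((-κ : ℝ) : ℂ) ψ = -nilM κ ψ := by
  rw [nilM, nilM, ← neg_smul]; congr 1; push_cast; ring

lemma Ref1_sharp_smul (c : ℝ) {M : MW} (h : sharp M = M) : sharp ((c : ℂ) • M) = (c : ℂ) • M := by
  rw [sharp_smul, h, Complex.conj_ofReal]

theorem A10_tr : trW A10 = 0 := Lax_tr_zeta _ _ _
theorem A10_real : sharp A10 = A10 := by
  rw [Ref1_A10]; exact Ref1_sharp_zeta _ (Ref1_cj_nilM _ _)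
theorem A10_eq : A10 = mono (-1) ((-1/4 : ℂ) • s3 + (-1/4 : ℂ) • sJ) +
    mono 1 (trpC ((-1/4 : ℂ) • s3 + (-1/4 : ℂ) • sJ)) := by
  have h : nilM (-1/2) (Real.pi / 2) = (-1/4 : ℂ) • s3 + (-1/4 : ℂ) • sJ := by
    rw [nilM, Real.sin_pi_div_two, Real.cos_pi_div_two]
    ext i j
    fin_cases i <;> fin_cases j <;> simp [s1, s3, sJ] <;> norm_num
  have h2 : ((-1/4 : ℂ) • s3 + (-1/4 : ℂ) • sJ) + trpC ((-1/4 : ℂ) • s3 + (-1/4 : ℂ) • sJ) =
      (((-1 : ℝ) : ℂ) / 2) • s3 := by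
    ext i j
    fin_cases i <;> fin_cases j <;> simp [s3, sJ] <;> norm_num
  rw [A10, h, zeta, h2]
  abel
theorem zeta_add (e e' : ℝ) (a a' : MC) : zeta (e + e') (a + a') = zeta e a + zeta e' a' := by
  simp only [Lax_zeta_eq, map_add, Complex.ofReal_add, add_div, add_smul]
  abel
theorem zeta_neg (e : ℝ) (a : MC) : zeta (-e) (-a) = -zeta e a := by
  simp only [Lax_zeta_eq, map_neg, Complex.ofReal_neg, neg_div, neg_smul]
  abel
theorem det_H0 (y : Y8) : (H0 y).det = 1 :=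
  det_Hol continuousOn_const (fun _ _ => by rw [map_smul, A10_tr, smul_zero]) 1 Ref1_one_mem
theorem sharp_H0 (y : Y8) : sharp (H0 y) = H0 y :=
  sharp_Hol continuousOn_const (fun _ _ => Ref1_sharp_smul _ A10_real) 1 Ref1_one_mem

lemma Ref1_rho_pos (h : Yadm y) : 0 < rho y := by
  have := Real.sin_pos_of_pos_of_lt_pi h.1 (h.2.1.trans (by linarith [Real.pi_pos]))
  unfold rho; linarith

lemma Ref1_lax0 (h : Yadm y) :
    Bm (H0 y) * A10 * Bi (H0 y) = zeta (-1) (nilM (-rho y : ℝ) (y 0)) ∧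
    ∃ z : ℝ, symM (H0 y) = ((rho y - 1/2 : ℝ) : ℂ) • s1 + (z : ℂ) • s3 := by
  have hp := Real.pi_pos
  have key := lax (Φ₀ := 1) (A := A10) (e := -1) (ρ₀ := 1/2) (ψ₀ := Real.pi / 2) (ψ₁ := y 0)
    (c := 0) Matrix.det_one (Or.inr rfl) (by rw [Bm_one, Bi_one, one_mul, mul_one]; exact Ref1_A10)
    (by rw [Real.sin_pi_div_two]; norm_num)
    (fun ψ hψ => by
      rw [uIcc_of_ge h.2.1.le] at hψ
      have := Real.sin_pos_of_pos_of_lt_pi (h.1.trans_le hψ.1) (by linarith [hψ.2])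
      nlinarith)
    (by rw [Real.sin_pi_div_two]; norm_num)
  have e1 : (-1 * ∫ ψ in Real.pi / 2..y 0, 1 / DD 0 ψ : ℝ) = ell1 y := by
    rw [ell1, intervalIntegral.integral_symm (Real.pi / 2) (y 0)]; ring
  have e2 : rf 0 (y 0) = rho y := by
    have h0 := Ref1_rho_pos h
    unfold rho at h0 ⊢
    rw [rf, DD, mul_zero, sub_zero, Real.sqrt_sq (by linarith)]; ring
  have e3 : symM 1 = 0 := by rw [symM, Uf_one, J1_one]
  simp only [e1, e2, e3, one_mul, zero_add, neg_mul] at key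
  refine ⟨key.2.1, -∫ ψ in Real.pi / 2..y 0, rf 0 ψ * Real.sin ψ / DD 0 ψ, ?_⟩
  rw [Complex.ofReal_neg, neg_smul, ← sub_eq_add_neg]
  exact key.2.2

theorem H0_conj (h : Yadm y) :
    Bm (H0 y) * A10 * Bi (H0 y) = zeta (-1) (nilM (-rho y : ℝ) (y 0)) := (Ref1_lax0 h).1
theorem symM_H0 (h : Yadm y) :
    ∃ z : ℝ, symM (H0 y) = ((rho y - 1/2 : ℝ) : ℂ) • s1 + (z : ℂ) • s3 := (Ref1_lax0 h).2

lemma Ref1_cancel {P Q X : MW} (h : P * Q = 1) : P * (Q * X * P) * Q = X := by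
  calc P * (Q * X * P) * Q = (P * Q) * X * (P * Q) := by simp only [mul_assoc]
    _ = X := by rw [h, one_mul, mul_one]

theorem Al_one (h : Yadm y) : Al y 1 = A10 := by
  have e : zeta (sg5 1) (mat (av y 1)) = zeta (-1) (nilM (-rho y : ℝ) (y 0)) := by
    rw [← mat_nilv]; rfl
  rw [Al, e, ← H0_conj h]
  exact Ref1_cancel (Bi_mul_Bm (det_H0 y))
theorem sum_Al (y : Y8) : ∑ j, Al y j = Z40 y := by
  have e : ∑ j, zeta (sg5 j) (mat (av y j)) = -zeta 1 (nilM (rho y) (y 3)) := by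
    rw [Fin.sum_univ_five]
    simp only [← zeta_add, ← mat_add]
    rw [← zeta_neg, ← mat_nilv, ← mat_neg]
    congr 2
    · simp [sg5]
    · show nilv (-rhoE y) (y 4) + nilv (-rho y) (y 0) + nilv (rho y) (y 1) + nilv (-rho y) (y 2) +
        -(nilv (-rhoE y) (y 4) + nilv (-rho y) (y 0) + nilv (rho y) (y 1) + nilv (-rho y) (y 2) +
          nilv (rho y) (y 3)) = _
      abel
  simp only [Al]
  rw [← Finset.sum_mul, ← Finset.mul_sum, e, Z40, mul_neg, neg_mul]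
theorem Z40_tr (y : Y8) : trW (Z40 y) = 0 := by
  rw [Z40, map_neg, Bm, trW_conj, Lax_tr_zeta, mul_zero, neg_zero]
theorem det_Phi0 (y : Y8) : (Phi0 y).det = 1 := by
  rw [Phi0, Matrix.det_mul, det_H0, one_mul]
  exact det_Hol continuousOn_const (fun _ _ => by rw [map_smul, Z40_tr, smul_zero]) 1 Ref1_one_mem

lemma Ref1_sharp_Bi (y : Y8) : sharp (Bi (H0 y)) = Bi (H0 y) := by
  rw [← Bi_sharp (det_H0 y), sharp_H0]
lemma Ref1_sharp_Bm (y : Y8) : sharp (Bm (H0 y)) = Bm (H0 y) := by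
  rw [← Bm_sharp (det_H0 y), sharp_H0]
lemma Ref1_sharp_Z40 (y : Y8) : sharp (Z40 y) = Z40 y := by
  rw [Z40, map_neg, sharp_mul, sharp_mul, Ref1_sharp_Bi, Ref1_sharp_Bm,
    Ref1_sharp_zeta _ (Ref1_cj_nilM _ _)]

theorem sharp_Phi0 (y : Y8) : sharp (Phi0 y) = Phi0 y := by
  rw [Phi0, sharp_mul, sharp_H0, sharp_Hol continuousOn_const
    (fun _ _ => Ref1_sharp_smul _ (Ref1_sharp_Z40 y)) 1 Ref1_one_mem]
theorem sharp_G0 (y : Y8) : sharp (G0 y) = G0 y := by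
  rw [G0, sharp_mul, Ref1_sharp_Bi, ← Bm_sharp (det_Phi0 y), sharp_Phi0]

lemma Ref1_lax1 (h : Yadm y) :
    Bm (Phi0 y) * -Z40 y * Bi (Phi0 y) = zeta 1 (nilM (rhoE y) (y 4)) ∧
    symM (Phi0 y) - symM (H0 y) =
      ((rhoE y - rho y : ℝ) : ℂ) • s1 + ((E0 y 0 : ℝ) : ℂ) • s3 := by
  have h0 := Ref1_rho_pos h
  have hc : cc y < 0 := h.2.2.1
  have key := lax (Φ₀ := H0 y) (A := -Z40 y) (e := 1) (ρ₀ := rho y) (ψ₀ := y 3) (ψ₁ := y 4)
    (c := cc y) (det_H0 y) (Or.inl rfl)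
    (by rw [Z40, neg_neg, one_mul]; exact Ref1_cancel (Bm_mul_Bi (det_H0 y))) rfl
    (fun ψ _ => by nlinarith [sq_nonneg (Real.sin ψ)])
    (by unfold cc at hc; nlinarith)
  have e1 : (((1 * ∫ ψ in y 3..y 4, 1 / DD (cc y) ψ : ℝ) : ℂ)) • -Z40 y =
      ((ell y : ℝ) : ℂ) • Z40 y := by
    rw [ell, intervalIntegral.integral_symm (y 3) (y 4), one_mul, Complex.ofReal_neg, neg_smul,
      smul_neg]
  have e2 : E0 y 0 = -∫ ψ in y 3..y 4, rf (cc y) ψ * Real.sin ψ / DD (cc y) ψ := by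
    rw [← intervalIntegral.integral_symm]; rfl
  simp only [e1] at key
  obtain ⟨-, k1, k2⟩ := key
  rw [one_mul] at k1
  refine ⟨k1, ?_⟩
  rw [e2, Complex.ofReal_neg, neg_smul, Phi0, k2, rhoE]
  abel

theorem symM_Phi0 (h : Yadm y) : symM (Phi0 y) - symM (H0 y) =
    ((rhoE y - rho y : ℝ) : ℂ) • s1 + ((E0 y 0 : ℝ) : ℂ) • s3 := (Ref1_lax1 h).2
theorem G0_conj (h : Yadm y) : G0 y * Z40 y * adj (G0 y) = Al y 0 := by
  have e : zeta (sg5 0) (mat (av y 0)) = -zeta 1 (nilM (rhoE y) (y 4)) := by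
    rw [← zeta_neg, ← Ref1_nilM_neg, ← mat_nilv]; rfl
  have e2 : adj (G0 y) = Bi (Phi0 y) * Bm (H0 y) := by rw [G0, adj_mul, adj_Bm]; rfl
  rw [Al, e, ← (Ref1_lax1 h).1, e2, G0]
  simp only [mul_neg, neg_mul, neg_neg, mul_assoc]

lemma Ref1_co_ofReal {f : Y8 → ℝ} {F : Y8 → MW} {S : Set Y8} (hf : ContinuousOn f S)
    (hF : ContinuousOn F S) :
    ContinuousOn (fun y => Hol (fun _ => ((f y : ℝ) : ℂ) • F y) 1) S :=
  continuous_Hol_const.comp_continuousOn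
    ((Complex.continuous_ofReal.comp_continuousOn hf).smul hF)

lemma Ref1_co_comp {E : Type} [NormedAddCommGroup E] [NormedSpace ℝ E] {T : MW → E} {F : Y8 → MW}
    {S : Set Y8} (hT : ∀ Φ : MW, Φ.det = 1 → ContDiffAt ℝ ∞ T Φ) (hF : ContinuousOn F S)
    (hd : ∀ y, (F y).det = 1) : ContinuousOn (fun y => T (F y)) S :=
  fun y hy => (hT _ (hd y)).continuousAt.comp_continuousWithinAt (hF y hy)

lemma Ref1_cont_zeta (e : ℝ) : Continuous (zeta e) := by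
  have : zeta e = fun a => cst ((e / 2 : ℂ) • s3) + LaxZ a := funext (Lax_zeta_eq e)
  rw [this]
  exact continuous_const.add LaxZ.continuous

lemma Ref1_cont_mat : Continuous mat := by
  have h : ∀ i : Fin 3, Continuous fun v : Fin 3 → ℝ => ((v i : ℝ) : ℂ) := fun i =>
    Complex.continuous_ofReal.comp (continuous_apply i)
  exact (((h 0).smul continuous_const).add ((h 1).smul continuous_const)).add
    ((h 2).smul continuous_const)

theorem co_H0 : ContinuousOn H0 {y | Yadm y} := Ref1_co_ofReal continuousOn_ell1 continuousOn_const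
theorem co_U0 : ContinuousOn (fun y => Uf (H0 y)) {y | Yadm y} :=
  Ref1_co_comp (fun _ h => contDiffAt_Uf h) co_H0 det_H0
theorem co_Bm0 : ContinuousOn (fun y => Bm (H0 y)) {y | Yadm y} :=
  Ref1_co_comp (fun _ h => contDiffAt_Bm h) co_H0 det_H0
theorem co_Bi0 : ContinuousOn (fun y => Bi (H0 y)) {y | Yadm y} :=
  Ref1_co_comp (fun _ h => contDiffAt_Bi h) co_H0 det_H0
theorem co_sym0 : ContinuousOn (fun y => symM (H0 y)) {y | Yadm y} :=
  Ref1_co_comp (fun _ h => contDiffAt_symM h) co_H0 det_H0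
theorem co_Z40 : ContinuousOn Z40 {y | Yadm y} := by
  have h : Continuous fun y : Y8 => zeta 1 (nilM (rho y) (y 3)) := by
    simp only [← mat_nilv]
    exact (Ref1_cont_zeta 1).comp (Ref1_cont_mat.comp
      (Lim1_cont_nilv Lim1_cont_rho (continuous_apply 3)))
  exact ((co_Bi0.mul h.continuousOn).mul co_Bm0).neg
theorem co_Al (j : Fin 5) : ContinuousOn (fun y => Al y j) {y | Yadm y} := by
  have h : Continuous fun y : Y8 => zeta (sg5 j) (mat (av y j)) :=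
    (Ref1_cont_zeta _).comp (Ref1_cont_mat.comp (Lim1_cont_av j))
  exact (co_Bi0.mul h.continuousOn).mul co_Bm0
theorem co_Phi0 : ContinuousOn Phi0 {y | Yadm y} :=
  co_H0.mul (Ref1_co_ofReal continuousOn_ell co_Z40)
theorem co_G0 : ContinuousOn G0 {y | Yadm y} :=
  co_Bi0.mul (Ref1_co_comp (fun _ h => contDiffAt_Bm h) co_Phi0 det_Phi0)

end Pool.Agent.MP_efb2da_gt
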