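import Pool.Agent.MP_efb2da_gt.Ref1

open Set Complex
open scoped Topology ComplexConjugate Matrix ContDiff

noncomputable section

namespace Pool.Agent.MP_efb2da_gt

variable {y : Y8}

theorem cf_Al (y : Y8) (j : Fin 5) :
    cf (-1) (Al y j) = cf 0 (Bi (H0 y)) * mat (av y j) * cf 0 (Bm (H0 y)) := by
  rw [Al, MGE.cf_conj (Bi_pos (det_H0 y)) (zeta_ge _ _) (Bm_pos (det_H0 y)), cf_zeta]

lemma Ref2_det_Al (y : Y8) (j : Fin 5) : (Al y j).det = (zeta (sg5 j) (mat (av y j))).det := by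
  rw [Al, Matrix.det_mul, Matrix.det_mul, det_Bi (det_H0 y), det_Bm (det_H0 y), one_mul, mul_one]

theorem coef_det_Al2 (y : Y8) : W.coef (-1) (Al y 2).det = (E0 y 1 : ℝ) := by
  have h := coef_det_zeta (e := 1) (Or.inl rfl) (rho y) (y 1)
  rw [one_mul] at h
  rw [Ref2_det_Al, show av y 2 = nilv (rho y) (y 1) from rfl, mat_nilv]
  exact h

theorem coef_det_Al3 (y : Y8) : W.coef (-1) (Al y 3).det = (E0 y 2 : ℝ) := by
  have h := coef_det_zeta (e := -1) (Or.inr rfl) (rho y) (y 2)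
  rw [neg_one_mul] at h
  rw [Ref2_det_Al, show av y 3 = nilv (-rho y) (y 2) from rfl, mat_nilv]
  exact h

theorem coef_det_Al4 (y : Y8) : W.coef (-2) (Al y 4).det = (E0 y 4 : ℝ) := by
  have h := (zeta_ge (sg5 4) (mat (av y 4))).coef_det
  rw [cf_zeta, det_mat] at h
  rw [Ref2_det_Al]
  exact h

lemma Ref2_det_cf {M : MW} (h : MGE 0 M) (hd : M.det = 1) : (cf 0 M).det = 1 := by
  rw [← h.coef_det, hd, W.coef_one]
  simp

lemma Ref2_tr_conj {B C : MC} (hB : B.det = 1) (hC : C.det = 1) (a b : MC) :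
    trC (adjC (C * a * B) * (C * b * B)) = trC (adjC a * b) := by
  have e : adjC (C * a * B) * (C * b * B) = adjC B * (adjC a * (adjC C * C) * b * B) := by
    simp only [adjC_mul, mul_assoc]
  rw [e, adjC_mul_of_det hC, mul_one, trC_mul_comm, mul_assoc, mul_adjC_of_det hB, mul_one]

theorem res_Al (y : Y8) (j : Fin 5) :
    trC (adjC (cf (-1) (Al y j)) * cf (-1) (∑ i ∈ Finset.univ.erase j,
      ((pos (yp y) j : ℂ) - pos (yp y) i)⁻¹ • Al y i)) = (resv y j : ℝ) := by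
  have hC := Ref2_det_cf (Bi_pos (det_H0 y)) (det_Bi (det_H0 y))
  have hB := Ref2_det_cf (Bm_pos (det_H0 y)) (det_Bm (det_H0 y))
  rw [map_sum, Finset.mul_sum, map_sum, resv, Complex.ofReal_sum]
  refine Finset.sum_congr rfl fun i _ => ?_
  rw [map_smul, mul_smul_comm, map_smul, cf_Al, cf_Al, Ref2_tr_conj hB hC, tr_adj_mat, smul_eq_mul]
  push_cast
  rw [div_eq_inv_mul]

lemma Ref2_tr3 (u v w : Fin 3 → ℝ) : trC (mat u * (mat v * mat w - mat w * mat v)) =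
    (4 * (u 0 * (v 1 * w 2 - v 2 * w 1) - u 1 * (v 0 * w 2 - v 2 * w 0) +
      u 2 * (v 0 * w 1 - v 1 * w 0)) : ℝ) := by
  simp only [trC_apply, matApi2_mulC, Matrix.sub_apply]
  simp [mat, s1, s3, sJ]
  ring

lemma Ref2_tr3_conj {B C : MC} (h : B * C = 1) (a b c : MC) :
    trC (C * a * B * (C * b * B * (C * c * B) - C * c * B * (C * b * B))) =
      trC (a * (b * c - c * b)) := by
  have e : C * a * B * (C * b * B * (C * c * B) - C * c * B * (C * b * B)) =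
      C * (a * (B * C) * (b * (B * C) * c - c * (B * C) * b) * B) := by
    simp only [mul_sub, sub_mul, mul_assoc]
  rw [e, h, mul_one, mul_one, mul_one, trC_mul_comm, mul_assoc, h, mul_one]

/-- the quadratic form of a constant matrix on a constant vector -/
def Ref2_om (v : Fin 2 → ℂ) (a : MC) : ℂ :=
  (a 0 0 * v 0 + a 0 1 * v 1) * v 1 - (a 1 0 * v 0 + a 1 1 * v 1) * v 0

lemma Ref2_cap_zeta (e : ℝ) (a : MC) (v : Fin 2 → ℂ) :
    capDet (zeta e a) (fun i => algebraMap ℂ W (v i)) = algebraMap ℂ W (Ref2_om v a) +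
      W.mon 1 * algebraMap ℂ W (Ref2_om v ((e / 2 : ℂ) • s3 - (a + trpC a))) +
      W.mon 1 * W.mon 1 * algebraMap ℂ W (Ref2_om v (trpC a)) := by
  have h : W.mon 1 * W.mon (-1) = 1 := by rw [W.mon_mul_mon]; exact W.mon_zero
  simp only [capDet, Ref2_om, zeta, Matrix.mulVec, dotProduct, Fin.sum_univ_two, Matrix.add_apply,
    Matrix.sub_apply, Matrix.smul_apply, cst_apply, mono_apply, trpC_apply, Matrix.one_apply_eq,
    Matrix.one_apply_ne (show (0 : Fin 2) ≠ 1 by decide),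
    Matrix.one_apply_ne (show (1 : Fin 2) ≠ 0 by decide), smul_zero]
  simp only [Algebra.smul_def, map_add, map_sub, map_mul]
  linear_combination ((algebraMap ℂ W (a 0 0) * algebraMap ℂ W (v 0) +
    algebraMap ℂ W (a 0 1) * algebraMap ℂ W (v 1)) * algebraMap ℂ W (v 1) -
    (algebraMap ℂ W (a 1 0) * algebraMap ℂ W (v 0) +
    algebraMap ℂ W (a 1 1) * algebraMap ℂ W (v 1)) * algebraMap ℂ W (v 0)) * h

lemma Ref2_cap_conj {B C : MW} (h : B * C = 1) (hC : C.det = 1) (Z : MW) (Y : Fin 2 → W) :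
    capDet (C * Z * B) (C *ᵥ Y) = capDet Z Y := by
  have e : ((1/2 : ℂ) • (1 : MW) + C * Z * B) *ᵥ (C *ᵥ Y) =
      C *ᵥ (((1/2 : ℂ) • (1 : MW) + Z) *ᵥ Y) := by
    rw [Matrix.mulVec_mulVec, Matrix.mulVec_mulVec, add_mul, mul_add, mul_assoc, h, mul_one,
      smul_mul_assoc, mul_smul_comm, one_mul, mul_one]
  rw [Matrix.det_fin_two] at hC
  unfold capDet
  rw [e]
  generalize ((1/2 : ℂ) • (1 : MW) + Z) *ᵥ Y = U
  simp only [Matrix.mulVec, dotProduct, Fin.sum_univ_two]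
  linear_combination W.mon 1 * (U 0 * Y 1 - U 1 * Y 0) * hC

lemma Ref2_cap {Φ : MW} (hd : Φ.det = 1) (hs : sharp Φ = Φ) {e ρ χ : ℝ} (he : e ≠ 0) (hρ : ρ ≠ 0)
    (hsin : Real.sin χ = 2 * ρ) (hcos : Real.cos χ ≠ 1) :
    ∃ (Y : Fin 2 → W) (c : ℂ), c ≠ 0 ∧ (∀ i, W.GE 0 (Y i)) ∧ (∀ i, W.cj (Y i) = Y i) ∧
      capDet (Bi Φ * zeta e (nilM (e * ρ : ℝ) χ) * Bm Φ) Y = algebraMap ℂ W c := by
  set v : Fin 2 → ℂ := ![((1 - Real.cos χ : ℝ) : ℂ), ((-Real.sin χ : ℝ) : ℂ)] with hv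
  have hB : ∀ i j, W.cj (Bi Φ i j) = Bi Φ i j := fun i j => by
    rw [← sharp_apply, ← Bi_sharp hd, hs]
  have hvr : ∀ i, conj (v i) = v i := fun i => by
    fin_cases i <;> exact Complex.conj_ofReal _
  refine ⟨Bi Φ *ᵥ fun i => algebraMap ℂ W (v i), ((-(e * ρ * (2 - 2 * Real.cos χ)) : ℝ) : ℂ),
    ?_, fun i => ?_, fun i => ?_, ?_⟩
  · have : 2 - 2 * Real.cos χ ≠ 0 := fun h => hcos (by linarith)
    exact Complex.ofReal_ne_zero.2 (neg_ne_zero.2 (mul_ne_zero (mul_ne_zero he hρ) this))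
  · simp only [Matrix.mulVec, dotProduct, Fin.sum_univ_two]
    exact ((Bi_pos hd i 0).mul (W.GE_algebraMap _)).add ((Bi_pos hd i 1).mul (W.GE_algebraMap _))
  · simp only [Matrix.mulVec, dotProduct, Fin.sum_univ_two, map_add, W.cj_mul, hB,
      W.cj_algebraMap, hvr]
  have h1 : ((Real.sin χ : ℝ) : ℂ) ^ 2 + ((Real.cos χ : ℝ) : ℂ) ^ 2 = 1 := by
    exact_mod_cast Real.sin_sq_add_cos_sq χ
  have h2 : ((Real.sin χ : ℝ) : ℂ) = 2 * ρ := by exact_mod_cast hsin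
  rw [Ref2_cap_conj (Bm_mul_Bi hd) (det_Bi hd), Ref2_cap_zeta]
  have v0 : v 0 = 1 - (Real.cos χ : ℝ) := by rw [hv]; simp
  have v1 : v 1 = -(Real.sin χ : ℝ) := by rw [hv]; simp
  have n00 : nilM (e * ρ : ℝ) χ 0 0 = e * ρ / 2 * (Real.sin χ : ℝ) := by simp [nilM, s1, s3, sJ]
  have n01 : nilM (e * ρ : ℝ) χ 0 1 = e * ρ / 2 * (-1 - (Real.cos χ : ℝ)) := by
    simp [nilM, s1, s3, sJ]
  have n10 : nilM (e * ρ : ℝ) χ 1 0 = e * ρ / 2 * (1 - (Real.cos χ : ℝ)) := by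
    simp [nilM, s1, s3, sJ]
  have n11 : nilM (e * ρ : ℝ) χ 1 1 = e * ρ / 2 * (-(Real.sin χ : ℝ)) := by
    simp [nilM, s1, s3, sJ]
  have e1 : Ref2_om v (nilM (e * ρ : ℝ) χ) = ((-(e * ρ * (2 - 2 * Real.cos χ)) : ℝ) : ℂ) := by
    rw [Ref2_om, n00, n01, n10, n11, v0, v1]
    simp only [Complex.ofReal_neg, Complex.ofReal_mul, Complex.ofReal_sub, Complex.ofReal_ofNat]
    generalize ((Real.sin χ : ℝ) : ℂ) = r at h1 ⊢
    generalize ((Real.cos χ : ℝ) : ℂ) = c at h1 ⊢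
    linear_combination (-(e * ρ / 2 : ℂ) * (3 - c)) * h1
  have e2 : Ref2_om v ((e / 2 : ℂ) • s3 - (nilM (e * ρ : ℝ) χ + trpC (nilM (e * ρ : ℝ) χ))) = 0 := by
    simp only [Ref2_om, Matrix.sub_apply, Matrix.add_apply, Matrix.smul_apply, trpC_apply, n00,
      n01, n10, n11, v0, v1, smul_eq_mul]
    simp only [s3, Matrix.of_apply, Matrix.cons_val', Matrix.cons_val_zero, Matrix.cons_val_one,
      Matrix.cons_val_fin_one]
    generalize ((Real.sin χ : ℝ) : ℂ) = r at h1 h2 ⊢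
    generalize ((Real.cos χ : ℝ) : ℂ) = c at h1 ⊢
    linear_combination ((e * ρ : ℂ) * (2 - c)) * h1 - (e : ℂ) * (1 - c) * h2
  have e3 : Ref2_om v (trpC (nilM (e * ρ : ℝ) χ)) = 0 := by
    simp only [Ref2_om, trpC_apply, n00, n01, n10, n11, v0, v1]
    generalize ((Real.sin χ : ℝ) : ℂ) = r at h1 ⊢
    generalize ((Real.cos χ : ℝ) : ℂ) = c at h1 ⊢
    linear_combination (-(e * ρ / 2 : ℂ) * (1 - c)) * h1
  rw [e1, e2, e3, map_zero, mul_zero, mul_zero, add_zero, add_zero]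

theorem limProp_Al {ψ : ℝ} (h1 : Real.pi / 3 < ψ) (h2 : ψ < Real.pi / 2) :
    LimProp (Al (ystar ψ)) := by
  have hπ := Real.pi_pos
  have hh : 0 < Real.cos ψ := Real.cos_pos_of_mem_Ioo ⟨by linarith, h2⟩
  have hh' : Real.cos ψ < 1 / 2 := by
    rw [← Real.cos_pi_div_three]
    exact Real.cos_lt_cos_of_nonneg_of_le_pi (by linarith) (by linarith) h1
  have hr : 0 < Real.sin ψ := Real.sin_pos_of_pos_of_lt_pi (by linarith) (by linarith)
  have a0 : av (ystar ψ) 0 =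
      nilv (-(Real.sin ψ / 2)) (-Real.pi - Real.arccos (2 * Real.cos ψ)) := by
    rw [← rhoE_ystar h1 h2]; rfl
  have a1 : av (ystar ψ) 1 = nilv (-(Real.sin ψ / 2)) ψ := rfl
  have a2 : av (ystar ψ) 2 = nilv (Real.sin ψ / 2) (Real.pi - ψ) := rfl
  have a3 : av (ystar ψ) 3 = nilv (-(Real.sin ψ / 2)) ψ := rfl
  have a4 := av_ystar h1 h2
  have hd := det_H0 (ystar ψ)
  have hBC : cf 0 (Bm (H0 (ystar ψ))) * cf 0 (Bi (H0 (ystar ψ))) = 1 := by
    have := (Bm_pos hd).cf_mul (Bi_pos hd)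
    rw [Bm_mul_Bi hd, Iw2_cf_one] at this
    simpa using this.symm
  have c2 : ∃ (Y : Fin 2 → W) (c : ℂ), c ≠ 0 ∧ (∀ i, W.GE 0 (Y i)) ∧ (∀ i, W.cj (Y i) = Y i) ∧
      capDet (Bi (H0 (ystar ψ)) * zeta 1 (mat (nilv (Real.sin ψ / 2) (Real.pi - ψ))) *
        Bm (H0 (ystar ψ))) Y = algebraMap ℂ W c := by
    have := Ref2_cap hd (sharp_H0 _) (e := 1) (ρ := Real.sin ψ / 2) (χ := Real.pi - ψ)
      one_ne_zero (by positivity) (by rw [Real.sin_pi_sub]; ring)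
      (by rw [Real.cos_pi_sub]; linarith)
    rwa [one_mul, ← mat_nilv] at this
  refine ⟨Al_one (yadm_near h1 h2).self_of_nhds, by rw [cf_Al, cf_Al, a1, a3],
    by rw [cf_Al, cf_Al, a2, a4], ?_, fun j => ?_⟩
  · rw [cf_Al, cf_Al, cf_Al, Ref2_tr3_conj hBC, Ref2_tr3, a0, a1, a2, Complex.ofReal_ne_zero]
    have s4 : Real.sin (-Real.pi - Real.arccos (2 * Real.cos ψ)) =
        Real.sin (Real.arccos (2 * Real.cos ψ)) := by
      rw [show -Real.pi - Real.arccos (2 * Real.cos ψ) =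
        -(Real.arccos (2 * Real.cos ψ) + Real.pi) by ring, Real.sin_neg, Real.sin_add_pi, neg_neg]
    have c4 : Real.cos (-Real.pi - Real.arccos (2 * Real.cos ψ)) = -(2 * Real.cos ψ) := by
      rw [show -Real.pi - Real.arccos (2 * Real.cos ψ) =
        -(Real.arccos (2 * Real.cos ψ) + Real.pi) by ring, Real.cos_neg, Real.cos_add_pi,
        Real.cos_arccos (by linarith) (by linarith)]
    have hs : Real.sin (Real.arccos (2 * Real.cos ψ)) < Real.sin ψ := by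
      rw [Real.sin_arccos, Real.sqrt_lt' hr]
      nlinarith [Real.sin_sq_add_cos_sq ψ]
    simp only [nilv, Matrix.cons_val_zero, Matrix.cons_val_one, Matrix.cons_val_two,
      Matrix.head_cons, Matrix.tail_cons, s4, c4, Real.sin_pi_sub, Real.cos_pi_sub]
    generalize Real.sin (Real.arccos (2 * Real.cos ψ)) = s at hs
    have : 0 < Real.sin ψ ^ 3 * Real.cos ψ * (Real.sin ψ - s) := by
      have := sub_pos.2 hs
      positivity
    intro h0
    nlinarith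
  · fin_cases j
    · exact c2
    · have := Ref2_cap hd (sharp_H0 _) (e := -1) (ρ := Real.sin ψ / 2) (χ := ψ)
        (by norm_num) (by positivity) (by ring) (by linarith)
      rw [neg_one_mul, ← mat_nilv] at this
      exact this
    · rw [← a4] at c2
      exact c2

end Pool.Agent.MP_efb2da_gt
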