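import Pool.Agent.MP_efb2da_gt.Par2
import Pool.Agent.MP_efb2da_gt.Est1
import Pool.Agent.MP_efb2da_gt.Est2
import Pool.Agent.MP_efb2da_gt.Contract

open Set Complex
open scoped Topology ComplexConjugate Matrix ContDiff

noncomputable section

namespace Pool.Agent.MP_efb2da_gt

lemma So1_mul {A B : MW} {a b : ℝ} (hA : ‖A‖ ≤ a) (hB : ‖B‖ ≤ b) : ‖A * B‖ ≤ a * b :=
  (norm_mul_le _ _).trans
    (mul_le_mul hA hB (norm_nonneg _) ((norm_nonneg _).trans hA))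

lemma So1_adj {A : MW} {a : ℝ} (hA : ‖A‖ ≤ a) : ‖adj A‖ ≤ 2 * a :=
  (norm_adj_le A).trans (by linarith)

lemma So1_add {A B : MW} {a b : ℝ} (hA : ‖A‖ ≤ a) (hB : ‖B‖ ≤ b) : ‖A + B‖ ≤ a + b :=
  (norm_add_le _ _).trans (add_le_add hA hB)

lemma So1_A {H H' T : MW} {D e : ℝ} (h1 : ‖H‖ ≤ D) (h2 : ‖H - H'‖ ≤ e) (h3 : ‖T - 1‖ ≤ e) :
    ‖H * T - H'‖ ≤ (D + 1) * e := by
  have : H * T - H' = H * (T - 1) + (H - H') := by noncomm_ring
  rw [this]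
  exact (So1_add (So1_mul h1 h3) h2).trans_eq (by ring)

lemma So1_B {H H' T : MW} {D e : ℝ} (hd : H'.det = 1) (h1 : ‖H‖ ≤ D) (h1' : ‖H'‖ ≤ D)
    (h2 : ‖H - H'‖ ≤ e) (h3 : ‖T - 1‖ ≤ e) : ‖H * T * adj H - 1‖ ≤ (2 * D ^ 2 + 4 * D) * e := by
  have : H * T * adj H - 1 = H * (T - 1) * adj H + ((H - H') * adj H + H' * adj (H - H')) := by
    rw [map_sub, ← mul_adj_of_det hd]
    have e1 : H * (T - H' * adj H') * adj H = H * (T - 1) * adj H := by rw [mul_adj_of_det hd]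
    rw [e1]
    noncomm_ring
  rw [this]
  exact (So1_add (So1_mul (So1_mul h1 h3) (So1_adj h1))
    (So1_add (So1_mul h2 (So1_adj h1)) (So1_mul h1' (So1_adj h2)))).trans_eq (by ring)

lemma So1_C {R P H' : MW} {D e : ℝ} (h1 : ‖P‖ ≤ D) (h2 : ‖P - H'‖ ≤ e) (h3 : ‖R - 1‖ ≤ e) :
    ‖adj R * P - H'‖ ≤ (2 * D + 1) * e := by
  have : adj R * P - H' = adj (R - 1) * P + (P - H') := by
    rw [map_sub, adj_one]; noncomm_ring
  rw [this]
  exact (So1_add (So1_mul (So1_adj h3) h1) h2).trans_eq (by ring)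

lemma So1_D {H H' X X' : MW} {D e : ℝ} (h1 : ‖X‖ ≤ D) (h1' : ‖H'‖ ≤ D)
    (h2 : ‖H - H'‖ ≤ e) (h3 : ‖X - X'‖ ≤ e) : ‖H * X - H' * X'‖ ≤ 2 * D * e := by
  have : H * X - H' * X' = (H - H') * X + H' * (X - X') := by noncomm_ring
  rw [this]
  exact (So1_add (So1_mul h2 h1) (So1_mul h1' h3)).trans_eq (by ring)

lemma So1_conj {H' : MW} (hd : H'.det = 1) (a : MW) :
    adj (Uf H') * (H' * (Bi H' * a * Bm H') * adj H') * Uf H' = a := by
  have e1 : adj H' = Bi H' * adj (Uf H') := by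
    conv_lhs => rw [← Uf_mul_Bm hd]
    rw [adj_mul, adj_Bm]
  have e2 : adj (Uf H') * Uf H' = 1 := adj_mul_of_det (det_Uf hd)
  have e3 : adj (Uf H') * H' * Bi H' = 1 := by rw [mul_assoc]; exact e2
  have e4 : Bm H' * adj H' * Uf H' = 1 := by
    rw [e1, ← mul_assoc, Bm_mul_Bi hd, one_mul, e2]
  calc adj (Uf H') * (H' * (Bi H' * a * Bm H') * adj H') * Uf H'
      = (adj (Uf H') * H' * Bi H') * a * (Bm H' * adj H' * Uf H') := by noncomm_ring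
    _ = a := by rw [e3, e4, one_mul, mul_one]

lemma So1_E {H H' S a : MW} {D e : ℝ} (hd : H'.det = 1) (h1 : ‖H‖ ≤ D) (h1' : ‖H'‖ ≤ D)
    (hU : ‖Uf H'‖ ≤ D) (hS0 : ‖Bi H' * a * Bm H'‖ ≤ D) (he : e ≤ D)
    (h2 : ‖H - H'‖ ≤ e) (h3 : ‖S - Bi H' * a * Bm H'‖ ≤ e) :
    ‖adj (Uf H') * (H * S * adj H) * Uf H' - a‖ ≤ 16 * D ^ 4 * e := by
  set S0 := Bi H' * a * Bm H' with hS0d
  have hS : ‖S‖ ≤ 2 * D := by
    have : S = S0 + (S - S0) := by abel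
    rw [this]
    exact (So1_add hS0 h3).trans (by linarith)
  have : adj (Uf H') * (H * S * adj H) * Uf H' - a = adj (Uf H') *
      ((H - H') * S * adj H + (H' * (S - S0) * adj H + H' * S0 * adj (H - H'))) * Uf H' := by
    conv_lhs => rw [← So1_conj hd a, ← hS0d]
    rw [map_sub]
    noncomm_ring
  rw [this]
  exact (So1_mul (So1_mul (So1_adj hU) (So1_add (So1_mul (So1_mul h2 hS) (So1_adj h1))
    (So1_add (So1_mul (So1_mul h1' h3) (So1_adj h1))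
      (So1_mul (So1_mul h1' hS0) (So1_adj h2))))) hU).trans_eq (by ring)

lemma So1_norm_dat {s RG Rm : ℝ} (hG : 0 ≤ RG) (hm : 0 ≤ Rm) (p : Par) {x : EE} (hx : ‖x‖ ≤ 1)
    {B : ℝ} (hA : ‖AA (dat s RG Rm p x)‖ ≤ B) : ‖dat s RG Rm p x‖ ≤ B + RG + Rm := by
  have hB : 0 ≤ B := (norm_nonneg _).trans hA
  have h1 : ‖x.2.1‖ ≤ 1 := (norm_fst_le x.2).trans ((norm_snd_le x).trans hx)
  have h2 : ‖x.2.2‖ ≤ 1 := (norm_snd_le x.2).trans ((norm_snd_le x).trans hx)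
  have h3 : ‖(RG : ℂ) • x.2.1‖ ≤ RG := by
    rw [norm_smul, Complex.norm_real, Real.norm_of_nonneg hG]
    exact mul_le_of_le_one_right hG h1
  have h4 : ‖(fun i => (Rm : ℂ) • x.2.2 i : Fin 3 → CD)‖ ≤ Rm := by
    refine (pi_norm_le_iff_of_nonneg hm).2 fun i => ?_
    rw [norm_smul, Complex.norm_real, Real.norm_of_nonneg hm]
    exact mul_le_of_le_one_right hm ((norm_le_pi_norm _ i).trans h2)
  rw [Prod.norm_def]
  refine max_le (hA.trans (by linarith)) ?_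
  rw [Prod.norm_def]
  exact max_le (h3.trans (by linarith)) (h4.trans (by linarith))

lemma So1_sum (d : Dat) (t : Finset (Fin 5)) : ‖∑ j ∈ t, AA d j‖ ≤ 5 * ‖d‖ := by
  refine (norm_sum_le _ _).trans ?_
  have h1 : ∀ j ∈ t, ‖AA d j‖ ≤ ‖d‖ := fun j _ => (norm_le_pi_norm _ j).trans (norm_fst_le d)
  refine (Finset.sum_le_card_nsmul _ _ _ h1).trans ?_
  rw [nsmul_eq_mul]
  have h2 : (t.card : ℝ) ≤ 5 := by
    have := Finset.card_le_univ t
    rw [Fintype.card_fin] at this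
    exact_mod_cast this
  gcongr

lemma So1_le {c a b D : ℝ} (ha : 0 ≤ a) (hab : a ≤ b) (hc : |c| ≤ D) : c * a ≤ D * b :=
  mul_le_mul ((le_abs_self c).trans hc) hab ha ((abs_nonneg c).trans hc)

/-- the elementary estimates with one constant -/
lemma So1_base {K : Set Y8} (hK : IsCompact K) (hY : ∀ y ∈ K, Yadm y) {RG Rm : ℝ} (hG : 0 ≤ RG)
    (hm : 0 ≤ Rm) : ∃ D N : ℝ, 1 ≤ D ∧ ∃ s₀ > 0, s₀ ≤ 1/2 ∧ ∀ s ∈ Ioc 0 s₀, ∀ p ∈ Box K,
      ∀ x : EE, ‖x‖ ≤ 1 → ∀ g d, g = geo s p.1 → d = dat s RG Rm p x →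
      ‖d‖ ≤ N ∧ ‖HH g d‖ ≤ D ∧ ‖HH g d - H0 p.1‖ ≤ D * s ^ 2 ∧
      (∀ i, ∀ r ∈ Icc (0:ℝ) 1, ‖TT g d i r - 1‖ ≤ D * s ^ 4) ∧
      (∀ i, ‖Sof (s ^ 4) (TT g d i 1) - Bi (H0 p.1) * alZ s p x i * Bm (H0 p.1)‖ ≤ D * s ^ 4) ∧
      ‖Hol (aL g d) 1‖ ≤ D ∧
      ‖Hol (aL g d) 1 - Hol (fun _ => ((ell p.1 : ℝ) : ℂ) • Z40 p.1) 1‖ ≤ D * s ∧
      ‖R1 g d - 1‖ ≤ D * s ^ 4 ∧ ‖Sof (s ^ 4) (R1 g d) - A1p s p x‖ ≤ D * s ^ 4 ∧
      ‖H0 p.1‖ ≤ D ∧ ‖Uf (H0 p.1)‖ ≤ D ∧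
      ∀ i, ‖Bi (H0 p.1) * alZ s p x i * Bm (H0 p.1)‖ ≤ D := by
  obtain ⟨s₀, hs₀, L, hgeo⟩ := geo_est hK hY
  obtain ⟨C, hC, hpar⟩ := par_est hK hY
  obtain ⟨N, hN⟩ : ∃ N : ℝ, N = C * (1 + RG ^ 2) + RG + Rm := ⟨_, rfl⟩
  have hCN : C ≤ N := by
    have : 0 ≤ C * RG ^ 2 := by positivity
    rw [hN]; linarith
  have hN0 : 0 ≤ N := hC.trans hCN
  obtain ⟨C1, h1⟩ := est_H N L
  obtain ⟨C2, h2⟩ := est_T N
  obtain ⟨C3, h3⟩ := est_L N L
  obtain ⟨C4, h4⟩ := est_R1 N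
  obtain ⟨E, hE⟩ : ∃ E : ℝ, E = |C1| + |C2| + |C3| + |C4| := ⟨_, rfl⟩
  have a1 := abs_nonneg C1
  have a2 := abs_nonneg C2
  have a3 := abs_nonneg C3
  have a4 := abs_nonneg C4
  have k1 : |C1| ≤ E := by linarith
  have k2 : |C2| ≤ E := by linarith
  have k3 : |C3| ≤ E := by linarith
  have k4 : |C4| ≤ E := by linarith
  have hE0 : 0 ≤ E := a1.trans k1
  have hEC : 0 ≤ E * C := mul_nonneg hE0 hC
  obtain ⟨D, hD⟩ : ∃ D : ℝ, D = 1 + 5 * N + E * (3 + C) := ⟨_, rfl⟩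
  have fin0 : E * (3 + C) ≤ D := by linarith
  have fin : ∀ {u : ℝ}, 0 ≤ u → E * (3 * u + C * u) ≤ D * u := fun {u} hu =>
    (by ring : E * (3 * u + C * u) = E * (3 + C) * u).trans_le
      (mul_le_mul_of_nonneg_right fin0 hu)
  have fin1 : E ≤ D := by linarith
  have fin2 : 5 * N ≤ D := by linarith
  have fin3 : C ≤ D := by linarith
  have fin4 : 1 ≤ D := by linarith
  clear hE hD a1 a2 a3 a4 fin0 hEC
  refine ⟨D, N, fin4, min s₀ (1/2), lt_min hs₀ (by norm_num), min_le_right _ _, ?_⟩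
  rintro s hs p hp x hx g d rfl rfl
  have hs0 : 0 < s := hs.1
  have hs1 : s ≤ 1/2 := hs.2.trans (min_le_right _ _)
  have s42 : s ^ 4 ≤ s ^ 2 := pow_le_pow_of_le_one hs0.le (by linarith) (by norm_num)
  have s41 : s ^ 4 ≤ s := by
    simpa using pow_le_pow_of_le_one hs0.le (show s ≤ 1 by linarith) (show 1 ≤ 4 by norm_num)
  have s40 : 0 < s ^ 4 := by positivity
  have s20 : 0 < s ^ 2 := by positivity
  have hC4 : 0 ≤ C * s ^ 4 := by positivity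
  obtain ⟨g1, g2, g3, g4, g5, g6, g7⟩ := hgeo s ⟨hs0, hs.2.trans (min_le_left _ _)⟩ p.1 hp.1
  obtain ⟨p1, -, -, p4, -, -, -, p8, p9, p10, p11, p12, -, -, -⟩ := hpar s ⟨hs0, hs1⟩ p hp x hx
  have hd : ‖dat s RG Rm p x‖ ≤ N := hN ▸ So1_norm_dat hG hm p hx (p8 RG Rm hG)
  have e0 : 0 < ee (geo s p.1) := g1.2.1.1
  have q0 : 0 < qq (geo s p.1) := g1.2.2.1.1
  have ht : tt (geo s p.1) = s ^ 4 := rfl
  have hA1 : AA (dat s RG Rm p x) 1 = A1p s p x := rfl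
  obtain ⟨b1, b2⟩ := h1 _ _ A10 g1 hd (p9.trans hCN) (g4.trans_le g6)
  obtain ⟨c1, c2⟩ := h3 _ _ (Z40 p.1) g1 hd (p10.trans hCN) (g5.trans_le g7)
  obtain ⟨d1, d2⟩ := h4 _ _ g1 hd (dat_tr s RG Rm p x 1)
  rw [g4, ht, hA1] at b2
  rw [g5, ht, dat_sum] at c2
  rw [ht] at d1
  rw [ht, hA1] at d2
  refine ⟨hd, b1.trans ((le_abs_self _).trans (k1.trans fin1)), ?_, fun i r hr => ?_, fun i => ?_,
    c1.trans ((le_abs_self _).trans (k3.trans fin1)), ?_, ?_, ?_, p11.trans fin3,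
    p12.trans fin3, fun i => ?_⟩
  · refine b2.trans ((So1_le (add_nonneg s40.le (norm_nonneg _)) ?_ k1).trans (fin s20.le))
    linarith only [p1, s42, s20]
  · have := (h2 _ _ i g1 hd (dat_tr s RG Rm p x)).1 r hr
    rw [ht] at this
    refine this.trans ((So1_le s40.le ?_ k2).trans (fin s40.le))
    linarith only [hC4, s40]
  · have := (h2 _ _ i g1 hd (dat_tr s RG Rm p x)).2
    rw [ht, dat_ins] at this
    refine this.trans ((So1_le (add_pos (add_pos s40 e0) q0).le ?_ k2).trans (fin s40.le))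
    linarith only [hC4, g2, g3]
  · refine c2.trans ((So1_le (add_nonneg s40.le (norm_nonneg _)) ?_ k3).trans (fin hs0.le))
    linarith only [p4, s41, hs0]
  · refine d1.trans ((So1_le s40.le ?_ k4).trans (fin s40.le))
    linarith only [hC4, s40]
  · refine d2.trans ((So1_le (add_pos s40 e0).le ?_ k4).trans (fin s40.le))
    linarith only [hC4, s40, g2]
  · rw [← dat_ins s RG Rm]
    refine (So1_sum _ _).trans ?_
    linarith only [hd, fin2]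

/-- the holonomies are close to their limits, uniformly on the complex ball -/
theorem hol_close {K : Set Y8} (hK : IsCompact K) (hY : ∀ y ∈ K, Yadm y) {RG Rm : ℝ} (hG : 0 ≤ RG)
    (hm : 0 ≤ Rm) : ∃ C N : ℝ, ∃ s₀ > 0, ∀ s ∈ Ioc 0 s₀, ∀ p ∈ Box K, ∀ x : EE, ‖x‖ ≤ 1 →
      let g := geo s p.1
      let d := dat s RG Rm p x
      ‖d‖ ≤ N ∧ ‖Php g d - H0 p.1‖ ≤ C * s ∧ ‖Phm g d - H0 p.1‖ ≤ C * s ∧
      ‖Phi g d - Phi0 p.1‖ ≤ C * s ∧ ‖R1 g d - 1‖ ≤ C * s ∧ (∀ i, ‖RR g d i - 1‖ ≤ C * s) ∧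
      ‖Sof (s ^ 4) (R1 g d) - A1p s p x‖ ≤ C * s ^ 4 ∧ ∀ i, ‖errZ s RG Rm p x i‖ ≤ C * s ^ 2 := by
  obtain ⟨D, N, hD, s₀, hs₀, hs₀', h⟩ := So1_base hK hY hG hm
  refine ⟨64 * D ^ 5, N, s₀, hs₀, fun s hs p hp x hx => ?_⟩
  intro g d
  obtain ⟨b0, b1, b2, b3, b4, b5, b6, b7, b8, b9, b10, b11⟩ := h s hs p hp x hx g d rfl rfl
  have hs0 : 0 < s := hs.1
  have hs1 : s ≤ 1 := by linarith [hs.2]
  have hD0 : 0 ≤ D := by linarith
  have s42 : D * s ^ 4 ≤ D * s ^ 2 :=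
    mul_le_mul_of_nonneg_left (pow_le_pow_of_le_one hs0.le hs1 (by norm_num)) hD0
  have s21 : D * s ^ 2 ≤ D * s := by
    refine mul_le_mul_of_nonneg_left ?_ hD0
    simpa using pow_le_pow_of_le_one hs0.le hs1 (show 1 ≤ 2 by norm_num)
  have s10 : D * s ≤ D := mul_le_of_le_one_right hD0 hs1
  have D2 : D ≤ D ^ 2 := by nlinarith
  have D3 : D ^ 2 ≤ D ^ 3 := pow_le_pow_right₀ hD (by norm_num)
  have D4 : D ^ 3 ≤ D ^ 4 := pow_le_pow_right₀ hD (by norm_num)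
  have D5 : D ^ 4 ≤ D ^ 5 := pow_le_pow_right₀ hD (by norm_num)
  have fin : ∀ {c u : ℝ}, 0 ≤ u → c ≤ 64 * D ^ 5 → c * u ≤ 64 * D ^ 5 * u :=
    fun hu hc => mul_le_mul_of_nonneg_right hc hu
  have hdet := det_H0 p.1
  have cT : ∀ i, ∀ r ∈ Icc (0:ℝ) 1, ‖TT g d i r - 1‖ ≤ D * s :=
    fun i r hr => (b3 i r hr).trans (s42.trans s21)
  have cH : ‖HH g d - H0 p.1‖ ≤ D * s := b2.trans s21
  have cP : ‖Php g d - H0 p.1‖ ≤ 2 * D ^ 2 * s := by
    refine (So1_A b1 cH (cT 0 (1/2) ⟨by norm_num, by norm_num⟩)).trans ?_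
    have : (D + 1) * D ≤ 2 * D ^ 2 := by nlinarith
    nlinarith
  have cR : ∀ i, ‖RR g d i - 1‖ ≤ 6 * D ^ 3 * s := by
    intro i
    refine (So1_B hdet b1 b9 cH (cT i 1 ⟨by norm_num, by norm_num⟩)).trans ?_
    have : (2 * D ^ 2 + 4 * D) * D ≤ 6 * D ^ 3 := by nlinarith
    nlinarith
  have cP' : ‖Php g d‖ ≤ 3 * D ^ 2 := by
    have e : Php g d = H0 p.1 + (Php g d - H0 p.1) := by abel
    rw [e]
    refine (So1_add b9 cP).trans ?_
    have : 2 * D ^ 2 * s ≤ 2 * D ^ 2 := mul_le_of_le_one_right (by positivity) hs1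
    linarith
  refine ⟨b0, cP.trans (fin hs0.le (by linarith)), ?_, ?_,
    b7.trans ((s42.trans s21).trans (fin hs0.le (by linarith))),
    fun i => (cR i).trans (fin hs0.le (by linarith)), b8.trans (fin (by positivity) (by linarith)),
    fun i => ?_⟩
  · have h2 : ‖Php g d - H0 p.1‖ ≤ 6 * D ^ 3 * s :=
      cP.trans (mul_le_mul_of_nonneg_right (by linarith) hs0.le)
    refine (So1_C cP' h2 (cR 0)).trans ?_
    rw [← mul_assoc]
    refine fin hs0.le ?_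
    nlinarith
  · refine (So1_D b5 b9 cH b6).trans ?_
    rw [← mul_assoc]
    refine fin hs0.le ?_
    nlinarith
  · have e : Sof (s ^ 4) (RR g d i) = HH g d * Sof (s ^ 4) (TT g d i 1) * adj (HH g d) :=
      Sof_RR g d i
    have e2 : errZ s RG Rm p x i =
        adj (Uf (H0 p.1)) * Sof (s ^ 4) (RR g d i) * Uf (H0 p.1) - alZ s p x i := rfl
    rw [e2, e]
    refine (So1_E hdet b1 b9 b10 (b11 i) (s21.trans s10) b2 ((b4 i).trans s42)).trans ?_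
    rw [← mul_assoc]
    refine fin (by positivity) ?_
    nlinarith

lemma So1_flat {M : MW} (h : sharp M = M) : flat M = st M := by rw [st_eq, h]

/-- the gauge formula near the limit -/
theorem gf_close {K : Set Y8} (hK : IsCompact K) (hY : ∀ y ∈ K, Yadm y) {η : ℝ} (hη : 0 < η) :
    ∃ δ > 0, ∀ y ∈ K, ∀ P M Q : MW, ‖P - H0 y‖ ≤ δ → ‖M - H0 y‖ ≤ δ → ‖Q - Phi0 y‖ ≤ δ →
      ‖Binv (flat M) P * adj (Binv (flat Q) Q) - G0 y‖ ≤ η ∧
      DifferentiableAt ℂ (fun x : MW × MW => Binv x.1 x.2) (flat M, P) ∧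
      DifferentiableAt ℂ (fun x : MW × MW => Binv x.1 x.2) (flat Q, Q) ∧
      ‖(symM Q - symM P) - (symM (Phi0 y) - symM (H0 y))‖ ≤ η := by
  let r : Y8 → MW × MW × MW := fun y => (H0 y, H0 y, Phi0 y)
  have hr : ContinuousOn r K :=
    (co_H0.mono hY).prodMk ((co_H0.mono hY).prodMk (co_Phi0.mono hY))
  have hK' : IsCompact (r '' K) := hK.image_of_continuousOn hr
  let u : MW × MW × MW → MW × MW := fun z => (flat z.2.1, z.1)
  let v : MW × MW × MW → MW × MW := fun z => (flat z.2.2, z.2.2)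
  have hu : Continuous u :=
    (flat.continuous.comp (continuous_fst.comp continuous_snd)).prodMk continuous_fst
  have hv : Continuous v :=
    (flat.continuous.comp (continuous_snd.comp continuous_snd)).prodMk
      (continuous_snd.comp continuous_snd)
  have eu : ∀ y, u (r y) = (st (H0 y), H0 y) := fun y => by
    simp only [u, r, So1_flat (sharp_H0 y)]
  have ev : ∀ y, v (r y) = (st (Phi0 y), Phi0 y) := fun y => by
    simp only [v, r, So1_flat (sharp_Phi0 y)]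
  let B : MW × MW → MW := fun x => Binv x.1 x.2
  obtain ⟨δ1, hδ1, h1⟩ := unif_near hK' (f := fun z => B (u z) * adj (B (v z))) (by
    rintro _ ⟨y, -, rfl⟩
    have c1 : ContinuousAt B (u (r y)) := by
      rw [eu]; exact (binv_contDiffAt (det_H0 y)).continuousAt
    have c2 : ContinuousAt B (v (r y)) := by
      rw [ev]; exact (binv_contDiffAt (det_Phi0 y)).continuousAt
    exact (c1.comp hu.continuousAt).mul
      (adj.continuous.continuousAt.comp (c2.comp hv.continuousAt))) hη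
  obtain ⟨δ2, hδ2, h2⟩ := unif_near hK' (f := fun z => symM z.2.2 - symM z.1) (by
    rintro _ ⟨y, -, rfl⟩
    have c1 : ContinuousAt symM (r y).2.2 := (contDiffAt_symM (det_Phi0 y)).continuousAt
    have c2 : ContinuousAt symM (r y).1 := (contDiffAt_symM (det_H0 y)).continuousAt
    exact (ContinuousAt.comp (f := fun z : MW × MW × MW => z.2.2) c1
        (continuous_snd.comp continuous_snd).continuousAt).sub
      (ContinuousAt.comp (f := fun z : MW × MW × MW => z.1) c2 continuous_fst.continuousAt)) hη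
  obtain ⟨δ3, hδ3, h3⟩ := prop_near hK'
    (p := fun z => DifferentiableAt ℂ B (u z) ∧ DifferentiableAt ℂ B (v z)) (by
    rintro _ ⟨y, -, rfl⟩
    have c1 : ∀ᶠ x in 𝓝 (u (r y)), DifferentiableAt ℂ B x := by
      rw [eu]; exact binv_near (det_H0 y)
    have c2 : ∀ᶠ x in 𝓝 (v (r y)), DifferentiableAt ℂ B x := by
      rw [ev]; exact binv_near (det_Phi0 y)
    exact (hu.continuousAt.eventually c1).and (hv.continuousAt.eventually c2))
  refine ⟨min δ1 (min δ2 δ3), lt_min hδ1 (lt_min hδ2 hδ3), fun y hy P M Q hP hM hQ => ?_⟩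
  have hd : dist (P, M, Q) (r y) ≤ min δ1 (min δ2 δ3) := by
    rw [Prod.dist_eq, Prod.dist_eq, dist_eq_norm, dist_eq_norm, dist_eq_norm]
    exact max_le hP (max_le hM hQ)
  have hm : r y ∈ r '' K := mem_image_of_mem r hy
  have k1 := h1 _ hm _ (hd.trans (min_le_left _ _))
  have k2 := h2 _ hm _ (hd.trans ((min_le_right _ _).trans (min_le_left _ _)))
  have k3 := h3 _ hm _ (hd.trans ((min_le_right _ _).trans (min_le_right _ _)))
  rw [dist_eq_norm] at k1 k2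
  rw [eu, ev] at k1
  exact ⟨k1, k3.1, k3.2, k2⟩

end Pool.Agent.MP_efb2da_gt
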