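import Pool.Agent.MP_efb2da_gt.So1
import Pool.Agent.MP_efb2da_gt.Pot3

open Set Complex
open scoped Topology ComplexConjugate Matrix ContDiff

noncomputable section

namespace Pool.Agent.MP_efb2da_gt

lemma So2_sharp_Sof (t : ℝ) {R : MW} (h : sharp R = adj R) : sharp (Sof t R) = Sof t R := by
  have e : conj ((4 * Real.pi * I * t : ℂ)⁻¹) = -(4 * Real.pi * I * t : ℂ)⁻¹ := by
    rw [map_inv₀, ← inv_neg]
    congr 1
    simp [map_ofNat]
  rw [Sof, sharp_smul, map_sub, sharp_adj, h, adj_adj, e, neg_smul, ← smul_neg, neg_sub]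

lemma So2_tr_Sof (t : ℝ) (R : MW) : trW (Sof t R) = 0 := by
  rw [Sof, map_smul, map_sub, trW_adj, sub_self, smul_zero]

lemma So2_sw_Sof (t : ℝ) {R : MW} (h : sw R = adj R) : sw (Sof t R) = -Sof t R := by
  rw [Sof, map_smul, map_sub, sw_adj, h, adj_adj, ← smul_neg, neg_sub]

theorem Fmap_inv {s RG Rm : ℝ} {p : Par} {x : EE} (hg : AdmG (geo s p.1)) (hx : x ∈ CC) :
    reG (Fmap s RG Rm p x) ∈ CC := by
  have hd := dat_str s RG Rm p x hx
  have hU : sharp (Uf (H0 p.1)) = Uf (H0 p.1) := by rw [← Uf_sharp (det_H0 _), sharp_H0]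
  have hZ : ∀ i, sharp ((s⁻¹ : ℂ) • errZ s RG Rm p x i) = (s⁻¹ : ℂ) • errZ s RG Rm p x i ∧
      trW ((s⁻¹ : ℂ) • errZ s RG Rm p x i) = 0 := by
    intro i
    constructor
    · rw [sharp_smul, errZ, map_sub, sharp_mul, sharp_mul, sharp_adj, hU,
        So2_sharp_Sof _ (sharp_RR hg hd i), alZ_real s p x hx, map_inv₀, conj_ofReal]
    · rw [map_smul, errZ, map_sub, trW_conj', So2_tr_Sof, alZ_tr, mul_zero, sub_zero, smul_zero]
  have hA : AA (dat s RG Rm p x) 1 = A1p s p x := rfl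
  have h1 := hd.realA 1
  have h2 := hd.trA 1
  have h3 := hd.odd
  rw [hA] at h1 h2 h3
  rw [reG_apply]
  refine ⟨fun i => ?_, ?_, ?_, ?_, fun i => ?_⟩
  · fin_cases i
    · constructor
      · show sharp (((s ^ 3)⁻¹ : ℂ) • (Sof _ _ - _)) = ((s ^ 3)⁻¹ : ℂ) • (Sof _ _ - _)
        rw [sharp_smul, map_sub, So2_sharp_Sof _ (sharp_R1 hg hd), h1, map_inv₀, map_pow,
          conj_ofReal]
      · show trW (((s ^ 3)⁻¹ : ℂ) • (Sof _ _ - _)) = 0
        rw [map_smul, map_sub, So2_tr_Sof, h2, sub_zero, smul_zero]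
    · exact hZ 0
    · exact hZ 1
    · exact hZ 2
  · show sw (((s ^ 3)⁻¹ : ℂ) • (Sof _ _ - _)) = -(((s ^ 3)⁻¹ : ℂ) • (Sof _ _ - _))
    rw [map_smul, map_sub, So2_sw_Sof _ (sw_R1 hg hd), h3, ← smul_neg, neg_sub_neg, neg_sub]
  · show sharp ((1/2 : ℝ) • (_ + sharp _)) = (1/2 : ℝ) • (_ + sharp _)
    rw [map_smul, map_add, sharp_sharp, add_comm]
  · have h4 : MGE 0 (Fmap s RG Rm p x).2.1 := by
      show MGE 0 ((RG⁻¹ : ℂ) • Gf _ _)
      rw [Gf_eq hg hd]
      exact MGE.smul _ (by simpa using (Bi_pos (det_Php hg hd)).mul (Bm_pos (det_Phi hg hd)))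
    show MGE 0 ((1/2 : ℝ) • (_ + sharp _))
    rw [← Complex.coe_smul]
    exact (h4.add h4.sharp).smul _
  · have h4 := (StrM_MM hg hd i).smul Rm⁻¹
    rw [ofReal_inv] at h4
    exact h4

lemma So2_diff_Sof {U : Set ℂ} {R : ℂ → MW} (t : ℝ) (h : DifferentiableOn ℂ R U) :
    DifferentiableOn ℂ (fun τ => Sof t (R τ)) U :=
  (h.sub (adj.differentiable.comp_differentiableOn h)).const_smul (4 * Real.pi * I * t : ℂ)⁻¹

lemma So2_cont_Sof {X : Type} [TopologicalSpace X] {U : Set X} {R : X → MW} (t : ℝ)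
    (h : ContinuousOn R U) : ContinuousOn (fun τ => Sof t (R τ)) U :=
  (h.sub (adj.continuous.comp_continuousOn h)).const_smul (4 * Real.pi * I * t : ℂ)⁻¹

lemma So2_norm_inv {c : ℝ} (hc : 0 < c) {E : Type} [NormedAddCommGroup E] [NormedSpace ℂ E]
    {X : E} {b : ℝ} (h : ‖X‖ ≤ b * c) : ‖((c : ℂ)⁻¹) • X‖ ≤ b := by
  rw [norm_smul, norm_inv, Complex.norm_real, Real.norm_of_nonneg hc.le, inv_mul_le_iff₀ hc,
    mul_comm]
  exact h

/-- holomorphy of the fixed point map along complex lines -/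
lemma So2_diff {s RG Rm : ℝ} {p : Par} (hg : AdmG (geo s p.1))
    (hB : ∀ x : EE, ‖x‖ < 1 →
      DifferentiableAt ℂ (fun x : MW × MW => Binv x.1 x.2)
        (flat (Phm (geo s p.1) (dat s RG Rm p x)), Php (geo s p.1) (dat s RG Rm p x)) ∧
      DifferentiableAt ℂ (fun x : MW × MW => Binv x.1 x.2)
        (flat (Phi (geo s p.1) (dat s RG Rm p x)), Phi (geo s p.1) (dat s RG Rm p x)))
    (x d : EE) : DifferentiableOn ℂ (fun τ : ℂ => Fmap s RG Rm p (x + τ • d))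
      {τ | ‖x + τ • d‖ < 1} := by
  have hl : Differentiable ℂ fun τ : ℂ => x + τ • d :=
    (differentiable_id.smul_const d).const_add x
  have hU : IsOpen {τ : ℂ | ‖x + τ • d‖ < 1} := isOpen_lt hl.continuous.norm continuous_const
  have hc : DifferentiableOn ℂ (fun τ : ℂ => dat s RG Rm p (x + τ • d)) {τ | ‖x + τ • d‖ < 1} :=
    ((differentiable_dat s RG Rm p).comp hl).differentiableOn
  have hZ : ∀ i, DifferentiableOn ℂ (fun τ : ℂ => (s⁻¹ : ℂ) • errZ s RG Rm p (x + τ • d) i)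
      {τ | ‖x + τ • d‖ < 1} := fun i =>
    ((((So2_diff_Sof (s ^ 4) (ho_RR hg hU hc i)).const_mul (adj (Uf (H0 p.1)))).mul_const
      (Uf (H0 p.1))).sub
      ((differentiable_alZ s p i).comp hl).differentiableOn).const_smul (s⁻¹ : ℂ)
  have hG : DifferentiableOn ℂ (fun τ : ℂ => Gf (geo s p.1) (dat s RG Rm p (x + τ • d)))
      {τ | ‖x + τ • d‖ < 1} := by
    intro τ hτ
    have a1 := (hB _ hτ).1.comp_differentiableWithinAt τ
      (((flat.differentiable.comp_differentiableOn (ho_Phm hg hU hc)).prodMk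
        (ho_Php hg hU hc)) τ hτ)
    have a2 := (hB _ hτ).2.comp_differentiableWithinAt τ
      (((flat.differentiable.comp_differentiableOn (ho_Phi hg hU hc)).prodMk
        (ho_Phi hg hU hc)) τ hτ)
    exact a1.mul (adj.differentiableAt.comp_differentiableWithinAt τ a2)
  refine DifferentiableOn.prodMk (differentiableOn_pi.2 fun i => ?_)
    (DifferentiableOn.prodMk ?_ (differentiableOn_pi.2 fun i => ?_))
  · fin_cases i
    · exact ((So2_diff_Sof (s ^ 4) (ho_R1 hg hU hc)).sub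
        (differentiableOn_pi.1 hc.fst 1)).const_smul ((s ^ 3)⁻¹ : ℂ)
    · exact hZ 0
    · exact hZ 1
    · exact hZ 2
  · exact hG.const_smul (RG⁻¹ : ℂ)
  · exact (ho_MM hg hU hc i).const_smul (Rm⁻¹ : ℂ)

lemma So2_comp {X Y Z : Type} [TopologicalSpace X] [TopologicalSpace Y] [TopologicalSpace Z]
    {F : Y → Z} {T : Set Y} (hF : ContinuousOn F T) {f : X → Y} {S : Set X}
    (hf : ContinuousOn f S) (h : ∀ x ∈ S, f x ∈ T) : ContinuousOn (fun x => F (f x)) S :=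
  hF.comp hf h

/-- continuity of the fixed point map in the parameters -/
lemma So2_cont {s RG Rm : ℝ} {S : Set Par} {x : EE} (hY : ∀ p ∈ S, Yadm p.1)
    (hg : ∀ p ∈ S, AdmG (geo s p.1))
    (hB : ∀ p ∈ S,
      DifferentiableAt ℂ (fun x : MW × MW => Binv x.1 x.2)
        (flat (Phm (geo s p.1) (dat s RG Rm p x)), Php (geo s p.1) (dat s RG Rm p x)) ∧
      DifferentiableAt ℂ (fun x : MW × MW => Binv x.1 x.2)
        (flat (Phi (geo s p.1) (dat s RG Rm p x)), Phi (geo s p.1) (dat s RG Rm p x))) :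
    ContinuousOn (fun p => Fmap s RG Rm p x) S := by
  have hi : ContinuousOn (fun p : Par => (p, x)) S :=
    (continuous_id.prodMk continuous_const).continuousOn
  have hd := So2_comp (co_dat s RG Rm) hi hY
  have hz : ContinuousOn (fun p : Par => (geo s p.1, dat s RG Rm p x)) S :=
    (So2_comp (co_geo s) continuous_fst.continuousOn hY).prodMk hd
  have hU := So2_comp co_U0 (continuous_fst.continuousOn (s := S)) hY
  have hZ : ∀ i, ContinuousOn (fun p => (s⁻¹ : ℂ) • errZ s RG Rm p x i) S := by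
    intro i
    have b1 := So2_comp (co_RR i) hz hg
    have b2 := So2_comp (co_alZ s i) hi hY
    have b3 := adj.continuous.comp_continuousOn hU
    exact (((b3.mul (So2_cont_Sof (s ^ 4) b1)).mul hU).sub b2).const_smul (s⁻¹ : ℂ)
  have hG : ContinuousOn (fun p : Par => Gf (geo s p.1) (dat s RG Rm p x)) S := by
    intro p hp
    have b1 := So2_comp co_Phm hz hg
    have b2 := So2_comp co_Php hz hg
    have b3 := So2_comp co_Phi hz hg
    have a1 := (hB p hp).1.continuousAt.comp_continuousWithinAt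
      (f := fun p : Par => (flat (Phm (geo s p.1) (dat s RG Rm p x)),
        Php (geo s p.1) (dat s RG Rm p x)))
      (((flat.continuous.comp_continuousOn b1).prodMk b2) p hp)
    have a2 := (hB p hp).2.continuousAt.comp_continuousWithinAt
      (f := fun p : Par => (flat (Phi (geo s p.1) (dat s RG Rm p x)),
        Phi (geo s p.1) (dat s RG Rm p x)))
      (((flat.continuous.comp_continuousOn b3).prodMk b3) p hp)
    exact a1.mul (adj.continuous.continuousAt.comp_continuousWithinAt a2)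
  refine ContinuousOn.prodMk (continuousOn_pi.2 fun i => ?_)
    (ContinuousOn.prodMk ?_ (continuousOn_pi.2 fun i => ?_))
  · fin_cases i
    · exact ((So2_cont_Sof (s ^ 4) (So2_comp co_R1 hz hg)).sub
        (continuousOn_pi.1 hd.fst 1)).const_smul ((s ^ 3)⁻¹ : ℂ)
    · exact hZ 0
    · exact hZ 1
    · exact hZ 2
  · exact hG.const_smul (RG⁻¹ : ℂ)
  · exact (So2_comp (co_MM i) hz hg).const_smul (Rm⁻¹ : ℂ)

lemma So2_GG {s RG Rm : ℝ} (hG : 0 ≤ RG) (p : Par) {x : EE} (hx : ‖x‖ ≤ 1) :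
    ‖GG (dat s RG Rm p x)‖ ≤ RG := by
  have h1 : ‖x.2.1‖ ≤ 1 := (norm_fst_le x.2).trans ((norm_snd_le x).trans hx)
  show ‖(RG : ℂ) • x.2.1‖ ≤ RG
  rw [norm_smul, Complex.norm_real, Real.norm_of_nonneg hG]
  exact mul_le_of_le_one_right hG h1

lemma So2_mm {s RG Rm : ℝ} (hm : 0 ≤ Rm) (p : Par) {x : EE} (hx : ‖x‖ ≤ 1) :
    ‖mm (dat s RG Rm p x)‖ ≤ Rm := by
  have h2 : ‖x.2.2‖ ≤ 1 := (norm_snd_le x.2).trans ((norm_snd_le x).trans hx)
  refine (pi_norm_le_iff_of_nonneg hm).2 fun i => ?_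
  show ‖(Rm : ℂ) • x.2.2 i‖ ≤ Rm
  rw [norm_smul, Complex.norm_real, Real.norm_of_nonneg hm]
  exact mul_le_of_le_one_right hm ((norm_le_pi_norm _ i).trans h2)

/-- existence of the fixed point, continuous in the parameters -/
theorem exists_fixed {K : Set Y8} (hK : IsCompact K) (hY : ∀ y ∈ K, Yadm y) :
    ∃ RG Rm : ℝ, 0 < RG ∧ 0 < Rm ∧ ∃ s₀ > 0, ∀ s ∈ Ioc 0 s₀, ∃ e : Par → EE,
      ContinuousOn e (Box K) ∧
      ∀ p ∈ Box K, ‖e p‖ ≤ 1 ∧ e p ∈ CC ∧ reG (Fmap s RG Rm p (e p)) = e p := by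
  obtain ⟨C, hC, hpar⟩ := par_est hK hY
  obtain ⟨C1, hMM⟩ := est_MM
  obtain ⟨RG, hRG⟩ : ∃ RG : ℝ, RG = 8 * (C + 1) := ⟨_, rfl⟩
  obtain ⟨Q, hQ⟩ : ∃ Q : ℝ, Q = |C1| * (1 + RG ^ 2) := ⟨_, rfl⟩
  obtain ⟨Rm, hRm⟩ : ∃ Rm : ℝ, Rm = 16 * (Q * C) + 1 := ⟨_, rfl⟩
  have hG : 0 < RG := by rw [hRG]; positivity
  have hQ0 : 0 ≤ Q := by rw [hQ]; positivity
  have hm : 0 < Rm := by rw [hRm]; positivity
  obtain ⟨C2, N, s₁, hs₁, hhol⟩ := hol_close hK hY hG.le hm.le
  obtain ⟨s₂, hs₂, L, hgeo⟩ := geo_est hK hY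
  obtain ⟨δ, hδ, hgf⟩ := gf_close hK hY one_pos
  have hδ' : 0 < min δ (1/8) := lt_min hδ (by norm_num)
  refine ⟨RG, Rm, hG, hm, min (min s₁ s₂) (min (1/2) (min (min δ (1/8) / (|C2| + 1))
    (1 / (32 * (Q + 1))))), by positivity, fun s hs => ?_⟩
  obtain ⟨hs0, hs⟩ := hs
  simp only [le_min_iff] at hs
  obtain ⟨⟨k1, k2⟩, k3, k4, k5⟩ := hs
  have k6 : C2 * s ≤ min δ (1/8) := by
    rw [le_div_iff₀ (by positivity)] at k4
    nlinarith [le_abs_self C2]
  have k7 : C2 * s ≤ δ := k6.trans (min_le_left _ _)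
  have k8 : C2 * s ≤ 1/8 := k6.trans (min_le_right _ _)
  have k9 : Q * s ^ 4 ≤ 1/32 := by
    rw [le_div_iff₀ (by positivity)] at k5
    have s41 : s ^ 4 ≤ s := by
      simpa using pow_le_pow_of_le_one hs0.le (show s ≤ 1 by linarith) (show 1 ≤ 4 by norm_num)
    nlinarith [mul_le_mul_of_nonneg_left s41 hQ0]
  have hg : ∀ p ∈ Box K, AdmG (geo s p.1) := fun p hp => (hgeo s ⟨hs0, k2⟩ p.1 hp.1).1
  have hB : ∀ p ∈ Box K, ∀ x : EE, ‖x‖ ≤ 1 →
      ‖Gf (geo s p.1) (dat s RG Rm p x) - G0 p.1‖ ≤ 1 ∧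
      DifferentiableAt ℂ (fun x : MW × MW => Binv x.1 x.2)
        (flat (Phm (geo s p.1) (dat s RG Rm p x)), Php (geo s p.1) (dat s RG Rm p x)) ∧
      DifferentiableAt ℂ (fun x : MW × MW => Binv x.1 x.2)
        (flat (Phi (geo s p.1) (dat s RG Rm p x)), Phi (geo s p.1) (dat s RG Rm p x)) := by
    intro p hp x hx
    obtain ⟨-, a1, a2, a3, -⟩ := hhol s ⟨hs0, k1⟩ p hp x hx
    obtain ⟨b1, b2, b3, -⟩ := hgf p.1 hp.1 _ _ _ (a1.trans k7) (a2.trans k7) (a3.trans k7)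
    exact ⟨b1, b2, b3⟩
  obtain ⟨e, he, he'⟩ := contract (K := Box K) (F := Fmap s RG Rm) (C := CC) reG norm_reG_le
    (by
      intro p hp x hx
      obtain ⟨-, -, -, -, -, -, a1, a2⟩ := hhol s ⟨hs0, k1⟩ p hp x hx.le
      obtain ⟨-, g2, g3, -⟩ := hgeo s ⟨hs0, k2⟩ p.1 hp.1
      obtain ⟨-, -, -, -, -, -, -, p8, -, -, -, -, -, -, p15⟩ := hpar s ⟨hs0, k3⟩ p hp x hx.le
      have hZ : ∀ i, ‖(s⁻¹ : ℂ) • errZ s RG Rm p x i‖ ≤ 1/8 := fun i =>
        So2_norm_inv hs0 ((a2 i).trans (by nlinarith))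
      rw [Prod.norm_def]
      refine max_le ((pi_norm_le_iff_of_nonneg (by norm_num)).2 fun i => ?_) ?_
      · fin_cases i
        · have h3 : 0 < s ^ 3 := by positivity
          have := So2_norm_inv (b := 1/8) h3 (a1.trans (by nlinarith))
          rw [ofReal_pow] at this
          exact this
        · exact hZ 0
        · exact hZ 1
        · exact hZ 2
      rw [Prod.norm_def]
      refine max_le ?_ ((pi_norm_le_iff_of_nonneg (by norm_num)).2 fun i => ?_)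
      · refine So2_norm_inv hG ?_
        have h1 := (hB p hp x hx.le).1
        have h2 := norm_sub_norm_le (Gf (geo s p.1) (dat s RG Rm p x)) (G0 p.1)
        rw [hRG] at h1 h2 ⊢
        linarith
      · refine So2_norm_inv hm ((hMM _ _ i (hg p hp)).trans ?_)
        have e0 : 0 < ee (geo s p.1) := (hg p hp).2.1.1
        have q0 : 0 < qq (geo s p.1) := (hg p hp).2.2.1.1
        have b1 := p8 RG Rm hG.le
        have b2 := So2_GG (s := s) (Rm := Rm) hG.le p hx.le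
        have b3 := So2_mm (s := s) (RG := RG) hm.le p hx.le
        have b4 : (ee (geo s p.1) + qq (geo s p.1)) * (1 + ‖GG (dat s RG Rm p x)‖ ^ 2) *
            ‖mm (dat s RG Rm p x)‖ ≤ (2 * s ^ 4) * (1 + RG ^ 2) * Rm := by
          gcongr
          linarith
        refine (So1_le (b := C * (1 + RG ^ 2) + (2 * s ^ 4) * (1 + RG ^ 2) * Rm) (by positivity)
          (add_le_add b1 b4) le_rfl).trans ?_
        have e1 : |C1| * (C * (1 + RG ^ 2) + 2 * s ^ 4 * (1 + RG ^ 2) * Rm) =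
            Q * C + 2 * (Q * s ^ 4) * Rm := by rw [hQ]; ring
        rw [e1]
        nlinarith)
    (fun p hp => So2_diff (hg p hp) fun x hx => (hB p hp x hx.le).2)
    (fun x hx => So2_cont (fun p hp => hY _ hp.1) hg fun p hp => (hB p hp x (by linarith)).2)
    isClosed_CC zero_mem_CC (fun p hp x hx _ => Fmap_inv (hg p hp) hx)
  exact ⟨e, he, fun p hp => ⟨(he' p hp).1.trans (by norm_num), (he' p hp).2⟩⟩

end Pool.Agent.MP_efb2da_gt
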