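import Pool.Agent.MP_efb2da_gt.So1
import Pool.Agent.MP_efb2da_gt.Ref2
import Pool.Agent.MP_efb2da_gt.Pot3

open Set Complex
open scoped Topology ComplexConjugate Matrix ContDiff

noncomputable section

namespace Pool.Agent.MP_efb2da_gt

open Filter

lemma So3_iff {P : ℝ → Prop} :
    (∃ s₀ > 0, ∀ s ∈ Ioc 0 s₀, P s) ↔ ∀ᶠ s in 𝓝[>] (0:ℝ), P s :=
  (mem_nhdsGT_iff_exists_Ioc_subset (s := {s | P s})).symm

lemma So3_lin (C : ℝ) {η : ℝ} (hη : 0 < η) : ∀ᶠ s in 𝓝[>] (0:ℝ), C * s ≤ η := by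
  have h : Tendsto (fun s : ℝ => C * s) (𝓝[>] 0) (𝓝 (C * 0)) :=
    ((continuous_const.mul continuous_id).tendsto 0).mono_left nhdsWithin_le_nhds
  rw [mul_zero] at h
  exact h.eventually (ge_mem_nhds hη)

lemma So3_unit {c : ℝ} (hc : 0 < c) : ∀ᶠ s in 𝓝[>] (0:ℝ), s ∈ Ioc 0 c :=
  So3_iff.1 ⟨c, hc, fun _ h => h⟩

/-- uniform closeness along a filter -/
def So3C {Z X : Type} [PseudoMetricSpace X] (l : Filter Z) (f g : Z → X) : Prop :=
  ∀ η > 0, ∀ᶠ z in l, dist (f z) (g z) ≤ η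

section
variable {Z X Y : Type} [PseudoMetricSpace X] [PseudoMetricSpace Y] {l : Filter Z}

lemma So3C.refl (f : Z → X) : So3C l f f := fun η hη =>
  Eventually.of_forall fun z => by rw [dist_self]; exact hη.le

lemma So3C.prod {f g : Z → X} {f' g' : Z → Y} (h : So3C l f g) (h' : So3C l f' g') :
    So3C l (fun z => (f z, f' z)) (fun z => (g z, g' z)) := fun η hη => by
  filter_upwards [h η hη, h' η hη] with z h1 h2
  rw [Prod.dist_eq]
  exact max_le h1 h2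

lemma So3C.comp {P : Type} [TopologicalSpace P] {K : Set P} (hK : IsCompact K) {c : P → X}
    (hc : ContinuousOn c K) (Φ : X → Y) (hΦ : ∀ y ∈ K, ContinuousAt Φ (c y)) {f : Z → X}
    {y : Z → P} (hy : ∀ᶠ z in l, y z ∈ K) (h : So3C l f fun z => c (y z)) :
    So3C l (fun z => Φ (f z)) fun z => Φ (c (y z)) := fun η hη => by
  obtain ⟨δ, hδ, H⟩ := unif_near (hK.image_of_continuousOn hc) (f := Φ)
    (by rintro _ ⟨y, hy, rfl⟩; exact hΦ y hy) hη
  filter_upwards [h δ hδ, hy] with z h1 h2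
  exact H _ (mem_image_of_mem c h2) _ h1

lemma So3C.congr {f g f' g' : Z → X} (h : So3C l f g) (e : ∀ᶠ z in l, f z = f' z ∧ g z = g' z) :
    So3C l f' g' := fun η hη => by
  filter_upwards [h η hη, e] with z h1 h2
  rwa [← h2.1, ← h2.2]

lemma So3C.of_lin {s : Z → ℝ} (hs : Tendsto s l (𝓝[>] 0)) {f g : Z → MW} {C : ℝ}
    (h : ∀ᶠ z in l, ‖f z - g z‖ ≤ C * s z) : So3C l f g := fun η hη => by
  filter_upwards [h, hs.eventually (So3_lin C hη)] with z h1 h2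
  rw [dist_eq_norm]
  exact h1.trans h2

end

/-- the residues as a function of the gauge and of the free residues -/
def So3A (v : MW × MW × MW × MW × MW) : Fin 5 → MW :=
  ![v.1 * v.2.1 * adj v.1, v.2.2.1, v.2.2.2.1, v.2.2.2.2,
    v.2.1 - v.1 * v.2.1 * adj v.1 - v.2.2.1 - v.2.2.2.1 - v.2.2.2.2]

lemma So3A_cont : Continuous So3A := by
  refine continuous_pi fun j => ?_
  fin_cases j <;> simp only [So3A] <;> simp <;> fun_prop

lemma So3A_lim {y : Y8} (h : Yadm y) : So3A (G0 y, Z40 y, Al y 1, Al y 2, Al y 3) = Al y := by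
  have h1 := sum_Al y
  rw [Fin.sum_univ_five] at h1
  funext j
  fin_cases j <;> simp only [So3A, G0_conj h] <;> simp
  rw [← h1]
  abel

/-- the residue equations as a function of the data -/
def So3R (j : Fin 5) (v : Y8 × (Fin 5 → MW) × MW) : ℝ :=
  (trC (adjC (cf (-1) (v.2.1 j)) * cf (-1) (∑ i ∈ Finset.univ.erase j,
    ((pos (yp v.1) j : ℂ) - pos (yp v.1) i)⁻¹ • v.2.1 i + v.2.2))).re

lemma So3_pos_cont (j : Fin 5) : Continuous fun y : Y8 => pos (yp y) j := by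
  fin_cases j <;> simp [pos, yp] <;> fun_prop

lemma So3R_cont (j : Fin 5) {v : Y8 × (Fin 5 → MW) × MW} (h : Yadm v.1) :
    ContinuousAt (So3R j) v := by
  have h1 : ContinuousAt (fun v : Y8 × (Fin 5 → MW) × MW => ∑ i ∈ Finset.univ.erase j,
      ((pos (yp v.1) j : ℂ) - pos (yp v.1) i)⁻¹ • v.2.1 i) v := by
    refine tendsto_finsetSum _ fun i hi => ContinuousAt.tendsto
      (f := fun v : Y8 × (Fin 5 → MW) × MW =>
        ((pos (yp v.1) j : ℂ) - pos (yp v.1) i)⁻¹ • v.2.1 i)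
      (ContinuousAt.fun_smul (ContinuousAt.fun_inv₀ ?_ ?_) ?_)
    · exact (((continuous_ofReal.comp (So3_pos_cont j)).sub
        (continuous_ofReal.comp (So3_pos_cont i))).comp continuous_fst).continuousAt
    · have := pos_sep h.2.2.2.2 (Finset.ne_of_mem_erase hi).symm
      rw [← ofReal_sub, ofReal_ne_zero]
      intro e
      rw [e] at this
      norm_num at this
    · exact ((continuous_apply i).comp (continuous_fst.comp continuous_snd)).continuousAt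
  have h2 : Continuous fun v : Y8 × (Fin 5 → MW) × MW => adjC (cf (-1) (v.2.1 j)) :=
    adjC.continuous.comp ((cf (-1)).continuous.comp
      ((continuous_apply j).comp (continuous_fst.comp continuous_snd)))
  exact continuous_re.continuousAt.comp (trC.continuous.continuousAt.comp
    (h2.continuousAt.mul ((cf (-1)).continuous.continuousAt.comp
      (h1.add (continuous_snd.comp continuous_snd).continuousAt))))

lemma So3_det_cont (n : ℤ) (j : Fin 5) :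
    Continuous fun A : Fin 5 → MW => (W.coef n (A j).det).re :=
  continuous_re.comp ((W.coef n).continuous.comp
    ((contDiff_detW (n := 0)).continuous.comp (continuous_apply j)))

lemma So3_gauge {RG : ℝ} (hG : 0 < RG) {F x : EE} {G G' : MW} (hF : F.2.1 = (RG⁻¹ : ℂ) • G)
    (h : reG F = x) (hs : sharp G' = G') : ‖(RG : ℂ) • x.2.1 - G'‖ ≤ ‖G - G'‖ := by
  have hG' : (RG : ℂ) ≠ 0 := ofReal_ne_zero.2 hG.ne'
  have e : (RG : ℂ) • x.2.1 - G' = (1/2 : ℝ) • ((G - G') + sharp (G - G')) := by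
    rw [← h, reG_apply, hF, map_sub, hs, sharp_smul, map_inv₀, conj_ofReal, ← smul_add]
    simp only []
    rw [smul_comm, smul_smul, mul_inv_cancel₀ hG', one_smul]
    module
  rw [e, norm_smul]
  have := norm_add_le (G - G') (sharp (G - G'))
  rw [norm_sharp] at this
  rw [Real.norm_of_nonneg (by norm_num)]
  linarith

theorem hard_close {K : Set Y8} (hK : IsCompact K) (hY : ∀ y ∈ K, Yadm y) {RG Rm : ℝ} (hG : 0 < RG)
    (hm : 0 ≤ Rm) {η : ℝ} (hη : 0 < η) : ∃ s₀ > 0, ∀ s ∈ Ioc 0 s₀, ∀ p ∈ Box K, ∀ x : EE,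
      ‖x‖ ≤ 1 → reG (Fmap s RG Rm p x) = x →
      (∀ j, ‖AA (dat s RG Rm p x) j - Al p.1 j‖ ≤ η) ∧
      ∀ i, |Et (geo s p.1) (dat s RG Rm p x) i - E0 p.1 i| ≤ η := by
  obtain ⟨l, hl⟩ : ∃ l : Filter (ℝ × Par × EE), l = comap Prod.fst (𝓝[>] 0) ⊓
    𝓟 {z | z.2.1 ∈ Box K ∧ ‖z.2.2‖ ≤ 1 ∧ reG (Fmap z.1 RG Rm z.2.1 z.2.2) = z.2.2} := ⟨_, rfl⟩
  have hs : Tendsto Prod.fst l (𝓝[>] 0) := hl ▸ tendsto_comap.mono_left inf_le_left
  have hT : ∀ᶠ z in l, z.2.1 ∈ Box K ∧ ‖z.2.2‖ ≤ 1 ∧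
      reG (Fmap z.1 RG Rm z.2.1 z.2.2) = z.2.2 := hl ▸ mem_inf_of_right (mem_principal_self _)
  have hy : ∀ᶠ z in l, z.2.1.1 ∈ K := hT.mono fun z h => h.1.1
  have hin : ∀ {P : ℝ → Par → EE → Prop},
      (∃ s₀ > 0, ∀ s ∈ Ioc 0 s₀, ∀ p ∈ Box K, ∀ x, ‖x‖ ≤ 1 → P s p x) →
      ∀ᶠ z in l, P z.1 z.2.1 z.2.2 := fun h => by
    filter_upwards [hs.eventually (So3_iff.1 h), hT] with z h1 h2 using h1 _ h2.1 _ h2.2.1
  have hsub : K ⊆ {y | Yadm y} := hY
  obtain ⟨C, N, hhol⟩ := hol_close hK hY hG.le hm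
  have hhol := hin hhol
  obtain ⟨C', hC', hpar⟩ := par_est hK hY
  have hpar := hin ⟨1/2, by norm_num, hpar⟩
  obtain ⟨s₁, hs₁, L, hgeo⟩ := geo_est hK hY
  have hgeo : ∀ᶠ z in l, AdmG (geo z.1 z.2.1.1) ∧ ee (geo z.1 z.2.1.1) ≤ z.1 ^ 4 ∧
      qq (geo z.1 z.2.1.1) ≤ z.1 ^ 4 := by
    filter_upwards [hs.eventually (So3_unit hs₁), hy] with z h1 h2
    exact ⟨(hgeo _ h1 _ h2).1, (hgeo _ h1 _ h2).2.1, (hgeo _ h1 _ h2).2.2.1⟩
  have h01 := hs.eventually (So3_unit one_pos)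
  have hgf : ∀ η > 0, ∀ᶠ z in l,
      ‖Gf (geo z.1 z.2.1.1) (dat z.1 RG Rm z.2.1 z.2.2) - G0 z.2.1.1‖ ≤ η ∧
      ‖(symM (Phi (geo z.1 z.2.1.1) (dat z.1 RG Rm z.2.1 z.2.2)) -
        symM (Php (geo z.1 z.2.1.1) (dat z.1 RG Rm z.2.1 z.2.2))) -
        (symM (Phi0 z.2.1.1) - symM (H0 z.2.1.1))‖ ≤ η := fun η hη => by
    obtain ⟨δ, hδ, H⟩ := gf_close hK hY hη
    filter_upwards [hhol, hy, hs.eventually (So3_lin C hδ)] with z h1 h2 h3
    have := H _ h2 _ _ _ (h1.2.1.trans h3) (h1.2.2.1.trans h3) (h1.2.2.2.1.trans h3)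
    exact ⟨this.1, this.2.2.2⟩
  have cG : So3C l (fun z => GG (dat z.1 RG Rm z.2.1 z.2.2)) fun z => G0 z.2.1.1 := fun η hη => by
    filter_upwards [hgf η hη, hT] with z h1 h2
    rw [dist_eq_norm]
    exact (So3_gauge hG rfl h2.2.2 (sharp_G0 _)).trans h1.1
  have cZ : So3C l (fun z => Z4 z.1 z.2.1 z.2.2) fun z => Z40 z.2.1.1 :=
    So3C.of_lin hs (hpar.mono fun z h => h.2.2.2.1)
  have c1 : So3C l (fun z => A1p z.1 z.2.1 z.2.2) fun z => Al z.2.1.1 1 := by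
    refine So3C.of_lin hs (C := C') ?_
    filter_upwards [hpar, hy, h01] with z h1 h2 h3
    rw [Al_one (hY _ h2)]
    exact h1.1.trans (mul_le_mul_of_nonneg_left (by nlinarith [h3.1, h3.2]) hC')
  have c2 : So3C l (fun z => A2p z.1 z.2.1 z.2.2) fun z => Al z.2.1.1 2 :=
    So3C.of_lin hs (hpar.mono fun z h => h.2.1)
  have c3 : So3C l (fun z => A3p z.1 z.2.1 z.2.2) fun z => Al z.2.1.1 3 :=
    So3C.of_lin hs (hpar.mono fun z h => h.2.2.1)
  have cA : So3C l (fun z => AA (dat z.1 RG Rm z.2.1 z.2.2)) fun z => Al z.2.1.1 := by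
    refine (So3C.comp hK (c := fun y => (G0 y, Z40 y, Al y 1, Al y 2, Al y 3))
      ((co_G0.mono hsub).prodMk ((co_Z40.mono hsub).prodMk (((co_Al 1).mono hsub).prodMk
        (((co_Al 2).mono hsub).prodMk ((co_Al 3).mono hsub))))) So3A
      (fun _ _ => So3A_cont.continuousAt) hy
      (cG.prod (cZ.prod (c1.prod (c2.prod c3))))).congr ?_
    exact hy.mono fun z h => ⟨rfl, So3A_lim (hY _ h)⟩
  have hAl : ContinuousOn Al K := continuousOn_pi.2 fun j => (co_Al j).mono hsub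
  have cD := fun n j => So3C.comp hK hAl (fun A => (W.coef n (A j).det).re)
    (fun _ _ => (So3_det_cont n j).continuousAt) hy cA
  obtain ⟨Cr, hreg⟩ := est_reg N
  have cR : ∀ j : Fin 3, So3C l
      (fun z => (resj (geo z.1 z.2.1.1) (dat z.1 RG Rm z.2.1 z.2.2) j).re)
      fun z => resv z.2.1.1 (cj5 j) := fun j => by
    have cE : So3C l (fun z =>
        reg (geo z.1 z.2.1.1) (dat z.1 RG Rm z.2.1 z.2.2) (cj5 j) (pp (geo z.1 z.2.1.1) j) -
        rat (geo z.1 z.2.1.1) (dat z.1 RG Rm z.2.1 z.2.2) (Finset.univ.erase (cj5 j))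
          (pp (geo z.1 z.2.1.1) j)) fun _ => 0 := by
      refine So3C.of_lin hs (C := 2 * |Cr|) ?_
      filter_upwards [hhol, hgeo, h01] with z h1 h2 h3
      rw [sub_zero]
      refine (hreg _ _ j _ h2.1 h1.1 (by simp)).2.trans ?_
      have h4 : z.1 ^ 4 ≤ z.1 := pow_le_of_le_one h3.1.le h3.2 (by norm_num)
      have h5 := h2.1.2.1.1
      have h6 := h2.1.2.2.1.1
      calc _ ≤ |Cr| * (z.1 + z.1) :=
            mul_le_mul (le_abs_self _) (by linarith [h2.2.1, h2.2.2]) (by linarith) (abs_nonneg _)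
        _ = _ := by ring
    refine (So3C.comp hK (c := fun y => (y, Al y, (0 : MW)))
      (continuousOn_id.prodMk (hAl.prodMk continuousOn_const)) (So3R (cj5 j))
      (fun y h => So3R_cont _ (hY y h)) hy ((So3C.refl _).prod (cA.prod cE))).congr
      (Eventually.of_forall fun z => ⟨?_, ?_⟩)
    · simp only [So3R, resj, rat, pos_cj5]
      rw [show pp (geo z.1 z.2.1.1) = yp z.2.1.1 from rfl, add_sub_cancel]
    · simp only [So3R]
      rw [add_zero, res_Al, ofReal_re]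
  have fin : ∀ᶠ z in l, (∀ j, ‖AA (dat z.1 RG Rm z.2.1 z.2.2) j - Al z.2.1.1 j‖ ≤ η) ∧
      ∀ i, |Et (geo z.1 z.2.1.1) (dat z.1 RG Rm z.2.1 z.2.2) i - E0 z.2.1.1 i| ≤ η := by
    filter_upwards [cA η hη, hgf η hη, hy, cD (-1) 2 η hη, cD (-1) 3 η hη, cD (-2) 4 η hη,
      cR 0 η hη, cR 1 η hη, cR 2 η hη] with z h1 h2 h3 d1 d2 d4 r0 r1 r2
    refine ⟨fun j => ?_, fun i => ?_⟩
    · rw [← dist_eq_norm]
      exact (dist_le_pi_dist _ _ j).trans h1
    have h4 := fun i j => (abs_re_le_norm _).trans ((norm_entryC_le _ i j).trans h2.2)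
    rw [symM_Phi0 (hY _ h3)] at h4
    rw [coef_det_Al2, ofReal_re, Real.dist_eq] at d1
    rw [coef_det_Al3, ofReal_re, Real.dist_eq] at d2
    rw [coef_det_Al4, ofReal_re, Real.dist_eq] at d4
    rw [Real.dist_eq] at r0 r1 r2
    fin_cases i
    · simpa [Et, s1, s3] using h4 0 0
    · exact d1
    · exact d2
    · simpa [Et, E0, s1, s3] using h4 0 1
    · exact d4
    · exact r0
    · exact r1
    · exact r2
  rw [hl, eventually_inf_principal, eventually_comap] at fin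
  refine So3_iff.2 (fin.mono fun s h p hp x hx hf => ?_)
  exact h (s, p, x) rfl ⟨hp, hx, hf⟩

lemma So3_detC (M N : MC) : ‖M.det - N.det‖ ≤ 2 * ‖M - N‖ * (‖M‖ + ‖N‖) := by
  have e : M.det - N.det = (M - N) 0 0 * M 1 1 + (M - N) 1 1 * N 0 0 -
      ((M - N) 0 1 * M 1 0 + (M - N) 1 0 * N 0 1) := by
    simp only [Matrix.det_fin_two, Matrix.sub_apply]
    ring
  have h : ∀ (A : MC) i j k l, ‖(M - N) i j * A k l‖ ≤ ‖M - N‖ * ‖A‖ := fun A i j k l => by
    rw [norm_mul]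
    exact mul_le_mul (norm_entryC_le _ _ _) (norm_entryC_le _ _ _) (norm_nonneg _) (norm_nonneg _)
  rw [e]
  refine ((norm_sub_le _ _).trans (add_le_add (norm_add_le _ _) (norm_add_le _ _))).trans ?_
  linarith [h M 0 0 1 1, h N 1 1 0 0, h M 0 1 1 0, h N 1 0 0 1]

lemma So3_det {M N : MW} {a B : ℝ} (h : ‖M - N‖ ≤ a) (ha : a ≤ B) (hN : ‖N‖ ≤ B) :
    ‖(cf (-1) M).det - (cf (-1) N).det‖ ≤ 6 * a * B := by
  have h0 := (norm_nonneg _).trans h
  have h1 : ‖cf (-1) M - cf (-1) N‖ ≤ a := by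
    rw [← map_sub]
    exact (norm_cf_le _ _).trans h
  have h2 := (norm_cf_le (-1) N).trans hN
  have h3 : ‖cf (-1) M‖ ≤ 2 * B := by
    linarith [norm_le_insert' (cf (-1) M) (cf (-1) N)]
  calc _ ≤ 2 * ‖cf (-1) M - cf (-1) N‖ * (‖cf (-1) M‖ + ‖cf (-1) N‖) := So3_detC _ _
    _ ≤ 2 * a * (2 * B + B) := by gcongr
    _ = _ := by ring

lemma So3_pm {σ : ℝ} (h : σ ^ 2 = 1) : σ = 1 ∨ σ = -1 :=
  sq_eq_sq_iff_eq_or_eq_neg.1 (h.trans (one_pow 2).symm)

lemma So3_sgn1 {t σ k : ℝ} {j J D : ℂ} (ht : 0 < t) (ht' : t ≤ 1/1000) (hσ : σ ^ 2 = 1)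
    (hk : |k - 1| ≤ 4 * t ^ 2) (hk' : 1/2 ≤ k) (hj : ‖j‖ ≤ t / 100) (hJ : ‖J‖ ≤ t / 100)
    (hD : ‖D - (((j - (1/2 + t * σ : ℝ)) / 2) ^ 2 -
      (-(((1/2 + t * σ : ℝ) : ℂ) ^ 2 / k) - J / 2) ^ 2)‖ ≤ t / 100) : 0 < σ * -D.re := by
  obtain ⟨b, hb⟩ : ∃ b : ℝ, b = 1/2 + t * σ := ⟨_, rfl⟩
  rw [← hb] at hD
  have hσ1 : |σ| = 1 := by
    rw [← sq_eq_sq₀ (abs_nonneg _) zero_le_one, sq_abs, hσ, one_pow]
  have hσ2 := abs_le.1 hσ1.le
  have hb1 : 49/100 ≤ b := by nlinarith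
  have hb2 : b ≤ 51/100 := by nlinarith
  have hk0 : 0 < k := by linarith
  obtain ⟨a, ha⟩ : ∃ a : ℂ, a = ((b ^ 2 * ((1 - k) / k) : ℝ) : ℂ) + J / 2 := ⟨_, rfl⟩
  have hk1 : |(1 - k) / k| ≤ t / 100 := by
    rw [abs_div, abs_sub_comm, abs_of_pos hk0, div_le_iff₀ hk0]
    nlinarith
  have ha1 : ‖a‖ ≤ t / 50 := by
    rw [ha]
    refine (norm_add_le _ _).trans ?_
    rw [norm_real, norm_div, Real.norm_eq_abs, abs_mul, abs_of_nonneg (sq_nonneg b)]
    have : b ^ 2 * |(1 - k) / k| ≤ 1 * (t / 100) :=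
      mul_le_mul (by nlinarith) hk1 (abs_nonneg _) zero_le_one
    norm_num
    linarith
  have e : ((j - b) / 2) ^ 2 - (-((b : ℂ) ^ 2 / k) - J / 2) ^ 2 =
      -((b ^ 2 * (b + 1/2) * (t * σ) : ℝ) : ℂ) -
        (2 * b ^ 2 * a + a * a + b / 2 * j - j * j / 4) := by
    have hk2 : (k : ℂ) ≠ 0 := ofReal_ne_zero.2 hk0.ne'
    have h1 : ((t * σ : ℝ) : ℂ) = b - 1/2 := by rw [hb]; push_cast; ring
    rw [ofReal_mul, h1, ha]
    push_cast
    field_simp
    ring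
  have hX : ‖2 * b ^ 2 * a + a * a + b / 2 * j - j * j / 4‖ ≤ t / 10 := by
    have h1 : ‖2 * (b : ℂ) ^ 2 * a‖ ≤ 1 * (t / 50) := by
      rw [norm_mul]
      refine mul_le_mul ?_ ha1 (norm_nonneg _) zero_le_one
      simp only [norm_mul, norm_pow, norm_real, Real.norm_eq_abs, sq_abs, Complex.norm_ofNat]
      nlinarith
    have h2 : ‖a * a‖ ≤ 1 * (t / 50) := by
      rw [norm_mul]
      exact mul_le_mul (by linarith) ha1 (norm_nonneg _) zero_le_one
    have h3 : ‖(b : ℂ) / 2 * j‖ ≤ 1 * (t / 100) := by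
      rw [norm_mul]
      refine mul_le_mul ?_ hj (norm_nonneg _) zero_le_one
      simp only [norm_div, norm_real, Real.norm_eq_abs, Complex.norm_ofNat]
      rw [abs_of_pos (by linarith)]
      linarith
    have h4 : ‖j * j / 4‖ ≤ t / 100 := by
      have : ‖j‖ * ‖j‖ ≤ 1 * (t / 100) :=
        mul_le_mul (by linarith) hj (norm_nonneg _) zero_le_one
      simp only [norm_div, norm_mul, Complex.norm_ofNat]
      linarith
    refine ((norm_sub_le _ _).trans (add_le_add ((norm_add_le _ _).trans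
      (add_le_add (norm_add_le _ _) le_rfl)) le_rfl)).trans ?_
    linarith
  rw [e] at hD
  generalize 2 * (b : ℂ) ^ 2 * a + a * a + b / 2 * j - j * j / 4 = X at hD hX
  have h1 := abs_le.1 ((abs_re_le_norm _).trans hD)
  have h2 := abs_le.1 ((abs_re_le_norm _).trans hX)
  simp only [sub_re, neg_re, ofReal_re] at h1
  have h3 : 1/5 ≤ b ^ 2 * (b + 1/2) := by nlinarith
  generalize b ^ 2 * (b + 1/2) = m at h1 h3
  have h4 : 1/5 * t ≤ m * t := mul_le_mul_of_nonneg_right h3 ht.le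
  rcases So3_pm hσ with h | h <;> rw [h] at h1 ⊢ <;> nlinarith [h1.1, h1.2]

lemma So3_sgn2 {s σ ρ r : ℝ} {k D : ℂ} (hs : 0 < s) (hs' : s ≤ r / 4) (hσ : σ ^ 2 = 1)
    (hρ : r ≤ ρ) (hk : ‖k - ρ‖ ≤ r / 4)
    (hD : ‖D - -(((s * σ : ℝ) : ℂ) * (k + ((s * σ : ℝ) : ℂ)))‖ ≤ s * (r / 4)) :
    0 < σ * -D.re := by
  have h1 := abs_le.1 ((abs_re_le_norm _).trans hD)
  have h2 := abs_le.1 ((abs_re_le_norm _).trans hk)
  simp only [sub_re, neg_re, ofReal_re, re_ofReal_mul, add_re] at h1 h2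
  rcases So3_pm hσ with h | h <;> rw [h] at h1 ⊢ <;> nlinarith [h1.1, h1.2]

theorem hard_sign {K : Set Y8} (hK : IsCompact K) (hY : ∀ y ∈ K, Yadm y) {RG Rm : ℝ} (hG : 0 ≤ RG)
    (hm : 0 ≤ Rm) : ∃ s₀ > 0, ∀ s ∈ Ioc 0 s₀, ∀ p ∈ Box K, ∀ x : EE, ‖x‖ ≤ 1 →
      (p.2.1 = 1 → 0 < Eb (geo s p.1) (dat s RG Rm p x)) ∧
      (p.2.1 = -1 → Eb (geo s p.1) (dat s RG Rm p x) < 0) ∧
      (p.2.2 = 1 → 0 < Em (geo s p.1) (dat s RG Rm p x)) ∧
      (p.2.2 = -1 → Em (geo s p.1) (dat s RG Rm p x) < 0) := by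
  obtain ⟨C, N, hhol⟩ := hol_close hK hY hG hm
  obtain ⟨C', hC', hpar⟩ := par_est hK hY
  obtain ⟨s₁, hs₁, L, hgeo⟩ := geo_est hK hY
  obtain ⟨Cf, hfar⟩ := est_far N
  obtain ⟨r, hr, hρ⟩ := hK.exists_forall_le' (f := rho) (a := 0)
    (by unfold rho; fun_prop) fun y hy => half_pos (Real.sin_pos_of_pos_of_lt_pi (hY y hy).1
      (by linarith [(hY y hy).2.1, Real.pi_pos]))
  refine So3_iff.2 ?_
  filter_upwards [So3_iff.1 hhol, So3_unit hs₁, So3_unit (c := 1/100) (by norm_num),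
    So3_lin C' (η := 1/100) (by norm_num), So3_lin C' (η := r / 4) (by positivity),
    So3_lin 1 (η := r / 4) (by positivity),
    So3_lin (6 * (2 * N) * (2 * N)) (η := 1/100) (by norm_num),
    So3_lin (6 * (2 * |Cf|) * (5 * N + 2 * |Cf|)) (η := r / 4) (by positivity)]
    with s h1 h2 h3 h4 h5 h6 h7 h8 p hp x hx
  have hN := (h1 p hp x hx).1
  have hN0 := (norm_nonneg _).trans hN
  obtain ⟨hg, hε, hq, -⟩ := hgeo s h2 _ hp.1
  obtain ⟨-, -, -, -, hk4, hj, hJ, -⟩ := hpar s ⟨h3.1, by linarith [h3.2]⟩ p hp x hx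
  obtain ⟨hs, hs'⟩ := h3
  have hs2 : s ^ 2 ≤ 1/1000 := by nlinarith
  have hs2' : 0 < s ^ 2 := by positivity
  have hb : p.2.1 ^ 2 = 1 → 0 < p.2.1 * Eb (geo s p.1) (dat s RG Rm p x) := fun hσ => by
    have hk := kap_est (t := s ^ 4) (by positivity) (by nlinarith)
    have hε0 := hg.2.1.1
    have hT : ‖Th (geo s p.1) (dat s RG Rm p x) (ee (geo s p.1)) - A1p s p x‖ ≤
        2 * N * s ^ 4 := by
      refine (est_Th _ _ _).trans ?_
      rw [norm_real, Real.norm_of_nonneg hε0.le, sq, mul_div_cancel_right₀ _ hε0.ne']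
      calc _ ≤ (s ^ 4 + s ^ 4) * N := by gcongr
        _ = _ := by ring
    have hs4 : s ^ 4 ≤ 1 := pow_le_one₀ hs.le (by linarith)
    have hD := So3_det hT (B := 2 * N) (mul_le_of_le_one_right (by positivity) hs4)
      (((Est1_A (dat s RG Rm p x) 1).trans hN).trans (by linarith))
    rw [det_cf_A1p] at hD
    have h9 : C' * s ^ 3 ≤ s ^ 2 / 100 := by nlinarith
    refine So3_sgn1 hs2' hs2 hσ (k := kap (s ^ 4)) (hk.1.trans_eq (by ring)) hk.2 (hj.trans h9)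
      (hJ.trans h9) (hD.trans ?_)
    calc _ = 6 * (2 * N) * (2 * N) * s * s ^ 2 * s := by ring
      _ ≤ 1/100 * s ^ 2 * 1 := by gcongr; linarith
      _ = _ := by ring
  have hm' : p.2.2 ^ 2 = 1 → 0 < p.2.2 * Em (geo s p.1) (dat s RG Rm p x) := fun hσ => by
    have hq0 := hg.2.2.1.1
    have hw := Real.sqrt_pos.2 hq0
    have hw1 : √(qq (geo s p.1)) ≤ s ^ 2 := Real.sqrt_le_iff.2 ⟨hs2'.le, by nlinarith⟩
    have hF := hfar _ _ ((1 / √(qq (geo s p.1)) : ℝ) : ℂ) hg hN (by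
      rw [ofReal_re, le_div_iff₀ hw]; linarith)
    rw [dat_sum, norm_real, Real.norm_of_nonneg (by positivity), one_div_one_div, mul_one_div,
      Real.div_sqrt] at hF
    have hF' := hF.trans (mul_le_mul (le_abs_self Cf) (add_le_add hw1 hw1) (by positivity)
      (abs_nonneg _))
    have hC := abs_nonneg Cf
    have hZ : ‖Z4 s p x‖ ≤ 5 * N := by
      rw [← dat_sum s RG Rm]
      exact (Est1_sum _).trans (by linarith)
    have hD := So3_det hF' (B := 5 * N + 2 * |Cf|) (by nlinarith) (by linarith)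
    rw [det_cf_Z4] at hD
    refine So3_sgn2 hs (by linarith) hσ (hρ _ hp.1) (hk4.trans h5) (hD.trans ?_)
    calc _ = s * (6 * (2 * |Cf|) * (5 * N + 2 * |Cf|) * s) := by ring
      _ ≤ _ := by gcongr
  refine ⟨fun h => ?_, fun h => ?_, fun h => ?_, fun h => ?_⟩
  · simpa [h] using hb (by rw [h]; norm_num)
  · simpa [h] using hb (by rw [h]; norm_num)
  · simpa [h] using hm' (by rw [h]; norm_num)
  · simpa [h] using hm' (by rw [h]; norm_num)

lemma So3_sym {F : Geo × Dat → MW} {S : Set (Geo × Dat)} (hF : ContinuousOn F S)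
    (hd : ∀ x ∈ S, (F x).det = 1) : ContinuousOn (fun x => symM (F x)) S := fun x hx =>
  ContinuousAt.comp_continuousWithinAt (f := F) (contDiffAt_symM (hd x hx)).continuousAt (hF x hx)

lemma So3_cont :
    ContinuousOn (fun x : Geo × Dat => Et x.1 x.2) {x | AdmG x.1 ∧ Str x.2} ∧
    ContinuousOn (fun x : Geo × Dat => Eb x.1 x.2) {x | AdmG x.1 ∧ Str x.2} ∧
    ContinuousOn (fun x : Geo × Dat => Em x.1 x.2) {x | AdmG x.1 ∧ Str x.2} := by
  have hM : {x : Geo × Dat | AdmG x.1 ∧ Str x.2} ⊆ {x | AdmG x.1} := fun x h => h.1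
  have hA : Continuous fun x : Geo × Dat => AA x.2 := continuous_fst.comp continuous_snd
  have hdet : Continuous fun M : MW => -((cf (-1) M).det).re :=
    (continuous_re.comp ((contDiff_detC (n := 0)).continuous.comp (cf (-1)).continuous)).neg
  have hS := (So3_sym (co_Phi.mono hM) fun x h => det_Phi h.1 h.2).sub
    (So3_sym (co_Php.mono hM) fun x h => det_Php h.1 h.2)
  have hE := fun i j => (continuous_re.comp (entC i j).continuous).comp_continuousOn hS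
  have hD := fun n j => ((So3_det_cont n j).comp hA).continuousOn
    (s := {x | AdmG x.1 ∧ Str x.2})
  have hR : ∀ j : Fin 3, ContinuousOn (fun x : Geo × Dat => (resj x.1 x.2 j).re)
      {x | AdmG x.1 ∧ Str x.2} := fun j =>
    (continuous_re.comp trC.continuous).comp_continuousOn
      ((adjC.continuous.comp ((cf (-1)).continuous.comp
        ((continuous_apply (cj5 j)).comp hA))).continuousOn.mul
        ((cf (-1)).continuous.comp_continuousOn ((co_reg j).mono hM)))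
  refine ⟨continuousOn_pi.2 fun i => ?_, hdet.comp_continuousOn (co_Th.mono hM),
    hdet.comp_continuousOn (ContinuousOn.fun_smul ?_ (co_Xi.mono hM))⟩
  · fin_cases i
    exacts [hE 0 0, hD (-1) 2, hD (-1) 3, hE 0 1, hD (-2) 4, hR 0, hR 1, hR 2]
  · have h1 : Continuous fun x : Geo × Dat => qq x.1 :=
      continuous_fst.comp (continuous_snd.comp (continuous_snd.comp continuous_fst))
    exact continuous_ofReal.comp_continuousOn (continuousOn_const.div h1.sqrt.continuousOn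
      fun x hx => (Real.sqrt_pos.2 hx.1.2.2.1.1).ne')

lemma So3_cont' {S : Set Par} {g : Par → Geo} {d : Par → Dat} (hg : ContinuousOn g S)
    (hd : ContinuousOn d S) (h : ∀ p ∈ S, AdmG (g p) ∧ Str (d p)) :
    ContinuousOn (fun p => Et (g p) (d p)) S ∧ ContinuousOn (fun p => Eb (g p) (d p)) S ∧
      ContinuousOn (fun p => Em (g p) (d p)) S := by
  have hM : MapsTo (fun p => (g p, d p)) S {x : Geo × Dat | AdmG x.1 ∧ Str x.2} := h
  have h1 := So3_cont.1.comp (hg.prodMk hd) hM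
  have h2 := So3_cont.2.1.comp (hg.prodMk hd) hM
  have h3 := So3_cont.2.2.comp (hg.prodMk hd) hM
  simp only [Function.comp_def] at h1 h2 h3
  exact ⟨h1, h2, h3⟩

theorem hard_cont {K : Set Y8} (hY : ∀ y ∈ K, Yadm y) {s RG Rm : ℝ}
    (hg : ∀ y ∈ K, AdmG (geo s y)) {e : Par → EE} (he : ContinuousOn e (Box K))
    (hC : ∀ p ∈ Box K, e p ∈ CC) :
    ContinuousOn (fun p => Et (geo s p.1) (dat s RG Rm p (e p))) (Box K) ∧
    ContinuousOn (fun p => Eb (geo s p.1) (dat s RG Rm p (e p))) (Box K) ∧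
    ContinuousOn (fun p => Em (geo s p.1) (dat s RG Rm p (e p))) (Box K) := by
  have hd : ContinuousOn (fun p : Par => dat s RG Rm p (e p)) (Box K) :=
    ContinuousOn.comp (g := fun z : Par × EE => dat s RG Rm z.1 z.2) (f := fun p => (p, e p))
      (co_dat s RG Rm) (continuousOn_id.prodMk he) fun p hp => hY _ hp.1
  have hF : ContinuousOn (fun p : Par => geo s p.1) (Box K) :=
    (co_geo s).comp continuous_fst.continuousOn fun p hp => hY _ hp.1
  exact So3_cont' hF hd fun p hp => ⟨hg _ hp.1, dat_str s RG Rm p _ (hC p hp)⟩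

end Pool.Agent.MP_efb2da_gt
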