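import Pool.Agent.MP_efb2da_gt.Par1
import Pool.Agent.MP_efb2da_gt.Pot3

open Set Complex
open scoped Topology ComplexConjugate Matrix ContDiff

noncomputable section

namespace Pool.Agent.MP_efb2da_gt

lemma So4_zero {z : ℂ} (h : conj z = z) (h0 : z.re = 0) : z = 0 := by
  rw [← conj_eq_iff_re.1 h, h0, ofReal_zero]

lemma So4_ent {M : MC} (h : cjC M = M) (i j : Fin 2) : conj (M i j) = M i j := by
  rw [← cjC_apply, h]

lemma So4_detC {M : MC} (h : cjC M = M) : conj M.det = M.det := by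
  rw [Matrix.det_fin_two, map_sub, map_mul, map_mul, So4_ent h, So4_ent h, So4_ent h, So4_ent h]

lemma So4_cf {M : MW} (h : sharp M = M) (n : ℤ) : cjC (cf n M) = cf n M := by
  rw [← cf_sharp, h]

lemma So4_coef_det {M : MW} (h : sharp M = M) (n : ℤ) :
    conj (W.coef n M.det) = W.coef n M.det := by
  rw [← W.coef_cj, ← det_sharp, h]

lemma So4_tr_adj {M N : MC} (hM : cjC M = M) (hN : cjC N = N) :
    conj (trC (adjC M * N)) = trC (adjC M * N) := by
  rw [trC_apply, matApi2_mulC, matApi2_mulC, adjC_apply]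
  simp only [Matrix.of_apply, Matrix.cons_val', Matrix.cons_val_zero, Matrix.cons_val_one,
    Matrix.cons_val_fin_one, map_add, map_mul, map_neg, So4_ent hM, So4_ent hN]

lemma So4_adjC_of_tr {M : MC} (h : trC M = 0) : adjC M = -M := by
  rw [trC_apply] at h
  rw [adjC_apply]
  ext i j
  fin_cases i <;> fin_cases j <;> simp
  · linear_combination h
  · linear_combination h

lemma So4_tr_Sof (t : ℝ) (R : MW) : trW (Sof t R) = 0 := by
  rw [Sof, map_smul, map_sub, trW_adj, sub_self, smul_zero]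

lemma So4_jc_add (a b : MC) : jc (a + b) = jc a + jc b := by
  simp only [jc, Matrix.add_apply]; ring

lemma So4_jc_neg (a : MC) : jc (-a) = -jc a := by
  simp only [jc, Matrix.neg_apply]; ring

lemma So4_jc_sub (a b : MC) : jc (a - b) = jc a - jc b := by
  simp only [jc, Matrix.sub_apply]; ring

lemma So4_jc_nilM (κ : ℂ) (ψ : ℝ) : jc (nilM κ ψ) = κ / 2 := by
  simp [jc, nilM, sJ, s3, s1]; ring

lemma So4_jc_nilmu (κ μ : ℂ) (ψ : ℝ) : jc (nilmu κ μ ψ) = κ / 2 := by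
  simp [jc, nilmu, sJ, s3, s1]

lemma So4_jc_s3J (u v : ℂ) : jc (u • s3 + v • sJ) = v := by
  simp [jc, sJ, s3]

lemma So4_trp_S10 (s : ℝ) : trpC (S10 s) = S10 s := by
  rw [S10, map_smul, Lax_trp_s3]

lemma So4_S10 (s : ℝ) :
    S10 s = (-(Real.sin (Real.pi * s ^ 4) / (2 * Real.pi * s ^ 4)) : ℝ) • s3 := by
  have : -(kap (s ^ 4) / 2) = -(Real.sin (Real.pi * s ^ 4) / (2 * Real.pi * s ^ 4)) := by
    rw [kap, div_div]; ring
  rw [S10, this]
  exact Complex.coe_smul _ _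

lemma So4_kap_pos {t : ℝ} (h0 : 0 < t) (h1 : t < 1/2) : 0 < Real.sin (Real.pi * t) :=
  Real.sin_pos_of_pos_of_lt_pi (mul_pos Real.pi_pos h0) (by nlinarith [Real.pi_pos])

lemma So4_x0 {t β : ℝ} (h0 : 0 < t) (h1 : t < 1/2) :
    -(β / kap t) * Real.sin (Real.pi * t) = -(Real.pi * t * β) := by
  have := (So4_kap_pos h0 h1).ne'
  have := Real.pi_pos.ne'
  rw [kap]; field_simp

lemma So4_kap_ne {t : ℝ} (h0 : 0 < t) (h1 : t < 1/2) : (kap t : ℂ) ≠ 0 :=
  ofReal_ne_zero.2 (div_pos (So4_kap_pos h0 h1) (mul_pos Real.pi_pos h0)).ne'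

/-- second jet of the determinant of a traceless loop -/
lemma So4_j2_det {S : MW} {κ β : ℂ} (hκ : κ ≠ 0) (ht : trW S = 0) (h0 : J0 S = (-(κ / 2)) • s3)
    (h1 : J1 S = β • sJ) (h2 : J2 S 0 0 = -(2 * β ^ 2 / κ)) : W.j2 S.det = 0 := by
  have e : W.j2 (S 1 1) = -W.j2 (S 0 0) := by
    rw [trW_apply] at ht
    rw [← map_neg, eq_neg_of_add_eq_zero_right ht]
  rw [Matrix.det_fin_two, map_sub, W.j2_mul, W.j2_mul, e]
  simp only [← J0_apply, ← J1_apply, h0, h1]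
  rw [← J2_apply, h2]
  simp [s3, sJ]
  field_simp
  ring

/-- jets of a loop conjugated by a real based unitary loop -/
lemma So4_conj {H M : MW} (hd : H.det = 1) (hr : sharp H = H) :
    flat (Uf H * M * adj (Uf H)) = Uf H * flat M * adj (Uf H) ∧
    J0 (Uf H * M * adj (Uf H)) = J0 M ∧
    J1 (Uf H * M * adj (Uf H)) = J1 M + (symM H * J0 M - J0 M * symM H) := by
  have h1 : flat (Uf H) = adj (Uf H) := by
    rw [← st_Uf hd, st_eq, ← Uf_sharp hd, hr]
  refine ⟨?_, ?_, ?_⟩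
  · rw [flat_mul, flat_mul, flat_adj, h1, adj_adj, mul_assoc]
  · rw [J0_mul, J0_mul, J0_adj, J0_Uf hd, adjC_one, one_mul, mul_one]
  · rw [J1_mul, J1_mul, J0_mul, J0_adj, J1_adj, J0_Uf hd, adjC_one, one_mul, mul_one, one_mul,
      show J1 (Uf H) = symM H from rfl, So4_adjC_of_tr (symM_tr hd), mul_neg]
    abel

lemma So4_Cl0 {x t : ℝ} {R : MW} (h : Cl x t 0 R) : J0 R = 1 ∧ J1 R = 0 := by
  have h0 : J0 R = 1 := by
    rw [h.j0, Int.cast_zero, mul_zero, Jet_Dm_zero]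
  exact ⟨h0, by rw [h.j1, h0, mul_one, one_mul, sub_self, smul_zero]⟩

lemma So4_Php {g : Geo} {d : Dat} (hg : AdmG g) (hd : Str d) :
    Php g d = RR g d 0 * sharp (Php g d) * 1 := by
  rw [sharp_Php hg hd, Phm, mul_one, ← mul_assoc, mul_adj_of_det (det_RR hg hd 0), one_mul]

lemma So4_det_sharp {M : MW} (h : M.det = 1) : (sharp M).det = 1 := by
  rw [det_sharp, h, W.cj_one]

section
variable {s RG Rm : ℝ} {p : Par} {x : EE}

lemma So4_er (hx : x ∈ CC) (i : Fin 4) : er s x i = (sc s i : ℂ) • x.1 i :=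
  tl_of_tr (by rw [map_smul, (hx.1 i).2, smul_zero])

lemma So4_S1 (hs : 0 < s) (hx : x ∈ CC) (hfix : reG (Fmap s RG Rm p x) = x) :
    Sof (s ^ 4) (R1 (geo s p.1) (dat s RG Rm p x)) = A1p s p x + er s x 0 := by
  rw [reG_apply] at hfix
  have h : ((s ^ 3)⁻¹ : ℂ) • (Sof (s ^ 4) (R1 (geo s p.1) (dat s RG Rm p x)) - A1p s p x) =
      x.1 0 := congrFun (congrArg Prod.fst hfix) 0
  have hs3 : (s : ℂ) ^ 3 ≠ 0 := pow_ne_zero _ (ofReal_ne_zero.2 hs.ne')
  rw [So4_er hx, ← h, show sc s 0 = s ^ 3 from rfl, ofReal_pow, smul_smul, mul_inv_cancel₀ hs3,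
    one_smul, add_sub_cancel]

lemma So4_errZ (hs : 0 < s) (hx : x ∈ CC) (hfix : reG (Fmap s RG Rm p x) = x) (i : Fin 3) :
    errZ s RG Rm p x i = er s x i.succ := by
  rw [reG_apply] at hfix
  have h : (s⁻¹ : ℂ) • errZ s RG Rm p x i = x.1 i.succ := by
    rw [← congrFun (congrArg Prod.fst hfix) i.succ]
    fin_cases i <;> rfl
  have hs1 : (s : ℂ) ≠ 0 := ofReal_ne_zero.2 hs.ne'
  have e : sc s i.succ = s := by fin_cases i <;> rfl
  rw [So4_er hx, ← h, e, smul_smul, mul_inv_cancel₀ hs1, one_smul]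

lemma So4_SR (hs : 0 < s) (hx : x ∈ CC) (hfix : reG (Fmap s RG Rm p x) = x) (i : Fin 3) :
    Sof (s ^ 4) (RR (geo s p.1) (dat s RG Rm p x) i) =
      Uf (H0 p.1) * (alZ s p x i + er s x i.succ) * adj (Uf (H0 p.1)) := by
  have hU := mul_adj_of_det (det_Uf (det_H0 p.1))
  rw [← So4_errZ hs hx hfix, errZ, add_sub_cancel, ← mul_assoc, ← mul_assoc, hU, one_mul,
    mul_assoc, hU, mul_one]

end

section
variable {s RG Rm : ℝ} {p : Par} {x : EE} (hs : 0 < s) (hs' : s ^ 4 < 1/2) (hG : 0 < RG)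
  (hm : 0 < Rm) (hy : Yadm p.1) (hg : AdmG (geo s p.1)) (hx : x ∈ CC)
  (hfix : reG (Fmap s RG Rm p x) = x)
  (h1 : ‖R1 (geo s p.1) (dat s RG Rm p x) - 1‖ ≤ 1/4)
  (h2 : ∀ i, ‖RR (geo s p.1) (dat s RG Rm p x) i - 1‖ ≤ 1/4)
include hs hs' hG hm hy hg hx hfix h1 h2

/-- the monodromies at a fixed point -/
theorem fixed_cl :
    let g := geo s p.1
    let d := dat s RG Rm p x
    let x₀ := -(be s p / kap (s ^ 4))
    Cl x₀ (s ^ 4) 1 (R1 g d) ∧ phi x₀ (R1 g d) = 0 ∧ Cl x₀ (s ^ 4) 0 (RR g d 0) ∧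
      Cl x₀ (s ^ 4) 0 (RR g d 1) ∧ Cl x₀ (s ^ 4) 1 (RR g d 2) := by
  intro g d x₀
  have ht : 0 < s ^ 4 := pow_pos hs 4
  have hd : Str d := dat_str s RG Rm p x hx
  have hκ := So4_kap_ne ht hs'
  have hx₀ : x₀ * Real.sin (Real.pi * s ^ 4) = -(Real.pi * s ^ 4 * be s p) := So4_x0 ht hs'
  have hS := So4_S1 hs hx hfix
  have hJ0 : J0 (Sof (s ^ 4) (R1 g d)) = S10 s := by rw [hS, A1p, J0_build]
  have hJ1 : J1 (Sof (s ^ 4) (R1 g d)) = (be s p : ℂ) • sJ := by
    rw [hS, A1p, J1_build, So4_jc_s3J]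
    congr 1
    rw [jj]; ring
  have hA := Cl_one_of_S (x := x₀) ht hs' (det_R1 hg hd) (sharp_R1 hg hd) h1
    (by rw [hS, A1p, flat_build (So4_trp_S10 s)]) (hJ0.trans (So4_S10 s)) hJ1 hx₀
  have hc := fun i => So4_conj (M := alZ s p x i + er s x i.succ) (det_H0 p.1) (sharp_H0 p.1)
  have hR := So4_SR hs hx hfix
  have h0 : trpC (0 : MC) = 0 := map_zero _
  refine ⟨hA.1, hA.2 ?_, ?_, ?_, ?_⟩
  · refine So4_j2_det (β := be s p) hκ (So4_tr_Sof _ _) ?_ hJ1 ?_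
    · rw [hJ0, S10]; push_cast; rfl
    · rw [hS, A1p, J2_build]
      simp [trpC_apply, s3, sJ]
      ring
  · have e : alZ s p x 0 + er s x (0 : Fin 3).succ =
        build (er s x 1) (cf (-1) (al1 s p x) + a2 s p x) 0 + er s x 1 := rfl
    refine Cl_zero_of_S ht.ne' (det_RR hg hd 0) (sharp_RR hg hd 0) (h2 0) ?_ ?_ ?_
    · rw [hR, (hc 0).1, e, flat_build h0]
    · rw [hR, (hc 0).2.1, e, J0_build]
    · rw [hR, (hc 0).2.2, e, J0_build, J1_build, So4_jc_add, a2, So4_jc_nilM, mul_zero, zero_mul,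
        sub_self, add_zero, jj]
      rw [show ∀ u v : ℂ, u - 2 * (v + (u - 2 * v) / 2) = 0 from fun u v => by ring, zero_smul]
  · have e : alZ s p x 1 + er s x (1 : Fin 3).succ =
        build (er s x 2) (-a4 s p x - a3 s p x) 0 + er s x 2 := rfl
    refine Cl_zero_of_S ht.ne' (det_RR hg hd 1) (sharp_RR hg hd 1) (h2 1) ?_ ?_ ?_
    · rw [hR, (hc 1).1, e, flat_build h0]
    · rw [hR, (hc 1).2.1, e, J0_build]
    · rw [hR, (hc 1).2.2, e, J0_build, J1_build, So4_jc_sub, So4_jc_neg, a3, a4, So4_jc_nilM,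
        So4_jc_nilmu, mul_zero, zero_mul, sub_self, add_zero, jj]
      rw [show ∀ u v : ℂ, u - 2 * (-(v / 2) - (-v - u) / 2) = 0 from fun u v => by ring, zero_smul]
  · have e : alZ s p x 2 + er s x (2 : Fin 3).succ =
        build (er s x 3) (-a4 s p x) (S10 s) + er s x 3 := rfl
    refine (Cl_one_of_S (β := be s p) ht hs' (det_RR hg hd 2) (sharp_RR hg hd 2) (h2 2) ?_ ?_ ?_
      hx₀).1
    · rw [hR, (hc 2).1, e, flat_build (So4_trp_S10 s)]
    · rw [hR, (hc 2).2.1, e, J0_build, So4_S10]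
    · obtain ⟨z, hz⟩ := symM_H0 hy
      rw [hR, (hc 2).2.2, e, J0_build, J1_build, So4_jc_neg, a4, So4_jc_nilmu, k4, jj, hz, S10]
      generalize jc (J1 (SymE (er s x 3))) = u
      ext i j
      fin_cases i <;> fin_cases j <;> simp [s1, s3, sJ] <;> ring

theorem fixed_fix : GG (dat s RG Rm p x) = Gf (geo s p.1) (dat s RG Rm p x) ∧
    Fix (geo s p.1) (dat s RG Rm p x) := by
  have hd : Str (dat s RG Rm p x) := dat_str s RG Rm p x hx
  have hc := (fixed_cl hs hs' hG hm hy hg hx hfix h1 h2).2.2.1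
  have hP := det_Php hg hd
  have hQ := det_Phi hg hd
  have hB : sharp (Bm (Php (geo s p.1) (dat s RG Rm p x))) =
      Bm (Php (geo s p.1) (dat s RG Rm p x)) := by
    have := (iw_gauge (So4_det_sharp hP) hc.unit hc.det MGE_one Matrix.det_one).2
    rw [← So4_Php hg hd, (So4_Cl0 hc).1, cst_one, one_mul, mul_one, Bm_sharp hP] at this
    exact this.symm
  have hGr : sharp (Gf (geo s p.1) (dat s RG Rm p x)) = Gf (geo s p.1) (dat s RG Rm p x) := by
    rw [Gf_eq hg hd, sharp_mul, ← adj_Bm, sharp_adj, hB, ← Bm_sharp hQ, sharp_Phi hg hd]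
  rw [reG_apply] at hfix
  have e1 : (1/2 : ℝ) • ((RG⁻¹ : ℂ) • Gf (geo s p.1) (dat s RG Rm p x) +
      sharp ((RG⁻¹ : ℂ) • Gf (geo s p.1) (dat s RG Rm p x))) = x.2.1 :=
    congrArg (fun y : EE => y.2.1) hfix
  have e2 : ∀ i, (Rm⁻¹ : ℂ) • MM (geo s p.1) (dat s RG Rm p x) i = x.2.2 i := fun i =>
    congrFun (congrArg (fun y : EE => y.2.2) hfix) i
  rw [sharp_smul, hGr, map_inv₀, conj_ofReal, ← two_smul ℝ, smul_smul] at e1
  norm_num at e1
  have hGG : GG (dat s RG Rm p x) = Gf (geo s p.1) (dat s RG Rm p x) := by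
    change (RG : ℂ) • x.2.1 = _
    rw [← e1, smul_smul, mul_inv_cancel₀ (ofReal_ne_zero.2 hG.ne'), one_smul]
  refine ⟨hGG, ?_, dat_A0 s RG Rm p x, fun i => ?_⟩
  · rw [hGG, Gf_eq hg hd, Matrix.det_mul, det_Bi hP, det_Bm hQ, one_mul]
  · change (Rm : ℂ) • x.2.2 i = _
    rw [← e2, smul_smul, mul_inv_cancel₀ (ofReal_ne_zero.2 hm.ne'), one_smul]

/-- the remaining equations -/
theorem fixed_hard (hE : Et (geo s p.1) (dat s RG Rm p x) = 0)
    (hb : Eb (geo s p.1) (dat s RG Rm p x) = 0) (hm' : Em (geo s p.1) (dat s RG Rm p x) = 0) :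
    let g := geo s p.1
    let d := dat s RG Rm p x
    (∃ L, Cl (-(be s p / kap (s ^ 4))) (s ^ 4) 0 L ∧ Php g d * GG d = L * Phi g d) ∧
      (∀ j : Fin 3, W.coef (-2) (AA d (cj5 j)).det = 0) ∧ W.coef (-1) (AA d 2).det = 0 ∧
      W.coef (-1) (AA d 3).det = 0 ∧ (∀ j, resj g d j = 0) ∧
      (cf (-1) (Th g d (ee g))).det = 0 ∧ (cf (-1) (Xi g d ((1 / √(qq g) : ℝ) : ℂ))).det = 0 := by
  intro g d
  have hd : Str d := dat_str s RG Rm p x hx
  have hc := (fixed_cl hs hs' hG hm hy hg hx hfix h1 h2).2.2.1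
  have hGG := (fixed_fix hs hs' hG hm hy hg hx hfix h1 h2).1
  have hP : (Php g d).det = 1 := det_Php hg hd
  have hQ : (Phi g d).det = 1 := det_Phi hg hd
  have E : ∀ i, Et g d i = 0 := congrFun hE
  have hres : ∀ j, conj (resj g d j) = resj g d j := fun j => by
    have := reg_real (g := g) hd (cj5 j) (pp g j : ℂ)
    rw [conj_ofReal] at this
    exact So4_tr_adj (So4_cf (hd.realA _) _) (So4_cf this _)
  refine ⟨⟨Uf (Php g d) * adj (Uf (Phi g d)), ?_, ?_⟩, fun j => ?_,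
    So4_zero (So4_coef_det (hd.realA 2) _) (E 1), So4_zero (So4_coef_det (hd.realA 3) _) (E 2),
    fun j => ?_, ?_, ?_⟩
  · have r1 : cjC (symM (Php g d)) = symM (Php g d) := by
      have := hc.Jet_sym (So4_det_sharp hP) MGE_one Matrix.det_one
      rw [← So4_Php hg hd, (So4_Cl0 hc).1, (So4_Cl0 hc).2, adjC_one, one_mul, mul_one, zero_add,
        symM_sharp hP] at this
      exact this.symm
    have r2 : cjC (symM (Phi g d)) = symM (Phi g d) := by
      rw [← symM_sharp hQ, sharp_Phi hg hd]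
    have r : cjC (symM (Phi g d) - symM (Php g d)) = symM (Phi g d) - symM (Php g d) := by
      rw [map_sub, r1, r2]
    have hh : ct (symM (Phi g d) - symM (Php g d)) = symM (Phi g d) - symM (Php g d) := by
      rw [map_sub, symM_herm hP, symM_herm hQ]
    have ht : trC (symM (Phi g d) - symM (Php g d)) = 0 := by
      rw [map_sub, symM_tr hP, symM_tr hQ, sub_self]
    have z0 := So4_zero (So4_ent r 0 0) (E 0)
    have z1 := So4_zero (So4_ent r 0 1) (E 3)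
    have hD : symM (Phi g d) - symM (Php g d) = 0 := by
      rw [trC_apply, z0, zero_add] at ht
      have z2 : (symM (Phi g d) - symM (Php g d)) 1 0 = 0 := by
        rw [← hh, ct_apply, z1, map_zero]
      ext i j
      fin_cases i <;> fin_cases j
      exacts [z0, z1, z2, ht]
    have j0 : J0 (Uf (Php g d) * adj (Uf (Phi g d))) = 1 := by
      rw [J0_mul, J0_adj, J0_Uf hP, J0_Uf hQ, adjC_one, one_mul]
    refine ⟨?_, ?_, ?_, ?_⟩
    · rw [st_mul, mul_assoc, ← mul_assoc (st (Uf (Php g d))), Uf_unitary hP, one_mul, ← st_Uf hQ,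
        st_st, st_Uf hQ, mul_adj_of_det (det_Uf hQ)]
    · rw [Matrix.det_mul, det_adj, det_Uf hP, det_Uf hQ, one_mul]
    · rw [j0, Int.cast_zero, mul_zero, Jet_Dm_zero]
    · rw [j0, mul_one, one_mul, sub_self, smul_zero, J1_mul, J0_adj, J1_adj, J0_Uf hP, J0_Uf hQ,
        adjC_one, one_mul, mul_one, show J1 (Uf (Phi g d)) = symM (Phi g d) from rfl,
        show J1 (Uf (Php g d)) = symM (Php g d) from rfl, So4_adjC_of_tr (symM_tr hQ),
        sub_eq_zero.1 hD, add_neg_cancel]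
  · rw [hGG, Gf_eq hg hd, ← mul_assoc]
    change Uf (Php g d) * Bm (Phi g d) = _
    rw [mul_assoc]
    congr 1
    conv_rhs => rw [← Uf_mul_Bm hQ, ← mul_assoc]
    rw [Uf_mul_Bm hQ, adj_mul_of_det (det_Uf hQ), one_mul]
  · fin_cases j
    exacts [dat_nil2 s RG Rm p x, dat_nil3 s RG Rm p x,
      So4_zero (So4_coef_det (hd.realA 4) _) (E 4)]
  · fin_cases j
    exacts [So4_zero (hres 0) (E 5), So4_zero (hres 1) (E 6), So4_zero (hres 2) (E 7)]
  · exact So4_zero (So4_detC (So4_cf (Pot3_Th_real hd _) _)) (neg_eq_zero.1 hb)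
  · have hq : (1 / √(qq g) : ℝ) ≠ 0 := (one_div_pos.2 (Real.sqrt_pos.2 hg.2.2.1.1)).ne'
    refine So4_zero (So4_detC (So4_cf (Pot3_Xi_real hd _) _)) ?_
    have := neg_eq_zero.1 hm'
    rw [map_smul, Matrix.det_smul, Fintype.card_fin, ← ofReal_pow, re_ofReal_mul] at this
    exact (mul_eq_zero.1 this).resolve_left (pow_ne_zero _ hq)
end

end Pool.Agent.MP_efb2da_gt
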