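import Pool.Agent.MP_efb2da_gt.Jet
import Pool.Agent.MP_efb2da_gt.HolMat

open Set Complex
open scoped Topology ComplexConjugate Matrix ContDiff

noncomputable section

namespace Pool.Agent.MP_efb2da_gt

theorem TrDet_trC_Hol {X : MC} {μ : ℂ} (htr : trC X = 0) (hx : X * X = (μ ^ 2) • (1 : MC)) (l : ℂ) :
    trC (Hol (fun _ => l • X) 1) = 2 * Complex.cosh (l * μ) := by
  have h1 : trC (1 : MC) = 2 := by rw [trC_apply]; simp; norm_num
  by_cases hμ : μ = 0
  · subst hμ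
    have hy : (l • X) * (l • X) = 0 := by
      rw [smul_mul_smul_comm, hx]; simp
    have hsol : IsSol (fun _ => l • X) (fun r : ℝ => 1 + r • (l • X)) := by
      intro r _
      have h := ((hasDerivAt_id r).smul_const (l • X)).const_add 1
      have e : (1 + r • (l • X)) * (l • X) = (1 : ℝ) • (l • X) := by
        rw [add_mul, smul_mul_assoc, hy]; simp
      rw [e]
      exact h.hasDerivWithinAt
    have h := IsSol.eq_Hol continuousOn_const hsol 1 (right_mem_Icc.2 zero_le_one)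
    simp only [one_smul, zero_smul, add_zero, one_mul] at h
    rw [← h, map_add, map_smul, htr, h1]
    simp
  · have h := congrArg trC (Hol_const_sq hx l)
    rw [map_add, map_smul, map_smul, map_smul, htr, h1] at h
    simp only [smul_eq_mul, mul_zero, add_zero] at h
    apply mul_left_cancel₀ hμ
    rw [h]; ring

theorem TrDet_ev {A : MW} (htr : trW A = 0) (t θ : ℝ) {μ : ℂ} (hμ : μ ^ 2 = -W.ev θ A.det) :
    W.ev θ (trW (Hol (fun _ => (2 * Real.pi * I * t : ℂ) • A) 1)) =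
      2 * Complex.cos (2 * Real.pi * t * μ) := by
  have h1 := Hol_map ((Ev θ).restrictScalars ℝ) (Ev_one θ) (Ev_mul θ)
    (a := fun _ => (2 * Real.pi * I * t : ℂ) • A) continuousOn_const 1
    (right_mem_Icc.2 zero_le_one)
  simp only [ContinuousLinearMap.coe_restrictScalars', map_smul] at h1
  have h2 : ∀ M : MW, W.ev θ (trW M) = trC (Ev θ M) := fun M => by
    rw [trW_apply, trC_apply, map_add]; rfl
  have h3 : trC (Ev θ A) = 0 := by rw [← h2, htr, map_zero]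
  have h4 : Ev θ A * Ev θ A = (μ ^ 2) • (1 : MC) := by
    rw [← Ev_mul, mul_self_of_tr htr, hμ]
    ext i j
    by_cases h : i = j <;> simp [h, Matrix.one_apply]
  rw [h2, h1, TrDet_trC_Hol h3 h4, ← Complex.cosh_mul_I]
  congr 2
  ring

theorem TrDet_norm {A : MW} {t θ : ℝ} (ht : 0 < t) (hn : t * ‖A‖ ≤ 1/4) {μ : ℂ}
    (hμ : μ ^ 2 = -W.ev θ A.det) : ‖(2 * Real.pi * t * μ : ℂ)‖ < Real.pi := by
  have h0 := norm_nonneg A
  have h1 : ‖A.det‖ ≤ 2 * ‖A‖ ^ 2 := by
    rw [Matrix.det_fin_two]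
    have a := norm_entry_le A 0 0
    have b := norm_entry_le A 0 1
    have c := norm_entry_le A 1 0
    have d := norm_entry_le A 1 1
    calc _ ≤ ‖A 0 0‖ * ‖A 1 1‖ + ‖A 0 1‖ * ‖A 1 0‖ :=
          (norm_sub_le _ _).trans (add_le_add (norm_mul_le _ _) (norm_mul_le _ _))
      _ ≤ ‖A‖ * ‖A‖ + ‖A‖ * ‖A‖ := by gcongr
      _ = _ := by ring
  have h2 : ‖μ‖ ^ 2 ≤ 2 * ‖A‖ ^ 2 := by
    rw [← norm_pow, hμ, norm_neg]
    exact (W.norm_ev_le θ _).trans h1
  have h3 : ‖(2 * Real.pi * t * μ : ℂ)‖ = Real.pi * (2 * t * ‖μ‖) := by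
    simp only [norm_mul, Complex.norm_real, Real.norm_eq_abs, abs_of_pos ht,
      abs_of_pos Real.pi_pos, Complex.norm_ofNat]
    ring
  rw [h3]
  refine mul_lt_of_lt_one_right Real.pi_pos ?_
  have h4 : (2 * t * ‖μ‖) ^ 2 ≤ 8 * (t * ‖A‖) ^ 2 := by
    calc (2 * t * ‖μ‖) ^ 2 = 4 * t ^ 2 * ‖μ‖ ^ 2 := by ring
      _ ≤ 4 * t ^ 2 * (2 * ‖A‖ ^ 2) := by gcongr
      _ = _ := by ring
  have h5 : (t * ‖A‖) ^ 2 ≤ (1 / 4) ^ 2 := by gcongr
  refine lt_of_pow_lt_pow_left₀ 2 zero_le_one ?_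
  nlinarith

theorem TrDet_sq_real {z : ℂ} (hz : ‖z‖ < Real.pi) (h : (Complex.cos z).im = 0) : (z ^ 2).im = 0 := by
  rw [Complex.cos_eq] at h
  simp only [← Complex.ofReal_cos, ← Complex.ofReal_cosh, ← Complex.ofReal_sin,
    ← Complex.ofReal_sinh, ← Complex.ofReal_mul, Complex.sub_im, Complex.ofReal_im, Complex.mul_im,
    Complex.ofReal_re, Complex.I_im, Complex.I_re, mul_one, mul_zero, add_zero, zero_sub,
    neg_eq_zero, mul_eq_zero, Real.sinh_eq_zero] at h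
  have h1 := abs_lt.1 ((Complex.abs_re_le_norm z).trans_lt hz)
  rw [Real.sin_eq_zero_iff_of_lt_of_lt h1.1 h1.2] at h
  rcases h with h | h <;> simp [sq, h]

theorem TrDet_cos_eq {z : ℂ} {a : ℝ} (hz : ‖z‖ < Real.pi) (ha : |a| < Real.pi)
    (h : Complex.cos z = Complex.cos a) : z ^ 2 = a ^ 2 := by
  have key : ∀ (k : ℤ) (w : ℂ), ‖w‖ < Real.pi → (a : ℂ) = 2 * k * Real.pi + w → k = 0 := by
    intro k w hw e
    have e1 : ((2 * k * Real.pi : ℝ) : ℂ) = a - w := by push_cast; rw [e]; ring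
    have e2 : |2 * k * Real.pi| < 2 * Real.pi := by
      rw [← Real.norm_eq_abs, ← Complex.norm_real, e1]
      refine (norm_sub_le _ _).trans_lt ?_
      rw [Complex.norm_real, Real.norm_eq_abs]
      linarith
    rw [abs_mul, abs_mul, abs_of_pos Real.pi_pos, abs_two] at e2
    have e3 : |(k : ℝ)| < 1 := by nlinarith [Real.pi_pos]
    have e4 : |k| < 1 := by exact_mod_cast e3
    exact Int.abs_lt_one_iff.1 e4
  obtain ⟨k, h | h⟩ := Complex.cos_eq_cos_iff.1 h
  · have := key k z hz h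
    subst this
    rw [h]; simp
  · have := key k (-z) (by rwa [norm_neg]) (by rw [h]; ring)
    subst this
    rw [h]; simp

/-- a function of `2 - 2 cos θ` that vanishes to third order has zero derivative -/
theorem TrDet_deriv_zero {g : ℝ → ℝ} {g' K : ℝ} (hg : HasDerivAt g g' 0)
    (h : ∀ᶠ θ in 𝓝[>] (0:ℝ), |g (2 - 2 * Real.cos θ) - g 0| ≤ K * |θ| ^ 3) : g' = 0 := by
  have hpi := Real.pi_pos
  have hs : ∀ θ ∈ Ioo (0:ℝ) Real.pi, 4 / Real.pi ^ 2 * θ ^ 2 ≤ 2 - 2 * Real.cos θ := by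
    intro θ hθ
    have := Real.cos_le_one_sub_mul_cos_sq (x := θ) (by rw [abs_of_pos hθ.1]; exact hθ.2.le)
    have e : 4 / Real.pi ^ 2 * θ ^ 2 = 2 * (2 / Real.pi ^ 2 * θ ^ 2) := by ring
    linarith
  have hI : Ioo (0:ℝ) Real.pi ∈ 𝓝[>] (0:ℝ) := Ioo_mem_nhdsGT hpi
  have hpos : ∀ θ ∈ Ioo (0:ℝ) Real.pi, 0 < 2 - 2 * Real.cos θ := fun θ hθ =>
    lt_of_lt_of_le (by have := hθ.1; positivity) (hs θ hθ)
  have h1 : Filter.Tendsto (fun θ => 2 - 2 * Real.cos θ) (𝓝[>] 0) (𝓝[≠] 0) := by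
    refine tendsto_nhdsWithin_iff.2 ⟨?_, Filter.mem_of_superset hI fun θ hθ => (hpos θ hθ).ne'⟩
    have : Continuous fun θ : ℝ => 2 - 2 * Real.cos θ := by fun_prop
    simpa using (this.tendsto 0).mono_left nhdsWithin_le_nhds
  have h2 := (hasDerivAt_iff_tendsto_slope.1 hg).comp h1
  refine tendsto_nhds_unique h2 ?_
  refine squeeze_zero_norm' (a := fun θ => |K| * (Real.pi ^ 2 / 4) * θ) ?_ ?_
  · filter_upwards [h, hI] with θ h1 h2
    have h3 := hpos θ h2
    have h4 := hs θ h2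
    have h5 := h2.1
    rw [Function.comp_apply, slope_def_field, sub_zero, Real.norm_eq_abs, abs_div, abs_of_pos h3,
      div_le_iff₀ h3]
    rw [abs_of_pos h5] at h1
    calc _ ≤ K * θ ^ 3 := h1
      _ ≤ |K| * θ ^ 3 := by gcongr; exact le_abs_self K
      _ = |K| * (Real.pi ^ 2 / 4) * θ * (4 / Real.pi ^ 2 * θ ^ 2) := by field_simp
      _ ≤ _ := by gcongr
  · have : Continuous fun θ : ℝ => |K| * (Real.pi ^ 2 / 4) * θ := by fun_prop
    simpa using (this.tendsto 0).mono_left nhdsWithin_le_nhds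

theorem TrDet_hasDerivAt (t c : ℝ) :
    HasDerivAt (fun s : ℝ => 2 * Real.cos (2 * Real.pi * t * √(1 / 4 + c * s)))
      (-(4 * Real.pi * t * Real.sin (Real.pi * t) * c)) 0 := by
  have h0 : √(1 / 4 + c * 0) = 1 / 2 := by
    rw [mul_zero, add_zero, show (1 / 4 : ℝ) = (1 / 2) ^ 2 by norm_num, Real.sqrt_sq (by norm_num)]
  have h1 : HasDerivAt (fun s : ℝ => 1 / 4 + c * s) c 0 := by
    simpa using ((hasDerivAt_id (0:ℝ)).const_mul c).const_add (1 / 4)
  have h2 := ((h1.sqrt (by norm_num)).const_mul (2 * Real.pi * t)).cos.const_mul 2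
  refine h2.congr_deriv ?_
  rw [h0, show 2 * Real.pi * t * (1 / 2) = Real.pi * t by ring]
  ring

/-- the eigenvalues of a residue are read off the trace of a unitary local monodromy -/
theorem det_of_trace {x t : ℝ} {l : ℤ} {A M : MW} (ht : 0 < t) (ht' : t < 1/2) (hl : l = 1 ∨ l = -1)
    (hM : Cl x t l M) (htr : trW A = 0) (hge : MGE (-1) A) (hre : sharp A = A)
    (h2 : W.coef (-2) A.det = 0) (hn : t * ‖A‖ ≤ 1/4)
    (he : trW M = trW (Hol (fun _ => (2 * Real.pi * I * t : ℂ) • A) 1)) :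
    (W.coef (-1) A.det = 0 → A.det = algebraMap ℂ W (-1/4) ∧ phi x M = 0) ∧
      (phi x M = 0 → A.det = algebraMap ℂ W (-1/4)) := by
  have hpi := Real.pi_pos
  have hT : ∀ (θ : ℝ) (μ : ℂ), μ ^ 2 = -W.ev θ A.det →
      W.ev θ (trW M) = 2 * Complex.cos (2 * Real.pi * t * μ) := fun θ μ hμ => by
    rw [he, TrDet_ev htr t θ hμ]
  have hconj : ∀ (θ : ℝ) (y : W), W.ev θ (W.rev (W.cj y)) = conj (W.ev θ y) := fun θ y => by
    rw [W.ev_rev, W.ev_cj, neg_neg]
  have hst : W.rev (W.cj (trW M)) = trW M := by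
    rw [← trW_sharp, ← trW_flat, ← st_eq, eq_adj_of_mul hM.det (mul_eq_one_comm.1 hM.unit), trW_adj]
  have ht0 : (2 * Real.pi * t : ℂ) ≠ 0 := by
    have : (2 * Real.pi * t : ℝ) ≠ 0 := by positivity
    exact_mod_cast this
  have hreal : ∀ θ, conj (W.ev θ A.det) = W.ev θ A.det := by
    intro θ
    obtain ⟨μ, hμ⟩ := IsAlgClosed.exists_pow_nat_eq (-W.ev θ A.det) two_pos
    have h1 : (W.ev θ (trW M)).im = 0 := by rw [← Complex.conj_eq_iff_im, ← hconj, hst]
    rw [hT θ μ hμ] at h1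
    have h3 := TrDet_sq_real (TrDet_norm ht hn hμ) (by simpa using h1)
    rw [mul_pow, hμ, show (2 * Real.pi * t : ℂ) ^ 2 = (((2 * Real.pi * t) ^ 2 : ℝ) : ℂ) by
      push_cast; ring, Complex.im_ofReal_mul, mul_eq_zero, or_iff_right (by positivity),
      Complex.neg_im, neg_eq_zero] at h3
    exact Complex.conj_eq_iff_im.2 h3
  have hcj : W.cj A.det = A.det := by rw [← det_sharp, hre]
  have hrev : W.rev A.det = A.det := by
    conv_lhs => rw [← hcj]
    exact W.ev_inj fun θ => by rw [hconj, hreal]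
  have hG : W.GE (-1) A.det := by
    intro n hn
    rcases eq_or_ne n (-2) with rfl | h
    · exact h2
    · exact hge.det n (by omega)
  have hL : W.LE 1 A.det := by rw [← hrev, W.LE_rev]; exact hG
  obtain ⟨c, hc⟩ : ∃ c : ℝ, W.coef (-1) A.det = c := by
    refine ⟨_, (Complex.conj_eq_iff_re.1 ?_).symm⟩
    rw [← W.coef_cj, hcj]
  have hc1 : W.coef 1 A.det = c := by rw [← hrev, W.coef_rev, hc]
  have h3 := W.eq_three hG hL
  rw [hc, hc1] at h3
  generalize W.coef 0 A.det = d at h3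
  have hD : ∀ θ : ℝ, W.ev θ A.det = 2 * c * Real.cos θ + d := by
    intro θ
    rw [h3]
    simp only [map_add, map_smul, W.ev_mon, W.ev_one, smul_eq_mul, Complex.ofReal_cos, Complex.cos]
    push_cast
    ring_nf
  have hcos : Real.cos (Real.pi * t * l) = Real.cos (Real.pi * t) := by
    rcases hl with rfl | rfl <;> simp
  have hsin : 0 < Real.sin (Real.pi * t) :=
    Real.sin_pos_of_pos_of_lt_pi (by positivity) (by nlinarith)
  have hsin' : Real.sin (Real.pi * t * l) ≠ 0 := by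
    rcases hl with rfl | rfl <;> simpa using hsin.ne'
  have hd : d = -1 / 4 - 2 * c := by
    obtain ⟨μ, hμ⟩ := IsAlgClosed.exists_pow_nat_eq (-W.ev 0 A.det) two_pos
    have h1 := hT 0 μ hμ
    rw [W.ev_zero, hM.j0_tr, hcos, Complex.ofReal_cos] at h1
    have h4 := TrDet_cos_eq (a := Real.pi * t) (TrDet_norm ht hn hμ)
      (by rw [abs_of_pos (by positivity)]; nlinarith) (mul_left_cancel₀ two_ne_zero h1).symm
    rw [mul_pow, hμ, hD] at h4
    apply mul_left_cancel₀ (pow_ne_zero 2 ht0)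
    simp only [Real.cos_zero, Complex.ofReal_one, Complex.ofReal_mul] at h4
    linear_combination -h4
  have hzero : c = 0 → A.det = algebraMap ℂ W (-1/4) := by
    rintro rfl
    rw [h3, hd, Algebra.algebraMap_eq_smul_one]
    simp
  refine ⟨fun h0 => ?_, fun h0 => hzero ?_⟩
  · have hc0 : c = 0 := by rw [hc] at h0; exact_mod_cast h0
    refine ⟨hzero hc0, ?_⟩
    have h4 : trW M = algebraMap ℂ W (2 * Complex.cos (2 * Real.pi * t * (1 / 2))) :=
      W.ev_inj fun θ => by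
        rw [W.ev_algebraMap, hT θ (1 / 2)]
        rw [hzero hc0, W.ev_algebraMap]
        norm_num
    have h5 := hM.j2_tr
    rw [h4, W.j2_algebraMap, eq_comm, mul_eq_zero, neg_eq_zero, mul_eq_zero] at h5
    rcases h5 with (h5 | h5) | h5
    · exact absurd h5 I_ne_zero
    · exact absurd (by exact_mod_cast h5) hsin'
    · exact h5
  · obtain ⟨C, hC⟩ := W.ev_taylor
    have h5 := hM.j2_tr
    rw [h0, mul_zero] at h5
    have hg : ∀ θ : ℝ, 0 ≤ 1 / 4 + c * (2 - 2 * Real.cos θ) → W.ev θ (trW M) =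
        ((2 * Real.cos (2 * Real.pi * t * √(1 / 4 + c * (2 - 2 * Real.cos θ))) : ℝ) : ℂ) := by
      intro θ hθ
      rw [hT θ (√(1 / 4 + c * (2 - 2 * Real.cos θ)) : ℝ)]
      · push_cast; rfl
      · rw [← Complex.ofReal_pow, Real.sq_sqrt hθ, hD, hd]
        push_cast; ring
    have hev : ∀ᶠ θ in 𝓝[>] (0:ℝ), 0 ≤ 1 / 4 + c * (2 - 2 * Real.cos θ) := by
      have : Continuous fun θ : ℝ => 1 / 4 + c * (2 - 2 * Real.cos θ) := by fun_prop
      refine ((this.tendsto 0).mono_left nhdsWithin_le_nhds).eventually (eventually_ge_nhds ?_)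
      simp
    have h6 := TrDet_deriv_zero (K := C * ‖trW M‖) (TrDet_hasDerivAt t c) (by
      filter_upwards [hev] with θ hθ
      have h7 := hC θ (trW M)
      have h8 := hg 0 (by simp)
      rw [hM.j1_tr, h5, ← W.ev_zero, hg θ hθ, h8] at h7
      simp only [mul_zero, sub_zero, add_zero, Real.cos_zero, mul_one, sub_self] at h7 ⊢
      rw [← Complex.ofReal_sub, Complex.norm_real, Real.norm_eq_abs] at h7
      linarith)
    have h7 : 4 * Real.pi * t * Real.sin (Real.pi * t) ≠ 0 := by positivity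
    exact (mul_eq_zero.1 (neg_eq_zero.1 h6)).resolve_left h7

def capDet (A : MW) (Y : Fin 2 → W) : W :=
  W.mon 1 * ((((1/2 : ℂ) • (1 : MW) + A) *ᵥ Y) 0 * Y 1 - (((1/2 : ℂ) • (1 : MW) + A) *ᵥ Y) 1 * Y 0)

theorem cap_gauge {A : MW} {Y : Fin 2 → W} {c : ℂ} (htr : trW A = 0) (hge : MGE (-1) A)
    (hre : sharp A = A) (hd : A.det = algebraMap ℂ W (-1/4)) (hY : ∀ i, W.GE 0 (Y i))
    (hYr : ∀ i, W.cj (Y i) = Y i) (hc : ‖capDet A Y - algebraMap ℂ W c‖ < ‖c‖) :
    ∃ (P : MW) (φ : W), MGE 0 P ∧ P.det = 1 ∧ sharp P = P ∧ W.GE (-1) φ ∧ W.cj φ = φ ∧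
      W.coef (-1) φ ≠ 0 ∧
      adj P * A * P = !![algebraMap ℂ W (1/2), φ; 0, algebraMap ℂ W (-1/2)] := by
  obtain ⟨h, hh⟩ : ∃ h, h = algebraMap ℂ W (1/2) := ⟨_, rfl⟩
  have hh' : algebraMap ℂ W (-1/2) = -h := by rw [hh, ← map_neg]; norm_num
  have hh2 : algebraMap ℂ W (-1/4) = -(h * h) := by rw [hh, ← map_mul, ← map_neg]; norm_num
  have hhG : W.GE (-1) h := hh ▸ (W.GE_algebraMap _).mono (by norm_num)
  have hhc : W.cj h = h := by rw [hh, W.cj_algebraMap, map_div₀, map_one, Complex.conj_ofNat]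
  have hAc : ∀ i j, W.cj (A i j) = A i j := fun i j => by rw [← sharp_apply, hre]
  obtain ⟨n0, hn0⟩ : ∃ n0, n0 = (h + A 0 0) * Y 0 + A 0 1 * Y 1 := ⟨_, rfl⟩
  obtain ⟨n1, hn1⟩ : ∃ n1, n1 = A 1 0 * Y 0 + (h + A 1 1) * Y 1 := ⟨_, rfl⟩
  have hcap : capDet A Y = W.mon 1 * (n0 * Y 1 - n1 * Y 0) := by
    simp only [capDet, hn0, hn1, hh, Matrix.mulVec, dotProduct, Fin.sum_univ_two, Matrix.add_apply,
      Matrix.smul_apply, Matrix.one_apply, Algebra.algebraMap_eq_smul_one]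
    simp
  have hG0 : W.GE (-1) n0 := by
    rw [hn0]
    simpa using ((hhG.add (hge 0 0)).mul (hY 0)).add ((hge 0 1).mul (hY 1))
  have hG1 : W.GE (-1) n1 := by
    rw [hn1]
    simpa using ((hge 1 0).mul (hY 0)).add ((hhG.add (hge 1 1)).mul (hY 1))
  have hc0 : W.cj n0 = n0 := by simp only [hn0, map_add, W.cj_mul, hhc, hAc, hYr]
  have hc1 : W.cj n1 = n1 := by simp only [hn1, map_add, W.cj_mul, hhc, hAc, hYr]
  have hφG : W.GE (-1) (n0 * Y 1 - n1 * Y 0) := by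
    simpa using (hG0.mul (hY 1)).sub (hG1.mul (hY 0))
  have hφc : W.cj (n0 * Y 1 - n1 * Y 0) = n0 * Y 1 - n1 * Y 0 := by
    simp only [map_sub, W.cj_mul, hc0, hc1, hYr]
  have hdG : W.GE 0 (capDet A Y) := by
    rw [hcap]
    simpa using (W.GE_mon 1).mul hφG
  obtain ⟨e, heG, he⟩ := W.exists_inv_GE hdG hc
  have hne : W.coef (-1) (n0 * Y 1 - n1 * Y 0) ≠ 0 := by
    intro h0
    have h1 := hdG.coef_mul heG
    rw [he, add_zero, W.coef_one, if_pos rfl, hcap, W.coef_mon_mul, zero_sub, h0, zero_mul] at h1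
    exact one_ne_zero h1
  rw [hcap] at he
  have hec : W.cj e = e := by
    have h1 := congrArg W.cj he
    rw [W.cj_mul, W.cj_mul, hφc, W.cj_mon, W.cj_one] at h1
    linear_combination e * h1 - W.cj e * he
  have hdet : (!![e * (W.mon 1 * n0), Y 0; e * (W.mon 1 * n1), Y 1] : MW).det = 1 := by
    rw [Matrix.det_fin_two_of]
    linear_combination he
  refine ⟨!![e * (W.mon 1 * n0), Y 0; e * (W.mon 1 * n1), Y 1], n0 * Y 1 - n1 * Y 0, ?_, hdet, ?_,
    hφG, hφc, hne, ?_⟩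
  · intro i j
    fin_cases i <;> fin_cases j
    · simpa using heG.mul ((W.GE_mon 1).mul hG0)
    · simpa using hY 0
    · simpa using heG.mul ((W.GE_mon 1).mul hG1)
    · simpa using hY 1
  · ext i j
    fin_cases i <;> fin_cases j <;> simp [hec, hc0, hc1, hYr]
  · rw [trW_apply] at htr
    rw [Matrix.det_fin_two, hh2] at hd
    have h1 : A * !![e * (W.mon 1 * n0), Y 0; e * (W.mon 1 * n1), Y 1] =
        !![e * (W.mon 1 * n0), Y 0; e * (W.mon 1 * n1), Y 1] *
          !![h, n0 * Y 1 - n1 * Y 0; 0, -h] := by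
      ext i j
      fin_cases i <;> fin_cases j <;>
        simp only [Matrix.mul_apply, Fin.sum_univ_two, Fin.zero_eta, Fin.mk_one, Fin.isValue,
          Matrix.of_apply, Matrix.cons_val', Matrix.cons_val_zero, Matrix.cons_val_one,
          Matrix.cons_val_fin_one]
      · rw [hn0, hn1]
        linear_combination e * W.mon 1 * (A 0 0 * Y 0 + A 0 1 * Y 1) * htr - e * W.mon 1 * Y 0 * hd
      · linear_combination -hn0 - n0 * he
      · rw [hn0, hn1]
        linear_combination e * W.mon 1 * (A 1 0 * Y 0 + A 1 1 * Y 1) * htr - e * W.mon 1 * Y 1 * hd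
      · linear_combination -hn1 - n1 * he
    rw [mul_assoc, h1, ← mul_assoc, adj_mul_of_det hdet, one_mul, ← hh, hh']

end Pool.Agent.MP_efb2da_gt
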