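import Pool.Agent.MP_efb2da_gt.Pot0
import Pool.Agent.MP_efb2da_gt.Jet
import Pool.Agent.MP_efb2da_gt.TrDet
import Pool.Agent.MP_efb2da_gt.Lax
import Pool.Agent.MP_efb2da_gt.Dpw2

/-! Solutions of the closing conditions, frames. -/

open Set Complex
open scoped Topology ComplexConjugate Matrix ContDiff

noncomputable section

namespace Pool.Agent.MP_efb2da_gt

/-- the residue of the round sphere at the equator -/
def A10 : MW := zeta (-1) (nilM (-1/2) (Real.pi / 2))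

/-- properties of the limit residues -/
structure LimProp (As : Fin 5 → MW) : Prop where
  one : As 1 = A10
  e3 : cf (-1) (As 3) = cf (-1) (As 1)
  e4 : cf (-1) (As 4) = cf (-1) (As 2)
  triple : trC (cf (-1) (As 2) *
    (cf (-1) (As 1) * cf (-1) (As 0) - cf (-1) (As 0) * cf (-1) (As 1))) ≠ 0
  cap : ∀ j : Fin 3, ∃ (Y : Fin 2 → W) (c : ℂ), c ≠ 0 ∧ (∀ i, W.GE 0 (Y i)) ∧
    (∀ i, W.cj (Y i) = Y i) ∧ capDet (As (cj5 j)) Y = algebraMap ℂ W c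

/-- an exact solution of all closing conditions, `η`-close to the limit -/
structure Sol (η N : ℝ) (As : Fin 5 → MW) where
  k : ℕ
  g : Geo
  d : Dat
  x : ℝ
  hk : 3 ≤ k
  ht : tt g = 1 / k
  adm : AdmG g
  str : Str d
  fix : Fix g d
  bd : ‖d‖ ≤ N
  t_le : tt g ≤ η
  e_le : ee g ≤ η
  q_le : qq g ≤ η
  close : ∀ j, ‖AA d j - As j‖ ≤ η
  x_close : |x + 1/2| ≤ η
  c1 : Cl x (tt g) 1 (R1 g d)
  phi1 : phi x (R1 g d) = 0
  c2 : Cl x (tt g) 0 (RR g d 0)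
  c3 : Cl x (tt g) 0 (RR g d 1)
  c4 : Cl x (tt g) 1 (RR g d 2)
  cL : ∃ L, Cl x (tt g) 0 L ∧ Php g d * GG d = L * Phi g d
  nil : ∀ j : Fin 3, W.coef (-2) (AA d (cj5 j)).det = 0
  fl0 : W.coef (-1) (AA d 2).det = 0
  fl1 : W.coef (-1) (AA d 3).det = 0
  res : ∀ j : Fin 3,
    trC (adjC (cf (-1) (AA d (cj5 j))) * cf (-1) (reg g d (cj5 j) (pp g j))) = 0
  n1 : (cf (-1) (Th g d (ee g))).det = 0
  n4 : (cf (-1) (Xi g d ((1 / √(qq g) : ℝ) : ℂ))).det = 0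

/-- the holomorphic frame on a neighbourhood of the upper half of the domain -/
structure Frame (g : Geo) (d : Dat) (Ω : Set ℂ) (Φ : ℂ → MW) : Prop where
  opn : IsOpen Ω
  sub : Ω ⊆ Dom g
  up : ∀ z ∈ Dom g, 0 ≤ z.im → z ∈ Ω
  ode : ∀ z ∈ Ω, HasDerivAt Φ (Φ z * ((tt g : ℂ) • Xi g d z)) z
  det : ∀ z ∈ Ω, (Φ z).det = 1
  base : Φ (1 + ee g) = 1

def arcR (Φ : ℂ → MW) (x : ℝ) : MW := Φ x * adj (sharp (Φ x))

/-- the monodromy across the real arc containing `x` -/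
def arcVal (g : Geo) (d : Dat) (R5 : MW) (x : ℝ) : MW :=
  if 1 < x then 1 else if pp g 0 < x then R1 g d else if 0 < x then RR g d 0
  else if pp g 2 < x then R5 else if pp g 1 < x then RR g d 1 else RR g d 2

/-- monodromies to the left and to the right of a cap puncture -/
def Rl (g : Geo) (d : Dat) : Fin 3 → MW := ![RR g d 0, RR g d 2, RR g d 1]
def Rr (g : Geo) (d : Dat) (R5 : MW) : Fin 3 → MW := ![R1 g d, RR g d 1, R5]

structure Arcs {η N : ℝ} {As : Fin 5 → MW} (S : Sol η N As) (Φ : ℂ → MW) (R5 : MW) : Prop where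
  val : ∀ x : ℝ, (x : ℂ) ∈ Dom S.g → arcR Φ x = arcVal S.g S.d R5 x
  c5 : Cl S.x (tt S.g) 1 R5
  phi5 : phi S.x R5 = phi S.x (RR S.g S.d 0) + phi S.x (RR S.g S.d 2)
  per : ∃ L, Cl S.x (tt S.g) 0 L ∧ ∀ z : ℂ, 0 ≤ z.im → 8 < ‖z‖ → 8 * qq S.g * ‖z‖ < 1 →
    Φ (qq S.g * z) * GG S.d = L * Φ z

/-- potential on the strip covering the neck at `1` -/
def xiN (g : Geo) (d : Dat) (ζ : ℂ) : MW := (tt g : ℂ) • Th g d (ee g * exp ζ)
def Strip (g : Geo) : Set ℂ := {ζ | |ζ.re| < Real.log (1 / (8 * ee g))}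

structure Neck (g : Geo) (d : Dat) (Ψ : ℂ → MW) : Prop where
  fr : DFrame (Strip g) Ψ (xiN g d)
  zero : Ψ 0 = 1
  rot : ∀ ζ ∈ Strip g, Ψ (ζ + 2 * Real.pi * I) = R1 g d * Ψ ζ
  cj : ∀ ζ ∈ Strip g, Ψ (conj ζ) = sharp (Ψ ζ)
  neg : ∀ ζ ∈ Strip g, Ψ (-ζ) = sw (Ψ ζ)

/-- the boundary curve -/
def Gam (k : ℕ) (x : ℝ) (Ψ : ℂ → MW) (s : ℝ) : ℂ :=
  hz (pt x (Ψ (((2 * Real.pi * k * s : ℝ) : ℂ) * I)))
/-- vertical component of the conormal derivative -/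
def nuB (k : ℕ) (Ψ ξ : ℂ → MW) (s : ℝ) : ℝ :=
  -(2 * Real.pi * k) * (2 * (aM Ψ ξ (((2 * Real.pi * k * s : ℝ) : ℂ) * I) 0 0).re)

/-- nilpotency and non-vanishing of the Higgs field -/
structure Nil (g : Geo) (d : Dat) : Prop where
  nil : ∀ z ∈ Dom g, (cf (-1) (Xi g d z)).det = 0
  ne : ∀ z : ℂ, √(qq g) / 2 < ‖z‖ → ‖z‖ < 2 / √(qq g) → ee g / 2 < ‖z - 1‖ → (∀ j, z ≠ pp g j) →
    cf (-1) (Xi g d z) ≠ 0

end Pool.Agent.MP_efb2da_gt
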