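import Pool.Agent.MP_efb2da_gt.So2
import Pool.Agent.MP_efb2da_gt.So3
import Pool.Agent.MP_efb2da_gt.So4
import Pool.Agent.MP_efb2da_gt.Lim4

open Set Complex
open scoped Topology ComplexConjugate Matrix ContDiff

noncomputable section

namespace Pool.Agent.MP_efb2da_gt

theorem Solve_root {s₀ : ℝ} (h : 0 < s₀) :
    ∃ (k : ℕ) (s : ℝ), 3 ≤ k ∧ 0 < s ∧ s ≤ s₀ ∧ s ^ 4 = 1 / k := by
  obtain ⟨k, hk⟩ := exists_nat_ge (max 3 (1 / s₀ ^ 4))
  have h3 : (3 : ℝ) ≤ k := (le_max_left _ _).trans hk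
  have h4 : 1 / s₀ ^ 4 ≤ k := (le_max_right _ _).trans hk
  have hk0 : (0 : ℝ) < k := by linarith
  have he : √(√(1 / (k : ℝ))) ^ 4 = 1 / k := by
    rw [show (4 : ℕ) = 2 * 2 from rfl, pow_mul, Real.sq_sqrt (Real.sqrt_nonneg _),
      Real.sq_sqrt (by positivity)]
  refine ⟨k, √(√(1 / (k : ℝ))), by exact_mod_cast h3, by positivity, ?_, he⟩
  refine le_of_pow_le_pow_left₀ (n := 4) (by norm_num) h.le ?_
  rw [he, div_le_iff₀ hk0]
  rw [div_le_iff₀ (by positivity)] at h4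
  linarith

theorem Solve_x {s b η : ℝ} (hs : 0 < s) (hs1 : s ≤ 1/2) (hb : |b| ≤ 1) (hη : 6 * s ≤ η) :
    |-((1/2 + s ^ 2 * b) / kap (s ^ 4)) + 1/2| ≤ η := by
  have h2 : s ^ 2 ≤ s := by nlinarith
  have h4 : s ^ 4 ≤ s := by nlinarith
  have h4' : s ^ 4 ≤ 1/4 := by nlinarith
  obtain ⟨h5, h6⟩ := kap_est (t := s ^ 4) (by positivity) h4'
  have h7 : 0 < kap (s ^ 4) := by linarith
  rw [show -((1/2 + s ^ 2 * b) / kap (s ^ 4)) + 1/2 =
    ((kap (s ^ 4) - 1) / 2 - s ^ 2 * b) / kap (s ^ 4) by field_simp; ring, abs_div, abs_of_pos h7,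
    div_le_iff₀ h7]
  have h8 : |s ^ 2 * b| ≤ s := by
    rw [abs_mul, abs_of_pos (by positivity : 0 < s ^ 2)]
    nlinarith [abs_nonneg b]
  have h9 : |(kap (s ^ 4) - 1) / 2| ≤ 2 * s := by
    rw [abs_div, abs_two]
    linarith
  have h10 := abs_sub ((kap (s ^ 4) - 1) / 2) (s ^ 2 * b)
  nlinarith

theorem solve : ∃ (As : Fin 5 → MW) (N : ℝ), LimProp As ∧ ∀ η > 0, Nonempty (Sol η N As) := by
  obtain ⟨ψ, h1, h2, hbox⟩ := limit_box
  obtain ⟨d₀, hd₀, hadm⟩ := Metric.eventually_nhds_iff_ball.1 (yadm_near h1 h2)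
  obtain ⟨K, hKdef⟩ : ∃ K : Set Y8, K = Metric.closedBall (ystar ψ) (d₀ / 2) := ⟨_, rfl⟩
  have hK : IsCompact K := hKdef ▸ isCompact_closedBall _ _
  have hY : ∀ y ∈ K, Yadm y := fun y hy =>
    hadm y (Metric.closedBall_subset_ball (by linarith) (hKdef ▸ hy))
  obtain ⟨RG, Rm, hG, hm, s₁, hs₁, hfixed⟩ := exists_fixed hK hY
  obtain ⟨C, N, s₂, hs₂, hhol⟩ := hol_close hK hY hG.le hm.le
  obtain ⟨s₃, hs₃, hsign⟩ := hard_sign hK hY hG.le hm.le
  obtain ⟨s₄, hs₄, L, hgeo⟩ := geo_est hK hY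
  refine ⟨Al (ystar ψ), N, limProp_Al h1 h2, fun η hη => ?_⟩
  have hnear : ∀ᶠ y in 𝓝 (ystar ψ), ∀ j, ‖Al y j - Al (ystar ψ) j‖ ≤ η / 2 := by
    refine Filter.eventually_all.2 fun j => ?_
    have hc : ContinuousAt (fun y => Al y j) (ystar ψ) := (co_Al j).continuousAt (yadm_near h1 h2)
    filter_upwards [hc.tendsto.eventually
      (Metric.closedBall_mem_nhds (Al (ystar ψ) j) (half_pos hη))] with y hy
    rwa [dist_eq_norm] at hy
  obtain ⟨d₁, hd₁, hclose⟩ := Metric.eventually_nhds_iff_ball.1 hnear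
  obtain ⟨Y, κ, hκ, hYc, hYb⟩ := hbox (min d₀ d₁ / 2) (by positivity)
  have hYK : ∀ v : Y8, (∀ i, |v i| ≤ 1) → Y v ∈ K := by
    intro v hv
    rw [hKdef, Metric.mem_closedBall, dist_eq_norm]
    have := min_le_left d₀ d₁
    linarith [(hYb v hv).1]
  have hYA : ∀ v : Y8, (∀ i, |v i| ≤ 1) → ∀ j, ‖Al (Y v) j - Al (ystar ψ) j‖ ≤ η / 2 := by
    intro v hv
    refine hclose _ ?_
    rw [Metric.mem_ball, dist_eq_norm]
    have := min_le_right d₀ d₁
    linarith [(hYb v hv).1]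
  obtain ⟨s₅, hs₅, hhard⟩ := hard_close hK hY hG hm.le (η := min (η / 2) (κ / 2)) (by positivity)
  have hC1 : 0 < |C| + 1 := by positivity
  obtain ⟨k, s, hk, hs, hsle, hs4⟩ := Solve_root (s₀ := min (min (min s₁ s₂) (min s₃ s₄))
    (min (min s₅ (1 / 2)) (min (η / 6) (1 / (4 * (|C| + 1)))))) (by positivity)
  simp only [le_min_iff] at hsle
  obtain ⟨⟨⟨e1, e2⟩, e3, e4⟩, ⟨e5, e6⟩, e7, e8⟩ := hsle
  have hCs : C * s ≤ 1 / 4 := by
    rw [le_div_iff₀ (by positivity)] at e8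
    nlinarith [le_abs_self C]
  have hs4η : s ^ 4 ≤ η := by
    have : s ^ 2 ≤ s := by nlinarith
    have : s ^ 4 ≤ s := by nlinarith
    linarith
  have hs4' : s ^ 4 < 1 / 2 := by
    have : s ^ 2 ≤ 1 / 4 := by nlinarith
    nlinarith
  obtain ⟨e, hec, he⟩ := hfixed s ⟨hs, e1⟩
  obtain ⟨par, hpar⟩ : ∃ par : (Fin 8 ⊕ Bool → ℝ) → Par, par = fun v =>
    (Y fun i => v (Sum.inl i), v (Sum.inr false), v (Sum.inr true)) := ⟨_, rfl⟩
  have hparB : ∀ v : Fin 8 ⊕ Bool → ℝ, (∀ i, |v i| ≤ 1) → par v ∈ Box K := by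
    intro v hv
    rw [hpar]
    exact ⟨hYK _ fun i => hv _, hv _, hv _⟩
  have hparc : ContinuousOn par {v | ∀ i, |v i| ≤ 1} := by
    rw [hpar]
    refine ContinuousOn.prodMk ?_ (Continuous.continuousOn (by fun_prop))
    exact hYc.comp (Continuous.continuousOn (by fun_prop)) fun v hv i => hv _
  obtain ⟨c1, c2, c3⟩ := hard_cont (RG := RG) (Rm := Rm) hY
    (fun y hy => (hgeo s ⟨hs, e4⟩ y hy).1) hec fun p hp => (he p hp).2.1
  obtain ⟨v, hv, hz⟩ := miranda (ι := Fin 8 ⊕ Bool)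
    (fun v => Sum.elim (Et (geo s (par v).1) (dat s RG Rm (par v) (e (par v)))) fun b =>
      if b then Em (geo s (par v).1) (dat s RG Rm (par v) (e (par v)))
      else Eb (geo s (par v).1) (dat s RG Rm (par v) (e (par v))))
    (by
      refine continuousOn_pi.2 fun i => ?_
      rcases i with i | b
      · exact (continuous_apply i).comp_continuousOn (c1.comp hparc hparB)
      · cases b
        · exact c2.comp hparc hparB
        · exact c3.comp hparc hparB)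
    (by
      intro v hv i
      have hp := hparB v hv
      obtain ⟨n1, -, f1⟩ := he _ hp
      rcases i with i | b
      · have hE := abs_le.1 (((hhard s ⟨hs, e5⟩ _ hp _ n1 f1).2 i).trans (min_le_right _ _))
        have hB := (hYb (fun i => v (Sum.inl i)) fun i => hv _).2 i
        have hY1 : (par v).1 = Y fun i => v (Sum.inl i) := by rw [hpar]
        rw [← hY1] at hB
        simp only [Sum.elim_inl]
        exact ⟨fun h => by linarith [hB.1 h, hE.1], fun h => by linarith [hB.2 h, hE.2]⟩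
      · obtain ⟨g1, g2, g3, g4⟩ := hsign s ⟨hs, e3⟩ _ hp _ n1
        have hb1 : (par v).2.1 = v (Sum.inr false) := by rw [hpar]
        have hb2 : (par v).2.2 = v (Sum.inr true) := by rw [hpar]
        rw [hb1] at g1 g2
        rw [hb2] at g3 g4
        cases b
        · exact ⟨g1, g2⟩
        · exact ⟨g3, g4⟩)
  have hp := hparB v hv
  have hAl : ∀ j, ‖Al (par v).1 j - Al (ystar ψ) j‖ ≤ η / 2 := by
    rw [hpar]
    exact hYA _ fun i => hv _
  have zE : Et (geo s (par v).1) (dat s RG Rm (par v) (e (par v))) = 0 :=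
    funext fun i => congrFun hz (Sum.inl i)
  have zb : Eb (geo s (par v).1) (dat s RG Rm (par v) (e (par v))) = 0 :=
    congrFun hz (Sum.inr false)
  have zm : Em (geo s (par v).1) (dat s RG Rm (par v) (e (par v))) = 0 :=
    congrFun hz (Sum.inr true)
  generalize par v = p at hp hAl zE zb zm
  obtain ⟨n1, hC, f1⟩ := he p hp
  generalize e p = x at n1 hC f1 zE zb zm
  obtain ⟨hg, hee, hqq, -⟩ := hgeo s ⟨hs, e4⟩ _ hp.1
  obtain ⟨hN, -, -, -, hR1, hRR, -⟩ := hhol s ⟨hs, e2⟩ p hp x n1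
  have hR1' := hR1.trans hCs
  have hRR' := fun i => (hRR i).trans hCs
  obtain ⟨k1, k2, k3, k4, k5⟩ := fixed_cl hs hs4' hG hm (hY _ hp.1) hg hC f1 hR1' hRR'
  obtain ⟨-, hfix⟩ := fixed_fix hs hs4' hG hm (hY _ hp.1) hg hC f1 hR1' hRR'
  obtain ⟨m1, m2, m3, m4, m5, m6, m7⟩ :=
    fixed_hard hs hs4' hG hm (hY _ hp.1) hg hC f1 hR1' hRR' zE zb zm
  have hA := (hhard s ⟨hs, e5⟩ p hp x n1 f1).1
  exact ⟨{
    k := k
    g := geo s p.1
    d := dat s RG Rm p x
    x := -(be s p / kap (s ^ 4))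
    hk := hk
    ht := hs4
    adm := hg
    str := dat_str s RG Rm p x hC
    fix := hfix
    bd := hN
    t_le := hs4η
    e_le := hee.trans hs4η
    q_le := hqq.trans hs4η
    close := fun j => by
      have := norm_sub_le_norm_sub_add_norm_sub (AA (dat s RG Rm p x) j) (Al p.1 j)
        (Al (ystar ψ) j)
      linarith [(hA j).trans (min_le_left _ _), hAl j]
    x_close := Solve_x hs e6 hp.2.1 (by linarith)
    c1 := k1
    phi1 := k2
    c2 := k3
    c3 := k4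
    c4 := k5
    cL := m1
    nil := m2
    fl0 := m3
    fl1 := m4
    res := m5
    n1 := m6
    n4 := m7 }⟩

end Pool.Agent.MP_efb2da_gt
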