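import Pool.Agent.MP_efb2da_gt.Surf0

open scoped Manifold ContDiff ComplexConjugate Topology
open Set Complex

noncomputable section

namespace Pool.Agent.MP_efb2da_gt

lemma norm_rt (k : ℕ) : ‖rt k‖ = 1 := by
  have : (2 * Real.pi * I / k : ℂ) = ((2 * Real.pi / k : ℝ) : ℂ) * I := by push_cast; ring
  rw [rt, this, norm_exp_ofReal_mul_I]
lemma rt_pow {k : ℕ} (hk : k ≠ 0) : rt k ^ k = 1 :=
  (isPrimitiveRoot_exp k hk).pow_eq_one
lemma exists_rt_pow {k : ℕ} (hk : k ≠ 0) {o : ℂ} (ho : o ^ k = 1) : ∃ n : ℕ, n < k ∧ o = rt k ^ n := by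
  have : NeZero k := ⟨hk⟩
  obtain ⟨n, hn, e⟩ := (isPrimitiveRoot_exp k hk).eq_pow_of_pow_eq_one ho
  exact ⟨n, hn, e.symm⟩
/-- roots of unity are isolated -/
lemma exists_root_sep {k : ℕ} (hk : k ≠ 0) :
    ∃ δ > 0, ∀ o : ℂ, o ^ k = 1 → ‖o - 1‖ < δ → o = 1 := by
  have hc : Continuous fun o : ℂ => ∑ i ∈ Finset.range k, o ^ i := by fun_prop
  have h1 : ∀ᶠ o in 𝓝 (1 : ℂ), ∑ i ∈ Finset.range k, o ^ i ≠ 0 :=
    hc.continuousAt.eventually_ne (by simpa using hk)
  obtain ⟨δ, hδ, h⟩ := Metric.eventually_nhds_iff.1 h1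
  refine ⟨δ, hδ, fun o ho hd => ?_⟩
  have h2 := geom_sum_mul o k
  rw [ho, sub_self, mul_eq_zero] at h2
  exact sub_eq_zero.1 (h2.resolve_left (h (by rwa [dist_eq_norm])))
lemma continuousOn_ang : ContinuousOn ang {w | w ≠ 0} :=
  Real.continuous_arccos.comp_continuousOn
    (continuous_re.continuousOn.div continuous_norm.continuousOn fun _ hw => norm_ne_zero_iff.2 hw)
lemma ang_conj (w : ℂ) : ang (conj w) = ang w := by simp [ang]
lemma ang_pos {x : ℝ} (hx : 0 < x) : ang x = 0 := by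
  simp [ang, abs_of_pos hx, hx.ne']
lemma ang_neg {x : ℝ} (hx : x < 0) : ang x = Real.pi := by
  simp [ang, abs_of_neg hx, hx.ne]
lemma ang_exp {c : ℝ} (hc : 0 < c) {ζ : ℂ} (h : |ζ.im| ≤ Real.pi) : ang (c * exp ζ) = |ζ.im| := by
  have h1 : (c * exp ζ : ℂ).re / ‖(c * exp ζ : ℂ)‖ = Real.cos |ζ.im| := by
    rw [re_ofReal_mul, norm_mul, norm_real, norm_exp, exp_re, Real.norm_of_nonneg hc.le,
      Real.cos_abs]
    have := Real.exp_pos ζ.re
    field_simp
  rw [ang, h1, Real.arccos_cos (abs_nonneg _) h]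
lemma ang_mem (w : ℂ) : 0 ≤ ang w ∧ ang w ≤ Real.pi :=
  ⟨Real.arccos_nonneg _, Real.arccos_le_pi _⟩

lemma Surf1_ang_gt {x a : ℝ} (h : a < x) : ang ((x : ℂ) - a) = 0 := by
  rw [← ofReal_sub]; exact ang_pos (sub_pos.2 h)
lemma Surf1_ang_lt {x a : ℝ} (h : x < a) : ang ((x : ℂ) - a) = Real.pi := by
  rw [← ofReal_sub]; exact ang_neg (sub_neg.2 h)
lemma Surf1_ang_gt1 {x : ℝ} (h : 1 < x) : ang ((x : ℂ) - 1) = 0 := by
  simpa using Surf1_ang_gt h
lemma Surf1_ang_lt1 {x : ℝ} (h : x < 1) : ang ((x : ℂ) - 1) = Real.pi := by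
  simpa using Surf1_ang_lt h

lemma Surf1_chi_one {r : ℝ} (h1 : 1/16 ≤ r) (h2 : r ≤ 16) : chi r = 1 := by
  rw [chi, min_eq_left (le_min (by linarith) (by linarith)), max_eq_right zero_le_one]
lemma Surf1_chi_zero {r : ℝ} (h : r ≤ 1/32 ∨ 32 ≤ r) : chi r = 0 := by
  refine max_eq_left (min_le_of_right_le ?_)
  rcases h with h | h
  · exact min_le_of_left_le (by linarith)
  · exact min_le_of_right_le (by linarith)
lemma Surf1_chi_cont : Continuous chi := by unfold chi; fun_prop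

lemma Surf1_re {z : ℂ} {a r : ℝ} (h : ‖z - a‖ < r) : a - r < z.re ∧ z.re < a + r := by
  have := abs_lt.1 ((abs_re_le_norm (z - a)).trans_lt h)
  simp only [sub_re, ofReal_re] at this
  constructor <;> linarith [this.1, this.2]
lemma Surf1_min {z : ℂ} {a : ℝ} (h : a + 1/16 ≤ z.re ∨ z.re ≤ a - 1/16) :
    min 1 (16 * ‖z - a‖) = 1 := by
  refine min_eq_left ?_
  by_contra h1
  have := Surf1_re (z := z) (a := a) (r := 1/16) (by linarith)
  rcases h with h | h <;> linarith [this.1, this.2]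
lemma Surf1_chi_disc {z : ℂ} {a : ℝ} (h : ‖z - a‖ < 1/16) (h1 : 1/4 ≤ |a|) (h2 : |a| ≤ 2) :
    chi ‖z‖ = 1 := by
  have h3 := abs_le.1 (abs_norm_sub_norm_le z a)
  rw [norm_real, Real.norm_eq_abs] at h3
  exact Surf1_chi_one (by linarith [h3.1]) (by linarith [h3.2])
lemma Surf1_cont {U : Set ℂ} (a : ℝ) (h : ∀ z ∈ U, z.re ≠ a) :
    ContinuousOn (fun z : ℂ => ang (z - a)) U :=
  continuousOn_ang.comp (continuousOn_id.sub continuousOn_const) fun z hz h0 =>
    h z hz (by rw [sub_eq_zero.1 h0, ofReal_re])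

lemma Surf1_phase {U : Set ℂ} {b : ℂ → ℝ} (hb : ContinuousOn b U)
    (h0 : ∀ x : ℝ, (x : ℂ) ∈ U → b x = 0) : ContinuousOn (fun z => sgn z * b z) U := by
  intro z hz
  rcases lt_trichotomy z.im 0 with h | h | h
  · refine ((hb z hz).const_mul (-1)).congr_of_eventuallyEq ?_ (by simp [sgn, h.not_ge])
    filter_upwards [nhdsWithin_le_nhds ((isOpen_lt continuous_im continuous_const).mem_nhds h)]
      with w hw
    simp [sgn, not_le.2 hw]
  · have e : z = (z.re : ℂ) := Complex.ext rfl (by simpa using h)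
    have h1 : b z = 0 := by rw [e] at hz ⊢; exact h0 _ hz
    have h2 : Filter.Tendsto (fun w => ‖b w‖) (𝓝[U] z) (𝓝 0) := by
      simpa [h1] using (hb z hz).tendsto.norm
    rw [ContinuousWithinAt, h1, mul_zero]
    refine squeeze_zero_norm (fun w => ?_) h2
    unfold sgn
    split_ifs <;> simp
  · refine (hb z hz).congr_of_eventuallyEq ?_ (by simp [sgn, h.le])
    filter_upwards [nhdsWithin_le_nhds ((isOpen_lt continuous_const continuous_im).mem_nhds h)]
      with w hw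
    simp [sgn, le_of_lt hw]

lemma Surf1_rt_ne (k : ℕ) : rt k ≠ 0 := exp_ne_zero _
lemma Surf1_rt_zpow (k : ℕ) (n : ℤ) : rt k ^ n = exp (I * (2 * Real.pi * n / k : ℝ)) := by
  rw [rt, ← exp_int_mul]; congr 1; push_cast; ring

namespace SurfData
variable (D : SurfData)

lemma an_conj (z : ℂ) : D.an (conj z) = D.an z := by
  have h : ∀ a : ℝ, ang (conj z - a) = ang (z - a) := fun a => by
    rw [← ang_conj (z - a), map_sub, conj_ofReal]
  have h1 := h 1
  rw [ofReal_one] at h1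
  simp only [an, h, h1, ang_conj, norm_conj]
lemma md_conj (z : ℂ) : D.md (conj z) = D.md z := by
  have h : ∀ a : ℝ, ‖conj z - a‖ = ‖z - a‖ := fun a => by
    rw [← norm_conj (z - a), map_sub, conj_ofReal]
  simp only [md, h]
lemma continuous_md : Continuous D.md := by
  refine Continuous.rpow_const ?_ fun _ => Or.inr (by positivity)
  fun_prop
lemma md_pos {z : ℂ} (h : ∀ j, z ≠ D.p j) : 0 < D.md z :=
  Real.rpow_pos_of_pos (Finset.prod_pos fun j _ => lt_min one_pos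
    (mul_pos (by norm_num) (norm_pos_iff.2 (sub_ne_zero.2 (h j))))) _
lemma md_p (j : Fin 3) : D.md (D.p j) = 0 := by
  have : (0 : ℝ) < D.k := Nat.cast_pos.2 (by have := D.hk; omega)
  rw [md, Finset.prod_eq_zero (Finset.mem_univ j) (by simp), Real.zero_rpow (by positivity)]
lemma md_near (j : Fin 3) {z : ℂ} (h : ‖z - D.p j‖ < 1/16) :
    D.md z = (16 * ‖z - D.p j‖) ^ (1 / (D.k : ℝ)) := by
  obtain ⟨⟨a1, a2⟩, ⟨b1, b2⟩, c1, c2⟩ := D.adm
  obtain ⟨h1, h2⟩ := Surf1_re h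
  have h3 : min 1 (16 * ‖z - D.p j‖) = 16 * ‖z - D.p j‖ := min_eq_right (by linarith)
  rw [md, Finset.prod_eq_single j (fun i _ hi => Surf1_min ?_) (by simp), h3]
  fin_cases i <;> fin_cases j <;> simp only [Fin.zero_eta, Fin.mk_one, Fin.reduceFinMk] at * <;>
    first | exact absurd rfl hi | (left; linarith) | (right; linarith)
lemma md_near_one {z : ℂ} (h : ‖z - 1‖ < 1/16) : D.md z = 1 := by
  obtain ⟨⟨a1, a2⟩, ⟨b1, b2⟩, c1, c2⟩ := D.adm
  obtain ⟨h1, h2⟩ := Surf1_re (z := z) (a := 1) (r := 1/16) (by simpa using h)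
  rw [md, Fin.prod_univ_three, Surf1_min (Or.inl (by linarith)), Surf1_min (Or.inl (by linarith)),
    Surf1_min (Or.inl (by linarith))]
  simp
lemma continuousOn_an : ContinuousOn D.an {z | z ≠ 0 ∧ z ≠ 1 ∧ ∀ j, z ≠ D.p j} := by
  have h : ∀ a : ℂ, (∀ z : ℂ, z ≠ 0 ∧ z ≠ 1 ∧ (∀ j, z ≠ D.p j) → z ≠ a) →
      ContinuousOn (fun z => ang (z - a)) {z | z ≠ 0 ∧ z ≠ 1 ∧ ∀ j, z ≠ D.p j} := fun a ha =>
    continuousOn_ang.comp (continuousOn_id.sub continuousOn_const) fun z hz =>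
      sub_ne_zero.2 (ha z hz)
  exact (continuousOn_ang.mono fun z hz => hz.1).add
    ((Surf1_chi_cont.comp continuous_norm).continuousOn.mul
      ((((h 1 fun z hz => hz.2.1).add (h _ fun z hz => hz.2.2 1)).sub
        (h _ fun z hz => hz.2.2 0)).sub (h _ fun z hz => hz.2.2 2)))
lemma an_real {x : ℝ} (h0 : x ≠ 0) (h1 : x ≠ 1) (h : ∀ j, x ≠ D.p j) :
    D.an x = Real.pi * lab D.p x := by
  obtain ⟨⟨a1, a2⟩, ⟨b1, b2⟩, c1, c2⟩ := D.adm
  unfold an lab
  rw [norm_real, Real.norm_eq_abs]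
  split_ifs with g1 g2 g3 g4 g5
  · rw [ang_pos (by linarith), Surf1_ang_gt1 g1, Surf1_ang_gt (by linarith),
      Surf1_ang_gt (by linarith), Surf1_ang_gt (by linarith)]
    simp
  · have := lt_of_le_of_ne (not_lt.1 g1) h1
    rw [ang_pos (by linarith), Surf1_ang_lt1 this, Surf1_ang_gt (by linarith),
      Surf1_ang_gt g2, Surf1_ang_gt (by linarith), abs_of_pos (by linarith),
      Surf1_chi_one (by linarith) (by linarith)]
    simp
  · have := lt_of_le_of_ne (not_lt.1 g2) (h 0)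
    rw [ang_pos g3, Surf1_ang_lt1 (by linarith), Surf1_ang_gt (by linarith),
      Surf1_ang_lt this, Surf1_ang_gt (by linarith)]
    simp
  · have := lt_of_le_of_ne (not_lt.1 g3) h0
    rw [ang_neg this, Surf1_ang_lt1 (by linarith), Surf1_ang_gt (by linarith),
      Surf1_ang_lt (by linarith), Surf1_ang_gt g4]
    simp
  · have := lt_of_le_of_ne (not_lt.1 g4) (h 2)
    rw [ang_neg (by linarith), Surf1_ang_lt1 (by linarith), Surf1_ang_gt g5,
      Surf1_ang_lt (by linarith), Surf1_ang_lt this, abs_of_neg (by linarith),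
      Surf1_chi_one (by linarith) (by linarith)]
    simp
  · have := lt_of_le_of_ne (not_lt.1 g5) (h 1)
    rw [ang_neg (by linarith), Surf1_ang_lt1 (by linarith), Surf1_ang_lt this,
      Surf1_ang_lt (by linarith), Surf1_ang_lt (by linarith)]
    simp

lemma Surf1_norm_et (z : ℂ) : ‖D.et z‖ = D.md z := by
  have : 0 ≤ D.md z := Real.rpow_nonneg (Finset.prod_nonneg fun j _ =>
    le_min zero_le_one (by positivity)) _
  rw [et, norm_mul, mul_comm I, norm_exp_ofReal_mul_I, norm_real, Real.norm_of_nonneg this, mul_one]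

/-- `et` is continuous on each closed half of the base region (also at the cap punctures) -/
lemma continuousOn_et_up : ContinuousOn D.et (D.Base ∩ {z | 0 ≤ z.im}) := by
  intro z hz
  by_cases hp : ∃ j, z = D.p j
  · obtain ⟨j, rfl⟩ := hp
    have h0 : D.et (D.p j) = 0 := by rw [← norm_eq_zero, Surf1_norm_et, md_p]
    rw [ContinuousWithinAt, h0]
    refine squeeze_zero_norm (fun w => (D.Surf1_norm_et w).le) ?_
    simpa [md_p] using (D.continuous_md.tendsto (D.p j)).mono_left nhdsWithin_le_nhds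
  · have h0 : z ≠ 0 := by
      rintro rfl
      have := hz.1.1
      rw [norm_zero] at this
      linarith [Real.sqrt_nonneg D.q]
    have h1 : z ≠ 1 := by
      rintro rfl
      have := hz.1.2.2
      rw [sub_self, norm_zero] at this
      linarith [D.ε0]
    have ho : IsOpen {z : ℂ | z ≠ 0 ∧ z ≠ 1 ∧ ∀ j, z ≠ D.p j} := by
      have : IsOpen {z : ℂ | ∀ j, z ≠ D.p j} := by
        rw [ofPred_forall]
        exact isOpen_iInter_of_finite fun j => isOpen_ne
      exact isOpen_ne.inter (isOpen_ne.inter this)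
    have h2 : ContinuousAt D.an z :=
      D.continuousOn_an.continuousAt (ho.mem_nhds ⟨h0, h1, fun j h => hp ⟨j, h⟩⟩)
    have h3 : ContinuousAt (fun z => (D.md z : ℂ) * exp (I * (1 * D.an z / D.k : ℝ))) z := by
      have := D.continuous_md
      fun_prop
    exact h3.continuousWithinAt.congr (fun w hw => by rw [et, sgn, if_pos (show 0 ≤ w.im from hw.2)])
      (by rw [et, sgn, if_pos (show 0 ≤ z.im from hz.2)])
lemma continuousOn_et_down : ContinuousOn (fun z => conj (D.et (conj z))) (D.Base ∩ {z | z.im ≤ 0}) := by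
  refine continuous_conj.comp_continuousOn
    (D.continuousOn_et_up.comp continuous_conj.continuousOn fun z hz => ⟨?_, by simpa using hz.2⟩)
  have : ‖conj z - 1‖ = ‖z - 1‖ := by rw [← norm_conj (z - 1), map_sub, map_one]
  simpa only [Base, mem_ofPred_eq, norm_conj, this] using hz.1
lemma et_down {z : ℂ} (h : z.im < 0) : D.et z = conj (D.et (conj z)) := by
  have h1 : sgn z = -1 := if_neg h.not_ge
  have h2 : sgn (conj z) = 1 := if_pos (by simpa using h.le)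
  rw [et, et, h1, h2, md_conj, an_conj, map_mul, conj_ofReal, ← exp_conj, map_mul, conj_ofReal,
    conj_I]
  congr 2
  push_cast
  ring

lemma Surf1_disc {P : ℝ} {l : ℕ} {σ : ℤ} {g : ℂ → ℝ} (h1 : 1/4 ≤ |P|) (h2 : |P| ≤ 2)
    (hg : ∀ z : ℂ, chi ‖z‖ = 1 → D.bb P l σ z = g z)
    (hc : ContinuousOn g {z | ‖z - P‖ < 1/16})
    (h0 : ∀ x : ℝ, P - 1/16 < x → x < P + 1/16 → g x = 0) :
    ContinuousOn (fun z => sgn z * D.bb P l σ z) {z | ‖z - P‖ < 1/16} ∧ D.bb P l σ P = 0 := by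
  refine ⟨(Surf1_phase hc fun x hx => ?_).congr fun z hz => ?_, ?_⟩
  · exact h0 x (Surf1_re hx).1 (Surf1_re hx).2
  · simp only [hg z (Surf1_chi_disc hz h1 h2)]
  · rw [hg P (Surf1_chi_disc (a := P) (by simp) h1 h2), h0 P (by linarith) (by linarith)]

lemma Surf1_cap (j : Fin 3) :
    ContinuousOn (fun z => sgn z * D.bb (D.p j) (lr j) (sg j) z) {z | ‖z - D.p j‖ < 1/16} ∧
      D.bb (D.p j) (lr j) (sg j) (D.p j) = 0 := by
  obtain ⟨⟨a1, a2⟩, ⟨b1, b2⟩, c1, c2⟩ := D.adm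
  have hc : ∀ P a : ℝ, P + 1/16 ≤ a ∨ a ≤ P - 1/16 →
      ContinuousOn (fun z : ℂ => ang (z - a)) {z | ‖z - P‖ < 1/16} := fun P a h =>
    Surf1_cont a fun z hz e => by
      have := Surf1_re hz
      rcases h with h | h <;> linarith [this.1, this.2]
  fin_cases j
  · refine D.Surf1_disc (P := D.p 0) (g := fun z => ang (z - (0 : ℝ)) + ang (z - (1 : ℝ)) +
      ang (z - D.p 1) - ang (z - D.p 2) - Real.pi) (by rwa [abs_of_pos (by linarith)])
      (by rw [abs_of_pos (by linarith)]; linarith) (fun z hz => ?_) ?_ fun x g1 g2 => ?_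
    · simp [bb, an, hz, lr, sg]
      ring
    · exact ((((hc _ _ (Or.inr (by linarith))).add (hc _ _ (Or.inl (by linarith)))).add
        (hc _ _ (Or.inr (by linarith)))).sub (hc _ _ (Or.inr (by linarith)))).sub continuousOn_const
    · rw [Surf1_ang_gt (by linarith), Surf1_ang_lt (by linarith), Surf1_ang_gt (by linarith),
        Surf1_ang_gt (by linarith)]
      ring
  · refine D.Surf1_disc (P := D.p 1) (g := fun z => ang (z - (0 : ℝ)) + ang (z - (1 : ℝ)) -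
      ang (z - D.p 0) - ang (z - D.p 2)) (by rw [abs_of_neg (by linarith)]; linarith)
      (by rw [abs_of_neg (by linarith)]; linarith) (fun z hz => ?_) ?_ fun x g1 g2 => ?_
    · simp [bb, an, hz, lr, sg]
      ring
    · exact (((hc _ _ (Or.inl (by linarith))).add (hc _ _ (Or.inl (by linarith)))).sub
        (hc _ _ (Or.inl (by linarith)))).sub (hc _ _ (Or.inl (by linarith)))
    · rw [Surf1_ang_lt (by linarith), Surf1_ang_lt (by linarith), Surf1_ang_lt (by linarith),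
        Surf1_ang_lt (by linarith)]
      ring
  · refine D.Surf1_disc (P := D.p 2) (g := fun z => ang (z - (0 : ℝ)) + ang (z - (1 : ℝ)) +
      ang (z - D.p 1) - ang (z - D.p 0) - Real.pi) (by rw [abs_of_neg (by linarith)]; linarith)
      (by rw [abs_of_neg (by linarith)]; linarith) (fun z hz => ?_) ?_ fun x g1 g2 => ?_
    · simp [bb, an, hz, lr, sg]
      ring
    · exact ((((hc _ _ (Or.inl (by linarith))).add (hc _ _ (Or.inl (by linarith)))).add
        (hc _ _ (Or.inr (by linarith)))).sub (hc _ _ (Or.inl (by linarith)))).sub continuousOn_const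
    · rw [Surf1_ang_lt (by linarith), Surf1_ang_lt (by linarith), Surf1_ang_gt (by linarith),
        Surf1_ang_lt (by linarith)]
      ring

/-- near a cap puncture the phase correction is continuous -/
lemma continuousOn_phase_cap (j : Fin 3) :
    ContinuousOn (fun z => sgn z * D.bb (D.p j) (lr j) (sg j) z) {z | ‖z - D.p j‖ < 1/16 ∧ z ≠ D.p j} ∧
    Filter.Tendsto (fun z => sgn z * D.bb (D.p j) (lr j) (sg j) z) (𝓝[≠] (D.p j : ℂ)) (𝓝 0) := by
  obtain ⟨h1, h2⟩ := D.Surf1_cap j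
  refine ⟨h1.mono fun z hz => hz.1, ?_⟩
  have ho : IsOpen {z : ℂ | ‖z - D.p j‖ < 1/16} := isOpen_lt (by fun_prop) continuous_const
  have := (h1.continuousAt (ho.mem_nhds (x := (D.p j : ℂ)) (by simp))).tendsto
  rw [h2, mul_zero] at this
  exact this.mono_left nhdsWithin_le_nhds
lemma continuousOn_phase_one :
    ContinuousOn (fun z => sgn z * D.bb 1 0 1 z) {z | ‖z - 1‖ < 1/16 ∧ z ≠ 1} := by
  obtain ⟨⟨a1, a2⟩, ⟨b1, b2⟩, c1, c2⟩ := D.adm
  have hc : ∀ a : ℝ, a ≤ 2/3 →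
      ContinuousOn (fun z : ℂ => ang (z - a)) {z | ‖z - (1 : ℝ)‖ < 1/16} := fun a h =>
    Surf1_cont a fun z hz e => by linarith [(Surf1_re hz).1]
  refine (D.Surf1_disc (P := 1) (g := fun z => ang (z - (0 : ℝ)) + ang (z - D.p 1) -
      ang (z - D.p 0) - ang (z - D.p 2)) (by norm_num) (by norm_num) (fun z hz => ?_) ?_
      fun x g1 g2 => ?_).1.mono fun z hz => by simpa using hz.1
  · simp [bb, an, hz]
    ring
  · exact (((hc _ (by linarith)).add (hc _ (by linarith))).sub (hc _ (by linarith))).sub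
      (hc _ (by linarith))
  · rw [Surf1_ang_gt (by linarith), Surf1_ang_gt (by linarith), Surf1_ang_gt (by linarith),
      Surf1_ang_gt (by linarith)]
    ring

/-- the cover lemma -/
lemma cover {P c : ℝ} {l : ℕ} {σ : ℤ} (hc : 0 < c) {J : Set ℝ} {Z : ℂ → E3}
    (hne : ∀ ζ : ℂ, ζ.re ∈ J → ∀ j, (P + c * exp ζ : ℂ) ≠ D.p j)
    (h1 : ∀ ζ : ℂ, ζ.re ∈ J → 0 ≤ ζ.im → ζ.im ≤ Real.pi → Z ζ = D.f (P + c * exp ζ))
    (h2 : ∀ ζ : ℂ, ζ.re ∈ J → Z (ζ + 2 * Real.pi * I) = Rot (rt D.k ^ σ) (Z ζ))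
    (h3 : ∀ ζ : ℂ, ζ.re ∈ J → Z (conj ζ) = Rot (rt D.k ^ l) (Refl (Z ζ)))
    {ζ : ℂ} (hζ : ζ.re ∈ J) :
    (∃ o : ℂ, o ^ D.k = 1 ∧ D.eta P l σ c ζ = o * D.et (P + c * exp ζ)) ∧
      D.F (P + c * exp ζ, D.eta P l σ c ζ) = Z ζ := by
  have hk : D.k ≠ 0 := by have := D.hk; omega
  have hω : rt D.k ^ σ ≠ 0 := zpow_ne_zero _ (Surf1_rt_ne _)
  have hZ : ∀ n : ℤ, ∀ ξ : ℂ, ξ.re ∈ J →
      Z (ξ + n * (2 * Real.pi * I)) = Rot ((rt D.k ^ σ) ^ n) (Z ξ) := by
    intro n ξ hξ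
    induction n using Int.induction_on with
    | zero => simp
    | succ n ih =>
      have := h2 (ξ + ((n : ℤ) : ℂ) * (2 * Real.pi * I)) (by simpa using hξ)
      rw [ih, ← Rot_mul, ← zpow_one_add₀ hω, add_comm (1 : ℤ)] at this
      rw [← this]; congr 1; push_cast; ring
    | pred n ih =>
      have := h2 (ξ + ((-n - 1 : ℤ) : ℂ) * (2 * Real.pi * I)) (by simpa using hξ)
      rw [show ξ + ((-n - 1 : ℤ) : ℂ) * (2 * Real.pi * I) + 2 * Real.pi * I =
        ξ + ((-n : ℤ) : ℂ) * (2 * Real.pi * I) by push_cast; ring, ih] at this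
      rw [zpow_sub_one₀ hω, mul_comm _ (rt D.k ^ σ)⁻¹, Rot_mul, this, ← Rot_mul,
        inv_mul_cancel₀ hω, Rot_one]
  obtain ⟨n, ξ, hξ1, hξ2, rfl⟩ : ∃ (n : ℤ) (ξ : ℂ), -Real.pi < ξ.im ∧ ξ.im ≤ Real.pi ∧
      ζ = ξ + n * (2 * Real.pi * I) := by
    have h := sub_toIocDiv_zsmul_mem_Ioc Real.two_pi_pos (-Real.pi) ζ.im
    rw [zsmul_eq_mul] at h
    generalize toIocDiv Real.two_pi_pos (-Real.pi) ζ.im = n at h
    refine ⟨n, ζ - n * (2 * Real.pi * I), ?_, ?_, by ring⟩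
    · simpa using h.1
    · have := h.2
      simp
      linarith
  have hξ : ξ.re ∈ J := by simpa using hζ
  have he : exp (ξ + n * (2 * Real.pi * I)) = exp ξ := by
    rw [exp_add, exp_int_mul_two_pi_mul_I, mul_one]
  have him : (ξ + n * (2 * Real.pi * I)).im = ξ.im + n * (2 * Real.pi) := by simp
  have hp : ¬ ∃ j, (P + c * exp ξ : ℂ) = D.p j := fun ⟨j, h⟩ => hne ξ hξ j h
  have h0 : D.et (P + c * exp ξ) ≠ 0 := by
    rw [← norm_pos_iff, Surf1_norm_et]; exact D.md_pos (hne ξ hξ)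
  have ha : ang (P + c * exp ξ - P) = |ξ.im| := by
    rw [add_sub_cancel_left, ang_exp hc (abs_le.2 ⟨hξ1.le, hξ2⟩)]
  have hzi : (P + c * exp ξ : ℂ).im = c * Real.exp ξ.re * Real.sin ξ.im := by
    simp [exp_im, mul_assoc]
  have hpos := mul_pos hc (Real.exp_pos ξ.re)
  have hroot : ∀ m : ℤ, (rt D.k ^ m) ^ D.k = 1 := fun m => by
    rw [← zpow_natCast, ← zpow_mul, mul_comm, zpow_mul, zpow_natCast, rt_pow hk, one_zpow]
  rw [hZ n ξ hξ, he, ← zpow_mul]
  rcases le_or_gt 0 ξ.im with hs | hs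
  · have h4 : 0 ≤ (P + c * exp ξ : ℂ).im := by
      rw [hzi]; exact mul_nonneg hpos.le (Real.sin_nonneg_of_nonneg_of_le_pi hs hξ2)
    have h5 : D.eta P l σ c (ξ + n * (2 * Real.pi * I)) =
        rt D.k ^ (σ * n) * D.et (P + c * exp ξ) := by
      rw [eta, he, him, et, bb, ha, sgn, if_pos h4, abs_of_nonneg hs, Surf1_rt_zpow, mul_assoc,
        mul_left_comm (exp _), ← exp_add, ← exp_add]
      congr 2
      push_cast
      ring
    refine ⟨⟨_, hroot _, h5⟩, ?_⟩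
    rw [F, dif_neg hp, if_pos h4, h5, mul_div_cancel_right₀ _ h0, h1 ξ hξ hs hξ2]
  · have h4 : ¬ 0 ≤ (P + c * exp ξ : ℂ).im := by
      rw [hzi, not_le]
      exact mul_neg_of_pos_of_neg hpos (Real.sin_neg_of_neg_of_neg_pi_lt hs hξ1)
    have h5 : D.eta P l σ c (ξ + n * (2 * Real.pi * I)) =
        rt D.k ^ (σ * n + l) * D.et (P + c * exp ξ) := by
      rw [eta, he, him, et, bb, ha, sgn, if_neg h4, abs_of_neg hs, Surf1_rt_zpow, mul_assoc,
        mul_left_comm (exp _), ← exp_add, ← exp_add]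
      congr 2
      push_cast
      ring
    refine ⟨⟨_, hroot _, h5⟩, ?_⟩
    have h6 := h3 (conj ξ) (by simpa using hξ)
    rw [conj_conj, h1 (conj ξ) (by simpa using hξ) (by simpa using hs.le)
      (by simp; linarith)] at h6
    rw [F, dif_neg hp, if_neg h4, h5, mul_div_cancel_right₀ _ h0, h6, ← Rot_mul,
      zpow_add₀ (Surf1_rt_ne _), zpow_natCast]
    simp [exp_conj]

/-- invariance near the seam -/
lemma seam {z η : ℂ} (h1 : z ∈ D.Base) (h2 : (D.q * z : ℂ) ∈ D.Base) :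
    ((z, η) ∈ D.Et ↔ ((D.q * z : ℂ), η) ∈ D.Et) ∧ D.F (D.q * z, η) = D.F (z, η) ∧
      32 ≤ ‖z‖ := by
  obtain ⟨⟨a1, a2⟩, ⟨b1, b2⟩, c1, c2⟩ := D.adm
  have hq := D.q0
  have hs : 0 < √D.q := Real.sqrt_pos.2 hq
  have hs2 : √D.q * √D.q = D.q := Real.mul_self_sqrt hq.le
  have hs3 : √D.q ≤ 1/64 := Real.sqrt_le_iff.2 ⟨by norm_num, by linarith [D.q1]⟩
  have hn : ‖(D.q * z : ℂ)‖ = D.q * ‖z‖ := by rw [norm_mul, norm_real, Real.norm_of_nonneg hq.le]
  have g1 := h2.1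
  have g2 := h1.2.1
  rw [hn] at g1
  have g3 : 1 / (2 * √D.q) < ‖z‖ := by
    rw [div_lt_iff₀ (by positivity)]
    nlinarith
  have g4 : 32 ≤ ‖z‖ := by
    rw [div_lt_iff₀ (by positivity)] at g3
    nlinarith [norm_nonneg z]
  have g5 : ‖(D.q * z : ℂ)‖ ≤ 1/32 := by
    rw [lt_div_iff₀ hs] at g2
    rw [hn]
    nlinarith
  have hp : ∀ j, 1/4 ≤ |D.p j| ∧ |D.p j| ≤ 2 := fun j => by
    fin_cases j <;> simp only [Fin.zero_eta, Fin.mk_one, Fin.reduceFinMk]
    · rw [abs_of_pos (by linarith)]; constructor <;> linarith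
    · rw [abs_of_neg (by linarith)]; constructor <;> linarith
    · rw [abs_of_neg (by linarith)]; constructor <;> linarith
  have hfar : ∀ w : ℂ, ‖w‖ ≤ 1/32 ∨ 32 ≤ ‖w‖ → ∀ j, 1/16 ≤ ‖w - D.p j‖ := fun w hw j => by
    have h3 := abs_le.1 (abs_norm_sub_norm_le w (D.p j))
    rw [norm_real, Real.norm_eq_abs] at h3
    rcases hw with hw | hw <;> linarith [h3.1, h3.2, (hp j).1, (hp j).2]
  have hmd : ∀ w : ℂ, ‖w‖ ≤ 1/32 ∨ 32 ≤ ‖w‖ → D.md w = 1 := fun w hw => by
    rw [md, Finset.prod_eq_one fun j _ => min_eq_left (by linarith [hfar w hw j]), Real.one_rpow]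
  have hnp : ∀ w : ℂ, ‖w‖ ≤ 1/32 ∨ 32 ≤ ‖w‖ → ¬ ∃ j, w = D.p j := fun w hw ⟨j, h⟩ => by
    have := hfar w hw j
    rw [h, sub_self, norm_zero] at this
    linarith
  have him : 0 ≤ (D.q * z : ℂ).im ↔ 0 ≤ z.im := by
    rw [im_ofReal_mul]; exact mul_nonneg_iff_of_pos_left hq
  have hang : ang (D.q * z) = ang z := by
    rw [ang, ang, hn, re_ofReal_mul, mul_div_mul_left _ _ hq.ne']
  have het : D.et (D.q * z) = D.et z := by
    rw [et, et, hmd _ (Or.inl g5), hmd _ (Or.inr g4), an, an, Surf1_chi_zero (Or.inl g5),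
      Surf1_chi_zero (Or.inr g4), hang, zero_mul, zero_mul, sgn, sgn]
    simp only [him]
  refine ⟨by simp only [Et, mem_ofPred_eq, h1, h2, het], ?_, g4⟩
  rw [F, F, dif_neg (hnp _ (Or.inl g5)), dif_neg (hnp _ (Or.inr g4))]
  simp only [him, het]
  split_ifs with h
  · rw [D.per z h g3 g2]
  · rw [map_mul, conj_ofReal, D.per (conj z) (by simpa using (not_le.1 h).le)
      (by rwa [norm_conj]) (by rwa [norm_conj])]

end SurfData

end Pool.Agent.MP_efb2da_gt
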