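import Pool.Agent.MP_efb2da_gt.Surf1

open scoped Manifold ContDiff ComplexConjugate Topology
open Set Complex

noncomputable section

namespace Pool.Agent.MP_efb2da_gt

lemma SurfReg_norm {k : ℕ} (hk : k ≠ 0) {o : ℂ} (ho : o ^ k = 1) : ‖o‖ = 1 := by
  have h : ‖o‖ ^ k = 1 := by rw [← norm_pow, ho, norm_one]
  exact (pow_eq_one_iff_of_nonneg (norm_nonneg o) hk).1 h

namespace SurfData
variable (D : SurfData)

lemma SurfReg_k : D.k ≠ 0 := by have := D.hk; omega

lemma SurfReg_et_ne {z : ℂ} (h : ∀ j, z ≠ D.p j) : D.et z ≠ 0 :=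
  mul_ne_zero (ofReal_ne_zero.2 (D.md_pos h).ne') (exp_ne_zero _)

/-- the open part of the base region -/
def SurfReg_U : Set ℂ :=
  {z | √D.q / 2 < ‖z‖ ∧ ‖z‖ < 2 / √D.q ∧ D.ε < ‖z - 1‖ ∧ ∀ j, z ≠ D.p j}

lemma SurfReg_open : IsOpen D.SurfReg_U := by
  have h1 : IsOpen {z : ℂ | √D.q / 2 < ‖z‖} := isOpen_lt continuous_const continuous_norm
  have h2 : IsOpen {z : ℂ | ‖z‖ < 2 / √D.q} := isOpen_lt continuous_norm continuous_const
  have h3 : IsOpen {z : ℂ | D.ε < ‖z - 1‖} := isOpen_lt continuous_const (by fun_prop)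
  have h4 : IsOpen {z : ℂ | ∀ j, z ≠ D.p j} := by
    have : {z : ℂ | ∀ j, z ≠ D.p j} = ⋂ j, {z : ℂ | z ≠ D.p j} := by ext z; simp
    rw [this]
    exact isOpen_iInter_of_finite fun j => isOpen_ne
  exact h1.inter (h2.inter (h3.inter h4))

lemma SurfReg_base {z : ℂ} (h : z ∈ D.SurfReg_U) : z ∈ D.Base := ⟨h.1, h.2.1, h.2.2.1.le⟩

lemma SurfReg_rg {z : ℂ} (h : z ∈ D.SurfReg_U) : z ∈ Rg D.ε D.q D.p :=
  ⟨h.1, h.2.1, by have := h.2.2.1; have := D.ε0; linarith, h.2.2.2⟩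

lemma SurfReg_conj {z : ℂ} (h : z ∈ D.SurfReg_U) : conj z ∈ D.SurfReg_U := by
  refine ⟨by rw [norm_conj]; exact h.1, by rw [norm_conj]; exact h.2.1, ?_, fun j hj => ?_⟩
  · have : conj z - 1 = conj (z - 1) := by simp
    rw [this, norm_conj]; exact h.2.2.1
  · apply h.2.2.2 j
    have := congrArg conj hj
    simpa using this

lemma SurfReg_an {z : ℂ} (h : z ∈ D.SurfReg_U) : z ≠ 0 ∧ z ≠ 1 ∧ ∀ j, z ≠ D.p j := by
  refine ⟨fun h0 => ?_, fun h0 => ?_, h.2.2.2⟩
  · have h1 := h.1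
    rw [h0, norm_zero] at h1
    have := Real.sqrt_nonneg D.q
    linarith
  · have h1 := h.2.2.1
    rw [h0, sub_self, norm_zero] at h1
    exact absurd D.ε0 (not_lt.2 h1.le)

lemma SurfReg_F_up {z o : ℂ} (h : ∀ j, z ≠ D.p j) (hz : 0 ≤ z.im) :
    D.F (z, o * D.et z) = Rot o (D.f z) := by
  have h1 : ¬ ∃ j, z = D.p j := fun ⟨j, hj⟩ => h j hj
  simp only [F, dif_neg h1, if_pos hz, mul_div_cancel_right₀ _ (D.SurfReg_et_ne h)]

lemma SurfReg_F_down {z o : ℂ} (h : ∀ j, z ≠ D.p j) (hz : ¬ 0 ≤ z.im) :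
    D.F (z, o * D.et z) = Rot o (Refl (D.f (conj z))) := by
  have h1 : ¬ ∃ j, z = D.p j := fun ⟨j, hj⟩ => h j hj
  simp only [F, dif_neg h1, if_neg hz, mul_div_cancel_right₀ _ (D.SurfReg_et_ne h)]

/-- a continuous local branch of the cover gives a chart -/
lemma SurfReg_core (x : D.Et) (hb : x ∉ D.bdE) {V : Set ℂ} (hV : IsOpen V) (h0 : x.1.1 ∈ V)
    (hVU : V ⊆ D.SurfReg_U) {g : ℂ → ℂ} (hg : ContinuousOn g V)
    (hu : ∀ z ∈ V, ∃ u : ℂ, u ^ D.k = 1 ∧ g z = u * D.et z) (hx : g x.1.1 = x.1.2)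
    {X : ℂ → E3} (hX : ∀ w ∈ V, CMCAt X w) (hF : ∀ w ∈ V, D.F (w, g w) = X w) :
    LocChart D.FE D.bdE x := by
  classical
  have hmem : ∀ z ∈ V, (z, g z) ∈ D.Et := fun z hz => ⟨D.SurfReg_base (hVU hz), hu z hz⟩
  let ψ : ℂ → D.Et := fun z => if h : (z, g z) ∈ D.Et then ⟨(z, g z), h⟩ else x
  have hψ : ∀ z ∈ V, (ψ z).1 = (z, g z) := fun z hz => by simp only [ψ, dif_pos (hmem z hz)]
  have hg0 : ∀ z ∈ V, g z ≠ 0 := fun z hz => by
    obtain ⟨u, h1, h2⟩ := hu z hz
    rw [h2]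
    refine mul_ne_zero (fun h3 => ?_) (D.SurfReg_et_ne (hVU hz).2.2.2)
    rw [h3, zero_pow D.SurfReg_k] at h1
    exact zero_ne_one h1
  refine ⟨V, x.1.1, univ, ψ, X, hV, h0, Subtype.ext (by rw [hψ _ h0, hx]), Or.inl ⟨rfl, hb⟩,
    ?_, ?_, ?_, hX, ?_⟩
  · rw [inter_univ, Topology.IsInducing.subtypeVal.continuousOn_iff]
    exact (continuousOn_id.prodMk hg).congr fun z hz => hψ z hz
  · rw [inter_univ]
    intro z hz w hw h
    have := congrArg (fun y : D.Et => y.1.1) h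
    simpa only [hψ z hz, hψ w hw] using this
  · intro V' hV' hsub
    obtain ⟨δ, hδ, hsep⟩ := exists_root_sep D.SurfReg_k
    have hc1 : Continuous fun y : D.Et => y.1.1 := by fun_prop
    have hc2 : Continuous fun y : D.Et => y.1.2 := by fun_prop
    have hcont : ContinuousOn (fun y : D.Et => y.1.2 / g y.1.1) ((fun y : D.Et => y.1.1) ⁻¹' V') :=
      hc2.continuousOn.div (hg.comp hc1.continuousOn fun y hy => hsub hy)
        fun y hy => hg0 _ (hsub hy)
    have hop := hcont.isOpen_inter_preimage (hV'.preimage hc1) (Metric.isOpen_ball (x := 1) (ε := δ))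
    convert hop using 1
    ext y
    simp only [inter_univ, mem_image, mem_inter_iff, mem_preimage, Metric.mem_ball, dist_eq_norm]
    constructor
    · rintro ⟨z, hz, rfl⟩
      rw [hψ z (hsub hz)]
      refine ⟨hz, ?_⟩
      simp only [div_self (hg0 z (hsub hz)), sub_self, norm_zero, hδ]
    · rintro ⟨h1, h2⟩
      refine ⟨y.1.1, h1, Subtype.ext ?_⟩
      rw [hψ _ (hsub h1)]
      obtain ⟨u, hu1, hu2⟩ := hu _ (hsub h1)
      obtain ⟨-, o, ho1, ho2⟩ := y.2
      have he := D.SurfReg_et_ne (hVU (hsub h1)).2.2.2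
      have h3 : (y.1.2 / g y.1.1) ^ D.k = 1 := by
        rw [hu2, ho2, mul_div_mul_right _ _ he, div_pow, ho1, hu1, div_one]
      have h4 := hsep _ h3 h2
      rw [div_eq_one_iff_eq (hg0 _ (hsub h1))] at h4
      exact Prod.ext rfl h4.symm
  · intro w hw
    rw [FE, hψ w hw.1]
    exact hF w hw.1

theorem locChart_reg (x : D.Et) (h1 : ∀ j, x.1.1 ≠ D.p j) (h2 : ‖x.1.1 - 1‖ ≠ D.ε) :
    LocChart D.FE D.bdE x := by
  classical
  obtain ⟨hB, o, ho, hx⟩ := x.2
  have hU : x.1.1 ∈ D.SurfReg_U := ⟨hB.1, hB.2.1, lt_of_le_of_ne hB.2.2 h2.symm, h1⟩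
  have hn := SurfReg_norm D.SurfReg_k ho
  rcases lt_trichotomy 0 x.1.1.im with him | him | him
  · refine D.SurfReg_core x h2 (V := D.SurfReg_U ∩ {z | 0 < z.im})
      (D.SurfReg_open.inter (isOpen_lt continuous_const continuous_im)) ⟨hU, him⟩
      inter_subset_left (g := fun z => o * D.et z)
      (continuousOn_const.mul (D.continuousOn_et_up.mono fun z hz =>
        ⟨D.SurfReg_base hz.1, le_of_lt (a := 0) (b := z.im) hz.2⟩))
      (fun z _ => ⟨o, ho, rfl⟩) hx.symm (X := fun w => Rot o (D.f w))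
      (fun w hw => (D.cmc w (D.SurfReg_rg hw.1) (le_of_lt hw.2)).self_of_nhds.rot hn)
      fun w hw => D.SurfReg_F_up hw.1.2.2.2 (le_of_lt hw.2)
  · obtain ⟨t, ht⟩ : ∃ t : ℝ, x.1.1 = t := ⟨x.1.1.re, Complex.ext rfl (by simp [← him])⟩
    have hreal : ∀ s : ℝ, (s : ℂ) ∈ D.SurfReg_U → D.an s = Real.pi * lab D.p s := by
      intro s hs
      obtain ⟨a1, a2, a3⟩ := D.SurfReg_an hs
      exact D.an_real (by exact_mod_cast a1) (by exact_mod_cast a2) fun j => by
        exact_mod_cast a3 j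
    have hUt : (t : ℂ) ∈ D.SurfReg_U := ht ▸ hU
    have e1 := D.cmc t (D.SurfReg_rg hUt) (by simp)
    have e2 := D.refl t (D.SurfReg_rg hUt)
    have e3 : ∀ᶠ z in 𝓝 (t : ℂ), z ∈ D.SurfReg_U := D.SurfReg_open.mem_nhds hUt
    have e4 : ∀ᶠ z in 𝓝 (t : ℂ), dist (D.an z) (D.an t) < Real.pi := by
      have hc : ContinuousAt D.an t := (D.continuousOn_an.mono fun z hz =>
        D.SurfReg_an hz).continuousAt e3
      exact Metric.tendsto_nhds.1 hc _ Real.pi_pos
    obtain ⟨V, hV, hVo, htV⟩ := mem_nhds_iff.1 (e1.and (e2.and (e3.and e4)))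
    set l := lab D.p t with hl
    have hlab : ∀ s : ℝ, (s : ℂ) ∈ V → D.an s = Real.pi * l := by
      intro s hs
      obtain ⟨-, -, b3, b4⟩ := hV hs
      rw [hreal s b3, hreal t hUt, Real.dist_eq, ← mul_sub, abs_mul, abs_of_pos Real.pi_pos] at b4
      have b5 : |(lab D.p s : ℝ) - l| < 1 := by
        by_contra hc
        have := mul_le_mul_of_nonneg_left (not_lt.1 hc) Real.pi_pos.le
        linarith
      have b6 : |(lab D.p s : ℤ) - l| < 1 := by exact_mod_cast b5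
      have b7 : lab D.p s = l := by
        rw [abs_lt] at b6; omega
      rw [hreal s b3, b7]
    have hVU : V ⊆ D.SurfReg_U := fun z hz => (hV hz).2.2.1
    have hcont : ContinuousOn (fun z : ℂ => if 0 ≤ z.im then D.et z
        else rt D.k ^ l * conj (D.et (conj z))) V := by
      refine ContinuousOn.if (fun z hz => ?_) ?_ ?_
      · rw [frontier_setOfPred_le_im] at hz
        obtain ⟨s, rfl⟩ : ∃ s : ℝ, z = s := ⟨z.re, Complex.ext rfl (by simpa using hz.2)⟩
        have hs : sgn s = 1 := by simp [sgn]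
        rw [conj_ofReal, et, hs, hlab s hz.1, map_mul, conj_ofReal, ← exp_conj, rt,
          ← exp_nat_mul, mul_left_comm (exp _), ← exp_add]
        congr 2
        simp only [map_mul, conj_I, conj_ofReal]
        push_cast
        ring
      · rw [(isClosed_le continuous_const continuous_im).closure_eq]
        exact D.continuousOn_et_up.mono fun z hz => ⟨D.SurfReg_base (hVU hz.1), hz.2⟩
      · simp only [not_le]
        rw [closure_setOfPred_im_lt]
        exact continuousOn_const.mul (D.continuousOn_et_down.mono fun z hz =>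
          ⟨D.SurfReg_base (hVU hz.1), hz.2⟩)
    refine D.SurfReg_core x h2 hVo (ht ▸ htV) hVU
      (g := fun z => o * if 0 ≤ z.im then D.et z else rt D.k ^ l * conj (D.et (conj z)))
      (continuousOn_const.mul hcont) (fun z _ => ?_) ?_ (X := fun w => Rot o (D.f w))
      (fun w hw => (hV hw).1.rot hn) fun w hw => ?_
    · by_cases hz : 0 ≤ z.im
      · exact ⟨o, ho, by simp only [if_pos hz]⟩
      · refine ⟨o * rt D.k ^ l, ?_, ?_⟩
        · rw [mul_pow, ho, ← pow_mul, mul_comm l, pow_mul, rt_pow D.SurfReg_k, one_pow, one_mul]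
        · simp only [if_neg hz]
          rw [← D.et_down (not_le.1 hz), mul_assoc]
    · simp only [if_pos him.le]
      exact hx.symm
    · by_cases hz : 0 ≤ w.im
      · simp only [if_pos hz]
        exact D.SurfReg_F_up (hVU hw).2.2.2 hz
      · simp only [if_neg hz]
        rw [← D.et_down (not_le.1 hz), ← mul_assoc, D.SurfReg_F_down (hVU hw).2.2.2 hz, Rot_mul,
          ← (hV hw).2.1]
  · refine D.SurfReg_core x h2 (V := D.SurfReg_U ∩ {z | z.im < 0})
      (D.SurfReg_open.inter (isOpen_lt continuous_im continuous_const)) ⟨hU, him⟩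
      inter_subset_left (g := fun z => o * D.et z)
      (continuousOn_const.mul ((D.continuousOn_et_down.mono fun z hz =>
        ⟨D.SurfReg_base hz.1, le_of_lt (a := z.im) (b := 0) hz.2⟩).congr fun z hz => D.et_down hz.2))
      (fun z _ => ⟨o, ho, rfl⟩) hx.symm (X := fun w => Rot o (Refl (D.f (conj w))))
      (fun w hw => (CMCAt.refl_conj (D.cmc _ (D.SurfReg_rg (D.SurfReg_conj hw.1)) (by
        have : w.im < 0 := hw.2
        rw [conj_im]; linarith)).self_of_nhds).rot hn)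
      fun w hw => D.SurfReg_F_down hw.1.2.2.2 (not_le.2 hw.2)

end SurfData

end Pool.Agent.MP_efb2da_gt
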