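import Mathlib

/-! The weighted Wiener algebra of Laurent series `∑ xₙ λⁿ` with `∑ |xₙ| 2^|n| < ∞`. -/

open Set
open scoped Topology ComplexConjugate

noncomputable section

namespace Pool.Agent.MP_efb2da_gt

def wt (n : ℤ) : ℝ := 2 ^ n.natAbs

lemma wt_pos (n : ℤ) : 0 < wt n := by unfold wt; positivity
lemma one_le_wt (n : ℤ) : 1 ≤ wt n := one_le_pow₀ (by norm_num)
lemma wt_zero : wt 0 = 1 := by simp [wt]
lemma wt_neg (n : ℤ) : wt (-n) = wt n := by simp [wt]
lemma wt_add_le (n m : ℤ) : wt (n + m) ≤ wt n * wt m := by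
  unfold wt; rw [← pow_add]; exact pow_le_pow_right₀ (by norm_num) (Int.natAbs_add_le n m)

def W : Type := lp (fun _ : ℤ => ℂ) 1

namespace W

instance : NormedAddCommGroup W := inferInstanceAs (NormedAddCommGroup (lp (fun _ : ℤ => ℂ) 1))
instance : NormedSpace ℂ W := inferInstanceAs (NormedSpace ℂ (lp (fun _ : ℤ => ℂ) 1))
instance : CompleteSpace W := inferInstanceAs (CompleteSpace (lp (fun _ : ℤ => ℂ) 1))

def raw (x : W) : lp (fun _ : ℤ => ℂ) 1 := x

/-- the monomial `λⁿ` -/
def mon (n : ℤ) : W := (lp.single 1 n (wt n : ℂ) : lp (fun _ : ℤ => ℂ) 1)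

/-- the coefficient of `λⁿ` -/
def coef (n : ℤ) : W →L[ℂ] ℂ :=
  ((wt n : ℂ)⁻¹) • (lp.evalCLM ℂ (fun _ : ℤ => ℂ) 1 n : lp (fun _ : ℤ => ℂ) 1 →L[ℂ] ℂ)

lemma coef_def (n : ℤ) (x : W) : coef n x = (wt n : ℂ)⁻¹ * (raw x : ℤ → ℂ) n := rfl

lemma raw_eq (n : ℤ) (x : W) : (raw x : ℤ → ℂ) n = wt n * coef n x := by
  have : (wt n : ℂ) ≠ 0 := by exact_mod_cast (wt_pos n).ne'
  rw [coef_def]; field_simp

lemma norm_mon (n : ℤ) : ‖mon n‖ = wt n := by
  have := lp.norm_single (E := fun _ : ℤ => ℂ) (p := 1) (by norm_num) n (wt n : ℂ)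
  change ‖(lp.single 1 n (wt n : ℂ) : lp (fun _ : ℤ => ℂ) 1)‖ = _
  rw [this]; simp [abs_of_pos (wt_pos n)]

lemma coef_mon (n m : ℤ) : coef n (mon m) = if n = m then 1 else 0 := by
  have : (wt n : ℂ) ≠ 0 := by exact_mod_cast (wt_pos n).ne'
  rw [coef_def]
  change (wt n : ℂ)⁻¹ * (lp.single 1 m (wt m : ℂ) : lp (fun _ : ℤ => ℂ) 1) n = _
  split_ifs with h
  · subst h; rw [lp.single_apply_self]; field_simp
  · rw [lp.single_apply_ne _ _ _ h]; simp

lemma hasSum_norm (x : W) : HasSum (fun n => ‖coef n x‖ * wt n) ‖x‖ := by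
  have := lp.hasSum_norm (E := fun _ : ℤ => ℂ) (p := 1) (by norm_num) (raw x)
  simp only [ENNReal.toReal_one, Real.rpow_one] at this
  have e : (fun n => ‖coef n x‖ * wt n) = fun n => ‖(raw x : ℤ → ℂ) n‖ := by
    funext n
    rw [raw_eq, norm_mul, mul_comm]; simp [abs_of_pos (wt_pos n)]
  rw [e]; exact this

lemma norm_coef_le (n : ℤ) (x : W) : ‖coef n x‖ * wt n ≤ ‖x‖ :=
  le_hasSum (hasSum_norm x) n fun m _ => mul_nonneg (norm_nonneg _) (wt_pos m).le

lemma norm_coef_le' (n : ℤ) (x : W) : ‖coef n x‖ ≤ ‖x‖ :=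
  le_trans (le_mul_of_one_le_right (norm_nonneg _) (one_le_wt n)) (norm_coef_le n x)

lemma hasSum_mon (x : W) : HasSum (fun n => coef n x • mon n) x := by
  have := lp.hasSum_single (E := fun _ : ℤ => ℂ) (p := 1) (by norm_num) (raw x)
  have e : (fun n => coef n x • mon n) =
      fun n => (lp.single 1 n ((raw x : ℤ → ℂ) n) : lp (fun _ : ℤ => ℂ) 1) := by
    funext n
    change coef n x • (lp.single 1 n (wt n : ℂ) : lp (fun _ : ℤ => ℂ) 1) = _
    rw [← lp.single_smul, raw_eq, smul_eq_mul, mul_comm]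
  rw [e]; exact this

/-- induction principle: closed additive properties are checked on monomials -/
lemma ind {p : W → Prop} (hcl : IsClosed {x | p x}) (h0 : p 0)
    (hadd : ∀ x y, p x → p y → p (x + y)) (hmon : ∀ (n : ℤ) (c : ℂ), p (c • mon n)) (x : W) :
    p x := by
  refine hcl.mem_of_tendsto (hasSum_mon x) (Filter.Eventually.of_forall fun s => ?_)
  exact Finset.sum_induction _ p hadd h0 fun n _ => hmon n _

lemma ext_coef {x y : W} (h : ∀ n, coef n x = coef n y) : x = y := by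
  refine (hasSum_mon x).unique ?_
  simp only [h]; exact hasSum_mon y

section lift
variable {E : Type} [NormedAddCommGroup E] [NormedSpace ℂ E] [CompleteSpace E]

lemma clm_ext {E : Type} [NormedAddCommGroup E] [NormedSpace ℂ E] {f g : W →L[ℂ] E}
    (h : ∀ n, f (mon n) = g (mon n)) : f = g := by
  ext x
  refine ind (p := fun x => f x = g x) (isClosed_eq f.continuous g.continuous) (by simp)
    (fun x y hx hy => by simp [hx, hy]) (fun n c => by simp [h]) x

omit [NormedSpace ℂ E] [CompleteSpace E] in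
lemma lift_bound [NormedSpace ℂ E] {v : ℤ → E} {C : ℝ} (h : ∀ n, ‖v n‖ ≤ C * wt n) (x : W) (n : ℤ) :
    ‖coef n x • v n‖ ≤ C * (‖coef n x‖ * wt n) := by
  rw [norm_smul]
  calc ‖coef n x‖ * ‖v n‖ ≤ ‖coef n x‖ * (C * wt n) := by gcongr; exact h n
    _ = _ := by ring

lemma lift_summable {v : ℤ → E} {C : ℝ} (h : ∀ n, ‖v n‖ ≤ C * wt n) (x : W) :
    Summable fun n => coef n x • v n :=
  Summable.of_norm_bounded ((hasSum_norm x).summable.mul_left C) (lift_bound h x)

/-- the continuous linear map with prescribed values on the monomials -/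
def lift (v : ℤ → E) (C : ℝ) (h : ∀ n, ‖v n‖ ≤ C * wt n) : W →L[ℂ] E :=
  LinearMap.mkContinuous
    { toFun := fun x => ∑' n, coef n x • v n
      map_add' := fun x y => by
        simp only [map_add, add_smul]
        exact (lift_summable h x).tsum_add (lift_summable h y)
      map_smul' := fun c x => by
        simp only [map_smul, smul_eq_mul, mul_smul, RingHom.id_apply]
        exact (lift_summable h x).tsum_const_smul c } C
    fun x => tsum_of_norm_bounded ((hasSum_norm x).mul_left C) (lift_bound h x)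

lemma lift_apply (v : ℤ → E) (C : ℝ) (h : ∀ n, ‖v n‖ ≤ C * wt n) (x : W) :
    lift v C h x = ∑' n, coef n x • v n := rfl

@[simp] lemma lift_mon (v : ℤ → E) (C : ℝ) (h : ∀ n, ‖v n‖ ≤ C * wt n) (m : ℤ) :
    lift v C h (mon m) = v m := by
  rw [lift_apply, tsum_eq_single m]
  · simp [coef_mon]
  · intro n hn; simp [coef_mon, hn]

lemma norm_lift_apply_le (v : ℤ → E) (C : ℝ) (h : ∀ n, ‖v n‖ ≤ C * wt n) (x : W) :
    ‖lift v C h x‖ ≤ C * ‖x‖ :=
  tsum_of_norm_bounded ((hasSum_norm x).mul_left C) (lift_bound h x)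

lemma norm_lift_le (v : ℤ → E) {C : ℝ} (hC : 0 ≤ C) (h : ∀ n, ‖v n‖ ≤ C * wt n) :
    ‖lift v C h‖ ≤ C :=
  ContinuousLinearMap.opNorm_le_bound _ hC (norm_lift_apply_le v C h)

/-- a continuous linear map is bounded by its values on monomials -/
lemma norm_clm_le (f : W →L[ℂ] E) {C : ℝ} (h : ∀ n, ‖f (mon n)‖ ≤ C * wt n) (x : W) :
    ‖f x‖ ≤ C * ‖x‖ := by
  have : f = lift (fun n => f (mon n)) C h := clm_ext fun n => by simp
  rw [this]; exact norm_lift_apply_le _ _ _ _

end lift

def shift (n : ℤ) : W →L[ℂ] W :=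
  lift (fun m => mon (n + m)) (wt n) fun m => by rw [norm_mon]; exact wt_add_le n m

def mulL : W →L[ℂ] W →L[ℂ] W :=
  lift shift 1 fun n => by rw [one_mul]; exact norm_lift_le _ (wt_pos n).le _

lemma mulL_mon (n m : ℤ) : mulL (mon n) (mon m) = mon (n + m) := by simp [mulL, shift]

lemma mulL_comm (x y : W) : mulL x y = mulL y x := by
  have : mulL = mulL.flip := clm_ext fun n => clm_ext fun m => by
    simp [mulL_mon, add_comm]
  conv_lhs => rw [this]
  rfl

lemma mulL_one (x : W) : mulL (mon 0) x = x := by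
  have : mulL (mon 0) = ContinuousLinearMap.id ℂ W := clm_ext fun m => by simp [mulL_mon]
  rw [this]; rfl

lemma mulL_assoc (x y z : W) : mulL (mulL x y) z = mulL x (mulL y z) := by
  have h1 : ∀ n m k, mulL (mulL (mon n) (mon m)) (mon k) = mulL (mon n) (mulL (mon m) (mon k)) :=
    fun n m k => by simp [mulL_mon, add_assoc]
  have h2 : ∀ n m z, mulL (mulL (mon n) (mon m)) z = mulL (mon n) (mulL (mon m) z) := by
    intro n m z
    have : mulL (mulL (mon n) (mon m)) = (mulL (mon n)).comp (mulL (mon m)) := clm_ext (h1 n m)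
    rw [this]; rfl
  have h3 : ∀ n y z, mulL (mulL (mon n) y) z = mulL (mon n) (mulL y z) := by
    intro n y z
    have : (mulL.flip z).comp (mulL (mon n)) = (mulL (mon n)).comp (mulL.flip z) :=
      clm_ext fun m => h2 n m z
    exact congrArg (fun f : W →L[ℂ] W => f y) this
  have : (mulL.flip z).comp (mulL.flip y) = mulL.flip (mulL y z) := clm_ext fun n => h3 n y z
  exact congrArg (fun f : W →L[ℂ] W => f x) this

lemma norm_mulL_le (x y : W) : ‖mulL x y‖ ≤ ‖x‖ * ‖y‖ := by
  refine (ContinuousLinearMap.le_opNorm _ _).trans ?_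
  gcongr
  exact (norm_lift_apply_le shift 1 _ x).trans (one_mul _).le

instance : NormedCommRing W :=
  { (inferInstance : NormedAddCommGroup W) with
    mul := fun x y => mulL x y
    one := mon 0
    mul_assoc := mulL_assoc
    one_mul := mulL_one
    mul_one := fun x => (mulL_comm _ _).trans (mulL_one x)
    left_distrib := fun x y z => map_add (mulL x) y z
    right_distrib := fun x y z => by
      change mulL (x + y) z = mulL x z + mulL y z
      simp
    zero_mul := fun x => by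
      change mulL 0 x = 0
      simp
    mul_zero := fun x => map_zero (mulL x)
    mul_comm := mulL_comm
    norm_mul_le := norm_mulL_le }

lemma mul_def (x y : W) : x * y = mulL x y := rfl
lemma mon_zero : mon 0 = 1 := rfl
lemma mon_mul_mon (n m : ℤ) : mon n * mon m = mon (n + m) := mulL_mon n m

instance : Algebra ℂ W := Algebra.ofModule
  (fun c x y => by simp [mul_def]) (fun c x y => by simp [mul_def])

instance : NormedAlgebra ℂ W := ⟨fun c x => (norm_smul c x).le⟩

instance : NormOneClass W := ⟨by rw [← mon_zero, norm_mon, wt_zero]⟩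

/-- bilinear identities are checked on monomials -/
lemma bil_ext {E : Type} [NormedAddCommGroup E] [NormedSpace ℂ E] {f g : W →L[ℂ] W →L[ℂ] E}
    (h : ∀ n m, f (mon n) (mon m) = g (mon n) (mon m)) (x y : W) : f x y = g x y := by
  rw [show f = g from clm_ext fun n => clm_ext (h n)]

/-- `λ ↦ 1/λ` -/
def rev : W →L[ℂ] W := lift (fun n => mon (-n)) 1 fun n => by rw [norm_mon, wt_neg, one_mul]

open Classical in
/-- projection on the coefficients in `S` -/
def proj (S : Set ℤ) : W →L[ℂ] W :=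
  lift (fun n => if n ∈ S then mon n else 0) 1 fun n => by
    split_ifs
    · rw [norm_mon, one_mul]
    · simpa using (wt_pos n).le

/-- conjugation of the coefficients -/
def cjFun (x : W) : W := (star (raw x) : lp (fun _ : ℤ => ℂ) 1)

def cj : W →L[ℝ] W :=
  LinearMap.mkContinuous
    { toFun := cjFun
      map_add' := fun x y => star_add (raw x) (raw y)
      map_smul' := fun c x => by
        change star ((c : ℂ) • raw x) = (c : ℂ) • star (raw x)
        rw [star_smul]; simp } 1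
    fun x => by
      change ‖star (raw x)‖ ≤ 1 * ‖raw x‖
      rw [norm_star, one_mul]

lemma abs_le_wt (n : ℤ) : ‖(n : ℂ)‖ ≤ 1 * wt n := by
  rw [one_mul, wt, Complex.norm_intCast, ← Int.cast_abs, ← Int.natCast_natAbs, Int.cast_natCast]
  exact_mod_cast (Nat.lt_two_pow_self).le

lemma sq_le_wt (n : ℤ) : ‖(n : ℂ) ^ 2‖ ≤ 2 * wt n := by
  rw [norm_pow, wt, Complex.norm_intCast, ← Int.cast_abs, ← Int.natCast_natAbs, Int.cast_natCast]
  have : ∀ m : ℕ, m ^ 2 ≤ 2 * 2 ^ m := by
    intro m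
    induction m with
    | zero => simp
    | succ m ih =>
      rcases Nat.lt_or_ge m 3 with h | h
      · interval_cases m <;> norm_num
      · rw [pow_succ 2 m]; nlinarith
  exact_mod_cast this n.natAbs

/-- value at `λ = 1` -/
def j0 : W →L[ℂ] ℂ := lift (fun _ => 1) 1 fun n => by simpa using one_le_wt n
/-- first Euler derivative `λ∂` at `λ = 1` -/
def j1 : W →L[ℂ] ℂ := lift (fun n => (n : ℂ)) 1 abs_le_wt
/-- second Euler derivative at `λ = 1` -/
def j2 : W →L[ℂ] ℂ := lift (fun n => (n : ℂ) ^ 2) 2 sq_le_wt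
/-- value at `λ = e^{iθ}` -/
def ev (θ : ℝ) : W →L[ℂ] ℂ :=
  lift (fun n => Complex.exp (n * θ * Complex.I)) 1 fun n => by
    have : (n : ℂ) * θ * Complex.I = ((n * θ : ℝ) : ℂ) * Complex.I := by push_cast; ring
    rw [this, Complex.norm_exp_ofReal_mul_I, one_mul]; exact one_le_wt n

/-- no powers below `a` -/
def GE (a : ℤ) (x : W) : Prop := ∀ n, n < a → coef n x = 0
/-- no powers above `a` -/
def LE (a : ℤ) (x : W) : Prop := ∀ n, a < n → coef n x = 0

end W

end Pool.Agent.MP_efb2da_gt
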