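import Pool.Agent.MP_efb2da_gt.W

open Set
open scoped Topology ComplexConjugate

noncomputable section

namespace Pool.Agent.MP_efb2da_gt

namespace W

lemma algebraMap_eq (c : ℂ) : algebraMap ℂ W c = c • mon 0 := by
  rw [Algebra.algebraMap_eq_smul_one, mon_zero]
lemma coef_one (n : ℤ) : coef n 1 = if n = 0 then 1 else 0 := by
  rw [← mon_zero, coef_mon]
lemma coef_algebraMap (n : ℤ) (c : ℂ) : coef n (algebraMap ℂ W c) = if n = 0 then c else 0 := by
  rw [algebraMap_eq, map_smul, coef_mon]; split_ifs <;> simp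
lemma coef_mon_mul (n m : ℤ) (x : W) : coef n (mon m * x) = coef (n - m) x := by
  have : (coef n).comp (mulL (mon m)) = coef (n - m) := clm_ext fun k => by
    simp only [ContinuousLinearMap.comp_apply, mulL_mon, coef_mon]
    by_cases h : n = m + k
    · rw [if_pos h, if_pos (by omega)]
    · rw [if_neg h, if_neg (by omega)]
  exact congrArg (fun f : W →L[ℂ] ℂ => f x) this
lemma coef_mul_mon (n m : ℤ) (x : W) : coef n (x * mon m) = coef (n - m) x := by
  rw [mul_comm, coef_mon_mul]

/-- the coefficients of a product -/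
lemma WApi_hasSum_coef_mul (n : ℤ) (x y : W) :
    HasSum (fun k => coef k x * coef (n - k) y) (coef n (x * y)) := by
  have h := ((coef n).comp (mulL.flip y)).hasSum (hasSum_mon x)
  have e : (fun k => ((coef n).comp (mulL.flip y)) (coef k x • mon k))
      = fun k => coef k x * coef (n - k) y := by
    funext k
    rw [map_smul, smul_eq_mul, ← coef_mon_mul]
    rfl
  rw [e] at h
  exact h

@[simp] lemma rev_mon (n : ℤ) : rev (mon n) = mon (-n) := by simp [rev]
@[simp] lemma rev_one : rev 1 = 1 := by rw [← mon_zero, rev_mon, neg_zero]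
@[simp] lemma coef_rev (n : ℤ) (x : W) : coef n (rev x) = coef (-n) x := by
  have : (coef n).comp rev = coef (-n) := clm_ext fun k => by
    simp only [ContinuousLinearMap.comp_apply, rev_mon, coef_mon]
    by_cases h : n = -k
    · rw [if_pos h, if_pos (by omega)]
    · rw [if_neg h, if_neg (by omega)]
  exact congrArg (fun f : W →L[ℂ] ℂ => f x) this
@[simp] lemma rev_mul (x y : W) : rev (x * y) = rev x * rev y := by
  refine ext_coef fun n => ?_
  rw [coef_rev]
  have h1 := WApi_hasSum_coef_mul (-n) x y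
  have h2 := WApi_hasSum_coef_mul n (rev x) (rev y)
  have h3 := (Equiv.neg ℤ).hasSum_iff.mpr h1
  refine h3.unique ?_
  convert h2 using 2 with k
  simp only [Function.comp_apply, Equiv.neg_apply, coef_rev]
  rw [show -n - -k = -(n - k) by ring]
@[simp] lemma rev_rev (x : W) : rev (rev x) = x := ext_coef fun n => by simp
@[simp] lemma rev_algebraMap (c : ℂ) : rev (algebraMap ℂ W c) = algebraMap ℂ W c := by
  rw [algebraMap_eq, map_smul, rev_mon, neg_zero]
lemma WApi_norm_rev_le (x : W) : ‖rev x‖ ≤ ‖x‖ := by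
  have := norm_clm_le rev (C := 1) (fun n => by rw [rev_mon, norm_mon, wt_neg, one_mul]) x
  rwa [one_mul] at this
@[simp] lemma norm_rev (x : W) : ‖rev x‖ = ‖x‖ :=
  le_antisymm (WApi_norm_rev_le x) (by simpa using WApi_norm_rev_le (rev x))

@[simp] lemma coef_cj (n : ℤ) (x : W) : coef n (cj x) = conj (coef n x) := by
  rw [coef_def, coef_def]
  change (wt n : ℂ)⁻¹ * (star (raw x) : lp (fun _ : ℤ => ℂ) 1) n = _
  rw [lp.star_apply]
  simp
@[simp] lemma cj_mon (n : ℤ) : cj (mon n) = mon n := ext_coef fun k => by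
  rw [coef_cj, coef_mon]; split_ifs <;> simp
@[simp] lemma cj_one : cj 1 = 1 := by rw [← mon_zero, cj_mon]
@[simp] lemma cj_smul (c : ℂ) (x : W) : cj (c • x) = conj c • cj x := ext_coef fun k => by
  simp
@[simp] lemma cj_mul (x y : W) : cj (x * y) = cj x * cj y := by
  refine ext_coef fun n => ?_
  rw [coef_cj]
  have h1 := Complex.conjCLE.toContinuousLinearMap.hasSum (WApi_hasSum_coef_mul n x y)
  have h2 := WApi_hasSum_coef_mul n (cj x) (cj y)
  refine HasSum.unique h1 ?_
  convert h2 using 2 with k
  simp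
@[simp] lemma cj_cj (x : W) : cj (cj x) = x := ext_coef fun k => by simp
@[simp] lemma cj_algebraMap (c : ℂ) : cj (algebraMap ℂ W c) = algebraMap ℂ W (conj c) := by
  rw [algebraMap_eq, algebraMap_eq, cj_smul, cj_mon]
@[simp] lemma norm_cj (x : W) : ‖cj x‖ = ‖x‖ := by
  refine (hasSum_norm (cj x)).unique ?_
  simpa using hasSum_norm x
lemma cj_rev (x : W) : cj (rev x) = rev (cj x) := ext_coef fun k => by simp

open Classical in
lemma WApi_proj_mon (S : Set ℤ) (n : ℤ) : proj S (mon n) = if n ∈ S then mon n else 0 := by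
  simp [proj]

open Classical in
lemma coef_proj (S : Set ℤ) (n : ℤ) (x : W) :
    coef n (proj S x) = if n ∈ S then coef n x else 0 := by
  have : (coef n).comp (proj S) = if n ∈ S then coef n else 0 := clm_ext fun k => by
    rw [ContinuousLinearMap.comp_apply, WApi_proj_mon]
    by_cases hk : k ∈ S <;> by_cases hn : n ∈ S <;> simp [hk, hn, coef_mon]
    · rintro rfl; exact hn hk
    · rintro rfl; exact hk hn
  have h := congrArg (fun f : W →L[ℂ] ℂ => f x) this
  simp only [ContinuousLinearMap.comp_apply] at h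
  rw [h]; split_ifs <;> simp
lemma norm_proj_le (S : Set ℤ) (x : W) : ‖proj S x‖ ≤ ‖x‖ := by
  have := norm_clm_le (proj S) (C := 1) (fun n => by
    rw [WApi_proj_mon]
    split_ifs
    · rw [norm_mon, one_mul]
    · simpa using (wt_pos n).le) x
  rwa [one_mul] at this

lemma isClosed_GE (a : ℤ) : IsClosed {x | GE a x} := by
  have : {x | GE a x} = ⋂ n, ⋂ (_ : n < a), {x | coef n x = 0} := by
    ext x; simp [GE]
  rw [this]
  exact isClosed_iInter fun n => isClosed_iInter fun _ =>
    isClosed_eq (coef n).continuous continuous_const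
lemma GE.zero (a : ℤ) : GE a 0 := fun _ _ => map_zero _
lemma GE.add {a : ℤ} {x y : W} (hx : GE a x) (hy : GE a y) : GE a (x + y) := fun n hn => by
  rw [map_add, hx n hn, hy n hn, add_zero]
lemma GE.neg {a : ℤ} {x : W} (hx : GE a x) : GE a (-x) := fun n hn => by
  rw [map_neg, hx n hn, neg_zero]
lemma GE.sub {a : ℤ} {x y : W} (hx : GE a x) (hy : GE a y) : GE a (x - y) := fun n hn => by
  rw [map_sub, hx n hn, hy n hn, sub_zero]
lemma GE.smul {a : ℤ} {x : W} (c : ℂ) (hx : GE a x) : GE a (c • x) := fun n hn => by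
  rw [map_smul, hx n hn, smul_zero]
lemma GE.mono {a b : ℤ} {x : W} (hx : GE a x) (h : b ≤ a) : GE b x := fun n hn =>
  hx n (lt_of_lt_of_le hn h)
lemma GE.mul {a b : ℤ} {x y : W} (hx : GE a x) (hy : GE b y) : GE (a + b) (x * y) := by
  intro n hn
  refine (WApi_hasSum_coef_mul n x y).unique ?_
  have : (fun k => coef k x * coef (n - k) y) = fun _ => 0 := by
    funext k
    by_cases hk : k < a
    · rw [hx k hk, zero_mul]
    · rw [hy (n - k) (by omega), mul_zero]
  rw [this]; exact hasSum_zero
lemma GE.coef_mul {a b : ℤ} {x y : W} (hx : GE a x) (hy : GE b y) :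
    coef (a + b) (x * y) = coef a x * coef b y := by
  refine (WApi_hasSum_coef_mul (a + b) x y).unique ?_
  have h := hasSum_single (f := fun k => coef k x * coef (a + b - k) y) a (fun k hk => by
    by_cases hk' : k < a
    · rw [hx k hk', zero_mul]
    · rw [hy (a + b - k) (by omega), mul_zero])
  simpa using h
lemma GE.coef_mul_succ {a b : ℤ} {x y : W} (hx : GE a x) (hy : GE b y) :
    coef (a + b + 1) (x * y) = coef a x * coef (b + 1) y + coef (a + 1) x * coef b y := by
  refine (WApi_hasSum_coef_mul (a + b + 1) x y).unique ?_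
  have h := hasSum_sum_of_ne_finset_zero (f := fun k => coef k x * coef (a + b + 1 - k) y)
    (s := {a, a + 1}) (L := SummationFilter.unconditional ℤ) (fun k hk => by
    simp only [Finset.mem_insert, Finset.mem_singleton, not_or] at hk
    by_cases hk' : k < a
    · rw [hx k hk', zero_mul]
    · rw [hy (a + b + 1 - k) (by omega), mul_zero])
  rw [Finset.sum_pair (by omega), show a + b + 1 - a = b + 1 by ring,
    show a + b + 1 - (a + 1) = b by ring] at h
  exact h
lemma GE_mon (a : ℤ) : GE a (mon a) := fun n hn => by rw [coef_mon, if_neg hn.ne]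
lemma GE_algebraMap (c : ℂ) : GE 0 (algebraMap ℂ W c) := fun n hn => by
  rw [coef_algebraMap, if_neg hn.ne]
lemma GE_one : GE 0 1 := GE_mon 0
lemma GE.cj {a : ℤ} {x : W} (hx : GE a x) : GE a (cj x) := fun n hn => by
  rw [coef_cj, hx n hn, map_zero]
lemma GE_rev {a : ℤ} {x : W} : GE a (rev x) ↔ LE (-a) x := by
  constructor
  · intro h n hn
    have := h (-n) (by omega)
    rwa [coef_rev, neg_neg] at this
  · intro h n hn
    rw [coef_rev]; exact h (-n) (by omega)
lemma LE_rev {a : ℤ} {x : W} : LE a (rev x) ↔ GE (-a) x := by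
  constructor
  · intro h n hn
    have := h (-n) (by omega)
    rwa [coef_rev, neg_neg] at this
  · intro h n hn
    rw [coef_rev]; exact h (-n) (by omega)
lemma LE.add {a : ℤ} {x y : W} (hx : LE a x) (hy : LE a y) : LE a (x + y) := fun n hn => by
  rw [map_add, hx n hn, hy n hn, add_zero]
lemma LE.neg {a : ℤ} {x : W} (hx : LE a x) : LE a (-x) := fun n hn => by
  rw [map_neg, hx n hn, neg_zero]
lemma LE.cj {a : ℤ} {x : W} (hx : LE a x) : LE a (cj x) := fun n hn => by
  rw [coef_cj, hx n hn, map_zero]
lemma LE.mul {a b : ℤ} {x y : W} (hx : LE a x) (hy : LE b y) : LE (a + b) (x * y) := by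
  intro n hn
  refine (WApi_hasSum_coef_mul n x y).unique ?_
  have : (fun k => coef k x * coef (n - k) y) = fun _ => 0 := by
    funext k
    by_cases hk : a < k
    · rw [hx k hk, zero_mul]
    · rw [hy (n - k) (by omega), mul_zero]
  rw [this]; exact hasSum_zero
lemma LE.coef_mul {a b : ℤ} {x y : W} (hx : LE a x) (hy : LE b y) :
    coef (a + b) (x * y) = coef a x * coef b y := by
  refine (WApi_hasSum_coef_mul (a + b) x y).unique ?_
  have h := hasSum_single (f := fun k => coef k x * coef (a + b - k) y) a (fun k hk => by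
    by_cases hk' : a < k
    · rw [hx k hk', zero_mul]
    · rw [hy (a + b - k) (by omega), mul_zero])
  simpa using h
lemma eq_const {x : W} (h1 : GE 0 x) (h2 : LE 0 x) : x = algebraMap ℂ W (coef 0 x) := by
  refine ext_coef fun n => ?_
  rw [coef_algebraMap]
  split_ifs with h
  · rw [h]
  · rcases lt_or_gt_of_ne h with h | h
    · exact h1 n h
    · exact h2 n h
lemma eq_two {a : ℤ} {x : W} (h1 : GE a x) (h2 : LE (a + 1) x) :
    x = coef a x • mon a + coef (a + 1) x • mon (a + 1) := by
  refine ext_coef fun n => ?_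
  rw [map_add, map_smul, map_smul, coef_mon, coef_mon]
  by_cases ha : n = a
  · subst ha; rw [if_pos rfl, if_neg (by omega)]; simp
  · by_cases hb : n = a + 1
    · subst hb; rw [if_neg ha, if_pos rfl]; simp
    · rw [if_neg ha, if_neg hb]
      rcases lt_or_gt_of_ne ha with h | h
      · rw [h1 n h]; simp
      · rw [h2 n (by omega)]; simp
lemma eq_three {x : W} (h1 : GE (-1) x) (h2 : LE 1 x) :
    x = coef (-1) x • mon (-1) + coef 0 x • 1 + coef 1 x • mon 1 := by
  refine ext_coef fun n => ?_
  rw [map_add, map_add, map_smul, map_smul, map_smul, coef_mon, coef_mon, coef_one]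
  by_cases ha : n = -1
  · subst ha; simp
  · by_cases hb : n = 0
    · subst hb; simp
    · by_cases hc : n = 1
      · subst hc; simp
      · rw [if_neg ha, if_neg hb, if_neg hc]
        rcases lt_or_gt_of_ne hb with h | h
        · rw [h1 n (by omega)]; simp
        · rw [h2 n (by omega)]; simp

end W

end Pool.Agent.MP_efb2da_gt
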